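import Pool.Agent.SYL2.Defs

set_option autoImplicit false

/-! # SYL2, row B1: what the character table shows -/

namespace SYL2

open CategoryTheory

section Vis

variable {G H : Type} [Group G] [Group H] [Finite G] [Finite H] (c : CAI G H)

/-! ### counting in one group -/

omit [Finite H] in
theorem cnt_sigma (a b d : ConjClasses G) (N0 : ℕ)
    (h : ∀ z : G, ConjClasses.mk z = d →
      Nat.card {x : G // ConjClasses.mk x = a ∧ ConjClasses.mk (x⁻¹ * z) = b} = N0) :
    cnt a b d = cs d * N0 := by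
  classical
  have : Fintype {z : G // ConjClasses.mk z = d} := Fintype.ofFinite _
  let f : {q : G × G // ConjClasses.mk q.1 = a ∧ ConjClasses.mk q.2 = b ∧
      ConjClasses.mk (q.1 * q.2) = d} → {z : G // ConjClasses.mk z = d} :=
    fun q => ⟨q.1.1 * q.1.2, q.2.2.2⟩
  have hfib : ∀ z : {z : G // ConjClasses.mk z = d}, Nat.card {q // f q = z} = N0 := by
    intro z
    rw [← h z.1 z.2]
    refine Nat.card_congr
      { toFun := fun q => ⟨q.1.1.1, q.1.2.1, ?_⟩
        invFun := fun x => ⟨⟨(x.1, (x.1)⁻¹ * z.1), x.2.1, x.2.2, ?_⟩, ?_⟩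
        left_inv := fun q => ?_
        right_inv := fun x => rfl }
    · have h1 : q.1.1.1 * q.1.1.2 = z.1 := congrArg Subtype.val q.2
      rw [← h1, inv_mul_cancel_left]
      exact q.1.2.2.1
    · show ConjClasses.mk (x.1 * ((x.1)⁻¹ * z.1)) = d
      rw [mul_inv_cancel_left]
      exact z.2
    · exact Subtype.ext (mul_inv_cancel_left x.1 z.1)
    · have h1 : q.1.1.1 * q.1.1.2 = z.1 := congrArg Subtype.val q.2
      refine Subtype.ext (Subtype.ext (Prod.ext rfl ?_))
      show (q.1.1.1)⁻¹ * z.1 = q.1.1.2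
      rw [← h1, inv_mul_cancel_left]
  have : ∀ z : {z : G // ConjClasses.mk z = d}, Finite {q // f q = z} := fun z => inferInstance
  rw [cnt, ← Nat.card_congr (Equiv.sigmaFiberEquiv f), Nat.card_sigma]
  rw [Finset.sum_congr rfl fun z _ => hfib z]
  rw [Finset.sum_const, Finset.card_univ, smul_eq_mul, cs, Nat.card_eq_fintype_card]

theorem CAI.cnt_eq (a b d : ConjClasses G) : cnt (c.e a) (c.e b) (c.e d) = cnt a b d := by
  have hT := c.tab
  set N0 : ℕ := Nat.card {x : H // ConjClasses.mk x = c.e a ∧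
    ConjClasses.mk (x⁻¹ * (c.e d).out) = c.e b} with hN0
  have h1 : ∀ z : G, ConjClasses.mk z = d →
      Nat.card {x : G // ConjClasses.mk x = a ∧ ConjClasses.mk (x⁻¹ * z) = b} = N0 := by
    intro z hz
    exact struct_eq hT a b z (c.e d).out (by rw [hz, mk_out])
  have h2 : ∀ z : H, ConjClasses.mk z = c.e d →
      Nat.card {x : H // ConjClasses.mk x = c.e a ∧ ConjClasses.mk (x⁻¹ * z) = c.e b} = N0 := by
    intro z hz
    rw [← struct_eq hT a b d.out z (by rw [mk_out, hz])]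
    exact h1 d.out (mk_out d)
  rw [cnt_sigma a b d N0 h1, cnt_sigma (c.e a) (c.e b) (c.e d) N0 h2, card_class hT]

omit [Finite G] [Finite H] in
theorem CAI.exists_symm : ∃ c' : CAI H G, ∀ x y, c'.Rel y x ↔ c.Rel x y := by
  refine ⟨⟨c.e.symm, c.tab.symm⟩, fun x y => ?_⟩
  show c.e.symm (ConjClasses.mk y) = ConjClasses.mk x ↔ c.e (ConjClasses.mk x) = ConjClasses.mk y
  rw [Equiv.symm_apply_eq]
  exact eq_comm

theorem CAI.exists_rel (x : G) : ∃ y, c.Rel x y := exists_rep' c.e x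

theorem CAI.exists_rel' (y : H) : ∃ x, c.Rel x y := exists_rep c.e y

theorem CAI.rel_csz {x : G} {y : H} (h : c.Rel x y) : csz x = csz y := by
  unfold csz
  rw [cs_carrier, cs_carrier, ← card_class c.tab]
  exact congrArg cs h

include c in
theorem CAI.card_eq : Nat.card G = Nat.card H := SYL2.card_eq c.tab

theorem CAI.rel_inv {x : G} {y : H} (h : c.Rel x y) : c.Rel x⁻¹ y⁻¹ := map_inv c.tab h

omit [Finite G] [Finite H] in
theorem CAI.rel_conj {x : G} {y : H} (h : c.Rel x y) (g : G) (k : H) :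
    c.Rel (g * x * g⁻¹) (k * y * k⁻¹) := by
  show c.e (ConjClasses.mk (g * x * g⁻¹)) = ConjClasses.mk (k * y * k⁻¹)
  rw [mk_conj, mk_conj]
  exact h

omit [Finite G] [Finite H] in
theorem exists_conj_of_mk {x y : G} (h : ConjClasses.mk x = ConjClasses.mk y) :
    ∃ k, y = k * x * k⁻¹ := by
  rw [ConjClasses.mk_eq_mk_iff_isConj, isConj_iff] at h
  obtain ⟨k, hk⟩ := h
  exact ⟨k, hk.symm⟩

omit [Finite G] [Finite H] in
/-- elements related to the same element are conjugate. -/
theorem CAI.rel_unique {x : G} {y y' : H} (h : c.Rel x y) (h' : c.Rel x y') :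
    ∃ k, y' = k * y * k⁻¹ :=
  exists_conj_of_mk (h.symm.trans h')

omit [Finite G] [Finite H] in
theorem CAI.rel_unique' {x x' : G} {y : H} (h : c.Rel x y) (h' : c.Rel x' y) :
    ∃ k, x' = k * x * k⁻¹ :=
  exists_conj_of_mk (c.e.injective (h.trans h'.symm))

theorem CAI.rel_one {y : H} : c.Rel 1 y ↔ y = 1 := by
  constructor
  · intro h
    have h1 : ConjClasses.mk (1 : H) = ConjClasses.mk y := (map_one c.tab).symm.trans h
    obtain ⟨k, hk⟩ := exists_conj_of_mk h1
    rw [hk, mul_one, mul_inv_cancel]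
  · rintro rfl
    exact map_one c.tab

/-- products: every product of conjugates on one side is matched on the other side. -/
theorem CAI.rel_mul {x x' : G} {y y' z : H} (h : c.Rel x y) (h' : c.Rel x' y')
    (hz : c.Rel (x * x') z) : ∃ k l, z = (k * y * k⁻¹) * (l * y' * l⁻¹) := by
  obtain ⟨u, v, huv, hu, hv⟩ := exists_mul c.tab x x' z hz
  obtain ⟨k, hk⟩ := c.rel_unique h hu
  obtain ⟨l, hl⟩ := c.rel_unique h' hv
  exact ⟨k, l, by rw [← hk, ← hl, huv]⟩

theorem CAI.im_eq {N : Subgroup G} (hN : N.Normal) : c.im N = tr c.tab N hN := by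
  have h1 : {y | ∃ x ∈ N, c.Rel x y} = (tr c.tab N hN : Set H) := by
    ext y
    constructor
    · rintro ⟨x, hx, hxy⟩
      exact (mem_tr c.tab N hN hxy).2 hx
    · intro hy
      obtain ⟨x, hx⟩ := c.exists_rel' y
      exact ⟨x, (mem_tr c.tab N hN hx).1 hy, hx⟩
  unfold CAI.im
  rw [h1, Subgroup.closure_eq]

theorem CAI.im_normal {N : Subgroup G} (hN : N.Normal) : (c.im N).Normal := by
  rw [c.im_eq hN]
  exact tr_normal c.tab N hN

theorem CAI.mem_im {N : Subgroup G} (hN : N.Normal) {x : G} {y : H} (h : c.Rel x y) :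
    y ∈ c.im N ↔ x ∈ N := by
  rw [c.im_eq hN]
  exact mem_tr c.tab N hN h

theorem CAI.card_im {N : Subgroup G} (hN : N.Normal) : Nat.card (c.im N) = Nat.card N := by
  rw [c.im_eq hN]
  exact card_tr c.tab N hN

theorem CAI.im_le {N M : Subgroup G} (hN : N.Normal) (hM : M.Normal) :
    c.im N ≤ c.im M ↔ N ≤ M := by
  rw [c.im_eq hN, c.im_eq hM]
  exact tr_le_tr c.tab N hN hM

theorem CAI.im_surj {M : Subgroup H} (hM : M.Normal) :
    ∃ N : Subgroup G, N.Normal ∧ c.im N = M := by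
  refine ⟨tr c.tab.symm M hM, tr_normal c.tab.symm M hM, ?_⟩
  rw [c.im_eq (tr_normal c.tab.symm M hM)]
  exact tr_tr c.tab.symm M hM

theorem CAI.im_inj {N M : Subgroup G} (hN : N.Normal) (hM : M.Normal) (h : c.im N = c.im M) :
    N = M :=
  le_antisymm ((c.im_le hN hM).1 h.le) ((c.im_le hM hN).1 h.ge)

theorem CAI.im_inf {N M : Subgroup G} (hN : N.Normal) (hM : M.Normal) :
    c.im (N ⊓ M) = c.im N ⊓ c.im M := by
  have hNM : (N ⊓ M).Normal := ⟨fun x hx g => ⟨hN.conj_mem x hx.1 g, hM.conj_mem x hx.2 g⟩⟩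
  ext y
  obtain ⟨x, hx⟩ := c.exists_rel' y
  rw [Subgroup.mem_inf, c.mem_im hNM hx, c.mem_im hN hx, c.mem_im hM hx, Subgroup.mem_inf]

theorem CAI.im_bot : c.im ⊥ = ⊥ := by
  have hb : (⊥ : Subgroup G).Normal := inferInstance
  ext y
  obtain ⟨x, hx⟩ := c.exists_rel' y
  rw [c.mem_im hb hx, Subgroup.mem_bot, Subgroup.mem_bot]
  constructor
  · rintro rfl
    exact c.rel_one.1 hx
  · rintro rfl
    obtain ⟨k, hk⟩ := c.rel_unique' (c.rel_one.2 rfl) hx
    rw [hk, mul_one, mul_inv_cancel]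

theorem CAI.im_top : c.im ⊤ = ⊤ := by
  have hb : (⊤ : Subgroup G).Normal := inferInstance
  ext y
  obtain ⟨x, hx⟩ := c.exists_rel' y
  rw [c.mem_im hb hx]
  exact ⟨fun _ => Subgroup.mem_top _, fun _ => Subgroup.mem_top _⟩

omit [Finite G] [Finite H] in
theorem card_mul_relIndex {N M : Subgroup G} (h : N ≤ M) :
    Nat.card N * N.relIndex M = Nat.card M := by
  have h1 := Subgroup.relIndex_mul_relIndex (⊥ : Subgroup G) N M bot_le h
  rwa [Subgroup.relIndex_bot_left, Subgroup.relIndex_bot_left] at h1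

theorem CAI.relIndex_im {N M : Subgroup G} (hN : N.Normal) (hM : M.Normal) (h : N ≤ M) :
    (c.im N).relIndex (c.im M) = N.relIndex M := by
  have h1 := card_mul_relIndex h
  have h2 := card_mul_relIndex ((c.im_le hN hM).2 h)
  rw [c.card_im hN, c.card_im hM, ← h1] at h2
  exact Nat.eq_of_mul_eq_mul_left Nat.card_pos h2

/-! ### row B2: quotients -/

theorem CAI.quot (N : Subgroup G) [N.Normal] [(c.im N).Normal] :
    ∃ c' : CAI (G ⧸ N) (H ⧸ c.im N), ∀ x y, c.Rel x y →
      c'.Rel (QuotientGroup.mk x) (QuotientGroup.mk y) := by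
  have hN : N.Normal := inferInstance
  have hNN : ∀ g h, c.e (ConjClasses.mk g) = ConjClasses.mk h → (g ∈ N ↔ h ∈ c.im N) :=
    fun g h hgh => (c.mem_im hN hgh).symm
  exact ⟨⟨quotEquiv c.tab N (c.im N) hNN, quot_table c.tab N (c.im N) hNN⟩,
    fun x y hxy => quotEquiv_mk c.tab N (c.im N) hNN x y hxy⟩

/-! ### row B4: a bijection of the groups -/

theorem CAI.exists_bij : ∃ b : G ≃ H, ∀ x, c.Rel x (b x) := by
  classical
  have h1 : ∀ K : ConjClasses G, Nonempty ({g : G // ConjClasses.mk g = K} ≃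
      {h : H // ConjClasses.mk h = c.e K}) := by
    intro K
    have h2 : Nat.card {g : G // ConjClasses.mk g = K} =
        Nat.card {h : H // ConjClasses.mk h = c.e K} := (card_class c.tab K).symm
    exact Finite.card_eq.1 h2
  let f := fun K => Classical.choice (h1 K)
  let F : G ≃ H := (Equiv.sigmaFiberEquiv (fun g : G => ConjClasses.mk g)).symm.trans
    ((Equiv.sigmaCongr c.e f).trans (Equiv.sigmaFiberEquiv (fun h : H => ConjClasses.mk h)))
  refine ⟨F, fun x => ?_⟩
  exact (f (ConjClasses.mk x) ⟨x, rfl⟩).2.symm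

end Vis

end SYL2
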