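import Pool.Agent.SYL2.B1

set_option autoImplicit false

/-! # SYL2, row B1b: transport of characteristic constructions -/

namespace SYL2

section Vis

variable {G H : Type} [Group G] [Group H] [Finite G] [Finite H] (c : CAI G H)

/-- suprema of normal subgroups are normal -/
theorem sSup_normal {G : Type} [Group G] (𝒮 : Set (Subgroup G)) (h : ∀ N ∈ 𝒮, N.Normal) :
    (sSup 𝒮).Normal := by
  refine ⟨fun x hx g => ?_⟩
  have h1 : sSup 𝒮 ≤ (sSup 𝒮).comap (MulAut.conj g).toMonoidHom := by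
    refine sSup_le fun N hN y hy => ?_
    show g * y * g⁻¹ ∈ sSup 𝒮
    exact le_sSup hN ((h N hN).conj_mem y hy g)
  exact h1 hx

theorem CAI.im_sSup (Q : ℕ → Prop) {A : Subgroup G} (hA : A.Normal) :
    c.im (sSup {N | N.Normal ∧ A ≤ N ∧ Q (A.relIndex N)}) =
      sSup {N | N.Normal ∧ c.im A ≤ N ∧ Q ((c.im A).relIndex N)} := by
  have h1 : (sSup {N | N.Normal ∧ A ≤ N ∧ Q (A.relIndex N)}).Normal :=
    sSup_normal _ fun N hN => hN.1
  have h2 : (sSup {N | N.Normal ∧ c.im A ≤ N ∧ Q ((c.im A).relIndex N)}).Normal :=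
    sSup_normal _ fun N hN => hN.1
  refine le_antisymm ?_ ?_
  · obtain ⟨M, hM, hM'⟩ := c.im_surj h2
    rw [← hM', c.im_le h1 hM]
    refine sSup_le fun N hN => ?_
    rw [← c.im_le hN.1 hM, hM']
    refine le_sSup ⟨c.im_normal hN.1, (c.im_le hA hN.1).2 hN.2.1, ?_⟩
    rw [c.relIndex_im hA hN.1 hN.2.1]
    exact hN.2.2
  · refine sSup_le fun N' hN' => ?_
    obtain ⟨hN1, hN2, hN3⟩ := hN'
    obtain ⟨N, hN, rfl⟩ := c.im_surj hN1
    have hAN : A ≤ N := (c.im_le hA hN).1 hN2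
    rw [c.im_le hN h1]
    refine le_sSup ⟨hN, hAN, ?_⟩
    rw [← c.relIndex_im hA hN hAN]
    exact hN3

theorem CAI.im_OpR (p : ℕ) {A : Subgroup G} (hA : A.Normal) :
    c.im (OpR p A) = OpR p (c.im A) :=
  c.im_sSup (fun n => ∃ k, n = p ^ k) hA

theorem CAI.im_OqR (p : ℕ) {A : Subgroup G} (hA : A.Normal) :
    c.im (OqR p A) = OqR p (c.im A) :=
  c.im_sSup (fun n => n.Coprime p) hA

/-- closures of conjugation invariant sets are normal -/
theorem closure_normal {G : Type} [Group G] (X : Set G)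
    (h : ∀ x ∈ X, ∀ g : G, g * x * g⁻¹ ∈ X) : (Subgroup.closure X).Normal := by
  refine ⟨fun x hx g => ?_⟩
  have h1 : Subgroup.closure X ≤ (Subgroup.closure X).comap (MulAut.conj g).toMonoidHom := by
    rw [Subgroup.closure_le]
    intro y hy
    exact Subgroup.subset_closure (h y hy g)
  exact h1 hx

theorem CAI.im_closure {X : Set G} {Y : Set H} (hX : ∀ x ∈ X, ∀ g : G, g * x * g⁻¹ ∈ X)
    (hY : ∀ y ∈ Y, ∀ h : H, h * y * h⁻¹ ∈ Y) (hXY : ∀ x y, c.Rel x y → (x ∈ X ↔ y ∈ Y)) :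
    c.im (Subgroup.closure X) = Subgroup.closure Y := by
  have h1 := closure_normal X hX
  have h2 := closure_normal Y hY
  refine le_antisymm ?_ ?_
  · obtain ⟨M, hM, hM'⟩ := c.im_surj h2
    rw [← hM', c.im_le h1 hM, Subgroup.closure_le]
    intro x hx
    obtain ⟨y, hy⟩ := c.exists_rel x
    rw [SetLike.mem_coe, ← c.mem_im hM hy, hM']
    exact Subgroup.subset_closure ((hXY x y hy).1 hx)
  · rw [Subgroup.closure_le]
    intro y hy
    obtain ⟨x, hx⟩ := c.exists_rel' y
    rw [SetLike.mem_coe, c.mem_im h1 hx]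
    exact Subgroup.subset_closure ((hXY x y hx).2 hy)

omit [Finite G] [Finite H] in
theorem csz_conj (x g : G) : csz (g * x * g⁻¹) = csz x := by
  unfold csz
  rw [mk_conj]

theorem CAI.im_Ac (p : ℕ) : c.im (Ac p G) = Ac p H := by
  have hb : (⊥ : Subgroup G).Normal := inferInstance
  have hO : (OpR p (⊥ : Subgroup G)).Normal := sSup_normal _ fun N hN => hN.1
  have hO' : (OpR p (⊥ : Subgroup H)).Normal := sSup_normal _ fun N hN => hN.1
  refine c.im_closure ?_ ?_ ?_
  · rintro x ⟨h1, h2⟩ g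
    exact ⟨hO.conj_mem x h1 g, by rwa [csz_conj]⟩
  · rintro x ⟨h1, h2⟩ g
    exact ⟨hO'.conj_mem x h1 g, by rwa [csz_conj]⟩
  · intro x y hxy
    show (x ∈ OpR p (⊥ : Subgroup G) ∧ ¬ p ∣ csz x) ↔ (y ∈ OpR p (⊥ : Subgroup H) ∧ ¬ p ∣ csz y)
    rw [← c.mem_im hO hxy, c.im_OpR p hb, c.im_bot, c.rel_csz hxy]

include c in
theorem CAI.ps {p : ℕ} (h : PS p G) : PS p H := by
  intro N' M' hN' hM' hlt
  obtain ⟨N, hN, rfl⟩ := c.im_surj hN'
  obtain ⟨M, hM, rfl⟩ := c.im_surj hM'
  have h1 : N < M := by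
    refine lt_of_le_of_ne ((c.im_le hN hM).1 hlt.le) ?_
    rintro rfl
    exact lt_irrefl _ hlt
  obtain ⟨L, hL, hNL, hLM, h2⟩ := h N M hN hM h1
  refine ⟨c.im L, c.im_normal hL, ?_, (c.im_le hL hM).2 hLM, ?_⟩
  · refine lt_of_le_of_ne ((c.im_le hN hL).2 hNL.le) fun he => ?_
    exact absurd (c.im_inj hN hL he) hNL.ne
  · rw [c.relIndex_im hN hL hNL.le]
    exact h2

include c in
theorem CAI.mono (h : Mono G) : Mono H := by
  intro N' M' hN' hM' hi
  obtain ⟨N, hN, rfl⟩ := c.im_surj hN'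
  obtain ⟨M, hM, rfl⟩ := c.im_surj hM'
  have hb : (⊥ : Subgroup G).Normal := inferInstance
  have hNM : (N ⊓ M).Normal := ⟨fun x hx g => ⟨hN.conj_mem x hx.1 g, hM.conj_mem x hx.2 g⟩⟩
  rw [← c.im_inf hN hM] at hi
  have h1 : N ⊓ M = ⊥ := c.im_inj hNM hb (by rw [hi, c.im_bot])
  rcases h N M hN hM h1 with rfl | rfl
  · exact Or.inl c.im_bot
  · exact Or.inr c.im_bot

/-- a nontrivial soluble group has a nontrivial normal subgroup of prime power order -/
theorem exists_normal_pgroup {G : Type} [Group G] [Finite G] [Nontrivial G]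
    (hs : Group.IsSolvable G) : ∃ N : Subgroup G, N.Normal ∧ N ≠ ⊥ ∧ ∃ p k : ℕ, p.Prime ∧
      Nat.card N = p ^ k := by
  classical
  have hne : {N : Subgroup G | N.Normal ∧ N ≠ ⊥}.Nonempty :=
    ⟨⊤, inferInstance, top_ne_bot⟩
  obtain ⟨N, hNmin⟩ := (Set.toFinite {N : Subgroup G | N.Normal ∧ N ≠ ⊥}).exists_minimal hne
  have hN : N.Normal := hNmin.prop.1
  have hN0 : N ≠ ⊥ := hNmin.prop.2
  have hmin : ∀ M : Subgroup G, M.Normal → M ≠ ⊥ → M ≤ N → M = N := fun M hM hM0 hMN =>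
    le_antisymm hMN (hNmin.le_of_le ⟨hM, hM0⟩ hMN)
  have hcomm : ∀ x ∈ N, ∀ y ∈ N, x * y = y * x := by
    have h1 : ⁅N, N⁆ < N := Group.IsSolvable.commutator_lt_of_ne_bot hN0
    have h2 : ⁅N, N⁆ = ⊥ := by
      by_contra h3
      exact h1.ne (hmin _ inferInstance h3 h1.le)
    intro x hx y hy
    have h3 := Subgroup.commutator_mem_commutator hx hy
    rw [h2, Subgroup.mem_bot, commutatorElement_eq_one_iff_mul_comm] at h3
    exact h3
  have hcard : Nat.card N ≠ 1 := fun h => hN0 (Subgroup.eq_bot_of_card_eq N h)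
  obtain ⟨p, hp, hpd⟩ := Nat.exists_prime_and_dvd hcard
  have : Fact p.Prime := ⟨hp⟩
  let M : Subgroup G :=
    { carrier := {x | x ∈ N ∧ x ^ p = 1}
      one_mem' := ⟨N.one_mem, one_pow _⟩
      mul_mem' := by
        rintro a b ⟨ha, ha'⟩ ⟨hb, hb'⟩
        refine ⟨N.mul_mem ha hb, ?_⟩
        have h4 : Commute a b := hcomm a ha b hb
        rw [h4.mul_pow, ha', hb', one_mul]
      inv_mem' := by
        rintro a ⟨ha, ha'⟩
        exact ⟨N.inv_mem ha, by rw [inv_pow, ha', inv_one]⟩ }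
  have hM : M.Normal := ⟨fun x hx g => ⟨hN.conj_mem x hx.1 g, by
    rw [conj_pow, hx.2, mul_one, mul_inv_cancel]⟩⟩
  have hM0 : M ≠ ⊥ := by
    obtain ⟨x, hx⟩ := exists_prime_orderOf_dvd_card' (G := N) p hpd
    intro h
    have h1 : (x : G) ∈ M := ⟨x.2, by
      have : x ^ p = 1 := by rw [← hx]; exact pow_orderOf_eq_one x
      exact_mod_cast congrArg Subtype.val this⟩
    rw [h, Subgroup.mem_bot] at h1
    have h2 : x = 1 := Subtype.ext h1
    rw [h2, orderOf_one] at hx
    exact hp.one_lt.ne hx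
  have hMN : M = N := hmin M hM hM0 fun x hx => hx.1
  have hpg : IsPGroup p N := by
    intro x
    refine ⟨1, ?_⟩
    have h1 : (x : G) ∈ M := by rw [hMN]; exact x.2
    rw [pow_one]
    exact Subtype.ext h1.2
  obtain ⟨k, hk⟩ := IsPGroup.iff_card.1 hpg
  exact ⟨N, hN, hN0, p, k, hp, hk⟩

theorem CAI.solvable_aux : ∀ n : ℕ, ∀ {G H : Type} [Group G] [Group H] [Finite G] [Finite H]
    (_ : CAI G H), Nat.card G ≤ n → Group.IsSolvable G → Group.IsSolvable H := by
  intro n
  induction n with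
  | zero =>
    intro G H _ _ _ _ c hn hG
    have := Nat.card_pos (α := G)
    omega
  | succ n ih =>
    intro G H _ _ _ _ c hn hG
    rcases subsingleton_or_nontrivial G with hs | hs
    · have h1 : Nat.card H = 1 := by
        rw [← c.card_eq]
        exact Nat.card_of_subsingleton 1
      have h2 : Subsingleton H := (Nat.card_eq_one_iff_unique.1 h1).1
      exact Group.isSolvable_of_comm fun a b => Subsingleton.elim _ _
    · obtain ⟨N, hN, hN0, p, k, hp, hk⟩ := exists_normal_pgroup hG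
      have := c.im_normal hN
      obtain ⟨c', -⟩ := c.quot N
      have hlt : Nat.card (G ⧸ N) < Nat.card G := by
        have h1 := Subgroup.card_eq_card_quotient_mul_card_subgroup N
        have h2 : 1 < Nat.card N := by
          rcases Nat.lt_or_ge 1 (Nat.card N) with h | h
          · exact h
          · exfalso
            have h3 := Nat.card_pos (α := N)
            exact hN0 (Subgroup.eq_bot_of_card_eq N (by omega))
        have h3 := Nat.card_pos (α := G ⧸ N)
        rw [h1]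
        exact lt_mul_of_one_lt_right h3 h2
      have h1 : Group.IsSolvable (H ⧸ c.im N) := ih c' (by omega)
        ((Group.isSolvable_iff_subgroup_quotient N).1 hG).2
      have : Fact p.Prime := ⟨hp⟩
      have h2 : IsPGroup p (c.im N) := IsPGroup.of_card (n := k) (by rw [c.card_im hN, hk])
      have h3 : Group.IsNilpotent (c.im N) := h2.isNilpotent
      have h4 : Group.IsSolvable (c.im N) := IsNilpotent.to_isSolvable
      exact (Group.isSolvable_iff_subgroup_quotient (c.im N)).2 ⟨h4, h1⟩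

include c in
theorem CAI.solvable (h : Group.IsSolvable G) : Group.IsSolvable H :=
  CAI.solvable_aux (Nat.card G) c le_rfl h

end Vis

end SYL2
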