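import Pool.Agent.SYL2.B1

set_option autoImplicit false

/-! # SYL2, row B3: p-power exponents of elements with class size prime to p are visible -/

namespace SYL2

section PowIff

/-- number of lists of length `k` with entries in the class `a` and product `g`. -/
noncomputable def lc {G : Type} [Group G] (a : ConjClasses G) (k : ℕ) (g : G) : ℕ :=
  Nat.card {l : List G // l.length = k ∧ (∀ z ∈ l, ConjClasses.mk z = a) ∧ l.prod = g}

theorem lc_fin {G : Type} [Group G] [Finite G] (a : ConjClasses G) (k : ℕ) (g : G) :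
    Finite {l : List G // l.length = k ∧ (∀ z ∈ l, ConjClasses.mk z = a) ∧ l.prod = g} := by
  have h : {l : List G | l.length = k}.Finite := List.finite_length_eq G k
  exact (h.subset (fun l hl => hl.1) : Set.Finite
    {l : List G | l.length = k ∧ (∀ z ∈ l, ConjClasses.mk z = a) ∧ l.prod = g}).to_subtype

theorem sum_fib {X C : Type} [Finite X] [Fintype C] (m : X → C) (φ : C → ℕ) :
    ∑ᶠ x : X, φ (m x) = ∑ c : C, Nat.card {x : X // m x = c} * φ c := by
  classical
  have : Fintype X := Fintype.ofFinite X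
  rw [finsum_eq_sum_of_fintype]
  rw [← Finset.sum_fiberwise Finset.univ m]
  refine Finset.sum_congr rfl fun c _ => ?_
  rw [Finset.sum_congr rfl (fun x hx => by rw [(Finset.mem_filter.1 hx).2] :
    ∀ x ∈ Finset.univ.filter (fun x => m x = c), φ (m x) = φ c)]
  rw [Finset.sum_const, smul_eq_mul, Nat.card_eq_fintype_card, Fintype.card_subtype]

theorem lc_zero {G : Type} [Group G] (a : ConjClasses G) (g : G) :
    lc a 0 g = Nat.card {_u : Unit // g = 1} := by
  refine Nat.card_congr
    { toFun := fun l => ⟨(), ?_⟩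
      invFun := fun u => ⟨[], rfl, ?_, ?_⟩
      left_inv := fun l => ?_
      right_inv := fun u => rfl }
  · have h := l.2
    rw [List.length_eq_zero_iff] at h
    rw [← h.2.2, h.1]
    rfl
  · intro z hz
    exact absurd hz List.not_mem_nil
  · rw [u.2]
    rfl
  · refine Subtype.ext ?_
    exact (List.length_eq_zero_iff.1 l.2.1).symm

theorem lc_succ {G : Type} [Group G] [Finite G] (a : ConjClasses G) (k : ℕ) (g : G) :
    lc a (k + 1) g = ∑ᶠ x : {x : G // ConjClasses.mk x = a}, lc a k (x.1⁻¹ * g) := by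
  classical
  have : Fintype {x : G // ConjClasses.mk x = a} := Fintype.ofFinite _
  have hf := fun w : G => lc_fin a k w
  rw [finsum_eq_sum_of_fintype]
  unfold lc
  rw [← Nat.card_sigma]
  have hne : ∀ l : {l : List G // l.length = k + 1 ∧ (∀ z ∈ l, ConjClasses.mk z = a) ∧
      l.prod = g}, l.1 ≠ [] := by
    intro l h
    have h1 := l.2.1
    rw [h] at h1
    simp at h1
  refine Nat.card_congr
    { toFun := fun l => ⟨⟨l.1.head (hne l), ?_⟩, ⟨l.1.tail, ?_, ?_, ?_⟩⟩
      invFun := fun s => ⟨s.1.1 :: s.2.1, ?_, ?_, ?_⟩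
      left_inv := fun l => ?_
      right_inv := fun s => ?_ }
  · exact l.2.2.1 _ (List.head_mem _)
  · rw [List.length_tail, l.2.1]
    rfl
  · intro z hz
    exact l.2.2.1 z (List.mem_of_mem_tail hz)
  · have h1 : l.1.head (hne l) :: l.1.tail = l.1 := List.cons_head_tail _
    have h2 : l.1.head (hne l) * l.1.tail.prod = g := by
      have h3 := congrArg List.prod h1
      rw [List.prod_cons, l.2.2.2] at h3
      exact h3
    exact eq_inv_mul_of_mul_eq h2
  · rw [List.length_cons, s.2.2.1]
  · intro z hz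
    rcases List.mem_cons.1 hz with h | h
    · rw [h]
      exact s.1.2
    · exact s.2.2.2.1 z h
  · rw [List.prod_cons, s.2.2.2.2, mul_inv_cancel_left]
  · refine Subtype.ext ?_
    exact List.cons_head_tail _
  · rfl

variable {G H : Type} [Group G] [Group H] [Finite G] [Finite H] (c : CAI G H)

omit [Finite G] in
theorem card_sub (a b : ConjClasses G) (g : G) :
    Nat.card {x : {x : G // ConjClasses.mk x = a} // ConjClasses.mk (x.1⁻¹ * g) = b} =
      Nat.card {x : G // ConjClasses.mk x = a ∧ ConjClasses.mk (x⁻¹ * g) = b} :=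
  Nat.card_congr (Equiv.subtypeSubtypeEquivSubtypeInter _
    (fun x : G => ConjClasses.mk (x⁻¹ * g) = b))

theorem CAI.lc_eq (a : ConjClasses G) (k : ℕ) :
    ∀ (g : G) (h : H), c.Rel g h → lc a k g = lc (c.e a) k h := by
  classical
  induction k with
  | zero =>
    intro g h hgh
    rw [lc_zero, lc_zero]
    have h1 : g = 1 ↔ h = 1 := by
      constructor
      · intro hg
        rw [hg] at hgh
        exact c.rel_one.1 hgh
      · intro hh
        obtain ⟨c', hc'⟩ := c.exists_symm
        rw [hh] at hgh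
        exact c'.rel_one.1 ((hc' _ _).2 hgh)
    refine Nat.card_congr (Equiv.subtypeEquivRight fun _ => h1)
  | succ k ih =>
    intro g h hgh
    have : Fintype (ConjClasses G) := Fintype.ofFinite _
    have : Fintype (ConjClasses H) := Fintype.ofFinite _
    set φ : ConjClasses G → ℕ := fun b => lc (c.e a) k (c.e b).out with hφ
    have hG : ∀ w : G, lc a k w = φ (ConjClasses.mk w) := by
      intro w
      refine ih w _ ?_
      show c.e (ConjClasses.mk w) = ConjClasses.mk (c.e (ConjClasses.mk w)).out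
      rw [mk_out]
    have hH : ∀ w : H, lc (c.e a) k w = φ (c.e.symm (ConjClasses.mk w)) := by
      intro w
      obtain ⟨x, hx⟩ := c.exists_rel' w
      have h1 : c.e.symm (ConjClasses.mk w) = ConjClasses.mk x := by
        rw [← show c.e (ConjClasses.mk x) = ConjClasses.mk w from hx, Equiv.symm_apply_apply]
      rw [h1, ← hG x]
      exact (ih x w hx).symm
    rw [lc_succ, lc_succ]
    rw [finsum_congr fun x : {x : G // ConjClasses.mk x = a} => hG (x.1⁻¹ * g)]
    rw [finsum_congr fun x : {x : H // ConjClasses.mk x = c.e a} => hH (x.1⁻¹ * h)]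
    rw [sum_fib (fun x : {x : G // ConjClasses.mk x = a} => ConjClasses.mk (x.1⁻¹ * g)) φ]
    rw [sum_fib (fun x : {x : H // ConjClasses.mk x = c.e a} => ConjClasses.mk (x.1⁻¹ * h))
      (fun b => φ (c.e.symm b))]
    rw [← Equiv.sum_comp c.e]
    refine Finset.sum_congr rfl fun b _ => ?_
    rw [Equiv.symm_apply_apply, card_sub, card_sub]
    rw [struct_eq c.tab a b g h hgh]

open Classical in
/-- rotation of lists -/
theorem lc_mod {p : ℕ} [Fact p.Prime] (x : G) (n : ℕ) :
    lc (ConjClasses.mk x) (p ^ n) 1 ≡ (if x ^ (p ^ n) = 1 then csz x else 0) [MOD p] := by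
  classical
  have hfin := lc_fin (ConjClasses.mk x) (p ^ n) (1 : G)
  set α := {l : List G // l.length = p ^ n ∧ (∀ z ∈ l, ConjClasses.mk z = ConjClasses.mk x) ∧
    l.prod = 1} with hα
  have : Fintype α := Fintype.ofFinite α
  have hrot : ∀ (l : α) (j : ℕ), (l.1.rotate j).length = p ^ n ∧
      (∀ z ∈ l.1.rotate j, ConjClasses.mk z = ConjClasses.mk x) ∧ (l.1.rotate j).prod = 1 := by
    intro l j
    refine ⟨by rw [List.length_rotate, l.2.1], fun z hz => l.2.2.1 z (List.mem_rotate.1 hz), ?_⟩
    exact List.prod_rotate_eq_one_of_prod_eq_one l.2.2.2 j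
  let f : Function.End α := fun l => ⟨l.1.rotate 1, hrot l 1⟩
  have hpow : ∀ j : ℕ, ∀ l : α, ((f ^ j) l).1 = l.1.rotate j := by
    intro j
    induction j with
    | zero =>
      intro l
      show l.1 = _
      rw [List.rotate_zero]
    | succ j ih =>
      intro l
      rw [pow_succ]
      show ((f ^ j) (f l)).1 = _
      rw [ih]
      show (l.1.rotate 1).rotate j = _
      rw [List.rotate_rotate, add_comm]
  have hf : f ^ p ^ n = 1 := by
    funext l
    refine Subtype.ext ?_
    rw [hpow]
    show _ = l.1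
    have h1 := List.rotate_length l.1
    rw [l.2.1] at h1
    exact h1
  have key := Equiv.Perm.card_fixedPoints_modEq (p := p) hf
  have h1 : lc (ConjClasses.mk x) (p ^ n) 1 = Fintype.card α := by
    rw [← Nat.card_eq_fintype_card]
    rfl
  rw [h1]
  refine key.trans ?_
  have h2 : Fintype.card f.fixedPoints = (if x ^ (p ^ n) = 1 then csz x else 0) := by
    have hq : 0 < p ^ n := pow_pos (Fact.out : p.Prime).pos n
    have hrep : ∀ l : α, f l = l ↔ ∃ z, l.1 = List.replicate (p ^ n) z := by
      intro l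
      have : Nonempty G := ⟨1⟩
      have h3 := (List.rotate_one_eq_self_iff_eq_replicate (l := l.1))
      rw [l.2.1] at h3
      rw [← h3]
      exact ⟨fun h => congrArg Subtype.val h, fun h => Subtype.ext h⟩
    have hpw : ∀ z : G, ConjClasses.mk z = ConjClasses.mk x →
        (z ^ (p ^ n) = 1 ↔ x ^ (p ^ n) = 1) := by
      intro z hz
      obtain ⟨u, hu⟩ := exists_conj_of_mk hz
      rw [hu, conj_pow]
      constructor
      · intro h
        rw [h]
        simp
      · intro h
        have := congrArg (fun t => u⁻¹ * t * u) h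
        simpa [mul_assoc] using this
    rw [← Nat.card_eq_fintype_card]
    by_cases hx : x ^ (p ^ n) = 1
    · rw [if_pos hx]
      unfold csz
      refine Nat.card_congr (Equiv.symm (Equiv.ofBijective
        (fun z : (ConjClasses.mk x).carrier =>
          (⟨⟨List.replicate (p ^ n) z.1, List.length_replicate, ?_, ?_⟩, ?_⟩ :
            f.fixedPoints)) ⟨?_, ?_⟩))
      · intro w hw
        rw [List.eq_of_mem_replicate hw]
        exact ConjClasses.mem_carrier_iff_mk_eq.1 z.2
      · rw [List.prod_replicate]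
        exact (hpw z.1 (ConjClasses.mem_carrier_iff_mk_eq.1 z.2)).2 hx
      · exact (hrep _).2 ⟨z.1, rfl⟩
      · intro z z' h
        have h4 : List.replicate (p ^ n) z.1 = List.replicate (p ^ n) z'.1 :=
          congrArg (fun t : f.fixedPoints => t.1.1) h
        refine Subtype.ext ?_
        exact (List.replicate_right_inj hq.ne').1 h4
      · intro l
        obtain ⟨z, hz⟩ := (hrep l.1).1 l.2
        have hzx : ConjClasses.mk z = ConjClasses.mk x := by
          refine l.1.2.2.1 z ?_
          rw [hz]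
          exact List.mem_replicate.2 ⟨hq.ne', rfl⟩
        refine ⟨⟨z, ConjClasses.mem_carrier_iff_mk_eq.2 hzx⟩, ?_⟩
        exact Subtype.ext (Subtype.ext hz.symm)
    · rw [if_neg hx]
      have : IsEmpty f.fixedPoints := by
        refine ⟨fun l => ?_⟩
        obtain ⟨z, hz⟩ := (hrep l.1).1 l.2
        have hzx : ConjClasses.mk z = ConjClasses.mk x := by
          refine l.1.2.2.1 z ?_
          rw [hz]
          exact List.mem_replicate.2 ⟨hq.ne', rfl⟩
        refine hx ((hpw z hzx).1 ?_)
        have h5 := l.1.2.2.2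
        rw [hz, List.prod_replicate] at h5
        exact h5
      exact Nat.card_of_isEmpty
  rw [h2]

theorem pow_iff_dvd {p : ℕ} [Fact p.Prime] {x : G} (hx : ¬ p ∣ csz x) (n : ℕ) :
    x ^ (p ^ n) = 1 ↔ ¬ p ∣ lc (ConjClasses.mk x) (p ^ n) 1 := by
  have h := lc_mod (p := p) x n
  by_cases h1 : x ^ (p ^ n) = 1
  · rw [if_pos h1] at h
    refine ⟨fun _ hd => hx ?_, fun _ => h1⟩
    exact (Nat.ModEq.dvd_iff h (dvd_refl p)).1 hd
  · rw [if_neg h1] at h
    refine ⟨fun h2 => absurd h2 h1, fun hd => absurd ?_ hd⟩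
    exact (Nat.ModEq.dvd_iff h (dvd_refl p)).2 (dvd_zero p)

theorem CAI.pow_iff {p : ℕ} [Fact p.Prime] {x : G} {y : H} (h : c.Rel x y)
    (hx : ¬ p ∣ csz x) (n : ℕ) : x ^ (p ^ n) = 1 ↔ y ^ (p ^ n) = 1 := by
  have hy : ¬ p ∣ csz y := by
    rw [← c.rel_csz h]
    exact hx
  rw [pow_iff_dvd hx n, pow_iff_dvd hy n]
  have h1 := c.lc_eq (ConjClasses.mk x) (p ^ n) 1 1 (c.rel_one.2 rfl)
  rw [h1, show c.e (ConjClasses.mk x) = ConjClasses.mk y from h]

end PowIff

end SYL2
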