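import Pool.Agent.SYL2.Defs

set_option autoImplicit false

/-! # SYL2, row C1: `p`-solvable groups -/

namespace SYL2

variable {p : ℕ} [Fact p.Prime] {G H : Type} [Group G] [Group H] [Finite G] [Finite H]

omit [Fact p.Prime] [Finite G] in
/-- one step: if `M ⊓ A ≤ N` and `A ≤ B` then the index of `N` in `N ⊔ (M ⊓ B)` divides the
index of `A` in `B`. -/
theorem relIndex_step (N M A B : Subgroup G) [N.Normal] [M.Normal] [A.Normal] [B.Normal]
    (hAB : A ≤ B) (h : M ⊓ A ≤ N) : N.relIndex (N ⊔ (M ⊓ B)) ∣ A.relIndex B := by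
  rw [Subgroup.relIndex_sup_left]
  have h1 : N.relIndex (M ⊓ B) ∣ (M ⊓ A).relIndex (M ⊓ B) :=
    Subgroup.relIndex_dvd_of_le_left _ h
  have h2 : (M ⊓ A).relIndex (M ⊓ B) = A.relIndex (M ⊓ B) := by
    have h3 : M ⊓ A ⊓ (M ⊓ B) = A ⊓ (M ⊓ B) := by
      apply le_antisymm
      · exact le_inf (inf_le_left.trans inf_le_right) inf_le_right
      · exact le_inf (le_inf (inf_le_right.trans inf_le_left) inf_le_left) inf_le_right
    rw [← Subgroup.inf_relIndex_right, h3, Subgroup.inf_relIndex_right]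
  have h4 : A.relIndex (M ⊓ B) ∣ A.relIndex B := by
    have h5 : A ≤ A ⊔ (M ⊓ B) := le_sup_left
    have h6 : A ⊔ (M ⊓ B) ≤ B := sup_le hAB inf_le_right
    rw [← Subgroup.relIndex_mul_relIndex A (A ⊔ (M ⊓ B)) B h5 h6, Subgroup.relIndex_sup_left]
    exact dvd_mul_right _ _
  exact (h1.trans (h2 ▸ dvd_rfl)).trans h4

omit [Finite G] in
theorem ps_of_psolvable (h : PSolvable p G) : PS p G := by
  obtain ⟨n, f, h0, hn, hN, hle, hf⟩ := h
  intro N M hNn hMn hNM
  have key : ∃ i, N ⊔ (M ⊓ f i) ≤ N ∧ ¬ N ⊔ (M ⊓ f (i + 1)) ≤ N := by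
    by_contra hcon
    push Not at hcon
    have h1 : ∀ i, N ⊔ (M ⊓ f i) ≤ N := by
      intro i
      induction i with
      | zero => simp [h0]
      | succ i ih => exact hcon i ih
    have h2 := h1 n
    rw [hn, inf_top_eq] at h2
    exact absurd (le_sup_right.trans h2) (not_le_of_gt hNM)
  obtain ⟨i, hi, hi'⟩ := key
  have := hN i
  have := hN (i + 1)
  have hd := relIndex_step N M (f i) (f (i + 1)) (hle i) (le_sup_right.trans hi)
  refine ⟨N ⊔ (M ⊓ f (i + 1)), inferInstance, ?_, ?_, ?_⟩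
  · exact lt_of_le_of_ne le_sup_left (fun hh => hi' (le_of_eq hh.symm))
  · exact sup_le hNM.le inf_le_left
  · rcases hf i with ⟨k, hk⟩ | hc
    · left
      rw [hk] at hd
      obtain ⟨j, -, hj⟩ := (Nat.dvd_prime_pow Fact.out).1 hd
      exact ⟨j, hj⟩
    · right
      exact Nat.Coprime.coprime_dvd_left hd hc

theorem ps_of_solvable (h : Group.IsSolvable G) : PS p G := by
  classical
  intro N M hNn hMn hNM
  have := h
  have hsolv : Group.IsSolvable (G ⧸ N) := inferInstance
  let π := QuotientGroup.mk' N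
  have hker : π.ker = N := QuotientGroup.ker_mk' N
  have hπ : Function.Surjective π := QuotientGroup.mk'_surjective N
  have hMπ : (M.map π) ≠ ⊥ := by
    intro hh
    rw [Subgroup.map_eq_bot_iff, hker] at hh
    exact absurd hh (not_le_of_gt hNM)
  have hMπn : (M.map π).Normal := hMn.map π hπ
  -- a minimal nontrivial normal subgroup
  have hfin : {K : Subgroup (G ⧸ N) | K.Normal ∧ K ≤ M.map π ∧ K ≠ ⊥}.Finite := Set.toFinite _
  obtain ⟨K, hK⟩ := hfin.exists_minimal ⟨M.map π, hMπn, le_rfl, hMπ⟩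
  obtain ⟨⟨hKn, hKM, hK0⟩, hKmin⟩ := hK
  have hmin : ∀ L : Subgroup (G ⧸ N), L.Normal → L ≤ K → L = ⊥ ∨ L = K := by
    intro L hL hLK
    by_cases h0 : L = ⊥
    · exact Or.inl h0
    · exact Or.inr (le_antisymm hLK (hKmin ⟨hL, hLK.trans hKM, h0⟩ hLK))
  have hcomm : ⁅K, K⁆ = ⊥ := by
    have h1 : ⁅K, K⁆ < K := Group.IsSolvable.commutator_lt_of_ne_bot hK0
    rcases hmin ⁅K, K⁆ inferInstance h1.le with h2 | h2
    · exact h2
    · exact absurd h2 h1.ne
  have hKab : ∀ x ∈ K, ∀ y ∈ K, x * y = y * x := by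
    intro x hx y hy
    have h1 := Subgroup.commutator_mem_commutator hx hy
    rw [hcomm, Subgroup.mem_bot, commutatorElement_eq_one_iff_mul_comm] at h1
    exact h1
  let L : Subgroup (G ⧸ N) :=
    { carrier := {x | x ∈ K ∧ ∃ k, x ^ (p ^ k) = 1}
      one_mem' := ⟨K.one_mem, 0, one_pow _⟩
      mul_mem' := by
        rintro a b ⟨ha, k, hk⟩ ⟨hb, l, hl⟩
        refine ⟨K.mul_mem ha hb, k + l, ?_⟩
        have hab : Commute a b := hKab a ha b hb
        rw [hab.mul_pow, pow_add, pow_mul, hk, one_pow, mul_comm, pow_mul, hl, one_pow, one_mul]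
      inv_mem' := by
        rintro a ⟨ha, k, hk⟩
        exact ⟨K.inv_mem ha, k, by rw [inv_pow, hk, inv_one]⟩ }
  have hLn : L.Normal := ⟨by
    rintro x ⟨hx, k, hk⟩ g
    refine ⟨hKn.conj_mem x hx g, k, ?_⟩
    rw [conj_pow, hk]
    simp⟩
  have hLK : L ≤ K := fun x hx => hx.1
  have hcomapN : N ≤ K.comap π := by
    intro x hx
    rw [Subgroup.mem_comap]
    have : π x = 1 := by
      rw [← MonoidHom.mem_ker, hker]
      exact hx
    rw [this]
    exact K.one_mem
  have hrel : N.relIndex (K.comap π) = Nat.card K := by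
    have h1 := Subgroup.relIndex_ker (K := K.comap π) π
    rw [hker] at h1
    rw [h1, Subgroup.map_comap_eq_self_of_surjective hπ]
  refine ⟨K.comap π, inferInstance, ?_, ?_, ?_⟩
  · refine lt_of_le_of_ne hcomapN ?_
    intro hh
    apply hK0
    rw [← Subgroup.map_comap_eq_self_of_surjective hπ K, ← hh, Subgroup.map_eq_bot_iff, hker]
  · intro x hx
    rw [Subgroup.mem_comap] at hx
    obtain ⟨m, hm, hmx⟩ := hKM hx
    have h1 : m⁻¹ * x ∈ N := by
      rw [← hker, MonoidHom.mem_ker, _root_.map_mul, _root_.map_inv, hmx]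
      simp
    have h2 : m * (m⁻¹ * x) ∈ M := M.mul_mem hm (hNM.le h1)
    simpa using h2
  · rw [hrel]
    rcases hmin L hLn hLK with h1 | h1
    · right
      rw [Nat.coprime_comm, Nat.Prime.coprime_iff_not_dvd Fact.out]
      intro hdvd
      obtain ⟨x, hx⟩ := exists_prime_orderOf_dvd_card' p hdvd
      have h2 : (x : G ⧸ N) ∈ L := by
        refine ⟨x.2, 1, ?_⟩
        rw [pow_one, ← hx, ← Subgroup.orderOf_coe, pow_orderOf_eq_one]
      rw [h1, Subgroup.mem_bot] at h2
      have h3 : x = 1 := Subtype.ext h2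
      rw [h3, orderOf_one] at hx
      exact (Fact.out : p.Prime).one_lt.ne hx
    · left
      have hp : IsPGroup p K := by
        intro x
        have hx : (x : G ⧸ N) ∈ L := by
          rw [h1]
          exact x.2
        obtain ⟨-, k, hk⟩ := hx
        exact ⟨k, Subtype.ext (by simpa using hk)⟩
      obtain ⟨k, hk⟩ := IsPGroup.iff_card.1 hp
      exact ⟨k, hk⟩

omit [Fact p.Prime] [Finite G] in
theorem ps_quot (h : PS p G) (N : Subgroup G) [N.Normal] : PS p (G ⧸ N) := by
  intro A B hA hB hAB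
  let π := QuotientGroup.mk' N
  have hπ : Function.Surjective π := QuotientGroup.mk'_surjective N
  have hlt : A.comap π < B.comap π := by
    refine lt_of_le_of_ne (Subgroup.comap_mono hAB.le) ?_
    intro hh
    exact hAB.ne (Subgroup.comap_injective hπ hh)
  obtain ⟨L, hL, h1, h2, h3⟩ := h (A.comap π) (B.comap π) inferInstance inferInstance hlt
  have hrel : A.relIndex (L.map π) = (A.comap π).relIndex L := (Subgroup.relIndex_comap A π L).symm
  refine ⟨L.map π, hL.map π hπ, ?_, ?_, ?_⟩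
  · refine lt_of_le_of_ne ?_ ?_
    · rw [← Subgroup.map_comap_eq_self_of_surjective hπ A]
      exact Subgroup.map_mono h1.le
    · intro hh
      have h4 : L ≤ A.comap π := by
        rw [← Subgroup.map_le_iff_le_comap, ← hh]
      exact absurd h4 (not_le_of_gt h1)
  · rw [Subgroup.map_le_iff_le_comap]
    exact h2
  · rw [hrel]
    exact h3

end SYL2
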