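import Pool.Agent.SYL2.Defs

set_option autoImplicit false

/-! # SYL2, row C2: the subgroups `OpR`, `OqR`, `Ac` -/

namespace SYL2

variable {p : ℕ} [Fact p.Prime] {G H : Type} [Group G] [Group H] [Finite G] [Finite H]

omit [Fact p.Prime] [Finite G] in
theorem OpR_normal (A : Subgroup G) (_hA : A.Normal) : (OpR p A).Normal := by
  rw [OpR, sSup_eq_iSup]
  exact Subgroup.biSup_normal _ _ (fun N hN => hN.1)

omit [Fact p.Prime] [Finite G] in
theorem OqR_normal (A : Subgroup G) (_hA : A.Normal) : (OqR p A).Normal := by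
  rw [OqR, sSup_eq_iSup]
  exact Subgroup.biSup_normal _ _ (fun N hN => hN.1)

omit [Fact p.Prime] [Finite G] in
theorem mem_OpR_self (A : Subgroup G) (hA : A.Normal) :
    A ∈ {N : Subgroup G | N.Normal ∧ A ≤ N ∧ ∃ k, A.relIndex N = p ^ k} :=
  ⟨hA, le_rfl, 0, by simp⟩

omit [Fact p.Prime] [Finite G] in
theorem mem_OqR_self (A : Subgroup G) (hA : A.Normal) :
    A ∈ {N : Subgroup G | N.Normal ∧ A ≤ N ∧ (A.relIndex N).Coprime p} :=
  ⟨hA, le_rfl, by simp⟩

omit [Fact p.Prime] [Finite G] in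
theorem le_OpR (A : Subgroup G) (hA : A.Normal) : A ≤ OpR p A :=
  le_sSup (mem_OpR_self A hA)

omit [Fact p.Prime] [Finite G] in
theorem le_OqR (A : Subgroup G) (hA : A.Normal) : A ≤ OqR p A :=
  le_sSup (mem_OqR_self A hA)

omit [Finite G] in
theorem c2_relIndex_sup_dvd (A N M : Subgroup G) (_hN : N.Normal) (hM : M.Normal) (_hAN : A ≤ N)
    (hAM : A ≤ M) : A.relIndex (N ⊔ M) ∣ A.relIndex M * A.relIndex N := by
  rw [← Subgroup.relIndex_mul_relIndex A M (N ⊔ M) hAM le_sup_right]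
  refine mul_dvd_mul_left _ ?_
  rw [Subgroup.relIndex_sup_right]
  exact Subgroup.relIndex_dvd_of_le_left _ hAM

/-- a finite family closed under joins contains its supremum. -/
theorem c2_sSup_mem_of_sup {S : Set (Subgroup G)} (hne : S.Nonempty)
    (h : ∀ N ∈ S, ∀ M ∈ S, N ⊔ M ∈ S) : sSup S ∈ S := by
  obtain ⟨N, hN⟩ := (Set.toFinite S).exists_maximal hne
  have h1 : sSup S = N := by
    apply le_antisymm
    · refine sSup_le fun M hM => ?_
      exact le_sup_right.trans (hN.2 (h N hN.1 M hM) le_sup_left)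
    · exact le_sSup hN.1
  rw [h1]
  exact hN.1

theorem OpR_mem (A : Subgroup G) (hA : A.Normal) :
    OpR p A ∈ {N : Subgroup G | N.Normal ∧ A ≤ N ∧ ∃ k, A.relIndex N = p ^ k} := by
  refine c2_sSup_mem_of_sup ⟨A, mem_OpR_self A hA⟩ ?_
  rintro N ⟨hN, hAN, a, ha⟩ M ⟨hM, hAM, b, hb⟩
  refine ⟨inferInstance, hAN.trans le_sup_left, ?_⟩
  have hd := c2_relIndex_sup_dvd A N M hN hM hAN hAM
  rw [ha, hb, ← pow_add] at hd
  obtain ⟨k, -, hk⟩ := (Nat.dvd_prime_pow Fact.out).1 hd
  exact ⟨k, hk⟩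

theorem OqR_mem (A : Subgroup G) (hA : A.Normal) :
    OqR p A ∈ {N : Subgroup G | N.Normal ∧ A ≤ N ∧ (A.relIndex N).Coprime p} := by
  refine c2_sSup_mem_of_sup ⟨A, mem_OqR_self A hA⟩ ?_
  rintro N ⟨hN, hAN, ha⟩ M ⟨hM, hAM, hb⟩
  refine ⟨inferInstance, hAN.trans le_sup_left, ?_⟩
  have hd := c2_relIndex_sup_dvd A N M hN hM hAN hAM
  exact Nat.Coprime.coprime_dvd_left hd (Nat.Coprime.mul_left hb ha)

theorem OpR_relIndex (A : Subgroup G) (hA : A.Normal) : ∃ k, A.relIndex (OpR p A) = p ^ k :=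
  (OpR_mem A hA).2.2

theorem OqR_relIndex (A : Subgroup G) (hA : A.Normal) :
    (A.relIndex (OqR p A)).Coprime p :=
  (OqR_mem A hA).2.2

theorem OpR_bot_isPGroup : IsPGroup p (OpR p (⊥ : Subgroup G)) := by
  obtain ⟨k, hk⟩ := OpR_relIndex (p := p) (⊥ : Subgroup G) inferInstance
  rw [Subgroup.relIndex_bot_left] at hk
  exact IsPGroup.of_card hk

theorem OpR_le_sylow (P : Sylow p G) : OpR p (⊥ : Subgroup G) ≤ P := by
  have := OpR_normal (p := p) (⊥ : Subgroup G) inferInstance
  exact OpR_bot_isPGroup.le_sylow_of_normal P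

omit [Finite G] in
theorem c2_relIndex_map_mk (A N M : Subgroup G) [N.Normal] (h : N ≤ A) (hM : A ≤ M) :
    (A.map (QuotientGroup.mk' N)).relIndex (M.map (QuotientGroup.mk' N)) = A.relIndex M := by
  rw [Subgroup.relIndex_map_map, QuotientGroup.ker_mk', sup_eq_left.2 h,
    sup_eq_left.2 (h.trans hM)]

theorem c2_map_sSup_eq (A N : Subgroup G) [N.Normal] (h : N ≤ A)
    (P : ℕ → Prop) :
    (sSup {M : Subgroup G | M.Normal ∧ A ≤ M ∧ P (A.relIndex M)}).map (QuotientGroup.mk' N) =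
      sSup {M : Subgroup (G ⧸ N) | M.Normal ∧ A.map (QuotientGroup.mk' N) ≤ M ∧
        P ((A.map (QuotientGroup.mk' N)).relIndex M)} := by
  have hs := QuotientGroup.mk'_surjective N
  apply le_antisymm
  · rw [Subgroup.map_le_iff_le_comap]
    refine sSup_le ?_
    rintro M ⟨hM, hAM, hP⟩
    rw [← Subgroup.map_le_iff_le_comap]
    refine le_sSup ⟨hM.map _ hs, Subgroup.map_mono hAM, ?_⟩
    rw [c2_relIndex_map_mk A N M h hAM]
    exact hP
  · refine sSup_le ?_
    rintro M ⟨hM, hAM, hP⟩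
    have h1 : (M.comap (QuotientGroup.mk' N)).map (QuotientGroup.mk' N) = M :=
      Subgroup.map_comap_eq_self_of_surjective hs M
    rw [← h1]
    refine Subgroup.map_mono (le_sSup ⟨hM.comap _, ?_, ?_⟩)
    · rwa [← Subgroup.map_le_iff_le_comap]
    · rw [← c2_relIndex_map_mk A N _ h (by rwa [← Subgroup.map_le_iff_le_comap]), h1]
      exact hP

theorem OpR_quot (A N : Subgroup G) [N.Normal] (_hA : A.Normal) (h : N ≤ A) :
    (OpR p A).map (QuotientGroup.mk' N) = OpR p (A.map (QuotientGroup.mk' N)) :=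
  c2_map_sSup_eq A N h (fun n => ∃ k, n = p ^ k)

theorem OqR_quot (A N : Subgroup G) [N.Normal] (_hA : A.Normal) (h : N ≤ A) :
    (OqR p A).map (QuotientGroup.mk' N) = OqR p (A.map (QuotientGroup.mk' N)) :=
  c2_map_sSup_eq A N h (fun n => n.Coprime p)

omit [Finite G] in
theorem c2_csz_conj (g x : G) : csz (g * x * g⁻¹) = csz x := by
  rw [csz, csz, mk_conj]

omit [Fact p.Prime] in
theorem Ac_normal : (Ac p G).Normal := by
  refine ⟨fun n hn g => ?_⟩
  have hU := OpR_normal (p := p) (⊥ : Subgroup G) inferInstance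
  induction hn using Subgroup.closure_induction with
  | mem x hx =>
    refine Subgroup.subset_closure ⟨hU.conj_mem x hx.1 g, ?_⟩
    rw [c2_csz_conj]
    exact hx.2
  | one => simp
  | mul x y _ _ hx hy =>
    have : g * (x * y) * g⁻¹ = (g * x * g⁻¹) * (g * y * g⁻¹) := by group
    rw [this]
    exact mul_mem hx hy
  | inv x _ hx =>
    have : g * x⁻¹ * g⁻¹ = (g * x * g⁻¹)⁻¹ := by group
    rw [this]
    exact inv_mem hx

/-- the class size is the index of the centraliser. -/
theorem csz_eq_index (x : G) : csz x = (Subgroup.centralizer {x}).index := by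
  classical
  rw [csz, Subgroup.index]
  symm
  have hmem : ∀ g : G, g * x * g⁻¹ ∈ (ConjClasses.mk x).carrier := fun g => by
    rw [ConjClasses.mem_carrier_iff_mk_eq, mk_conj]
  have key : ∀ g h : G, g⁻¹ * h ∈ Subgroup.centralizer {x} ↔
      g * x * g⁻¹ = h * x * h⁻¹ := by
    intro g h
    rw [Subgroup.mem_centralizer_singleton_iff]
    constructor
    · intro hh
      have h1 : g * (g⁻¹ * h * x) * h⁻¹ = g * (x * (g⁻¹ * h)) * h⁻¹ := by rw [hh]
      calc g * x * g⁻¹ = g * (x * (g⁻¹ * h)) * h⁻¹ := by group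
        _ = g * (g⁻¹ * h * x) * h⁻¹ := h1.symm
        _ = h * x * h⁻¹ := by group
    · intro hh
      calc g⁻¹ * h * x = g⁻¹ * (h * x * h⁻¹) * h := by group
        _ = g⁻¹ * (g * x * g⁻¹) * h := by rw [hh]
        _ = x * (g⁻¹ * h) := by group
  let f : G ⧸ Subgroup.centralizer {x} → (ConjClasses.mk x).carrier :=
    Quotient.lift (fun g => ⟨g * x * g⁻¹, hmem g⟩) (by
      intro g h hgh
      exact Subtype.ext ((key g h).1 (QuotientGroup.leftRel_apply.1 hgh)))
  refine Nat.card_congr (Equiv.ofBijective f ⟨?_, ?_⟩)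
  · intro a b hab
    induction a using QuotientGroup.induction_on with
    | _ g =>
    induction b using QuotientGroup.induction_on with
    | _ h =>
    rw [QuotientGroup.eq, key]
    exact congrArg Subtype.val hab
  · rintro ⟨y, hy⟩
    rw [ConjClasses.mem_carrier_iff_mk_eq, eq_comm, ConjClasses.mk_eq_mk_iff_isConj,
      isConj_iff] at hy
    obtain ⟨g, hg⟩ := hy
    exact ⟨QuotientGroup.mk g, Subtype.ext hg⟩

/-- an element whose class size is prime to `p` is centralised by a Sylow subgroup. -/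
theorem exists_sylow_le_centralizer {x : G} (hx : ¬ p ∣ csz x) :
    ∃ P : Sylow p G, (P : Subgroup G) ≤ Subgroup.centralizer {x} := by
  let C := Subgroup.centralizer {x}
  let P : Sylow p C := default
  have h1 : IsPGroup p ((P : Subgroup C).map C.subtype) := P.isPGroup'.map _
  have h2 : ¬ p ∣ ((P : Subgroup C).map C.subtype).index := by
    rw [Subgroup.index_map_subtype, Nat.Prime.dvd_mul Fact.out]
    rintro (h | h)
    · exact P.not_dvd_index h
    · exact hx (by rw [csz_eq_index]; exact h)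
  refine ⟨h1.toSylow h2, ?_⟩
  rw [IsPGroup.toSylow_coe]
  exact Subgroup.map_subtype_le _

/-- elements of `O_p(G)` commute with the elements of class size prime to `p`. -/
theorem comm_of_csz {x y : G} (hx : ¬ p ∣ csz x) (hy : y ∈ OpR p (⊥ : Subgroup G)) :
    x * y = y * x := by
  obtain ⟨P, hP⟩ := exists_sylow_le_centralizer hx
  have h1 := hP (OpR_le_sylow P hy)
  rw [Subgroup.mem_centralizer_singleton_iff] at h1
  exact h1.symm

/-- Elements of `A` commute with `O_p(G)`. -/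
theorem Ac_comm {x y : G} (hx : x ∈ Ac p G) (hy : y ∈ OpR p (⊥ : Subgroup G)) :
    x * y = y * x := by
  induction hx using Subgroup.closure_induction with
  | mem x hx => exact comm_of_csz hx.2 hy
  | one => simp
  | mul a b _ _ ha hb => rw [mul_assoc, hb, ← mul_assoc, ha, mul_assoc]
  | inv a _ ha =>
    rw [inv_mul_eq_iff_eq_mul, ← mul_assoc, ha, mul_assoc, mul_inv_cancel, mul_one]

end SYL2
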