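import Pool.Agent.SYL2.Defs
import Pool.Agent.SYL2.B1
import Pool.Agent.SYL2.B1b
import Pool.Agent.SYL2.C2

set_option autoImplicit false

/-! # SYL2, row C10, first part: the visible bijection from `S` to `S'` (with
the statement of row C9 as a hypothesis) -/

namespace SYL2

section Grp

variable {p : ℕ} [Fact p.Prime] {G H : Type} [Group G] [Group H] [Finite G] [Finite H]

/-! ### one side -/

omit [Fact p.Prime] [Finite G] in
theorem c10_vk {V K D S : Subgroup G} (cfg : GCfg p V K D S) (g : G) :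
    ∃ v ∈ V, ∃ k ∈ K, g = v * k := by
  obtain ⟨⟨v, k⟩, h⟩ := cfg.compl.2 g
  exact ⟨v.1, v.2, k.1, k.2, h.symm⟩

omit [Fact p.Prime] [Finite G] in
theorem c10_inf {V K D S : Subgroup G} (cfg : GCfg p V K D S) {x : G} (hV : x ∈ V)
    (hK : x ∈ K) : x = 1 := by
  have h := cfg.compl.disjoint
  have h2 : x ∈ V ⊓ K := ⟨hV, hK⟩
  rw [disjoint_iff.1 h] at h2
  exact h2

omit [Fact p.Prime] [Finite G] in
theorem c10_mem_sup {V K D S : Subgroup G} (cfg : GCfg p V K D S) {x : G}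
    (hx : x ∈ V ⊔ D) : ∃ v ∈ V, ∃ d ∈ D, x = v * d := by
  have := cfg.Vn
  have h : x ∈ ((V ⊔ D : Subgroup G) : Set G) := hx
  rw [Subgroup.normal_mul] at h
  obtain ⟨v, hv, d, hd, hvd⟩ := h
  exact ⟨v, hv, d, hd, hvd.symm⟩

omit [Fact p.Prime] [Finite G] in
theorem c10_K_sup {V K D S : Subgroup G} (cfg : GCfg p V K D S) {x : G}
    (hx : x ∈ V ⊔ D) (hK : x ∈ K) : x ∈ D := by
  obtain ⟨v, hv, d, hd, rfl⟩ := c10_mem_sup cfg hx
  have h1 : v ∈ K := by
    have := K.mul_mem hK (K.inv_mem (cfg.DK hd))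
    rwa [mul_inv_cancel_right] at this
  rw [c10_inf cfg hv h1, one_mul]
  exact hd

omit [Finite G] [Fact p.Prime] in
theorem c10_S_pow {V K D S : Subgroup G} (cfg : GCfg p V K D S) {x : G} (hS : x ∈ S) :
    ∃ k, orderOf x ∣ p ^ k := by
  obtain ⟨P, hP⟩ := cfg.VS
  have hxP : x ∈ P := by
    have : x ∈ V ⊔ S := (le_sup_right : S ≤ V ⊔ S) hS
    rw [← hP] at this
    exact this
  obtain ⟨k, hk⟩ := P.2 ⟨x, hxP⟩
  refine ⟨k, orderOf_dvd_of_pow_eq_one ?_⟩
  have := congrArg Subtype.val hk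
  simpa using this

omit [Finite G] [Fact p.Prime] in
theorem c10_S_D {V K D S : Subgroup G} (cfg : GCfg p V K D S) {x : G}
    (hS : x ∈ S) (hD : x ∈ D) : x = 1 := by
  obtain ⟨k, hk⟩ := c10_S_pow cfg hS
  have h2 : orderOf x ∣ Nat.card D := D.orderOf_dvd_natCard hD
  have h3 : Nat.Coprime (Nat.card D) (p ^ k) := cfg.Dcop.pow_right k
  have h4 : orderOf x ∣ 1 := by
    have := Nat.dvd_gcd h2 hk
    rwa [h3.gcd_eq_one] at this
  exact orderOf_eq_one_iff.1 (Nat.dvd_one.1 h4)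

omit [Fact p.Prime] [Finite G] in
theorem c10_frat {V K D S : Subgroup G} (cfg : GCfg p V K D S) {k : G} (hk : k ∈ K) :
    ∃ d ∈ D, ∃ n ∈ K, (∀ s, s ∈ S ↔ n * s * n⁻¹ ∈ S) ∧ k = d * n := by
  obtain ⟨d, hd, h⟩ := cfg.frat k hk
  refine ⟨d, hd, d⁻¹ * k, K.mul_mem (K.inv_mem (cfg.DK hd)) hk,
    Subgroup.mem_normalizer_iff.1 h, ?_⟩
  rw [mul_inv_cancel_left]

omit [Finite G] [Fact p.Prime] in
/-- if `k t k⁻¹` lies in the coset `s D`, then `k = d n` with `n t n⁻¹ = s`. -/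
theorem c10_core {V K D S : Subgroup G} (cfg : GCfg p V K D S) {s t k : G} (hs : s ∈ S)
    (ht : t ∈ S) (hk : k ∈ K) (h : s⁻¹ * (k * t * k⁻¹) ∈ V ⊔ D) :
    ∃ d ∈ D, ∃ n ∈ K, k = d * n ∧ n * t * n⁻¹ = s := by
  obtain ⟨d, hd, n, hn, hnS, rfl⟩ := c10_frat cfg hk
  refine ⟨d, hd, n, hn, rfl, ?_⟩
  set t' := n * t * n⁻¹ with ht'
  have ht'S : t' ∈ S := (hnS t).1 ht
  have h1 : s⁻¹ * (d * t' * d⁻¹) ∈ D := by
    have e : s⁻¹ * (d * t' * d⁻¹) = s⁻¹ * (d * n * t * (d * n)⁻¹) := by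
      rw [ht']; group
    rw [e]
    refine c10_K_sup cfg h ?_
    exact K.mul_mem (K.inv_mem (cfg.SK hs)) (K.mul_mem (K.mul_mem (K.mul_mem (cfg.DK hd) hn)
      (cfg.SK ht)) (K.inv_mem (K.mul_mem (cfg.DK hd) hn)))
  have h2 : t'⁻¹ * d⁻¹ * t' ∈ D := by
    have := cfg.Dn t'⁻¹ (K.inv_mem (cfg.SK ht'S)) d⁻¹ (D.inv_mem hd)
    rwa [inv_inv] at this
  have h3 : s⁻¹ * t' ∈ D := by
    have e : s⁻¹ * t' = s⁻¹ * (d * t' * d⁻¹) * (d * (t'⁻¹ * d⁻¹ * t')) := by group
    rw [e]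
    exact D.mul_mem h1 (D.mul_mem hd h2)
  have h4 := c10_S_D cfg (S.mul_mem (S.inv_mem hs) ht'S) h3
  rw [inv_mul_eq_one] at h4
  exact h4.symm

omit [Finite G] [Fact p.Prime] in
theorem c10_card_map (X N : Subgroup G) [N.Normal] :
    Nat.card X = Nat.card (X.map (QuotientGroup.mk' N)) * Nat.card (X ⊓ N : Subgroup G) := by
  have h1 := Subgroup.card_mul_index ((QuotientGroup.mk' N).comp X.subtype).ker
  rw [Subgroup.index_ker] at h1
  rw [← h1, mul_comm]
  congr 1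
  · rw [MonoidHom.range_comp, Subgroup.range_subtype]
  · refine Nat.card_congr
      { toFun := fun x => ⟨x.1.1, x.1.2, ?_⟩
        invFun := fun x => ⟨⟨x.1, x.2.1⟩, ?_⟩
        left_inv := fun x => rfl
        right_inv := fun x => rfl }
    · have := x.2
      rw [MonoidHom.mem_ker, MonoidHom.comp_apply] at this
      exact (QuotientGroup.eq_one_iff _).1 this
    · rw [MonoidHom.mem_ker, MonoidHom.comp_apply]
      exact (QuotientGroup.eq_one_iff _).2 x.2.2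

omit [Fact p.Prime] [Finite G] in
theorem c10_cen {V K D S : Subgroup G} (cfg : GCfg p V K D S) {s : G}
    (N : Subgroup G) [N.Normal] (hVN : V ≤ N)
    (hex : ∀ k ∈ K, s⁻¹ * (k * s * k⁻¹) ∈ N → ∃ n ∈ K, n * s = s * n ∧
      QuotientGroup.mk' N k = QuotientGroup.mk' N n) :
    (Subgroup.centralizer {s} ⊓ K).map (QuotientGroup.mk' N) =
      Subgroup.centralizer {(QuotientGroup.mk' N s)} := by
  ext y
  constructor
  · rintro ⟨k, hk, rfl⟩
    rw [Subgroup.mem_centralizer_singleton_iff]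
    have h1 : k * s = s * k := Subgroup.mem_centralizer_singleton_iff.1 hk.1
    rw [← map_mul, ← map_mul, h1]
  · intro hy
    obtain ⟨g, rfl⟩ := QuotientGroup.mk'_surjective N y
    obtain ⟨v, hv, k, hk, rfl⟩ := c10_vk cfg g
    have h1 : (QuotientGroup.mk' N) (v * k) = (QuotientGroup.mk' N) k := by
      rw [map_mul]
      have : (QuotientGroup.mk' N) v = 1 := (QuotientGroup.eq_one_iff v).2 (hVN hv)
      rw [this, one_mul]
    rw [h1] at hy ⊢
    rw [Subgroup.mem_centralizer_singleton_iff, ← map_mul, ← map_mul] at hy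
    have h2 : s⁻¹ * (k * s * k⁻¹) ∈ N := by
      have h3 : (k * s)⁻¹ * (s * k) ∈ N := QuotientGroup.eq.1 hy
      have h4 := N.inv_mem h3
      have h5 := (inferInstance : N.Normal).conj_mem _ h4 k
      have e : k * ((k * s)⁻¹ * (s * k))⁻¹ * k⁻¹ = s⁻¹ * (k * s * k⁻¹) := by group
      rwa [e] at h5
    obtain ⟨n, hn, hns, hkn⟩ := hex k hk h2
    exact ⟨n, ⟨Subgroup.mem_centralizer_singleton_iff.2 hns, hn⟩, hkn.symm⟩

omit [Finite G] [Fact p.Prime] in
theorem c10_cenV {V K D S : Subgroup G} (cfg : GCfg p V K D S) {s : G} (hs : s ∈ S)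
    (N : Subgroup G) [N.Normal] (hN : N = V) :
    Nat.card (Subgroup.centralizer {s} ⊓ K : Subgroup G) =
      Nat.card (Subgroup.centralizer {(QuotientGroup.mk' N s)}) := by
  have h := c10_card_map (Subgroup.centralizer {s} ⊓ K) N
  rw [c10_cen cfg N hN.ge] at h
  · have h2 : (Subgroup.centralizer {s} ⊓ K ⊓ N : Subgroup G) = ⊥ := by
      rw [eq_bot_iff]
      intro x hx
      rw [hN] at hx
      exact c10_inf cfg hx.2 hx.1.2
    rw [h2, Subgroup.card_bot, mul_one] at h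
    exact h
  · intro k hk h
    refine ⟨k, hk, ?_, rfl⟩
    rw [hN] at h
    have h2 := c10_inf cfg h (K.mul_mem (K.inv_mem (cfg.SK hs))
      (K.mul_mem (K.mul_mem hk (cfg.SK hs)) (K.inv_mem hk)))
    rw [inv_mul_eq_one] at h2
    rw [← mul_inv_eq_iff_eq_mul]
    exact h2.symm

omit [Finite G] [Fact p.Prime] in
theorem c10_cenB {V K D S : Subgroup G} (cfg : GCfg p V K D S) {s : G} (hs : s ∈ S)
    (N : Subgroup G) [N.Normal] (hN : N = V ⊔ D) :
    Nat.card (Subgroup.centralizer {s} ⊓ K : Subgroup G) =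
      Nat.card (Subgroup.centralizer {(QuotientGroup.mk' N s)}) * cc D s := by
  have h := c10_card_map (Subgroup.centralizer {s} ⊓ K) N
  have hDN : D ≤ N := by rw [hN]; exact le_sup_right
  rw [c10_cen cfg N (by rw [hN]; exact le_sup_left)] at h
  · rw [h]
    congr 1
    refine Nat.card_congr
      { toFun := fun x => ⟨⟨x.1, ?_⟩, ?_⟩
        invFun := fun x => ⟨x.1.1, ⟨?_, cfg.DK x.1.2⟩, hDN x.1.2⟩
        left_inv := fun x => rfl
        right_inv := fun x => rfl }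
    · exact c10_K_sup cfg (hN.le x.2.2) x.2.1.2
    · exact (Subgroup.mem_centralizer_singleton_iff.1 x.2.1.1).symm
    · exact Subgroup.mem_centralizer_singleton_iff.2 x.2.symm
  · intro k hk h
    rw [hN] at h
    obtain ⟨d, hd, n, hn, rfl, hns⟩ := c10_core cfg hs hs hk h
    refine ⟨n, hn, ?_, ?_⟩
    · rw [← mul_inv_eq_iff_eq_mul]
      exact hns
    · rw [map_mul]
      have : (QuotientGroup.mk' N) d = 1 := (QuotientGroup.eq_one_iff d).2 (hDN hd)
      rw [this, one_mul]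

/-- the image of `S` modulo `V` (or modulo `V D`) is a Sylow subgroup. -/
theorem c10_sylow {V K D S : Subgroup G} (cfg : GCfg p V K D S)
    (N : Subgroup G) [N.Normal] (hVN : V ≤ N) :
    ∃ Q : Sylow p (G ⧸ N), (Q : Subgroup (G ⧸ N)) = S.map (QuotientGroup.mk' N) := by
  obtain ⟨P, hP⟩ := cfg.VS
  refine ⟨P.mapSurjective (QuotientGroup.mk'_surjective N), ?_⟩
  rw [Sylow.coe_mapSurjective, hP, Subgroup.map_sup]
  have : V.map (QuotientGroup.mk' N) = ⊥ := by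
    rw [eq_bot_iff, Subgroup.map_le_iff_le_comap]
    intro v hv
    exact (QuotientGroup.eq_one_iff v).2 (hVN hv)
  rw [this, bot_sup_eq]

omit [Finite G] [Fact p.Prime] in
theorem c10_normal {V K D S : Subgroup G} (cfg : GCfg p V K D S)
    (N : Subgroup G) [N.Normal] (hN : N = V ⊔ D) :
    (S.map (QuotientGroup.mk' N)).Normal := by
  constructor
  rintro _ ⟨s, hs, rfl⟩ y
  obtain ⟨g, rfl⟩ := QuotientGroup.mk'_surjective N y
  obtain ⟨v, hv, k, hk, rfl⟩ := c10_vk cfg g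
  obtain ⟨d, hd, n, hn, hnS, rfl⟩ := c10_frat cfg hk
  have h1 : (QuotientGroup.mk' N) v = 1 :=
    (QuotientGroup.eq_one_iff v).2 (by rw [hN]; exact (le_sup_left : V ≤ V ⊔ D) hv)
  have h2 : (QuotientGroup.mk' N) d = 1 :=
    (QuotientGroup.eq_one_iff d).2 (by rw [hN]; exact (le_sup_right : D ≤ V ⊔ D) hd)
  rw [map_mul, map_mul, h1, h2, one_mul, one_mul, ← map_mul, ← _root_.map_inv, ← map_mul]
  exact ⟨n * s * n⁻¹, (hnS s).1 hs, rfl⟩

omit [Finite G] [Fact p.Prime] in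
theorem c10_inj {V K D S : Subgroup G} (cfg : GCfg p V K D S)
    (N : Subgroup G) [N.Normal] (hN : N = V ⊔ D) {s t : G} (hs : s ∈ S) (ht : t ∈ S)
    (h : QuotientGroup.mk' N s = QuotientGroup.mk' N t) : s = t := by
  have h1 : s⁻¹ * t ∈ N := QuotientGroup.eq.1 h
  rw [hN] at h1
  have h2 := c10_S_D cfg (S.mul_mem (S.inv_mem hs) ht)
    (c10_K_sup cfg h1 (K.mul_mem (K.inv_mem (cfg.SK hs)) (cfg.SK ht)))
  exact inv_mul_eq_one.1 h2

theorem c10_csz {V K D S : Subgroup G} (cfg : GCfg p V K D S) {s : G} (hs : s ∈ S)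
    (N : Subgroup G) [N.Normal] (hVN : V ≤ N) : ¬ p ∣ csz (QuotientGroup.mk' N s) := by
  obtain ⟨Q, hQ⟩ := c10_sylow cfg N hVN
  rw [csz_eq_index]
  intro h
  have h1 : (Q : Subgroup (G ⧸ N)) ≤ Subgroup.centralizer {(QuotientGroup.mk' N s)} := by
    rw [hQ]
    rintro _ ⟨t, ht, rfl⟩
    rw [Subgroup.mem_centralizer_singleton_iff, ← map_mul, ← map_mul, cfg.Sab t ht s hs]
  exact Q.not_dvd_index (h.trans (Subgroup.index_dvd_of_le h1))

/-! ### two sides -/

/-- normal Sylow subgroups correspond. -/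
theorem c10_im_sylow (c : CAI G H) (Q : Sylow p G) (Q' : Sylow p H)
    (hQ : (Q : Subgroup G).Normal) : c.im Q = Q' := by
  have hn : (c.im (Q : Subgroup G)).Normal := c.im_normal hQ
  have hc : Nat.card (c.im (Q : Subgroup G)) = Nat.card Q := c.card_im hQ
  have hp : IsPGroup p (c.im (Q : Subgroup G)) := by
    rw [IsPGroup.iff_card]
    refine ⟨(Nat.card G).factorization p, ?_⟩
    rw [hc]
    exact Q.card_eq_multiplicity
  refine Subgroup.eq_of_le_of_card_ge (hp.le_sylow_of_normal Q') ?_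
  rw [hc, Q.card_eq_multiplicity]
  have := Q'.card_eq_multiplicity
  rw [c.card_eq]
  exact this.le

theorem c10_cent_eq (c : CAI G H) {x : G} {y : H} (h : c.Rel x y) :
    Nat.card (Subgroup.centralizer {x}) = Nat.card (Subgroup.centralizer {y}) := by
  have h1 := c.rel_csz h
  rw [csz_eq_index, csz_eq_index] at h1
  have h2 := Subgroup.card_mul_index (Subgroup.centralizer {x})
  have h3 := Subgroup.card_mul_index (Subgroup.centralizer {y})
  rw [c.card_eq, ← h3, h1] at h2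
  exact Nat.eq_of_mul_eq_mul_right (Nat.pos_of_ne_zero Subgroup.index_ne_zero_of_finite) h2

omit [Fact p.Prime] in
theorem c10_imV (c : CAI G H) {V K D S : Subgroup G} {V' K' D' S' : Subgroup H}
    (cfg : GCfg p V K D S) (cfg' : GCfg p V' K' D' S') : c.im V = V' := by
  rw [cfg.VA, c.im_Ac p, ← cfg'.VA]

omit [Fact p.Prime] in
theorem c10_imB (c : CAI G H) {V K D S : Subgroup G} {V' K' D' S' : Subgroup H}
    (cfg : GCfg p V K D S) (cfg' : GCfg p V' K' D' S') : c.im (V ⊔ D) = V' ⊔ D' := by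
  rw [cfg.VD, c.im_OqR p cfg.Vn, c10_imV c cfg cfg', ← cfg'.VD]

theorem exists_beta_of (c : CAI G H) {V K D S : Subgroup G} {V' K' D' S' : Subgroup H}
    (cfg : GCfg p V K D S) (cfg' : GCfg p V' K' D' S')
    (hR : ∀ s ∈ S, ∃ s'' ∈ S', RelV c V V' s s'') :
    ∃ β : S ≃ S', (∀ s : S, RelV c V V' (s : G) (β s : H)) ∧
      ∀ s : S, cc D (s : G) = cc D' (β s : H) := by
  classical
  obtain ⟨B, hBdef⟩ : ∃ B : Subgroup G, B = V ⊔ D := ⟨_, rfl⟩
  have hB : B.Normal := by rw [hBdef, cfg.VD]; exact OqR_normal V cfg.Vn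
  have hVn := cfg.Vn
  have hB' : (c.im B).Normal := c.im_normal hB
  have hV' : (c.im V).Normal := c.im_normal hVn
  have hBB' : c.im B = V' ⊔ D' := by rw [hBdef]; exact c10_imB c cfg cfg'
  have hVV' : c.im V = V' := c10_imV c cfg cfg'
  have hVB : V ≤ B := by rw [hBdef]; exact le_sup_left
  have hVB' : V' ≤ c.im B := by rw [hBB']; exact le_sup_left
  obtain ⟨cB, hcB⟩ := c.quot B
  obtain ⟨cV, hcV⟩ := c.quot V
  obtain ⟨b, hb⟩ := cB.exists_bij
  obtain ⟨Q, hQ⟩ := c10_sylow cfg B hVB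
  obtain ⟨Q', hQ'⟩ := c10_sylow cfg' (c.im B) hVB'
  have hQn : (Q : Subgroup (G ⧸ B)).Normal := by rw [hQ]; exact c10_normal cfg B hBdef
  have him := c10_im_sylow cB Q Q' hQn
  have h1 : ∀ x : G ⧸ B, b x ∈ (Q' : Subgroup (H ⧸ c.im B)) ↔ x ∈ (Q : Subgroup (G ⧸ B)) := by
    intro x
    rw [← him]
    exact cB.mem_im hQn (hb x)
  have h2 : ∀ s : S, ∃ t : S',
      QuotientGroup.mk' (c.im B) (t : H) = b (QuotientGroup.mk' B (s : G)) := by
    intro s
    have h3 : b (QuotientGroup.mk' B (s : G)) ∈ (Q' : Subgroup (H ⧸ c.im B)) :=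
      (h1 _).2 (by rw [hQ]; exact ⟨s, s.2, rfl⟩)
    rw [hQ'] at h3
    obtain ⟨t, ht, hts⟩ := h3
    exact ⟨⟨t, ht⟩, hts⟩
  choose β hβ using h2
  have hinj : Function.Injective β := by
    intro s t hst
    have h3 := hβ s
    rw [hst, hβ t] at h3
    exact Subtype.ext (c10_inj cfg B hBdef s.2 t.2 (b.injective h3.symm))
  have hsurj : Function.Surjective β := by
    intro t
    have h3 : QuotientGroup.mk' (c.im B) (t : H) ∈ (Q' : Subgroup (H ⧸ c.im B)) := by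
      rw [hQ']; exact ⟨t, t.2, rfl⟩
    obtain ⟨x, hx⟩ := b.surjective (QuotientGroup.mk' (c.im B) (t : H))
    rw [← hx, h1, hQ] at h3
    obtain ⟨s, hs, rfl⟩ := h3
    exact ⟨⟨s, hs⟩, Subtype.ext (c10_inj cfg' (c.im B) hBB' (β ⟨s, hs⟩).2 t.2
      ((hβ ⟨s, hs⟩).trans hx))⟩
  have key : ∀ s : S, RelV c V V' (s : G) (β s : H) := by
    intro s
    obtain ⟨s'', hs'', v, hv, v', hv', hrel⟩ := hR s s.2
    have h3 := hcB _ _ hrel
    have h4 : (QuotientGroup.mk ((s : G) * v) : G ⧸ B) = QuotientGroup.mk (s : G) := by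
      rw [QuotientGroup.mk_mul, (QuotientGroup.eq_one_iff v).2 (hVB hv), mul_one]
    have h4' : (QuotientGroup.mk (s'' * v') : H ⧸ c.im B) = QuotientGroup.mk s'' := by
      rw [QuotientGroup.mk_mul, (QuotientGroup.eq_one_iff v').2 (hVB' hv'), mul_one]
    rw [h4, h4'] at h3
    have h5 : cB.Rel (QuotientGroup.mk (s : G)) (QuotientGroup.mk (β s : H)) := by
      have := hb (QuotientGroup.mk' B (s : G))
      rwa [← hβ s] at this
    obtain ⟨k, hk⟩ := cB.rel_unique h3 h5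
    obtain ⟨g, rfl⟩ := QuotientGroup.mk'_surjective (c.im B) k
    obtain ⟨v₁, hv₁, k₁, hk₁, rfl⟩ := c10_vk cfg' g
    have h6 : (QuotientGroup.mk' (c.im B)) (v₁ * k₁) = (QuotientGroup.mk' (c.im B)) k₁ := by
      rw [map_mul]
      have : (QuotientGroup.mk' (c.im B)) v₁ = 1 := (QuotientGroup.eq_one_iff v₁).2 (hVB' hv₁)
      rw [this, one_mul]
    rw [h6] at hk
    have h7 : (β s : H)⁻¹ * (k₁ * s'' * k₁⁻¹) ∈ V' ⊔ D' := by
      rw [← hBB']
      exact QuotientGroup.eq.1 hk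
    obtain ⟨d, hd, n, hn, rfl, hns⟩ := c10_core cfg' (β s).2 hs'' hk₁ h7
    refine ⟨v, hv, n * v' * n⁻¹, cfg'.Vn.conj_mem _ hv' n, ?_⟩
    have h8 := c.rel_conj hrel 1 n
    have e1 : 1 * ((s : G) * v) * 1⁻¹ = (s : G) * v := by group
    have e2 : n * (s'' * v') * n⁻¹ = (β s : H) * (n * v' * n⁻¹) := by
      rw [← hns]; group
    rwa [e1, e2] at h8
  refine ⟨Equiv.ofBijective β ⟨hinj, hsurj⟩, key, ?_⟩
  intro s
  show cc D (s : G) = cc D' (β s : H)
  obtain ⟨v, hv, v', hv', hrel⟩ := key s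
  have hA := c10_cent_eq cV (hcV _ _ hrel)
  have hA1 : (QuotientGroup.mk ((s : G) * v) : G ⧸ V) = QuotientGroup.mk' V (s : G) := by
    rw [QuotientGroup.mk_mul, (QuotientGroup.eq_one_iff v).2 hv, mul_one]; rfl
  have hA2 : (QuotientGroup.mk ((β s : H) * v') : H ⧸ c.im V) =
      QuotientGroup.mk' (c.im V) (β s : H) := by
    rw [QuotientGroup.mk_mul, (QuotientGroup.eq_one_iff v').2 (by rw [hVV']; exact hv'),
      mul_one]; rfl
  rw [hA1, hA2, ← c10_cenV cfg s.2 V rfl, ← c10_cenV cfg' (β s).2 (c.im V) hVV'] at hA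
  have hC : Nat.card (Subgroup.centralizer {(QuotientGroup.mk' B (s : G))}) =
      Nat.card (Subgroup.centralizer {(QuotientGroup.mk' (c.im B) (β s : H))}) := by
    refine c10_cent_eq cB ?_
    have := hb (QuotientGroup.mk' B (s : G))
    rwa [← hβ s] at this
  rw [c10_cenB cfg s.2 B hBdef, c10_cenB cfg' (β s).2 (c.im B) hBB', hC] at hA
  exact Nat.eq_of_mul_eq_mul_left Nat.card_pos hA

theorem exp_transfer_of (c : CAI G H) {V K D S : Subgroup G} {V' K' D' S' : Subgroup H}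
    (cfg : GCfg p V K D S) (cfg' : GCfg p V' K' D' S')
    (hR : ∀ s' ∈ S', ∃ s ∈ S, RelV c V V' s s')
    (hpow : ∀ {X Y : Type} [Group X] [Group Y] [Finite X] [Finite Y] (c : CAI X Y)
      {x : X} {y : Y}, c.Rel x y → ¬ p ∣ csz x → (x ^ p = 1 ↔ y ^ p = 1))
    (hV : ∀ v ∈ V, v ^ p = 1) (hS : ∀ s ∈ S, s ^ p = 1) :
    (∀ v ∈ V', v ^ p = 1) ∧ ∀ s ∈ S', s ^ p = 1 := by
  constructor
  · have h1 : ∀ v ∈ Ac p H, v ^ p = 1 ∧ v ∈ V' := by
      intro v hv
      refine Subgroup.closure_induction (p := fun v _ => v ^ p = 1 ∧ v ∈ V') ?_ ?_ ?_ ?_ hv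
      · rintro y ⟨hy, hpy⟩
        have hyV : y ∈ V' := by
          rw [cfg'.VA]; exact Subgroup.subset_closure ⟨hy, hpy⟩
        refine ⟨?_, hyV⟩
        obtain ⟨x, hx⟩ := c.exists_rel' y
        have hxV : x ∈ V := by
          have h2 := (c.mem_im cfg.Vn hx).1
          rw [c10_imV c cfg cfg'] at h2
          exact h2 hyV
        have h3 := hpow c hx (by rw [c.rel_csz hx]; exact hpy)
        exact h3.1 (hV x hxV)
      · exact ⟨one_pow p, V'.one_mem⟩
      · rintro x y _ _ ⟨hx, hx'⟩ ⟨hy, hy'⟩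
        refine ⟨?_, V'.mul_mem hx' hy'⟩
        have hc : Commute x y := cfg'.Vab x hx' y hy'
        rw [hc.mul_pow, hx, hy, one_mul]
      · rintro x _ ⟨hx, hx'⟩
        exact ⟨by rw [inv_pow, hx, inv_one], V'.inv_mem hx'⟩
    intro v hv
    rw [cfg'.VA] at hv
    exact (h1 v hv).1
  · intro s' hs'
    obtain ⟨s, hs, v, hv, v', hv', hrel⟩ := hR s' hs'
    have hVn := cfg.Vn
    have hV' : (c.im V).Normal := c.im_normal hVn
    have hVV' : c.im V = V' := c10_imV c cfg cfg'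
    obtain ⟨cV, hcV⟩ := c.quot V
    have h1 := hcV _ _ hrel
    have hA1 : (QuotientGroup.mk (s * v) : G ⧸ V) = QuotientGroup.mk' V s := by
      rw [QuotientGroup.mk_mul, (QuotientGroup.eq_one_iff v).2 hv, mul_one]; rfl
    have hA2 : (QuotientGroup.mk (s' * v') : H ⧸ c.im V) =
        QuotientGroup.mk' (c.im V) s' := by
      rw [QuotientGroup.mk_mul, (QuotientGroup.eq_one_iff v').2 (by rw [hVV']; exact hv'),
        mul_one]; rfl
    rw [hA1, hA2] at h1
    have h2 := hpow cV h1 (c10_csz cfg hs V le_rfl)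
    rw [← map_pow, ← map_pow, hS s hs, _root_.map_one] at h2
    have h3 := h2.1 rfl
    have h4 : s' ^ p ∈ V' := by
      rw [← hVV']
      exact (QuotientGroup.eq_one_iff _).1 h3
    exact c10_inf cfg' h4 (K'.pow_mem (cfg'.SK hs') p)

end Grp

end SYL2
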