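import Pool.Agent.SYL2.Defs

set_option autoImplicit false

/-! # SYL2 row C3: Sylow subgroups and quotients -/

namespace SYL2

section Grp

variable {p : ℕ} [Fact p.Prime] {G H : Type} [Group G] [Group H] [Finite G] [Finite H]

theorem map_comm_eq_one_iff {A B : Type} [Group A] [Group B] (f : A →* B) (x y : A) :
    f (x * y * x⁻¹ * y⁻¹) = 1 ↔ f x * f y = f y * f x := by
  simp only [_root_.map_mul, _root_.map_inv]
  rw [mul_inv_eq_one, mul_inv_eq_iff_eq_mul]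

theorem map_comm_eq {A B : Type} [Group A] [Group B] (f : A →* B) (x y : A) :
    f (x * y * x⁻¹ * y⁻¹) = f x * f y * (f x)⁻¹ * (f y)⁻¹ := by
  simp only [_root_.map_mul, _root_.map_inv]

/-- every Sylow subgroup of the quotient is the image of a Sylow subgroup. -/
theorem exists_sylow_lift (N : Subgroup G) [N.Normal] (Q : Sylow p (G ⧸ N)) :
    ∃ P : Sylow p G, ∀ y, y ∈ Q ↔ ∃ x ∈ P, QuotientGroup.mk' N x = y := by
  obtain ⟨P, hP⟩ := Sylow.mapSurjective_surjective (QuotientGroup.mk'_surjective N) p Q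
  refine ⟨P, fun y => ?_⟩
  rw [← hP]
  have : y ∈ (P.mapSurjective (QuotientGroup.mk'_surjective N) : Subgroup (G ⧸ N)) ↔
      ∃ x ∈ P, QuotientGroup.mk' N x = y := by
    rw [Sylow.coe_mapSurjective, Subgroup.mem_map]
    rfl
  exact this

/-- the image of a Sylow subgroup is a Sylow subgroup of the quotient. -/
theorem exists_sylow_image (N : Subgroup G) [N.Normal] (P : Sylow p G) :
    ∃ Q : Sylow p (G ⧸ N), ∀ x ∈ P, QuotientGroup.mk' N x ∈ Q := by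
  refine ⟨P.mapSurjective (QuotientGroup.mk'_surjective N), fun x hx => ?_⟩
  have : QuotientGroup.mk' N x ∈
      (P.mapSurjective (QuotientGroup.mk'_surjective N) : Subgroup (G ⧸ N)) := by
    rw [Sylow.coe_mapSurjective]
    exact Subgroup.mem_map_of_mem _ hx
  exact this

omit [Fact p.Prime] [Finite G] in
/-- a `p`-subgroup meets a normal subgroup of order prime to `p` trivially. -/
theorem eq_one_of_mem_sylow_inf (N : Subgroup G) (hN : (Nat.card N).Coprime p) (P : Sylow p G)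
    {x : G} (hx : x ∈ P) (hxN : x ∈ N) : x = 1 := by
  have h1 : IsPGroup p P := P.isPGroup'
  obtain ⟨k, hk⟩ := h1 ⟨x, hx⟩
  have hk' : x ^ p ^ k = 1 := by
    have := congrArg Subtype.val hk
    simpa using this
  have h2 : x ^ Nat.card N = 1 := by
    have h0 := pow_card_eq_one' (x := (⟨x, hxN⟩ : N))
    have h0' := congrArg Subtype.val h0
    rwa [Subgroup.coe_pow, Subgroup.coe_one] at h0'
  have h3 : orderOf x ∣ p ^ k := orderOf_dvd_of_pow_eq_one hk'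
  have h4 : orderOf x ∣ Nat.card N := orderOf_dvd_of_pow_eq_one h2
  have h5 : Nat.Coprime (Nat.card N) (p ^ k) := Nat.Coprime.pow_right k hN
  have h6 : orderOf x ∣ 1 := by
    rw [← Nat.Coprime.gcd_eq_one h5]
    exact Nat.dvd_gcd h4 h3
  exact orderOf_eq_one_iff.mp (Nat.dvd_one.mp h6)

theorem absyl_quot_iff (N : Subgroup G) [N.Normal] : AbSyl p (G ⧸ N) ↔
    ∀ P : Sylow p G, ∀ x ∈ P, ∀ y ∈ P, x * y * x⁻¹ * y⁻¹ ∈ N := by
  constructor
  · intro h P x hx y hy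
    obtain ⟨Q, hQ⟩ := exists_sylow_image N P
    have h1 := h Q _ (hQ x hx) _ (hQ y hy)
    have h2 : QuotientGroup.mk' N (x * y * x⁻¹ * y⁻¹) = 1 :=
      (map_comm_eq_one_iff _ x y).mpr h1
    rwa [← MonoidHom.mem_ker, QuotientGroup.ker_mk'] at h2
  · intro h Q a ha b hb
    obtain ⟨P, hP⟩ := exists_sylow_lift N Q
    obtain ⟨x, hx, rfl⟩ := (hP a).mp ha
    obtain ⟨y, hy, rfl⟩ := (hP b).mp hb
    have h1 := h P x hx y hy
    have h2 : QuotientGroup.mk' N (x * y * x⁻¹ * y⁻¹) = 1 := by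
      rwa [← MonoidHom.mem_ker, QuotientGroup.ker_mk']
    exact (map_comm_eq_one_iff _ x y).mp h2

theorem absyl_quot (h : AbSyl p G) (N : Subgroup G) [N.Normal] : AbSyl p (G ⧸ N) := by
  rw [absyl_quot_iff]
  intro P x hx y hy
  rw [h P x hx y hy]
  have : y * x * x⁻¹ * y⁻¹ = 1 := by group
  rw [this]
  exact N.one_mem

theorem absyl_of_quot (N : Subgroup G) [N.Normal] (hN : (Nat.card N).Coprime p)
    (h : AbSyl p (G ⧸ N)) : AbSyl p G := by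
  intro P x hx y hy
  have h1 := (absyl_quot_iff N).mp h P x hx y hy
  have h2 : x * y * x⁻¹ * y⁻¹ ∈ P :=
    P.mul_mem (P.mul_mem (P.mul_mem hx hy) (P.inv_mem hx)) (P.inv_mem hy)
  have h3 := eq_one_of_mem_sylow_inf N hN P h2 h1
  rwa [mul_inv_eq_one, mul_inv_eq_iff_eq_mul] at h3

/-- class at most two of the quotient in terms of the group. -/
theorem cl2_quot_iff (N : Subgroup G) [N.Normal] : Cl2 p (G ⧸ N) ↔
    ∀ P : Sylow p G, ∀ x ∈ P, ∀ y ∈ P, ∀ z ∈ P,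
      (x * y * x⁻¹ * y⁻¹) * z * (x * y * x⁻¹ * y⁻¹)⁻¹ * z⁻¹ ∈ N := by
  constructor
  · intro h P x hx y hy z hz
    obtain ⟨Q, hQ⟩ := exists_sylow_image N P
    have h1 := h Q _ (hQ x hx) _ (hQ y hy) _ (hQ z hz)
    rw [← map_comm_eq] at h1
    have h2 : QuotientGroup.mk' N ((x * y * x⁻¹ * y⁻¹) * z * (x * y * x⁻¹ * y⁻¹)⁻¹ * z⁻¹) = 1 :=
      (map_comm_eq_one_iff _ _ z).mpr h1
    rwa [← MonoidHom.mem_ker, QuotientGroup.ker_mk'] at h2
  · intro h Q a ha b hb c hc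
    obtain ⟨P, hP⟩ := exists_sylow_lift N Q
    obtain ⟨x, hx, rfl⟩ := (hP a).mp ha
    obtain ⟨y, hy, rfl⟩ := (hP b).mp hb
    obtain ⟨z, hz, rfl⟩ := (hP c).mp hc
    have h1 := h P x hx y hy z hz
    have h2 : QuotientGroup.mk' N ((x * y * x⁻¹ * y⁻¹) * z * (x * y * x⁻¹ * y⁻¹)⁻¹ * z⁻¹) = 1 := by
      rwa [← MonoidHom.mem_ker, QuotientGroup.ker_mk']
    have h3 := (map_comm_eq_one_iff _ _ z).mp h2
    rwa [map_comm_eq] at h3

theorem cl2_quot (h : Cl2 p G) (N : Subgroup G) [N.Normal] : Cl2 p (G ⧸ N) := by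
  rw [cl2_quot_iff]
  intro P x hx y hy z hz
  rw [h P x hx y hy z hz]
  have : z * (x * y * x⁻¹ * y⁻¹) * (x * y * x⁻¹ * y⁻¹)⁻¹ * z⁻¹ = 1 := by group
  rw [this]
  exact N.one_mem

theorem cl2_of_quot (N : Subgroup G) [N.Normal] (hN : (Nat.card N).Coprime p)
    (h : Cl2 p (G ⧸ N)) : Cl2 p G := by
  intro P x hx y hy z hz
  have h1 := (cl2_quot_iff N).mp h P x hx y hy z hz
  have hc : x * y * x⁻¹ * y⁻¹ ∈ P :=
    P.mul_mem (P.mul_mem (P.mul_mem hx hy) (P.inv_mem hx)) (P.inv_mem hy)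
  have h2 : (x * y * x⁻¹ * y⁻¹) * z * (x * y * x⁻¹ * y⁻¹)⁻¹ * z⁻¹ ∈ P :=
    P.mul_mem (P.mul_mem (P.mul_mem hc hz) (P.inv_mem hc)) (P.inv_mem hz)
  have h3 := eq_one_of_mem_sylow_inf N hN P h2 h1
  rwa [mul_inv_eq_one, mul_inv_eq_iff_eq_mul] at h3

theorem cl2_of_two (N M : Subgroup G) [N.Normal] [M.Normal] (hNM : N ⊓ M = ⊥)
    (h : Cl2 p (G ⧸ N)) (h' : Cl2 p (G ⧸ M)) : Cl2 p G := by
  intro P x hx y hy z hz
  have h1 := (cl2_quot_iff N).mp h P x hx y hy z hz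
  have h2 := (cl2_quot_iff M).mp h' P x hx y hy z hz
  have h3 : (x * y * x⁻¹ * y⁻¹) * z * (x * y * x⁻¹ * y⁻¹)⁻¹ * z⁻¹ ∈ N ⊓ M := ⟨h1, h2⟩
  rw [hNM, Subgroup.mem_bot] at h3
  rwa [mul_inv_eq_one, mul_inv_eq_iff_eq_mul] at h3

/-- class two for one Sylow subgroup is class two for all. -/
theorem cl2_of_one (P : Sylow p G) (h : ∀ x ∈ P, ∀ y ∈ P, ∀ z ∈ P,
    (x * y * x⁻¹ * y⁻¹) * z = z * (x * y * x⁻¹ * y⁻¹)) : Cl2 p G := by
  intro Q x hx y hy z hz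
  obtain ⟨g, hg⟩ := MulAction.exists_smul_eq G Q P
  have key : ∀ a ∈ Q, g * a * g⁻¹ ∈ P := by
    intro a ha
    rw [← hg]
    have : g * a * g⁻¹ ∈ ((g • Q : Sylow p G) : Subgroup G) := by
      rw [Sylow.coe_subgroup_smul]
      exact Subgroup.smul_mem_pointwise_smul a (MulAut.conj g) (Q : Subgroup G) ha
    exact this
  have h1 := h _ (key x hx) _ (key y hy) _ (key z hz)
  have h2 : g * ((x * y * x⁻¹ * y⁻¹) * z) * g⁻¹ = g * (z * (x * y * x⁻¹ * y⁻¹)) * g⁻¹ := by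
    have e1 : g * x * g⁻¹ * (g * y * g⁻¹) * (g * x * g⁻¹)⁻¹ * (g * y * g⁻¹)⁻¹ * (g * z * g⁻¹) =
        g * ((x * y * x⁻¹ * y⁻¹) * z) * g⁻¹ := by group
    have e2 : g * z * g⁻¹ * (g * x * g⁻¹ * (g * y * g⁻¹) * (g * x * g⁻¹)⁻¹ * (g * y * g⁻¹)⁻¹) =
        g * (z * (x * y * x⁻¹ * y⁻¹)) * g⁻¹ := by group
    rw [← e1, ← e2, h1]
  exact mul_left_cancel (mul_right_cancel h2)

end Grp

end SYL2
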