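import Pool.Agent.SYL2.Defs

set_option autoImplicit false

/-! # SYL2, row C4: the lemma of Hall and Higman, and the centre of a Sylow subgroup. -/

namespace SYL2

section Grp

variable {p : ℕ} [Fact p.Prime] {G : Type} [Group G] [Finite G]

/-- a normal `p`-subgroup lies in `O_p(G)`. -/
theorem c4_le_OpR {N : Subgroup G} (hN : N.Normal) (hp : IsPGroup p N) :
    N ≤ OpR p (⊥ : Subgroup G) := by
  refine le_sSup ⟨hN, bot_le, ?_⟩
  rw [Subgroup.relIndex_bot_left]
  exact IsPGroup.iff_card.1 hp

theorem c4_OpR_le (P : Sylow p G) : OpR p (⊥ : Subgroup G) ≤ P := by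
  refine sSup_le ?_
  rintro N ⟨hN, -, k, hk⟩
  rw [Subgroup.relIndex_bot_left] at hk
  have := hN
  exact (IsPGroup.of_card hk).le_sylow_of_normal P

theorem c4_OpR_normal : (OpR p (⊥ : Subgroup G)).Normal :=
  Subgroup.sSup_normal _ fun _ hN => hN.1

theorem c4_OpR_isPGroup : IsPGroup p (OpR p (⊥ : Subgroup G)) := by
  obtain ⟨P⟩ : Nonempty (Sylow p G) := inferInstance
  exact P.2.to_le (c4_OpR_le P)

/-- a normal `p'`-subgroup is trivial if `O_{p'}(G) = 1`. -/
theorem c4_eq_bot (ho : OqR p (⊥ : Subgroup G) = ⊥) {N : Subgroup G} (hN : N.Normal)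
    (hp : (Nat.card N).Coprime p) : N = ⊥ := by
  have h : N ≤ OqR p (⊥ : Subgroup G) := by
    refine le_sSup ⟨hN, bot_le, ?_⟩
    rwa [Subgroup.relIndex_bot_left]
  rw [ho] at h
  exact le_bot_iff.1 h

/-- the size of the class of `x` is the index of the centraliser. -/
theorem c4_csz_eq_index (x : G) : csz x = (Subgroup.centralizer {x}).index := by
  have h1 : csz x = (MulAction.stabilizer (ConjAct G) x).index := by
    rw [MulAction.index_stabilizer, ConjAct.orbit_eq_carrier_conjClasses]
    rfl
  have h2 := Subgroup.card_mul_index (MulAction.stabilizer (ConjAct G) x)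
  have h3 := Subgroup.card_mul_index (Subgroup.centralizer {x})
  rw [Subgroup.nat_card_centralizer_nat_card_stabilizer] at h3
  have h4 : Nat.card (ConjAct G) = Nat.card G := rfl
  have h5 : 0 < Nat.card (MulAction.stabilizer (ConjAct G) x) := by
    have : Finite (ConjAct G) := inferInstanceAs (Finite G)
    exact Nat.card_pos
  rw [h1]
  exact Nat.eq_of_mul_eq_mul_left h5 (h2.trans (h4.trans h3.symm))

/-- Hall and Higman: if `G` is `p`-solvable and `O_{p'}(G) = 1`, then `O_p(G)` contains its
centraliser. -/
theorem hall_higman (hs : PS p G) (ho : OqR p (⊥ : Subgroup G) = ⊥) {x : G}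
    (hx : ∀ v ∈ OpR p (⊥ : Subgroup G), x * v = v * x) : x ∈ OpR p (⊥ : Subgroup G) := by
  classical
  set O : Subgroup G := OpR p (⊥ : Subgroup G) with hO
  have hOn : O.Normal := c4_OpR_normal
  have hOp : IsPGroup p O := c4_OpR_isPGroup
  set C : Subgroup G := Subgroup.centralizer (O : Set G) with hC
  have hCn : C.Normal := inferInstance
  set Z : Subgroup G := C ⊓ O with hZ
  have hZn : Z.Normal := inferInstance
  have hZp : IsPGroup p Z := hOp.to_le inf_le_right
  -- it suffices that `C ≤ O`
  by_contra hxO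
  have hxC : x ∈ C := by
    rw [hC, Subgroup.mem_centralizer_iff]
    intro v hv
    exact (hx v hv).symm
  have hlt : Z < C := by
    refine lt_of_le_of_ne inf_le_left fun h => hxO ?_
    have : x ∈ Z := h ▸ hxC
    exact this.2
  obtain ⟨L, hLn, hZL, hLC, hL⟩ := hs Z C hZn hCn hlt
  -- `Z` is central in `L`
  have hcent : ∀ l ∈ L, ∀ z ∈ Z, l * z = z * l := by
    intro l hl z hz
    have := (Subgroup.mem_centralizer_iff.1 (hLC hl)) z hz.2
    exact this.symm
  rcases hL with ⟨k, hk⟩ | hcop
  · -- `L` is a `p`-group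
    have hLp : IsPGroup p L := by
      obtain ⟨m, hm⟩ := IsPGroup.iff_card.1 hZp
      have hcard : Nat.card L = p ^ (m + k) := by
        have h1 : Nat.card Z * Z.relIndex L = Nat.card L := by
          have := Subgroup.relIndex_mul_relIndex (⊥ : Subgroup G) Z L bot_le hZL.le
          rwa [Subgroup.relIndex_bot_left, Subgroup.relIndex_bot_left] at this
        rw [← h1, hm, hk, pow_add]
      exact IsPGroup.of_card hcard
    have hLO : L ≤ O := c4_le_OpR hLn hLp
    exact absurd (le_inf hLC hLO) (not_le_of_gt hZL)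
  · -- `L = Z × Q`
    have : (Z.subgroupOf L).Normal := hZn.comap _
    obtain ⟨m, hm⟩ := IsPGroup.iff_card.1 hZp
    have hcardZ : Nat.card (Z.subgroupOf L) = p ^ m := by
      rw [← hm]
      exact Nat.card_congr (Subgroup.subgroupOfEquivOfLe hZL.le).toEquiv
    have hidx : (Z.subgroupOf L).index = Z.relIndex L := rfl
    have hco : Nat.Coprime (Nat.card (Z.subgroupOf L)) (Z.subgroupOf L).index := by
      rw [hcardZ, hidx]
      exact (Nat.Coprime.pow_left m hcop.symm)
    obtain ⟨Q, hQ⟩ := Subgroup.exists_right_complement'_of_coprime hco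
    have hcardQ : Nat.card Q = Z.relIndex L := by
      rw [← hidx]
      exact hQ.card_right
    set q : ℕ := Nat.card Q with hq
    have hqp : Nat.Coprime q p := by rw [hcardQ]; exact hcop
    -- `Q` is the set of the elements of `L` whose order divides `q`
    have hQpow : ∀ y : L, y ∈ Q ↔ y ^ q = 1 := by
      intro y
      constructor
      · intro hy
        have h1 : (⟨y, hy⟩ : Q) ^ q = 1 := by
          rw [hq]; exact pow_card_eq_one'
        exact congrArg Subtype.val h1
      · intro hy
        obtain ⟨⟨z, w⟩, hzw⟩ := hQ.existsUnique y |>.exists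
        have hzw' : (z : L) * (w : L) = y := hzw
        have hcm : Commute (z : L) (w : L) := by
          have h2 := hcent (w : L) (w : L).2 ((z : L) : G) (Subgroup.mem_subgroupOf.1 z.2)
          exact Subtype.ext h2.symm
        have hw1 : (w : L) ^ q = 1 := by
          have h1 : w ^ q = 1 := by
            rw [hq]; exact pow_card_eq_one'
          have h3 := congrArg Subtype.val h1
          simpa using h3
        have hz1 : (z : L) ^ q = 1 := by
          rw [← hzw', hcm.mul_pow, hw1, mul_one] at hy
          exact hy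
        have hz2 : (z : L) ^ (p ^ m) = 1 := by
          have h1 : z ^ (Nat.card (Z.subgroupOf L)) = 1 := pow_card_eq_one'
          rw [hcardZ] at h1
          have h3 := congrArg Subtype.val h1
          simpa using h3
        have hz3 : (z : L) = 1 := by
          have h4 : orderOf (z : L) ∣ Nat.gcd q (p ^ m) :=
            Nat.dvd_gcd (orderOf_dvd_of_pow_eq_one hz1) (orderOf_dvd_of_pow_eq_one hz2)
          rw [Nat.Coprime.gcd_eq_one (Nat.Coprime.pow_right m hqp)] at h4
          exact orderOf_eq_one_iff.1 (Nat.dvd_one.1 h4)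
        rw [← hzw', hz3, one_mul]
        exact w.2
    have hQn : (Q.map L.subtype).Normal := by
      refine ⟨?_⟩
      rintro _ ⟨y, hy, rfl⟩ g
      have hgy : g * (y : G) * g⁻¹ ∈ L := hLn.conj_mem _ y.2 g
      refine ⟨⟨g * (y : G) * g⁻¹, hgy⟩, ?_, rfl⟩
      have hy' : (y : G) ^ q = 1 := by
        have := (hQpow y).1 hy
        have h3 := congrArg Subtype.val this
        simpa using h3
      refine (hQpow _).2 (Subtype.ext ?_)
      simp only [SubmonoidClass.mk_pow, conj_pow, hy', mul_one, mul_inv_cancel, OneMemClass.coe_one]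
    have hQcard : Nat.card (Q.map L.subtype) = q := by
      rw [hq]
      exact Nat.card_congr (Q.equivMapOfInjective L.subtype L.subtype_injective).symm.toEquiv
    have hQbot : Q.map L.subtype = ⊥ :=
      c4_eq_bot ho hQn (by rw [hQcard]; exact hqp)
    have hq1 : q = 1 := by
      rw [← hQcard, hQbot]
      exact Subgroup.card_bot
    have h5 : Z.relIndex L = 1 := by rw [← hcardQ]; exact hq1
    exact absurd (Subgroup.relIndex_eq_one.1 h5) (not_le_of_gt hZL)

/-- the centre of a Sylow subgroup lies in `A`. -/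
theorem center_le_Ac (hs : PS p G) (ho : OqR p (⊥ : Subgroup G) = ⊥) (P : Sylow p G) {x : G}
    (hx : x ∈ P) (hc : ∀ y ∈ P, x * y = y * x) : x ∈ Ac p G := by
  have _ := hx
  refine Subgroup.subset_closure ⟨?_, ?_⟩
  · exact hall_higman hs ho fun v hv => hc v (c4_OpR_le P hv)
  · intro hdvd
    have h1 : csz x = (Subgroup.centralizer {x}).index := c4_csz_eq_index x
    have h2 : (P : Subgroup G) ≤ Subgroup.centralizer {x} := by
      intro y hy
      rw [Subgroup.mem_centralizer_singleton_iff]
      exact (hc y hy).symm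
    have h3 : (Subgroup.centralizer {x}).index ∣ (P : Subgroup G).index :=
      Subgroup.index_dvd_of_le h2
    have h4 : ¬ p ∣ (P : Subgroup G).index := P.not_dvd_index
    exact h4 ((h1 ▸ hdvd).trans h3)

end Grp

end SYL2
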