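import Pool.Agent.SYL2.B1
import Pool.Agent.SYL2.B3
import Pool.Agent.SYL2.C2
import Pool.Agent.SYL2.C3
import Pool.Agent.SYL2.C4

set_option autoImplicit false

/-! # SYL2, row C9: centraliser orders and condition (*). -/

namespace SYL2

section Grp

variable {p : ℕ} [Fact p.Prime] {G H : Type} [Group G] [Group H] [Finite G] [Finite H]

/-! ### counting centralisers -/

omit [Finite G] in
theorem c9_card (N : Subgroup G) [N.Normal] (x : G) :
    Nat.card (Subgroup.centralizer {x}) =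
      cc N x * Nat.card ((Subgroup.centralizer {x}).map (QuotientGroup.mk' N)) := by
  set C := Subgroup.centralizer {x} with hC
  let f : C →* G ⧸ N := (QuotientGroup.mk' N).comp C.subtype
  have h1 : Nat.card f.ker * f.ker.index = Nat.card C := Subgroup.card_mul_index _
  rw [Subgroup.index_ker] at h1
  have h2 : f.range = C.map (QuotientGroup.mk' N) := by
    rw [MonoidHom.range_eq_map, ← Subgroup.map_map]
    congr 1
    rw [← MonoidHom.range_eq_map, Subgroup.range_subtype]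
  have h3 : Nat.card f.ker = cc N x := by
    have hmem : ∀ z : C, z ∈ f.ker ↔ (z : G) ∈ N := by
      intro z
      rw [MonoidHom.mem_ker]
      exact QuotientGroup.eq_one_iff _
    refine Nat.card_congr
      { toFun := fun z => ⟨⟨z.1.1, (hmem z.1).1 z.2⟩, ?_⟩
        invFun := fun v => ⟨⟨v.1.1, ?_⟩, ?_⟩
        left_inv := fun z => rfl
        right_inv := fun v => rfl }
    · exact ((Subgroup.mem_centralizer_singleton_iff).1 z.1.2).symm
    · exact (Subgroup.mem_centralizer_singleton_iff).2 v.2.symm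
    · exact (hmem _).2 v.1.2
  rw [← h1, h3, h2]

omit [Finite G] in
theorem c9_map_le (N : Subgroup G) [N.Normal] (x : G) :
    (Subgroup.centralizer {x}).map (QuotientGroup.mk' N) ≤
      Subgroup.centralizer {(QuotientGroup.mk' N x : G ⧸ N)} := by
  rintro _ ⟨g, hg, rfl⟩
  rw [Subgroup.mem_centralizer_singleton_iff, ← _root_.map_mul, ← _root_.map_mul,
    (Subgroup.mem_centralizer_singleton_iff).1 hg]

omit [Finite G] in
theorem c9_cc_mul {N : Subgroup G} (hab : ∀ x ∈ N, ∀ y ∈ N, x * y = y * x) (x : G) {v : G}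
    (hv : v ∈ N) : cc N (x * v) = cc N x := by
  unfold cc
  refine Nat.card_congr (Equiv.subtypeEquivRight fun u => ?_)
  have h := hab v hv u u.2
  rw [mul_assoc, h, ← mul_assoc, ← mul_assoc, mul_left_inj]

omit [Finite G] in
theorem c9_cc_conj (N : Subgroup G) [N.Normal] (g x : G) : cc N (g * x * g⁻¹) = cc N x := by
  have hN : N.Normal := inferInstance
  unfold cc
  refine Nat.card_congr
    { toFun := fun u => ⟨⟨g⁻¹ * u.1.1 * g, ?_⟩, ?_⟩
      invFun := fun u => ⟨⟨g * u.1.1 * g⁻¹, hN.conj_mem _ u.1.2 g⟩, ?_⟩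
      left_inv := fun u => ?_
      right_inv := fun u => ?_ }
  · have := hN.conj_mem _ u.1.2 g⁻¹
    rwa [inv_inv] at this
  · have h := u.2
    show x * (g⁻¹ * u.1.1 * g) = g⁻¹ * u.1.1 * g * x
    calc x * (g⁻¹ * u.1.1 * g) = g⁻¹ * (g * x * g⁻¹ * u.1.1) * g := by group
      _ = g⁻¹ * (u.1.1 * (g * x * g⁻¹)) * g := by rw [h]
      _ = g⁻¹ * u.1.1 * g * x := by group
  · have h := u.2
    show g * x * g⁻¹ * (g * u.1.1 * g⁻¹) = g * u.1.1 * g⁻¹ * (g * x * g⁻¹)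
    calc g * x * g⁻¹ * (g * u.1.1 * g⁻¹) = g * (x * u.1.1) * g⁻¹ := by group
      _ = g * (u.1.1 * x) * g⁻¹ := by rw [h]
      _ = g * u.1.1 * g⁻¹ * (g * x * g⁻¹) := by group
  · apply Subtype.ext
    apply Subtype.ext
    show g * (g⁻¹ * u.1.1 * g) * g⁻¹ = u.1.1
    group
  · apply Subtype.ext
    apply Subtype.ext
    show g⁻¹ * (g * u.1.1 * g⁻¹) * g = u.1.1
    group

theorem c9_card_eq_of_rel (c : CAI G H) {x : G} {y : H} (h : c.Rel x y) :
    Nat.card (Subgroup.centralizer {x}) = Nat.card (Subgroup.centralizer {y}) := by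
  have h1 := Subgroup.card_mul_index (Subgroup.centralizer {x})
  have h2 := Subgroup.card_mul_index (Subgroup.centralizer {y})
  rw [← csz_eq_index] at h1 h2
  rw [← c.rel_csz h, ← c.card_eq, ← h1] at h2
  have h3 : 0 < csz x := by
    rw [csz_eq_index]
    exact Nat.pos_of_ne_zero Subgroup.FiniteIndex.index_ne_zero
  exact (Nat.eq_of_mul_eq_mul_right h3 h2).symm

/-! ### the Sylow subgroup `V S` -/

omit [Fact p.Prime] [Finite G] in
theorem c9_mem_VS {V K D S : Subgroup G} (cfg : GCfg p V K D S) {x : G} (hx : x ∈ V ⊔ S) :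
    ∃ s ∈ S, ∃ v ∈ V, x = s * v := by
  have := cfg.Vn
  rw [sup_comm] at hx
  obtain ⟨s, hs, v, hv, rfl⟩ := Subgroup.mem_sup_of_normal_right.1 hx
  exact ⟨s, hs, v, hv, rfl⟩

omit [Fact p.Prime] [Finite G] in
theorem c9_exists_VK {V K D S : Subgroup G} (cfg : GCfg p V K D S) (g : G) :
    ∃ v ∈ V, ∃ k ∈ K, g = v * k := by
  obtain ⟨⟨⟨v, hv⟩, ⟨k, hk⟩⟩, h⟩ := cfg.compl.2 g
  exact ⟨v, hv, k, hk, h.symm⟩

omit [Fact p.Prime] [Finite G] in
theorem c9_disj {V K D S : Subgroup G} (cfg : GCfg p V K D S) {g : G} (hv : g ∈ V)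
    (hk : g ∈ K) : g = 1 := by
  have := cfg.compl.disjoint
  exact (Subgroup.disjoint_def.1 this) hv hk

/-- centraliser of an element of `K`. -/
theorem c9_cent_K {V K D S : Subgroup G} (cfg : GCfg p V K D S) [V.Normal] {s : G}
    (hs : s ∈ K) : (Subgroup.centralizer {s}).map (QuotientGroup.mk' V) =
      Subgroup.centralizer {(QuotientGroup.mk' V s : G ⧸ V)} := by
  refine le_antisymm (c9_map_le V s) ?_
  intro y hy
  obtain ⟨g, rfl⟩ := QuotientGroup.mk'_surjective V y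
  obtain ⟨v, hv, k, hk, rfl⟩ := c9_exists_VK cfg g
  have h0 : QuotientGroup.mk' V (v * k) = QuotientGroup.mk' V k := by
    rw [_root_.map_mul]
    have : QuotientGroup.mk' V v = 1 := (QuotientGroup.eq_one_iff v).2 hv
    rw [this, one_mul]
  rw [h0] at hy ⊢
  refine ⟨k, ?_, rfl⟩
  rw [Subgroup.mem_centralizer_singleton_iff] at hy
  have h1 : k * s * k⁻¹ * s⁻¹ ∈ V := by
    have : QuotientGroup.mk' V (k * s * k⁻¹ * s⁻¹) = 1 := (map_comm_eq_one_iff _ k s).2 hy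
    rwa [← MonoidHom.mem_ker, QuotientGroup.ker_mk'] at this
  have h2 : k * s * k⁻¹ * s⁻¹ ∈ K := K.mul_mem (K.mul_mem (K.mul_mem hk hs) (K.inv_mem hk))
    (K.inv_mem hs)
  have h3 := c9_disj cfg h1 h2
  show k ∈ Subgroup.centralizer {s}
  rw [Subgroup.mem_centralizer_singleton_iff]
  rwa [mul_inv_eq_one, mul_inv_eq_iff_eq_mul] at h3

/-- `V` corresponds to `V'`. -/
theorem c9_im_V (c : CAI G H) {V K D S : Subgroup G} {V' K' D' S' : Subgroup H}
    (cfg : GCfg p V K D S) (cfg' : GCfg p V' K' D' S') : c.im V = V' := by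
  have key : ∀ {G H : Type} [Group G] [Group H] [Finite G] [Finite H] (c : CAI G H)
      {V K D S : Subgroup G} {V' K' D' S' : Subgroup H}
      (_ : GCfg p V K D S) (_ : GCfg p V' K' D' S'), c.im V ≤ V' := by
    intro G H _ _ _ _ c V K D S V' K' D' S' cfg cfg'
    rw [cfg'.VOp]
    refine c4_le_OpR (c.im_normal cfg.Vn) ?_
    rw [IsPGroup.iff_card, c.card_im cfg.Vn]
    exact IsPGroup.iff_card.1 cfg.Vp
  obtain ⟨c', hc'⟩ := c.exists_symm
  have h1 := key c cfg cfg'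
  have h2 := key c' cfg' cfg
  have h3 : Nat.card V' ≤ Nat.card (c.im V) := by
    rw [c.card_im cfg.Vn, ← c'.card_im cfg'.Vn]
    exact Nat.card_le_card_of_injective _ (Subgroup.inclusion_injective h2)
  exact Subgroup.eq_of_le_of_card_ge h1 h3

/-- the class of an element of `S` modulo `V` has size prime to `p`. -/
theorem c9_csz_bar {V K D S : Subgroup G} (cfg : GCfg p V K D S) [V.Normal] {s : G}
    (hs : s ∈ S) : ¬ p ∣ csz (QuotientGroup.mk' V s : G ⧸ V) := by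
  obtain ⟨P, hP⟩ := cfg.VS
  let Q := P.mapSurjective (QuotientGroup.mk'_surjective V)
  have hQ : (Q : Subgroup (G ⧸ V)) ≤ Subgroup.centralizer {(QuotientGroup.mk' V s : G ⧸ V)} := by
    intro y hy
    have hy' : y ∈ (P : Subgroup G).map (QuotientGroup.mk' V) := by
      rwa [← Sylow.coe_mapSurjective]
    obtain ⟨x, hx, rfl⟩ := hy'
    have hx' : x ∈ V ⊔ S := by rw [← hP]; exact hx
    obtain ⟨t, ht, v, hv, rfl⟩ := c9_mem_VS cfg hx'
    have h0 : QuotientGroup.mk' V (t * v) = QuotientGroup.mk' V t := by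
      rw [_root_.map_mul]
      have : QuotientGroup.mk' V v = 1 := (QuotientGroup.eq_one_iff v).2 hv
      rw [this, mul_one]
    rw [h0, Subgroup.mem_centralizer_singleton_iff, ← _root_.map_mul, ← _root_.map_mul,
      cfg.Sab t ht s hs]
  intro h
  rw [csz_eq_index] at h
  exact Q.not_dvd_index (h.trans (Subgroup.index_dvd_of_le hQ))

/-! ### condition (*) -/

/-- an element related to an element of `S'` is conjugate into `S V`. -/
theorem c9_conj_into (c : CAI G H) {V K D S : Subgroup G} {V' K' D' S' : Subgroup H}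
    (cfg : GCfg p V K D S) (cfg' : GCfg p V' K' D' S') {s' : H} (hs' : s' ∈ S') :
    ∃ s ∈ S, ∃ v ∈ V, c.Rel (s * v) s' := by
  have hV := cfg.Vn
  have hV' := cfg'.Vn
  have him := c9_im_V c cfg cfg'
  subst him
  obtain ⟨x, hx⟩ := c.exists_rel' s'
  obtain ⟨c1, hc1⟩ := c.quot V
  have h1 := hc1 x s' hx
  obtain ⟨P', hP'⟩ := cfg'.VS
  have hs'P : s' ∈ (P' : Subgroup H) := by
    rw [hP']
    exact Subgroup.mem_sup_right hs'
  obtain ⟨n, hn⟩ := P'.isPGroup' ⟨s', hs'P⟩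
  have hn' : s' ^ p ^ n = 1 := congrArg Subtype.val hn
  have h2 : ¬ p ∣ csz (QuotientGroup.mk x : G ⧸ V) := by
    rw [c1.rel_csz h1]
    exact c9_csz_bar cfg' hs'
  have h3 : (QuotientGroup.mk x : G ⧸ V) ^ p ^ n = 1 := by
    rw [c1.pow_iff h1 h2 n]
    have : (QuotientGroup.mk s' : H ⧸ c.im V) ^ p ^ n = QuotientGroup.mk (s' ^ p ^ n) := rfl
    rw [this, hn']
    rfl
  have h4 : x ^ p ^ n ∈ V := by
    rw [← QuotientGroup.eq_one_iff]
    exact h3
  obtain ⟨m, hm⟩ := cfg.Vp ⟨x ^ p ^ n, h4⟩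
  have hm' : (x ^ p ^ n) ^ p ^ m = 1 := congrArg Subtype.val hm
  have h5 : IsPGroup p (Subgroup.zpowers x) := by
    rintro ⟨y, hy⟩
    obtain ⟨k, rfl⟩ := Subgroup.mem_zpowers_iff.1 hy
    refine ⟨n + m, Subtype.ext ?_⟩
    show (x ^ k) ^ p ^ (n + m) = 1
    rw [← zpow_natCast, ← zpow_mul, mul_comm, zpow_mul, zpow_natCast, pow_add, pow_mul, hm',
      one_zpow]
  obtain ⟨Q, hQ⟩ := h5.exists_le_sylow
  obtain ⟨P, hP⟩ := cfg.VS
  obtain ⟨g, hg⟩ := MulAction.exists_smul_eq G Q P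
  have h6 : g * x * g⁻¹ ∈ V ⊔ S := by
    rw [← hP, ← hg, Sylow.coe_subgroup_smul]
    have hxQ : x ∈ (Q : Subgroup G) := hQ (Subgroup.mem_zpowers x)
    have := Subgroup.smul_mem_pointwise_smul x (MulAut.conj g) (Q : Subgroup G) hxQ
    simpa [MulAut.smul_def] using this
  obtain ⟨s, hs, v, hv, hsv⟩ := c9_mem_VS cfg h6
  refine ⟨s, hs, v, hv, ?_⟩
  rw [← hsv]
  have := c.rel_conj hx g 1
  simpa using this

/-- each element of `S'` corresponds modulo `V` to an element of `S`. -/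
theorem exists_relV (c : CAI G H) {V K D S : Subgroup G} {V' K' D' S' : Subgroup H}
    (cfg : GCfg p V K D S) (cfg' : GCfg p V' K' D' S') {s' : H} (hs' : s' ∈ S') :
    ∃ s ∈ S, RelV c V V' s s' ∧ ∃ v ∈ V, c.Rel (s * v) s' := by
  obtain ⟨s, hs, v, hv, h⟩ := c9_conj_into c cfg cfg' hs'
  exact ⟨s, hs, ⟨v, hv, 1, V'.one_mem, by rwa [mul_one]⟩, v, hv, h⟩

/-- the orders of the centralisers of `s v ~ s'` in `V`. -/
theorem c9_cc_le (c : CAI G H) {V K D S : Subgroup G} {V' K' D' S' : Subgroup H}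
    (cfg : GCfg p V K D S) (cfg' : GCfg p V' K' D' S') {s : G} {v : G} {s' : H}
    (hv : v ∈ V) (hs' : s' ∈ S') (h : c.Rel (s * v) s') : cc V' s' ≤ cc V s := by
  have hV := cfg.Vn
  have hV' := cfg'.Vn
  have him := c9_im_V c cfg cfg'
  subst him
  obtain ⟨c1, hc1⟩ := c.quot V
  have h1 := c9_card_eq_of_rel c h
  have h2 : Nat.card (Subgroup.centralizer {(QuotientGroup.mk' V (s * v) : G ⧸ V)}) =
      Nat.card (Subgroup.centralizer {(QuotientGroup.mk' (c.im V) s' : H ⧸ c.im V)}) :=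
    c9_card_eq_of_rel c1 (hc1 _ _ h)
  rw [c9_card V (s * v), c9_card (c.im V) s', c9_cc_mul cfg.Vab s hv,
    c9_cent_K cfg' (cfg'.SK hs'), ← h2] at h1
  have h3 : Nat.card ((Subgroup.centralizer {s * v}).map (QuotientGroup.mk' V)) ≤
      Nat.card (Subgroup.centralizer {(QuotientGroup.mk' V (s * v) : G ⧸ V)}) :=
    Nat.card_le_card_of_injective _ (Subgroup.inclusion_injective (c9_map_le V (s * v)))
  have h4 : 0 < Nat.card (Subgroup.centralizer {(QuotientGroup.mk' V (s * v) : G ⧸ V)}) :=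
    Nat.card_pos
  refine Nat.le_of_mul_le_mul_right ?_ h4
  rw [← h1]
  exact Nat.mul_le_mul_left _ h3

theorem c9_cc_le' (c : CAI G H) {V K D S : Subgroup G} {V' K' D' S' : Subgroup H}
    (cfg : GCfg p V K D S) (cfg' : GCfg p V' K' D' S') {s : G} {s' : H}
    (hs' : s' ∈ S') (h : RelV c V V' s s') : cc V' s' ≤ cc V s := by
  have hV := cfg.Vn
  have hV' := cfg'.Vn
  obtain ⟨s₁, hs₁, v₁, hv₁, h₁⟩ := c9_conj_into c cfg cfg' hs'
  have h2 := c9_cc_le c cfg cfg' hv₁ hs' h₁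
  -- `s` and `s₁` are conjugate modulo `V`
  obtain ⟨v, hv, v', hv', hr⟩ := h
  have him := c9_im_V c cfg cfg'
  subst him
  obtain ⟨c1, hc1⟩ := c.quot V
  have h3 := hc1 _ _ hr
  have h4 := hc1 _ _ h₁
  have h5 : (QuotientGroup.mk (s' * v') : H ⧸ c.im V) = QuotientGroup.mk s' := by
    rw [QuotientGroup.eq]
    have : (s' * v')⁻¹ * s' = s'⁻¹ * (s' * v'⁻¹ * s'⁻¹) * s' := by group
    have h6 : (s' * v')⁻¹ * s' = (v')⁻¹ * s'⁻¹ * s' := by group
    rw [h6, inv_mul_cancel_right]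
    exact (c.im V).inv_mem hv'
  rw [h5] at h3
  obtain ⟨k, hk⟩ := c1.rel_unique' h3 h4
  obtain ⟨g, rfl⟩ := QuotientGroup.mk'_surjective V k
  have h7 : (QuotientGroup.mk (s₁ * v₁) : G ⧸ V) = QuotientGroup.mk (g * (s * v) * g⁻¹) := hk
  rw [eq_comm, QuotientGroup.eq] at h7
  have h8 : s₁ * v₁ = g * (s * v) * g⁻¹ * ((g * (s * v) * g⁻¹)⁻¹ * (s₁ * v₁)) := by group
  have h9 : cc V s₁ = cc V s := by
    rw [← c9_cc_mul cfg.Vab s₁ hv₁, h8, c9_cc_mul cfg.Vab _ h7, c9_cc_conj,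
      c9_cc_mul cfg.Vab s hv]
  rwa [h9] at h2

theorem c9_relV_symm {c : CAI G H} {c' : CAI H G} (hc : ∀ x y, c'.Rel y x ↔ c.Rel x y)
    {V : Subgroup G} {V' : Subgroup H} {s : G} {s' : H} (h : RelV c V V' s s') :
    RelV c' V' V s' s := by
  obtain ⟨v, hv, v', hv', hr⟩ := h
  exact ⟨v', hv', v, hv, (hc _ _).2 hr⟩

theorem cc_eq_of_relV (c : CAI G H) {V K D S : Subgroup G} {V' K' D' S' : Subgroup H}
    (cfg : GCfg p V K D S) (cfg' : GCfg p V' K' D' S') {s : G} {s' : H} (hs : s ∈ S)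
    (hs' : s' ∈ S') (h : RelV c V V' s s') : cc V s = cc V' s' := by
  obtain ⟨c', hc'⟩ := c.exists_symm
  exact le_antisymm (c9_cc_le' c' cfg' cfg hs (c9_relV_symm hc' h)) (c9_cc_le' c cfg cfg' hs' h)

/-- the centraliser of `x = s v ~ s'` maps onto the centraliser modulo `V`. -/
theorem c9_onto (c : CAI G H) {V K D S : Subgroup G} {V' K' D' S' : Subgroup H}
    (cfg : GCfg p V K D S) (cfg' : GCfg p V' K' D' S') [V.Normal] {s : G} {v : G} {s' : H}
    (hs : s ∈ S) (hv : v ∈ V) (hs' : s' ∈ S') (h : c.Rel (s * v) s') :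
    (Subgroup.centralizer {s * v}).map (QuotientGroup.mk' V) =
      Subgroup.centralizer {(QuotientGroup.mk' V (s * v) : G ⧸ V)} := by
  have hV' := cfg'.Vn
  have h0 : cc V s = cc V' s' :=
    cc_eq_of_relV c cfg cfg' hs hs' ⟨v, hv, 1, V'.one_mem, by rwa [mul_one]⟩
  have him := c9_im_V c cfg cfg'
  subst him
  obtain ⟨c1, hc1⟩ := c.quot V
  have h1 := c9_card_eq_of_rel c h
  have h2 : Nat.card (Subgroup.centralizer {(QuotientGroup.mk' V (s * v) : G ⧸ V)}) =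
      Nat.card (Subgroup.centralizer {(QuotientGroup.mk' (c.im V) s' : H ⧸ c.im V)}) :=
    c9_card_eq_of_rel c1 (hc1 _ _ h)
  rw [c9_card V (s * v), c9_card (c.im V) s', c9_cc_mul cfg.Vab s hv,
    c9_cent_K cfg' (cfg'.SK hs'), ← h2, h0] at h1
  have h3 : 0 < cc (c.im V) s' := by
    have : Nonempty {x : c.im V // s' * x = x * s'} := ⟨⟨1, by simp⟩⟩
    exact Nat.card_pos
  exact Subgroup.eq_of_le_of_card_ge (c9_map_le V (s * v))
    (Nat.eq_of_mul_eq_mul_left h3 h1).ge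

theorem star_grp (c : CAI G H) {V K D S : Subgroup G} {V' K' D' S' : Subgroup H}
    (cfg : GCfg p V K D S) (cfg' : GCfg p V' K' D' S') (hcl : Cl2 p G)
    {s' : H} (hs' : s' ∈ S') {v' : H} (hv' : v' ∈ V') :
    ¬ p ∣ csz (s' * v' * s'⁻¹ * v'⁻¹) := by
  have hV := cfg.Vn
  have hV' := cfg'.Vn
  obtain ⟨c', hc'⟩ := c.exists_symm
  obtain ⟨s, hs, v, hv, h⟩ := c9_conj_into c cfg cfg' hs'
  have honto := c9_onto c cfg cfg' hs hv hs' h
  have him := c9_im_V c cfg cfg'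
  obtain ⟨w, hw⟩ := c.exists_rel' (s' * v' * s'⁻¹ * v'⁻¹)
  have h1 : s' * v' * s'⁻¹ * v'⁻¹ = s' * (v' * s'⁻¹ * v'⁻¹) := by group
  have hw' : c'.Rel (s' * (v' * s'⁻¹ * v'⁻¹)) w := by
    rw [← h1]
    exact (hc' _ _).2 hw
  have h2 : c'.Rel s' (s * v) := (hc' _ _).2 h
  have h3 : c'.Rel (v' * s'⁻¹ * v'⁻¹) (s * v)⁻¹ := by
    have := c'.rel_conj (c'.rel_inv h2) v' 1
    simpa using this
  obtain ⟨k, l, hkl⟩ := c'.rel_mul h2 h3 hw'
  have hwV : w ∈ V := by
    rw [← c.mem_im hV hw, him]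
    have h4 : s' * v' * s'⁻¹ ∈ V' := hV'.conj_mem _ hv' s'
    exact V'.mul_mem h4 (V'.inv_mem hv')
  set x := s * v with hx
  set g := k⁻¹ * l with hg
  have h5 : k⁻¹ * w * k = x * g * x⁻¹ * g⁻¹ := by
    rw [hkl, hg]
    group
  have h6 : x * g * x⁻¹ * g⁻¹ ∈ V := by
    rw [← h5]
    have := hV.conj_mem _ hwV k⁻¹
    rwa [inv_inv] at this
  have h7 : QuotientGroup.mk' V g ∈ Subgroup.centralizer {(QuotientGroup.mk' V x : G ⧸ V)} := by
    rw [Subgroup.mem_centralizer_singleton_iff]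
    have h8 : QuotientGroup.mk' V (x * g * x⁻¹ * g⁻¹) = 1 := (QuotientGroup.eq_one_iff _).2 h6
    exact ((map_comm_eq_one_iff _ x g).1 h8).symm
  rw [← honto] at h7
  obtain ⟨c₀, hc₀, hc₀'⟩ := h7
  have hc₁ : c₀ * x = x * c₀ := (Subgroup.mem_centralizer_singleton_iff).1 hc₀
  set u := g * c₀⁻¹ with hu
  have huV : u ∈ V := by
    rw [← QuotientGroup.ker_mk' V, MonoidHom.mem_ker, hu, _root_.map_mul, _root_.map_inv,
      hc₀', mul_inv_cancel]
  have h9 : g = u * c₀ := by rw [hu]; group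
  have h10 : x * g * x⁻¹ * g⁻¹ = x * u * x⁻¹ * u⁻¹ := by
    have h11 : c₀ * x⁻¹ * c₀⁻¹ = x⁻¹ := by
      have : c₀ * x⁻¹ * c₀⁻¹ = (c₀ * x * c₀⁻¹)⁻¹ := by group
      rw [this, hc₁]
      group
    calc x * g * x⁻¹ * g⁻¹ = x * u * (c₀ * x⁻¹ * c₀⁻¹) * u⁻¹ := by rw [h9]; group
      _ = x * u * x⁻¹ * u⁻¹ := by rw [h11]
  have h12 : csz (s' * v' * s'⁻¹ * v'⁻¹) = csz (x * u * x⁻¹ * u⁻¹) := by
    rw [← c.rel_csz hw, ← h10, ← h5]
    have := c2_csz_conj k⁻¹ w
    rw [inv_inv] at this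
    exact this.symm
  rw [h12]
  obtain ⟨P, hP⟩ := cfg.VS
  have hxP : x ∈ P := by
    have : x ∈ (P : Subgroup G) := by
      rw [hP]
      exact Subgroup.mul_mem _ (Subgroup.mem_sup_right hs) (Subgroup.mem_sup_left hv)
    exact this
  have huP : u ∈ P := by
    have : u ∈ (P : Subgroup G) := by
      rw [hP]
      exact Subgroup.mem_sup_left huV
    exact this
  have hle : (P : Subgroup G) ≤ Subgroup.centralizer {x * u * x⁻¹ * u⁻¹} := by
    intro z hz
    rw [Subgroup.mem_centralizer_singleton_iff]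
    exact (hcl P x hxP u huP z hz).symm
  intro hd
  rw [csz_eq_index] at hd
  exact P.not_dvd_index (hd.trans (Subgroup.index_dvd_of_le hle))

/-- an element of `V` with class size prime to `p` is centralised by a `D`-conjugate of `S`. -/
theorem conj_fix {V K D S : Subgroup G} (cfg : GCfg p V K D S) {w : G} (hw : w ∈ V)
    (h : ¬ p ∣ csz w) : ∃ d ∈ D, ∀ t ∈ S, (d⁻¹ * t * d) * w = w * (d⁻¹ * t * d) := by
  obtain ⟨Q, hQ⟩ := exists_sylow_le_centralizer h
  obtain ⟨P, hP⟩ := cfg.VS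
  obtain ⟨g, hg⟩ := MulAction.exists_smul_eq G P Q
  have key : ∀ t ∈ S, (g * t * g⁻¹) * w = w * (g * t * g⁻¹) := by
    intro t ht
    have h1 : t ∈ (P : Subgroup G) := by
      rw [hP]
      exact Subgroup.mem_sup_right ht
    have h2 : g * t * g⁻¹ ∈ (Q : Subgroup G) := by
      rw [← hg, Sylow.coe_subgroup_smul]
      have := Subgroup.smul_mem_pointwise_smul t (MulAut.conj g) (P : Subgroup G) h1
      simpa [MulAut.smul_def] using this
    exact (Subgroup.mem_centralizer_singleton_iff).1 (hQ h2)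
  obtain ⟨v, hv, k, hk, hvk⟩ := c9_exists_VK cfg g
  have key2 : ∀ t ∈ S, (k * t * k⁻¹) * w = w * (k * t * k⁻¹) := by
    intro t ht
    have h1 := key t ht
    have hvw : v * w = w * v := cfg.Vab v hv w hw
    have hvw' : v⁻¹ * w = w * v⁻¹ := cfg.Vab _ (V.inv_mem hv) w hw
    rw [hvk] at h1
    have h2 : v * k * t * (v * k)⁻¹ = v * (k * t * k⁻¹) * v⁻¹ := by group
    rw [h2] at h1
    calc (k * t * k⁻¹) * w = v⁻¹ * ((v * (k * t * k⁻¹) * v⁻¹) * (v * w)) := by group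
      _ = v⁻¹ * ((v * (k * t * k⁻¹) * v⁻¹) * w * v) := by rw [hvw]; group
      _ = v⁻¹ * (w * (v * (k * t * k⁻¹) * v⁻¹) * v) := by rw [h1]
      _ = (v⁻¹ * w) * (v * (k * t * k⁻¹)) := by group
      _ = (w * v⁻¹) * (v * (k * t * k⁻¹)) := by rw [hvw']
      _ = w * (k * t * k⁻¹) := by group
  obtain ⟨d, hd, hdk⟩ := cfg.frat k hk
  refine ⟨d⁻¹, D.inv_mem hd, fun t ht => ?_⟩
  rw [inv_inv]
  have hn : (d⁻¹ * k)⁻¹ * t * (d⁻¹ * k) ∈ S :=
    (Subgroup.mem_normalizer_iff''.1 hdk t).1 ht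
  have h3 := key2 _ hn
  have h4 : k * ((d⁻¹ * k)⁻¹ * t * (d⁻¹ * k)) * k⁻¹ = d * t * d⁻¹ := by group
  rwa [h4] at h3

end Grp

end SYL2
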