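import Pool.Agent.SYL2.B3
import Pool.Agent.SYL2.C9
import Pool.Agent.SYL2.C10a

set_option autoImplicit false

/-! # SYL2, row C10: the visible bijection from `S` to `S'` -/

namespace SYL2

section Grp

variable {p : ℕ} [Fact p.Prime] {G H : Type} [Group G] [Group H] [Finite G] [Finite H]

theorem exists_beta (c : CAI G H) {V K D S : Subgroup G} {V' K' D' S' : Subgroup H}
    (cfg : GCfg p V K D S) (cfg' : GCfg p V' K' D' S') :
    ∃ β : S ≃ S', (∀ s : S, RelV c V V' (s : G) (β s : H)) ∧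
      ∀ s : S, cc D (s : G) = cc D' (β s : H) := by
  refine exists_beta_of c cfg cfg' fun s hs => ?_
  obtain ⟨c', hc'⟩ := c.exists_symm
  obtain ⟨s'', hs'', ⟨v', hv', v, hv, hrel⟩, -⟩ := exists_relV c' cfg' cfg hs
  exact ⟨s'', hs'', v, hv, v', hv', (hc' _ _).1 hrel⟩

theorem exp_transfer (c : CAI G H) {V K D S : Subgroup G} {V' K' D' S' : Subgroup H}
    (cfg : GCfg p V K D S) (cfg' : GCfg p V' K' D' S')
    (hV : ∀ v ∈ V, v ^ p = 1) (hS : ∀ s ∈ S, s ^ p = 1) :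
    (∀ v ∈ V', v ^ p = 1) ∧ ∀ s ∈ S', s ^ p = 1 := by
  refine exp_transfer_of c cfg cfg' (fun s' hs' => ?_) (fun c x y h hx => ?_) hV hS
  · obtain ⟨s, hs, h, -⟩ := exists_relV c cfg cfg' hs'
    exact ⟨s, hs, h⟩
  · have h1 := c.pow_iff h hx 1
    rw [pow_one] at h1
    exact h1

end Grp

end SYL2
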