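import Pool.Agent.SYL2.B1b
import Pool.Agent.SYL2.C1
import Pool.Agent.SYL2.C2
import Pool.Agent.SYL2.C3
import Pool.Agent.SYL2.C4

set_option autoImplicit false

/-! # SYL2 row C5: abelian Sylow subgroups are visible -/

namespace SYL2

variable {p : ℕ} [Fact p.Prime] {G H : Type} [Group G] [Group H] [Finite G] [Finite H]

theorem sylow_normal_of_ab (hs : PS p G) (ho : OqR p (⊥ : Subgroup G) = ⊥) (h : AbSyl p G)
    (P : Sylow p G) : (P : Subgroup G) = OpR p (⊥ : Subgroup G) := by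
  apply le_antisymm
  · intro x hx
    exact hall_higman hs ho fun v hv => h P x hx v (OpR_le_sylow P hv)
  · exact OpR_le_sylow P

theorem OqR_idem (A : Subgroup G) (hA : A.Normal) : OqR p (OqR p A) = OqR p A := by
  apply le_antisymm
  · refine le_sSup ⟨OqR_normal _ (OqR_normal _ hA), (le_OqR A hA).trans
      (le_OqR _ (OqR_normal _ hA)), ?_⟩
    rw [← Subgroup.relIndex_mul_relIndex A (OqR p A) _ (le_OqR A hA)
      (le_OqR _ (OqR_normal _ hA))]
    exact Nat.Coprime.mul_left (OqR_relIndex A hA) (OqR_relIndex _ (OqR_normal _ hA))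
  · exact le_OqR _ (OqR_normal _ hA)

/-- the quotient by a normal subgroup `A` with `O_{p'}(G / A) = 1`. -/
theorem OqR_bot_quot (A : Subgroup G) [A.Normal] (h : OqR p A = A) :
    OqR p (⊥ : Subgroup (G ⧸ A)) = ⊥ := by
  have h1 := OqR_quot (p := p) A A inferInstance le_rfl
  have h2 : A.map (QuotientGroup.mk' A) = ⊥ := by
    rw [Subgroup.map_eq_bot_iff, QuotientGroup.ker_mk']
  rw [h, h2] at h1
  exact h1.symm

/-- if all Sylow subgroups are abelian, then the class sizes of the elements of `O_p(G)` are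
prime to `p`. -/
theorem csz_of_ab (h : AbSyl p G) {x : G}
    (hx : x ∈ OpR p (⊥ : Subgroup G)) : ¬ p ∣ csz x := by
  obtain ⟨P⟩ : Nonempty (Sylow p G) := inferInstance
  rw [csz_eq_index]
  intro hd
  have h1 : (P : Subgroup G) ≤ Subgroup.centralizer {x} := by
    intro y hy
    rw [Subgroup.mem_centralizer_singleton_iff]
    exact h P y hy x (OpR_le_sylow P hx)
  exact P.not_dvd_index (hd.trans (Subgroup.index_dvd_of_le h1))

theorem absyl_vis_aux (c : CAI G H) (hs : PS p G) (ho : OqR p (⊥ : Subgroup G) = ⊥)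
    (h : AbSyl p G) : AbSyl p H := by
  intro Q y hy z hz
  obtain ⟨P⟩ : Nonempty (Sylow p G) := inferInstance
  have hU : c.im (OpR p (⊥ : Subgroup G)) = OpR p (⊥ : Subgroup H) := by
    rw [c.im_OpR p inferInstance, c.im_bot]
  have hUn : (OpR p (⊥ : Subgroup G)).Normal := OpR_normal _ inferInstance
  have hcard : Nat.card (OpR p (⊥ : Subgroup H)) = Nat.card Q := by
    rw [← hU, c.card_im hUn, ← sylow_normal_of_ab hs ho h P, Sylow.card_eq_multiplicity,
      Sylow.card_eq_multiplicity, c.card_eq]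
  have hQ : OpR p (⊥ : Subgroup H) = (Q : Subgroup H) :=
    Subgroup.eq_of_le_of_card_ge (OpR_le_sylow Q) hcard.ge
  obtain ⟨x, hxy⟩ := c.exists_rel' y
  have hyU : y ∈ OpR p (⊥ : Subgroup H) := by
    rw [hQ]
    exact hy
  have hzU : z ∈ OpR p (⊥ : Subgroup H) := by
    rw [hQ]
    exact hz
  have hxU : x ∈ OpR p (⊥ : Subgroup G) := by
    rw [← c.mem_im hUn hxy, hU]
    exact hyU
  have hcs : ¬ p ∣ csz y := by
    rw [← c.rel_csz hxy]
    exact csz_of_ab h hxU
  exact comm_of_csz hcs hzU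

theorem absyl_vis (c : CAI G H) (hs : PS p G) (h : AbSyl p G) : AbSyl p H := by
  have hMn : (OqR p (⊥ : Subgroup G)).Normal := OqR_normal _ inferInstance
  have hMn' : (c.im (OqR p (⊥ : Subgroup G))).Normal := c.im_normal hMn
  obtain ⟨c', -⟩ := c.quot (OqR p (⊥ : Subgroup G))
  have ho : OqR p (⊥ : Subgroup (G ⧸ OqR p (⊥ : Subgroup G))) = ⊥ :=
    OqR_bot_quot _ (OqR_idem _ inferInstance)
  have h1 : AbSyl p (H ⧸ c.im (OqR p (⊥ : Subgroup G))) :=
    absyl_vis_aux c' (ps_quot hs _) ho (absyl_quot h _)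
  refine absyl_of_quot _ ?_ h1
  rw [c.card_im hMn]
  have h2 := OqR_relIndex (p := p) (⊥ : Subgroup G) inferInstance
  rwa [Subgroup.relIndex_bot_left] at h2

/-- the case `B = A`. -/
theorem sylow_normal_of_eq (hs : PS p G) (ho : OqR p (⊥ : Subgroup G) = ⊥)
    (hab : ∀ P : Sylow p G, ∀ x ∈ P, ∀ y ∈ P, x * y * x⁻¹ * y⁻¹ ∈ Ac p G)
    (hB : OqR p (Ac p G) = Ac p G) (P : Sylow p G) :
    (P : Subgroup G) = OpR p (⊥ : Subgroup G) := by
  have _ := ho
  have hAn : (Ac p G).Normal := Ac_normal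
  have hA : AbSyl p (G ⧸ Ac p G) := (absyl_quot_iff _).2 hab
  have hAP : Ac p G ≤ (P : Subgroup G) := by
    refine le_trans ?_ (OpR_le_sylow P)
    rw [Ac, Subgroup.closure_le]
    exact fun x hx => hx.1
  have h1 := sylow_normal_of_ab (ps_quot hs (Ac p G)) (OqR_bot_quot _ hB) hA
    (P.mapSurjective (QuotientGroup.mk'_surjective (Ac p G)))
  rw [Sylow.coe_mapSurjective] at h1
  have h2 : ((P : Subgroup G).map (QuotientGroup.mk' (Ac p G))).Normal := by
    rw [h1]
    exact OpR_normal _ inferInstance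
  have h3 : (P : Subgroup G) =
      ((P : Subgroup G).map (QuotientGroup.mk' (Ac p G))).comap (QuotientGroup.mk' (Ac p G)) := by
    rw [Subgroup.comap_map_eq, QuotientGroup.ker_mk', sup_eq_left.2 hAP]
  have h4 : (P : Subgroup G).Normal := by
    rw [h3]
    exact h2.comap _
  exact le_antisymm (c4_le_OpR h4 P.isPGroup') (OpR_le_sylow P)

end SYL2
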