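import Pool.Agent.SYL2.Defs

set_option autoImplicit false

/-! # SYL2 row C6a: complements of an abelian normal subgroup and the Frattini argument -/

namespace SYL2

section C6a

variable {G : Type} [Group G] [Finite G]

/-- Let `V` be an abelian normal subgroup, `D` and `E` subgroups with `E ∩ V = 1`, `D ≤ VE` and
`|V|` prime to `|D|`. Then `D` is conjugate under `V` to a subgroup of `E`. -/
theorem compl_conj {V D E : Subgroup G} (hV : V.Normal)
    (hab : ∀ x ∈ V, ∀ y ∈ V, x * y = y * x)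
    (hcop : (Nat.card V).Coprime (Nat.card D))
    (hEV : ∀ x ∈ E, x ∈ V → x = 1) (hDV : ∀ d ∈ D, ∃ v ∈ V, v⁻¹ * d ∈ E) :
    ∃ u ∈ V, ∀ d ∈ D, u⁻¹ * d * u ∈ E := by
  classical
  have : Fintype D := Fintype.ofFinite D
  let _ : CommGroup V := { (inferInstance : Group V) with
    mul_comm := fun a b => Subtype.ext (hab a a.2 b b.2) }
  choose! v hvV hvE using hDV
  -- the cocycle
  let f : D → V := fun d => ⟨v d, hvV d d.2⟩
  let act : D → V → V := fun d x => ⟨(d : G) * x * (d : G)⁻¹, hV.conj_mem _ x.2 _⟩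
  have hact_mul : ∀ d x y, act d (x * y) = act d x * act d y := by
    intro d x y
    apply Subtype.ext
    simp only [act, Subgroup.coe_mul]
    group
  let actH : D → V →* V := fun d =>
    { toFun := act d
      map_one' := by
        apply Subtype.ext
        simp [act]
      map_mul' := hact_mul d }
  have hf : ∀ d d' : D, f (d * d') = f d * act d (f d') := by
    intro d d'
    apply Subtype.ext
    simp only [f, act, Subgroup.coe_mul]
    set a := v (d : G) with ha
    set b := v (d' : G) with hb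
    set c := v ((d : G) * (d' : G)) with hc
    have h1 : a⁻¹ * d ∈ E := hvE d d.2
    have h2 : b⁻¹ * d' ∈ E := hvE d' d'.2
    have h3 : c⁻¹ * (d * d') ∈ E := hvE _ (D.mul_mem d.2 d'.2)
    have haV : a ∈ V := hvV d d.2
    have hbV : b ∈ V := hvV d' d'.2
    have hcV : c ∈ V := hvV _ (D.mul_mem d.2 d'.2)
    have h4 : (c⁻¹ * (d * d')) * ((a⁻¹ * d) * (b⁻¹ * d'))⁻¹ ∈ E :=
      E.mul_mem h3 (E.inv_mem (E.mul_mem h1 h2))
    have h5 : (c⁻¹ * ((d : G) * d')) * ((a⁻¹ * d) * (b⁻¹ * d'))⁻¹ =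
        c⁻¹ * ((d : G) * b * (d : G)⁻¹) * a := by group
    rw [h5] at h4
    have hdb : (d : G) * b * (d : G)⁻¹ ∈ V := hV.conj_mem _ hbV _
    have h6 := hEV _ h4 (V.mul_mem (V.mul_mem (V.inv_mem hcV) hdb) haV)
    have h7 : c = ((d : G) * b * (d : G)⁻¹) * a := by
      have : c * (c⁻¹ * ((d : G) * b * (d : G)⁻¹) * a) = c * 1 := by rw [h6]
      rw [mul_one] at this
      rw [← this]
      group
    rw [h7]
    exact hab _ hdb _ haV
  set m := Fintype.card D with hm
  let w : V := ∏ d : D, f d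
  have hw : ∀ d : D, w = f d ^ m * actH d w := by
    intro d
    have e1 : w = ∏ d' : D, f (d * d') := (Equiv.prod_comp (Equiv.mulLeft d) f).symm
    calc w = ∏ d' : D, f (d * d') := e1
      _ = ∏ d' : D, (f d * actH d (f d')) := Finset.prod_congr rfl fun d' _ => hf d d'
      _ = f d ^ m * actH d w := by
        rw [Finset.prod_mul_distrib, Finset.prod_const, Finset.card_univ, map_prod]
  have hcop' : (Nat.card V).Coprime m := by rw [hm, ← Nat.card_eq_fintype_card]; exact hcop
  -- the `m`-th root of `w`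
  obtain ⟨u, hu⟩ : ∃ u : V, u ^ m = w := by
    have := (powCoprime hcop').surjective w
    obtain ⟨u, hu⟩ := this
    exact ⟨u, hu⟩
  have hinj : ∀ x y : V, x ^ m = y ^ m → x = y := fun x y h =>
    (powCoprime hcop').injective h
  refine ⟨u, u.2, fun d hd => ?_⟩
  have h1 : f ⟨d, hd⟩ * actH ⟨d, hd⟩ u = u := by
    apply hinj
    rw [mul_pow, ← map_pow, hu]
    exact (hw ⟨d, hd⟩).symm
  have h2 : v d * (d * u * d⁻¹) = (u : G) := by
    have := congrArg (Subtype.val) h1
    simpa [f, actH, act] using this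
  have h3 : (u : G)⁻¹ * d * u = (v d)⁻¹ * d := by
    have hvV' := hvV d hd
    have hdu : d * u * d⁻¹ ∈ V := hV.conj_mem _ u.2 _
    have key : ∀ c a u : G, a * c = u → u⁻¹ * c = c * u⁻¹ → u⁻¹ * c = a⁻¹ := by
      intro c a u h h'
      rw [h', ← h]; group
    have h4 : (u : G)⁻¹ * (d * u * d⁻¹) = (v d)⁻¹ :=
      key _ _ _ h2 (hab _ (V.inv_mem u.2) _ hdu)
    calc (u : G)⁻¹ * d * u = ((u : G)⁻¹ * (d * u * d⁻¹)) * d := by group
      _ = (v d)⁻¹ * d := by rw [h4]
  rw [h3]
  exact hvE d hd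

theorem compl_frattini {V B : Subgroup G} (hV : V.Normal) (hB : B.Normal) (hVB : V ≤ B)
    (hab : ∀ x ∈ V, ∀ y ∈ V, x * y = y * x) (hcop : (Nat.card V).Coprime (V.relIndex B))
    (hfix : ∀ v ∈ V, (∀ b ∈ B, b * v = v * b) → v = 1) :
    ∃ D : Subgroup G, D ≤ B ∧ D ⊓ V = ⊥ ∧ V ⊔ D = B ∧
      Subgroup.IsComplement' V (Subgroup.normalizer (D : Set G)) := by
  classical
  have : (V.subgroupOf B).Normal := hV.subgroupOf B
  have hc1 : Nat.card (V.subgroupOf B) = Nat.card V :=
    Nat.card_congr (Subgroup.subgroupOfEquivOfLe hVB).toEquiv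
  have hcop1 : Nat.Coprime (Nat.card (V.subgroupOf B)) (V.subgroupOf B).index := by
    rw [hc1]; exact hcop
  obtain ⟨D', hD'⟩ := Subgroup.exists_right_complement'_of_coprime hcop1
  set D : Subgroup G := D'.map B.subtype with hD
  have hDB : D ≤ B := by
    rintro _ ⟨x, _, rfl⟩
    exact x.2
  have hDV : D ⊓ V = ⊥ := by
    rw [eq_bot_iff]
    rintro _ ⟨⟨x, hx, rfl⟩, hxV⟩
    have : x ∈ V.subgroupOf B ⊓ D' := ⟨hxV, hx⟩
    rw [hD'.disjoint.eq_bot] at this
    rw [Subgroup.mem_bot] at this ⊢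
    rw [this]; rfl
  have hmem : ∀ b ∈ B, ∃ v ∈ V, v⁻¹ * b ∈ D := by
    intro b hb
    have h1 : (⟨b, hb⟩ : B) ∈ V.subgroupOf B ⊔ D' := by
      rw [hD'.sup_eq_top]; trivial
    obtain ⟨x, hx, y, hy, hxy⟩ := Subgroup.mem_sup_of_normal_left.1 h1
    refine ⟨x, hx, ⟨y, hy, ?_⟩⟩
    have : (x : G) * y = b := congrArg Subtype.val hxy
    rw [← this]
    simp
  have hVD : V ⊔ D = B := by
    apply le_antisymm (sup_le hVB hDB)
    intro b hb
    obtain ⟨v, hv, hvb⟩ := hmem b hb
    have : b = v * (v⁻¹ * b) := by group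
    rw [this]
    exact Subgroup.mul_mem_sup hv hvb
  have hcardD : Nat.card D = V.relIndex B := by
    have h1 : Nat.card D = Nat.card D' :=
      (Nat.card_congr (D'.equivMapOfInjective B.subtype B.subtype_injective).toEquiv).symm
    rw [h1]
    have h2 := hD'.card_mul_card
    have h3 := (V.subgroupOf B).card_mul_index
    have h4 : 0 < Nat.card (V.subgroupOf B) := Nat.card_pos
    exact Nat.eq_of_mul_eq_mul_left h4 (h2.trans h3.symm)
  have hcopD : (Nat.card V).Coprime (Nat.card D) := by rw [hcardD]; exact hcop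
  refine ⟨D, hDB, hDV, hVD, ?_⟩
  apply Subgroup.isComplement'_of_disjoint_and_mul_eq_univ
  · rw [disjoint_iff, eq_bot_iff]
    rintro v ⟨hvV, hvN⟩
    rw [Subgroup.mem_bot]
    apply hfix v hvV
    -- `v` commutes with `D`
    have hcomm : ∀ d ∈ D, d * v = v * d := by
      intro d hd
      have h1 : v * d * v⁻¹ ∈ D := (Subgroup.mem_normalizer_iff.1 hvN d).1 hd
      have h2 : v * d * v⁻¹ * d⁻¹ ∈ D := D.mul_mem h1 (D.inv_mem hd)
      have h3 : v * d * v⁻¹ * d⁻¹ ∈ V := by
        have : v * d * v⁻¹ * d⁻¹ = v * (d * v⁻¹ * d⁻¹) := by group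
        rw [this]
        exact V.mul_mem hvV (hV.conj_mem _ (V.inv_mem hvV) _)
      have h4 : v * d * v⁻¹ * d⁻¹ ∈ D ⊓ V := ⟨h2, h3⟩
      rw [hDV, Subgroup.mem_bot] at h4
      have : v * d = d * v := by
        have h5 : v * d * v⁻¹ * d⁻¹ * (d * v) = 1 * (d * v) := by rw [h4]
        rw [one_mul] at h5
        rw [← h5]; group
      exact this.symm
    intro b hb
    obtain ⟨x, hx, hxb⟩ := hmem b hb
    have h1 := hcomm _ hxb
    have h2 := hab x hx v hvV
    calc b * v = x * ((x⁻¹ * b) * v) := by group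
      _ = x * (v * (x⁻¹ * b)) := by rw [h1]
      _ = (x * v) * (x⁻¹ * b) := by group
      _ = (v * x) * (x⁻¹ * b) := by rw [h2]
      _ = v * b := by group
  · rw [Set.eq_univ_iff_forall]
    intro g
    -- `E = g D g⁻¹`
    obtain ⟨u, huV, hu⟩ := compl_conj (V := V) (D := D) (E := D.map (MulAut.conj g).toMonoidHom)
      hV hab hcopD (by
        rintro _ ⟨d, hd, rfl⟩ hV'
        have h1 : d ∈ V := by
          have := hV.conj_mem _ hV' g⁻¹
          simpa [mul_assoc] using this
        have : d ∈ D ⊓ V := ⟨hd, h1⟩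
        rw [hDV, Subgroup.mem_bot] at this
        simp [this])
      (by
        intro d hd
        have h1 : g⁻¹ * d * g ∈ B := by
          have := hB.conj_mem _ (hDB hd) g⁻¹
          simpa using this
        obtain ⟨v, hv, hvd⟩ := hmem _ h1
        refine ⟨g * v * g⁻¹, hV.conj_mem _ hv _, ⟨v⁻¹ * (g⁻¹ * d * g), hvd, ?_⟩⟩
        simp [MulAut.conj_apply]
        group)
    refine ⟨u⁻¹, V.inv_mem huV, u * g, ?_, by simp⟩
    have hle : ∀ d ∈ D, (u * g)⁻¹ * d * (u * g) ∈ D := by
      intro d hd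
      obtain ⟨y, hy, hyd⟩ := hu d hd
      have h1 : g * y * g⁻¹ = u⁻¹ * d * u := by simpa [MulAut.conj_apply] using hyd
      have h2 : (u * g)⁻¹ * d * (u * g) = y := by
        calc (u * g)⁻¹ * d * (u * g) = g⁻¹ * (u⁻¹ * d * u) * g := by group
          _ = g⁻¹ * (g * y * g⁻¹) * g := by rw [h1]
          _ = y := by group
      rw [h2]
      exact hy
    have hinv : (u * g)⁻¹ ∈ Subgroup.normalizer (D : Set G) := by
      apply Subgroup.mem_normalizer_fintype
      intro n hn
      have := hle n hn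
      simpa using this
    have := (Subgroup.normalizer (D : Set G)).inv_mem hinv
    simpa using this

end C6a

end SYL2
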