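import Pool.Agent.SYL2.Defs

set_option autoImplicit false

/-! # SYL2 row C7: exponents on the class two side -/

namespace SYL2

section C7

variable {p : ℕ} [Fact p.Prime] {G : Type} [Group G] [Finite G]

omit [Finite G] in
theorem c7_eq_one_of_pow {a : G} {m n : ℕ} (hm : a ^ m = 1) (hn : a ^ n = 1)
    (h : m.Coprime n) : a = 1 := by
  have h1 := orderOf_dvd_of_pow_eq_one hm
  have h2 := orderOf_dvd_of_pow_eq_one hn
  have h3 := Nat.dvd_gcd h1 h2
  rw [h] at h3
  exact orderOf_eq_one_iff.1 (Nat.dvd_one.1 h3)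

omit [Fact p.Prime] in
/-- coprime action on an abelian normal subgroup: `C_V(N) ∩ [V, N] = 1`. -/
theorem c7_inf {V N : Subgroup G} (hV : V.Normal) (hab : ∀ x ∈ V, ∀ y ∈ V, x * y = y * x)
    (hp : IsPGroup p V) (hcop : (Nat.card N).Coprime p) {a : G} (ha : a ∈ V)
    (hc : ∀ n ∈ N, n * a = a * n)
    (hcl : a ∈ Subgroup.closure {x | ∃ v ∈ V, ∃ n ∈ N, x = v * n * v⁻¹ * n⁻¹}) : a = 1 := by
  classical
  have : Fintype N := Fintype.ofFinite N
  let _ : CommGroup V := { (inferInstance : Group V) with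
    mul_comm := fun a b => Subtype.ext (hab a a.2 b b.2) }
  let act : N → V →* V := fun d =>
    { toFun := fun x => ⟨(d : G) * x * (d : G)⁻¹, hV.conj_mem _ x.2 _⟩
      map_one' := by
        apply Subtype.ext
        simp
      map_mul' := by
        intro x y
        apply Subtype.ext
        simp only [Subgroup.coe_mul]
        group }
  let π : V →* V :=
    { toFun := fun x => ∏ d : N, act d x
      map_one' := by simp
      map_mul' := by
        intro x y
        simp only [map_mul]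
        rw [Finset.prod_mul_distrib] }
  have hπ : ∀ (x : V) (n : N), π (act n x) = π x := by
    intro x n
    have h1 : π (act n x) = ∏ d : N, act (d * n) x := by
      apply Finset.prod_congr rfl
      intro d _
      apply Subtype.ext
      simp only [act, MonoidHom.coe_mk, OneHom.coe_mk, Subgroup.coe_mul]
      group
    rw [h1]
    exact Equiv.prod_comp (Equiv.mulRight n) fun d => act d x
  -- `π` kills the commutators
  have hk : ∀ y ∈ Subgroup.closure {x | ∃ v ∈ V, ∃ n ∈ N, x = v * n * v⁻¹ * n⁻¹},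
      ∃ hy : y ∈ V, π ⟨y, hy⟩ = 1 := by
    intro y hy
    induction hy using Subgroup.closure_induction with
    | mem x hx =>
      obtain ⟨v, hv, n, hn, rfl⟩ := hx
      have h1 : v * n * v⁻¹ * n⁻¹ ∈ V := by
        have : v * n * v⁻¹ * n⁻¹ = v * (n * v⁻¹ * n⁻¹) := by group
        rw [this]
        exact V.mul_mem hv (hV.conj_mem _ (V.inv_mem hv) _)
      refine ⟨h1, ?_⟩
      have h2 : (⟨v * n * v⁻¹ * n⁻¹, h1⟩ : V) = ⟨v, hv⟩ * act ⟨n, hn⟩ (⟨v, hv⟩⁻¹) := by
        apply Subtype.ext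
        simp only [act, MonoidHom.coe_mk, OneHom.coe_mk, Subgroup.coe_mul, Subgroup.coe_inv]
        group
      rw [h2, map_mul, hπ, ← map_mul, mul_inv_cancel, _root_.map_one]
    | one => exact ⟨V.one_mem, by
        have : (⟨1, V.one_mem⟩ : V) = 1 := rfl
        rw [this, _root_.map_one]⟩
    | mul x y _ _ hx hy =>
      obtain ⟨hx1, hx2⟩ := hx
      obtain ⟨hy1, hy2⟩ := hy
      refine ⟨V.mul_mem hx1 hy1, ?_⟩
      have : (⟨x * y, V.mul_mem hx1 hy1⟩ : V) = ⟨x, hx1⟩ * ⟨y, hy1⟩ := rfl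
      rw [this, map_mul, hx2, hy2, mul_one]
    | inv x _ hx =>
      obtain ⟨hx1, hx2⟩ := hx
      refine ⟨V.inv_mem hx1, ?_⟩
      have : (⟨x⁻¹, V.inv_mem hx1⟩ : V) = (⟨x, hx1⟩ : V)⁻¹ := rfl
      rw [this, _root_.map_inv, hx2, inv_one]
  obtain ⟨_, h1⟩ := hk a hcl
  have h2 : π ⟨a, ha⟩ = (⟨a, ha⟩ : V) ^ Nat.card N := by
    have h3 : ∀ d : N, act d ⟨a, ha⟩ = ⟨a, ha⟩ := by
      intro d
      apply Subtype.ext
      simp only [act, MonoidHom.coe_mk, OneHom.coe_mk]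
      rw [hc d d.2]
      group
    show ∏ d : N, act d ⟨a, ha⟩ = _
    rw [Finset.prod_congr rfl fun d _ => h3 d, Finset.prod_const, Finset.card_univ,
      Nat.card_eq_fintype_card]
  have h3 : a ^ Nat.card N = 1 := by
    have := congrArg (Subtype.val) (h2.symm.trans h1)
    simpa using this
  obtain ⟨k, hk⟩ := hp ⟨a, ha⟩
  have h4 : a ^ p ^ k = 1 := by
    have := congrArg (Subtype.val) hk
    simpa using this
  exact c7_eq_one_of_pow h3 h4 (hcop.pow_right k)

omit [Fact p.Prime] [Finite G] in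
/-- a `p'`-element which centralises the elements of order `p` of an abelian normal `p`-subgroup
centralises it. -/
theorem c7_omega {V : Subgroup G} (hV : V.Normal) (hab : ∀ x ∈ V, ∀ y ∈ V, x * y = y * x)
    {x : G} {m : ℕ} (hx : x ^ m = 1) (hm : m.Coprime p)
    (h : ∀ v ∈ V, v ^ p = 1 → x * v = v * x) :
    ∀ k : ℕ, ∀ v ∈ V, v ^ p ^ k = 1 → x * v = v * x := by
  intro k
  induction k with
  | zero =>
    intro v _ hv
    rw [pow_zero, pow_one] at hv
    rw [hv, mul_one, one_mul]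
  | succ k ih =>
    intro v hv hvk
    have h1 : (v ^ p) ^ p ^ k = 1 := by rw [← pow_mul, ← pow_succ']; exact hvk
    have h2 := ih (v ^ p) (V.pow_mem hv p) h1
    set u := v⁻¹ * (x * v * x⁻¹) with hu
    have hxv : x * v * x⁻¹ ∈ V := hV.conj_mem _ hv _
    have huV : u ∈ V := V.mul_mem (V.inv_mem hv) hxv
    have hup : u ^ p = 1 := by
      have hc : Commute v⁻¹ (x * v * x⁻¹) := hab _ (V.inv_mem hv) _ hxv
      rw [hu, hc.mul_pow, conj_pow, h2, inv_pow]
      group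
    have hxu := h u huV hup
    have hpow : ∀ n : ℕ, x ^ n * v = v * u ^ n * x ^ n := by
      intro n
      induction n with
      | zero => simp
      | succ n ihn =>
        have h3 : x * v = v * u * x := by rw [hu]; group
        have hxun : x * u ^ n = u ^ n * x := by
          have : Commute x (u ^ n) := (show Commute x u from hxu).pow_right n
          exact this
        calc x ^ (n + 1) * v = x * (x ^ n * v) := by rw [pow_succ']; group
          _ = x * (v * u ^ n * x ^ n) := by rw [ihn]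
          _ = (x * v) * u ^ n * x ^ n := by group
          _ = v * u * (x * u ^ n) * x ^ n := by rw [h3]; group
          _ = v * u * (u ^ n * x) * x ^ n := by rw [hxun]
          _ = v * u ^ (n + 1) * x ^ (n + 1) := by
            rw [pow_succ' u n, pow_succ' x n]; group
    have hum : u ^ m = 1 := by
      have := hpow m
      rw [hx, one_mul, mul_one] at this
      exact (mul_eq_left.1 this.symm)
    have hu1 : u = 1 := c7_eq_one_of_pow hum hup hm
    have : x * v * x⁻¹ = v := by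
      have h5 : v * u = x * v * x⁻¹ := by rw [hu]; group
      rw [← h5, hu1, mul_one]
    calc x * v = (x * v * x⁻¹) * x := by group
      _ = v * x := by rw [this]

omit [Finite G] in
/-- the action of `s` on `V` when `[V, S, S] = 1`. -/
theorem c7_conj_pow {s v c : G} (hc : s * v * s⁻¹ = c * v) (hsc : s * c = c * s) (n : ℕ) :
    s ^ n * v * (s ^ n)⁻¹ = c ^ n * v := by
  induction n with
  | zero => simp
  | succ n ih =>
    have h1 : s * c ^ n * s⁻¹ = c ^ n := by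
      have : Commute s (c ^ n) := (show Commute s c from hsc).pow_right n
      rw [this.eq]; group
    calc s ^ (n + 1) * v * (s ^ (n + 1))⁻¹ = s * (s ^ n * v * (s ^ n)⁻¹) * s⁻¹ := by
          rw [pow_succ']; group
      _ = s * (c ^ n * v) * s⁻¹ := by rw [ih]
      _ = (s * c ^ n * s⁻¹) * (s * v * s⁻¹) := by group
      _ = c ^ n * (c * v) := by rw [h1, hc]
      _ = c ^ (n + 1) * v := by rw [pow_succ]; group

theorem quad_exp {V K D S : Subgroup G} (cfg : GCfg p V K D S)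
    (hq : ∀ v ∈ V, ∀ s ∈ S, ∀ t ∈ S, t * (v * s * v⁻¹ * s⁻¹) = (v * s * v⁻¹ * s⁻¹) * t)
    (hS : S ≠ ⊥) : (∀ v ∈ V, v ^ p = 1) ∧ ∀ s ∈ S, s ^ p = 1 := by
  have hVK : ∀ x, x ∈ V → x ∈ K → x = 1 := by
    intro x hx hxK
    have : x ∈ V ⊓ K := ⟨hx, hxK⟩
    rw [cfg.compl.disjoint.eq_bot] at this
    exact this
  have hVDcent : ∀ x ∈ K, (∀ v ∈ V, x * v = v * x) → x = 1 := fun x hx h =>
    hVK x (cfg.cent x h) hx
  -- the element `c = s v s⁻¹ v⁻¹`
  have hc : ∀ v ∈ V, ∀ s ∈ S, ∃ c ∈ V, s * v * s⁻¹ = c * v ∧ s * c = c * s ∧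
      (c ^ p = s * v ^ p * s⁻¹ * (v ^ p)⁻¹) := by
    intro v hv s hs
    have hsv : s * v * s⁻¹ ∈ V := cfg.Vn.conj_mem _ hv _
    refine ⟨s * v * s⁻¹ * v⁻¹, V.mul_mem hsv (V.inv_mem hv), by group, ?_, ?_⟩
    · have h1 := hq v hv s hs s hs
      have h2 : s * v * s⁻¹ * v⁻¹ = (v * s * v⁻¹ * s⁻¹)⁻¹ := by group
      rw [h2]
      exact ((show Commute s _ from h1).inv_right).eq
    · have hcm : Commute (s * v * s⁻¹) v⁻¹ := cfg.Vab _ hsv _ (V.inv_mem hv)
      rw [hcm.mul_pow, conj_pow, inv_pow]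
  -- `s ^ p = 1`
  have hsp : ∀ s ∈ S, s ^ p = 1 := by
    intro s hs
    apply cfg.Sfaith _ (S.pow_mem hs p)
    intro d hd
    have hsK : s ^ p ∈ K := K.pow_mem (cfg.SK hs) p
    -- `s ^ p` centralises the elements of order `p`
    have h1 : ∀ v ∈ V, v ^ p = 1 → s ^ p * v * (s ^ p)⁻¹ = v := by
      intro v hv hvp
      obtain ⟨c, _, h2, h3, h4⟩ := hc v hv s hs
      rw [c7_conj_pow h2 h3, h4, hvp]
      group
    set x := s ^ p * d * (s ^ p)⁻¹ * d⁻¹ with hx
    have hxD : x ∈ D := D.mul_mem (cfg.Dn _ hsK _ hd) (D.inv_mem hd)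
    have hxK : x ∈ K := cfg.DK hxD
    have h2 : ∀ v ∈ V, v ^ p = 1 → x * v = v * x := by
      intro v hv hvp
      have hv1 : d⁻¹ * v * d ∈ V := by
        have := cfg.Vn.conj_mem _ hv d⁻¹
        simpa using this
      have hvp1 : (d⁻¹ * v * d) ^ p = 1 := by
        have : d⁻¹ * v * d = d⁻¹ * v * (d⁻¹)⁻¹ := by rw [inv_inv]
        rw [this, conj_pow, hvp]; group
      have h3 := h1 _ hv1 hvp1
      have h4 : (s ^ p)⁻¹ * (d⁻¹ * v * d) * s ^ p = d⁻¹ * v * d := by
        calc (s ^ p)⁻¹ * (d⁻¹ * v * d) * s ^ p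
            = (s ^ p)⁻¹ * (s ^ p * (d⁻¹ * v * d) * (s ^ p)⁻¹) * s ^ p := by rw [h3]
          _ = d⁻¹ * v * d := by group
      have h5 := h1 v hv hvp
      have h6 : x * v * x⁻¹ = v := by
        calc x * v * x⁻¹ = s ^ p * d * ((s ^ p)⁻¹ * (d⁻¹ * v * d) * s ^ p) * d⁻¹ * (s ^ p)⁻¹ := by
              rw [hx]; group
          _ = s ^ p * d * (d⁻¹ * v * d) * d⁻¹ * (s ^ p)⁻¹ := by rw [h4]
          _ = s ^ p * v * (s ^ p)⁻¹ := by group
          _ = v := h5
      calc x * v = (x * v * x⁻¹) * x := by group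
        _ = v * x := by rw [h6]
    have h3 : x ^ Nat.card D = 1 := by
      have := pow_card_eq_one' (x := (⟨x, hxD⟩ : D))
      exact congrArg Subtype.val this
    have h4 : x = 1 := by
      apply hVDcent x hxK
      intro v hv
      obtain ⟨k, hk⟩ := cfg.Vp ⟨v, hv⟩
      exact c7_omega (p := p) cfg.Vn cfg.Vab h3 cfg.Dcop h2 k v hv (congrArg Subtype.val hk)
    calc s ^ p * d = x * (d * s ^ p) := by rw [hx]; group
      _ = d * s ^ p := by rw [h4, one_mul]
  refine ⟨?_, hsp⟩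
  -- `S` centralises `V ^ p`
  have hsv : ∀ v ∈ V, ∀ s ∈ S, s * v ^ p = v ^ p * s := by
    intro v hv s hs
    obtain ⟨c, _, h2, h3, h4⟩ := hc v hv s hs
    have h5 := c7_conj_pow h2 h3 p
    rw [hsp s hs, one_mul, inv_one, mul_one] at h5
    have h6 : c ^ p = 1 := (mul_eq_right.1 h5.symm)
    rw [h4] at h6
    calc s * v ^ p = (s * v ^ p * s⁻¹ * (v ^ p)⁻¹) * (v ^ p * s) := by group
      _ = v ^ p * s := by rw [h6, one_mul]
  by_contra hcon
  push Not at hcon
  obtain ⟨v₀, hv₀, hv₀p⟩ := hcon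
  -- `N = C_D(V ^ p)`
  let N : Subgroup G :=
    { carrier := {d | d ∈ D ∧ ∀ v ∈ V, d * v ^ p = v ^ p * d}
      one_mem' := ⟨D.one_mem, fun v _ => by rw [one_mul, mul_one]⟩
      mul_mem' := by
        rintro a b ⟨ha, ha'⟩ ⟨hb, hb'⟩
        refine ⟨D.mul_mem ha hb, fun v hv => ?_⟩
        rw [mul_assoc, hb' v hv, ← mul_assoc, ha' v hv, mul_assoc]
      inv_mem' := by
        rintro a ⟨ha, ha'⟩
        exact ⟨D.inv_mem ha, fun v hv => ((show Commute a (v ^ p) from ha' v hv).inv_left).eq⟩ }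
  have hND : N ≤ D := fun d hd => hd.1
  have hNK : ∀ k ∈ K, ∀ n ∈ N, k * n * k⁻¹ ∈ N := by
    rintro k hk n ⟨hn, hn'⟩
    refine ⟨cfg.Dn k hk n hn, fun v hv => ?_⟩
    have h1 : k⁻¹ * v * k ∈ V := by
      have := cfg.Vn.conj_mem _ hv k⁻¹
      simpa using this
    have h2 := hn' _ h1
    have h3 : (k⁻¹ * v * k) ^ p = k⁻¹ * v ^ p * k := by
      have : k⁻¹ * v * k = k⁻¹ * v * (k⁻¹)⁻¹ := by rw [inv_inv]
      rw [this, conj_pow, inv_inv]
    rw [h3] at h2
    calc k * n * k⁻¹ * v ^ p = k * (n * (k⁻¹ * v ^ p * k)) * k⁻¹ := by group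
      _ = k * ((k⁻¹ * v ^ p * k) * n) * k⁻¹ := by rw [h2]
      _ = v ^ p * (k * n * k⁻¹) := by group
  have hNcop : (Nat.card N).Coprime p :=
    Nat.Coprime.coprime_dvd_left (Subgroup.card_dvd_of_le hND) cfg.Dcop
  -- the two normal subgroups
  let A : Subgroup G :=
    { carrier := {v | v ∈ V ∧ ∀ n ∈ N, n * v = v * n}
      one_mem' := ⟨V.one_mem, fun n _ => by rw [one_mul, mul_one]⟩
      mul_mem' := by
        rintro a b ⟨ha, ha'⟩ ⟨hb, hb'⟩
        refine ⟨V.mul_mem ha hb, fun n hn => ?_⟩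
        rw [← mul_assoc, ha' n hn, mul_assoc, hb' n hn, mul_assoc]
      inv_mem' := by
        rintro a ⟨ha, ha'⟩
        exact ⟨V.inv_mem ha, fun n hn => ((show Commute n a from ha' n hn).inv_right).eq⟩ }
  let C : Subgroup G := Subgroup.closure {x | ∃ v ∈ V, ∃ n ∈ N, x = v * n * v⁻¹ * n⁻¹}
  have hdec : ∀ g : G, ∃ v ∈ V, ∃ k ∈ K, g = v * k := by
    intro g
    have h1 : g ∈ V ⊔ K := by rw [cfg.compl.sup_eq_top]; trivial
    have := cfg.Vn
    obtain ⟨v, hv, k, hk, h⟩ := Subgroup.mem_sup_of_normal_left.1 h1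
    exact ⟨v, hv, k, hk, h.symm⟩
  have hCV : C ≤ V := by
    rw [Subgroup.closure_le]
    rintro _ ⟨v, hv, n, hn, rfl⟩
    have : v * n * v⁻¹ * n⁻¹ = v * (n * v⁻¹ * n⁻¹) := by group
    rw [this]
    exact V.mul_mem hv (cfg.Vn.conj_mem _ (V.inv_mem hv) _)
  have hAn : A.Normal := by
    constructor
    rintro a ⟨haV, ha⟩ g
    obtain ⟨v, hv, k, hk, rfl⟩ := hdec g
    have hka : k * a * k⁻¹ ∈ V := cfg.Vn.conj_mem _ haV _
    have h1 : v * k * a * (v * k)⁻¹ = k * a * k⁻¹ := by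
      calc v * k * a * (v * k)⁻¹ = v * (k * a * k⁻¹) * v⁻¹ := by group
        _ = (k * a * k⁻¹) * v * v⁻¹ := by rw [cfg.Vab v hv _ hka]
        _ = k * a * k⁻¹ := by group
    rw [h1]
    refine ⟨hka, fun n hn => ?_⟩
    have h2 : k⁻¹ * n * k ∈ N := by
      have := hNK k⁻¹ (K.inv_mem hk) n hn
      simpa using this
    have h3 := ha _ h2
    calc n * (k * a * k⁻¹) = k * ((k⁻¹ * n * k) * a) * k⁻¹ := by group
      _ = k * (a * (k⁻¹ * n * k)) * k⁻¹ := by rw [h3]
      _ = (k * a * k⁻¹) * n := by group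
  have hCn : C.Normal := by
    constructor
    intro a ha g
    obtain ⟨v, hv, k, hk, rfl⟩ := hdec g
    have hka : k * a * k⁻¹ ∈ V := cfg.Vn.conj_mem _ (hCV ha) _
    have h1 : v * k * a * (v * k)⁻¹ = k * a * k⁻¹ := by
      calc v * k * a * (v * k)⁻¹ = v * (k * a * k⁻¹) * v⁻¹ := by group
        _ = (k * a * k⁻¹) * v * v⁻¹ := by rw [cfg.Vab v hv _ hka]
        _ = k * a * k⁻¹ := by group
    rw [h1]
    clear hka h1
    have hmap : C.map (MulAut.conj k).toMonoidHom ≤ C := by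
      rw [MonoidHom.map_closure, Subgroup.closure_le]
      rintro _ ⟨_, ⟨v, hv, n, hn, rfl⟩, rfl⟩
      apply Subgroup.subset_closure
      refine ⟨k * v * k⁻¹, cfg.Vn.conj_mem _ hv _, k * n * k⁻¹, hNK k hk n hn, ?_⟩
      simp only [MulEquiv.toMonoidHom_eq_coe, MonoidHom.coe_coe, MulAut.conj_apply]
      group
    have : (MulAut.conj k).toMonoidHom a ∈ C.map (MulAut.conj k).toMonoidHom := ⟨a, ha, rfl⟩
    have := hmap this
    simpa [MulAut.conj_apply] using this
  have hAC : A ⊓ C = ⊥ := by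
    rw [eq_bot_iff]
    rintro a ⟨⟨haV, ha⟩, haC⟩
    exact c7_inf (p := p) cfg.Vn cfg.Vab cfg.Vp hNcop haV ha haC
  rcases cfg.mono A C hAn hCn hAC with h | h
  · have h1 : v₀ ^ p ∈ A := ⟨V.pow_mem hv₀ p, fun n hn => hn.2 v₀ hv₀⟩
    rw [h] at h1
    exact hv₀p h1
  · -- `N = 1`
    have hN1 : ∀ n ∈ N, n = 1 := by
      intro n hn
      apply hVDcent n (cfg.DK hn.1)
      intro v hv
      have h1 : v * n * v⁻¹ * n⁻¹ ∈ C := Subgroup.subset_closure ⟨v, hv, n, hn, rfl⟩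
      rw [h] at h1
      have h2 : v * n * v⁻¹ * n⁻¹ = 1 := h1
      calc n * v = (v * n * v⁻¹ * n⁻¹)⁻¹ * (v * n) := by group
        _ = v * n := by rw [h2]; group
    apply hS
    rw [eq_bot_iff]
    intro s hs
    apply cfg.Sfaith s hs
    intro d hd
    have h1 : s * d * s⁻¹ * d⁻¹ ∈ N := by
      refine ⟨D.mul_mem (cfg.Dn s (cfg.SK hs) d hd) (D.inv_mem hd), fun v hv => ?_⟩
      have h2 := hsv v hv s hs
      have hdv : d⁻¹ * v * d ∈ V := by
        have := cfg.Vn.conj_mem _ hv d⁻¹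
        simpa using this
      have h3 := hsv _ hdv s hs
      have h4 : (d⁻¹ * v * d) ^ p = d⁻¹ * v ^ p * d := by
        have : d⁻¹ * v * d = d⁻¹ * v * (d⁻¹)⁻¹ := by rw [inv_inv]
        rw [this, conj_pow, inv_inv]
      rw [h4] at h3
      have h5 : s⁻¹ * (d⁻¹ * v ^ p * d) * s = d⁻¹ * v ^ p * d := by
        calc s⁻¹ * (d⁻¹ * v ^ p * d) * s = s⁻¹ * ((d⁻¹ * v ^ p * d) * s) := by group
          _ = s⁻¹ * (s * (d⁻¹ * v ^ p * d)) := by rw [h3]
          _ = d⁻¹ * v ^ p * d := by group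
      have h6 : s * v ^ p * s⁻¹ = v ^ p := by rw [h2]; group
      set y := s * d * s⁻¹ * d⁻¹ with hy
      have h7 : y * v ^ p * y⁻¹ = v ^ p := by
        calc y * v ^ p * y⁻¹ = s * d * (s⁻¹ * (d⁻¹ * v ^ p * d) * s) * d⁻¹ * s⁻¹ := by
              rw [hy]; group
          _ = s * d * (d⁻¹ * v ^ p * d) * d⁻¹ * s⁻¹ := by rw [h5]
          _ = s * v ^ p * s⁻¹ := by group
          _ = v ^ p := h6
      calc y * v ^ p = (y * v ^ p * y⁻¹) * y := by group
        _ = v ^ p * y := by rw [h7]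
    have h2 := hN1 _ h1
    calc s * d = (s * d * s⁻¹ * d⁻¹) * (d * s) := by group
      _ = d * s := by rw [h2, one_mul]

end C7

end SYL2
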