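import Pool.Agent.SYL2.Defs

/-!
# SYL2, row C6b: the normal subgroup `V` is its own centraliser
-/

set_option autoImplicit false

namespace SYL2

variable {p : ℕ} {G : Type} [Group G]

/-- If `V` is an abelian normal subgroup with a complement in a group in which any two nontrivial
normal subgroups meet, then `V` contains its centraliser. -/
theorem cent_V_of {V K : Subgroup G} (hm : Mono G) (Vn : V.Normal)
    (Vab : ∀ x ∈ V, ∀ y ∈ V, x * y = y * x) (V0 : V ≠ ⊥) (compl : Subgroup.IsComplement' V K) :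
    ∀ x, (∀ v ∈ V, x * v = v * x) → x ∈ V := by
  have hC : ∀ g x : G, (∀ v ∈ V, x * v = v * x) → ∀ v ∈ V, g * x * g⁻¹ * v = v * (g * x * g⁻¹) := by
    intro g x hx v hv
    have h1 := hx (g⁻¹ * v * g) (by simpa using Vn.conj_mem v hv g⁻¹)
    calc g * x * g⁻¹ * v = g * (x * (g⁻¹ * v * g)) * g⁻¹ := by group
      _ = g * ((g⁻¹ * v * g) * x) * g⁻¹ := by rw [h1]
      _ = v * (g * x * g⁻¹) := by group
  have hdec : ∀ g : G, ∃ v ∈ V, ∃ k ∈ K, g = v * k := by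
    intro g
    obtain ⟨⟨v, k⟩, h⟩ := compl.2 g
    exact ⟨v, v.2, k, k.2, h.symm⟩
  let F : Subgroup G :=
    { carrier := {x | x ∈ K ∧ ∀ v ∈ V, x * v = v * x}
      one_mem' := ⟨K.one_mem, fun v _ => by rw [one_mul, mul_one]⟩
      mul_mem' := by
        rintro a b ⟨ha, ha'⟩ ⟨hb, hb'⟩
        refine ⟨K.mul_mem ha hb, fun v hv => ?_⟩
        rw [mul_assoc, hb' v hv, ← mul_assoc, ha' v hv, mul_assoc]
      inv_mem' := by
        rintro a ⟨ha, ha'⟩
        refine ⟨K.inv_mem ha, fun v hv => ?_⟩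
        rw [inv_mul_eq_iff_eq_mul, ← mul_assoc, ha' v hv, mul_inv_cancel_right] }
  have hF : F.Normal := by
    refine ⟨fun x hx g => ?_⟩
    obtain ⟨hx1, hx2⟩ := hx
    obtain ⟨v, hv, k, hk, rfl⟩ := hdec g
    have h1 : k * x * k⁻¹ ∈ K := K.mul_mem (K.mul_mem hk hx1) (K.inv_mem hk)
    have h2 := hC k x hx2
    have h3 : v * k * x * (v * k)⁻¹ = k * x * k⁻¹ := by
      calc v * k * x * (v * k)⁻¹ = v * (k * x * k⁻¹) * v⁻¹ := by group
        _ = (k * x * k⁻¹) * v * v⁻¹ := by rw [h2 v hv]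
        _ = k * x * k⁻¹ := by rw [mul_inv_cancel_right]
    rw [h3]
    exact ⟨h1, h2⟩
  have hVF : V ⊓ F = ⊥ := by
    rw [eq_bot_iff]
    intro x hx
    obtain ⟨h1, h2⟩ := Subgroup.mem_inf.1 hx
    have h3 : x ∈ V ⊓ K := Subgroup.mem_inf.2 ⟨h1, h2.1⟩
    rw [compl.isCompl.inf_eq_bot] at h3
    exact h3
  have hFb : F = ⊥ := (hm V F Vn hF hVF).resolve_left V0
  intro x hx
  obtain ⟨v, hv, k, hk, rfl⟩ := hdec x
  have h1 : k ∈ F := by
    refine ⟨hk, fun w hw => ?_⟩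
    have h2 := hx w hw
    have h3 := Vab v hv w hw
    have h4 : v * (k * w) = v * (w * k) := by
      rw [← mul_assoc, h2, ← mul_assoc, ← mul_assoc, h3]
    exact mul_left_cancel h4
  rw [hFb, Subgroup.mem_bot] at h1
  rw [h1, mul_one]
  exact hv

theorem cent_V {V K D : Subgroup G} (_hs : PS p G) (_ho : OqR p (⊥ : Subgroup G) = ⊥)
    (hm : Mono G) (Vn : V.Normal) (_Vp : IsPGroup p V) (Vab : ∀ x ∈ V, ∀ y ∈ V, x * y = y * x)
    (V0 : V ≠ ⊥) (compl : Subgroup.IsComplement' V K) (_DK : D ≤ K)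
    (_Dn : ∀ k ∈ K, ∀ d ∈ D, k * d * k⁻¹ ∈ D) (_Dcop : (Nat.card D).Coprime p)
    (_VD : V ⊔ D = OqR p V) : ∀ x, (∀ v ∈ V, x * v = v * x) → x ∈ V :=
  cent_V_of hm Vn Vab V0 compl

end SYL2
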