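import Pool.Agent.SYL2.C5
import Pool.Agent.SYL2.C6a
import Pool.Agent.SYL2.C7
import Pool.Agent.SYL2.CentV

set_option autoImplicit false

/-! # SYL2 row C6: the configuration `G = V ⋊ K` -/

namespace SYL2

section C6

variable {p : ℕ} [Fact p.Prime] {G : Type} [Group G] [Finite G]

omit [Fact p.Prime] in
/-- Schur-Zassenhaus inside `B`. -/
theorem c6_exists_compl {V B : Subgroup G} (hV : V.Normal) (hVB : V ≤ B)
    (hcop : (Nat.card V).Coprime (V.relIndex B)) :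
    ∃ D : Subgroup G, D ≤ B ∧ (∀ d ∈ D, d ∈ V → d = 1) ∧ Nat.card D = V.relIndex B ∧
      ∀ b ∈ B, ∃ v ∈ V, ∃ d ∈ D, b = v * d := by
  classical
  have : (V.subgroupOf B).Normal := hV.subgroupOf B
  have hc1 : Nat.card (V.subgroupOf B) = Nat.card V :=
    Nat.card_congr (Subgroup.subgroupOfEquivOfLe hVB).toEquiv
  have hcop1 : Nat.Coprime (Nat.card (V.subgroupOf B)) (V.subgroupOf B).index := by
    rw [hc1]; exact hcop
  obtain ⟨D', hD'⟩ := Subgroup.exists_right_complement'_of_coprime hcop1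
  refine ⟨D'.map B.subtype, ?_, ?_, ?_, ?_⟩
  · rintro _ ⟨x, _, rfl⟩
    exact x.2
  · rintro _ ⟨x, hx, rfl⟩ hxV
    have : x ∈ V.subgroupOf B ⊓ D' := ⟨hxV, hx⟩
    rw [hD'.disjoint.eq_bot] at this
    rw [Subgroup.mem_bot] at this
    rw [this]; rfl
  · have h1 : Nat.card (D'.map B.subtype) = Nat.card D' :=
      (Nat.card_congr (D'.equivMapOfInjective B.subtype B.subtype_injective).toEquiv).symm
    rw [h1]
    have h2 := hD'.card_mul_card
    have h3 := (V.subgroupOf B).card_mul_index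
    have h4 : 0 < Nat.card (V.subgroupOf B) := Nat.card_pos
    exact Nat.eq_of_mul_eq_mul_left h4 (h2.trans h3.symm)
  · intro b hb
    have h1 : (⟨b, hb⟩ : B) ∈ V.subgroupOf B ⊔ D' := by
      rw [hD'.sup_eq_top]; trivial
    obtain ⟨x, hx, y, hy, hxy⟩ := Subgroup.mem_sup_of_normal_left.1 h1
    exact ⟨x, hx, y, ⟨y, hy, rfl⟩, (congrArg Subtype.val hxy).symm⟩

/-- `C_V(B) = 1`. -/
theorem c6_fix {V B : Subgroup G} (ho : OqR p (⊥ : Subgroup G) = ⊥) (hm : Mono G)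
    (hV : V.Normal) (hB : B.Normal) (hVB : V ≤ B)
    (hab : ∀ x ∈ V, ∀ y ∈ V, x * y = y * x) (hVp : IsPGroup p V)
    (hcop : (V.relIndex B).Coprime p) (hne : B ≠ V) :
    ∀ v ∈ V, (∀ b ∈ B, b * v = v * b) → v = 1 := by
  classical
  obtain ⟨k, hk⟩ := IsPGroup.iff_card.1 hVp
  have hcopV : (Nat.card V).Coprime (V.relIndex B) := by
    rw [hk]; exact Nat.Coprime.pow_left k hcop.symm
  obtain ⟨D, hDB, hDV, hDc, hdec⟩ := c6_exists_compl hV hVB hcopV
  -- the two normal subgroups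
  let C : Subgroup G := V ⊓ Subgroup.centralizer (B : Set G)
  have hC : C.Normal := by
    have := hB
    exact inferInstanceAs (V ⊓ Subgroup.centralizer (B : Set G)).Normal
  let W : Subgroup G := Subgroup.closure {x | ∃ v ∈ V, ∃ b ∈ B, x = v * b * v⁻¹ * b⁻¹}
  have hW : W.Normal := by
    apply closure_normal
    rintro _ ⟨v, hv, b, hb, rfl⟩ g
    exact ⟨g * v * g⁻¹, hV.conj_mem _ hv _, g * b * g⁻¹, hB.conj_mem _ hb _, by group⟩
  have hWD : W ≤ Subgroup.closure {x | ∃ v ∈ V, ∃ n ∈ D, x = v * n * v⁻¹ * n⁻¹} := by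
    refine Subgroup.closure_mono ?_
    rintro _ ⟨v, hv, b, hb, rfl⟩
    obtain ⟨w, hw, d, hd, rfl⟩ := hdec b hb
    refine ⟨v, hv, d, hd, ?_⟩
    have h1 : v * (w * d) * v⁻¹ * (w * d)⁻¹ = (v * w) * (d * v⁻¹ * d⁻¹) * w⁻¹ := by group
    have h2 : d * v⁻¹ * d⁻¹ ∈ V := hV.conj_mem _ (V.inv_mem hv) _
    rw [h1, hab v hv w hw]
    have h3 : w * v * (d * v⁻¹ * d⁻¹) * w⁻¹ = w * (v * (d * v⁻¹ * d⁻¹)) * w⁻¹ := by group
    rw [h3, hab w hw _ (V.mul_mem hv h2)]
    group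
  have hCW : C ⊓ W = ⊥ := by
    rw [eq_bot_iff]
    rintro a ⟨⟨haV, haC⟩, haW⟩
    rw [Subgroup.mem_bot]
    refine c7_inf hV hab hVp (by rw [hDc]; exact hcop) haV (fun n hn => ?_) (hWD haW)
    exact (Subgroup.mem_centralizer_iff.1 haC n (hDB hn))
  rcases hm C W hC hW hCW with h | h
  · intro v hv hb
    have : v ∈ C := ⟨hv, Subgroup.mem_centralizer_iff.2 fun b hb' => hb b hb'⟩
    rw [h] at this
    exact this
  · exfalso
    have hcomm : ∀ v ∈ V, ∀ b ∈ B, v * b = b * v := by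
      intro v hv b hb
      have h1 : v * b * v⁻¹ * b⁻¹ ∈ W := Subgroup.subset_closure ⟨v, hv, b, hb, rfl⟩
      rw [h, Subgroup.mem_bot] at h1
      rwa [mul_inv_eq_one, mul_inv_eq_iff_eq_mul] at h1
    have hDcop : (Nat.card D).Coprime p := by rw [hDc]; exact hcop
    have hpow : ∀ d ∈ D, d ^ Nat.card D = 1 := by
      intro d hd
      have := pow_card_eq_one' (x := (⟨d, hd⟩ : D))
      exact congrArg Subtype.val this
    have hDn : D.Normal := by
      refine ⟨fun d hd g => ?_⟩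
      have h1 : g * d * g⁻¹ ∈ B := hB.conj_mem _ (hDB hd) _
      obtain ⟨v, hv, e, he, hve⟩ := hdec _ h1
      have h2 : (v * e) ^ Nat.card D = 1 := by
        rw [← hve, conj_pow, hpow d hd]; group
      have h3 : Commute v e := hcomm v hv e (hDB he)
      rw [h3.mul_pow, hpow e he, mul_one] at h2
      have h4 : v ^ p ^ k = 1 := by
        have := pow_card_eq_one' (x := (⟨v, hv⟩ : V))
        rw [hk] at this
        exact congrArg Subtype.val this
      have h5 : v = 1 := c7_eq_one_of_pow h2 h4 (Nat.Coprime.pow_right k hDcop)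
      rw [hve, h5, one_mul]
      exact he
    have hD1 : D = ⊥ := c4_eq_bot ho hDn hDcop
    apply hne
    apply le_antisymm _ hVB
    intro b hb
    obtain ⟨v, hv, d, hd, rfl⟩ := hdec b hb
    rw [hD1, Subgroup.mem_bot] at hd
    rw [hd, mul_one]
    exact hv

/-- `P B` is normal in `G`. -/
theorem c6_PB (hs : PS p G) {A : Subgroup G} (hA : A.Normal)
    (hab : ∀ P : Sylow p G, ∀ x ∈ P, ∀ y ∈ P, x * y * x⁻¹ * y⁻¹ ∈ A) (P : Sylow p G) :
    ((P : Subgroup G) ⊔ OqR p A).Normal := by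
  have hBn : (OqR p A).Normal := OqR_normal _ hA
  have h1 : AbSyl p (G ⧸ OqR p A) := by
    rw [absyl_quot_iff]
    intro P x hx y hy
    exact le_OqR A hA (hab P x hx y hy)
  have h2 : OqR p (⊥ : Subgroup (G ⧸ OqR p A)) = ⊥ := OqR_bot_quot _ (OqR_idem _ hA)
  have h3 := sylow_normal_of_ab (ps_quot hs (OqR p A)) h2 h1
    (P.mapSurjective (QuotientGroup.mk'_surjective (OqR p A)))
  rw [Sylow.coe_mapSurjective] at h3
  have h4 : (((P : Subgroup G).map (QuotientGroup.mk' (OqR p A))).comap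
      (QuotientGroup.mk' (OqR p A))).Normal := by
    rw [h3]
    have := OpR_normal (p := p) (⊥ : Subgroup (G ⧸ OqR p A)) inferInstance
    exact this.comap _
  rwa [Subgroup.comap_map_eq, QuotientGroup.ker_mk'] at h4

theorem exists_cfg (hs : PS p G) (ho : OqR p (⊥ : Subgroup G) = ⊥) (hm : Mono G)
    (hab : ∀ P : Sylow p G, ∀ x ∈ P, ∀ y ∈ P, x * y * x⁻¹ * y⁻¹ ∈ Ac p G)
    (hB : OqR p (Ac p G) ≠ Ac p G) : ∃ K D S : Subgroup G, GCfg p (Ac p G) K D S := by
  classical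
  have Vn : (Ac p G).Normal := Ac_normal
  have hVU : Ac p G ≤ OpR p (⊥ : Subgroup G) := by
    rw [Ac, Subgroup.closure_le]
    exact fun x hx => hx.1
  set V : Subgroup G := Ac p G with hVdef
  have Vp : IsPGroup p V := OpR_bot_isPGroup.to_le hVU
  have Vab : ∀ x ∈ V, ∀ y ∈ V, x * y = y * x := fun x hx y hy => Ac_comm hx (hVU hy)
  have hBn : (OqR p V).Normal := OqR_normal _ Vn
  have hVB : V ≤ OqR p V := le_OqR V Vn
  have hrel : (V.relIndex (OqR p V)).Coprime p := OqR_relIndex V Vn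
  obtain ⟨k, hk⟩ := IsPGroup.iff_card.1 Vp
  have hcopV : (Nat.card V).Coprime (V.relIndex (OqR p V)) := by
    rw [hk]; exact Nat.Coprime.pow_left k hrel.symm
  have hfix := c6_fix ho hm Vn hBn hVB Vab Vp hrel hB
  obtain ⟨D, hDB, hDV, hVD, compl⟩ := compl_frattini Vn hBn hVB Vab hcopV hfix
  set K : Subgroup G := Subgroup.normalizer (D : Set G) with hK
  have hVK : ∀ x, x ∈ V → x ∈ K → x = 1 := by
    intro x hx hxK
    have : x ∈ V ⊓ K := ⟨hx, hxK⟩
    rw [compl.disjoint.eq_bot] at this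
    exact this
  have hVKdec : ∀ g : G, ∃ v ∈ V, ∃ x ∈ K, g = v * x := by
    intro g
    have h1 : g ∈ V ⊔ K := by rw [compl.sup_eq_top]; trivial
    obtain ⟨v, hv, x, hx, h⟩ := Subgroup.mem_sup_of_normal_left.1 h1
    exact ⟨v, hv, x, hx, h.symm⟩
  have hDcard : Nat.card D = V.relIndex (OqR p V) := by
    rw [← hVD, Subgroup.relIndex_sup_left, ← Subgroup.inf_relIndex_right, inf_comm, hDV,
      Subgroup.relIndex_bot_left]
  have Dcop : (Nat.card D).Coprime p := by rw [hDcard]; exact hrel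
  have Dne : D ≠ ⊥ := by
    intro h
    apply hB
    rw [← hVD, h, sup_bot_eq]
  have V0 : V ≠ ⊥ := by
    intro h
    apply hB
    rw [h, ho]
  have cent := cent_V_of hm Vn Vab V0 compl
  have VOp : V = OpR p (⊥ : Subgroup G) := by
    apply le_antisymm hVU
    intro x hx
    exact cent x fun v hv => (Ac_comm hv hx).symm
  have DK : D ≤ K := Subgroup.le_normalizer
  have Dn : ∀ k ∈ K, ∀ d ∈ D, k * d * k⁻¹ ∈ D := fun k hk d hd =>
    (Subgroup.mem_normalizer_iff.1 hk d).1 hd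
  obtain ⟨P⟩ : Nonempty (Sylow p G) := inferInstance
  have hVP : V ≤ P := hVU.trans (OpR_le_sylow P)
  set S : Subgroup G := (P : Subgroup G) ⊓ K with hS
  have SK : S ≤ K := inf_le_right
  have hPdec : ∀ x ∈ P, ∃ v ∈ V, ∃ s ∈ S, x = v * s := by
    intro x hx
    obtain ⟨v, hv, y, hy, rfl⟩ := hVKdec x
    refine ⟨v, hv, y, ⟨?_, hy⟩, rfl⟩
    have : y = v⁻¹ * (v * y) := by group
    rw [this]
    exact P.mul_mem (P.inv_mem (hVP hv)) hx
  have VS : (P : Subgroup G) = V ⊔ S := by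
    apply le_antisymm
    · intro x hx
      obtain ⟨v, hv, s, hs', rfl⟩ := hPdec x hx
      exact Subgroup.mul_mem_sup hv hs'
    · exact sup_le hVP inf_le_left
  have Sab : ∀ x ∈ S, ∀ y ∈ S, x * y = y * x := by
    intro x hx y hy
    have h1 := hab P x hx.1 y hy.1
    have h2 : x * y * x⁻¹ * y⁻¹ ∈ K :=
      K.mul_mem (K.mul_mem (K.mul_mem hx.2 hy.2) (K.inv_mem hx.2)) (K.inv_mem hy.2)
    have h3 := hVK _ h1 h2
    rwa [mul_inv_eq_one, mul_inv_eq_iff_eq_mul] at h3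
  -- the Frattini argument
  have hPBn : ((P : Subgroup G) ⊔ OqR p V).Normal := c6_PB hs Vn hab P
  have hfrat := Sylow.normalizer_sup_eq_top' (N := (P : Subgroup G) ⊔ OqR p V) P le_sup_left
  have frat : ∀ k ∈ K, ∃ d ∈ D, d⁻¹ * k ∈ Subgroup.normalizer (S : Set G) := by
    intro k hk
    have h1 : k ∈ ((P : Subgroup G) ⊔ OqR p V) ⊔ Subgroup.normalizer (P : Set G) := by
      rw [sup_comm, hfrat]; trivial
    obtain ⟨l, hl, n, hn, rfl⟩ := Subgroup.mem_sup_of_normal_left.1 h1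
    rw [sup_comm] at hl
    obtain ⟨b, hb, x, hx, rfl⟩ := Subgroup.mem_sup_of_normal_left.1 hl
    rw [← hVD, sup_comm] at hb
    obtain ⟨d, hd, v, hv, rfl⟩ := Subgroup.mem_sup_of_normal_right.1 hb
    refine ⟨d, hd, ?_⟩
    have hPN : ∀ y ∈ P, y ∈ Subgroup.normalizer (P : Set G) := fun y hy =>
      (Subgroup.le_normalizer (H := (P : Subgroup G))) hy
    have h2 : d⁻¹ * (d * v * x * n) ∈ Subgroup.normalizer (P : Set G) := by
      have : d⁻¹ * (d * v * x * n) = v * x * n := by group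
      rw [this]
      exact Subgroup.mul_mem _ (Subgroup.mul_mem _ (hPN v (hVP hv)) (hPN x hx)) hn
    have h3 : d⁻¹ * (d * v * x * n) ∈ K := K.mul_mem (K.inv_mem (DK hd)) hk
    generalize d⁻¹ * (d * v * x * n) = m at h2 h3
    rw [Subgroup.mem_normalizer_iff]
    intro s
    have h4 : s ∈ P ↔ m * s * m⁻¹ ∈ P := Subgroup.mem_normalizer_iff.1 h2 s
    have h5 : s ∈ K ↔ m * s * m⁻¹ ∈ K := by
      constructor
      · intro h
        exact K.mul_mem (K.mul_mem h3 h) (K.inv_mem h3)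
      · intro h
        have : s = m⁻¹ * (m * s * m⁻¹) * m := by group
        rw [this]
        exact K.mul_mem (K.mul_mem (K.inv_mem h3) h) h3
    exact and_congr h4 h5
  have Sfaith : ∀ s ∈ S, (∀ d ∈ D, s * d = d * s) → s = 1 := by
    let T : Subgroup G := S ⊓ Subgroup.centralizer (D : Set G)
    have hTK : ∀ k ∈ K, ∀ t ∈ T, k * t * k⁻¹ ∈ T := by
      intro k hk t ht
      obtain ⟨d, hd, hn⟩ := frat k hk
      have hmK : d⁻¹ * k ∈ K := K.mul_mem (K.inv_mem (DK hd)) hk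
      have h1 : (d⁻¹ * k) * t * (d⁻¹ * k)⁻¹ ∈ S := (Subgroup.mem_normalizer_iff.1 hn t).1 ht.1
      have h2 : ∀ e ∈ D, e * ((d⁻¹ * k) * t * (d⁻¹ * k)⁻¹) = ((d⁻¹ * k) * t * (d⁻¹ * k)⁻¹) * e := by
        intro e he
        have h3 : (d⁻¹ * k)⁻¹ * e * (d⁻¹ * k) ∈ D := by
          have := Dn _ (K.inv_mem hmK) e he
          rwa [inv_inv] at this
        have h4 := Subgroup.mem_centralizer_iff.1 ht.2 _ h3
        generalize d⁻¹ * k = m at h3 h4
        calc e * (m * t * m⁻¹) = m * ((m⁻¹ * e * m) * t) * m⁻¹ := by group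
          _ = m * (t * (m⁻¹ * e * m)) * m⁻¹ := by rw [h4]
          _ = m * t * m⁻¹ * e := by group
      have h5 : k * t * k⁻¹ = (d⁻¹ * k) * t * (d⁻¹ * k)⁻¹ := by
        have h6 := h2 d hd
        calc k * t * k⁻¹ = (d * ((d⁻¹ * k) * t * (d⁻¹ * k)⁻¹)) * d⁻¹ := by group
          _ = (((d⁻¹ * k) * t * (d⁻¹ * k)⁻¹) * d) * d⁻¹ := by rw [h6]
          _ = _ := by group
      rw [h5]
      exact ⟨h1, Subgroup.mem_centralizer_iff.2 h2⟩
    have hN : (V ⊔ T).Normal := by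
      refine ⟨fun x hx g => ?_⟩
      obtain ⟨w, hw, t, ht, rfl⟩ := Subgroup.mem_sup_of_normal_left.1 hx
      obtain ⟨v, hv, k, hk, rfl⟩ := hVKdec g
      have h1 : v * k * (w * t) * (v * k)⁻¹ = v * ((k * w * k⁻¹) * (k * t * k⁻¹)) * v⁻¹ := by group
      rw [h1]
      have h2 : ∀ y ∈ V, y ∈ V ⊔ T := fun y hy => (le_sup_left : V ≤ V ⊔ T) hy
      exact Subgroup.mul_mem _ (Subgroup.mul_mem _ (h2 v hv)
        (Subgroup.mul_mem_sup (Vn.conj_mem _ hw _) (hTK k hk t ht))) (h2 _ (V.inv_mem hv))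
    have hVTP : V ⊔ T ≤ (P : Subgroup G) := sup_le hVP (inf_le_left.trans inf_le_left)
    have hVTp : IsPGroup p (V ⊔ T : Subgroup G) := P.2.to_le hVTP
    have hVTV : V ⊔ T ≤ V := by
      have h1 := c4_le_OpR hN hVTp
      rwa [← VOp] at h1
    intro s hs' hc
    refine hVK s (hVTV ?_) hs'.2
    refine (le_sup_right : T ≤ V ⊔ T) ⟨hs', Subgroup.mem_centralizer_iff.2 ?_⟩
    intro d hd
    exact (hc d hd).symm
  exact ⟨K, D, S, ⟨Vn, Vp, Vab, rfl, VOp, cent, compl, DK, Dn, Dcop, Dne, hVD, SK, ⟨P, VS⟩, Sab,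
    frat, Sfaith, hm⟩⟩

end C6

end SYL2
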