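import Pool.Agent.SYL2.Defs

set_option autoImplicit false

/-! # SYL2, row C8 (helper69): from the group configuration to the module configuration -/

namespace SYL2

theorem C8.exists_rep {A G : Type} [CommGroup A] [Group G] (p : ℕ)
    (hp : ∀ a : A, a ^ p = 1) (ψ : G →* MulAut A) :
    ∃ (W : Type) (_ : AddCommGroup W) (_ : Module (ZMod p) W)
      (ρ : Representation (ZMod p) G W) (φ : W ≃ A),
      (∀ a b, φ (a + b) = φ a * φ b) ∧ ∀ g a, φ (ρ g a) = ψ g (φ a) := by
  obtain ⟨W, iW, φ, hadd⟩ : ∃ (W : Type) (_ : AddCommGroup W) (φ : W ≃ A),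
      ∀ a b, φ (a + b) = φ a * φ b :=
    ⟨Additive A, inferInstance, Additive.toMul, fun _ _ => rfl⟩
  have hadd' : ∀ a b, φ.symm (a * b) = φ.symm a + φ.symm b := by
    intro a b
    apply φ.injective
    rw [hadd, Equiv.apply_symm_apply, Equiv.apply_symm_apply, Equiv.apply_symm_apply]
  have h00 : φ 0 = 1 := by
    have h1 := hadd 0 0
    rw [add_zero] at h1
    exact (mul_eq_left.1 h1.symm)
  have hsm : ∀ (n : ℕ) (x : W), φ (n • x) = φ x ^ n := by
    intro n x
    induction n with
    | zero => rw [zero_smul, pow_zero, h00]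
    | succ n ih => rw [succ_nsmul, pow_succ, hadd, ih]
  have hp0 : ∀ x : W, p • x = 0 := by
    intro x
    apply φ.injective
    rw [hsm, hp, h00]
  have md : Module (ZMod p) W := AddCommGroup.zmodModule hp0
  let f : G → (W →ₗ[ZMod p] W) := fun g =>
    AddMonoidHom.toZModLinearMap p (AddMonoidHom.mk' (fun x => φ.symm (ψ g (φ x)))
      (fun a b => by rw [hadd, _root_.map_mul, hadd']))
  have hf : ∀ g a, φ (f g a) = ψ g (φ a) :=
    fun g a => φ.apply_symm_apply _
  let ρ : Representation (ZMod p) G W :=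
    { toFun := f
      map_one' := by
        apply LinearMap.ext
        intro a
        apply φ.injective
        rw [hf, _root_.map_one]
        rfl
      map_mul' := by
        intro g h
        apply LinearMap.ext
        intro a
        apply φ.injective
        rw [hf, _root_.map_mul, Module.End.mul_apply, hf, hf]
        rfl }
  exact ⟨W, iW, md, ρ, φ, hadd, hf⟩

variable {p : ℕ} [Fact p.Prime] {G : Type} [Group G] [Finite G]

theorem bridge {V K D S : Subgroup G} (cfg : GCfg p V K D S)
    (hV : ∀ v ∈ V, v ^ p = 1) (hS : ∀ s ∈ S, s ^ p = 1) :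
    ∃ (W : Type) (_ : AddCommGroup W) (_ : Module (ZMod p) W) (_ : Finite W)
      (ρ : Representation (ZMod p) G W) (φ : W ≃ V),
      (∀ a b, φ (a + b) = φ a * φ b) ∧ (∀ g a, (φ (ρ g a) : G) = g * φ a * g⁻¹) ∧
      Cfg ρ K D S := by
  have hVn : V.Normal := cfg.Vn
  let cg : CommGroup V :=
    { (inferInstance : Group V) with mul_comm := fun a b => Subtype.ext (cfg.Vab a a.2 b b.2) }
  obtain ⟨W, i1, i2, ρ, φ, hadd, hρ0⟩ := C8.exists_rep (A := V) (G := G) p
    (fun a => Subtype.ext (hV a a.2)) MulAut.conjNormal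
  have hρ : ∀ g a, (φ (ρ g a) : G) = g * φ a * g⁻¹ := by
    intro g a
    rw [hρ0]
    exact MulAut.conjNormal_apply g (φ a)
  have h00 : φ 0 = 1 := by
    have h1 := hadd 0 0
    rw [add_zero] at h1
    exact (mul_eq_left.1 h1.symm)
  have hneg : ∀ a, φ (-a) = (φ a)⁻¹ := by
    intro a
    have h1 := hadd (-a) a
    rw [neg_add_cancel, h00] at h1
    exact eq_inv_of_mul_eq_one_left h1.symm
  refine ⟨W, i1, i2, Finite.of_equiv V φ.symm, ρ, φ, hadd, hρ, ?_⟩
  -- normal subgroups from invariant submodules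
  have hG : ∀ g : G, ∃ v ∈ V, ∃ k ∈ K, g = v * k := by
    intro g
    obtain ⟨x, hx⟩ := cfg.compl.2 g
    exact ⟨x.1, x.1.2, x.2, x.2.2, hx.symm⟩
  let N : Submodule (ZMod p) W → Subgroup G := fun X =>
    { carrier := {g | ∃ a ∈ X, g = (φ a : G)}
      mul_mem' := by
        rintro _ _ ⟨a, ha, rfl⟩ ⟨b, hb, rfl⟩
        refine ⟨a + b, X.add_mem ha hb, ?_⟩
        rw [hadd]
        rfl
      one_mem' := ⟨0, X.zero_mem, by rw [h00]; rfl⟩
      inv_mem' := by
        rintro _ ⟨a, ha, rfl⟩
        refine ⟨-a, X.neg_mem ha, ?_⟩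
        rw [hneg]
        rfl }
  have hN : ∀ X, Inv ρ K X → (N X).Normal := by
    intro X hX
    constructor
    rintro _ ⟨a, ha, rfl⟩ g
    obtain ⟨v, hv, k, hk, rfl⟩ := hG g
    refine ⟨ρ k a, hX k hk a ha, ?_⟩
    have h1 := hρ k a
    have h3 := cfg.Vab v hv _ (φ (ρ k a)).2
    have h4 : v * k * (φ a : G) * (v * k)⁻¹ = v * (φ (ρ k a) : G) * v⁻¹ := by
      rw [h1]; group
    rw [h4, h3]
    group
  exact
    { DK := cfg.DK
      Dn := cfg.Dn
      Dcop := cfg.Dcop
      SK := cfg.SK
      Sab := cfg.Sab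
      Sexp := hS
      frat := cfg.frat
      Sfaith := cfg.Sfaith
      inj := by
        intro k hk h
        have h1 : k ∈ V := by
          apply cfg.cent
          intro v hv
          obtain ⟨a, ha⟩ := φ.surjective ⟨v, hv⟩
          have h2 := hρ k a
          rw [h, ha] at h2
          have h3 : v = k * v * k⁻¹ := h2
          calc k * v = (k * v * k⁻¹) * k := by group
            _ = v * k := by rw [← h3]
        have h4 := cfg.compl.disjoint
        rw [Subgroup.disjoint_def] at h4
        exact h4 h1 hk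
      mono := by
        intro X Y hX hY hXY
        have h1 : N X ⊓ N Y = ⊥ := by
          rw [eq_bot_iff]
          rintro _ ⟨⟨a, ha, rfl⟩, ⟨b, hb, hab⟩⟩
          have h2 : a = b := φ.injective (Subtype.ext hab)
          have h3 : a ∈ X ⊓ Y := ⟨ha, h2 ▸ hb⟩
          rw [hXY, Submodule.mem_bot] at h3
          rw [h3, h00]
          exact Subgroup.one_mem _
        have h0 : ∀ Z, N Z = ⊥ → Z = ⊥ := by
          intro Z hZ
          rw [eq_bot_iff]
          intro a ha
          have h2 : (φ a : G) ∈ N Z := ⟨a, ha, rfl⟩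
          rw [hZ, Subgroup.mem_bot] at h2
          rw [Submodule.mem_bot]
          apply φ.injective
          rw [h00]
          exact Subtype.ext h2
        rcases cfg.mono (N X) (N Y) (hN X hX) (hN Y hY) h1 with h | h
        · exact Or.inl (h0 X h)
        · exact Or.inr (h0 Y h) }

end SYL2
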