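import Pool.Agent.SYL2.Quot

set_option autoImplicit false

/-! # SYL2 (MP_83394c): character tables and Sylow subgroups of class two.
Definitions shared by all rows. -/

namespace SYL2

section Groups

variable {G H : Type} [Group G] [Group H]

/-- number of pairs `(x, y)` with `x` in the class `a`, `y` in the class `b` and `x * y` in
the class `c`. -/
noncomputable def cnt (a b c : ConjClasses G) : ℕ :=
  Nat.card {q : G × G // ConjClasses.mk q.1 = a ∧ ConjClasses.mk q.2 = b ∧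
    ConjClasses.mk (q.1 * q.2) = c}

/-- size of the conjugacy class of `x`. -/
noncomputable def csz (x : G) : ℕ := Nat.card (ConjClasses.mk x).carrier

/-- A bijection of the conjugacy classes of `G` and `H` along which the character tables agree
(`SameTable` is the hypothesis of the frozen statement). -/
structure CAI (G H : Type) [Group G] [Group H] where
  e : ConjClasses G ≃ ConjClasses H
  tab : SameTable e

/-- `x` and `y` lie in corresponding classes. -/
def CAI.Rel (c : CAI G H) (x : G) (y : H) : Prop :=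
  c.e (ConjClasses.mk x) = ConjClasses.mk y

/-- The image of a normal subgroup under the bijection of classes. -/
def CAI.im (c : CAI G H) (N : Subgroup G) : Subgroup H :=
  Subgroup.closure {y | ∃ x ∈ N, c.Rel x y}

/-- `p`-solvable: there is a finite series of normal subgroups from `1` to `G` whose factors
are `p`-groups or `p'`-groups. -/
def PSolvable (p : ℕ) (G : Type) [Group G] : Prop :=
  ∃ (n : ℕ) (f : ℕ → Subgroup G), f 0 = ⊥ ∧ f n = ⊤ ∧ (∀ i, (f i).Normal) ∧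
    (∀ i, f i ≤ f (i + 1)) ∧
    ∀ i, (∃ k, (f i).relIndex (f (i + 1)) = p ^ k) ∨ ((f i).relIndex (f (i + 1))).Coprime p

/-- `p`-solvable, strong form: between two normal subgroups `N < M` there is a normal `L` with
`L / N` a nontrivial `p`-group or a nontrivial `p'`-group. -/
def PS (p : ℕ) (G : Type) [Group G] : Prop :=
  ∀ N M : Subgroup G, N.Normal → M.Normal → N < M →
    ∃ L : Subgroup G, L.Normal ∧ N < L ∧ L ≤ M ∧
      ((∃ k, N.relIndex L = p ^ k) ∨ (N.relIndex L).Coprime p)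

/-- Sylow `p`-subgroups are abelian. -/
def AbSyl (p : ℕ) (G : Type) [Group G] : Prop :=
  ∀ P : Sylow p G, ∀ x ∈ P, ∀ y ∈ P, x * y = y * x

/-- Sylow `p`-subgroups have class at most two. -/
def Cl2 (p : ℕ) (G : Type) [Group G] : Prop :=
  ∀ P : Sylow p G, ∀ x ∈ P, ∀ y ∈ P, ∀ z ∈ P,
    (x * y * x⁻¹ * y⁻¹) * z = z * (x * y * x⁻¹ * y⁻¹)

/-- largest normal `N ≥ A` with `N / A` a `p`-group. -/
def OpR (p : ℕ) (A : Subgroup G) : Subgroup G :=
  sSup {N | N.Normal ∧ A ≤ N ∧ ∃ k, A.relIndex N = p ^ k}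

/-- largest normal `N ≥ A` with `N / A` a `p'`-group. -/
def OqR (p : ℕ) (A : Subgroup G) : Subgroup G :=
  sSup {N | N.Normal ∧ A ≤ N ∧ (A.relIndex N).Coprime p}

/-- the subgroup generated by the elements of `O_p(G)` with class size prime to `p`. -/
def Ac (p : ℕ) (G : Type) [Group G] : Subgroup G :=
  Subgroup.closure {x | x ∈ OpR p (⊥ : Subgroup G) ∧ ¬ p ∣ csz x}

/-- any two nontrivial normal subgroups meet nontrivially. -/
def Mono (G : Type) [Group G] : Prop :=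
  ∀ N M : Subgroup G, N.Normal → M.Normal → N ⊓ M = ⊥ → N = ⊥ ∨ M = ⊥

/-- number of elements of `X` commuting with `s`. -/
noncomputable def cc (X : Subgroup G) (s : G) : ℕ := Nat.card {x : X // s * x = x * s}

/-- elements of `S` and `S'` which correspond modulo `V`. -/
def RelV (c : CAI G H) (V : Subgroup G) (V' : Subgroup H) (s : G) (s' : H) : Prop :=
  ∃ v ∈ V, ∃ v' ∈ V', c.Rel (s * v) (s' * v')

/-- The configuration `G = V ⋊ K`, `D = O_{p'}(K)`, `V S` Sylow. -/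
structure GCfg (p : ℕ) (V K D S : Subgroup G) : Prop where
  Vn : V.Normal
  Vp : IsPGroup p V
  Vab : ∀ x ∈ V, ∀ y ∈ V, x * y = y * x
  VA : V = Ac p G
  VOp : V = OpR p (⊥ : Subgroup G)
  cent : ∀ x, (∀ v ∈ V, x * v = v * x) → x ∈ V
  compl : Subgroup.IsComplement' V K
  DK : D ≤ K
  Dn : ∀ k ∈ K, ∀ d ∈ D, k * d * k⁻¹ ∈ D
  Dcop : (Nat.card D).Coprime p
  Dne : D ≠ ⊥
  VD : V ⊔ D = OqR p V
  SK : S ≤ K
  VS : ∃ P : Sylow p G, (P : Subgroup G) = V ⊔ S
  Sab : ∀ x ∈ S, ∀ y ∈ S, x * y = y * x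
  frat : ∀ k ∈ K, ∃ d ∈ D, d⁻¹ * k ∈ Subgroup.normalizer (S : Set G)
  Sfaith : ∀ s ∈ S, (∀ d ∈ D, s * d = d * s) → s = 1
  mono : Mono G

end Groups

section Modules

variable {p : ℕ} {Γ W : Type} [Group Γ] [AddCommGroup W] [Module (ZMod p) W]

/-- the fixed space of the subgroup `N`. -/
def Fx (ρ : Representation (ZMod p) Γ W) (N : Subgroup Γ) : Submodule (ZMod p) W where
  carrier := {v | ∀ n ∈ N, ρ n v = v}
  add_mem' := by
    intro a b ha hb n hn
    rw [map_add, ha n hn, hb n hn]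
  zero_mem' := by
    intro n _
    exact map_zero _
  smul_mem' := by
    intro c a ha n hn
    rw [map_smul, ha n hn]

/-- `U` is invariant under the subgroup `N`. -/
def Inv (ρ : Representation (ZMod p) Γ W) (N : Subgroup Γ) (U : Submodule (ZMod p) W) : Prop :=
  ∀ n ∈ N, ∀ u ∈ U, ρ n u ∈ U

/-- `N` is a subgroup of `X` normalised by `X`. -/
def NIn (N X : Subgroup Γ) : Prop := N ≤ X ∧ ∀ x ∈ X, ∀ n ∈ N, x * n * x⁻¹ ∈ N

/-- every normal subgroup of `X` acts on `U` trivially or without nonzero fixed points. -/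
def EF (ρ : Representation (ZMod p) Γ W) (X : Subgroup Γ) (U : Submodule (ZMod p) W) : Prop :=
  ∀ N : Subgroup Γ, NIn N X → U ⊓ Fx ρ N = ⊥ ∨ U ≤ Fx ρ N

/-- minimal nonzero fixed spaces in `U` of normal subgroups of `X`. -/
def MF (ρ : Representation (ZMod p) Γ W) (X : Subgroup Γ) (U A : Submodule (ZMod p) W) : Prop :=
  A ≠ ⊥ ∧ (∃ N, NIn N X ∧ A = U ⊓ Fx ρ N) ∧ EF ρ X A

/-- dimension of `[U, e]`. -/
noncomputable def rk (ρ : Representation (ZMod p) Γ W) (e : Γ) (U : Submodule (ZMod p) W) : ℕ :=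
  Module.finrank (ZMod p) (U.map (ρ e - 1))

/-- quadratic action of `S`. -/
def Quad (ρ : Representation (ZMod p) Γ W) (S : Subgroup Γ) (U : Submodule (ZMod p) W) : Prop :=
  ∀ s ∈ S, ∀ t ∈ S, ∀ u ∈ U, (ρ t - 1) ((ρ s - 1) u) = 0

/-- condition (*): every element of `[U, s]` is fixed by a `D`-conjugate of `S`. -/
def Star (ρ : Representation (ZMod p) Γ W) (D S : Subgroup Γ) (U : Submodule (ZMod p) W) : Prop :=
  ∀ s ∈ S, ∀ u ∈ U, ∃ d ∈ D, ∀ t ∈ S, ρ (d⁻¹ * t * d) (ρ s u - u) = ρ s u - u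

/-- the subgroup generated by the commutators of `D` and `S`. -/
def DS (D S : Subgroup Γ) : Subgroup Γ :=
  Subgroup.closure {x | ∃ d ∈ D, ∃ s ∈ S, x = d * s * d⁻¹ * s⁻¹}

/-- The module configuration. -/
structure Cfg (ρ : Representation (ZMod p) Γ W) (K D S : Subgroup Γ) : Prop where
  DK : D ≤ K
  Dn : ∀ k ∈ K, ∀ d ∈ D, k * d * k⁻¹ ∈ D
  Dcop : (Nat.card D).Coprime p
  SK : S ≤ K
  Sab : ∀ s ∈ S, ∀ t ∈ S, s * t = t * s
  Sexp : ∀ s ∈ S, s ^ p = 1
  frat : ∀ k ∈ K, ∃ d ∈ D, d⁻¹ * k ∈ Subgroup.normalizer (S : Set Γ)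
  Sfaith : ∀ s ∈ S, (∀ d ∈ D, s * d = d * s) → s = 1
  inj : ∀ k ∈ K, (∀ w, ρ k w = w) → k = 1
  mono : ∀ X Y : Submodule (ZMod p) W, Inv ρ K X → Inv ρ K Y → X ⊓ Y = ⊥ → X = ⊥ ∨ Y = ⊥

end Modules

section Two

variable {Γ W : Type} [Group Γ] [AddCommGroup W] [Module (ZMod 2) W]
  (ρ : Representation (ZMod 2) Γ W)

/-- The situation of the three lemmas: `E` of exponent two normalises `D` of odd order, both
act on `U`, `EF(D, U)`, `D` soluble. -/
structure Sit (D E : Subgroup Γ) (U : Submodule (ZMod 2) W) : Prop where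
  odd : (Nat.card D).Coprime 2
  solv : Group.IsSolvable D
  exp : ∀ e ∈ E, e * e = 1
  nrm : ∀ e ∈ E, ∀ d ∈ D, e * d * e⁻¹ ∈ D
  invD : Inv ρ D U
  invE : Inv ρ E U
  ef : EF ρ D U
  ne : U ≠ ⊥

/-- `e` acts nontrivially on the image of `D` in `GL(U)`. -/
def Act (D : Subgroup Γ) (U : Submodule (ZMod 2) W) (e : Γ) : Prop :=
  ∃ d ∈ D, ∃ u ∈ U, ρ (d⁻¹ * e * d * e) u ≠ u

end Two

end SYL2
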