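import Pool.Agent.SYL2.Z

set_option autoImplicit false

/-! # SYL2 (helper47): the final theorem in the form of the frozen statement -/

namespace SYL2

theorem ucs_one_iff (P : Type) [Group P] :
    Subgroup.upperCentralSeries P 1 = ⊤ ↔ ∀ x y : P, x * y = y * x := by
  rw [Subgroup.upperCentralSeries_one, Subgroup.eq_top_iff']
  simp only [Subgroup.mem_center_iff]
  exact ⟨fun h x y => h y x, fun h x y => h y x⟩

theorem ucs_two_iff (P : Type) [Group P] :
    Subgroup.upperCentralSeries P 2 = ⊤ ↔ ∀ x y z : P,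
      (x * y * x⁻¹ * y⁻¹) * z = z * (x * y * x⁻¹ * y⁻¹) := by
  rw [Subgroup.eq_top_iff']
  have h1 : ∀ x : P, x ∈ Subgroup.upperCentralSeries P 2 ↔
      ∀ y : P, x * y * x⁻¹ * y⁻¹ ∈ Subgroup.center P := by
    intro x
    rw [← Subgroup.upperCentralSeries_one]
    exact Subgroup.mem_upperCentralSeries_succ_iff
  constructor
  · intro h x y z
    exact (Subgroup.mem_center_iff.1 ((h1 x).1 (h x) y) z).symm
  · intro h x
    exact (h1 x).2 fun y => Subgroup.mem_center_iff.2 fun z => (h x y z).symm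

theorem cl2_iff_ucs {p : ℕ} [Fact p.Prime] {G : Type} [Group G] [Finite G] (P : Sylow p G) :
    Cl2 p G ↔ Subgroup.upperCentralSeries (↥(P : Subgroup G)) 2 = ⊤ := by
  rw [ucs_two_iff]
  constructor
  · intro h x y z
    exact Subtype.ext (h P x x.2 y y.2 z z.2)
  · intro h
    refine cl2_of_one P fun x hx y hy z hz => ?_
    exact congrArg Subtype.val (h ⟨x, hx⟩ ⟨y, hy⟩ ⟨z, hz⟩)

theorem absyl_iff_ucs {p : ℕ} [Fact p.Prime] {G : Type} [Group G] [Finite G] (P : Sylow p G) :
    AbSyl p G ↔ Subgroup.upperCentralSeries (↥(P : Subgroup G)) 1 = ⊤ := by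
  rw [ucs_one_iff]
  constructor
  · intro h x y
    exact Subtype.ext (h P x x.2 y y.2)
  · intro h Q x hx y hy
    obtain ⟨g, hg⟩ := MulAction.exists_smul_eq G Q P
    have key : ∀ a ∈ Q, g * a * g⁻¹ ∈ P := by
      intro a ha
      rw [← hg]
      have : g * a * g⁻¹ ∈ ((g • Q : Sylow p G) : Subgroup G) := by
        rw [Sylow.coe_subgroup_smul]
        exact Subgroup.smul_mem_pointwise_smul a (MulAut.conj g) (Q : Subgroup G) ha
      exact this
    have h3 := congrArg Subtype.val (h ⟨_, key x hx⟩ ⟨_, key y hy⟩)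
    have h4 : g * x * g⁻¹ * (g * y * g⁻¹) = g * y * g⁻¹ * (g * x * g⁻¹) := h3
    have e1 : g * x * g⁻¹ * (g * y * g⁻¹) = g * (x * y) * g⁻¹ := by group
    have e2 : g * y * g⁻¹ * (g * x * g⁻¹) = g * (y * x) * g⁻¹ := by group
    rw [e1, e2] at h4
    exact mul_left_cancel (mul_right_cancel h4)

/-- The theorem in the form of the frozen statement. -/
theorem final : ∀ (G H : Type) [Group G] [Group H] [Finite G] [Finite H],
      (∃ e : ConjClasses G ≃ ConjClasses H,
        (∀ V : FDRep ℂ G, CategoryTheory.Simple V →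
          ∃ W : FDRep ℂ H, CategoryTheory.Simple W ∧
            ∀ (g : G) (h : H), e (ConjClasses.mk g) = ConjClasses.mk h →
              V.character g = W.character h) ∧
        (∀ W : FDRep ℂ H, CategoryTheory.Simple W →
          ∃ V : FDRep ℂ G, CategoryTheory.Simple V ∧
            ∀ (g : G) (h : H), e (ConjClasses.mk g) = ConjClasses.mk h →
              V.character g = W.character h)) →
      ∀ p : ℕ, p.Prime → (Group.IsSolvable G ∨ (p ≠ 2 ∧ PSolvable p G)) →
        ∀ (P : Sylow p G) (Q : Sylow p H),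
        ((Subgroup.upperCentralSeries (↥(P : Subgroup G)) 2 = ⊤ ∧
            Subgroup.upperCentralSeries (↥(P : Subgroup G)) 1 ≠ ⊤) ↔
          (Subgroup.upperCentralSeries (↥(Q : Subgroup H)) 2 = ⊤ ∧
            Subgroup.upperCentralSeries (↥(Q : Subgroup H)) 1 ≠ ⊤)) := by
  rintro G H _ _ _ _ ⟨e, he⟩ p hp hG P Q
  have : Fact p.Prime := ⟨hp⟩
  let c : CAI G H := ⟨e, he⟩
  obtain ⟨c', -⟩ := c.exists_symm
  have hs : PS p G := by
    rcases hG with h | h
    · exact ps_of_solvable h
    · exact ps_of_psolvable h.2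
  have h2 : p = 2 → Group.IsSolvable G := by
    intro h3
    rcases hG with h | h
    · exact h
    · exact absurd h3 h.1
  have hs' : PS p H := c.ps hs
  have h2' : p = 2 → Group.IsSolvable H := fun h3 => c.solvable (h2 h3)
  rw [← cl2_iff_ucs P, ← cl2_iff_ucs Q, Ne, Ne, ← absyl_iff_ucs P, ← absyl_iff_ucs Q]
  constructor
  · rintro ⟨h3, h4⟩
    exact ⟨main c hs h2 h3, fun h5 => h4 (absyl_vis c' hs' h5)⟩
  · rintro ⟨h3, h4⟩
    exact ⟨main c' hs' h2' h3, fun h5 => h4 (absyl_vis c hs h5)⟩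

end SYL2
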