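import Mathlib

set_option autoImplicit false

/-! # SYL2 row H3a: no imprimitivity (2-groups in characteristic three). -/

namespace SYL2

namespace H3a

variable {W : Type} [AddCommGroup W] [Module (ZMod 3) W]

/-- image of a subspace. -/
def mp (g : W ≃ₗ[ZMod 3] W) (A : Submodule (ZMod 3) W) : Submodule (ZMod 3) W :=
  A.map (g : W →ₗ[ZMod 3] W)

theorem mem_mp {g : W ≃ₗ[ZMod 3] W} {A : Submodule (ZMod 3) W} {v : W} (h : v ∈ A) :
    g v ∈ mp g A := Submodule.mem_map_of_mem (f := (g : W →ₗ[ZMod 3] W)) h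

theorem mp_mul (g h : W ≃ₗ[ZMod 3] W) (A : Submodule (ZMod 3) W) :
    mp (g * h) A = mp g (mp h A) := by
  ext x
  constructor
  · rintro ⟨a, ha, rfl⟩
    exact ⟨h a, ⟨a, ha, rfl⟩, rfl⟩
  · rintro ⟨b, ⟨a, ha, rfl⟩, rfl⟩
    exact ⟨a, ha, rfl⟩

theorem mp_one (A : Submodule (ZMod 3) W) : mp (1 : W ≃ₗ[ZMod 3] W) A = A := by
  ext x
  constructor
  · rintro ⟨a, ha, rfl⟩
    exact ha
  · intro h
    exact ⟨x, h, rfl⟩

/-- the action on subspaces. -/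
def actI : MulAction (W ≃ₗ[ZMod 3] W) (Submodule (ZMod 3) W) where
  smul := mp
  one_smul := mp_one
  mul_smul := mp_mul

theorem mp_inj {g : W ≃ₗ[ZMod 3] W} {A B : Submodule (ZMod 3) W} (h : mp g A = mp g B) :
    A = B := by
  have h1 : mp (g⁻¹ * g) A = mp (g⁻¹ * g) B := by rw [mp_mul, mp_mul, h]
  simpa [mp_one] using h1

theorem key {𝒲 : Set (Submodule (ZMod 3) W)} (hind : sSupIndep 𝒲)
    {A B C D : Submodule (ZMod 3) W} (hA : A ∈ 𝒲) (hB : B ∈ 𝒲) (hC : C ∈ 𝒲) (hD : D ∈ 𝒲)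
    {v b c d : W} (hv : v ∈ A) (hv0 : v ≠ 0) (hb : b ∈ B) (hc : c ∈ C) (hd : d ∈ D)
    (h : v = b + c + d) : A = B ∨ A = C ∨ A = D := by
  by_contra hcon
  push Not at hcon
  obtain ⟨h1, h2, h3⟩ := hcon
  have hle : ∀ X ∈ 𝒲, A ≠ X → X ≤ sSup (𝒲 \ {A}) := by
    intro X hX hne
    exact le_sSup ⟨hX, fun h => hne (Set.mem_singleton_iff.1 h).symm⟩
  have hm : v ∈ sSup (𝒲 \ {A}) := by
    rw [h]
    exact add_mem (add_mem (hle B hB h1 hb) (hle C hC h2 hc)) (hle D hD h3 hd)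
  have := (Submodule.disjoint_def.1 (hind hA)) v hv hm
  exact hv0 this

/-- Step 1: the orbit of `A` under `R` is invariant under `s`. -/
theorem orbit_inv (R : Subgroup (W ≃ₗ[ZMod 3] W))
    (s : W ≃ₗ[ZMod 3] W) (hs : s ^ 3 = 1) (hn : ∀ r ∈ R, s * r * s⁻¹ ∈ R)
    (hstar : ∀ w : W, ∃ r ∈ R, (r⁻¹ * s * r) (s w - w) = s w - w)
    (𝒲 : Set (Submodule (ZMod 3) W)) (hind : sSupIndep 𝒲) (hne : ∀ A ∈ 𝒲, A ≠ ⊥)
    (hRW : ∀ A ∈ 𝒲, ∀ r ∈ R, mp r A ∈ 𝒲)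
    (hsW : ∀ A ∈ 𝒲, mp s A ∈ 𝒲) {A : Submodule (ZMod 3) W} (hA : A ∈ 𝒲) :
    ∃ r ∈ R, mp s A = mp r A := by
  by_contra hcon
  push Not at hcon
  obtain ⟨v, hv, hv0⟩ := (Submodule.ne_bot_iff A).1 (hne A hA)
  obtain ⟨r, hr, hg⟩ := hstar v
  have hr' : s * r * s⁻¹ ∈ R := hn r hr
  have e1 : mp (r⁻¹ * s * r) A ∈ 𝒲 := by
    rw [mp_mul, mp_mul]
    exact hRW _ (hsW _ (hRW _ hA r hr)) _ (R.inv_mem hr)
  have e2 : mp (r⁻¹ * s * r) (mp s A) ∈ 𝒲 := by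
    rw [mp_mul, mp_mul]
    exact hRW _ (hsW _ (hRW _ (hsW _ hA) r hr)) _ (R.inv_mem hr)
  have hdec : v = s v + (-((r⁻¹ * s * r) (s v))) + (r⁻¹ * s * r) v := by
    have := hg
    rw [map_sub] at this
    have h2 : (r⁻¹ * s * r) (s v) - (r⁻¹ * s * r) v = s v - v := this
    have h3 : v = s v - ((r⁻¹ * s * r) (s v) - (r⁻¹ * s * r) v) := by rw [h2]; abel
    calc v = s v - ((r⁻¹ * s * r) (s v) - (r⁻¹ * s * r) v) := h3
      _ = _ := by abel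
  rcases key hind hA (hsW A hA) e2 e1 hv hv0 (mem_mp hv) (neg_mem (mem_mp (mem_mp hv)))
    (mem_mp hv) hdec with h | h | h
  · exact hcon 1 R.one_mem (by rw [mp_one]; exact h.symm)
  · -- `A = mp (r⁻¹ s r s) A`
    have h1 : mp r A = mp (s * r * s) A := by
      have : mp r A = mp r (mp (r⁻¹ * s * r) (mp s A)) := congrArg (mp r) h
      rw [this, ← mp_mul, ← mp_mul]
      congr 1
      group
    -- `s * r * s = (s r s⁻¹) * s * s`
    have h2 : mp ((s * r * s⁻¹)⁻¹ * r) A = mp (s * s) A := by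
      rw [mp_mul, h1, ← mp_mul]
      congr 1
      group
    have hss : s * s = s⁻¹ := by
      rw [eq_inv_iff_mul_eq_one]
      simpa [pow_succ] using hs
    rw [hss] at h2
    have h3 : mp s A = mp (s * ((s * r * s⁻¹)⁻¹ * r)⁻¹ * s⁻¹) A := by
      have h4 : mp (s * ((s * r * s⁻¹)⁻¹ * r)⁻¹) (mp ((s * r * s⁻¹)⁻¹ * r) A)
        = mp (s * ((s * r * s⁻¹)⁻¹ * r)⁻¹) (mp s⁻¹ A) := by rw [h2]
      rw [← mp_mul, ← mp_mul] at h4
      rw [← h4]
      congr 1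
      group
    exact hcon _ (hn _ (R.inv_mem (R.mul_mem (R.inv_mem hr') hr))) h3
  · -- `A = mp (r⁻¹ s r) A`
    have h1 : mp r A = mp (s * r) A := by
      have : mp r A = mp r (mp (r⁻¹ * s * r) A) := congrArg (mp r) h
      rw [this, ← mp_mul]
      congr 1
      group
    have h2 : mp s A = mp ((s * r * s⁻¹)⁻¹ * r) A := by
      rw [mp_mul _ r, h1, ← mp_mul]
      congr 1
      group
    exact hcon _ (R.mul_mem (R.inv_mem hr') hr) h2

/-- Step 2: some member of the orbit is fixed by `s`. -/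
theorem exists_fixed [Finite W] (R : Subgroup (W ≃ₗ[ZMod 3] W)) (hR : IsPGroup 2 R)
    (s : W ≃ₗ[ZMod 3] W) (hs : s ^ 3 = 1) (hn : ∀ r ∈ R, s * r * s⁻¹ ∈ R)
    (hstar : ∀ w : W, ∃ r ∈ R, (r⁻¹ * s * r) (s w - w) = s w - w)
    (𝒲 : Set (Submodule (ZMod 3) W)) (hind : sSupIndep 𝒲) (hne : ∀ A ∈ 𝒲, A ≠ ⊥)
    (hRW : ∀ A ∈ 𝒲, ∀ r ∈ R, mp r A ∈ 𝒲)
    (hsW : ∀ A ∈ 𝒲, mp s A ∈ 𝒲) {A : Submodule (ZMod 3) W} (hA : A ∈ 𝒲) :
    ∃ r ∈ R, mp s (mp r A) = mp r A := by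
  classical
  letI := actI (W := W)
  obtain ⟨r₁, hr₁, h₁⟩ := orbit_inv R s hs hn hstar 𝒲 hind hne hRW hsW hA
  let O : Set (Submodule (ZMod 3) W) := MulAction.orbit R A
  haveI : Finite (Submodule (ZMod 3) W) := inferInstance
  haveI : Finite O := inferInstance
  haveI : Fintype O := Fintype.ofFinite O
  have hmemO : ∀ B, B ∈ O ↔ ∃ r ∈ R, mp r A = B := by
    intro B
    constructor
    · rintro ⟨⟨r, hr⟩, h⟩
      exact ⟨r, hr, h⟩
    · rintro ⟨r, hr, h⟩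
      exact ⟨⟨r, hr⟩, h⟩
  have hsO : ∀ B ∈ O, mp s B ∈ O := by
    intro B hB
    obtain ⟨r, hr, rfl⟩ := (hmemO B).1 hB
    refine (hmemO _).2 ⟨(s * r * s⁻¹) * r₁, R.mul_mem (hn r hr) hr₁, ?_⟩
    rw [mp_mul, ← h₁, ← mp_mul, ← mp_mul]
    congr 1
    group
  let f : Function.End O := fun B => ⟨mp s B.1, hsO B.1 B.2⟩
  have hf : f ^ 3 ^ 1 = 1 := by
    have e : ∀ B : O, f (f (f B)) = B := by
      intro B
      apply Subtype.ext
      change mp s (mp s (mp s B.1)) = B.1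
      rw [← mp_mul, ← mp_mul]
      have : s * (s * s) = 1 := by
        have := hs
        rw [pow_succ, pow_succ, pow_one] at this
        rw [← mul_assoc]; exact this
      rw [← mul_assoc] at this
      rw [this, mp_one]
    funext B
    change (f ^ 3) B = B
    rw [pow_succ, pow_succ, pow_one]
    exact e B
  haveI : Fact (Nat.Prime 3) := ⟨by norm_num⟩
  haveI : Fact (Nat.Prime 2) := ⟨by norm_num⟩
  have hcard := Equiv.Perm.card_fixedPoints_modEq (f := f) hf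
  obtain ⟨n, hn2⟩ := hR.card_orbit A
  have hcO : Fintype.card O = 2 ^ n := by
    rw [← Nat.card_eq_fintype_card]; exact hn2
  rw [hcO] at hcard
  have hpos : 0 < Fintype.card (Function.fixedPoints f) := by
    rcases Nat.eq_zero_or_pos (Fintype.card (Function.fixedPoints f)) with h0 | h0
    · rw [h0] at hcard
      have : 3 ∣ 2 ^ n := (Nat.modEq_zero_iff_dvd).1 hcard
      have := (Nat.Prime.dvd_of_dvd_pow (by norm_num) this)
      omega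
    · exact h0
  obtain ⟨⟨B, hB⟩⟩ := Fintype.card_pos_iff.1 hpos
  obtain ⟨r, hr, h⟩ := (hmemO B.1).1 B.2
  refine ⟨r, hr, ?_⟩
  rw [h]
  exact congrArg Subtype.val hB

/-- Step 3: a member fixed by `s` is fixed by `R`. -/
theorem fixed_by [Finite W] (R : Subgroup (W ≃ₗ[ZMod 3] W)) (hR : IsPGroup 2 R)
    (s : W ≃ₗ[ZMod 3] W) (hs : s ^ 3 = 1) (hn : ∀ r ∈ R, s * r * s⁻¹ ∈ R)
    (hgen : ∀ M : Subgroup (W ≃ₗ[ZMod 3] W), M ≤ R →
      (∀ r ∈ R, r⁻¹ * (s * r * s⁻¹) ∈ M) → R ≤ M)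
    (hstar : ∀ w : W, ∃ r ∈ R, (r⁻¹ * s * r) (s w - w) = s w - w)
    (𝒲 : Set (Submodule (ZMod 3) W)) (hind : sSupIndep 𝒲) (hne : ∀ A ∈ 𝒲, A ≠ ⊥)
    (hRW : ∀ A ∈ 𝒲, ∀ r ∈ R, mp r A ∈ 𝒲)
    (hsW : ∀ A ∈ 𝒲, mp s A ∈ 𝒲) {A : Submodule (ZMod 3) W} (hA : A ∈ 𝒲)
    (hsA : mp s A = A) : ∀ r ∈ R, mp r A = A := by
  classical
  haveI : Finite (W ≃ₗ[ZMod 3] W) :=
    Finite.of_injective (fun e : W ≃ₗ[ZMod 3] W => (e : W → W)) DFunLike.coe_injective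
  haveI : Finite (Subgroup (W ≃ₗ[ZMod 3] W)) := inferInstance
  have hs3 : s * s * s = 1 := by
    have := hs
    rw [pow_succ, pow_succ, pow_one] at this
    exact this
  have hsi : s⁻¹ = s * s := by
    rw [inv_eq_iff_mul_eq_one, ← mul_assoc]; exact hs3
  -- the stabiliser
  let R0 : Subgroup (W ≃ₗ[ZMod 3] W) :=
    { carrier := {r | r ∈ R ∧ mp r A = A}
      mul_mem' := by
        rintro a b ⟨ha, ha'⟩ ⟨hb, hb'⟩
        exact ⟨R.mul_mem ha hb, by rw [mp_mul, hb', ha']⟩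
      one_mem' := ⟨R.one_mem, mp_one A⟩
      inv_mem' := by
        rintro a ⟨ha, ha'⟩
        refine ⟨R.inv_mem ha, ?_⟩
        have : mp a⁻¹ (mp a A) = mp a⁻¹ A := by rw [ha']
        rw [← mp_mul, inv_mul_cancel, mp_one] at this
        exact this.symm }
  have hR0 : ∀ r, r ∈ R0 ↔ r ∈ R ∧ mp r A = A := fun r => Iff.rfl
  -- conjugates of subspaces
  have hsx : ∀ x, mp s (mp x A) = mp (s * x * s⁻¹) A := by
    intro x
    have : mp (s * x * s⁻¹) A = mp (s * x * s⁻¹) (mp s A) := by rw [hsA]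
    rw [this, ← mp_mul, ← mp_mul]
    congr 1
    group
  by_contra hcon
  have hP : ∃ M : Subgroup (W ≃ₗ[ZMod 3] W), M ≤ R ∧ (∀ m ∈ M, s * m * s⁻¹ ∈ M) ∧
      (∀ r ∈ R, mp r A = A → r ∈ M) ∧ M ≠ R := by
    refine ⟨R0, fun r hr => hr.1, ?_, fun r hr h => ⟨hr, h⟩, ?_⟩
    · rintro m ⟨hm, hm'⟩
      refine ⟨hn m hm, ?_⟩
      rw [← hsx, hm', hsA]
    · intro h
      apply hcon
      intro r hr
      rw [← h] at hr
      exact hr.2
  obtain ⟨M, ⟨hMR, hMs, hM0, hMne⟩, hmax⟩ :=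
    (Set.toFinite {M : Subgroup (W ≃ₗ[ZMod 3] W) | M ≤ R ∧ (∀ m ∈ M, s * m * s⁻¹ ∈ M) ∧
      (∀ r ∈ R, mp r A = A → r ∈ M) ∧ M ≠ R}).exists_maximal hP
  have hmax' : ∀ N : Subgroup (W ≃ₗ[ZMod 3] W), N ≤ R → (∀ m ∈ N, s * m * s⁻¹ ∈ N) →
      M ≤ N → N ≠ R → N ≤ M := by
    intro N h1 h2 h3 h4
    exact hmax ⟨h1, h2, fun r hr h => h3 (hM0 r hr h), h4⟩ h3
  have hMsi : ∀ m ∈ M, s⁻¹ * m * s ∈ M := by
    intro m hm
    have h1 : s⁻¹ * m * s = s * (s * m * s⁻¹) * s⁻¹ := by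
      have : s * (s * m * s⁻¹) * s⁻¹ = (s * s) * m * (s * s)⁻¹ := by group
      rw [this, ← hsi]
      simp
    rw [h1]
    exact hMs _ (hMs _ hm)
  -- the normaliser of `M` in `R`
  let N : Subgroup (W ≃ₗ[ZMod 3] W) := R ⊓ Subgroup.normalizer (M : Set (W ≃ₗ[ZMod 3] W))
  have hN : ∀ n, n ∈ N ↔ n ∈ R ∧ ∀ h, h ∈ M ↔ n * h * n⁻¹ ∈ M := by
    intro n
    rw [Subgroup.mem_inf, Subgroup.mem_normalizer_iff]
  have hMN : M ≤ N := by
    intro m hm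
    refine (hN m).2 ⟨hMR hm, fun h => ⟨fun hh => M.mul_mem (M.mul_mem hm hh) (M.inv_mem hm),
      fun hh => ?_⟩⟩
    have : h = m⁻¹ * (m * h * m⁻¹) * m := by group
    rw [this]
    exact M.mul_mem (M.mul_mem (M.inv_mem hm) hh) hm
  have hNR : N = R := by
    by_contra hne'
    have h1 : N ≤ M := by
      refine hmax' N inf_le_left ?_ hMN hne'
      intro n hn'
      obtain ⟨h1, h2⟩ := (hN n).1 hn'
      refine (hN _).2 ⟨hn n h1, fun h => ?_⟩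
      constructor
      · intro hh
        have : s * n * s⁻¹ * h * (s * n * s⁻¹)⁻¹ = s * (n * (s⁻¹ * h * s) * n⁻¹) * s⁻¹ := by
          group
        rw [this]
        exact hMs _ ((h2 _).1 (hMsi _ hh))
      · intro hh
        have e1 : n * (s⁻¹ * h * s) * n⁻¹ = s⁻¹ * (s * n * s⁻¹ * h * (s * n * s⁻¹)⁻¹) * s := by
          group
        have e2 : n * (s⁻¹ * h * s) * n⁻¹ ∈ M := by
          rw [e1]; exact hMsi _ hh
        have e3 := (h2 _).2 e2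
        have e4 : h = s * (s⁻¹ * h * s) * s⁻¹ := by group
        rw [e4]
        exact hMs _ e3
    -- normaliser condition in the finite `2`-group `R`
    haveI : Fact (Nat.Prime 2) := ⟨by norm_num⟩
    haveI := hR.isNilpotent
    have hnc := Group.normalizerCondition_of_isNilpotent (G := R) (M.subgroupOf R) (by
      rw [lt_top_iff_ne_top]
      intro h
      rw [Subgroup.subgroupOf_eq_top] at h
      exact hMne (le_antisymm hMR h))
    obtain ⟨x, hx, hx'⟩ := SetLike.exists_of_lt hnc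
    rw [Subgroup.mem_normalizer_iff] at hx
    apply hx'
    rw [Subgroup.mem_subgroupOf]
    apply h1
    refine (hN _).2 ⟨x.2, fun h => ?_⟩
    constructor
    · intro hh
      have := (hx ⟨h, hMR hh⟩).1 (by exact hh)
      exact this
    · intro hh
      have hhR : h ∈ R := by
        have e : h = (x : W ≃ₗ[ZMod 3] W)⁻¹ * (x * h * (x : W ≃ₗ[ZMod 3] W)⁻¹) * x := by group
        rw [e]
        exact R.mul_mem (R.mul_mem (R.inv_mem x.2) (hMR hh)) x.2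
      have := (hx ⟨h, hhR⟩).2 (by exact hh)
      exact this
  have hMnorm : ∀ r ∈ R, ∀ m ∈ M, r * m * r⁻¹ ∈ M := by
    intro r hr m hm
    rw [← hNR] at hr
    exact (((hN r).1 hr).2 m).1 hm
  -- `T`
  let T : Subgroup (W ≃ₗ[ZMod 3] W) :=
    { carrier := {r | r ∈ R ∧ r⁻¹ * (s * r * s⁻¹) ∈ M}
      mul_mem' := by
        rintro a b ⟨ha, ha'⟩ ⟨hb, hb'⟩
        refine ⟨R.mul_mem ha hb, ?_⟩
        have e : (a * b)⁻¹ * (s * (a * b) * s⁻¹) =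
          (b⁻¹ * (a⁻¹ * (s * a * s⁻¹)) * b⁻¹⁻¹) * (b⁻¹ * (s * b * s⁻¹)) := by group
        rw [e]
        exact M.mul_mem (hMnorm _ (R.inv_mem hb) _ ha') hb'
      one_mem' := ⟨R.one_mem, by simp⟩
      inv_mem' := by
        rintro a ⟨ha, ha'⟩
        refine ⟨R.inv_mem ha, ?_⟩
        have e : a⁻¹⁻¹ * (s * a⁻¹ * s⁻¹) = a * (a⁻¹ * (s * a * s⁻¹))⁻¹ * a⁻¹ := by group
        rw [e]
        exact hMnorm _ ha _ (M.inv_mem ha') }
  have hT : ∀ r, r ∈ T ↔ r ∈ R ∧ r⁻¹ * (s * r * s⁻¹) ∈ M := fun r => Iff.rfl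
  have hTM : ∀ r ∈ R, r⁻¹ * (s * r * s⁻¹) ∈ M → r ∈ M := by
    have hle : T ≤ M := by
      refine hmax' T (fun r hr => hr.1) ?_ ?_ ?_
      · intro m hm
        refine (hT _).2 ⟨hn m hm.1, ?_⟩
        have e : (s * m * s⁻¹)⁻¹ * (s * (s * m * s⁻¹) * s⁻¹) =
          s * (m⁻¹ * (s * m * s⁻¹)) * s⁻¹ := by group
        rw [e]
        exact hMs _ hm.2
      · intro m hm
        exact (hT _).2 ⟨hMR hm, M.mul_mem (M.inv_mem hm) (hMs m hm)⟩
      · intro h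
        have := hgen M hMR (fun r hr => by
          rw [← h] at hr
          exact hr.2)
        exact hMne (le_antisymm hMR this)
    intro r hr h
    exact hle ⟨hr, h⟩
  -- the element `x`
  obtain ⟨x, hxR, hxM⟩ : ∃ x ∈ R, x ∉ M := by
    by_contra h
    push Not at h
    exact hMne (le_antisymm hMR h)
  have hxA : mp x A ∈ 𝒲 := hRW A hA x hxR
  obtain ⟨v, hv, hv0⟩ := (Submodule.ne_bot_iff _).1 (hne _ hxA)
  obtain ⟨r, hr, hg⟩ := hstar v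
  set x' := s * x * s⁻¹ with hx'
  have hx'R : x' ∈ R := hn x hxR
  have hx'A : mp x' A ∈ 𝒲 := hRW A hA x' hx'R
  have hxx : mp x A ≠ mp x' A := by
    intro h
    apply hxM
    apply hTM x hxR
    apply hM0 _ (R.mul_mem (R.inv_mem hxR) hx'R)
    rw [mp_mul, ← h, ← mp_mul, inv_mul_cancel, mp_one]
  have hsv : s v ∈ mp x' A := by
    have := mem_mp (g := s) hv
    rw [hsx] at this
    exact this
  have hgW : ∀ B ∈ 𝒲, mp (r⁻¹ * s * r) B ∈ 𝒲 := by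
    intro B hB
    rw [mp_mul, mp_mul]
    exact hRW _ (hsW _ (hRW _ hB r hr)) _ (R.inv_mem hr)
  have hg' : (r⁻¹ * s * r) (s v) - (r⁻¹ * s * r) v = s v - v := by
    rw [← map_sub]; exact hg
  have hsv0 : s v ≠ 0 := by
    intro h
    exact hv0 ((LinearEquiv.map_eq_zero_iff s).1 h)
  have d1 : v = s v + (-((r⁻¹ * s * r) (s v))) + (r⁻¹ * s * r) v := by
    have h3 : v = s v - ((r⁻¹ * s * r) (s v) - (r⁻¹ * s * r) v) := by rw [hg']; abel
    calc v = s v - ((r⁻¹ * s * r) (s v) - (r⁻¹ * s * r) v) := h3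
      _ = _ := by abel
  have d2 : s v = v + ((r⁻¹ * s * r) (s v)) + (-((r⁻¹ * s * r) v)) := by
    have h3 : s v = v + ((r⁻¹ * s * r) (s v) - (r⁻¹ * s * r) v) := by rw [hg']; abel
    calc s v = v + ((r⁻¹ * s * r) (s v) - (r⁻¹ * s * r) v) := h3
      _ = _ := by abel
  have k1 := key hind hxA hx'A (hgW _ hx'A) (hgW _ hxA) hv hv0 hsv (neg_mem (mem_mp hsv))
    (mem_mp hv) d1
  have k2 := key hind hx'A hxA (hgW _ hx'A) (hgW _ hxA) hsv hsv0 hv (mem_mp hsv)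
    (neg_mem (mem_mp hv)) d2
  -- `g` fixes both
  have hg3 : ∀ B, mp (r⁻¹ * s * r) (mp (r⁻¹ * s * r) (mp (r⁻¹ * s * r) B)) = B := by
    intro B
    rw [← mp_mul, ← mp_mul]
    have : r⁻¹ * s * r * (r⁻¹ * s * r) * (r⁻¹ * s * r) = r⁻¹ * (s * s * s) * r := by group
    rw [this, hs3]
    simp [mp_one]
  have hboth : mp (r⁻¹ * s * r) (mp x A) = mp x A ∧ mp (r⁻¹ * s * r) (mp x' A) = mp x' A := by
    rcases k1 with k | k | k
    · exact absurd k hxx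
    · -- g x'A = xA
      exfalso
      rcases k2 with l | l | l
      · exact hxx l.symm
      · exact hxx (k.trans l.symm)
      · -- x'A = g xA
        have := hg3 (mp x A)
        rw [← l, ← k, ← l] at this
        exact hxx this.symm
    · rcases k2 with l | l | l
      · exact absurd l.symm hxx
      · exact ⟨k.symm, l.symm⟩
      · exact absurd (k.trans l.symm) hxx
  -- conclusion
  have hfix : ∀ y ∈ R, mp (r⁻¹ * s * r) (mp y A) = mp y A → r * y ∈ M := by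
    intro y hy h
    have h1 : mp (s * (r * y) * s⁻¹) A = mp (r * y) A := by
      rw [← hsx]
      have : mp r (mp (r⁻¹ * s * r) (mp y A)) = mp r (mp y A) := by rw [h]
      rw [← mp_mul, ← mp_mul, ← mp_mul] at this
      rw [← mp_mul, ← this]
      congr 1
      group
    apply hTM _ (R.mul_mem hr hy)
    apply hM0 _ (R.mul_mem (R.inv_mem (R.mul_mem hr hy)) (hn _ (R.mul_mem hr hy)))
    rw [mp_mul, h1, ← mp_mul, inv_mul_cancel, mp_one]
  have m1 := hfix x hxR hboth.1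
  have m2 := hfix x' hx'R hboth.2
  apply hxM
  apply hTM x hxR
  have : x⁻¹ * x' = (r * x)⁻¹ * (r * x') := by group
  rw [← hx', this]
  exact M.mul_mem (M.inv_mem m1) m2

end H3a

/-- row H3a: no imprimitivity. -/
theorem imp_three {W : Type} [AddCommGroup W] [Module (ZMod 3) W] [Finite W]
    (R : Subgroup (W ≃ₗ[ZMod 3] W)) (hR : IsPGroup 2 R)
    (s : W ≃ₗ[ZMod 3] W) (hs : s ^ 3 = 1) (hn : ∀ r ∈ R, s * r * s⁻¹ ∈ R)
    (hgen : ∀ M : Subgroup (W ≃ₗ[ZMod 3] W), M ≤ R →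
      (∀ r ∈ R, r⁻¹ * (s * r * s⁻¹) ∈ M) → R ≤ M)
    (hstar : ∀ w : W, ∃ r ∈ R, (r⁻¹ * s * r) (s w - w) = s w - w)
    (𝒲 : Set (Submodule (ZMod 3) W)) (hind : sSupIndep 𝒲) (hne : ∀ A ∈ 𝒲, A ≠ ⊥)
    (hRW : ∀ A ∈ 𝒲, ∀ r ∈ R, A.map (r : W →ₗ[ZMod 3] W) ∈ 𝒲)
    (hsW : ∀ A ∈ 𝒲, A.map (s : W →ₗ[ZMod 3] W) ∈ 𝒲) :
    ∀ A ∈ 𝒲, A.map (s : W →ₗ[ZMod 3] W) = A ∧
      ∀ r ∈ R, A.map (r : W →ₗ[ZMod 3] W) = A := by
  intro A hA
  obtain ⟨r, hr, h⟩ := H3a.exists_fixed R hR s hs hn hstar 𝒲 hind hne hRW hsW hA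
  have h1 := H3a.fixed_by R hR s hs hn hgen hstar 𝒲 hind hne hRW hsW (hRW A hA r hr) h
  have h2 : H3a.mp r A = A := by
    have := h1 r⁻¹ (R.inv_mem hr)
    change H3a.mp r⁻¹ (H3a.mp r A) = H3a.mp r A at this
    rw [← H3a.mp_mul, inv_mul_cancel, H3a.mp_one] at this
    exact this.symm
  change H3a.mp s A = A ∧ ∀ r ∈ R, H3a.mp r A = A
  refine ⟨?_, ?_⟩
  · rw [h2] at h; exact h
  · intro t ht
    have := h1 t ht
    change H3a.mp t (H3a.mp r A) = H3a.mp r A at this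
    rw [h2] at this
    exact this

end SYL2
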