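import Mathlib

/-!
# The quaternion group of order eight as a 2-group with a fixed-point-poor automorphism of order 3
-/

open scoped commutatorElement

namespace SYL2

section Q8

variable {G : Type} [Group G]

/-- the elements whose commutators with all of `G` lie in `{1, h}`. -/
def PG (h : G) (hh2 : h * h = 1) (hhc : ∀ r, r * h = h * r) : Subgroup G where
  carrier := {m | ∀ r, r * m = m * r ∨ r * m = h * (m * r)}
  mul_mem' := by
    intro a b ha hb r
    rcases ha r with h1 | h1 <;> rcases hb r with h2 | h2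
    · left; rw [← mul_assoc, h1, mul_assoc, h2, mul_assoc]
    · right; rw [← mul_assoc, h1, mul_assoc, h2, ← mul_assoc, hhc a]; simp only [mul_assoc]
    · right; rw [← mul_assoc, h1]; simp only [mul_assoc]; rw [h2]
    · left; rw [← mul_assoc, h1]; simp only [mul_assoc]; rw [h2, ← mul_assoc a h, hhc a]
      simp only [← mul_assoc]; rw [hh2, one_mul]
  one_mem' := by intro r; left; simp
  inv_mem' := by
    intro a ha r
    rcases ha r with h1 | h1
    · left
      have : a⁻¹ * (r * a) * a⁻¹ = a⁻¹ * (a * r) * a⁻¹ := by rw [h1]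
      simpa [mul_assoc] using this.symm
    · right
      have : h * (a⁻¹ * (r * a) * a⁻¹) = h * (a⁻¹ * (h * (a * r)) * a⁻¹) := by rw [h1]
      rw [← mul_assoc a⁻¹ h, hhc a⁻¹] at this
      simp only [mul_assoc, inv_mul_cancel_left, mul_inv_cancel, mul_one] at this
      rw [← mul_assoc h h, hh2, one_mul] at this
      exact this.symm

theorem mem_PG {h : G} {hh2 : h * h = 1} {hhc : ∀ r, r * h = h * r} {m : G} :
    m ∈ PG h hh2 hhc ↔ ∀ r, r * m = m * r ∨ r * m = h * (m * r) := Iff.rfl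

/-- the common hypotheses. -/
structure Q8Hyp (σ : G →* G) (h : G) : Prop where
  s3 : ∀ g, σ (σ (σ g)) = g
  gen : ∀ M : Subgroup G, (∀ r, r⁻¹ * σ r ∈ M) → ∀ r, r ∈ M
  h1 : h ≠ 1
  h2 : h * h = 1
  hc : ∀ r, r * h = h * r
  hs : σ h = h
  ab : ∀ B : Subgroup G, (∀ r, ∀ b ∈ B, r * b * r⁻¹ ∈ B) → (∀ b ∈ B, σ b ∈ B) →
    (∀ b ∈ B, b * b = 1) → ∀ b ∈ B, b = 1 ∨ b = h
  pg : IsPGroup 2 G

variable {σ : G →* G} {h : G}

theorem Q8Hyp.fixd (H : Q8Hyp σ h) {m : G} (hm : m⁻¹ * σ m = 1 ∨ m⁻¹ * σ m = h) : σ m = m := by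
  rcases hm with hm | hm
  · exact (inv_mul_eq_one.1 hm).symm
  · have e1 : σ m = m * h := by rw [← hm]; simp
    have e2 : σ (σ m) = m := by
      rw [e1, map_mul, H.hs, e1, mul_assoc, H.h2, mul_one]
    have := H.s3 m
    rw [e2] at this
    exact this

theorem Q8Hyp.hinv (H : Q8Hyp σ h) : h⁻¹ = h := inv_eq_of_mul_eq_one_left H.h2

/-- (E) -/
theorem Q8Hyp.E (H : Q8Hyp σ h) {u : G} (hu : u * u = 1) (hP : u ∈ PG h H.h2 H.hc)
    (hc : u * σ u = σ u * u) : u = 1 ∨ u = h := by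
  have hc1 : σ u * σ (σ u) = σ (σ u) * σ u := by rw [← map_mul, hc, map_mul]
  have hc2 : σ (σ u) * u = u * σ (σ u) := by
    have := congrArg σ hc1
    rw [map_mul, map_mul, H.s3] at this
    exact this
  have hsurj : Function.Surjective σ := fun g => ⟨σ (σ g), H.s3 g⟩
  have hPs : ∀ v, v ∈ PG h H.h2 H.hc → σ v ∈ PG h H.h2 H.hc := by
    intro v hv r
    obtain ⟨r', rfl⟩ := hsurj r
    rcases hv r' with h1 | h1
    · left; rw [← map_mul, h1, map_mul]
    · right; rw [← map_mul, h1, map_mul, map_mul, H.hs]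
  set S : Set G := {u, σ u, σ (σ u), h} with hS
  have hSc : ∀ x ∈ S, ∀ y ∈ S, x * y = y * x := by
    intro x hx y hy
    simp only [hS, Set.mem_insert_iff, Set.mem_singleton_iff] at hx hy
    rcases hx with rfl | rfl | rfl | rfl <;> rcases hy with rfl | rfl | rfl | rfl <;>
      first | rfl | assumption | exact hc.symm | exact hc1.symm | exact hc2.symm | exact H.hc _ |
        exact (H.hc _).symm
  have hcl : ∀ x ∈ Subgroup.closure S, ∀ y ∈ Subgroup.closure S, x * y = y * x := by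
    intro x hx y hy
    have h1 : Subgroup.closure S ≤ Subgroup.centralizer S := by
      rw [Subgroup.closure_le]
      intro z hz
      rw [SetLike.mem_coe, Subgroup.mem_centralizer_iff]
      intro w hw
      exact hSc w hw z hz
    have h2 := Subgroup.closure_le_centralizer_centralizer S hx
    rw [Subgroup.mem_centralizer_iff] at h2
    exact (h2 y (h1 hy)).symm
  have hex : ∀ x ∈ Subgroup.closure S, x * x = 1 := by
    intro x hx
    induction hx using Subgroup.closure_induction with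
    | mem x hx =>
      simp only [hS, Set.mem_insert_iff, Set.mem_singleton_iff] at hx
      rcases hx with rfl | rfl | rfl | rfl
      · exact hu
      · rw [← map_mul, hu, map_one]
      · rw [← map_mul, ← map_mul, hu, map_one, map_one]
      · exact H.h2
    | one => simp
    | mul x y hx hy h1 h2 =>
      have := hcl x hx y hy
      calc x * y * (x * y) = x * (y * x) * y := by group
        _ = x * x * (y * y) := by rw [← this]; group
        _ = 1 := by rw [h1, h2, one_mul]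
    | inv x hx h1 => rw [← mul_inv_rev, h1, inv_one]
  refine H.ab (Subgroup.closure S) ?_ ?_ hex u (Subgroup.subset_closure (by simp [hS]))
  · intro r x hx
    induction hx using Subgroup.closure_induction with
    | mem x hx =>
      have hxS := hx
      have hxP : x ∈ PG h H.h2 H.hc := by
        simp only [hS, Set.mem_insert_iff, Set.mem_singleton_iff] at hx
        rcases hx with rfl | rfl | rfl | rfl
        · exact hP
        · exact hPs _ hP
        · exact hPs _ (hPs _ hP)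
        · intro r; left; exact H.hc r
      rcases hxP r with h1 | h1
      · rw [h1, mul_inv_cancel_right]; exact Subgroup.subset_closure hxS
      · rw [h1, mul_assoc, mul_inv_cancel_right]
        exact Subgroup.mul_mem _ (Subgroup.subset_closure (by simp [hS]))
          (Subgroup.subset_closure hxS)
    | one => simp
    | mul x y hx hy h1 h2 =>
      have := Subgroup.mul_mem _ h1 h2
      simpa [mul_assoc] using this
    | inv x hx h1 =>
      have := Subgroup.inv_mem _ h1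
      simpa [mul_assoc] using this
  · intro x hx
    induction hx using Subgroup.closure_induction with
    | mem x hx =>
      apply Subgroup.subset_closure
      simp only [hS, Set.mem_insert_iff, Set.mem_singleton_iff] at hx ⊢
      rcases hx with rfl | rfl | rfl | rfl
      · simp
      · simp
      · left; exact H.s3 u
      · right; right; right; exact H.hs
    | one => simp
    | mul x y hx hy h1 h2 => rw [map_mul]; exact Subgroup.mul_mem _ h1 h2
    | inv x hx h1 => rw [map_inv]; exact Subgroup.inv_mem _ h1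

theorem Q8Hyp.scen (H : Q8Hyp σ h) {z : G} (hz : z ∈ Subgroup.center G) :
    σ z ∈ Subgroup.center G := by
  rw [Subgroup.mem_center_iff] at hz ⊢
  intro g
  have := congrArg σ (hz (σ (σ g)))
  rwa [map_mul, map_mul, H.s3] at this

/-- central involutions. -/
theorem Q8Hyp.omega (H : Q8Hyp σ h) {z : G} (hz : z ∈ Subgroup.center G) (hz2 : z * z = 1) :
    z = 1 ∨ z = h := by
  let B : Subgroup G :=
    { carrier := {x | x ∈ Subgroup.center G ∧ x * x = 1}
      mul_mem' := by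
        rintro x y ⟨hx, hx2⟩ ⟨hy, hy2⟩
        refine ⟨Subgroup.mul_mem _ hx hy, ?_⟩
        have := (Subgroup.mem_center_iff.1 hx) y
        calc x * y * (x * y) = x * (y * x) * y := by group
          _ = x * x * (y * y) := by rw [this]; group
          _ = 1 := by rw [hx2, hy2, one_mul]
      one_mem' := ⟨Subgroup.one_mem _, by simp⟩
      inv_mem' := by
        rintro x ⟨hx, hx2⟩
        exact ⟨Subgroup.inv_mem _ hx, by rw [← mul_inv_rev, hx2, inv_one]⟩ }
  refine H.ab B ?_ ?_ ?_ z ⟨hz, hz2⟩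
  · rintro r b ⟨hb, hb2⟩
    have := (Subgroup.mem_center_iff.1 hb) r
    rw [this, mul_inv_cancel_right]
    exact ⟨hb, hb2⟩
  · rintro b ⟨hb, hb2⟩
    exact ⟨H.scen hb, by rw [← map_mul, hb2, map_one]⟩
  · rintro b ⟨hb, hb2⟩
    exact hb2

/-- (Z) -/
theorem Q8Hyp.Z (H : Q8Hyp σ h) {z : G} (hz : z ∈ Subgroup.center G) : σ z = z := by
  obtain ⟨n, hn⟩ := H.pg z
  induction n generalizing z with
  | zero =>
    simp at hn
    rw [hn, map_one]
  | succ n ih =>
    have e1 : σ (z * z) = z * z := by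
      apply ih (Subgroup.mul_mem _ hz hz)
      rw [← pow_two, ← pow_mul, ← pow_succ', hn]
    apply H.fixd
    have hsz := H.scen hz
    apply H.omega (Subgroup.mul_mem _ (Subgroup.inv_mem _ hz) hsz)
    have c1 := (Subgroup.mem_center_iff.1 (Subgroup.inv_mem _ hz)) (σ z)
    calc z⁻¹ * σ z * (z⁻¹ * σ z) = z⁻¹ * (σ z * z⁻¹) * σ z := by group
      _ = z⁻¹ * z⁻¹ * (σ z * σ z) := by rw [c1]; group
      _ = 1 := by rw [← map_mul, e1]; group

/-- (C) -/
theorem Q8Hyp.C (H : Q8Hyp σ h) (N : Subgroup G) (hN : ∀ r, ∀ n ∈ N, r * n * r⁻¹ ∈ N)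
    (hf : ∀ n ∈ N, σ n = n) {n : G} (hn : n ∈ N) : n ∈ Subgroup.center G := by
  have key := H.gen (Subgroup.centralizer (N : Set G)) (by
    intro r
    rw [Subgroup.mem_centralizer_iff]
    intro m hm
    have e := hf _ (hN r m hm)
    rw [map_mul, map_mul, map_inv, hf m hm] at e
    have e2 : r⁻¹ * (σ r * m * (σ r)⁻¹) * σ r = r⁻¹ * (r * m * r⁻¹) * σ r := by rw [e]
    have e3 : r⁻¹ * σ r * m = m * (r⁻¹ * σ r) := by
      simpa [mul_assoc] using e2
    exact e3.symm)
  rw [Subgroup.mem_center_iff]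
  intro g
  have := Subgroup.mem_centralizer_iff.1 (key g) n hn
  exact this.symm

/-- a noncentral element of `C` with central commutators and central square. -/
theorem Q8Hyp.exists_y (H : Q8Hyp σ h) [Finite G] (C : Subgroup G)
    (hC : ∀ r, ∀ n ∈ C, r * n * r⁻¹ ∈ C) (hnc : ¬ C ≤ Subgroup.center G) :
    ∃ y ∈ C, y ∉ Subgroup.center G ∧ y * y ∈ Subgroup.center G ∧
      ∀ r, ⁅y, r⁆ ∈ Subgroup.center G := by
  classical
  have : Fact (Nat.Prime 2) := ⟨Nat.prime_two⟩
  have := H.pg.isNilpotent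
  obtain ⟨n, hn⟩ := Group.IsNilpotent.nilpotent G
  have hex : ∃ k, ¬ (C ⊓ Subgroup.upperCentralSeries G k ≤ Subgroup.center G) :=
    ⟨n, by rw [hn, inf_top_eq]; exact hnc⟩
  have hk := Nat.find_spec hex
  have hmin := fun j => Nat.find_min (H := hex) (m := j)
  set k := Nat.find hex with hkdef
  rcases k with _ | k
  · exact absurd (by rw [Subgroup.upperCentralSeries_zero, inf_bot_eq]; exact bot_le) hk
  have hk1 : C ⊓ Subgroup.upperCentralSeries G k ≤ Subgroup.center G := by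
    by_contra hcon
    exact hmin k (Nat.lt_succ_self k) hcon
  obtain ⟨y, hy, hyn⟩ := SetLike.not_le_iff_exists.1 hk
  obtain ⟨hyC, hyU⟩ := Subgroup.mem_inf.1 hy
  have hyr : ∀ r, ⁅y, r⁆ ∈ Subgroup.center G := by
    intro r
    apply hk1
    refine Subgroup.mem_inf.2 ⟨?_, Subgroup.mem_upperCentralSeries_succ_iff.1 hyU r⟩
    have := Subgroup.mul_mem _ hyC (hC r _ (Subgroup.inv_mem _ hyC))
    rw [commutatorElement_def]
    simpa [mul_assoc] using this
  have hy2 : y ∈ Subgroup.upperCentralSeries G 2 := by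
    rw [Subgroup.mem_upperCentralSeries_succ_iff]
    intro r
    rw [Subgroup.upperCentralSeries_one]
    exact hyr r
  obtain ⟨m, hm⟩ := H.pg y
  have hex2 : ∃ j, y ^ (2 ^ j) ∈ Subgroup.center G := ⟨m, by rw [hm]; exact Subgroup.one_mem _⟩
  have hj := Nat.find_spec hex2
  have hjmin := fun j => Nat.find_min (H := hex2) (m := j)
  set j := Nat.find hex2 with hjdef
  rcases j with _ | j
  · rw [pow_zero, pow_one] at hj
    exact absurd hj hyn
  refine ⟨y ^ (2 ^ j), Subgroup.pow_mem _ hyC _, hjmin j (Nat.lt_succ_self j), ?_, ?_⟩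
  · rw [← pow_two, ← pow_mul, ← pow_succ]
    exact hj
  · intro r
    have h2 := Subgroup.pow_mem _ hy2 (2 ^ j)
    rw [Subgroup.mem_upperCentralSeries_succ_iff] at h2
    have := h2 r
    rwa [Subgroup.upperCentralSeries_one] at this

/-- (L) -/
theorem Q8Hyp.L (H : Q8Hyp σ h) [Finite G] (C : Subgroup G)
    (hC : ∀ r, ∀ n ∈ C, r * n * r⁻¹ ∈ C) (hCs : ∀ n ∈ C, σ n ∈ C)
    (hnc : ¬ C ≤ Subgroup.center G) :
    ∃ m ∈ C, m ∈ PG h H.h2 H.hc ∧ σ m * m = h * (m * σ m) := by
  by_contra hcon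
  push Not at hcon
  obtain ⟨y, hyC, hyn, hy2, hyr⟩ := H.exists_y C hC hnc
  have hsurj : Function.Surjective σ := fun g => ⟨σ (σ g), H.s3 g⟩
  have hPs : ∀ v, v ∈ PG h H.h2 H.hc → σ v ∈ PG h H.h2 H.hc := by
    intro v hv r
    obtain ⟨r', rfl⟩ := hsurj r
    rcases hv r' with h1 | h1
    · left; rw [← map_mul, h1, map_mul]
    · right; rw [← map_mul, h1, map_mul, map_mul, H.hs]
  have hcomm : ∀ m ∈ C, m ∈ PG h H.h2 H.hc → σ m * m = m * σ m := by
    intro m hm hmP
    rcases hmP (σ m) with h1 | h1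
    · exact h1
    · exact absurd h1 (hcon m hm hmP)
  have hsq : ∀ m, m ∈ PG h H.h2 H.hc → m * m ∈ Subgroup.center G := by
    intro m hm
    rw [Subgroup.mem_center_iff]
    intro r
    rcases hm r with h1 | h1
    · rw [← mul_assoc, h1, mul_assoc, h1, mul_assoc]
    · rw [← mul_assoc, h1, mul_assoc h, mul_assoc m, h1, ← mul_assoc m h, H.hc m]
      simp only [← mul_assoc]; rw [H.h2, one_mul]
  have hfix : ∀ m ∈ C ⊓ PG h H.h2 H.hc, σ m = m := by
    intro m hm
    obtain ⟨hmC, hmP⟩ := Subgroup.mem_inf.1 hm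
    apply H.fixd
    have hc := hcomm m hmC hmP
    have huC : m⁻¹ * σ m ∈ C := Subgroup.mul_mem _ (Subgroup.inv_mem _ hmC) (hCs m hmC)
    have huP : m⁻¹ * σ m ∈ PG h H.h2 H.hc :=
      Subgroup.mul_mem _ (Subgroup.inv_mem _ hmP) (hPs m hmP)
    apply H.E _ huP (hcomm _ huC huP).symm
    have e1 : σ m * σ m = m * m := by rw [← map_mul]; exact H.Z (hsq m hmP)
    have e2 : σ m * m⁻¹ = m⁻¹ * σ m := by
      have : m⁻¹ * (σ m * m) * m⁻¹ = m⁻¹ * (m * σ m) * m⁻¹ := by rw [hc]
      simpa [mul_assoc] using this.symm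
    calc m⁻¹ * σ m * (m⁻¹ * σ m) = m⁻¹ * (σ m * m⁻¹) * σ m := by group
      _ = m⁻¹ * m⁻¹ * (σ m * σ m) := by rw [e2]; group
      _ = 1 := by rw [e1]; group
  have hyP : y ∈ PG h H.h2 H.hc := by
    intro r
    have hc := hyr r⁻¹
    set c := ⁅y, r⁻¹⁆ with hcdef
    have hcc := Subgroup.mem_center_iff.1 hc
    -- y r⁻¹ = c r⁻¹ y, hence r y = y c r
    have e1 : y * r⁻¹ = c * (r⁻¹ * y) := by
      rw [hcdef, commutatorElement_def]; group
    have e2 : r * y = c * (y * r) := by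
      have : r * (y * r⁻¹) * r = r * (c * (r⁻¹ * y)) * r := by rw [e1]
      rw [← mul_assoc r c, hcc r] at this
      simp only [mul_assoc, inv_mul_cancel, mul_one, mul_inv_cancel_left] at this
      exact this
    have e3 : c * c = 1 := by
      have h1 := Subgroup.mem_center_iff.1 hy2 r
      have h3 : r * (y * y) = c * c * (y * y * r) := by
        rw [← mul_assoc, e2, mul_assoc c, mul_assoc y, e2, ← mul_assoc y c, hcc y]
        simp only [mul_assoc]
      rw [h1] at h3
      exact (mul_eq_right.1 h3.symm)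
    rcases H.omega hc e3 with h4 | h4
    · left; rw [e2, h4, one_mul]
    · right; rw [e2, h4]
  refine hyn (H.C (C ⊓ PG h H.h2 H.hc) ?_ hfix (Subgroup.mem_inf.2 ⟨hyC, hyP⟩))
  intro r n hn
  obtain ⟨hnC, hnP⟩ := Subgroup.mem_inf.1 hn
  refine Subgroup.mem_inf.2 ⟨hC r n hnC, ?_⟩
  have hhP : h ∈ PG h H.h2 H.hc := by intro r; left; exact H.hc r
  rcases hnP r with h1 | h1
  · rw [h1, mul_inv_cancel_right]; exact hnP
  · rw [h1, mul_assoc, mul_inv_cancel_right]; exact Subgroup.mul_mem _ hhP hnP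

theorem Q8Hyp.PG_s (H : Q8Hyp σ h) {v : G} (hv : v ∈ PG h H.h2 H.hc) : σ v ∈ PG h H.h2 H.hc := by
  have hsurj : Function.Surjective σ := fun g => ⟨σ (σ g), H.s3 g⟩
  intro r
  obtain ⟨r', rfl⟩ := hsurj r
  rcases hv r' with h1 | h1
  · left; rw [← map_mul, h1, map_mul]
  · right; rw [← map_mul, h1, map_mul, map_mul, H.hs]

theorem Q8Hyp.PG_sq (H : Q8Hyp σ h) {m : G} (hm : m ∈ PG h H.h2 H.hc) :
    m * m ∈ Subgroup.center G := by
  rw [Subgroup.mem_center_iff]
  intro r
  rcases hm r with h1 | h1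
  · rw [← mul_assoc, h1, mul_assoc, h1, mul_assoc]
  · rw [← mul_assoc, h1, mul_assoc h, mul_assoc m, h1, ← mul_assoc m h, H.hc m]
    simp only [← mul_assoc]; rw [H.h2, one_mul]

/-- three is invertible on a 2-group element. -/
theorem exists_cube_inv {c : G} {j : ℕ} (hc : c ^ (2 ^ j) = 1) : ∃ q : ℕ, c ^ (3 * q + 1) = 1 := by
  have h3 : 3 ∣ 4 ^ j - 1 := by
    have := Nat.sub_dvd_pow_sub_pow 4 1 j
    simpa using this
  obtain ⟨q, hq⟩ := h3
  refine ⟨q, ?_⟩
  have h4 : 1 ≤ 4 ^ j := Nat.one_le_pow _ _ (by norm_num)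
  have : 3 * q + 1 = 2 ^ j * 2 ^ j := by
    rw [← hq, Nat.sub_add_cancel h4, ← mul_pow]
    norm_num
  rw [this, pow_mul, hc, one_pow]

theorem dmul_aux {x y d : G} (hy : y * d = d * y) : x * d * (y * d) = x * y * (d * d) := by
  calc x * d * (y * d) = x * (d * y) * d := by simp only [mul_assoc]
    _ = x * (y * d) * d := by rw [hy]
    _ = x * y * (d * d) := by simp only [mul_assoc]

/-- (N) -/
theorem Q8Hyp.N (H : Q8Hyp σ h) [Finite G] (C : Subgroup G)
    (hC : ∀ r, ∀ n ∈ C, r * n * r⁻¹ ∈ C) (hCs : ∀ n ∈ C, σ n ∈ C)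
    (hnc : ¬ C ≤ Subgroup.center G) :
    ∃ a ∈ C, a ∈ PG h H.h2 H.hc ∧ σ a * a = h * (a * σ a) ∧ a * σ a * σ (σ a) = 1 ∧
      a * a = h := by
  obtain ⟨m, hmC, hmP, hmm⟩ := H.L C hC hCs hnc
  have hhs2 : ∀ x y : G, h * (x * y) = x * (h * y) := by
    intro x y; rw [← mul_assoc, ← H.hc x, mul_assoc]
  have hh : ∀ x : G, h * (h * x) = x := by
    intro x; rw [← mul_assoc, H.h2, one_mul]
  have e1 : σ m * m = h * (m * σ m) := hmm
  have e2 : σ (σ m) * σ m = h * (σ m * σ (σ m)) := by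
    have := congrArg σ e1
    rwa [map_mul, map_mul, map_mul, H.hs] at this
  have e3 : m * σ (σ m) = h * (σ (σ m) * m) := by
    have := congrArg σ e2
    rwa [map_mul, map_mul, map_mul, H.hs, H.s3] at this
  have e4 : σ (σ m) * m = h * (m * σ (σ m)) := by rw [e3, hh]
  set c := m * σ m * σ (σ m) with hc
  have hcm : m * c = c * m := by
    rw [hc, mul_assoc (m * σ m), e4, ← hhs2, ← mul_assoc (m * σ m) m, mul_assoc m (σ m) m, e1]
    rw [← mul_assoc m h, H.hc m]
    simp only [mul_assoc]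
    rw [hh]
  have hsc : σ c = c := by
    have : m * σ c = m * c := by
      rw [hcm, hc, map_mul, map_mul, H.s3]
      simp only [mul_assoc]
    exact mul_left_cancel this
  obtain ⟨j, hj⟩ := H.pg c
  obtain ⟨q, hq⟩ := exists_cube_inv hj
  have hcC : c ∈ C := Subgroup.mul_mem _ (Subgroup.mul_mem _ hmC (hCs _ hmC)) (hCs _ (hCs _ hmC))
  have hcP : c ∈ PG h H.h2 H.hc :=
    Subgroup.mul_mem _ (Subgroup.mul_mem _ hmP (H.PG_s hmP)) (H.PG_s (H.PG_s hmP))
  set d := c ^ q with hd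
  have hsd : σ d = d := by rw [hd, map_pow, hsc]
  have hmd : m * d = d * m := by
    have : Commute m c := hcm
    exact (this.pow_right q)
  have hmd1 : σ m * d = d * σ m := by
    have := congrArg σ hmd
    rwa [map_mul, map_mul, hsd] at this
  have hmd2 : σ (σ m) * d = d * σ (σ m) := by
    have := congrArg σ hmd1
    rwa [map_mul, map_mul, hsd] at this
  have hdC : d ∈ C := Subgroup.pow_mem _ hcC _
  have hdP : d ∈ PG h H.h2 H.hc := Subgroup.pow_mem _ hcP _
  have hmd0 := hmd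
  obtain ⟨a, ha⟩ : ∃ a, a = m * d := ⟨_, rfl⟩
  have ha0 := ha
  have hsa : σ a = σ m * d := by rw [ha, map_mul, hsd]
  have hssa : σ (σ a) = σ (σ m) * d := by rw [hsa, map_mul, hsd]
  have haC : a ∈ C := ha ▸ Subgroup.mul_mem _ hmC hdC
  have haP : a ∈ PG h H.h2 H.hc := ha ▸ Subgroup.mul_mem _ hmP hdP
  have f1 : σ a * a = h * (a * σ a) := by
    rw [hsa, ha0, dmul_aux hmd0, dmul_aux hmd1, e1, mul_assoc]
  have f2 : a * σ a * σ (σ a) = 1 := by
    have t1 : σ (σ m) * (d * d) = d * d * σ (σ m) := by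
      rw [← mul_assoc, hmd2, mul_assoc, hmd2, mul_assoc]
    have t2 : c * d * (d * d) = c ^ (3 * q + 1) := by
      rw [hd, ← pow_add, ← pow_succ', ← pow_add]
      congr 1
      ring
    rw [hssa, hsa, ha0, dmul_aux hmd1, ← hq, ← t2]
    calc m * σ m * (d * d) * (σ (σ m) * d) = m * σ m * (d * d * σ (σ m)) * d := by
          simp only [mul_assoc]
      _ = m * σ m * (σ (σ m) * (d * d)) * d := by rw [t1]
      _ = c * d * (d * d) := by rw [hc]; simp only [mul_assoc]
  refine ⟨a, haC, haP, f1, f2, ?_⟩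
  -- the square
  have hz := H.PG_sq haP
  set z := a * a with hzdef
  have hzc := Subgroup.mem_center_iff.1 hz
  have hz1 : σ a * σ a = z := by rw [← map_mul]; exact H.Z hz
  have hz2 : σ (σ a) * σ (σ a) = z := by
    rw [← map_mul, hz1]; exact H.Z hz
  have g1 : σ (σ a) = (a * σ a)⁻¹ := (eq_inv_of_mul_eq_one_right f2)
  have g2 : a * σ a * (a * σ a) = h * (z * z) := by
    calc a * σ a * (a * σ a) = a * (σ a * a) * σ a := by group
      _ = a * h * (a * (σ a * σ a)) := by rw [f1]; group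
      _ = h * (a * a * (σ a * σ a)) := by rw [H.hc]; group
      _ = h * (z * z) := by rw [hz1, ← hzdef]
  have g3 : (h * (z * z))⁻¹ = z := by
    rw [← g2, mul_inv_rev, ← g1, hz2]
  have g4 : h * (z * (z * z)) = 1 := by
    have : h * (z * z) * (h * (z * z))⁻¹ = 1 := mul_inv_cancel _
    rw [g3] at this
    simpa [mul_assoc] using this
  have g5 : z * (z * z) = h := by
    have := congrArg (fun x => h * x) g4
    simp only [mul_one] at this
    rwa [hh] at this
  have g6 : (h * z) * ((h * z) * (h * z)) = 1 := by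
    have t : h * z * (h * z) = z * z := by
      rw [mul_assoc, hhs2 z, hh]
    rw [t, mul_assoc]
    exact g4
  obtain ⟨i, hi⟩ := H.pg (h * z)
  have g7 : (h * z) ^ 3 = 1 := by rw [pow_succ, pow_two, mul_assoc]; exact g6
  have g8 : h * z = 1 := by
    have hcop : Nat.Coprime 3 (2 ^ i) := Nat.Coprime.pow_right _ (by norm_num)
    have := orderOf_dvd_of_pow_eq_one g7
    have h2 := orderOf_dvd_of_pow_eq_one hi
    have h3 := Nat.dvd_gcd this h2
    rw [hcop.gcd_eq_one, Nat.dvd_one] at h3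
    exact orderOf_eq_one_iff.1 h3
  have := congrArg (fun x => h * x) g8
  simp only [mul_one] at this
  rwa [hh] at this

theorem Q8Hyp.main (H : Q8Hyp σ h) [Finite G] :
    ∃ a₀ a₁ a₂ : G, a₀ * a₀ = h ∧ a₁ * a₁ = h ∧ a₂ * a₂ = h ∧
      a₀ * a₁ * a₂ = 1 ∧ σ a₀ = a₁ ∧ σ a₁ = a₂ ∧ σ a₂ = a₀ ∧
      ∀ r, r = 1 ∨ r = h ∨ r = a₀ ∨ r = h * a₀ ∨ r = a₁ ∨ r = h * a₁ ∨ r = a₂ ∨ r = h * a₂ := by
  have hhs2 : ∀ x y : G, x * (h * y) = h * (x * y) := by
    intro x y; rw [← mul_assoc, H.hc x, mul_assoc]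
  have hh : ∀ x : G, h * (h * x) = x := by
    intro x; rw [← mul_assoc, H.h2, one_mul]
  have htop : ¬ (⊤ : Subgroup G) ≤ Subgroup.center G := by
    intro hle
    have := H.gen ⊥ (by
      intro r
      rw [Subgroup.mem_bot, H.Z (hle (Subgroup.mem_top r)), inv_mul_cancel]) h
    exact H.h1 (Subgroup.mem_bot.1 this)
  obtain ⟨a₀, -, haP, r1, r2, A0⟩ := H.N ⊤ (fun _ _ _ => Subgroup.mem_top _)
    (fun _ _ => Subgroup.mem_top _) htop
  obtain ⟨a₁, ha1⟩ : ∃ x, x = σ a₀ := ⟨_, rfl⟩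
  obtain ⟨a₂, ha2⟩ : ∃ x, x = σ a₁ := ⟨_, rfl⟩
  have ha3 : σ a₂ = a₀ := by rw [ha2, ha1, H.s3]
  rw [← ha1, ← ha2] at r2
  rw [← ha1] at r1
  have A1 : a₁ * a₁ = h := by rw [ha1, ← map_mul, A0, H.hs]
  have A2 : a₂ * a₂ = h := by rw [ha2, ← map_mul, A1, H.hs]
  have r1' : a₂ * a₁ = h * (a₁ * a₂) := by
    have := congrArg σ r1
    rwa [map_mul, map_mul, map_mul, H.hs, ← ha2, ← ha1] at this
  have r1'' : a₀ * a₂ = h * (a₂ * a₀) := by
    have := congrArg σ r1'
    rwa [map_mul, map_mul, map_mul, H.hs, ← ha2, ha3] at this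
  have r2' : a₁ * a₂ * a₀ = 1 := by
    have := congrArg σ r2
    rwa [map_mul, map_mul, ← ha2, ← ha1, ha3, map_one] at this
  have r2'' : a₂ * a₀ * a₁ = 1 := by
    have := congrArg σ r2'
    rwa [map_mul, map_mul, ← ha2, ← ha1, ha3, map_one] at this
  have t01 : a₀ * a₁ = h * a₂ := by
    have : a₀ * a₁ * a₂ * a₂ = h * a₂ * a₂ * a₂ := by
      rw [r2, one_mul, mul_assoc h, A2, H.h2, one_mul]
    exact mul_right_cancel (mul_right_cancel this)
  have t12 : a₁ * a₂ = h * a₀ := by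
    have : a₁ * a₂ * a₀ * a₀ = h * a₀ * a₀ * a₀ := by
      rw [r2', one_mul, mul_assoc h, A0, H.h2, one_mul]
    exact mul_right_cancel (mul_right_cancel this)
  have t20 : a₂ * a₀ = h * a₁ := by
    have : a₂ * a₀ * a₁ * a₁ = h * a₁ * a₁ * a₁ := by
      rw [r2'', one_mul, mul_assoc h, A1, H.h2, one_mul]
    exact mul_right_cancel (mul_right_cancel this)
  have t10 : a₁ * a₀ = a₂ := by rw [r1, t01, hh]
  have t21 : a₂ * a₁ = a₀ := by rw [r1', t12, hh]
  have t02 : a₀ * a₂ = a₁ := by rw [r1'', t20, hh]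
  refine ⟨a₀, a₁, a₂, A0, A1, A2, r2, ha1.symm, ha2.symm, ha3, ?_⟩
  -- the centralizer of Q
  set C := Subgroup.centralizer ({a₀, a₁, a₂} : Set G) with hCdef
  have hCmem : ∀ c, c ∈ C ↔ c * a₀ = a₀ * c ∧ c * a₁ = a₁ * c := by
    intro c
    rw [hCdef, Subgroup.mem_centralizer_iff]
    constructor
    · intro hc
      exact ⟨(hc a₀ (by simp)).symm, (hc a₁ (by simp)).symm⟩
    · rintro ⟨h1, h2⟩ x hx
      simp only [Set.mem_insert_iff, Set.mem_singleton_iff] at hx
      rcases hx with rfl | rfl | rfl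
      · exact h1.symm
      · exact h2.symm
      · rw [← t10, ← mul_assoc c, h2, mul_assoc a₁ c, h1, mul_assoc]
  have hC2 : ∀ c, c ∈ C → c * a₂ = a₂ * c := by
    intro c hc
    rw [hCdef, Subgroup.mem_centralizer_iff] at hc
    exact (hc a₂ (by simp)).symm
  have hCs : ∀ c ∈ C, σ c ∈ C := by
    intro c hc
    have h2 := congrArg σ (hC2 c hc)
    have h0 := congrArg σ ((hCmem c).1 hc).1
    rw [map_mul, map_mul, ha3] at h2
    rw [map_mul, map_mul, ← ha1] at h0
    exact (hCmem _).2 ⟨h2, h0⟩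
  have ha1P : a₁ ∈ PG h H.h2 H.hc := ha1 ▸ H.PG_s haP
  have hCn : ∀ r, ∀ c ∈ C, r * c * r⁻¹ ∈ C := by
    intro r c hc
    have aux : ∀ a ∈ PG h H.h2 H.hc, c * a = a * c → r * c * r⁻¹ * a = a * (r * c * r⁻¹) := by
      intro a ha hca
      rcases ha r⁻¹ with h1 | h1
      · have h2 : r * a = a * r := by
          have : r * (r⁻¹ * a) * r = r * (a * r⁻¹) * r := by rw [h1]
          simpa [mul_assoc] using this.symm
        rw [mul_assoc, h1, mul_assoc, ← mul_assoc c a, hca]
        simp only [← mul_assoc]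
        rw [h2]
      · have h2 : r * a = h * (a * r) := by
          have : r * (r⁻¹ * a) * r = r * (h * (a * r⁻¹)) * r := by rw [h1]
          rw [mul_inv_cancel_left, hhs2] at this
          have t3 : a * r = h * (r * a) := by
            rw [this]; simp only [mul_assoc, inv_mul_cancel, mul_one]
          rw [t3, hh]
        rw [mul_assoc, h1, mul_assoc, hhs2, hhs2, ← mul_assoc c a, hca]
        have : h * (r * (a * c * r⁻¹)) = h * ((r * a) * (c * r⁻¹)) := by
          simp only [mul_assoc]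
        rw [this, h2]
        simp only [mul_assoc]
        rw [hh]
    have hc' := (hCmem c).1 hc
    exact (hCmem _).2 ⟨aux _ haP hc'.1, aux _ ha1P hc'.2⟩
  have hdec : ∀ r, ∃ q, (q = 1 ∨ q = a₀ ∨ q = a₁ ∨ q = a₂) ∧ q * r ∈ C := by
    intro r
    rcases haP r with h0 | h0 <;> rcases ha1P r with h1 | h1
    · exact ⟨1, Or.inl rfl, (hCmem _).2 ⟨by rw [one_mul, h0], by rw [one_mul, h1]⟩⟩
    · refine ⟨a₀, Or.inr (Or.inl rfl), (hCmem _).2 ⟨by rw [mul_assoc, h0], ?_⟩⟩
      rw [mul_assoc, h1, hhs2, ← mul_assoc a₀ a₁, t01, ← mul_assoc a₁ a₀, t10, mul_assoc h, hh]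
    · refine ⟨a₁, Or.inr (Or.inr (Or.inl rfl)), (hCmem _).2 ⟨?_, by rw [mul_assoc, h1]⟩⟩
      rw [mul_assoc, h0, hhs2, ← mul_assoc a₀ a₁, t01, ← mul_assoc a₁ a₀, t10, mul_assoc h]
    · refine ⟨a₂, Or.inr (Or.inr (Or.inr rfl)), (hCmem _).2 ⟨?_, ?_⟩⟩
      · rw [mul_assoc, h0, hhs2, ← mul_assoc a₀ a₂, t02, ← mul_assoc a₂ a₀, t20, mul_assoc h, hh]
      · rw [mul_assoc, h1, hhs2, ← mul_assoc a₁ a₂, t12, ← mul_assoc a₂ a₁, t21, mul_assoc h]
  by_cases hCc : C ≤ Subgroup.center G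
  · have hM : ∀ r, r ∈ Subgroup.closure ({a₀, a₁, h} : Set G) := by
      apply H.gen
      intro r
      obtain ⟨q, hq, hqr⟩ := hdec r
      have hcc := hCc hqr
      have hcz := H.Z hcc
      rw [map_mul] at hcz
      have hcomm := Subgroup.mem_center_iff.1 hcc
      have m0 : a₀ ∈ Subgroup.closure ({a₀, a₁, h} : Set G) := Subgroup.subset_closure (by simp)
      have m1 : a₁ ∈ Subgroup.closure ({a₀, a₁, h} : Set G) := Subgroup.subset_closure (by simp)
      have m2 : a₂ ∈ Subgroup.closure ({a₀, a₁, h} : Set G) := by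
        rw [← t10]; exact Subgroup.mul_mem _ m1 m0
      have e : r⁻¹ * σ r = q * (σ q)⁻¹ := by
        have e1 : σ r = (σ q)⁻¹ * (q * r) := by rw [← hcz]; group
        rw [e1, hcomm (σ q)⁻¹, ← mul_assoc, hcomm r⁻¹, mul_inv_cancel_right]
      rw [e]
      rcases hq with rfl | rfl | rfl | rfl
      · simp
      · rw [← ha1]; exact Subgroup.mul_mem _ m0 (Subgroup.inv_mem _ m1)
      · rw [← ha2]; exact Subgroup.mul_mem _ m1 (Subgroup.inv_mem _ m2)
      · rw [ha3]; exact Subgroup.mul_mem _ m2 (Subgroup.inv_mem _ m0)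
    set P : G → Prop := fun r => r = 1 ∨ r = h ∨ r = a₀ ∨ r = h * a₀ ∨ r = a₁ ∨ r = h * a₁ ∨
      r = a₂ ∨ r = h * a₂ with hP
    have Ph : ∀ r, P r → P (h * r) := by
      intro r hr
      simp only [hP] at hr ⊢
      rcases hr with rfl | rfl | rfl | rfl | rfl | rfl | rfl | rfl <;> simp [hh, H.h2]
    have P0 : ∀ r, P r → P (a₀ * r) := by
      intro r hr
      simp only [hP] at hr
      rcases hr with rfl | rfl | rfl | rfl | rfl | rfl | rfl | rfl
      · rw [mul_one]; simp [hP]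
      · rw [H.hc]; simp [hP]
      · rw [A0]; simp [hP]
      · rw [hhs2, A0, H.h2]; simp [hP]
      · rw [t01]; simp [hP]
      · rw [hhs2, t01, hh]; simp [hP]
      · rw [t02]; simp [hP]
      · rw [hhs2, t02]; simp [hP]
    have P1 : ∀ r, P r → P (a₁ * r) := by
      intro r hr
      simp only [hP] at hr
      rcases hr with rfl | rfl | rfl | rfl | rfl | rfl | rfl | rfl
      · rw [mul_one]; simp [hP]
      · rw [H.hc]; simp [hP]
      · rw [t10]; simp [hP]
      · rw [hhs2, t10]; simp [hP]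
      · rw [A1]; simp [hP]
      · rw [hhs2, A1, H.h2]; simp [hP]
      · rw [t12]; simp [hP]
      · rw [hhs2, t12, hh]; simp [hP]
    have hinv0 : a₀⁻¹ = h * a₀ := inv_eq_of_mul_eq_one_left (by rw [mul_assoc, A0, H.h2])
    have hinv1 : a₁⁻¹ = h * a₁ := inv_eq_of_mul_eq_one_left (by rw [mul_assoc, A1, H.h2])
    intro r
    have hr := hM r
    change P r
    induction hr using Subgroup.closure_induction_left with
    | one => simp [hP]
    | mul_left x hx y hy ih =>
      simp only [Set.mem_insert_iff, Set.mem_singleton_iff] at hx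
      rcases hx with rfl | rfl | rfl
      · exact P0 _ ih
      · exact P1 _ ih
      · exact Ph _ ih
    | inv_mul_cancel x hx y hy ih =>
      simp only [Set.mem_insert_iff, Set.mem_singleton_iff] at hx
      rcases hx with rfl | rfl | rfl
      · rw [hinv0, mul_assoc]; exact Ph _ (P0 _ ih)
      · rw [hinv1, mul_assoc]; exact Ph _ (P1 _ ih)
      · rw [H.hinv]; exact Ph _ ih
  · exfalso
    obtain ⟨b, hbC, hbP, s1, s2, B0⟩ := H.N C hCn hCs hCc
    have hb := (hCmem b).1 hbC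
    have hsb := (hCmem _).1 (hCs b hbC)
    have hu2 : a₀ * b * (a₀ * b) = 1 := by
      rw [mul_assoc, ← mul_assoc b, hb.1, mul_assoc, ← mul_assoc a₀, A0, B0, H.h2]
    have hsu : σ (a₀ * b) = a₁ * σ b := by rw [map_mul, ← ha1]
    have hcu : a₀ * b * σ (a₀ * b) = σ (a₀ * b) * (a₀ * b) := by
      rw [hsu]
      have e1 : a₀ * b * (a₁ * σ b) = a₀ * a₁ * (b * σ b) := by
        rw [mul_assoc, ← mul_assoc b, hb.2]; simp only [mul_assoc]
      have e2 : a₁ * σ b * (a₀ * b) = a₁ * a₀ * (σ b * b) := by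
        rw [mul_assoc, ← mul_assoc (σ b), hsb.1]; simp only [mul_assoc]
      rw [e1, e2, r1, s1, hhs2, mul_assoc h, hh]
    have hcen : ∀ g, a₀ * b * g = g * (a₀ * b) := by
      intro g
      rcases H.E hu2 (Subgroup.mul_mem _ haP hbP) hcu with h1 | h1
      · rw [h1, one_mul, mul_one]
      · rw [h1, H.hc]
    have e1 := hcen a₁
    rw [mul_assoc, hb.2, ← mul_assoc, ← mul_assoc] at e1
    have e2 := mul_right_cancel e1
    rw [r1] at e2
    exact H.h1 (mul_eq_right.1 e2.symm)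

end Q8

/-- row H3b: the group is quaternion of order eight (pure group theory). -/
theorem q8_struct {Γ : Type} [Group Γ] [Finite Γ] (R : Subgroup Γ) (hR : IsPGroup 2 R)
    (s h : Γ) (hs : s ^ 3 = 1) (hn : ∀ r ∈ R, s * r * s⁻¹ ∈ R)
    (hgen : ∀ M : Subgroup Γ, M ≤ R → (∀ r ∈ R, r⁻¹ * (s * r * s⁻¹) ∈ M) → R ≤ M)
    (hhR : h ∈ R) (hh1 : h ≠ 1) (hh2 : h * h = 1) (hhc : ∀ r ∈ R, r * h = h * r)
    (hhs : s * h = h * s)
    (hab : ∀ B : Subgroup Γ, B ≤ R → (∀ r ∈ R, ∀ b ∈ B, r * b * r⁻¹ ∈ B) →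
      (∀ b ∈ B, s * b * s⁻¹ ∈ B) → (∀ b ∈ B, b * b = 1) → ∀ b ∈ B, b = 1 ∨ b = h) :
    ∃ a₀ ∈ R, ∃ a₁ ∈ R, ∃ a₂ ∈ R, a₀ * a₀ = h ∧ a₁ * a₁ = h ∧ a₂ * a₂ = h ∧
      a₀ * a₁ * a₂ = 1 ∧ s * a₀ * s⁻¹ = a₁ ∧ s * a₁ * s⁻¹ = a₂ ∧ s * a₂ * s⁻¹ = a₀ ∧
      ∀ r ∈ R, r = 1 ∨ r = h ∨ r = a₀ ∨ r = h * a₀ ∨ r = a₁ ∨ r = h * a₁ ∨ r = a₂ ∨
        r = h * a₂ := by
  let σ : R →* R :=
    { toFun := fun r => ⟨s * r * s⁻¹, hn r r.2⟩
      map_one' := by ext; simp
      map_mul' := by intro x y; ext; simp [mul_assoc] }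
  have hσ : ∀ r : R, ((σ r : R) : Γ) = s * r * s⁻¹ := fun r => rfl
  have H : Q8Hyp σ (⟨h, hhR⟩ : R) :=
    { s3 := by
        intro g
        ext
        rw [hσ, hσ, hσ]
        have e : s * (s * (s * (g : Γ) * s⁻¹) * s⁻¹) * s⁻¹ = s ^ 3 * g * (s ^ 3)⁻¹ := by
          simp [pow_succ, mul_assoc]
        rw [e, hs]; simp
      gen := by
        intro M hM r
        have := hgen (M.map R.subtype) (by rintro x ⟨y, -, rfl⟩; exact y.2) (by
          intro r hr
          exact ⟨_, hM ⟨r, hr⟩, rfl⟩) r.2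
        obtain ⟨y, hy, hyr⟩ := this
        have : y = r := Subtype.ext hyr
        rwa [← this]
      h1 := fun e => hh1 (congrArg Subtype.val e)
      h2 := Subtype.ext hh2
      hc := fun r => Subtype.ext (hhc r r.2)
      hs := by
        ext
        rw [hσ]
        change s * h * s⁻¹ = h
        rw [hhs, mul_inv_cancel_right]
      ab := by
        intro B hB1 hB2 hB3 b hb
        have := hab (B.map R.subtype) (by rintro x ⟨y, -, rfl⟩; exact y.2) (by
          rintro r hr x ⟨y, hy, rfl⟩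
          exact ⟨_, hB1 ⟨r, hr⟩ y hy, rfl⟩) (by
          rintro x ⟨y, hy, rfl⟩
          exact ⟨_, hB2 y hy, rfl⟩) (by
          rintro x ⟨y, hy, rfl⟩
          exact congrArg Subtype.val (hB3 y hy)) b ⟨b, hb, rfl⟩
        rcases this with h1 | h1
        · left; exact Subtype.ext h1
        · right; exact Subtype.ext h1
      pg := hR }
  obtain ⟨a₀, a₁, a₂, A0, A1, A2, r2, h0, h1, h2, hall⟩ := H.main
  refine ⟨a₀, a₀.2, a₁, a₁.2, a₂, a₂.2, congrArg Subtype.val A0, congrArg Subtype.val A1,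
    congrArg Subtype.val A2, congrArg Subtype.val r2, congrArg Subtype.val h0,
    congrArg Subtype.val h1, congrArg Subtype.val h2, ?_⟩
  intro r hr
  rcases hall ⟨r, hr⟩ with e | e | e | e | e | e | e | e
  · left; exact congrArg Subtype.val e
  · right; left; exact congrArg Subtype.val e
  · right; right; left; exact congrArg Subtype.val e
  · right; right; right; left; exact congrArg Subtype.val e
  · right; right; right; right; left; exact congrArg Subtype.val e
  · right; right; right; right; right; left; exact congrArg Subtype.val e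
  · right; right; right; right; right; right; left; exact congrArg Subtype.val e
  · right; right; right; right; right; right; right; exact congrArg Subtype.val e

end SYL2
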