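import Pool.Agent.SYL2.Defs

set_option autoImplicit false
set_option linter.unusedSimpArgs false

/-! # SYL2 row H3c: the final identity in characteristic three -/

namespace SYL2

section H3

variable {W : Type} [AddCommGroup W] [Module (ZMod 3) W]

/-- the pointwise form: `a₀, a₁, a₂` are additive maps with the quaternion relations, `s`
permutes them cyclically. -/
theorem q8_aux (s a₀ a₁ a₂ : W →ₗ[ZMod 3] W) (hs : ∀ w, s (s (s w)) = w)
    (h0 : ∀ w, a₀ (a₀ w) = -w) (h1 : ∀ w, a₁ (a₁ w) = -w) (h2 : ∀ w, a₂ (a₂ w) = -w)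
    (h012 : ∀ w, a₀ (a₁ (a₂ w)) = w)
    (hs0 : ∀ w, s (a₀ w) = a₁ (s w)) (hs1 : ∀ w, s (a₁ w) = a₂ (s w))
    (hs2 : ∀ w, s (a₂ w) = a₀ (s w))
    (hstar : ∀ w : W, s (s w - w) = s w - w ∨ s (a₀ (s w - w)) = a₀ (s w - w) ∨
      s (a₁ (s w - w)) = a₁ (s w - w) ∨ s (a₂ (s w - w)) = a₂ (s w - w)) :
    ∀ w : W, s (s w) - s w - (s w - w) = 0 := by
  have h3 : ∀ x : W, x + x + x = 0 := by
    intro x
    have : (3 : ZMod 3) • x = 0 := by
      have : (3 : ZMod 3) = 0 := by decide
      rw [this, zero_smul]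
    calc x + x + x = (3 : ZMod 3) • x := by module
      _ = 0 := this
  -- multiplication table
  have m12 : ∀ w, a₁ (a₂ w) = -(a₀ w) := by
    intro w
    have := congrArg a₀ (h012 w)
    rw [h0] at this
    rw [← this, neg_neg]
  have m01 : ∀ w, a₀ (a₁ w) = -(a₂ w) := by
    intro w
    have := h012 (a₂ w)
    rw [h2, map_neg, map_neg] at this
    rw [← this, neg_neg]
  have m20 : ∀ w, a₂ (a₀ w) = -(a₁ w) := by
    intro w
    -- a₀ (a₁ (a₂ (a₀ w))) = a₀ w, cancel a₀
    have e := h012 (a₀ w)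
    have e1 : a₁ (a₂ (a₀ w)) = w := by
      have := congrArg a₀ e
      rw [h0, h0] at this
      exact neg_injective this
    have e2 := congrArg a₁ e1
    rw [h1] at e2
    rw [← e2, neg_neg]
  have m21 : ∀ w, a₂ (a₁ w) = a₀ w := by
    intro w
    have := m20 (a₀ w)
    rw [h0, map_neg] at this
    -- -(a₂ w) = -(a₁ (a₀ w)), so a₂ w = a₁ (a₀ w)
    have e : ∀ w, a₁ (a₀ w) = a₂ w := by
      intro w
      have := m20 (a₀ w)
      rw [h0, map_neg] at this
      exact (neg_injective this).symm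
    have e2 := m01 (a₁ w)
    rw [h1, map_neg] at e2
    exact (neg_injective e2).symm
  have m10 : ∀ w, a₁ (a₀ w) = a₂ w := by
    intro w
    have := m20 (a₀ w)
    rw [h0, map_neg] at this
    exact (neg_injective this).symm
  have m02 : ∀ w, a₀ (a₂ w) = a₁ w := by
    intro w
    have := m12 (a₂ w)
    rw [h2, map_neg] at this
    exact (neg_injective this).symm
  -- the element u
  set u : W →ₗ[ZMod 3] W := a₀ + a₁ + a₂ with hu
  have uap : ∀ w, u w = a₀ w + a₁ w + a₂ w := fun w => by simp [hu]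
  have uu : ∀ w, u (u w) = 0 := by
    intro w
    rw [uap (u w), uap w]
    simp only [map_add, h0, h1, h2, m12, m01, m20, m21, m10, m02]
    linear_combination (norm := module) (-1 : ZMod 3) • h3 w
  have ua0 : ∀ w, u (a₀ w) + a₀ (u w) = w := by
    intro w
    rw [uap (a₀ w), uap w]
    simp only [map_add, h0, h1, h2, m12, m01, m20, m21, m10, m02]
    linear_combination (norm := module) (-1 : ZMod 3) • h3 w
  have ua1 : ∀ w, u (a₁ w) + a₁ (u w) = w := by
    intro w
    rw [uap (a₁ w), uap w]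
    simp only [map_add, h0, h1, h2, m12, m01, m20, m21, m10, m02]
    linear_combination (norm := module) (-1 : ZMod 3) • h3 w
  have ua2 : ∀ w, u (a₂ w) + a₂ (u w) = w := by
    intro w
    rw [uap (a₂ w), uap w]
    simp only [map_add, h0, h1, h2, m12, m01, m20, m21, m10, m02]
    linear_combination (norm := module) (-1 : ZMod 3) • h3 w
  have su : ∀ w, s (u w) = u (s w) := by
    intro w
    rw [uap w, uap (s w)]
    simp only [map_add, hs0, hs1, hs2]
    abel
  -- n = (1 + u) s - 1
  set n : W →ₗ[ZMod 3] W := s + u.comp s - LinearMap.id with hn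
  have nap : ∀ w, n w = s w + u (s w) - w := fun w => by simp [hn]
  have sap : ∀ w, s w = w + n w - u w - u (n w) := by
    intro w
    rw [nap w]
    simp only [map_add, map_sub, uu]
    module
  have nu : ∀ w, n (u w) = u (n w) := by
    intro w
    rw [nap, nap]
    simp only [map_add, map_sub, su, uu]
  have na0 : ∀ w, n (a₀ w) = a₀ (n w) := by
    intro w
    rw [nap, nap]
    simp only [map_add, map_sub, hs0]
    rw [uap (a₁ (s w)), uap (s w)]
    simp only [map_add, h0, h1, h2, m12, m01, m20, m21, m10, m02]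
    module
  have na1 : ∀ w, n (a₁ w) = a₁ (n w) := by
    intro w
    rw [nap, nap]
    simp only [map_add, map_sub, hs1]
    rw [uap (a₂ (s w)), uap (s w)]
    simp only [map_add, h0, h1, h2, m12, m01, m20, m21, m10, m02]
    module
  have na2 : ∀ w, n (a₂ w) = a₂ (n w) := by
    intro w
    rw [nap, nap]
    simp only [map_add, map_sub, hs2]
    rw [uap (a₀ (s w)), uap (s w)]
    simp only [map_add, h0, h1, h2, m12, m01, m20, m21, m10, m02]
    module
  have nnn : ∀ w, n (n (n w)) = 0 := by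
    intro w
    simp only [nap, map_add, map_sub, su, uu, hs, map_zero]
    linear_combination (norm := module) h3 (s w) - h3 (s (s w)) + h3 (u w) + h3 (u (s w)) -
      h3 (u (s (s w))) - h3 (u (s (s w)))
  -- the key step
  have key : ∀ a : W →ₗ[ZMod 3] W, (∀ w, a (a w) = -w) → (∀ w, u (a w) + a (u w) = w) →
      (∀ w, n (a w) = a (n w)) → ∀ b, n (n b) = 0 → s (a (s b - b)) = a (s b - b) →
      u (n b) = 0 := by
    intro a haa hua hna b hb hst
    have e1 : s b - b = n b - u b - u (n b) := by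
      rw [sap b]; module
    rw [e1, sap] at hst
    simp only [map_add, map_sub, hna, nu, hb, map_zero] at hst
    have e2 : ∀ x, u (a x) = x - a (u x) := fun x => eq_sub_of_add_eq (hua x)
    simp only [e2, uu, map_zero, map_sub] at hst
    have e3 : n b - u b - u (n b) - u (n b) = 0 := by
      linear_combination (norm := module) (-1 : ZMod 3) • hst
    have e4 := congrArg u e3
    simp only [map_sub, uu, map_zero, sub_zero] at e4
    exact e4
  have step : ∀ b, n (n b) = 0 → u (n b) = 0 := by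
    intro b hb
    rcases hstar b with h | h | h | h
    · have e1 : s b - b = n b - u b - u (n b) := by
        rw [sap b]; module
      rw [e1, sap] at h
      simp only [map_add, map_sub, nu, hb, map_zero, uu] at h
      linear_combination (norm := module) h + h3 (u (n b))
    · exact key a₀ h0 ua0 na0 b hb h
    · exact key a₁ h1 ua1 na1 b hb h
    · exact key a₂ h2 ua2 na2 b hb h
  have step2 : ∀ b, n (n b) = 0 → n b = 0 := by
    intro b hb
    have e1 := step b hb
    have e2 := step (a₀ b) (by rw [na0, na0, hb, map_zero])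
    rw [na0] at e2
    have e3 := ua0 (n b)
    rw [e2, e1, map_zero, add_zero] at e3
    exact e3.symm
  have n0 : ∀ b, n b = 0 := by
    intro b
    exact step2 b (step2 (n b) (nnn b))
  intro w
  have e : ∀ w, s w = w - u w := by
    intro w
    rw [sap w, n0, map_zero]
    module
  rw [e (s w), e w]
  simp only [map_sub, uu]
  module

variable [Finite W]

omit [Finite W] in
/-- row H3c: the final identity in characteristic three. -/
theorem q8_algebra (s a₀ a₁ a₂ : W ≃ₗ[ZMod 3] W) (hs : s ^ 3 = 1)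
    (h0 : ∀ w, a₀ (a₀ w) = -w) (h1 : ∀ w, a₁ (a₁ w) = -w) (h2 : ∀ w, a₂ (a₂ w) = -w)
    (h012 : a₀ * a₁ * a₂ = 1) (hs0 : s * a₀ * s⁻¹ = a₁) (hs1 : s * a₁ * s⁻¹ = a₂)
    (hs2 : s * a₂ * s⁻¹ = a₀)
    (hstar : ∀ w : W, ∃ r : W ≃ₗ[ZMod 3] W, (r = 1 ∨ r = a₀ ∨ r = a₁ ∨ r = a₂) ∧
      (r⁻¹ * s * r) (s w - w) = s w - w) :
    ∀ w : W, s (s w) - s w - (s w - w) = 0 := by
  have conv : ∀ a b : W ≃ₗ[ZMod 3] W, s * a * s⁻¹ = b → ∀ w, s (a w) = b (s w) := by
    intro a b hab w
    have : s * a = b * s := by rw [← hab]; group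
    exact congrArg (fun f : W ≃ₗ[ZMod 3] W => f w) this
  refine q8_aux (s : W →ₗ[ZMod 3] W) a₀ a₁ a₂ ?_ h0 h1 h2 ?_ (conv _ _ hs0) (conv _ _ hs1)
    (conv _ _ hs2) ?_
  · intro w
    have := congrArg (fun f : W ≃ₗ[ZMod 3] W => f w) hs
    exact this
  · intro w
    have := congrArg (fun f : W ≃ₗ[ZMod 3] W => f w) h012
    exact this
  · intro w
    obtain ⟨r, hr, hrw⟩ := hstar w
    have e : s (r (s w - w)) = r (s w - w) := by
      have e1 := congrArg r hrw
      have e2 : r ((r⁻¹ * s * r) (s w - w)) = (r * (r⁻¹ * s * r)) (s w - w) := rfl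
      have e3 : r * (r⁻¹ * s * r) = s * r := by group
      rw [e2, e3] at e1
      exact e1
    rcases hr with rfl | rfl | rfl | rfl
    · exact Or.inl e
    · exact Or.inr (Or.inl e)
    · exact Or.inr (Or.inr (Or.inl e))
    · exact Or.inr (Or.inr (Or.inr e))

end H3

end SYL2
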