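import Pool.Agent.SYL2.Defs

set_option autoImplicit false

/-! # SYL2, row M1 (helper12): decomposition along minimal fixed spaces -/

namespace SYL2

namespace M1

section Basic

variable {p : ℕ} {Γ W : Type} [Group Γ] [AddCommGroup W] [Module (ZMod p) W]
  (ρ : Representation (ZMod p) Γ W)

theorem rmul (a b : Γ) (w : W) : ρ (a * b) w = ρ a (ρ b w) := by
  rw [map_mul]; rfl

theorem rone (w : W) : ρ 1 w = w := by
  rw [_root_.map_one]; rfl

theorem rinv_self (a : Γ) (w : W) : ρ a⁻¹ (ρ a w) = w := by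
  rw [← rmul, inv_mul_cancel, rone]

theorem rself_inv (a : Γ) (w : W) : ρ a (ρ a⁻¹ w) = w := by
  rw [← rmul, mul_inv_cancel, rone]

theorem rinj (a : Γ) : Function.Injective (ρ a) := by
  intro u v h
  rw [← rinv_self ρ a u, h, rinv_self]

theorem mem_Fx {N : Subgroup Γ} {w : W} : w ∈ Fx ρ N ↔ ∀ n ∈ N, ρ n w = w := Iff.rfl

/-- the conjugate `g N g⁻¹`. -/
def cj (g : Γ) (N : Subgroup Γ) : Subgroup Γ := N.comap (MulAut.conj g⁻¹).toMonoidHom

theorem mem_cj {g : Γ} {N : Subgroup Γ} {y : Γ} : y ∈ cj g N ↔ g⁻¹ * y * g ∈ N := by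
  unfold cj
  rw [Subgroup.mem_comap]
  simp

theorem fx_cj (g : Γ) (N : Subgroup Γ) : (Fx ρ N).map (ρ g) = Fx ρ (cj g N) := by
  ext w
  rw [Submodule.mem_map]
  constructor
  · rintro ⟨v, hv, rfl⟩ n hn
    rw [mem_cj] at hn
    have h1 := hv _ hn
    rw [← rmul]
    have e : n * g = g * (g⁻¹ * n * g) := by group
    rw [e, rmul, h1]
  · intro hw
    refine ⟨ρ g⁻¹ w, ?_, rself_inv ρ g w⟩
    intro n hn
    have h1 : g * n * g⁻¹ ∈ cj g N := by
      rw [mem_cj]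
      have e : g⁻¹ * (g * n * g⁻¹) * g = n := by group
      rw [e]
      exact hn
    have h2 := hw _ h1
    rw [← rmul]
    have e : n * g⁻¹ = g⁻¹ * (g * n * g⁻¹) := by group
    rw [e, rmul, h2]

theorem nin_cj {N X : Subgroup Γ} (h : NIn N X) {g : Γ} (hg : ∀ x, x ∈ X ↔ g * x * g⁻¹ ∈ X) :
    NIn (cj g N) X := by
  constructor
  · intro y hy
    rw [mem_cj] at hy
    have h1 := (hg _).1 (h.1 hy)
    have e : g * (g⁻¹ * y * g) * g⁻¹ = y := by group
    rwa [e] at h1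
  · intro x hx n hn
    rw [mem_cj] at hn ⊢
    have h1 : g⁻¹ * x * g ∈ X := by
      rw [hg]
      have e : g * (g⁻¹ * x * g) * g⁻¹ = x := by group
      rwa [e]
    have h2 := h.2 _ h1 _ hn
    have e : g⁻¹ * x * g * (g⁻¹ * n * g) * (g⁻¹ * x * g)⁻¹ = g⁻¹ * (x * n * x⁻¹) * g := by
      group
    rwa [e] at h2

theorem hg_inv {X : Subgroup Γ} {g : Γ} (hg : ∀ x, x ∈ X ↔ g * x * g⁻¹ ∈ X) :
    ∀ x, x ∈ X ↔ g⁻¹ * x * g⁻¹⁻¹ ∈ X := by
  intro x
  rw [hg (g⁻¹ * x * g⁻¹⁻¹)]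
  have e : g * (g⁻¹ * x * g⁻¹⁻¹) * g⁻¹ = x := by group
  rw [e]

theorem cj_cj_inv (g : Γ) (N : Subgroup Γ) : cj g (cj g⁻¹ N) = N := by
  ext y
  rw [mem_cj, mem_cj]
  have e : g⁻¹⁻¹ * (g⁻¹ * y * g) * g⁻¹ = y := by group
  rw [e]

theorem map_rho_inf (g : Γ) (A B : Submodule (ZMod p) W) :
    (A ⊓ B).map (ρ g) = A.map (ρ g) ⊓ B.map (ρ g) :=
  Submodule.map_inf _ (rinj ρ g)

theorem map_rho_eq_bot {g : Γ} {A : Submodule (ZMod p) W} : A.map (ρ g) = ⊥ ↔ A = ⊥ := by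
  constructor
  · intro h
    rw [eq_bot_iff]
    intro a ha
    have h1 : ρ g a ∈ A.map (ρ g) := Submodule.mem_map_of_mem ha
    rw [h, Submodule.mem_bot] at h1
    rw [Submodule.mem_bot]
    apply rinj ρ g
    rw [h1, map_zero]
  · rintro rfl
    exact Submodule.map_bot _

theorem nin_bot (X : Subgroup Γ) : NIn (⊥ : Subgroup Γ) X := by
  refine ⟨bot_le, fun x _ n hn => ?_⟩
  rw [Subgroup.mem_bot] at hn ⊢
  rw [hn]
  group

theorem fx_bot : Fx ρ (⊥ : Subgroup Γ) = ⊤ := by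
  rw [eq_top_iff]
  intro w _ n hn
  rw [Subgroup.mem_bot] at hn
  rw [hn, rone]

theorem nin_sup {N M X : Subgroup Γ} (hN : NIn N X) (hM : NIn M X) : NIn (N ⊔ M) X := by
  refine ⟨sup_le hN.1 hM.1, fun x hx n hn => ?_⟩
  have h : N ⊔ M ≤ cj x⁻¹ (N ⊔ M) := by
    apply sup_le
    · intro y hy
      rw [mem_cj]
      apply (le_sup_left : N ≤ N ⊔ M)
      have := hN.2 x hx y hy
      simpa using this
    · intro y hy
      rw [mem_cj]
      apply (le_sup_right : M ≤ N ⊔ M)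
      have := hM.2 x hx y hy
      simpa using this
  have h1 := h hn
  rw [mem_cj] at h1
  simpa using h1

/-- the stabiliser of a vector. -/
def stb (w : W) : Subgroup Γ where
  carrier := {g | ρ g w = w}
  mul_mem' := by
    intro a b ha hb
    change ρ (a * b) w = w
    rw [rmul, hb, ha]
  one_mem' := rone ρ w
  inv_mem' := by
    intro a ha
    have ha' : ρ a w = w := ha
    change ρ a⁻¹ w = w
    have := rinv_self ρ a w
    rwa [ha'] at this

theorem mem_Fx_iff_le {N : Subgroup Γ} {w : W} : w ∈ Fx ρ N ↔ N ≤ stb ρ w := Iff.rfl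

theorem fx_sup (N M : Subgroup Γ) : Fx ρ (N ⊔ M) = Fx ρ N ⊓ Fx ρ M := by
  ext w
  rw [Submodule.mem_inf, mem_Fx_iff_le, mem_Fx_iff_le, mem_Fx_iff_le, sup_le_iff]

end Basic

section Avg

variable {p : ℕ} [Fact p.Prime] {Γ W : Type} [Group Γ] [Finite Γ] [AddCommGroup W]
  [Module (ZMod p) W] (ρ : Representation (ZMod p) Γ W)

/-- the elements of `N` as a finset. -/
noncomputable def fs (N : Subgroup Γ) : Finset Γ := (Set.toFinite (N : Set Γ)).toFinset

theorem mem_fs {N : Subgroup Γ} {x : Γ} : x ∈ fs N ↔ x ∈ N := by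
  unfold fs
  rw [Set.Finite.mem_toFinset]
  exact Iff.rfl

theorem card_fs (N : Subgroup Γ) : (fs N).card = Nat.card N := by
  unfold fs
  have h1 : (N : Set Γ).ncard = (Set.toFinite (N : Set Γ)).toFinset.card :=
    Set.ncard_eq_toFinset_card _ _
  rw [← h1]
  rfl

/-- averaging over `N`. -/
noncomputable def avg (N : Subgroup Γ) : W →ₗ[ZMod p] W :=
  ((Nat.card N : ZMod p)⁻¹) • ∑ n ∈ fs N, ρ n

theorem avg_apply (N : Subgroup Γ) (w : W) :
    avg ρ N w = ((Nat.card N : ZMod p)⁻¹) • ∑ n ∈ fs N, ρ n w := by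
  unfold avg
  rw [LinearMap.smul_apply, LinearMap.sum_apply]

theorem card_ne {N : Subgroup Γ} (hN : (Nat.card N).Coprime p) : (Nat.card N : ZMod p) ≠ 0 := by
  intro h
  rw [ZMod.natCast_eq_zero_iff] at h
  have hp : p.Prime := Fact.out
  exact (hp.coprime_iff_not_dvd.1 hN.symm) h

theorem avg_fix {N : Subgroup Γ} (hN : (Nat.card N).Coprime p) {w : W} (hw : w ∈ Fx ρ N) :
    avg ρ N w = w := by
  rw [avg_apply]
  have h1 : ∑ n ∈ fs N, ρ n w = ∑ n ∈ fs N, w := by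
    apply Finset.sum_congr rfl
    intro n hn
    exact hw n (mem_fs.1 hn)
  rw [h1, Finset.sum_const, card_fs, ← Nat.cast_smul_eq_nsmul (ZMod p), smul_smul,
    inv_mul_cancel₀ (card_ne hN), one_smul]

theorem avg_conj (g : Γ) {N M : Subgroup Γ} (h : ∀ x, x ∈ N ↔ g * x * g⁻¹ ∈ M) (w : W) :
    ρ g (avg ρ N w) = avg ρ M (ρ g w) := by
  have hc : Nat.card N = Nat.card M := by
    rw [← card_fs, ← card_fs]
    apply Finset.card_bij (fun x _ => g * x * g⁻¹)
    · intro x hx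
      rw [mem_fs] at hx ⊢
      exact (h x).1 hx
    · intro x _ y _ hxy
      simpa using hxy
    · intro y hy
      rw [mem_fs] at hy
      refine ⟨g⁻¹ * y * g, ?_, by group⟩
      rw [mem_fs, h]
      have e : g * (g⁻¹ * y * g) * g⁻¹ = y := by group
      rwa [e]
  rw [avg_apply, avg_apply, map_smul, map_sum, hc]
  congr 1
  apply Finset.sum_bij (fun x _ => g * x * g⁻¹)
  · intro x hx
    rw [mem_fs] at hx ⊢
    exact (h x).1 hx
  · intro x _ y _ hxy
    simpa using hxy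
  · intro y hy
    rw [mem_fs] at hy
    refine ⟨g⁻¹ * y * g, ?_, by group⟩
    rw [mem_fs, h]
    have e : g * (g⁻¹ * y * g) * g⁻¹ = y := by group
    rwa [e]
  · intro x _
    rw [← rmul, ← rmul]
    congr 1
    have e : g * x * g⁻¹ * g = g * x := by group
    rw [e]

theorem rho_avg {N : Subgroup Γ} {m : Γ} (hm : m ∈ N) (w : W) :
    ρ m (avg ρ N w) = avg ρ N w := by
  rw [avg_apply, map_smul, map_sum]
  congr 1
  apply Finset.sum_bij (fun x _ => m * x)
  · intro x hx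
    rw [mem_fs] at hx ⊢
    exact N.mul_mem hm hx
  · intro x _ y _ hxy
    exact mul_left_cancel hxy
  · intro y hy
    rw [mem_fs] at hy
    refine ⟨m⁻¹ * y, ?_, by group⟩
    rw [mem_fs]
    exact N.mul_mem (N.inv_mem hm) hy
  · intro x _
    rw [rmul]

theorem avg_mem_Fx (N : Subgroup Γ) (w : W) : avg ρ N w ∈ Fx ρ N := by
  intro m hm
  exact rho_avg ρ hm w

theorem avg_mem {N : Subgroup Γ} {U : Submodule (ZMod p) W} (hU : Inv ρ N U) {w : W}
    (hw : w ∈ U) : avg ρ N w ∈ U := by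
  rw [avg_apply]
  apply U.smul_mem
  apply U.sum_mem
  intro n hn
  exact hU n (mem_fs.1 hn) w hw

theorem avg_comm {N M : Subgroup Γ} (h : ∀ x ∈ M, ∀ n ∈ N, x * n * x⁻¹ ∈ N) (w : W) :
    avg ρ M (avg ρ N w) = avg ρ N (avg ρ M w) := by
  rw [avg_apply ρ M (avg ρ N w), avg_apply ρ M w, map_smul, map_sum]
  congr 1
  apply Finset.sum_congr rfl
  intro m hm
  rw [mem_fs] at hm
  apply avg_conj
  intro x
  constructor
  · intro hx
    exact h m hm x hx
  · intro hx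
    have h1 := h m⁻¹ (M.inv_mem hm) _ hx
    have e : m⁻¹ * (m * x * m⁻¹) * m⁻¹⁻¹ = x := by group
    rwa [e] at h1

end Avg

end M1

open M1

section Mod

variable {p : ℕ} [Fact p.Prime] {Γ W : Type} [Group Γ] [Finite Γ] [AddCommGroup W]
  [Module (ZMod p) W] [Finite W] (ρ : Representation (ZMod p) Γ W)

theorem MF_exists {X : Subgroup Γ} {U : Submodule (ZMod p) W} (hU : Inv ρ X U) (h0 : U ≠ ⊥) :
    ∃ A, MF ρ X U A := by
  classical
  let S : Set (Submodule (ZMod p) W) := {A | A ≠ ⊥ ∧ ∃ N, NIn N X ∧ A = U ⊓ Fx ρ N}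
  have hS : S.Nonempty := by
    refine ⟨U, h0, ⊥, nin_bot X, ?_⟩
    rw [fx_bot, inf_top_eq]
  haveI : Finite (Submodule (ZMod p) W) := inferInstance
  obtain ⟨A, hA⟩ := (Set.toFinite S).exists_minimal hS
  obtain ⟨hA0, N, hN, hAN⟩ := hA.prop
  refine ⟨A, hA0, ⟨N, hN, hAN⟩, ?_⟩
  intro M hM
  by_cases hb : A ⊓ Fx ρ M = ⊥
  · exact Or.inl hb
  · right
    have h1 : A ⊓ Fx ρ M ∈ S := by
      refine ⟨hb, N ⊔ M, nin_sup hN hM, ?_⟩
      rw [fx_sup, hAN, inf_assoc]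
    have h2 : A ≤ A ⊓ Fx ρ M := hA.le_of_le h1 inf_le_left
    exact h2.trans inf_le_right

theorem MF_conj {X : Subgroup Γ} {U A : Submodule (ZMod p) W} (h : MF ρ X U A) {g : Γ}
    (hg : ∀ x, x ∈ X ↔ g * x * g⁻¹ ∈ X) (hgU : U.map (ρ g) = U) :
    MF ρ X U (A.map (ρ g)) := by
  obtain ⟨hA0, ⟨N, hN, hAN⟩, hE⟩ := h
  refine ⟨?_, ⟨cj g N, nin_cj hN hg, ?_⟩, ?_⟩
  · intro h
    exact hA0 ((map_rho_eq_bot ρ).1 h)
  · rw [hAN, map_rho_inf, hgU, fx_cj]
  · intro M hM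
    have hM' : NIn (cj g⁻¹ M) X := nin_cj hM (hg_inv hg)
    rcases hE _ hM' with h | h
    · left
      have h1 : (A ⊓ Fx ρ (cj g⁻¹ M)).map (ρ g) = ⊥ := (map_rho_eq_bot ρ).2 h
      rw [map_rho_inf, fx_cj, cj_cj_inv] at h1
      exact h1
    · right
      have h1 := Submodule.map_mono (f := ρ g) h
      rw [fx_cj, cj_cj_inv] at h1
      exact h1

theorem MF_inv {X : Subgroup Γ} {U A : Submodule (ZMod p) W} (hU : Inv ρ X U)
    (h : MF ρ X U A) : Inv ρ X A := by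
  obtain ⟨_, ⟨N, hN, rfl⟩, _⟩ := h
  intro x hx u hu
  refine ⟨hU x hx u hu.1, ?_⟩
  intro n hn
  have h1 := hN.2 x⁻¹ (X.inv_mem hx) n hn
  have h2 := hu.2 _ h1
  have e : n * x = x * (x⁻¹ * n * x⁻¹⁻¹) := by group
  rw [← rmul, e, rmul, h2]

theorem dec {X : Subgroup Γ} (hX : (Nat.card X).Coprime p) {U : Submodule (ZMod p) W}
    (hU : Inv ρ X U) (𝒰 : Set (Submodule (ZMod p) W)) (h𝒰 : ∀ A ∈ 𝒰, MF ρ X U A) :
    sSupIndep 𝒰 ∧ ∃ U' : Submodule (ZMod p) W, U' ≤ U ∧ Inv ρ X U' ∧ sSup 𝒰 ⊓ U' = ⊥ ∧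
      sSup 𝒰 ⊔ U' = U ∧ ∀ g : Γ, (∀ x, x ∈ X ↔ g * x * g⁻¹ ∈ X) → U.map (ρ g) = U →
        (∀ A ∈ 𝒰, A.map (ρ g) ∈ 𝒰) → U'.map (ρ g) = U' := by
  classical
  -- choose the normal subgroups
  have hch : ∀ A : Submodule (ZMod p) W, ∃ N : Subgroup Γ, A ∈ 𝒰 → NIn N X ∧ A = U ⊓ Fx ρ N := by
    intro A
    by_cases hA : A ∈ 𝒰
    · obtain ⟨N, hN⟩ := (h𝒰 A hA).2.1
      exact ⟨N, fun _ => hN⟩
    · exact ⟨⊥, fun h => absurd h hA⟩
  choose N hN using hch
  have hcop : ∀ A ∈ 𝒰, (Nat.card (N A)).Coprime p := by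
    intro A hA
    exact Nat.Coprime.coprime_dvd_left (Subgroup.card_dvd_of_le (hN A hA).1.1) hX
  have hInv : ∀ {V : Submodule (ZMod p) W}, Inv ρ X V → ∀ A ∈ 𝒰, Inv ρ (N A) V := by
    intro V hV A hA n hn u hu
    exact hV n ((hN A hA).1.1 hn) u hu
  -- image of the averaging
  have himg : ∀ A ∈ 𝒰, ∀ u ∈ U, avg ρ (N A) u ∈ A := by
    intro A hA u hu
    have h1 : avg ρ (N A) u ∈ U ⊓ Fx ρ (N A) :=
      ⟨avg_mem ρ (hInv hU A hA) hu, avg_mem_Fx ρ _ _⟩
    rw [← (hN A hA).2] at h1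
    exact h1
  have hfx : ∀ A ∈ 𝒰, A ≤ Fx ρ (N A) := by
    intro A hA
    have h1 := (hN A hA).2
    calc A = U ⊓ Fx ρ (N A) := h1
      _ ≤ Fx ρ (N A) := inf_le_right
  have hleU : ∀ A ∈ 𝒰, A ≤ U := by
    intro A hA
    have h1 := (hN A hA).2
    calc A = U ⊓ Fx ρ (N A) := h1
      _ ≤ U := inf_le_left
  have hid : ∀ A ∈ 𝒰, ∀ a ∈ A, avg ρ (N A) a = a := by
    intro A hA a ha
    exact avg_fix ρ (hcop A hA) (hfx A hA ha)
  -- different members meet trivially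
  have hne : ∀ A ∈ 𝒰, ∀ B ∈ 𝒰, A ≠ B → A ⊓ B = ⊥ := by
    intro A hA B hB hAB
    rcases (h𝒰 A hA).2.2 _ (hN B hB).1 with h | h
    · rw [eq_bot_iff]
      intro x hx
      have h1 : x ∈ A ⊓ Fx ρ (N B) := ⟨hx.1, hfx B hB hx.2⟩
      rw [h] at h1
      exact h1
    · have hle : A ≤ B := by
        rw [(hN B hB).2]
        exact le_inf (hleU A hA) h
      exfalso
      rcases (h𝒰 B hB).2.2 _ (hN A hA).1 with h' | h'
      · have h1 : A ≤ B ⊓ Fx ρ (N A) := le_inf hle (hfx A hA)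
        rw [h'] at h1
        exact (h𝒰 A hA).1 (le_bot_iff.1 h1)
      · apply hAB
        apply le_antisymm hle
        rw [(hN A hA).2]
        exact le_inf (hleU B hB) h'
  have hkill : ∀ A ∈ 𝒰, ∀ B ∈ 𝒰, A ≠ B → ∀ b ∈ B, avg ρ (N A) b = 0 := by
    intro A hA B hB hAB b hb
    have h1 : avg ρ (N A) b ∈ A ⊓ B :=
      ⟨himg A hA b (hleU B hB hb), avg_mem ρ (hInv (MF_inv ρ hU (h𝒰 B hB)) A hA) hb⟩
    rw [hne A hA B hB hAB] at h1
    exact (Submodule.mem_bot _).1 h1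
  haveI : Finite (Submodule (ZMod p) W) := inferInstance
  have hfin : 𝒰.Finite := Set.toFinite 𝒰
  let P : W →ₗ[ZMod p] W := ∑ A ∈ hfin.toFinset, avg ρ (N A)
  have hPapp : ∀ w, P w = ∑ A ∈ hfin.toFinset, avg ρ (N A) w := by
    intro w
    exact LinearMap.sum_apply _ _ _
  have hPA : ∀ A ∈ 𝒰, ∀ a ∈ A, P a = a := by
    intro A hA a ha
    rw [hPapp, Finset.sum_eq_single A]
    · exact hid A hA a ha
    · intro B hB hBA
      exact hkill B (hfin.mem_toFinset.1 hB) A hA hBA a ha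
    · intro h
      exact absurd (hfin.mem_toFinset.2 hA) h
  have hPid : ∀ v ∈ sSup 𝒰, P v = v := by
    have h1 : sSup 𝒰 ≤ LinearMap.eqLocus P (LinearMap.id) := by
      apply sSup_le
      intro A hA a ha
      exact hPA A hA a ha
    intro v hv
    exact h1 hv
  have hPmem : ∀ u ∈ U, P u ∈ sSup 𝒰 := by
    intro u hu
    rw [hPapp]
    apply Submodule.sum_mem
    intro A hA
    rw [hfin.mem_toFinset] at hA
    exact (le_sSup hA : A ≤ sSup 𝒰) (himg A hA u hu)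
  have hind : sSupIndep 𝒰 := by
    intro A hA
    rw [Submodule.disjoint_def]
    intro x hx hx'
    have h1 : sSup (𝒰 \ {A}) ≤ LinearMap.ker (avg ρ (N A)) := by
      apply sSup_le
      intro B hB b hb
      rw [LinearMap.mem_ker]
      exact hkill A hA B hB.1 (fun h => hB.2 h.symm) b hb
    have h2 := h1 hx'
    rw [LinearMap.mem_ker, hid A hA x hx] at h2
    exact h2
  let U' : Submodule (ZMod p) W := U ⊓ ⨅ A ∈ 𝒰, LinearMap.ker (avg ρ (N A))
  have hmemU' : ∀ {u : W}, u ∈ U' ↔ u ∈ U ∧ ∀ A ∈ 𝒰, avg ρ (N A) u = 0 := by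
    intro u
    change u ∈ U ⊓ ⨅ A ∈ 𝒰, LinearMap.ker (avg ρ (N A)) ↔ _
    rw [Submodule.mem_inf]
    simp only [Submodule.mem_iInf, LinearMap.mem_ker]
  refine ⟨hind, U', inf_le_left, ?_, ?_, ?_, ?_⟩
  · intro x hx u hu
    rw [hmemU'] at hu ⊢
    refine ⟨hU x hx u hu.1, fun A hA => ?_⟩
    have h1 : ρ x (avg ρ (N A) u) = avg ρ (N A) (ρ x u) := by
      apply avg_conj
      intro y
      constructor
      · intro hy
        exact (hN A hA).1.2 x hx y hy
      · intro hy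
        have h1 := (hN A hA).1.2 x⁻¹ (X.inv_mem hx) _ hy
        have e : x⁻¹ * (x * y * x⁻¹) * x⁻¹⁻¹ = y := by group
        rwa [e] at h1
    rw [← h1, hu.2 A hA, map_zero]
  · rw [eq_bot_iff]
    intro v hv
    have h1 := hPid v hv.1
    have h2 : P v = 0 := by
      rw [hPapp]
      apply Finset.sum_eq_zero
      intro A hA
      exact (hmemU'.1 hv.2).2 A (hfin.mem_toFinset.1 hA)
    rw [h2] at h1
    rw [Submodule.mem_bot]
    exact h1.symm
  · apply le_antisymm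
    · apply sup_le
      · exact sSup_le hleU
      · exact inf_le_left
    · intro u hu
      have e : u = P u + (u - P u) := by abel
      rw [e]
      apply Submodule.add_mem_sup (hPmem u hu)
      rw [hmemU']
      refine ⟨U.sub_mem hu (sSup_le hleU (hPmem u hu)), fun B hB => ?_⟩
      have h1 : avg ρ (N B) (P u) = avg ρ (N B) u := by
        rw [hPapp, map_sum, Finset.sum_eq_single B]
        · exact hid B hB _ (himg B hB u hu)
        · intro A hA hAB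
          rw [hfin.mem_toFinset] at hA
          exact hkill B hB A hA (fun h => hAB h.symm) _ (himg A hA u hu)
        · intro h
          exact absurd (hfin.mem_toFinset.2 hB) h
      rw [map_sub, h1, sub_self]
  · intro g hg hgU hg𝒰
    -- surjectivity of the action on `𝒰`
    have hinj : Set.InjOn (fun A : Submodule (ZMod p) W => A.map (ρ g)) 𝒰 := by
      intro A _ B _ hAB
      exact Submodule.map_injective_of_injective (rinj ρ g) hAB
    have hsurj : ∀ B ∈ 𝒰, ∃ A ∈ 𝒰, A.map (ρ g) = B := by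
      have hmt : Set.MapsTo (fun A : Submodule (ZMod p) W => A.map (ρ g)) 𝒰 𝒰 := hg𝒰
      have h1 := ((hfin.injOn_iff_bijOn_of_mapsTo hmt).1 hinj).surjOn
      intro B hB
      obtain ⟨A, hA, hAB⟩ := h1 hB
      exact ⟨A, hA, hAB⟩
    have hle : U'.map (ρ g) ≤ U' := by
      rintro _ ⟨u, hu, rfl⟩
      rw [SetLike.mem_coe, hmemU'] at hu
      rw [hmemU']
      have hgu : ρ g u ∈ U := by
        rw [← hgU]
        exact Submodule.mem_map_of_mem hu.1
      refine ⟨hgu, fun B hB => ?_⟩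
      obtain ⟨A, hA, hAB⟩ := hsurj B hB
      have hM : NIn (cj g (N A)) X := nin_cj (hN A hA).1 hg
      have hBM : B = U ⊓ Fx ρ (cj g (N A)) := by
        rw [← fx_cj, ← hAB]
        conv_lhs => rw [(hN A hA).2]
        rw [map_rho_inf, hgU]
      have h1 : avg ρ (cj g (N A)) (ρ g u) = 0 := by
        rw [← avg_conj ρ g (N := N A) (M := cj g (N A)), hu.2 A hA, map_zero]
        intro x
        rw [mem_cj]
        have e : g⁻¹ * (g * x * g⁻¹) * g = x := by group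
        rw [e]
      have h2 : avg ρ (N B) (ρ g u) ∈ Fx ρ (cj g (N A)) := by
        have h3 : avg ρ (N B) (ρ g u) ∈ U ⊓ Fx ρ (cj g (N A)) := by
          rw [← hBM]
          exact himg B hB _ hgu
        exact h3.2
      have h4 : (Nat.card (cj g (N A))).Coprime p :=
        Nat.Coprime.coprime_dvd_left (Subgroup.card_dvd_of_le hM.1) hX
      have h5 := avg_fix ρ h4 h2
      rw [← h5, avg_comm ρ (N := N B) (M := cj g (N A)), h1, map_zero]
      intro x hx n hn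
      exact (hN B hB).1.2 x (hM.1 hx) n hn
    haveI : FiniteDimensional (ZMod p) W := Module.Finite.of_finite
    apply Submodule.eq_of_le_of_finrank_eq hle
    exact (Submodule.equivMapOfInjective (ρ g) (rinj ρ g) U').finrank_eq.symm

/-- coprime action: `U = C_U(N) ⊕ [U, N]` in the form of a complement. -/
theorem fix_compl {N : Subgroup Γ} (hN : (Nat.card N).Coprime p) {U : Submodule (ZMod p) W}
    (hU : Inv ρ N U) (h : U ⊓ Fx ρ N = ⊥) :
    U ≤ Submodule.span (ZMod p) {w | ∃ n ∈ N, ∃ u ∈ U, w = ρ n u - u} := by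
  intro u hu
  have h1 : avg ρ N u ∈ U ⊓ Fx ρ N := ⟨avg_mem ρ hU hu, avg_mem_Fx ρ N u⟩
  rw [h, Submodule.mem_bot, avg_apply] at h1
  have h2 : u = -(((Nat.card N : ZMod p)⁻¹) • ∑ n ∈ fs N, (ρ n u - u)) := by
    rw [Finset.sum_sub_distrib, smul_sub, h1, Finset.sum_const, card_fs,
      ← Nat.cast_smul_eq_nsmul (ZMod p), smul_smul, inv_mul_cancel₀ (card_ne hN), one_smul,
      zero_sub, neg_neg]
  rw [h2]
  apply Submodule.neg_mem
  apply Submodule.smul_mem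
  apply Submodule.sum_mem
  intro n hn
  exact Submodule.subset_span ⟨n, mem_fs.1 hn, u, hu, rfl⟩

end Mod

end SYL2
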