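import Pool.Agent.SYL2.H3a
import Pool.Agent.SYL2.H3b
import Pool.Agent.SYL2.H3c
import Pool.Agent.SYL2.M1

set_option autoImplicit false

/-! # SYL2, row H3d, H3e: the core statement in characteristic three -/

namespace SYL2

section Core

variable {W : Type} [AddCommGroup W] [Module (ZMod 3) W]

/-- common (generalised) weight space of a family of endomorphisms. -/
def h3d_E {ι : Type} (f : ι → Module.End (ZMod 3) W) (χ : ι → ZMod 3) :
    Submodule (ZMod 3) W := ⨅ i, (f i).maxGenEigenspace (χ i)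

theorem h3d_eig {f : Module.End (ZMod 3) W} (hf : ∀ w, f (f w) = w) {μ : ZMod 3} {w : W}
    (hw : w ∈ f.maxGenEigenspace μ) : f w = μ • w := by
  rw [Module.End.mem_maxGenEigenspace] at hw
  obtain ⟨k, hk⟩ := hw
  have h3 : ∀ u : W, (3 : ZMod 3) • u = 0 := fun u => by
    have : (3 : ZMod 3) = 0 := rfl
    rw [this, zero_smul]
  have key : ∀ u : W, (f - μ • 1) ((f - μ • 1) u) = 0 → (f - μ • 1) u = 0 := by
    intro u hu
    have hu' : (1 + μ * μ) • u - (2 * μ) • f u = 0 := by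
      rw [← hu]
      simp only [LinearMap.sub_apply, LinearMap.smul_apply, Module.End.one_apply, map_sub,
        map_smul, hf]
      module
    have hμ' : ∀ ν : ZMod 3, ν = 0 ∨ ν = 1 ∨ ν = 2 := by decide
    have hμ := hμ' μ
    simp only [LinearMap.sub_apply, LinearMap.smul_apply, Module.End.one_apply]
    rcases hμ with rfl | rfl | rfl
    · have : u = 0 := by simpa using hu'
      rw [this]; simp
    · have e1 := h3 u
      have e2 := h3 (f u)
      have e3 : f u - (1 : ZMod 3) • u = ((1 + 1 * 1 : ZMod 3) • u - (2 * 1 : ZMod 3) • f u) +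
          ((3 : ZMod 3) • f u - (3 : ZMod 3) • u) := by module
      rw [e3, hu', e1, e2]; simp
    · have e1 := h3 u
      have e2 := h3 (f u)
      have e3 : f u - (2 : ZMod 3) • u = -((1 + 2 * 2 : ZMod 3) • u - (2 * 2 : ZMod 3) • f u) -
          (3 : ZMod 3) • f u + (3 : ZMod 3) • u := by module
      rw [e3, hu', e1, e2]; simp
  have h1 : ∀ n : ℕ, ∀ u : W, ((f - μ • 1) ^ (n + 1)) u = 0 → (f - μ • 1) u = 0 := by
    intro n
    induction n with
    | zero => intro u hu; simpa using hu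
    | succ n ih =>
      intro u hu
      rw [pow_succ, Module.End.mul_apply] at hu
      exact key u (ih _ hu)
  have h2 : (f - μ • 1) w = 0 := by
    rcases k with _ | n
    · have : w = 0 := by simpa using hk
      rw [this, map_zero]
    · exact h1 n w hk
  simp only [LinearMap.sub_apply, LinearMap.smul_apply, Module.End.one_apply] at h2
  exact sub_eq_zero.1 h2

theorem h3d_mem {ι : Type} {f : ι → Module.End (ZMod 3) W} (hf : ∀ i w, f i (f i w) = w)
    {χ : ι → ZMod 3} {w : W} : w ∈ h3d_E f χ ↔ ∀ i, f i w = χ i • w := by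
  rw [h3d_E, Submodule.mem_iInf]
  constructor
  · intro h i
    exact h3d_eig (hf i) (h i)
  · intro h i
    rw [Module.End.mem_maxGenEigenspace]
    refine ⟨1, ?_⟩
    simp [h i]

theorem h3d_indep {ι : Type} {f : ι → Module.End (ZMod 3) W}
    (hc : ∀ i j, Commute (f i) (f j)) : iSupIndep (h3d_E f) := by
  apply Module.End.independent_iInf_maxGenEigenspace_of_forall_mapsTo
  intro i j φ
  exact Module.End.mapsTo_maxGenEigenspace_of_comm (hc j i) φ

theorem h3d_sup [Finite W] {ι : Type} {f : ι → Module.End (ZMod 3) W}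
    (hf : ∀ i w, f i (f i w) = w)
    (hc : ∀ i j, Commute (f i) (f j)) : ⨆ χ, h3d_E f χ = ⊤ := by
  apply Module.End.iSup_iInf_maxGenEigenspace_eq_top_of_iSup_maxGenEigenspace_eq_top_of_commute f
    (fun i j _ => hc i j)
  intro i
  rw [eq_top_iff]
  intro w _
  have h3 : (3 : ZMod 3) • w = 0 := by
    have : (3 : ZMod 3) = 0 := rfl
    rw [this, zero_smul]
  have h3' : (3 : ZMod 3) • (w - f i w) = 0 := by
    have : (3 : ZMod 3) = 0 := rfl
    rw [this, zero_smul]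
  have m1 : (2 : ZMod 3) • (w + f i w) ∈ (f i).maxGenEigenspace 1 := by
    rw [Module.End.mem_maxGenEigenspace]
    refine ⟨1, ?_⟩
    simp [hf, add_comm]
  have m2 : (2 : ZMod 3) • (w - f i w) ∈ (f i).maxGenEigenspace 2 := by
    rw [Module.End.mem_maxGenEigenspace]
    refine ⟨1, ?_⟩
    simp only [pow_one, LinearMap.sub_apply, LinearMap.smul_apply, Module.End.one_apply,
      map_smul, map_sub, hf]
    have : (2 : ZMod 3) • (f i w - (2 : ZMod 3) • w - (w - (2 : ZMod 3) • f i w)) =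
      -((2 : ZMod 3) • ((3 : ZMod 3) • (w - f i w))) := by module
    rw [this, h3']; simp
  have e : w = (2 : ZMod 3) • (w + f i w) + (2 : ZMod 3) • (w - f i w) := by
    have : (2 : ZMod 3) • (w + f i w) + (2 : ZMod 3) • (w - f i w) = w + (3 : ZMod 3) • w := by
      module
    rw [this, h3, add_zero]
  rw [e]
  exact add_mem (Submodule.mem_iSup_of_mem 1 m1) (Submodule.mem_iSup_of_mem 2 m2)

/-- conjugation permutes the weight spaces. -/
theorem h3d_map (B : Subgroup (W ≃ₗ[ZMod 3] W)) (hB : ∀ b ∈ B, b * b = 1)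
    (g : W ≃ₗ[ZMod 3] W) (hg : ∀ b ∈ B, g * b * g⁻¹ ∈ B) (hg' : ∀ b ∈ B, g⁻¹ * b * g ∈ B)
    (χ : B → ZMod 3) :
    ∃ χ' : B → ZMod 3,
      (h3d_E (fun b : B => ((b : W ≃ₗ[ZMod 3] W) : W →ₗ[ZMod 3] W)) χ).map
        (g : W →ₗ[ZMod 3] W) =
      h3d_E (fun b : B => ((b : W ≃ₗ[ZMod 3] W) : W →ₗ[ZMod 3] W)) χ' := by
  have hf : ∀ (i : B) (w : W), (fun b : B => ((b : W ≃ₗ[ZMod 3] W) : W →ₗ[ZMod 3] W)) i
      ((fun b : B => ((b : W ≃ₗ[ZMod 3] W) : W →ₗ[ZMod 3] W)) i w) = w := by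
    intro i w
    have := hB i i.2
    have h1 := congrArg (fun e : W ≃ₗ[ZMod 3] W => e w) this
    simpa using h1
  refine ⟨fun b => χ ⟨g⁻¹ * b * g, hg' b b.2⟩, ?_⟩
  ext w
  rw [h3d_mem hf]
  constructor
  · rintro ⟨v, hv, rfl⟩
    rw [SetLike.mem_coe, h3d_mem hf] at hv
    intro i
    have := hv ⟨g⁻¹ * i * g, hg' i i.2⟩
    have h1 := congrArg g this
    simpa using h1
  · intro h
    refine ⟨g⁻¹ w, ?_, by simp⟩
    rw [SetLike.mem_coe, h3d_mem hf]
    intro i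
    have h1 := h ⟨g * i * g⁻¹, hg i i.2⟩
    have h2 := congrArg (g⁻¹ : W ≃ₗ[ZMod 3] W) h1
    have h3 : (⟨g⁻¹ * (g * i * g⁻¹) * g, hg' _ (hg i i.2)⟩ : B) = i := by
      apply Subtype.ext
      simp only
      group
    rw [h3] at h2
    simpa using h2

/-- normal elementary abelian subgroups of `R` are `{1}` or `{1, -1}`. -/
theorem h3d_ab [Finite W] (R : Subgroup (W ≃ₗ[ZMod 3] W)) (hR : IsPGroup 2 R)
    (s : W ≃ₗ[ZMod 3] W) (hs : s ^ 3 = 1) (hn : ∀ r ∈ R, s * r * s⁻¹ ∈ R)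
    (hgen : ∀ M : Subgroup (W ≃ₗ[ZMod 3] W), M ≤ R →
      (∀ r ∈ R, r⁻¹ * (s * r * s⁻¹) ∈ M) → R ≤ M)
    (hef : ∀ N : Subgroup (W ≃ₗ[ZMod 3] W), N ≤ R → (∀ r ∈ R, ∀ n ∈ N, r * n * r⁻¹ ∈ N) →
      (∀ w : W, (∀ n ∈ N, n w = w) → w = 0) ∨ ∀ n ∈ N, n = 1)
    (hstar : ∀ w : W, ∃ r ∈ R, (r⁻¹ * s * r) (s w - w) = s w - w)
    (B : Subgroup (W ≃ₗ[ZMod 3] W)) (hBR : B ≤ R) (hBn : ∀ r ∈ R, ∀ b ∈ B, r * b * r⁻¹ ∈ B)
    (hBs : ∀ b ∈ B, s * b * s⁻¹ ∈ B) (hB : ∀ b ∈ B, b * b = 1) :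
    ∀ b ∈ B, b = 1 ∨ ∀ w, b w = -w := by
  have hcomm : ∀ a ∈ B, ∀ b ∈ B, a * b = b * a := by
    intro a ha b hb
    have h1 := hB (a * b) (mul_mem ha hb)
    have h2 := hB a ha
    have h3 := hB b hb
    calc a * b = (a * b) * 1 := by rw [mul_one]
      _ = (a * b) * ((a * b) * (a * b)) := by rw [h1]
      _ = ((a * b) * (a * b)) * (a * b) := by group
      _ = a * b := by rw [h1, one_mul]
      _ = (b * b) * (a * b) * (a * a) := by rw [h2, h3, one_mul, mul_one]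
      _ = b * ((b * a) * (b * a)) * a := by group
      _ = b * a := by rw [hB (b * a) (mul_mem hb ha), mul_one]
  have hs' : s⁻¹ = s * s := by
    rw [inv_eq_iff_mul_eq_one, ← hs, pow_succ, pow_two, mul_assoc]
  have hBs' : ∀ b ∈ B, s⁻¹ * b * s ∈ B := by
    intro b hb
    have h1 := hBs _ (hBs b hb)
    have h2 : s⁻¹ * b * s = s * (s * b * s⁻¹) * s⁻¹ := by
      have : s = (s * s)⁻¹ := by rw [← hs', inv_inv]
      calc s⁻¹ * b * s = (s * s) * b * (s * s)⁻¹ := by rw [← this, hs']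
        _ = s * (s * b * s⁻¹) * s⁻¹ := by group
    rw [h2]
    exact h1
  let f : B → Module.End (ZMod 3) W := fun b : B => ((b : W ≃ₗ[ZMod 3] W) : W →ₗ[ZMod 3] W)
  have hf : ∀ (i : B) (w : W), f i (f i w) = w := fun i w =>
    congrArg (fun e : W ≃ₗ[ZMod 3] W => e w) (hB i i.2)
  have hfc : ∀ i j, Commute (f i) (f j) := by
    intro i j
    have h1 := hcomm i i.2 j j.2
    refine LinearMap.ext fun w => ?_
    exact congrArg (fun e : W ≃ₗ[ZMod 3] W => e w) h1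
  have hind := h3d_indep hfc
  have hsup := h3d_sup hf hfc
  let 𝒲 : Set (Submodule (ZMod 3) W) := {A | A ≠ ⊥ ∧ ∃ χ, A = h3d_E f χ}
  have hind' : sSupIndep 𝒲 := by
    refine (hind.sSupIndep_range).mono ?_
    rintro A ⟨-, χ, rfl⟩
    exact ⟨χ, rfl⟩
  have hmap : ∀ g : W ≃ₗ[ZMod 3] W, (∀ b ∈ B, g * b * g⁻¹ ∈ B) → (∀ b ∈ B, g⁻¹ * b * g ∈ B) →
      ∀ A ∈ 𝒲, A.map (g : W →ₗ[ZMod 3] W) ∈ 𝒲 := by
    rintro g hg hg' A ⟨hA, χ, rfl⟩
    obtain ⟨χ', hχ'⟩ := h3d_map B hB g hg hg' χ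
    refine ⟨?_, χ', hχ'⟩
    intro hbot
    apply hA
    rw [Submodule.eq_bot_iff]
    intro w hw
    have h1 : g w ∈ (h3d_E f χ).map (g : W →ₗ[ZMod 3] W) := ⟨w, hw, rfl⟩
    rw [hbot, Submodule.mem_bot] at h1
    exact g.map_eq_zero_iff.1 h1
  have himp := imp_three R hR s hs hn hgen hstar 𝒲 hind' (fun A hA => hA.1)
    (fun A hA r hr => hmap r (hBn r hr) (fun b hb => by
      have := hBn r⁻¹ (inv_mem hr) b hb
      rwa [inv_inv] at this) A hA)
    (fun A hA => hmap s hBs hBs' A hA)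
  have hcen : ∀ b ∈ B, ∀ r ∈ R, r * b = b * r := by
    intro b hb r hr
    ext w
    have hw : w ∈ ⨆ χ, h3d_E f χ := by rw [hsup]; trivial
    induction hw using Submodule.iSup_induction' with
    | mem χ w hw =>
      by_cases hbot : h3d_E f χ = ⊥
      · rw [hbot, Submodule.mem_bot] at hw
        rw [hw]; simp
      · have h1 := (himp _ ⟨hbot, χ, rfl⟩).2 r hr
        have h2 : r w ∈ h3d_E f χ := by
          rw [← h1]
          exact ⟨w, hw, rfl⟩
        rw [h3d_mem hf] at hw h2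
        have h3 := hw ⟨b, hb⟩
        have h4 := h2 ⟨b, hb⟩
        simp only [LinearEquiv.mul_apply]
        have h3' : b w = χ ⟨b, hb⟩ • w := h3
        have h4' : b (r w) = χ ⟨b, hb⟩ • r w := h4
        rw [h3', h4', map_smul]
    | zero => simp
    | add x y _ _ hx hy =>
      simp only [LinearEquiv.mul_apply, map_add] at hx hy ⊢
      rw [hx, hy]
  intro b hb
  have h1 := hef (Subgroup.zpowers b) (by rw [Subgroup.zpowers_le]; exact hBR hb) (by
    intro r hr n hn'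
    rw [Subgroup.mem_zpowers_iff] at hn'
    obtain ⟨k, rfl⟩ := hn'
    have : r * b ^ k * r⁻¹ = b ^ k := by
      have hc : Commute r b := hcen b hb r hr
      rw [(hc.zpow_right k).eq, mul_inv_cancel_right]
    rw [this]
    exact Subgroup.zpow_mem_zpowers b k)
  rcases h1 with h1 | h1
  · right
    intro w
    have h2 : w + b w = 0 := by
      apply h1
      intro n hn'
      rw [Subgroup.mem_zpowers_iff] at hn'
      obtain ⟨k, rfl⟩ := hn'
      have h3 : b (w + b w) = w + b w := by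
        have := hf ⟨b, hb⟩ w
        have h4 : b (b w) = w := this
        rw [map_add, h4, add_comm]
      have h5 : b ∈ MulAction.stabilizer (W ≃ₗ[ZMod 3] W) (w + b w) := h3
      exact zpow_mem h5 k
    rw [eq_neg_iff_add_eq_zero, add_comm]
    exact h2
  · left
    exact h1 b (Subgroup.mem_zpowers b)

/-- row H3d: the core statement. -/
theorem core_three [Finite W] (R : Subgroup (W ≃ₗ[ZMod 3] W)) (hR : IsPGroup 2 R)
    (s : W ≃ₗ[ZMod 3] W) (hs : s ^ 3 = 1) (hn : ∀ r ∈ R, s * r * s⁻¹ ∈ R)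
    (hgen : ∀ M : Subgroup (W ≃ₗ[ZMod 3] W), M ≤ R →
      (∀ r ∈ R, r⁻¹ * (s * r * s⁻¹) ∈ M) → R ≤ M)
    (hef : ∀ N : Subgroup (W ≃ₗ[ZMod 3] W), N ≤ R → (∀ r ∈ R, ∀ n ∈ N, r * n * r⁻¹ ∈ N) →
      (∀ w : W, (∀ n ∈ N, n w = w) → w = 0) ∨ ∀ n ∈ N, n = 1)
    (hfix : ∀ w : W, (∀ r ∈ R, r w = w) → w = 0)
    (hstar : ∀ w : W, ∃ r ∈ R, (r⁻¹ * s * r) (s w - w) = s w - w) :
    ∀ w : W, s (s w) - s w - (s w - w) = 0 := by
  have : Finite (W ≃ₗ[ZMod 3] W) :=
    Finite.of_injective (fun e : W ≃ₗ[ZMod 3] W => (e : W → W)) DFunLike.coe_injective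
  by_cases hR1 : ∀ r ∈ R, r = 1
  · intro w
    have hw : ∀ v : W, v = 0 := fun v => hfix v (fun r hr => by rw [hR1 r hr]; rfl)
    exact hw _
  have hntR : Nontrivial R := by
    push Not at hR1
    obtain ⟨r, hr, hr1⟩ := hR1
    exact ⟨⟨r, hr⟩, 1, fun h => hr1 (congrArg Subtype.val h)⟩
  have hcen := hR.center_nontrivial
  have hpz : IsPGroup 2 (Subgroup.center R) := hR.to_subgroup _
  have hdvd : 2 ∣ Nat.card (Subgroup.center R) := by
    obtain ⟨n, hn0, hn1⟩ := hpz.nontrivial_iff_card.1 hcen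
    rw [hn1]
    exact dvd_pow_self 2 hn0.ne'
  have : Fact (Nat.Prime 2) := ⟨Nat.prime_two⟩
  obtain ⟨z', hz'⟩ := exists_prime_orderOf_dvd_card' 2 hdvd
  obtain ⟨z, hz⟩ : ∃ z : W ≃ₗ[ZMod 3] W, z = ((z' : R) : W ≃ₗ[ZMod 3] W) := ⟨_, rfl⟩
  have hzR : z ∈ R := by rw [hz]; exact (z' : R).2
  have hord : orderOf z = 2 := by
    rw [hz, Subgroup.orderOf_coe, Subgroup.orderOf_coe, hz']
  have hzz : z * z = 1 := by
    rw [← pow_two, ← hord, pow_orderOf_eq_one]
  have hz1 : z ≠ 1 := by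
    intro h
    rw [h, orderOf_one] at hord
    omega
  have hzc : ∀ r ∈ R, r * z = z * r := by
    intro r hr
    have h1 := Subgroup.mem_center_iff.1 z'.2 ⟨r, hr⟩
    have h2 := congrArg Subtype.val h1
    rw [hz]
    exact h2
  have hzneg : ∀ w, z w = -w := by
    have hB : ∀ b ∈ Subgroup.zpowers z, b = 1 ∨ b = z := by
      intro b hb
      rw [Subgroup.mem_zpowers_iff] at hb
      obtain ⟨k, rfl⟩ := hb
      have hk := Int.emod_two_eq_zero_or_one k
      have hmod : z ^ k = z ^ (k % 2) := by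
        have := zpow_mod_orderOf z k
        rw [hord] at this
        exact this.symm
      rcases hk with hk | hk
      · left; rw [hmod, hk, zpow_zero]
      · right; rw [hmod, hk, zpow_one]
    have h1 := h3d_ab R hR s hs hn hgen hef hstar
    have h2 := hef (Subgroup.zpowers z) (by rw [Subgroup.zpowers_le]; exact hzR) (by
      intro r hr n hn'
      have : r * n * r⁻¹ = n := by
        rcases hB n hn' with rfl | rfl
        · group
        · rw [hzc r hr, mul_inv_cancel_right]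
      rw [this]; exact hn')
    rcases h2 with h2 | h2
    · intro w
      have h3 : w + z w = 0 := by
        apply h2
        intro n hn'
        rcases hB n hn' with rfl | rfl
        · rfl
        · have h4 : n (n w) = w := congrArg (fun e : W ≃ₗ[ZMod 3] W => e w) hzz
          rw [map_add, h4, add_comm]
      rw [eq_neg_iff_add_eq_zero, add_comm]
      exact h3
    · exact absurd (h2 z (Subgroup.mem_zpowers z)) hz1
  have hneg : ∀ b : W ≃ₗ[ZMod 3] W, (∀ w, b w = -w) → b = z := by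
    intro b hb
    ext w
    rw [hb, hzneg]
  have hzs : s * z = z * s := by
    ext w
    simp only [LinearEquiv.mul_apply]
    rw [hzneg, hzneg, map_neg]
  obtain ⟨a₀, ha₀, a₁, ha₁, a₂, ha₂, h0, h1, h2, h012, hs0, hs1, hs2, hall⟩ :=
    q8_struct R hR s z hs hn hgen hzR hz1 hzz hzc hzs (by
      intro B hBR hBn hBs hB b hb
      rcases h3d_ab R hR s hs hn hgen hef hstar B hBR hBn hBs hB b hb with h | h
      · exact Or.inl h
      · exact Or.inr (hneg b h))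
  have e : ∀ a : W ≃ₗ[ZMod 3] W, a * a = z → ∀ w, a (a w) = -w := by
    intro a ha w
    rw [← hzneg w, ← ha]; rfl
  refine q8_algebra s a₀ a₁ a₂ hs (e a₀ h0) (e a₁ h1) (e a₂ h2) h012 hs0 hs1 hs2 ?_
  intro w
  obtain ⟨r, hr, hrw⟩ := hstar w
  have hzconj : ∀ a : W ≃ₗ[ZMod 3] W, (z * a)⁻¹ * s * (z * a) = a⁻¹ * s * a := by
    intro a
    have hzi : z⁻¹ = z := by rw [inv_eq_iff_mul_eq_one, hzz]
    calc (z * a)⁻¹ * s * (z * a) = a⁻¹ * (z⁻¹ * (s * z)) * a := by group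
      _ = a⁻¹ * (z⁻¹ * (z * s)) * a := by rw [hzs]
      _ = a⁻¹ * s * a := by group
  rcases hall r hr with rfl | rfl | rfl | rfl | rfl | rfl | rfl | rfl
  · exact ⟨1, Or.inl rfl, hrw⟩
  · refine ⟨1, Or.inl rfl, ?_⟩
    have := hzconj 1
    rw [mul_one] at this
    rw [← this]; exact hrw
  · exact ⟨_, Or.inr (Or.inl rfl), hrw⟩
  · refine ⟨_, Or.inr (Or.inl rfl), ?_⟩
    rw [← hzconj]; exact hrw
  · exact ⟨_, Or.inr (Or.inr (Or.inl rfl)), hrw⟩
  · refine ⟨_, Or.inr (Or.inr (Or.inl rfl)), ?_⟩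
    rw [← hzconj]; exact hrw
  · exact ⟨_, Or.inr (Or.inr (Or.inr rfl)), hrw⟩
  · refine ⟨_, Or.inr (Or.inr (Or.inr rfl)), ?_⟩
    rw [← hzconj]; exact hrw

end Core

section Rep

variable {Γ W : Type} [Group Γ] [AddCommGroup W] [Module (ZMod 3) W]
  (ρ : Representation (ZMod 3) Γ W)

/-- the stabiliser of a subspace. -/
def h3e_X (U : Submodule (ZMod 3) W) : Subgroup Γ where
  carrier := {g | ∀ u ∈ U, ρ g u ∈ U ∧ ρ g⁻¹ u ∈ U}
  mul_mem' := by
    intro a b ha hb u hu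
    refine ⟨?_, ?_⟩
    · rw [map_mul, Module.End.mul_apply]
      exact (ha _ (hb u hu).1).1
    · rw [mul_inv_rev, map_mul, Module.End.mul_apply]
      exact (hb _ (ha u hu).2).2
  one_mem' := by
    intro u hu
    simpa using hu
  inv_mem' := by
    intro a ha u hu
    rw [inv_inv]
    exact ⟨(ha u hu).2, (ha u hu).1⟩

/-- the action of the stabiliser on the subspace. -/
def h3e_hom (U : Submodule (ZMod 3) W) : h3e_X ρ U →* (U ≃ₗ[ZMod 3] U) where
  toFun x :=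
    { toFun := fun u => ⟨ρ x u, (x.2 u u.2).1⟩
      map_add' := fun a b => Subtype.ext (by simp)
      map_smul' := fun a b => Subtype.ext (by simp)
      invFun := fun u => ⟨ρ (x : Γ)⁻¹ u, (x.2 u u.2).2⟩
      left_inv := fun u => Subtype.ext (by simp)
      right_inv := fun u => Subtype.ext (by simp) }
  map_one' := by
    ext u
    simp
  map_mul' := by
    intro a b
    ext u
    simp

theorem h3e_hom_apply (U : Submodule (ZMod 3) W) (x : h3e_X ρ U) (u : U) :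
    ((h3e_hom ρ U x u : U) : W) = ρ (x : Γ) u := rfl

/-- the case in which `EF` holds. -/
theorem three_rep_ef [Finite W] {R : Subgroup Γ} (hR : IsPGroup 2 R) {s : Γ}
    (hs : s ^ 3 = 1) (hn : ∀ r ∈ R, s * r * s⁻¹ ∈ R)
    (hgen : ∀ M : Subgroup Γ, M ≤ R → (∀ r ∈ R, r⁻¹ * (s * r * s⁻¹) ∈ M) → R ≤ M)
    {U : Submodule (ZMod 3) W} (hUR : Inv ρ R U) (hUs : ∀ u ∈ U, ρ s u ∈ U)
    (hfix : U ⊓ Fx ρ R = ⊥)
    (hstar : ∀ u ∈ U, ∃ r ∈ R, ρ (r⁻¹ * s * r) (ρ s u - u) = ρ s u - u)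
    (hef : EF ρ R U) :
    ∀ u ∈ U, (ρ s - 1) ((ρ s - 1) u) = 0 := by
  have hs' : s⁻¹ = s * s := by
    rw [inv_eq_iff_mul_eq_one, ← hs, pow_succ, pow_two, mul_assoc]
  have hRX : R ≤ h3e_X ρ U := fun r hr u hu => ⟨hUR r hr u hu, hUR r⁻¹ (inv_mem hr) u hu⟩
  have hsX : s ∈ h3e_X ρ U := fun u hu => ⟨hUs u hu, by
    rw [hs', map_mul, Module.End.mul_apply]
    exact hUs _ (hUs u hu)⟩
  let φ := h3e_hom ρ U
  let s' := φ ⟨s, hsX⟩
  let R' : Subgroup (U ≃ₗ[ZMod 3] U) := (R.subgroupOf (h3e_X ρ U)).map φ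
  have hmem : ∀ r (hr : r ∈ R), φ ⟨r, hRX hr⟩ ∈ R' := fun r hr =>
    ⟨⟨r, hRX hr⟩, by simpa [Subgroup.mem_subgroupOf] using hr, rfl⟩
  have hmem' : ∀ r' ∈ R', ∃ r, ∃ hr : r ∈ R, φ ⟨r, hRX hr⟩ = r' := by
    rintro r' ⟨⟨x, hx⟩, hxR, rfl⟩
    have hxR' : x ∈ R := by simpa [Subgroup.mem_subgroupOf] using hxR
    exact ⟨x, hxR', rfl⟩
  have hcore := core_three (W := U) R' ?_ s' ?_ ?_ ?_ ?_ ?_ ?_
  · intro u hu
    have h1 := congrArg (Subtype.val) (hcore ⟨u, hu⟩)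
    simp only [LinearMap.sub_apply, Module.End.one_apply, map_sub]
    exact h1
  · exact (hR.comap_subtype).map φ
  · rw [← map_pow]
    have : (⟨s, hsX⟩ : h3e_X ρ U) ^ 3 = 1 := Subtype.ext hs
    rw [this, _root_.map_one]
  · intro r' hr'
    obtain ⟨r, hr, rfl⟩ := hmem' r' hr'
    have := hmem _ (hn r hr)
    have e : s' * φ ⟨r, hRX hr⟩ * s'⁻¹ = φ ⟨s * r * s⁻¹, hRX (hn r hr)⟩ := by
      rw [← _root_.map_inv, ← map_mul, ← map_mul]; rfl
    rw [e]; exact this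
  · intro M' hM' hM2
    let M : Subgroup Γ := (M'.comap φ).map (h3e_X ρ U).subtype ⊓ R
    have hM : R ≤ M := by
      apply hgen
      · exact inf_le_right
      · intro r hr
        have hmm : r⁻¹ * (s * r * s⁻¹) ∈ R := R.mul_mem (R.inv_mem hr) (hn r hr)
        refine ⟨⟨⟨r⁻¹ * (s * r * s⁻¹), hRX hmm⟩, ?_, rfl⟩, hmm⟩
        · have h1 := hM2 _ (hmem r hr)
          have e : (φ ⟨r, hRX hr⟩)⁻¹ * (s' * φ ⟨r, hRX hr⟩ * s'⁻¹) =
              φ ⟨r⁻¹ * (s * r * s⁻¹), hRX hmm⟩ := by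
            rw [← _root_.map_inv, ← _root_.map_inv, ← map_mul, ← map_mul, ← map_mul]; rfl
          rw [e] at h1
          exact h1
    intro r' hr'
    obtain ⟨r, hr, rfl⟩ := hmem' r' hr'
    obtain ⟨⟨x, hx, hxr⟩, -⟩ := hM hr
    have : x = ⟨r, hRX hr⟩ := Subtype.ext hxr
    rw [← this]
    exact hx
  · intro N' hN' hNn
    let N : Subgroup Γ := (N'.comap φ).map (h3e_X ρ U).subtype ⊓ R
    have hNmem : ∀ r (hr : r ∈ R), r ∈ N ↔ φ ⟨r, hRX hr⟩ ∈ N' := by
      intro r hr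
      constructor
      · rintro ⟨⟨x, hx, hxr⟩, -⟩
        have : x = ⟨r, hRX hr⟩ := Subtype.ext hxr
        rw [← this]
        exact hx
      · intro h
        exact ⟨⟨⟨r, hRX hr⟩, h, rfl⟩, hr⟩
    have hNI : NIn N R := by
      refine ⟨inf_le_right, ?_⟩
      intro r hr n hn'
      have hnR : n ∈ R := hn'.2
      rw [hNmem _ (mul_mem (mul_mem hr hnR) (inv_mem hr))]
      rw [hNmem _ hnR] at hn'
      have := hNn _ (hmem r hr) _ hn'
      have e : φ ⟨r, hRX hr⟩ * φ ⟨n, hRX hnR⟩ * (φ ⟨r, hRX hr⟩)⁻¹ =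
          φ ⟨r * n * r⁻¹, hRX (mul_mem (mul_mem hr hnR) (inv_mem hr))⟩ := by
        rw [← _root_.map_inv, ← map_mul, ← map_mul]; rfl
      rw [e] at this
      exact this
    rcases hef N hNI with h | h
    · left
      intro w hw
      have h1 : (w : W) ∈ U ⊓ Fx ρ N := by
        refine ⟨w.2, ?_⟩
        intro n hn'
        have hnR : n ∈ R := hn'.2
        have h2 := hw _ ((hNmem n hnR).1 hn')
        exact congrArg Subtype.val h2
      rw [h, Submodule.mem_bot] at h1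
      exact Subtype.ext h1
    · right
      intro n' hn'
      obtain ⟨n, hnR, rfl⟩ := hmem' n' (hN' hn')
      have h1 : n ∈ N := (hNmem n hnR).2 hn'
      ext u
      exact h u.2 n h1
  · intro w hw
    have h1 : (w : W) ∈ U ⊓ Fx ρ R := by
      refine ⟨w.2, ?_⟩
      intro r hr
      exact congrArg Subtype.val (hw _ (hmem r hr))
    rw [hfix, Submodule.mem_bot] at h1
    exact Subtype.ext h1
  · intro w
    obtain ⟨r, hr, h⟩ := hstar w w.2
    refine ⟨φ ⟨r, hRX hr⟩, hmem r hr, ?_⟩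
    apply Subtype.ext
    have e : (φ ⟨r, hRX hr⟩)⁻¹ * s' * φ ⟨r, hRX hr⟩ =
        φ (⟨r, hRX hr⟩⁻¹ * ⟨s, hsX⟩ * ⟨r, hRX hr⟩) := by
      rw [map_mul, map_mul, _root_.map_inv]
    rw [e]
    exact h

/-- row H3e: reduction to the core statement. -/
theorem three_rep {Γ W : Type} [Group Γ] [Finite Γ] [AddCommGroup W] [Module (ZMod 3) W]
    [Finite W] (ρ : Representation (ZMod 3) Γ W) {R : Subgroup Γ} (hR : IsPGroup 2 R) {s : Γ}
    (hs : s ^ 3 = 1) (hn : ∀ r ∈ R, s * r * s⁻¹ ∈ R)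
    (hgen : ∀ M : Subgroup Γ, M ≤ R → (∀ r ∈ R, r⁻¹ * (s * r * s⁻¹) ∈ M) → R ≤ M)
    {U : Submodule (ZMod 3) W} (hUR : Inv ρ R U) (hUs : ∀ u ∈ U, ρ s u ∈ U)
    (hfix : U ⊓ Fx ρ R = ⊥)
    (hstar : ∀ u ∈ U, ∃ r ∈ R, ρ (r⁻¹ * s * r) (ρ s u - u) = ρ s u - u) :
    ∀ u ∈ U, (ρ s - 1) ((ρ s - 1) u) = 0 := by
  have : Fact (Nat.Prime 3) := ⟨Nat.prime_three⟩
  have hcop : (Nat.card R).Coprime 3 := by
    obtain ⟨n, hn⟩ := (IsPGroup.iff_card (p := 2)).1 hR
    rw [hn]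
    exact Nat.Coprime.pow_left n (by norm_num)
  have hs' : s⁻¹ = s * s := by
    rw [inv_eq_iff_mul_eq_one, ← hs, pow_succ, pow_two, mul_assoc]
  have hss : s * (s * s) = 1 := by rw [← hs', mul_inv_cancel]
  have hnorm : ∀ x, x ∈ R ↔ s * x * s⁻¹ ∈ R := by
    intro x
    refine ⟨hn x, fun h => ?_⟩
    have h1 := hn _ (hn _ h)
    have h2 : s * (s * (s * x * s⁻¹) * s⁻¹) * s⁻¹ = x := by
      calc s * (s * (s * x * s⁻¹) * s⁻¹) * s⁻¹ = (s * (s * s)) * x * (s * (s * s))⁻¹ := by group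
        _ = x := by rw [hss]; simp
    rwa [h2] at h1
  obtain ⟨n, hdim⟩ : ∃ n, Module.finrank (ZMod 3) U = n := ⟨_, rfl⟩
  induction n using Nat.strong_induction_on generalizing U with
  | _ n ih =>
  by_cases hef : EF ρ R U
  · exact three_rep_ef ρ hR hs hn hgen hUR hUs hfix hstar hef
  by_cases hU0 : U = ⊥
  · intro u hu
    rw [hU0, Submodule.mem_bot] at hu
    rw [hu, map_zero, map_zero]
  have hsinv : ∀ u ∈ U, ρ s⁻¹ u ∈ U := by
    intro u hu
    rw [hs', map_mul, Module.End.mul_apply]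
    exact hUs _ (hUs u hu)
  have hUmap : U.map (ρ s) = U := by
    apply le_antisymm
    · rintro _ ⟨u, hu, rfl⟩
      exact hUs u hu
    · intro u hu
      refine ⟨ρ s⁻¹ u, hsinv u hu, ?_⟩
      rw [← Module.End.mul_apply, ← map_mul, mul_inv_cancel, _root_.map_one]
      rfl
  obtain ⟨A, hA⟩ := MF_exists ρ hUR hU0
  have hAU : A ≤ U := by
    obtain ⟨-, ⟨N, -, hN⟩, -⟩ := hA
    rw [hN]; exact inf_le_left
  have hAne : A ≠ U := by
    intro h
    apply hef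
    rw [← h]
    exact hA.2.2
  have hsA := MF_conj ρ hA hnorm hUmap
  have hssA := MF_conj ρ hsA hnorm hUmap
  have hinv : ∀ {B : Submodule (ZMod 3) W}, MF ρ R U B → Inv ρ R B := fun h => MF_inv ρ hUR h
  have h3A : ((A.map (ρ s)).map (ρ s)).map (ρ s) = A := by
    rw [← Submodule.map_comp, ← Submodule.map_comp]
    have : ρ s ∘ₗ ρ s ∘ₗ ρ s = LinearMap.id := by
      have h1 : ρ (s * (s * s)) = 1 := by rw [hss, _root_.map_one]
      rw [map_mul, map_mul] at h1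
      exact h1
    rw [LinearMap.comp_assoc, this, Submodule.map_id]
  have key : A.map (ρ s) = A := by
    by_contra hne
    have hne2 : (A.map (ρ s)).map (ρ s) ≠ A := by
      intro h
      apply hne
      have h1 := congrArg (Submodule.map (ρ s)) h
      rw [h3A] at h1
      exact h1.symm
    have hne3 : (A.map (ρ s)).map (ρ s) ≠ A.map (ρ s) := by
      intro h
      have h1 := congrArg (Submodule.map (ρ s)) h
      rw [h3A, h] at h1
      exact hne h1.symm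
    obtain ⟨hind, -⟩ := dec ρ hcop hUR {A, A.map (ρ s), (A.map (ρ s)).map (ρ s)} (by
      intro B hB
      rcases hB with rfl | rfl | rfl
      · exact hA
      · exact hsA
      · exact hssA)
    apply hA.1
    rw [Submodule.eq_bot_iff]
    intro v hv
    obtain ⟨r, hr, hrw⟩ := hstar v (hAU hv)
    have hdis : Disjoint A (sSup ({A, A.map (ρ s), (A.map (ρ s)).map (ρ s)} \ {A})) :=
      hind (by simp)
    rw [Submodule.disjoint_def] at hdis
    apply hdis v hv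
    have hle1 : A.map (ρ s) ≤ sSup ({A, A.map (ρ s), (A.map (ρ s)).map (ρ s)} \ {A}) :=
      le_sSup ⟨by simp, hne⟩
    have hle2 : (A.map (ρ s)).map (ρ s) ≤
        sSup ({A, A.map (ρ s), (A.map (ρ s)).map (ρ s)} \ {A}) :=
      le_sSup ⟨by simp, hne2⟩
    have hg : ∀ x, ρ (r⁻¹ * s * r) x = ρ r⁻¹ (ρ s (ρ r x)) := by
      intro x
      rw [map_mul, map_mul]; rfl
    have m1 : ρ s v ∈ A.map (ρ s) := ⟨v, hv, rfl⟩
    have m2 : ρ (r⁻¹ * s * r) v ∈ A.map (ρ s) := by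
      rw [hg]
      exact hinv hsA _ (inv_mem hr) _ ⟨_, hinv hA r hr v hv, rfl⟩
    have m3 : ρ (r⁻¹ * s * r) (ρ s v) ∈ (A.map (ρ s)).map (ρ s) := by
      rw [hg]
      exact hinv hssA _ (inv_mem hr) _ ⟨_, hinv hsA r hr _ m1, rfl⟩
    have e : v = ρ s v + ρ (r⁻¹ * s * r) v - ρ (r⁻¹ * s * r) (ρ s v) := by
      rw [map_sub] at hrw
      have : ρ (r⁻¹ * s * r) (ρ s v) = ρ s v - v + ρ (r⁻¹ * s * r) v := by
        rw [← hrw]; abel
      rw [this]; abel
    rw [e]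
    exact sub_mem (add_mem (hle1 m1) (hle1 m2)) (hle2 m3)
  obtain ⟨-, U', hU'U, hU'R, hdis, hsup, hmap⟩ := dec ρ hcop hUR {A} (by
    intro B hB
    rw [Set.mem_singleton_iff] at hB
    rw [hB]; exact hA)
  rw [sSup_singleton] at hdis hsup
  have hU's : U'.map (ρ s) = U' := hmap s hnorm hUmap (by
    intro B hB
    rw [Set.mem_singleton_iff] at hB
    rw [hB, key]; rfl)
  have hU'ne : U' ≠ U := by
    intro h
    rw [h, inf_eq_left.2 hAU] at hdis
    exact hA.1 hdis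
  have hfixle : ∀ B : Submodule (ZMod 3) W, B ≤ U → B ⊓ Fx ρ R = ⊥ := fun B hB =>
    eq_bot_iff.2 (le_trans (inf_le_inf_right _ hB) hfix.le)
  have hlt : ∀ B : Submodule (ZMod 3) W, B ≤ U → B ≠ U →
      Module.finrank (ZMod 3) B < n := by
    intro B hB hBne
    rw [← hdim]
    exact Submodule.finrank_lt_finrank_of_lt (lt_of_le_of_ne hB hBne)
  have r1 := ih _ (hlt A hAU hAne) (hinv hA) (by
    intro u hu
    have : ρ s u ∈ A.map (ρ s) := ⟨u, hu, rfl⟩
    rwa [key] at this) (hfixle A hAU) (fun u hu => hstar u (hAU hu)) rfl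
  have r2 := ih _ (hlt U' hU'U hU'ne) hU'R (by
    intro u hu
    have : ρ s u ∈ U'.map (ρ s) := ⟨u, hu, rfl⟩
    rwa [hU's] at this) (hfixle U' hU'U) (fun u hu => hstar u (hU'U hu)) rfl
  intro u hu
  rw [← hsup] at hu
  obtain ⟨a, ha, b, hb, rfl⟩ := Submodule.mem_sup.1 hu
  rw [map_add, map_add, r1 a ha, r2 b hb, add_zero]

end Rep

end SYL2
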