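import Pool.Agent.SYL2.M3

set_option autoImplicit false

/-! # SYL2, row P3 (helper47) -/

namespace SYL2

section gen

variable {p : ℕ} {Γ W : Type} [Group Γ] [AddCommGroup W] [Module (ZMod p) W]
  (ρ : Representation (ZMod p) Γ W)

theorem map_mul_eq (a b : Γ) (A : Submodule (ZMod p) W) :
    A.map (ρ (a * b)) = (A.map (ρ b)).map (ρ a) := by
  ext w
  simp only [Submodule.mem_map]
  constructor
  · rintro ⟨x, hx, rfl⟩
    exact ⟨ρ b x, ⟨x, hx, rfl⟩, (rho_mul ρ a b x).symm⟩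
  · rintro ⟨y, ⟨x, hx, rfl⟩, rfl⟩
    exact ⟨x, hx, rho_mul ρ a b x⟩

theorem map_one_eq (A : Submodule (ZMod p) W) : A.map (ρ 1) = A := by
  ext w
  simp only [Submodule.mem_map, rho_one]
  exact ⟨fun ⟨x, hx, h⟩ => h ▸ hx, fun h => ⟨w, h, rfl⟩⟩

theorem map_of_inv' {D : Subgroup Γ} {A : Submodule (ZMod p) W} (h : Inv ρ D A) {d : Γ}
    (hd : d ∈ D) : A.map (ρ d) = A := by
  ext w
  simp only [Submodule.mem_map]
  constructor
  · rintro ⟨x, hx, rfl⟩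
    exact h d hd x hx
  · intro hw
    exact ⟨ρ d⁻¹ w, h _ (D.inv_mem hd) w hw, rho_self_inv ρ d w⟩

theorem mem_of_map_eq {A : Submodule (ZMod p) W} {g : Γ} (h : A.map (ρ g) = A) {a : W}
    (ha : a ∈ A) : ρ g a ∈ A := by
  rw [← h]
  exact Submodule.mem_map_of_mem ha

theorem map_inv_eq' {A : Submodule (ZMod p) W} {g : Γ} (h : A.map (ρ g) = A) :
    A.map (ρ g⁻¹) = A := by
  conv_lhs => rw [← h]
  rw [← map_mul_eq, inv_mul_cancel, map_one_eq]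

/-- the support argument: `w = s a - a` is fixed by `g = d⁻¹ t d`; then `t A = A` or
`t s A = A`. -/
theorem support {D : Subgroup Γ} {𝒲 : Set (Submodule (ZMod p) W)} (hi : sSupIndep 𝒲)
    (hD : ∀ A ∈ 𝒲, Inv ρ D A) {A : Submodule (ZMod p) W} (hA : A ∈ 𝒲) {s t d : Γ}
    (hd : d ∈ D) (hsA : A.map (ρ s) ∈ 𝒲) (htA : A.map (ρ t) ∈ 𝒲)
    (htsA : (A.map (ρ s)).map (ρ t) ∈ 𝒲) (hs : A.map (ρ s) ≠ A) {a : W} (ha : a ∈ A)
    (ha0 : a ≠ 0) (h : ρ (d⁻¹ * t * d) (ρ s a - a) = ρ s a - a) :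
    A.map (ρ t) = A ∨ (A.map (ρ s)).map (ρ t) = A := by
  by_contra hcon
  push Not at hcon
  obtain ⟨h1, h2⟩ := hcon
  have hdi := D.inv_mem hd
  have e1 : ∀ B ∈ 𝒲, B.map (ρ t) ∈ 𝒲 → ∀ b ∈ B, ρ (d⁻¹ * t * d) b ∈ B.map (ρ t) := by
    intro B hB hB' b hb
    rw [rho_mul, rho_mul]
    refine hD _ hB' _ hdi _ (Submodule.mem_map_of_mem (hD B hB d hd b hb))
  have e2 : a = ρ s a + ρ (d⁻¹ * t * d) a - ρ (d⁻¹ * t * d) (ρ s a) := by
    rw [map_sub] at h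
    have h3 : ρ (d⁻¹ * t * d) (ρ s a) = ρ s a - a + ρ (d⁻¹ * t * d) a := by
      rw [← h]; abel
    rw [h3]; abel
  have h3 : A.map (ρ s) ≤ sSup (𝒲 \ {A}) := le_sSup ⟨hsA, hs⟩
  have h4 : A.map (ρ t) ≤ sSup (𝒲 \ {A}) := le_sSup ⟨htA, h1⟩
  have h5 : (A.map (ρ s)).map (ρ t) ≤ sSup (𝒲 \ {A}) := le_sSup ⟨htsA, h2⟩
  have h6 : a ∈ sSup (𝒲 \ {A}) := by
    rw [e2]
    refine Submodule.sub_mem _ (Submodule.add_mem _ (h3 (Submodule.mem_map_of_mem ha))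
      (h4 (e1 A hA htA a ha))) (h5 (e1 _ hsA htsA _ (Submodule.mem_map_of_mem ha)))
  have h7 := (hi hA).le_bot (x := a) ⟨ha, h6⟩
  exact ha0 ((Submodule.mem_bot _).1 h7)

theorem DS_le {D S : Subgroup Γ} (hSD : ∀ s ∈ S, ∀ d ∈ D, s * d * s⁻¹ ∈ D) :
    DS D S ≤ D := by
  unfold DS
  rw [Subgroup.closure_le]
  rintro x ⟨d, hd, s, hs, rfl⟩
  have h1 := D.mul_mem hd (hSD s hs _ (D.inv_mem hd))
  have e : d * s * d⁻¹ * s⁻¹ = d * (s * d⁻¹ * s⁻¹) := by group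
  rw [SetLike.mem_coe, e]
  exact h1

theorem quad_of_square {S : Subgroup Γ} (hp : p = 3) (hab : ∀ s ∈ S, ∀ t ∈ S, s * t = t * s)
    (h : ∀ s ∈ S, ∀ w, (ρ s - 1) ((ρ s - 1) w) = 0) : Quad ρ S ⊤ := by
  intro s hs t ht u _
  set X : Module.End (ZMod p) W := ρ s - 1 with hX
  set Y : Module.End (ZMod p) W := ρ t - 1 with hY
  have hX2 : X * X = 0 := LinearMap.ext fun w => h s hs w
  have hY2 : Y * Y = 0 := LinearMap.ext fun w => h t ht w
  have hcomm : X * Y = Y * X := by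
    have : ρ s * ρ t = ρ t * ρ s := by rw [← map_mul, ← map_mul, hab s hs t ht]
    rw [hX, hY]
    simp only [sub_mul, mul_sub, one_mul, mul_one, this]
    abel
  have hst : ρ (s * t) - 1 = X + Y + X * Y := by
    rw [map_mul, hX, hY]
    simp only [sub_mul, mul_sub, one_mul, mul_one]
    abel
  have h1 : (ρ (s * t) - 1) * (ρ (s * t) - 1) = 0 :=
    LinearMap.ext fun w => h _ (S.mul_mem hs ht) w
  rw [hst] at h1
  have e1 : Y * X = X * Y := hcomm.symm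
  have z1 : X * (X * Y) = 0 := by rw [← mul_assoc, hX2, zero_mul]
  have z2 : Y * (X * Y) = 0 := by rw [hcomm, ← mul_assoc, hY2, zero_mul]
  have z3 : X * Y * X = 0 := by rw [mul_assoc, e1, ← mul_assoc, hX2, zero_mul]
  have z4 : X * Y * Y = 0 := by rw [mul_assoc, hY2, mul_zero]
  have z5 : X * Y * (X * Y) = 0 := by rw [← mul_assoc, z3, zero_mul]
  have h2 : X * Y + X * Y = 0 := by
    have : (X + Y + X * Y) * (X + Y + X * Y) = X * Y + X * Y := by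
      simp only [add_mul, mul_add, hX2, hY2, z1, z2, z3, z4, z5, e1]
      abel
    rw [← this, h1]
  have h3 : ∀ w : W, (X * Y) w = 0 := by
    intro w
    have h4 : (X * Y) w + (X * Y) w = 0 := by
      rw [← LinearMap.add_apply, h2, LinearMap.zero_apply]
    have h5 : ((3 : ℕ) : ZMod p) • (X * Y) w = 0 := by
      rw [← hp, ZMod.natCast_self, zero_smul]
    have h6 : ((3 : ℕ) : ZMod p) • (X * Y) w = (X * Y) w + (X * Y) w + (X * Y) w := by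
      rw [Nat.cast_smul_eq_nsmul, show (3 : ℕ) = 1 + 1 + 1 from rfl, add_nsmul, add_nsmul,
        one_nsmul]
    rw [h6, h4, zero_add] at h5
    exact h5
  have h7 := h3 u
  rw [hcomm] at h7
  exact h7

end gen

end SYL2
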