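import Pool.Agent.SYL2.M1
import Pool.Agent.SYL2.P3

set_option autoImplicit false
set_option linter.unusedSectionVars false

/-! # SYL2, row M2 (helper69): structure of the configuration -/

namespace SYL2

variable {p : ℕ} [Fact p.Prime] {Γ W : Type} [Group Γ] [Finite Γ] [AddCommGroup W]
  [Module (ZMod p) W] [Finite W] (ρ : Representation (ZMod p) Γ W)

namespace M2

theorem disjoint_sSup_sSup {𝒲 𝒰 𝒱 : Set (Submodule (ZMod p) W)} (hi : sSupIndep 𝒲)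
    (h1 : 𝒰 ⊆ 𝒲) (h2 : 𝒱 ⊆ 𝒲) (h3 : Disjoint 𝒰 𝒱) : Disjoint (sSup 𝒰) (sSup 𝒱) := by
  rw [sSupIndep_iff] at hi
  have h4 : Disjoint {x : 𝒲 | x.1 ∈ 𝒰} {x : 𝒲 | x.1 ∈ 𝒱} := by
    rw [Set.disjoint_left] at h3 ⊢
    exact fun x hx hx' => h3 hx hx'
  have h5 := hi.disjoint_biSup_biSup h4
  have h6 : ∀ 𝒯 ⊆ 𝒲, (⨆ i ∈ {x : 𝒲 | x.1 ∈ 𝒯}, (i : Submodule (ZMod p) W)) = sSup 𝒯 := by
    intro 𝒯 h𝒯
    apply le_antisymm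
    · exact iSup₂_le fun i hi => le_sSup hi
    · exact sSup_le fun A hA => le_iSup₂_of_le (⟨A, h𝒯 hA⟩ : 𝒲) hA le_rfl
  rw [h6 𝒰 h1, h6 𝒱 h2] at h5
  exact h5

theorem map_sSup_of {𝒰 : Set (Submodule (ZMod p) W)} {g : Γ}
    (h : ∀ A ∈ 𝒰, A.map (ρ g) ∈ 𝒰) : ∀ w ∈ sSup 𝒰, ρ g w ∈ sSup 𝒰 := by
  have h1 : sSup 𝒰 ≤ (sSup 𝒰).comap (ρ g) := by
    refine sSup_le fun A hA a ha => ?_
    exact (le_sSup (h A hA) : A.map (ρ g) ≤ _) ⟨a, ha, rfl⟩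
  exact fun w hw => h1 hw

theorem hnorm {K D S : Subgroup Γ} (cfg : Cfg ρ K D S) {k : Γ} (hk : k ∈ K) :
    ∀ x, x ∈ D ↔ k * x * k⁻¹ ∈ D := by
  intro x
  constructor
  · exact fun h => cfg.Dn k hk x h
  · intro h
    have h1 := cfg.Dn k⁻¹ (K.inv_mem hk) _ h
    have e : k⁻¹ * (k * x * k⁻¹) * k⁻¹⁻¹ = x := by group
    rwa [e] at h1

/-- `[D, S]` is normal in `K`. -/
theorem DS_normal {K D S : Subgroup Γ} (cfg : Cfg ρ K D S) :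
    ∀ k ∈ K, ∀ x ∈ DS D S, k * x * k⁻¹ ∈ DS D S := by
  -- conjugation by elements of `D`
  have hgen : ∀ d ∈ D, ∀ s ∈ S, d * s * d⁻¹ * s⁻¹ ∈ DS D S := fun d hd s hs =>
    Subgroup.subset_closure ⟨d, hd, s, hs, rfl⟩
  have hstep : ∀ k : Γ, (∀ d ∈ D, ∀ s ∈ S, k * (d * s * d⁻¹ * s⁻¹) * k⁻¹ ∈ DS D S) →
      ∀ x ∈ DS D S, k * x * k⁻¹ ∈ DS D S := by
    intro k hk
    have h1 : DS D S ≤ (DS D S).comap (MulAut.conj k).toMonoidHom := by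
      conv_lhs => rw [DS]
      rw [Subgroup.closure_le]
      rintro x ⟨d, hd, s, hs, rfl⟩
      exact hk d hd s hs
    exact fun x hx => h1 hx
  have hD : ∀ e ∈ D, ∀ x ∈ DS D S, e * x * e⁻¹ ∈ DS D S := by
    intro e he
    apply hstep
    intro d hd s hs
    have h1 := hgen (e * d) (D.mul_mem he hd) s hs
    have h2 := hgen e he s hs
    have h3 := (DS D S).mul_mem h1 ((DS D S).inv_mem h2)
    have e1 : e * d * s * (e * d)⁻¹ * s⁻¹ * (e * s * e⁻¹ * s⁻¹)⁻¹ =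
        e * (d * s * d⁻¹ * s⁻¹) * e⁻¹ := by group
    rwa [e1] at h3
  have hN : ∀ n ∈ K, n ∈ Subgroup.normalizer (S : Set Γ) →
      ∀ x ∈ DS D S, n * x * n⁻¹ ∈ DS D S := by
    intro n hn hnS
    apply hstep
    intro d hd s hs
    have h1 : n * s * n⁻¹ ∈ S := (Subgroup.mem_normalizer_iff.1 hnS s).1 hs
    have h2 := hgen (n * d * n⁻¹) (cfg.Dn n hn d hd) (n * s * n⁻¹) h1
    have e1 : n * d * n⁻¹ * (n * s * n⁻¹) * (n * d * n⁻¹)⁻¹ * (n * s * n⁻¹)⁻¹ =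
        n * (d * s * d⁻¹ * s⁻¹) * n⁻¹ := by group
    rwa [e1] at h2
  intro k hk x hx
  obtain ⟨d, hd, hn⟩ := cfg.frat k hk
  have h1 := hN (d⁻¹ * k) (K.mul_mem (K.inv_mem (cfg.DK hd)) hk) hn x hx
  have h2 := hD d hd _ h1
  have e1 : d * (d⁻¹ * k * x * (d⁻¹ * k)⁻¹) * d⁻¹ = k * x * k⁻¹ := by group
  rwa [e1] at h2

end M2

open M2

theorem structure_cfg {K D S : Subgroup Γ} (cfg : Cfg ρ K D S) (hS : S ≠ ⊥) :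
    ∃ 𝒲 : Set (Submodule (ZMod p) W), sSupIndep 𝒲 ∧ sSup 𝒲 = ⊤ ∧
      (∀ A ∈ 𝒲, A ≠ ⊥ ∧ Inv ρ D A ∧ EF ρ D A ∧ A ⊓ Fx ρ (DS D S) = ⊥) ∧
      (∀ k ∈ K, ∀ A ∈ 𝒲, A.map (ρ k) ∈ 𝒲) ∧
      (∀ A ∈ 𝒲, ∀ B ∈ 𝒲, ∃ n ∈ K, n ∈ Subgroup.normalizer (S : Set Γ) ∧ A.map (ρ n) = B) := by
  have htopinv : Inv ρ D (⊤ : Submodule (ZMod p) W) := fun _ _ _ _ => trivial
  have htopmap : ∀ g : Γ, (⊤ : Submodule (ZMod p) W).map (ρ g) = ⊤ := by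
    intro g
    rw [eq_top_iff]
    intro w _
    exact ⟨ρ g⁻¹ w, trivial, rho_self_inv ρ g w⟩
  -- `W` is nonzero
  have hW0 : (⊤ : Submodule (ZMod p) W) ≠ ⊥ := by
    intro h
    apply hS
    rw [eq_bot_iff]
    intro s hs
    rw [Subgroup.mem_bot]
    refine cfg.inj s (cfg.SK hs) fun w => ?_
    have h1 : ∀ v : W, v = 0 := fun v => (Submodule.mem_bot (ZMod p)).1 (h ▸ (trivial : v ∈ (⊤ :
      Submodule (ZMod p) W)))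
    rw [h1 (ρ s w), h1 w]
  let 𝒲 : Set (Submodule (ZMod p) W) := {A | MF ρ D ⊤ A}
  have hK : ∀ k ∈ K, ∀ A ∈ 𝒲, A.map (ρ k) ∈ 𝒲 := fun k hk A hA =>
    MF_conj ρ hA (hnorm ρ cfg hk) (htopmap k)
  obtain ⟨hind, U', -, hU'D, hinf, hsup, hU'⟩ := dec ρ cfg.Dcop htopinv 𝒲 fun A hA => hA
  obtain ⟨A₀, hA₀⟩ := MF_exists ρ htopinv hW0
  -- a `K`-invariant subfamily which is nonempty is everything
  have key : ∀ 𝒰 ⊆ 𝒲, 𝒰.Nonempty → (∀ k ∈ K, ∀ A ∈ 𝒰, A.map (ρ k) ∈ 𝒰) →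
      ∀ Y : Submodule (ZMod p) W, Inv ρ K Y → sSup 𝒰 ⊓ Y = ⊥ → Y = ⊥ := by
    intro 𝒰 hsub hne hKU Y hY hXY
    rcases cfg.mono (sSup 𝒰) Y (fun k hk => map_sSup_of ρ (hKU k hk)) hY hXY with h | h
    · exfalso
      obtain ⟨A, hA⟩ := hne
      have h1 : A ≤ ⊥ := h ▸ le_sSup hA
      exact (hsub hA).1 (eq_bot_iff.2 h1)
    · exact h
  have hU'0 : U' = ⊥ := by
    refine key 𝒲 (fun _ h => h) ⟨A₀, hA₀⟩ hK U' (fun k hk u hu => ?_) hinf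
    have h1 := hU' k (hnorm ρ cfg hk) (htopmap k) fun A hA => hK k hk A hA
    exact mem_of_map_eq ρ h1 hu
  have htop : sSup 𝒲 = ⊤ := by
    rw [hU'0, sup_bot_eq] at hsup
    exact hsup
  have hDinv : ∀ A ∈ 𝒲, Inv ρ D A := fun A hA => MF_inv ρ htopinv hA
  -- transitivity of `K`
  have htrans : ∀ A ∈ 𝒲, ∀ B ∈ 𝒲, ∃ k ∈ K, A.map (ρ k) = B := by
    intro A hA B hB
    by_contra hcon
    push Not at hcon
    let 𝒰 : Set (Submodule (ZMod p) W) := {C | ∃ k ∈ K, A.map (ρ k) = C}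
    have h𝒰sub : 𝒰 ⊆ 𝒲 := by
      rintro C ⟨k, hk, rfl⟩
      exact hK k hk A hA
    have h𝒰K : ∀ k ∈ K, ∀ C ∈ 𝒰, C.map (ρ k) ∈ 𝒰 := by
      rintro k hk C ⟨l, hl, rfl⟩
      exact ⟨k * l, K.mul_mem hk hl, map_mul_eq ρ k l A⟩
    have h𝒱K : ∀ k ∈ K, ∀ C ∈ 𝒲 \ 𝒰, C.map (ρ k) ∈ 𝒲 \ 𝒰 := by
      rintro k hk C ⟨hC, hC'⟩
      refine ⟨hK k hk C hC, fun ⟨l, hl, hl'⟩ => hC' ⟨k⁻¹ * l, K.mul_mem (K.inv_mem hk) hl, ?_⟩⟩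
      rw [map_mul_eq, hl', ← map_mul_eq, inv_mul_cancel, map_one_eq]
    have hdis : sSup 𝒰 ⊓ sSup (𝒲 \ 𝒰) = ⊥ :=
      (disjoint_sSup_sSup hind h𝒰sub Set.sdiff_subset Set.disjoint_sdiff_right).eq_bot
    have h1 := key 𝒰 h𝒰sub ⟨A, 1, K.one_mem, map_one_eq ρ A⟩ h𝒰K (sSup (𝒲 \ 𝒰))
      (fun k hk => map_sSup_of ρ (h𝒱K k hk)) hdis
    have h2 : B ≤ ⊥ := h1 ▸ le_sSup (⟨hB, fun ⟨k, hk, hk'⟩ => hcon k hk hk'⟩ : B ∈ 𝒲 \ 𝒰)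
    exact hB.1 (eq_bot_iff.2 h2)
  -- the fixed space of `[D, S]`
  have hDSle : DS D S ≤ D := DS_le fun s hs d hd => cfg.Dn s (cfg.SK hs) d hd
  have hDSn : NIn (DS D S) D := ⟨hDSle, fun d hd x hx => DS_normal ρ cfg d (cfg.DK hd) x hx⟩
  have hFxK : ∀ k ∈ K, ∀ w ∈ Fx ρ (DS D S), ρ k w ∈ Fx ρ (DS D S) := by
    intro k hk w hw x hx
    have h1 := hw _ (DS_normal ρ cfg k⁻¹ (K.inv_mem hk) x hx)
    have e1 : x * k = k * (k⁻¹ * x * k⁻¹⁻¹) := by group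
    rw [← rho_mul, e1, rho_mul, h1]
  have hfx : ∀ A ∈ 𝒲, A ⊓ Fx ρ (DS D S) = ⊥ := by
    intro A hA
    rcases hA.2.2 (DS D S) hDSn with h | h
    · exact h
    exfalso
    apply hS
    have hall : ∀ w : W, w ∈ Fx ρ (DS D S) := by
      intro w
      have h1 : sSup 𝒲 ≤ Fx ρ (DS D S) := by
        refine sSup_le fun B hB => ?_
        obtain ⟨k, hk, rfl⟩ := htrans A hA B hB
        rintro _ ⟨a, ha, rfl⟩
        exact hFxK k hk a (h ha)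
      exact h1 (htop ▸ trivial)
    rw [eq_bot_iff]
    intro s hs
    rw [Subgroup.mem_bot]
    refine cfg.Sfaith s hs fun d hd => ?_
    have h1 : d * s * d⁻¹ * s⁻¹ = 1 := by
      refine cfg.inj _ (cfg.DK (hDSle (Subgroup.subset_closure ⟨d, hd, s, hs, rfl⟩))) fun w => ?_
      exact hall w _ (Subgroup.subset_closure ⟨d, hd, s, hs, rfl⟩)
    have h2 : d * s = s * d := by
      calc d * s = (d * s * d⁻¹ * s⁻¹) * (s * d) := by group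
        _ = s * d := by rw [h1, one_mul]
    exact h2.symm
  refine ⟨𝒲, hind, htop, fun A hA => ⟨hA.1, hDinv A hA, hA.2.2, hfx A hA⟩, hK, ?_⟩
  intro A hA B hB
  obtain ⟨k, hk, hkB⟩ := htrans A hA B hB
  obtain ⟨d, hd, hn⟩ := cfg.frat k hk
  have hnK : d⁻¹ * k ∈ K := K.mul_mem (K.inv_mem (cfg.DK hd)) hk
  refine ⟨d⁻¹ * k, hnK, hn, ?_⟩
  rw [map_mul_eq, hkB]
  exact map_of_inv' ρ (hDinv B hB) (D.inv_mem hd)

end SYL2
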