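import Pool.Agent.SYL2.Defs

set_option autoImplicit false

/-! # SYL2, row M3 (helper47): elements of `S` centralising `D` on `A` are trivial on `A` -/

namespace SYL2

variable {p : ℕ} {Γ W : Type} [Group Γ] [AddCommGroup W] [Module (ZMod p) W]
  (ρ : Representation (ZMod p) Γ W)

theorem rho_mul (a b : Γ) (w : W) : ρ (a * b) w = ρ a (ρ b w) := by
  rw [map_mul]; rfl

theorem rho_one (w : W) : ρ 1 w = w := by
  rw [_root_.map_one]; rfl

theorem rho_inv_self (a : Γ) (w : W) : ρ a⁻¹ (ρ a w) = w := by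
  rw [← rho_mul, inv_mul_cancel, rho_one]

theorem rho_self_inv (a : Γ) (w : W) : ρ a (ρ a⁻¹ w) = w := by
  rw [← rho_mul, mul_inv_cancel, rho_one]

theorem rho_inj (a : Γ) {u v : W} (h : ρ a u = ρ a v) : u = v := by
  rw [← rho_inv_self ρ a u, h, rho_inv_self]

theorem quad_star {D S : Subgroup Γ} {U : Submodule (ZMod p) W} (h : Quad ρ S U) :
    Star ρ D S U := by
  intro s hs u hu
  refine ⟨1, D.one_mem, fun t ht => ?_⟩
  have h1 := h s hs t ht u hu
  simp only [LinearMap.sub_apply, Module.End.one_apply] at h1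
  rw [inv_one, one_mul, mul_one]
  exact sub_eq_zero.1 h1

/-- Version of `cent_trivial` where the coprime action result is given. -/
theorem cent_trivial_aux {D S : Subgroup Γ} {A : Submodule (ZMod p) W}
    (hD : Inv ρ D A) (hSA : Inv ρ S A) (hst : Star ρ D S A)
    (hspan : A ≤ Submodule.span (ZMod p) {w | ∃ n ∈ DS D S, ∃ u ∈ A, w = ρ n u - u})
    (hDS : DS D S ≤ D) {s : Γ} (hs : s ∈ S)
    (hc : ∀ d ∈ D, ∀ a ∈ A, ρ s (ρ d a) = ρ d (ρ s a)) : ∀ a ∈ A, ρ s a = a := by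
  -- `s` fixes `[A, t]` for `t ∈ S`
  have h1 : ∀ t ∈ S, ∀ a ∈ A, ρ s (ρ t a - a) = ρ t a - a := by
    intro t ht a ha
    obtain ⟨d, hd, h⟩ := hst t ht a ha
    have h2 := h s hs
    have hw : ρ t a - a ∈ A := A.sub_mem (hSA t ht a ha) ha
    rw [rho_mul, rho_mul, hc d hd _ hw, rho_inv_self] at h2
    exact h2
  -- the set of `g` with `s` trivial on `(g - 1) A`
  have h2 : ∀ g ∈ DS D S, ∀ a ∈ A, ρ s (ρ g a - a) = ρ g a - a := by
    intro g hg
    have hgD : ∀ g ∈ DS D S, g ∈ D := fun g hg => hDS hg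
    induction hg using Subgroup.closure_induction with
    | mem x hx =>
      obtain ⟨d, hd, t, ht, rfl⟩ := hx
      intro a ha
      have ha' : ρ t⁻¹ a ∈ A := hSA _ (S.inv_mem ht) a ha
      have hda : ρ d⁻¹ (ρ t⁻¹ a) ∈ A := hD _ (D.inv_mem hd) _ ha'
      have e1 : ρ (d * t * d⁻¹ * t⁻¹) a - a =
          ρ d (ρ t (ρ d⁻¹ (ρ t⁻¹ a)) - ρ d⁻¹ (ρ t⁻¹ a)) - (ρ t (ρ t⁻¹ a) - ρ t⁻¹ a) := by
        rw [rho_mul, rho_mul, rho_mul, map_sub, rho_self_inv ρ d, rho_self_inv ρ t]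
        abel
      have e2 : ρ t (ρ d⁻¹ (ρ t⁻¹ a)) - ρ d⁻¹ (ρ t⁻¹ a) ∈ A :=
        A.sub_mem (hSA t ht _ hda) hda
      rw [e1, map_sub, hc d hd _ e2, h1 t ht _ hda, h1 t ht _ ha']
    | one =>
      intro a ha
      rw [rho_one, sub_self, map_zero]
    | mul x y hx hy ihx ihy =>
      intro a ha
      have hya : ρ y a ∈ A := hD y (hgD y hy) a ha
      have e1 : ρ (x * y) a - a = (ρ x (ρ y a) - ρ y a) + (ρ y a - a) := by
        rw [rho_mul]; abel
      rw [e1, map_add, ihx _ hya, ihy _ ha]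
    | inv x hx ih =>
      intro a ha
      have hxa : ρ x⁻¹ a ∈ A := hD _ (D.inv_mem (hgD x hx)) a ha
      have e1 : ρ x⁻¹ a - a = -(ρ x (ρ x⁻¹ a) - ρ x⁻¹ a) := by
        rw [rho_self_inv]; abel
      rw [e1, map_neg, ih _ hxa]
  intro a ha
  have h3 := hspan ha
  refine Submodule.span_induction ?_ ?_ ?_ ?_ h3
  · rintro w ⟨n, hn, u, hu, rfl⟩
    exact h2 n hn u hu
  · exact map_zero _
  · intro x y _ _ hx hy
    rw [map_add, hx, hy]
  · intro r x _ hx
    rw [map_smul, hx]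

end SYL2
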