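import Pool.Agent.SYL2.M1
import Pool.Agent.SYL2.P3

set_option autoImplicit false

/-! # SYL2, row M3 (helper47): `cent_trivial` -/

namespace SYL2

variable {p : ℕ} [Fact p.Prime] {Γ W : Type} [Group Γ] [Finite Γ] [AddCommGroup W]
  [Module (ZMod p) W] [Finite W] (ρ : Representation (ZMod p) Γ W)

theorem cent_trivial {D S : Subgroup Γ} {A : Submodule (ZMod p) W}
    (hcop : (Nat.card D).Coprime p) (_hSD : ∀ s ∈ S, ∀ d ∈ D, s * d * s⁻¹ ∈ D)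
    (hD : Inv ρ D A) (hSA : Inv ρ S A) (hst : Star ρ D S A)
    (hfx : A ⊓ Fx ρ (DS D S) = ⊥) (hDS : DS D S ≤ D) {s : Γ} (hs : s ∈ S)
    (hc : ∀ d ∈ D, ∀ a ∈ A, ρ s (ρ d a) = ρ d (ρ s a)) : ∀ a ∈ A, ρ s a = a := by
  have hcop' : (Nat.card (DS D S)).Coprime p :=
    Nat.Coprime.coprime_dvd_left (Subgroup.card_dvd_of_le hDS) hcop
  exact cent_trivial_aux ρ hD hSA hst
    (fix_compl ρ hcop' (fun n hn u hu => hD n (hDS hn) u hu) hfx) hDS hs hc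

end SYL2
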