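import Pool.Agent.SYL2.Defs

/-!
# SYL2, row N1: a maximal `E`-invariant normal subgroup of `D` containing the kernel
-/

set_option autoImplicit false

namespace SYL2

section Coprime
variable {G : Type} [Group G] {N X D0 : Subgroup G}

theorem comm_sup_ne (hsol : Group.IsSolvable N) (h0 : D0 ≤ N) (h0' : D0 ≠ N)
    (hn0 : ∀ n ∈ N, ∀ a ∈ D0, n * a * n⁻¹ ∈ D0) : ⁅N, N⁆ ⊔ D0 ≠ N := by
  intro heq
  let H : Subgroup N := D0.subgroupOf N
  have hH : H.Normal := ⟨fun a ha n => by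
    rw [Subgroup.mem_subgroupOf] at ha ⊢
    exact hn0 n n.2 a ha⟩
  obtain ⟨y, hy, hyA⟩ : ∃ y ∈ N, y ∉ D0 := by
    by_contra hcon
    apply h0'
    apply le_antisymm h0
    intro y hy
    by_contra h
    exact hcon ⟨y, hy, h⟩
  have hnt : Nontrivial (N ⧸ H) := by
    refine ⟨⟨(QuotientGroup.mk (⟨y, hy⟩ : N) : N ⧸ H), 1, fun h => ?_⟩⟩
    rw [QuotientGroup.eq_one_iff] at h
    exact hyA h
  have h1 : commutator (N ⧸ H) < ⊤ := Group.IsSolvable.commutator_lt_top_of_nontrivial (N ⧸ H)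
  apply h1.ne
  have h2 : (commutator N).map N.subtype = ⁅N, N⁆ := by
    rw [commutator_def, Subgroup.map_commutator, ← MonoidHom.range_eq_map, Subgroup.range_subtype]
  have h3 : H.map N.subtype = D0 := by
    rw [Subgroup.subgroupOf_map_subtype]
    exact inf_eq_left.2 h0
  have h4 : commutator N ⊔ H = ⊤ := by
    apply Subgroup.map_injective N.subtype_injective
    rw [Subgroup.map_sup, h2, h3, heq, ← MonoidHom.range_eq_map, Subgroup.range_subtype]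
  have h5 : (commutator N).map (QuotientGroup.mk' H) = commutator (N ⧸ H) := by
    rw [commutator_def, commutator_def, Subgroup.map_commutator,
      Subgroup.map_top_of_surjective _ (QuotientGroup.mk'_surjective H)]
  have h6 : H.map (QuotientGroup.mk' H) = ⊥ := by
    rw [Subgroup.map_eq_bot_iff, QuotientGroup.ker_mk']
  rw [← h5, ← Subgroup.map_top_of_surjective _ (QuotientGroup.mk'_surjective H), ← h4,
    Subgroup.map_sup, h6, sup_bot_eq]

/-- a maximal `X`-invariant normal subgroup above `D0` has prime index and `X` acts by `±1` -/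
theorem exists_max_aux [Finite G] (hsol : Group.IsSolvable N) (h0 : D0 ≤ N) (h0' : D0 ≠ N)
    (hn0 : ∀ n ∈ N, ∀ a ∈ D0, n * a * n⁻¹ ∈ D0) (hX0 : ∀ x ∈ X, ∀ a ∈ D0, x * a * x⁻¹ ∈ D0)
    (hXN : ∀ x ∈ X, ∀ n ∈ N, x * n * x⁻¹ ∈ N) (hXc : ∀ x ∈ X, ∀ y ∈ X, x * y = y * x)
    (hX2 : ∀ x ∈ X, x * x = 1) :
    ∃ A : Subgroup G, D0 ≤ A ∧ ⁅N, N⁆ ≤ A ∧ A ≤ N ∧ (∀ n ∈ N, ∀ a ∈ A, n * a * n⁻¹ ∈ A) ∧
      (∀ x ∈ X, ∀ a ∈ A, x * a * x⁻¹ ∈ A) ∧ (∃ q : ℕ, q.Prime ∧ A.relIndex N = q) ∧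
      ∀ x ∈ X, (∀ n ∈ N, x * n * x⁻¹ * n⁻¹ ∈ A) ∨ (∀ n ∈ N, x * n * x⁻¹ * n ∈ A) := by
  classical
  let S : Set (Subgroup G) := {A | ⁅N, N⁆ ⊔ D0 ≤ A ∧ A ≤ N ∧ A ≠ N ∧
    ∀ x ∈ X, ∀ a ∈ A, x * a * x⁻¹ ∈ A}
  have hcle : ⁅N, N⁆ ≤ N := Subgroup.commutator_le.2 fun a ha b hb => by
    show a * b * a⁻¹ * b⁻¹ ∈ N
    exact N.mul_mem (N.mul_mem (N.mul_mem ha hb) (N.inv_mem ha)) (N.inv_mem hb)
  have hS0 : ⁅N, N⁆ ⊔ D0 ∈ S := by
    refine ⟨le_rfl, sup_le hcle h0, comm_sup_ne hsol h0 h0' hn0, fun x hx a ha => ?_⟩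
    have h1 : (⁅N, N⁆ ⊔ D0).map (MulAut.conj x).toMonoidHom ≤ ⁅N, N⁆ ⊔ D0 := by
      rw [Subgroup.map_sup, Subgroup.map_commutator]
      have h2 : N.map (MulAut.conj x).toMonoidHom ≤ N := by
        rintro _ ⟨n, hn, rfl⟩
        exact hXN x hx n hn
      have h3 : D0.map (MulAut.conj x).toMonoidHom ≤ D0 := by
        rintro _ ⟨n, hn, rfl⟩
        exact hX0 x hx n hn
      exact sup_le_sup (Subgroup.commutator_mono h2 h2) h3
    exact h1 ⟨a, ha, rfl⟩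
  obtain ⟨A, hA⟩ := (Set.toFinite S).exists_maximal ⟨_, hS0⟩
  obtain ⟨hA0, hA2, hA3, hA4⟩ := hA.prop
  have hA1 : ⁅N, N⁆ ≤ A := le_sup_left.trans hA0
  have hnorm : ∀ n ∈ N, ∀ a ∈ A, n * a * n⁻¹ ∈ A := fun n hn a ha => by
    have h1 : n * a * n⁻¹ * a⁻¹ ∈ A := hA1 (Subgroup.commutator_mem_commutator hn (hA2 ha))
    have h2 := A.mul_mem h1 ha
    rwa [inv_mul_cancel_right] at h2
  have hmax : ∀ B : Subgroup G, A ≤ B → B ≤ N → (∀ x ∈ X, ∀ a ∈ B, x * a * x⁻¹ ∈ B) →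
      B = A ∨ B = N := by
    intro B hAB hBN hB
    by_cases h : B = N
    · exact Or.inr h
    · left
      exact le_antisymm (hA.le_of_ge ⟨hA0.trans hAB, hBN, h, hB⟩ hAB) hAB
  have hsgn : ∀ x ∈ X, (∀ n ∈ N, x * n * x⁻¹ * n⁻¹ ∈ A) ∨ (∀ n ∈ N, x * n * x⁻¹ * n ∈ A) := by
    intro x hx
    let C : Subgroup G :=
      { carrier := {n | n ∈ N ∧ x * n * x⁻¹ * n⁻¹ ∈ A}
        one_mem' := ⟨N.one_mem, by
          have : x * 1 * x⁻¹ * (1 : G)⁻¹ = 1 := by group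
          rw [this]; exact A.one_mem⟩
        mul_mem' := fun {n m} hn hm => ⟨N.mul_mem hn.1 hm.1, by
          have h1 := hnorm n hn.1 _ hm.2
          have h2 : x * (n * m) * x⁻¹ * (n * m)⁻¹ =
            (x * n * x⁻¹ * n⁻¹) * (n * (x * m * x⁻¹ * m⁻¹) * n⁻¹) := by group
          rw [h2]; exact A.mul_mem hn.2 h1⟩
        inv_mem' := fun {n} hn => ⟨N.inv_mem hn.1, by
          have h1 := hnorm n⁻¹ (N.inv_mem hn.1) _ (A.inv_mem hn.2)
          have h2 : x * n⁻¹ * x⁻¹ * n⁻¹⁻¹ = n⁻¹ * (x * n * x⁻¹ * n⁻¹)⁻¹ * n⁻¹⁻¹ := by group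
          rw [h2]; exact h1⟩ }
    have hAC : A ≤ C := fun a ha => ⟨hA2 ha, A.mul_mem (hA4 x hx a ha) (A.inv_mem ha)⟩
    have hCN : C ≤ N := fun n hn => hn.1
    have hCX : ∀ y ∈ X, ∀ a ∈ C, y * a * y⁻¹ ∈ C := by
      intro y hy n hn
      refine ⟨hXN y hy n hn.1, ?_⟩
      have h1 := hA4 y hy _ hn.2
      have h2 : x * (y * n * y⁻¹) * x⁻¹ * (y * n * y⁻¹)⁻¹ = y * (x * n * x⁻¹ * n⁻¹) * y⁻¹ := by
        have h3 : y⁻¹ * x⁻¹ = x⁻¹ * y⁻¹ := by
          rw [← mul_inv_rev, ← mul_inv_rev, hXc x hx y hy]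
        calc x * (y * n * y⁻¹) * x⁻¹ * (y * n * y⁻¹)⁻¹
            = (x * y) * n * (y⁻¹ * x⁻¹) * (y * n⁻¹ * y⁻¹) := by group
          _ = (y * x) * n * (x⁻¹ * y⁻¹) * (y * n⁻¹ * y⁻¹) := by rw [h3, hXc x hx y hy]
          _ = y * (x * n * x⁻¹ * n⁻¹) * y⁻¹ := by group
      rw [h2]; exact h1
    rcases hmax C hAC hCN hCX with h | h
    · right
      intro n hn
      have hxn : x * n * x⁻¹ ∈ N := hXN x hx n hn
      have hm : n * (x * n * x⁻¹) ∈ C := by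
        refine ⟨N.mul_mem hn hxn, ?_⟩
        have h2 : x * (n * (x * n * x⁻¹)) * x⁻¹ * (n * (x * n * x⁻¹))⁻¹ =
            (x * n * x⁻¹) * n * (x * n * x⁻¹)⁻¹ * n⁻¹ := by
          have h3 : x * (n * (x * n * x⁻¹)) * x⁻¹ * (n * (x * n * x⁻¹))⁻¹ =
            (x * n * x⁻¹) * ((x * x) * n * (x * x)⁻¹) * (x * n * x⁻¹)⁻¹ * n⁻¹ := by group
          rw [h3, hX2 x hx]
          group
        rw [h2]
        exact hA1 (Subgroup.commutator_mem_commutator hxn hn)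
      rw [h] at hm
      have h4 := hnorm n⁻¹ (N.inv_mem hn) _ hm
      have h5 : x * n * x⁻¹ * n = n⁻¹ * (n * (x * n * x⁻¹)) * n⁻¹⁻¹ := by group
      rw [h5]; exact h4
    · left
      intro n hn
      have : n ∈ C := by rw [h]; exact hn
      exact this.2
  refine ⟨A, le_sup_right.trans hA0, hA1, hA2, hnorm, hA4, ?_, hsgn⟩
  -- prime index
  obtain ⟨y, hy, hyA⟩ : ∃ y ∈ N, y ∉ A := by
    by_contra hcon
    apply hA3
    apply le_antisymm hA2
    intro y hy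
    by_contra h
    exact hcon ⟨y, hy, h⟩
  have hex : ∃ m : ℕ, 0 < m ∧ y ^ m ∈ A := ⟨orderOf y, orderOf_pos y, by
    rw [pow_orderOf_eq_one]; exact A.one_mem⟩
  let m := Nat.find hex
  have hm : 0 < m ∧ y ^ m ∈ A := Nat.find_spec hex
  have hmin : ∀ i, 0 < i → i < m → y ^ i ∉ A := fun i hi hlt h =>
    Nat.find_min hex hlt ⟨hi, h⟩
  have hm1 : m ≠ 1 := fun h => hyA (by
    have := hm.2
    rwa [h, pow_one] at this)
  let q := m.minFac
  have hq : q.Prime := Nat.minFac_prime hm1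
  obtain ⟨r, hr⟩ := Nat.minFac_dvd m
  have hr' : m = q * r := hr
  have hr0 : 0 < r := by
    rcases Nat.eq_zero_or_pos r with h | h
    · rw [h, mul_zero] at hr'; omega
    · exact h
  have hrm : r < m := by
    rw [hr']
    exact (Nat.lt_mul_iff_one_lt_left hr0).2 hq.one_lt
  let z := y ^ r
  have hz : z ∈ N := N.pow_mem hy r
  have hzA : z ∉ A := hmin r hr0 hrm
  have hzq : z ^ q ∈ A := by
    show (y ^ r) ^ q ∈ A
    rw [← pow_mul, mul_comm, ← hr']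
    exact hm.2
  have hB : A ⊔ Subgroup.zpowers z = N := by
    refine (hmax (A ⊔ Subgroup.zpowers z) le_sup_left
      (sup_le hA2 (by rwa [Subgroup.zpowers_le])) ?_).resolve_left ?_
    · intro x hx
      have hle : (A ⊔ Subgroup.zpowers z) ≤
          (A ⊔ Subgroup.zpowers z).comap (MulAut.conj x).toMonoidHom := by
        refine sup_le (fun a ha => Subgroup.mem_sup_left (hA4 x hx a ha)) ?_
        rw [Subgroup.zpowers_le]
        show x * z * x⁻¹ ∈ A ⊔ Subgroup.zpowers z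
        rcases hsgn x hx with h | h
        · have h1 : x * z * x⁻¹ = (x * z * x⁻¹ * z⁻¹) * z := by group
          rw [h1]
          exact Subgroup.mul_mem _ (Subgroup.mem_sup_left (h z hz))
            (Subgroup.mem_sup_right (Subgroup.mem_zpowers z))
        · have h1 : x * z * x⁻¹ = (x * z * x⁻¹ * z) * z⁻¹ := by group
          rw [h1]
          exact Subgroup.mul_mem _ (Subgroup.mem_sup_left (h z hz))
            (Subgroup.inv_mem _ (Subgroup.mem_sup_right (Subgroup.mem_zpowers z)))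
      exact fun a ha => hle ha
    · intro h
      apply hzA
      rw [← h]
      exact Subgroup.mem_sup_right (Subgroup.mem_zpowers z)
  refine ⟨q, hq, ?_⟩
  have := Fact.mk hq
  let H : Subgroup N := A.subgroupOf N
  have hH : H.Normal := ⟨fun a ha n => by
    rw [Subgroup.mem_subgroupOf] at ha ⊢
    exact hnorm n n.2 a ha⟩
  let zb : N ⧸ H := QuotientGroup.mk (⟨z, hz⟩ : N)
  have hzb : zb ≠ 1 := fun h => by
    rw [QuotientGroup.eq_one_iff] at h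
    exact hzA h
  have hord : orderOf zb = q := by
    refine orderOf_eq_prime ?_ hzb
    show (QuotientGroup.mk (⟨z, hz⟩ : N) : N ⧸ H) ^ q = 1
    rw [← QuotientGroup.mk_pow, QuotientGroup.eq_one_iff]
    exact hzq
  have hall : ∀ g : N ⧸ H, g ∈ Subgroup.zpowers zb := by
    let K : Subgroup G := ((Subgroup.zpowers zb).comap (QuotientGroup.mk' H)).map N.subtype
    have hNK : N ≤ K := by
      rw [← hB]
      refine sup_le (fun a ha => ⟨⟨a, hA2 ha⟩, ?_, rfl⟩) ?_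
      · show (QuotientGroup.mk (⟨a, hA2 ha⟩ : N) : N ⧸ H) ∈ Subgroup.zpowers zb
        have h1 : (QuotientGroup.mk (⟨a, hA2 ha⟩ : N) : N ⧸ H) = 1 := by
          rw [QuotientGroup.eq_one_iff]
          exact ha
        rw [h1]
        exact Subgroup.one_mem _
      · rw [Subgroup.zpowers_le]
        exact ⟨⟨z, hz⟩, Subgroup.mem_zpowers zb, rfl⟩
    intro g
    obtain ⟨n, rfl⟩ := QuotientGroup.mk_surjective g
    obtain ⟨n', hn', hnn⟩ := hNK n.2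
    have : n' = n := Subtype.ext hnn
    rw [← this]
    exact hn'
  show Nat.card (N ⧸ H) = q
  rw [← hord]
  exact (orderOf_eq_card_of_forall_mem_zpowers hall).symm

end Coprime

section Actv

variable {k Γ W : Type} [Field k] [Group Γ] [AddCommGroup W] [Module k W]
  (ρ : Representation k Γ W)

theorem actv_mul (g h : Γ) (v : W) : ρ (g * h) v = ρ g (ρ h v) := by rw [_root_.map_mul]; rfl

theorem actv_one (v : W) : ρ 1 v = v := by rw [_root_.map_one]; rfl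

theorem actv_inv_self (g : Γ) (v : W) : ρ g⁻¹ (ρ g v) = v := by
  rw [← actv_mul, inv_mul_cancel, actv_one]

theorem actv_self_inv (g : Γ) (v : W) : ρ g (ρ g⁻¹ v) = v := by
  rw [← actv_mul, mul_inv_cancel, actv_one]

end Actv

section P2

variable {Γ W : Type} [Group Γ] [Finite Γ] [AddCommGroup W]
  [Module (ZMod 2) W] [Finite W] (ρ : Representation (ZMod 2) Γ W)

/-- row N1: a maximal `E`-invariant normal subgroup `M`. -/
theorem exists_max {D E : Subgroup Γ} {U : Submodule (ZMod 2) W} (h : Sit ρ D E U)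
    (hD : ∃ d ∈ D, ∃ u ∈ U, ρ d u ≠ u) :
    ∃ M : Subgroup Γ, ∃ r : ℕ, r.Prime ∧ NIn M D ∧ M.relIndex D = r ∧
      (∀ e ∈ E, ∀ m ∈ M, e * m * e⁻¹ ∈ M) ∧ (∀ d ∈ D, (∀ u ∈ U, ρ d u = u) → d ∈ M) ∧
      (∀ a ∈ D, ∀ b ∈ D, a * b * a⁻¹ * b⁻¹ ∈ M) ∧
      (∀ e ∈ E, (∀ d ∈ D, d⁻¹ * e * d * e ∈ M) ∨ (∀ d ∈ D, e * d * e * d ∈ M)) := by
  let D0 : Subgroup Γ :=
    { carrier := {d | d ∈ D ∧ ∀ u ∈ U, ρ d u = u}
      one_mem' := ⟨D.one_mem, fun u _ => actv_one ρ u⟩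
      mul_mem' := fun {a b} ha hb => ⟨D.mul_mem ha.1 hb.1, fun u hu => by
        rw [actv_mul, hb.2 u hu, ha.2 u hu]⟩
      inv_mem' := fun {a} ha => ⟨D.inv_mem ha.1, fun u hu => by
        have h1 := congrArg (ρ a⁻¹) (ha.2 u hu)
        rw [actv_inv_self] at h1
        exact h1.symm⟩ }
  have hconj : ∀ g : Γ, (∀ d ∈ D, g * d * g⁻¹ ∈ D) → (∀ u ∈ U, ρ g⁻¹ u ∈ U) →
      ∀ a ∈ D0, g * a * g⁻¹ ∈ D0 := by
    intro g hg hgU a ha
    refine ⟨hg a ha.1, fun u hu => ?_⟩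
    rw [actv_mul, actv_mul, ha.2 _ (hgU u hu), actv_self_inv]
  have hinv : ∀ e ∈ E, e⁻¹ = e := fun e he => inv_eq_of_mul_eq_one_left (h.exp e he)
  obtain ⟨M, hM0, hM1, hM2, hM3, hM4, ⟨r, hr, hMr⟩, hM6⟩ := exists_max_aux (N := D) (X := E)
    (D0 := D0) h.solv (fun x hx => hx.1) (fun heq => by
      obtain ⟨d, hd, u, hu, hne⟩ := hD
      rw [← heq] at hd
      exact hne (hd.2 u hu))
    (fun n hn => hconj n (fun d hd => D.mul_mem (D.mul_mem hn hd) (D.inv_mem hn))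
      (fun u hu => h.invD _ (D.inv_mem hn) u hu))
    (fun x hx => hconj x (fun d hd => h.nrm x hx d hd)
      (fun u hu => h.invE _ (E.inv_mem hx) u hu))
    h.nrm
    (fun x hx y hy => by
      have h1 := h.exp _ (E.mul_mem hx hy)
      have h2 : (x * y)⁻¹ = x * y := inv_eq_of_mul_eq_one_left h1
      rw [← h2, mul_inv_rev, hinv x hx, hinv y hy])
    h.exp
  refine ⟨M, r, hr, ⟨hM2, hM3⟩, hMr, hM4, fun d hd hd' => hM0 ⟨hd, hd'⟩, fun a ha b hb =>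
    hM1 (Subgroup.commutator_mem_commutator ha hb), fun e he => ?_⟩
  rcases hM6 e he with h1 | h1
  · left
    intro d hd
    have h2 := M.inv_mem (h1 d⁻¹ (D.inv_mem hd))
    have h3 : (e * d⁻¹ * e⁻¹ * d⁻¹⁻¹)⁻¹ = d⁻¹ * e * d * e := by
      rw [hinv e he]
      have : (e * d⁻¹ * e * d⁻¹⁻¹)⁻¹ = d⁻¹ * e⁻¹ * d * e⁻¹ := by group
      rw [this, hinv e he]
    rwa [h3] at h2
  · right
    intro d hd
    have h2 := h1 d hd
    rwa [hinv e he] at h2

end P2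

end SYL2
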