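import Pool.Agent.SYL2.Defs

set_option autoImplicit false

/-! # SYL2 row N2: central inversion, and general lemmas on involutions used in N4. -/

namespace SYL2

section General

variable {p : ℕ} {Γ W : Type} [Group Γ] [AddCommGroup W] [Module (ZMod p) W]
  {ρ : Representation (ZMod p) Γ W}

lemma rmul (g h : Γ) (w : W) : ρ (g * h) w = ρ g (ρ h w) := by rw [_root_.map_mul]; rfl

lemma rone (w : W) : ρ 1 w = w := by rw [_root_.map_one]; rfl

lemma rinv_self (g : Γ) (w : W) : ρ g⁻¹ (ρ g w) = w := by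
  rw [← rmul, inv_mul_cancel, rone]

lemma rself_inv (g : Γ) (w : W) : ρ g (ρ g⁻¹ w) = w := by
  rw [← rmul, mul_inv_cancel, rone]

lemma rinj (g : Γ) : Function.Injective (ρ g) := by
  intro v w h
  have := congrArg (ρ g⁻¹) h
  simpa only [rinv_self] using this

lemma rfix_inv {g : Γ} {w : W} (h : ρ g w = w) : ρ g⁻¹ w = w := by
  conv_lhs => rw [← h]
  exact rinv_self g w

lemma rsub (g : Γ) (w : W) : (ρ g - 1) w = ρ g w - w := by simp

lemma rfix_pow {g : Γ} {w : W} (h : ρ g w = w) (n : ℕ) : ρ (g ^ n) w = w := by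
  induction n with
  | zero => rw [pow_zero, rone]
  | succ n ih => rw [pow_succ, rmul, h, ih]

lemma mem_ker_rsub (g : Γ) (w : W) : w ∈ LinearMap.ker (ρ g - 1) ↔ ρ g w = w := by
  rw [LinearMap.mem_ker, rsub, sub_eq_zero]

lemma finrank_map_r (g : Γ) (U : Submodule (ZMod p) W) [Fact p.Prime] :
    Module.finrank (ZMod p) (U.map (ρ g)) = Module.finrank (ZMod p) U :=
  (LinearEquiv.finrank_eq (Submodule.equivMapOfInjective (ρ g) (rinj g) U)).symm

/-- `dim [U,e] + dim C_U(e) = dim U`. -/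
lemma rk_add_fix [Fact p.Prime] [Finite W] (e : Γ) (U : Submodule (ZMod p) W) :
    rk ρ e U + Module.finrank (ZMod p) (U ⊓ LinearMap.ker (ρ e - 1) : Submodule (ZMod p) W)
      = Module.finrank (ZMod p) U := by
  have h1 := LinearMap.finrank_range_add_finrank_ker ((ρ e - 1).domRestrict U)
  have h2 : LinearMap.range ((ρ e - 1).domRestrict U) = U.map (ρ e - 1) := by
    rw [LinearMap.range_domRestrict]
  have h3 : Module.finrank (ZMod p) (LinearMap.ker ((ρ e - 1).domRestrict U))
      = Module.finrank (ZMod p) (U ⊓ LinearMap.ker (ρ e - 1) : Submodule (ZMod p) W) := by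
    have h4 : (LinearMap.ker ((ρ e - 1).domRestrict U)).map U.subtype
        = U ⊓ LinearMap.ker (ρ e - 1) := by
      ext w
      simp only [Submodule.mem_map, LinearMap.mem_ker, Submodule.mem_inf]
      constructor
      · rintro ⟨u, hu, rfl⟩
        exact ⟨u.2, hu⟩
      · rintro ⟨hw, hk⟩
        exact ⟨⟨w, hw⟩, hk, rfl⟩
    rw [← h4]
    exact (LinearEquiv.finrank_eq (Submodule.equivMapOfInjective U.subtype
      U.injective_subtype _))
  unfold rk
  rw [← h2, ← h3]
  exact h1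

lemma finrank_le_of_le [Fact p.Prime] [Finite W] {A B : Submodule (ZMod p) W} (h : A ≤ B) :
    Module.finrank (ZMod p) A ≤ Module.finrank (ZMod p) B :=
  Submodule.finrank_mono h

end General

section GroupLemmas

variable {Γ : Type} [Group Γ]

lemma odd_order_of_mem {D : Subgroup Γ} (hodd : (Nat.card D).Coprime 2) {x : Γ} (hx : x ∈ D) :
    Odd (orderOf x) := by
  have h1 : orderOf x = orderOf (⟨x, hx⟩ : D) := (Subgroup.orderOf_mk x hx).symm
  rw [h1]
  have h2 : Odd (Nat.card D) := by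
    rwa [Nat.coprime_two_right] at hodd
  exact h2.of_dvd_nat (orderOf_dvd_natCard _)

lemma exists_sqrt {x : Γ} (h : Odd (orderOf x)) : (x ^ 2) ^ ((orderOf x + 1) / 2) = x := by
  obtain ⟨m, hm⟩ := h
  have h1 : (orderOf x + 1) / 2 = m + 1 := by omega
  rw [h1, ← pow_mul]
  have : 2 * (m + 1) = orderOf x + 1 := by omega
  rw [this, pow_succ, pow_orderOf_eq_one, one_mul]

lemma mem_of_sq_mem' {A : Subgroup Γ} {x : Γ} (h : Odd (orderOf x)) (hx : x ^ 2 ∈ A) : x ∈ A := by
  rw [← exists_sqrt h]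
  exact A.pow_mem hx _

lemma sup_zpowers_eq {M D : Subgroup Γ} (hMD : M ≤ D) (hr : (M.relIndex D).Prime) {x : Γ}
    (hx : x ∈ D) (hxM : x ∉ M) : M ⊔ Subgroup.zpowers x = D := by
  set N := M ⊔ Subgroup.zpowers x
  have hMN : M ≤ N := le_sup_left
  have hND : N ≤ D := sup_le hMD ((Subgroup.zpowers_le).2 hx)
  have hmul := Subgroup.relIndex_mul_relIndex M N D hMN hND
  have hxN : x ∈ N := (le_sup_right : Subgroup.zpowers x ≤ N) (Subgroup.mem_zpowers x)
  have h1 : M.relIndex N ≠ 1 := by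
    intro h
    rw [Subgroup.relIndex_eq_one] at h
    exact hxM (h hxN)
  have h2 : N.relIndex D = 1 := by
    rw [← hmul] at hr
    rcases Nat.prime_mul_iff.1 hr with h | h
    · exact h.2
    · exact absurd h.2 h1
  rw [Subgroup.relIndex_eq_one] at h2
  exact le_antisymm hND h2

end GroupLemmas

section Two

variable {Γ W : Type} [Group Γ] [AddCommGroup W]
  [Module (ZMod 2) W] (ρ : Representation (ZMod 2) Γ W)

variable {ρ} in
lemma fix_of_sq {x : Γ} {w : W} (h : Odd (orderOf x)) (hx : ρ (x ^ 2) w = w) : ρ x w = w := by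
  have := rfix_pow hx ((orderOf x + 1) / 2)
  rwa [exists_sqrt h] at this

variable {ρ} in
lemma einv {e : Γ} (he : e * e = 1) : e⁻¹ = e := by
  rw [inv_eq_iff_mul_eq_one]; exact he

variable {ρ} in
/-- the element `x = d⁻¹ e d e` is inverted by `e`. -/
lemma conj_com {e d : Γ} (he : e * e = 1) :
    e * (d⁻¹ * e * d * e) * e = (d⁻¹ * e * d * e)⁻¹ := by
  have hi := einv he
  have h1 : (d⁻¹ * e * d * e)⁻¹ = e⁻¹ * d⁻¹ * e⁻¹ * d := by group
  have h2 : e * (d⁻¹ * e * d * e) * e = e * d⁻¹ * e * d * (e * e) := by group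
  rw [h1, h2, hi, he, mul_one]

/-- the `x`-trick: if `e` inverts `x` and `x` has odd order then
`C_U(e) ∩ x C_U(e) ≤ C_U(x)`. -/
lemma inf_le_fixx {e x : Γ} (he : e * e = 1) (h : e * x * e = x⁻¹) (hodd : Odd (orderOf x))
    {w : W} (hw : ρ e w = w) {u : W} (hu : ρ e u = u) (hwu : w = ρ x u) :
    ρ x w = w ∧ u = w := by
  have h1 : e * x = x⁻¹ * e := by
    have : e * x * e * e = x⁻¹ * e := by rw [h]
    rwa [mul_assoc (e * x), he, mul_one] at this
  have h2 : ρ x u = ρ x⁻¹ u := by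
    have h3 : ρ e (ρ x u) = ρ x u := by rw [← hwu]; exact hw
    rw [← h3, ← rmul, h1, rmul, hu]
  have h3 : ρ (x ^ 2) u = u := by
    rw [pow_two, rmul, h2, rself_inv]
  have h6 : ρ x u = u := fix_of_sq hodd h3
  have h7 : u = w := by rw [hwu, h6]
  exact ⟨by rw [← h7]; exact h6, h7⟩

/-- `2 dim C_U(e) ≤ dim U + dim C_U(x)`. -/
lemma two_fix_le [Finite W] {D : Subgroup Γ} {U : Submodule (ZMod 2) W} (hU : Inv ρ D U) {e x : Γ}
    (he : e * e = 1) (hx : x ∈ D) (h : e * x * e = x⁻¹) (hodd : Odd (orderOf x)) :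
    2 * Module.finrank (ZMod 2) (U ⊓ LinearMap.ker (ρ e - 1) : Submodule (ZMod 2) W)
      ≤ Module.finrank (ZMod 2) U
        + Module.finrank (ZMod 2) (U ⊓ LinearMap.ker (ρ x - 1) : Submodule (ZMod 2) W) := by
  set C : Submodule (ZMod 2) W := U ⊓ LinearMap.ker (ρ e - 1) with hC
  have hle : C ⊓ C.map (ρ x) ≤ U ⊓ LinearMap.ker (ρ x - 1) := by
    rintro w ⟨hw1, u, hu, huw⟩
    have hw2 : ρ e w = w := (mem_ker_rsub e w).1 hw1.2
    have hu2 : ρ e u = u := (mem_ker_rsub e u).1 hu.2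
    exact ⟨hw1.1, (mem_ker_rsub x w).2 (inf_le_fixx ρ he h hodd hw2 hu2 huw.symm).1⟩
  have hle2 : C ⊔ C.map (ρ x) ≤ U := by
    refine sup_le inf_le_left ?_
    rintro _ ⟨u, hu, rfl⟩
    exact hU x hx u hu.1
  have h1 := Submodule.finrank_sup_add_finrank_inf_eq C (C.map (ρ x))
  have h2 := finrank_le_of_le hle2
  have h3 := finrank_le_of_le hle
  have h4 := finrank_map_r (ρ := ρ) x C
  omega

/-- row N2: central inversion (cases A2). -/
theorem central_inv [Finite W] {D E M : Subgroup Γ} {U : Submodule (ZMod 2) W} (h : Sit ρ D E U)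
    {r : ℕ} (hr : r.Prime) (hM : NIn M D) (hMr : M.relIndex D = r)
    (_hker : ∀ d ∈ D, (∀ u ∈ U, ρ d u = u) → d ∈ M)
    {e : Γ} (he : e ∈ E) (hcent : ∀ m ∈ M, ∀ u ∈ U, ρ (m⁻¹ * e * m * e) u = u)
    (hact : Act ρ D U e) :
    (∀ d ∈ D, (∃ u ∈ U, ρ (d⁻¹ * e * d * e) u ≠ u) → d⁻¹ * e * d * e ∉ M ∧
      ∀ u ∈ U, ρ (d⁻¹ * e * d * e) u = u → u = 0) ∧
    Module.finrank (ZMod 2) U ≤ 2 * rk ρ e U := by
  have hee : e * e = 1 := h.exp e he
  have hei : e⁻¹ = e := einv hee
  -- `e` commutes with `M` on `U`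
  have hcomm : ∀ m ∈ M, ∀ u ∈ U, ρ e (ρ m u) = ρ m (ρ e u) := by
    intro m hm u hu
    have h1 := hcent m hm (ρ e u) (h.invE e he u hu)
    have h2 : ρ (m⁻¹ * e * m * e) (ρ e u) = ρ m⁻¹ (ρ e (ρ m u)) := by
      rw [← rmul]
      have : m⁻¹ * e * m * e * e = m⁻¹ * (e * m) := by
        rw [mul_assoc _ e e, hee, mul_one]; group
      rw [this, rmul, rmul]
    rw [h2] at h1
    have := congrArg (ρ m) h1
    rwa [rself_inv] at this
  have key : ∀ d ∈ D, (∃ u ∈ U, ρ (d⁻¹ * e * d * e) u ≠ u) → d⁻¹ * e * d * e ∉ M ∧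
      ∀ u ∈ U, ρ (d⁻¹ * e * d * e) u = u → u = 0 := by
    intro d hd hne
    obtain ⟨x, hx⟩ : ∃ x, x = d⁻¹ * e * d * e := ⟨_, rfl⟩
    rw [← hx] at hne ⊢
    have hxD : x ∈ D := by
      have h1 : x = d⁻¹ * (e * d * e⁻¹) := by rw [hx, hei]; group
      rw [h1]
      exact D.mul_mem (D.inv_mem hd) (h.nrm e he d hd)
    have hxodd : Odd (orderOf x) := odd_order_of_mem h.odd hxD
    have hxinv : e * x * e = x⁻¹ := by rw [hx]; exact conj_com hee
    have hex : e * x = x⁻¹ * e := by
      have : e * x * e * e = x⁻¹ * e := by rw [hxinv]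
      rwa [mul_assoc (e * x), hee, mul_one] at this
    have hxM : x ∉ M := by
      intro hxM
      obtain ⟨u, hu, hne⟩ := hne
      apply hne
      apply fix_of_sq hxodd
      -- e commutes with x on U and inverts it
      have h1 := hcomm x hxM (ρ e u) (h.invE e he u hu)
      have h2 : ρ e (ρ x (ρ e u)) = ρ x⁻¹ u := by rw [← rmul, ← rmul, hxinv]
      have h3 : ρ x (ρ e (ρ e u)) = ρ x u := by rw [← rmul (ρ := ρ) e e, hee, rone]
      rw [h2, h3] at h1
      rw [pow_two, rmul, ← h1, rself_inv]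
    -- x commutes with M on U
    have hcx : ∀ m ∈ M, ∀ u ∈ U, ρ x (ρ m u) = ρ m (ρ x u) := by
      intro m hm
      -- first x ^ 2
      have hsq : ∀ u ∈ U, ρ (x ^ 2) (ρ m u) = ρ m (ρ (x ^ 2) u) := by
        intro u hu
        -- m' = x⁻¹ m x ∈ M commutes with e on U
        have hm' : x⁻¹ * m * x ∈ M := by
          have := hM.2 x⁻¹ (D.inv_mem hxD) m hm
          rwa [inv_inv] at this
        have hm'' : x * m * x⁻¹ ∈ M := hM.2 x hxD m hm
        -- ρ(x⁻¹ m x) v = ρ (x m x⁻¹) v on U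
        have heq : ∀ v ∈ U, ρ (x⁻¹ * m * x) v = ρ (x * m * x⁻¹) v := by
          intro v hv
          have h1 := hcomm _ hm' (ρ e v) (h.invE e he v hv)
          -- ρ e ρ(m') ρ e v = ρ m' v
          have h2 : ρ e (ρ (x⁻¹ * m * x) (ρ e v)) = ρ (x⁻¹ * m * x) v := by
            rw [h1, ← rmul (ρ := ρ) e e, hee, rone]
          have hme : ∀ v ∈ U, ρ (e * m * e) v = ρ m v := by
            intro v hv
            rw [rmul, rmul, ← hcomm m hm v hv, ← rmul (ρ := ρ) e e, hee, rone]
          have h3 : e * (x⁻¹ * m * x) * e = x * (e * m * e) * x⁻¹ := by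
            have h4 : e * x⁻¹ = x * e := by
              have h5 : e * x⁻¹ * e = x := by
                have h51 : (e * x * e)⁻¹ = x := by rw [hxinv, inv_inv]
                have h52 : (e * x * e)⁻¹ = e * x⁻¹ * e := by
                  simp only [mul_inv_rev, hei, mul_assoc]
                rw [← h52, h51]
              calc e * x⁻¹ = e * x⁻¹ * (e * e) := by rw [hee, mul_one]
                _ = e * x⁻¹ * e * e := by group
                _ = x * e := by rw [h5]
            have h6 : x * e = e * x⁻¹ := h4.symm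
            calc e * (x⁻¹ * m * x) * e = (e * x⁻¹) * m * (x * e) := by group
              _ = (x * e) * m * (e * x⁻¹) := by rw [h4, h6]
              _ = _ := by group
          rw [← h2, ← rmul, ← rmul]
          rw [h3, rmul, rmul, hme _ (h.invD _ (D.inv_mem hxD) v hv), ← rmul, ← rmul]
        -- conclude
        have hxu : ρ x u ∈ U := h.invD x hxD u hu
        have h7 := heq (ρ x u) hxu
        have h8 : ρ (x * m * x⁻¹) (ρ x u) = ρ x (ρ m u) := by
          rw [← rmul, ← rmul]; congr 2; group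
        have h9 : ρ (x⁻¹ * m * x) (ρ x u) = ρ x⁻¹ (ρ m (ρ (x ^ 2) u)) := by
          rw [← rmul, ← rmul, ← rmul]; congr 2; rw [pow_two]; group
        rw [h8, h9] at h7
        have h10 := congrArg (ρ x) h7
        rw [rself_inv] at h10
        rw [h10, pow_two, rmul]
      have hall : ∀ n : ℕ, ∀ u ∈ U, ρ ((x ^ 2) ^ n) (ρ m u) = ρ m (ρ ((x ^ 2) ^ n) u) := by
        intro n
        induction n with
        | zero => intro u _; rw [pow_zero, rone, rone]
        | succ n ih =>
          intro u hu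
          rw [pow_succ, rmul, hsq u hu, ih _ (h.invD _ (D.pow_mem hxD 2) u hu),
            rmul (ρ := ρ) ((x ^ 2) ^ n)]
      intro u hu
      have := hall ((orderOf x + 1) / 2) u hu
      rwa [exists_sqrt hxodd] at this
    -- x is central in D on U
    have hDgen := sup_zpowers_eq hM.1 (by rw [hMr]; exact hr) hxD hxM
    have hcD : ∀ g ∈ D, ∀ u ∈ U, ρ x (ρ g u) = ρ g (ρ x u) := by
      let T : Subgroup Γ :=
        { carrier := {g | g ∈ D ∧ ∀ u ∈ U, ρ x (ρ g u) = ρ g (ρ x u)}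
          one_mem' := ⟨D.one_mem, fun u _ => by rw [rone, rone]⟩
          mul_mem' := by
            rintro a b ⟨ha, ha'⟩ ⟨hb, hb'⟩
            refine ⟨D.mul_mem ha hb, fun u hu => ?_⟩
            rw [rmul (ρ := ρ) a b, ha' _ (h.invD b hb u hu), hb' u hu, ← rmul (ρ := ρ) a b]
          inv_mem' := by
            rintro a ⟨ha, ha'⟩
            refine ⟨D.inv_mem ha, fun u hu => ?_⟩
            have h1 := ha' (ρ a⁻¹ u) (h.invD _ (D.inv_mem ha) u hu)
            rw [rself_inv] at h1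
            rw [h1, rinv_self] }
      have hT : D ≤ T := by
        rw [← hDgen]
        refine sup_le (fun m hm => ⟨hM.1 hm, hcx m hm⟩) ?_
        rw [Subgroup.zpowers_le]
        exact ⟨hxD, fun u _ => rfl⟩
      intro g hg
      exact (hT hg).2
    refine ⟨hxM, ?_⟩
    -- the normal closure of x in D
    let N : Subgroup Γ := Subgroup.closure {y | ∃ g ∈ D, y = g * x * g⁻¹}
    have hNin : NIn N D := by
      refine ⟨?_, ?_⟩
      · rw [Subgroup.closure_le]
        rintro y ⟨g, hg, rfl⟩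
        exact D.mul_mem (D.mul_mem hg hxD) (D.inv_mem hg)
      · intro g hg n hn
        induction hn using Subgroup.closure_induction with
        | mem y hy =>
          obtain ⟨g', hg', rfl⟩ := hy
          refine Subgroup.subset_closure ⟨g * g', D.mul_mem hg hg', ?_⟩
          group
        | one => simp
        | mul a b _ _ ha hb =>
          have : g * (a * b) * g⁻¹ = (g * a * g⁻¹) * (g * b * g⁻¹) := by group
          rw [this]
          exact N.mul_mem ha hb
        | inv a _ ha =>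
          have : g * a⁻¹ * g⁻¹ = (g * a * g⁻¹)⁻¹ := by group
          rw [this]
          exact N.inv_mem ha
    have hfix : ∀ u ∈ U, ρ x u = u → u ∈ Fx ρ N := by
      intro u hu hxu n hn
      induction hn using Subgroup.closure_induction with
      | mem y hy =>
        obtain ⟨g, hg, rfl⟩ := hy
        rw [rmul, rmul, hcD _ (D.inv_mem hg) u hu, hxu, rself_inv]
      | one => exact rone u
      | mul a b _ _ ha hb => rw [rmul, hb, ha]
      | inv a _ ha => exact rfix_inv ha
    intro u hu hxu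
    rcases h.ef N hNin with h0 | h1
    · have : u ∈ U ⊓ Fx ρ N := ⟨hu, hfix u hu hxu⟩
      rw [h0] at this
      exact (Submodule.mem_bot _).1 this
    · exfalso
      obtain ⟨v, hv, hne⟩ := hne
      exact hne (h1 hv x (Subgroup.subset_closure ⟨1, D.one_mem, by group⟩))
  refine ⟨key, ?_⟩
  obtain ⟨d, hd, hne⟩ := hact
  obtain ⟨-, hfree⟩ := key d hd hne
  have hxD : d⁻¹ * e * d * e ∈ D := by
    have h1 : d⁻¹ * e * d * e = d⁻¹ * (e * d * e⁻¹) := by rw [hei]; group
    rw [h1]
    exact D.mul_mem (D.inv_mem hd) (h.nrm e he d hd)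
  have h1 := two_fix_le ρ h.invD hee hxD (conj_com (d := d) hee) (odd_order_of_mem h.odd hxD)
  have h2 : (U ⊓ LinearMap.ker (ρ (d⁻¹ * e * d * e) - 1) : Submodule (ZMod 2) W) = ⊥ := by
    rw [eq_bot_iff]
    rintro u ⟨hu, hk⟩
    rw [Submodule.mem_bot]
    exact hfree u hu ((mem_ker_rsub _ _).1 hk)
  rw [h2, finrank_bot] at h1
  have h3 := rk_add_fix (ρ := ρ) e U
  omega

end Two

end SYL2
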