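import Pool.Agent.SYL2.M1
import Pool.Agent.SYL2.N1

/-!
# SYL2, row N3: the imprimitive case
-/

set_option autoImplicit false

namespace SYL2

section P2

variable {Γ W : Type} [Group Γ] [Finite Γ] [AddCommGroup W]
  [Module (ZMod 2) W] [Finite W] (ρ : Representation (ZMod 2) Γ W)

theorem n3_map_eq {T : Subgroup Γ} {B : Submodule (ZMod 2) W} (hB : Inv ρ T B) {g : Γ}
    (hg : g ∈ T) : B.map (ρ g) = B := by
  apply le_antisymm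
  · rintro _ ⟨b, hb, rfl⟩
    exact hB g hg b hb
  · intro b hb
    exact ⟨ρ g⁻¹ b, hB _ (T.inv_mem hg) b hb, actv_self_inv ρ g b⟩

theorem n3_map_map (g k : Γ) (B : Submodule (ZMod 2) W) :
    (B.map (ρ g)).map (ρ k) = B.map (ρ (k * g)) := by
  rw [← Submodule.map_comp]
  congr 1
  ext v
  exact (actv_mul ρ k g v).symm

/-- row N3: the imprimitive case. Either `EF(M, U)` or `U` splits off a sum of minimal fixed
spaces of `M` in one `DE`-orbit, on which `D` acts without fixed members. -/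
theorem imprimitive {D E M : Subgroup Γ} {U : Submodule (ZMod 2) W} (h : Sit ρ D E U)
    (hM : NIn M D) (hME : ∀ e ∈ E, ∀ m ∈ M, e * m * e⁻¹ ∈ M)
    (hEF : ¬ EF ρ M U) :
    ∃ (𝒰 : Set (Submodule (ZMod 2) W)) (A : Submodule (ZMod 2) W) (X Y : Submodule (ZMod 2) W),
      A ∈ 𝒰 ∧ sSupIndep 𝒰 ∧ sSup 𝒰 = X ∧ X ⊓ Y = ⊥ ∧ X ⊔ Y = U ∧
      Inv ρ D X ∧ Inv ρ E X ∧ Inv ρ D Y ∧ Inv ρ E Y ∧ EF ρ D X ∧ EF ρ D Y ∧
      (∀ B ∈ 𝒰, B ≠ ⊥ ∧ Inv ρ M B ∧ EF ρ M B) ∧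
      (∀ B ∈ 𝒰, ∃ d ∈ D, ∃ e ∈ E, B = A.map (ρ (d * e))) ∧
      (∀ d ∈ D, ∀ B ∈ 𝒰, B.map (ρ d) ∈ 𝒰) ∧ (∀ e ∈ E, ∀ B ∈ 𝒰, B.map (ρ e) ∈ 𝒰) ∧
      (∀ B ∈ 𝒰, ∀ d ∈ D, B.map (ρ d) = B → (M.relIndex D).Prime → d ∈ M) := by
  have hMU : Inv ρ M U := fun m hm u hu => h.invD m (hM.1 hm) u hu
  have hMcop : (Nat.card M).Coprime 2 :=
    Nat.Coprime.coprime_dvd_left (Subgroup.card_dvd_of_le hM.1) h.odd
  obtain ⟨A, hA⟩ := MF_exists ρ hMU h.ne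
  -- elements normalising M
  have hnD : ∀ d ∈ D, ∀ x, x ∈ M ↔ d * x * d⁻¹ ∈ M := by
    intro d hd x
    refine ⟨fun hx => hM.2 d hd x hx, fun hx => ?_⟩
    have h1 := hM.2 d⁻¹ (D.inv_mem hd) _ hx
    have h2 : d⁻¹ * (d * x * d⁻¹) * d⁻¹⁻¹ = x := by group
    rwa [h2] at h1
  have hnE : ∀ e ∈ E, ∀ x, x ∈ M ↔ e * x * e⁻¹ ∈ M := by
    intro e he x
    refine ⟨fun hx => hME e he x hx, fun hx => ?_⟩
    have h1 := hME e⁻¹ (E.inv_mem he) _ hx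
    have h2 : e⁻¹ * (e * x * e⁻¹) * e⁻¹⁻¹ = x := by group
    rwa [h2] at h1
  have hnDE : ∀ d ∈ D, ∀ e ∈ E, ∀ x, x ∈ M ↔ (d * e) * x * (d * e)⁻¹ ∈ M := by
    intro d hd e he x
    rw [hnE e he x, hnD d hd (e * x * e⁻¹)]
    have : d * (e * x * e⁻¹) * d⁻¹ = (d * e) * x * (d * e)⁻¹ := by group
    rw [this]
  have hUD : ∀ d ∈ D, U.map (ρ d) = U := fun d hd => n3_map_eq ρ h.invD hd
  have hUE : ∀ e ∈ E, U.map (ρ e) = U := fun e he => n3_map_eq ρ h.invE he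
  have hUDE : ∀ d ∈ D, ∀ e ∈ E, U.map (ρ (d * e)) = U := fun d hd e he => by
    rw [← n3_map_map, hUE e he, hUD d hd]
  let 𝒰 : Set (Submodule (ZMod 2) W) := {B | ∃ d ∈ D, ∃ e ∈ E, B = A.map (ρ (d * e))}
  have hA𝒰 : A ∈ 𝒰 := by
    refine ⟨1, D.one_mem, 1, E.one_mem, ?_⟩
    rw [mul_one, _root_.map_one]
    exact (Submodule.map_id A).symm
  have hMF : ∀ B ∈ 𝒰, MF ρ M U B := by
    rintro B ⟨d, hd, e, he, rfl⟩
    exact MF_conj ρ hA (hnDE d hd e he) (hUDE d hd e he)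
  have h𝒰D : ∀ d ∈ D, ∀ B ∈ 𝒰, B.map (ρ d) ∈ 𝒰 := by
    rintro d hd B ⟨d', hd', e, he, rfl⟩
    refine ⟨d * d', D.mul_mem hd hd', e, he, ?_⟩
    rw [n3_map_map, mul_assoc]
  have h𝒰E : ∀ e ∈ E, ∀ B ∈ 𝒰, B.map (ρ e) ∈ 𝒰 := by
    rintro e he B ⟨d', hd', e', he', rfl⟩
    refine ⟨e * d' * e⁻¹, h.nrm e he d' hd', e * e', E.mul_mem he he', ?_⟩
    rw [n3_map_map]
    have : e * d' * e⁻¹ * (e * e') = e * (d' * e') := by group
    rw [this]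
  obtain ⟨hind, Y, hYU, -, hXY, hXYU, hYg⟩ := dec ρ hMcop hMU 𝒰 hMF
  have hXU : sSup 𝒰 ≤ U := by rw [← hXYU]; exact le_sup_left
  have hinvX : ∀ g : Γ, (∀ B ∈ 𝒰, B.map (ρ g) ∈ 𝒰) → ∀ u ∈ sSup 𝒰, ρ g u ∈ sSup 𝒰 := by
    intro g hg
    have h1 : sSup 𝒰 ≤ (sSup 𝒰).comap (ρ g) := by
      refine sSup_le fun B hB => ?_
      rw [← Submodule.map_le_iff_le_comap]
      exact le_sSup (hg B hB)
    exact fun u hu => h1 hu
  have hinvY : ∀ g : Γ, Y.map (ρ g) = Y → ∀ u ∈ Y, ρ g u ∈ Y := by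
    intro g hg u hu
    rw [← hg]
    exact ⟨u, hu, rfl⟩
  have hEFsub : ∀ Z : Submodule (ZMod 2) W, Z ≤ U → EF ρ D Z := by
    intro Z hZ N hN
    rcases h.ef N hN with h1 | h1
    · left
      rw [eq_bot_iff, ← h1]
      exact inf_le_inf_right _ hZ
    · right
      exact hZ.trans h1
  refine ⟨𝒰, A, sSup 𝒰, Y, hA𝒰, hind, rfl, hXY, hXYU,
    fun d hd => hinvX d (h𝒰D d hd), fun e he => hinvX e (h𝒰E e he),
    fun d hd => hinvY d (hYg d (hnD d hd) (hUD d hd) (h𝒰D d hd)),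
    fun e he => hinvY e (hYg e (hnE e he) (hUE e he) (h𝒰E e he)),
    hEFsub _ hXU, hEFsub _ hYU,
    fun B hB => ⟨(hMF B hB).1, MF_inv ρ hMU (hMF B hB), (hMF B hB).2.2⟩,
    fun B hB => hB, h𝒰D, h𝒰E, ?_⟩
  intro B hB d hd hdB hprime
  by_contra hdM
  have hBM : Inv ρ M B := MF_inv ρ hMU (hMF B hB)
  -- the stabiliser of B in D
  let T : Subgroup Γ :=
    { carrier := {x | x ∈ D ∧ B.map (ρ x) = B}
      one_mem' := ⟨D.one_mem, by rw [_root_.map_one]; exact Submodule.map_id B⟩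
      mul_mem' := fun {a b} ha hb => ⟨D.mul_mem ha.1 hb.1, by
        rw [← n3_map_map, hb.2, ha.2]⟩
      inv_mem' := fun {a} ha => ⟨D.inv_mem ha.1, by
        have h1 : (B.map (ρ a)).map (ρ a⁻¹) = B := by
          rw [n3_map_map, inv_mul_cancel, _root_.map_one]; exact Submodule.map_id B
        rwa [ha.2] at h1⟩ }
  have hMT : M ≤ T := fun m hm => ⟨hM.1 hm, n3_map_eq ρ hBM hm⟩
  have hTD : T ≤ D := fun x hx => hx.1
  have hDT : D ≤ T := by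
    have h1 := Subgroup.relIndex_mul_relIndex M T D hMT hTD
    rw [← h1] at hprime
    rcases Nat.prime_mul_iff.1 hprime with ⟨-, h2⟩ | ⟨-, h2⟩
    · exact Subgroup.relIndex_eq_one.1 h2
    · exfalso
      exact hdM (Subgroup.relIndex_eq_one.1 h2 ⟨hd, hdB⟩)
  let NB : Subgroup Γ :=
    { carrier := {m | m ∈ M ∧ ∀ b ∈ B, ρ m b = b}
      one_mem' := ⟨M.one_mem, fun u _ => actv_one ρ u⟩
      mul_mem' := fun {a b} ha hb => ⟨M.mul_mem ha.1 hb.1, fun u hu => by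
        rw [actv_mul, hb.2 u hu, ha.2 u hu]⟩
      inv_mem' := fun {a} ha => ⟨M.inv_mem ha.1, fun u hu => by
        have h1 := congrArg (ρ a⁻¹) (ha.2 u hu)
        rw [actv_inv_self] at h1
        exact h1.symm⟩ }
  have hNB : NIn NB D := by
    refine ⟨fun x hx => hM.1 hx.1, fun x hx n hn => ⟨hM.2 x hx n hn.1, fun b hb => ?_⟩⟩
    have h1 : ρ x⁻¹ b ∈ B := by
      have h2 := (hDT (D.inv_mem hx)).2
      rw [← h2]
      exact ⟨b, hb, rfl⟩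
    rw [actv_mul, actv_mul, hn.2 _ h1, actv_self_inv]
  obtain ⟨hB0, ⟨N, hN, hBN⟩, hBEF⟩ := hMF B hB
  have hNNB : N ≤ NB := by
    intro n hn
    refine ⟨hN.1 hn, fun b hb => ?_⟩
    have h1 : b ∈ U ⊓ Fx ρ N := by rw [← hBN]; exact hb
    exact h1.2 n hn
  have hBeq : U ⊓ Fx ρ NB = B := by
    apply le_antisymm
    · intro b hb
      rw [hBN]
      exact ⟨hb.1, fun n hn => hb.2 n (hNNB hn)⟩
    · intro b hb
      have h1 : b ∈ U ⊓ Fx ρ N := by rw [← hBN]; exact hb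
      exact ⟨h1.1, fun n hn => hn.2 b hb⟩
  rcases h.ef NB hNB with h1 | h1
  · exact hB0 (hBeq.symm.trans h1)
  · rw [inf_eq_left.2 h1] at hBeq
    rw [← hBeq] at hBEF
    exact hEF hBEF

end P2

end SYL2
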