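import Pool.Agent.SYL2.N2

set_option autoImplicit false
set_option linter.unusedSectionVars false

/-! # SYL2 row N3b, first part: ranks of involutions on submodules in characteristic two -/

namespace SYL2

section N3b

variable {Γ W : Type} [Group Γ] [Finite Γ] [AddCommGroup W]
  [Module (ZMod 2) W] [Finite W] (ρ : Representation (ZMod 2) Γ W)

omit [Finite W] in
theorem two_zero (w : W) : w + w = 0 := by
  have h1 : (2 : ZMod 2) • w = w + w := two_smul _ _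
  have h2 : (2 : ZMod 2) = 0 := by decide
  rw [← h1, h2, zero_smul]

theorem sub_one_sq {e : Γ} (he : e * e = 1) (w : W) : (ρ e - 1) ((ρ e - 1) w) = 0 := by
  have h1 : ρ e (ρ e w) = w := by rw [← rmul, he, rone]
  rw [rsub, rsub, map_sub, h1]
  have h := two_zero (w - ρ e w)
  rw [← neg_sub w (ρ e w), sub_neg_eq_add]
  exact h

theorem rk_mono {e : Γ} {X Y : Submodule (ZMod 2) W} (h : X ≤ Y) : rk ρ e X ≤ rk ρ e Y :=
  Submodule.finrank_mono (Submodule.map_mono h)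

theorem map_sub_one_le {e : Γ} {X : Submodule (ZMod 2) W} (hX : ∀ x ∈ X, ρ e x ∈ X) :
    X.map (ρ e - 1) ≤ X := by
  rintro _ ⟨x, hx, rfl⟩
  rw [rsub]
  exact X.sub_mem (hX x hx) hx

theorem rk_add {e : Γ} {X Y : Submodule (ZMod 2) W} (hX : ∀ x ∈ X, ρ e x ∈ X)
    (hY : ∀ y ∈ Y, ρ e y ∈ Y) (h : X ⊓ Y = ⊥) : rk ρ e (X ⊔ Y) = rk ρ e X + rk ρ e Y := by
  unfold rk
  rw [Submodule.map_sup]
  have h1 := Submodule.finrank_sup_add_finrank_inf_eq (X.map (ρ e - 1)) (Y.map (ρ e - 1))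
  have h2 : X.map (ρ e - 1) ⊓ Y.map (ρ e - 1) = ⊥ := by
    rw [eq_bot_iff, ← h]
    exact inf_le_inf (map_sub_one_le ρ hX) (map_sub_one_le ρ hY)
  rw [h2, finrank_bot, add_zero] at h1
  exact h1

theorem finrank_sup_of_inf {X Y : Submodule (ZMod 2) W} (h : X ⊓ Y = ⊥) :
    Module.finrank (ZMod 2) ↥(X ⊔ Y) =
      Module.finrank (ZMod 2) X + Module.finrank (ZMod 2) Y := by
  have h1 := Submodule.finrank_sup_add_finrank_inf_eq X Y
  rw [h, finrank_bot, add_zero] at h1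
  exact h1

theorem rk_le_half {e : Γ} (he : e * e = 1) {X : Submodule (ZMod 2) W}
    (hX : ∀ x ∈ X, ρ e x ∈ X) : 2 * rk ρ e X ≤ Module.finrank (ZMod 2) X := by
  have h1 := rk_add_fix (ρ := ρ) e X
  have h2 : rk ρ e X ≤
      Module.finrank (ZMod 2) (X ⊓ LinearMap.ker (ρ e - 1) : Submodule (ZMod 2) W) := by
    refine Submodule.finrank_mono (le_inf (map_sub_one_le ρ hX) ?_)
    rintro _ ⟨x, -, rfl⟩
    exact LinearMap.mem_ker.2 (sub_one_sq ρ he x)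
  omega

theorem rk_eq_zero {e : Γ} {X : Submodule (ZMod 2) W} :
    rk ρ e X = 0 ↔ ∀ x ∈ X, ρ e x = x := by
  unfold rk
  rw [Submodule.finrank_eq_zero, ← LinearMap.le_ker_iff_map]
  refine ⟨fun h x hx => ?_, fun h x hx => ?_⟩
  · exact (mem_ker_rsub e x).1 (h hx)
  · exact (mem_ker_rsub e x).2 (h x hx)

/-- `e` swaps `Z` and `eZ`. -/
theorem rk_swap {e : Γ} (he : e * e = 1) {Z : Submodule (ZMod 2) W}
    (h : Z ⊓ Z.map (ρ e) = ⊥) :
    Module.finrank (ZMod 2) ↥(Z ⊔ Z.map (ρ e)) = 2 * rk ρ e (Z ⊔ Z.map (ρ e)) := by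
  have h1 : (Z ⊔ Z.map (ρ e)).map (ρ e - 1) = Z.map (ρ e - 1) := by
    rw [Submodule.map_sup]
    refine sup_eq_left.2 ?_
    rintro _ ⟨_, ⟨z, hz, rfl⟩, rfl⟩
    refine ⟨-z, Z.neg_mem hz, ?_⟩
    have h2 : ρ e (ρ e z) = z := by rw [← rmul, he, rone]
    rw [map_neg, rsub, rsub, h2, neg_sub]
  have h3 : LinearMap.ker ((ρ e - 1).domRestrict Z) = ⊥ := by
    rw [eq_bot_iff]
    rintro ⟨z, hz⟩ hz0
    have h4 : (ρ e - 1) z = 0 := hz0
    rw [rsub, sub_eq_zero] at h4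
    have h5 : z ∈ Z ⊓ Z.map (ρ e) := ⟨hz, z, hz, h4⟩
    rw [h, Submodule.mem_bot] at h5
    exact Subtype.ext h5
  have h6 := LinearMap.finrank_range_add_finrank_ker ((ρ e - 1).domRestrict Z)
  rw [LinearMap.range_domRestrict, h3, finrank_bot, add_zero] at h6
  rw [finrank_sup_of_inf h, rk, h1, h6, finrank_map_r, two_mul]

theorem finite_family (𝒰 : Set (Submodule (ZMod 2) W)) : 𝒰.Finite := by
  have : Finite (Submodule (ZMod 2) W) := Finite.of_injective (fun U => (U : Set W))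
    SetLike.coe_injective
  exact Set.toFinite _

/-- induction along an independent family. -/
theorem indep_sum (f : Submodule (ZMod 2) W → ℕ) (P : Submodule (ZMod 2) W → Prop)
    (hP0 : P ⊥) (hP : ∀ X Y, P X → P Y → P (X ⊔ Y))
    (h0 : f ⊥ = 0) (hf : ∀ X Y, P X → P Y → X ⊓ Y = ⊥ → f (X ⊔ Y) = f X + f Y)
    {𝒰 : Set (Submodule (ZMod 2) W)} (hi : sSupIndep 𝒰) (hu : ∀ B ∈ 𝒰, P B) :
    P (sSup 𝒰) ∧ f (sSup 𝒰) = ∑ᶠ B : 𝒰, f B.1 := by
  have hfin := finite_family 𝒰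
  revert hi hu
  refine Set.Finite.induction_on
    (motive := fun 𝒰 _ => sSupIndep 𝒰 → (∀ B ∈ 𝒰, P B) →
      P (sSup 𝒰) ∧ f (sSup 𝒰) = ∑ᶠ B : 𝒰, f B.1) 𝒰 hfin ?_ ?_
  · intro _ _
    rw [sSup_empty]
    refine ⟨hP0, ?_⟩
    rw [h0, finsum_set_coe_eq_finsum_mem (s := (∅ : Set (Submodule (ZMod 2) W))) (f := f)]
    simp
  · intro A 𝒱 hA h𝒱 ih hi hu
    have h1 := ih (hi.mono (Set.subset_insert _ _)) (fun B hB => hu B (Set.mem_insert_of_mem _ hB))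
    rw [sSup_insert]
    have h2 : A ⊓ sSup 𝒱 = ⊥ :=
      disjoint_iff.1 (hi.disjoint_sSup (Set.mem_insert _ _) (Set.subset_insert _ _) hA)
    refine ⟨hP _ _ (hu A (Set.mem_insert _ _)) h1.1, ?_⟩
    rw [hf _ _ (hu A (Set.mem_insert _ _)) h1.1 h2, h1.2,
      finsum_set_coe_eq_finsum_mem (s := 𝒱) (f := f),
      finsum_set_coe_eq_finsum_mem (s := insert A 𝒱) (f := f), finsum_mem_insert _ hA h𝒱]

/-- `e` fixes every member of an independent family. -/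
theorem rk_sSup {e : Γ} {𝒰 : Set (Submodule (ZMod 2) W)} (hi : sSupIndep 𝒰)
    (he : ∀ B ∈ 𝒰, ∀ b ∈ B, ρ e b ∈ B) : rk ρ e (sSup 𝒰) = ∑ᶠ B : 𝒰, rk ρ e B.1 := by
  refine (indep_sum (fun X => rk ρ e X) (fun X => ∀ b ∈ X, ρ e b ∈ X) ?_ ?_ ?_ ?_ hi he).2
  · intro b hb
    rw [Submodule.mem_bot] at hb
    rw [hb, map_zero]
    exact Submodule.zero_mem _
  · intro X Y hX hY b hb
    obtain ⟨x, hx, y, hy, rfl⟩ := Submodule.mem_sup.1 hb
    rw [map_add]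
    exact Submodule.add_mem_sup (hX x hx) (hY y hy)
  · rw [rk_eq_zero]
    intro b hb
    rw [Submodule.mem_bot] at hb
    rw [hb, map_zero]
  · intro X Y hX hY h
    exact rk_add ρ hX hY h

theorem finrank_sSup {𝒰 : Set (Submodule (ZMod 2) W)} (hi : sSupIndep 𝒰) :
    Module.finrank (ZMod 2) ↥(sSup 𝒰) = ∑ᶠ B : 𝒰, Module.finrank (ZMod 2) B.1 := by
  refine (indep_sum (fun X => Module.finrank (ZMod 2) X) (fun _ => True) trivial
    (fun _ _ _ _ => trivial) ?_ ?_ hi (fun _ _ => trivial)).2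
  · exact finrank_bot _ _
  · intro X Y _ _ h
    exact finrank_sup_of_inf h

/-- disjoint subfamilies of an independent family have disjoint sums. -/
theorem inf_sSup_sSup {𝒰 𝒜 ℬ : Set (Submodule (ZMod 2) W)} (hi : sSupIndep 𝒰) (hA : 𝒜 ⊆ 𝒰)
    (hB : ℬ ⊆ 𝒰) (hd : Disjoint 𝒜 ℬ) : sSup 𝒜 ⊓ sSup ℬ = ⊥ := by
  have h1 := finrank_sSup (hi.mono (Set.union_subset hA hB))
  have h2 := finrank_sSup (hi.mono hA)
  have h3 := finrank_sSup (hi.mono hB)
  rw [finsum_set_coe_eq_finsum_mem (f := fun B : Submodule (ZMod 2) W =>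
    Module.finrank (ZMod 2) B)] at h1 h2 h3
  rw [finsum_mem_union hd (finite_family _) (finite_family _), ← h2, ← h3, sSup_union] at h1
  have h4 := Submodule.finrank_sup_add_finrank_inf_eq (sSup 𝒜) (sSup ℬ)
  have h5 : Module.finrank (ZMod 2) ↥(sSup 𝒜 ⊓ sSup ℬ) = 0 := by omega
  exact Submodule.finrank_eq_zero.1 h5

theorem map_map_invol {e : Γ} (he : e * e = 1) (B : Submodule (ZMod 2) W) :
    (B.map (ρ e)).map (ρ e) = B := by
  ext w
  constructor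
  · rintro ⟨_, ⟨b, hb, rfl⟩, rfl⟩
    rw [← rmul, he, rone]
    exact hb
  · intro hw
    exact ⟨ρ e w, ⟨w, hw, rfl⟩, by rw [← rmul, he, rone]⟩

theorem sSup_inv {e : Γ} {𝒰 : Set (Submodule (ZMod 2) W)}
    (hp : ∀ B ∈ 𝒰, B.map (ρ e) ∈ 𝒰) : ∀ x ∈ sSup 𝒰, ρ e x ∈ sSup 𝒰 := by
  have h1 : (sSup 𝒰).map (ρ e) ≤ sSup 𝒰 := by
    refine Submodule.map_le_iff_le_comap.2 (sSup_le fun B hB => ?_)
    exact Submodule.map_le_iff_le_comap.1 (le_sSup (hp B hB))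
  intro x hx
  exact h1 ⟨x, hx, rfl⟩

/-- `e` permutes an independent family and fixes no member. -/
theorem rk_free {e : Γ} (he : e * e = 1) {𝒰 : Set (Submodule (ZMod 2) W)} (hi : sSupIndep 𝒰)
    (hp : ∀ B ∈ 𝒰, B.map (ρ e) ∈ 𝒰) (hf : ∀ B ∈ 𝒰, B.map (ρ e) ≠ B) :
    Module.finrank (ZMod 2) ↥(sSup 𝒰) = 2 * rk ρ e (sSup 𝒰) := by
  obtain ⟨n, hn⟩ : ∃ n, n = 𝒰.ncard := ⟨_, rfl⟩
  induction n using Nat.strong_induction_on generalizing 𝒰 with
  | _ n ih =>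
  rcases Set.eq_empty_or_nonempty 𝒰 with rfl | ⟨B, hB⟩
  · have h0 : rk ρ e (⊥ : Submodule (ZMod 2) W) = 0 := by
      rw [rk_eq_zero]
      intro b hb
      rw [Submodule.mem_bot] at hb
      rw [hb, map_zero]
    rw [sSup_empty, h0, finrank_bot]
  · set C := B.map (ρ e) with hC
    have hCB : C ≠ B := hf B hB
    have hCU : C ∈ 𝒰 := hp B hB
    set 𝒱 : Set (Submodule (ZMod 2) W) := 𝒰 \ {B, C} with h𝒱
    have hsub : ({B, C} : Set (Submodule (ZMod 2) W)) ⊆ 𝒰 := by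
      rintro X (rfl | rfl)
      · exact hB
      · exact hCU
    have hun : 𝒰 = {B, C} ∪ 𝒱 := (Set.union_sdiff_cancel hsub).symm
    have hp' : ∀ X ∈ 𝒱, X.map (ρ e) ∈ 𝒱 := by
      rintro X ⟨hX, hX2⟩
      refine ⟨hp X hX, ?_⟩
      rintro (h1 | h1)
      · apply hX2
        right
        have h2 := map_map_invol ρ he X
        rw [h1] at h2
        exact h2.symm
      · apply hX2
        left
        have h1' : X.map (ρ e) = C := h1
        have h2 := map_map_invol ρ he X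
        rw [h1', hC, map_map_invol ρ he] at h2
        exact h2.symm
    have hlt : 𝒱.ncard < n := by
      rw [hn]
      refine Set.ncard_lt_ncard ?_ (finite_family _)
      refine ⟨Set.sdiff_subset, fun h => ?_⟩
      exact (h hB).2 (Or.inl rfl)
    have h1 := ih _ hlt (hi.mono Set.sdiff_subset) hp' (fun X hX => hf X hX.1) rfl
    have h2 : sSup ({B, C} : Set (Submodule (ZMod 2) W)) = B ⊔ C := sSup_pair
    have h3 : (B ⊔ C) ⊓ sSup 𝒱 = ⊥ := by
      rw [← h2]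
      exact inf_sSup_sSup hi hsub Set.sdiff_subset Set.disjoint_sdiff_right
    have h4 : B ⊓ B.map (ρ e) = ⊥ := by
      have := inf_sSup_sSup (𝒜 := {B}) (ℬ := {C}) hi (Set.singleton_subset_iff.2 hB)
        (Set.singleton_subset_iff.2 hCU) (Set.disjoint_singleton.2 hCB.symm)
      rw [sSup_singleton, sSup_singleton] at this
      exact this
    have h5 := rk_swap ρ he h4
    have h6 : ∀ x ∈ B ⊔ C, ρ e x ∈ B ⊔ C := by
      rw [← h2]
      refine sSup_inv ρ ?_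
      rintro X (rfl | rfl)
      · exact Or.inr rfl
      · exact Or.inl (map_map_invol ρ he B)
    have h7 := rk_add ρ h6 (sSup_inv ρ hp') h3
    rw [hun, sSup_union, h2, finrank_sup_of_inf h3, h7, h1, h5]
    ring

/-- `e` permutes an independent family and fixes exactly one member `A`. -/
theorem rk_one {e : Γ} (he : e * e = 1) {𝒰 : Set (Submodule (ZMod 2) W)} (hi : sSupIndep 𝒰)
    (hp : ∀ B ∈ 𝒰, B.map (ρ e) ∈ 𝒰) {A : Submodule (ZMod 2) W} (hA : A ∈ 𝒰)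
    (hAe : A.map (ρ e) = A) (hf : ∀ B ∈ 𝒰, B ≠ A → B.map (ρ e) ≠ B) :
    2 * rk ρ e (sSup 𝒰) + Module.finrank (ZMod 2) A =
      2 * rk ρ e A + Module.finrank (ZMod 2) ↥(sSup 𝒰) := by
  set 𝒱 : Set (Submodule (ZMod 2) W) := 𝒰 \ {A} with h𝒱
  have hsub : ({A} : Set (Submodule (ZMod 2) W)) ⊆ 𝒰 := Set.singleton_subset_iff.2 hA
  have hun : 𝒰 = {A} ∪ 𝒱 := (Set.union_sdiff_cancel hsub).symm
  have hp' : ∀ X ∈ 𝒱, X.map (ρ e) ∈ 𝒱 := by
    rintro X ⟨hX, hX2⟩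
    refine ⟨hp X hX, fun h1 => hX2 ?_⟩
    have h1' : X.map (ρ e) = A := h1
    have h2 := map_map_invol ρ he X
    rw [h1', hAe] at h2
    exact h2.symm
  have h1 := rk_free ρ he (hi.mono Set.sdiff_subset) hp'
    (fun X hX => hf X hX.1 (fun h => hX.2 h))
  have h3 : A ⊓ sSup 𝒱 = ⊥ := by
    have := inf_sSup_sSup (𝒜 := {A}) hi hsub Set.sdiff_subset Set.disjoint_sdiff_right
    rwa [sSup_singleton] at this
  have h4 : ∀ x ∈ A, ρ e x ∈ A := by
    intro x hx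
    have : ρ e x ∈ A.map (ρ e) := ⟨x, hx, rfl⟩
    rwa [hAe] at this
  have h7 := rk_add ρ h4 (sSup_inv ρ hp') h3
  have h8 := finrank_sup_of_inf h3
  have h9 : sSup 𝒰 = A ⊔ sSup 𝒱 := by
    conv_lhs => rw [hun]
    rw [sSup_union, sSup_singleton]
  rw [h9, h8, h7, h1]
  ring

end N3b

end SYL2
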