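import Pool.Agent.SYL2.N3b

set_option autoImplicit false
set_option linter.unusedSectionVars false

/-! # SYL2 row N3b, second part: commutator subgroups and one orbit -/

namespace SYL2

section N3c

/-- `[D, e]` as a closure. -/
def ComE {Γ : Type} [Group Γ] (D : Subgroup Γ) (e : Γ) : Subgroup Γ :=
  Subgroup.closure {x | ∃ d ∈ D, x = d⁻¹ * e * d * e}

theorem ComE_NIn {Γ : Type} [Group Γ] {D : Subgroup Γ} {e : Γ} (he : e * e = 1)
    (heD : ∀ d ∈ D, e * d * e⁻¹ ∈ D) : NIn (ComE D e) D := by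
  have hi : e⁻¹ = e := einv he
  refine ⟨?_, ?_⟩
  · rw [ComE, Subgroup.closure_le]
    rintro _ ⟨d, hd, rfl⟩
    have h1 : d⁻¹ * e * d * e = d⁻¹ * (e * d * e⁻¹) := by rw [hi]; group
    rw [h1]
    exact D.mul_mem (D.inv_mem hd) (heD d hd)
  · intro x hx n hn
    refine Subgroup.closure_induction
      (p := fun n _ => x * n * x⁻¹ ∈ ComE D e) ?_ ?_ ?_ ?_ hn
    · rintro _ ⟨d, hd, rfl⟩
      have h1 : (d * x⁻¹)⁻¹ * e * (d * x⁻¹) * e ∈ ComE D e :=
        Subgroup.subset_closure ⟨d * x⁻¹, D.mul_mem hd (D.inv_mem hx), rfl⟩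
      have h2 : (x⁻¹)⁻¹ * e * x⁻¹ * e ∈ ComE D e :=
        Subgroup.subset_closure ⟨x⁻¹, D.inv_mem hx, rfl⟩
      have h3 : x * (d⁻¹ * e * d * e) * x⁻¹ =
          ((d * x⁻¹)⁻¹ * e * (d * x⁻¹) * e) * ((x⁻¹)⁻¹ * e * x⁻¹ * e)⁻¹ := by
        have h4 : ((x⁻¹)⁻¹ * e * x⁻¹ * e)⁻¹ = e⁻¹ * x * e⁻¹ * x⁻¹ := by group
        rw [h4, hi]
        have h5 : (d * x⁻¹)⁻¹ * e * (d * x⁻¹) * e * (e * x * e * x⁻¹) =
          x * d⁻¹ * e * d * x⁻¹ * (e * e) * x * e * x⁻¹ := by group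
        rw [h5, he]
        group
      rw [h3]
      exact Subgroup.mul_mem _ h1 (Subgroup.inv_mem _ h2)
    · rw [mul_one, mul_inv_cancel]
      exact Subgroup.one_mem _
    · intro a b _ _ ha hb
      have h1 : x * (a * b) * x⁻¹ = (x * a * x⁻¹) * (x * b * x⁻¹) := by group
      rw [h1]
      exact Subgroup.mul_mem _ ha hb
    · intro a _ ha
      have h1 : x * a⁻¹ * x⁻¹ = (x * a * x⁻¹)⁻¹ := by group
      rw [h1]
      exact Subgroup.inv_mem _ ha

/-- a square root of `x = d⁻¹ e d e` inverted by `e`. -/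
theorem exists_half {Γ : Type} [Group Γ] [Finite Γ] {D M : Subgroup Γ}
    (hodd : (Nat.card D).Coprime 2) (hMD : M ≤ D) {e d : Γ} (he : e * e = 1)
    (hx : d⁻¹ * e * d * e ∈ M) :
    ∃ y ∈ M, y * y = d⁻¹ * e * d * e ∧ e * y * e = y⁻¹ := by
  set x := d⁻¹ * e * d * e with hxd
  have h1 : Odd (orderOf x) := odd_order_of_mem hodd (hMD hx)
  have h2 : e * x * e = x⁻¹ := conj_com he
  refine ⟨x ^ ((orderOf x + 1) / 2), M.pow_mem hx _, ?_, ?_⟩
  · rw [← pow_add, ← two_mul, pow_mul]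
    exact exists_sqrt h1
  · have h3 : ∀ n : ℕ, e * x ^ n * e = (x ^ n)⁻¹ := by
      intro n
      induction n with
      | zero => rw [pow_zero, mul_one, he, inv_one]
      | succ n ih =>
        have h4 : e * x ^ (n + 1) * e = (e * x * e) * (e * x ^ n * e) := by
          have h5 : (e * x * e) * (e * x ^ n * e) = e * x * (e * e) * x ^ n * e := by group
          rw [h5, he, mul_one, pow_succ']
          group
        rw [h4, h2, ih, ← mul_inv_rev, ← pow_succ]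
    exact h3 _

variable {Γ W : Type} [Group Γ] [Finite Γ] [AddCommGroup W]
  [Module (ZMod 2) W] [Finite W] (ρ : Representation (ZMod 2) Γ W)

/-- the commutator subgroup `[D, e]` is normal in `D`: nontrivial action on every submodule. -/
theorem act_sub {D E : Subgroup Γ} {U X : Submodule (ZMod 2) W} (h : Sit ρ D E U) {e : Γ}
    (he : e ∈ E) (hact : Act ρ D U e) (hX : X ≤ U) (hX0 : X ≠ ⊥) : Act ρ D X e := by
  have hee := h.exp e he
  have hN : NIn (ComE D e) D := ComE_NIn hee (h.nrm e he)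
  have h1 : U ⊓ Fx ρ (ComE D e) = ⊥ := by
    rcases h.ef _ hN with h2 | h2
    · exact h2
    · exfalso
      obtain ⟨d, hd, u, hu, hne⟩ := hact
      exact hne (h2 hu _ (Subgroup.subset_closure ⟨d, hd, rfl⟩))
  by_contra hcon
  apply hX0
  rw [eq_bot_iff, ← h1]
  intro x hx
  refine ⟨hX hx, ?_⟩
  intro n hn
  refine Subgroup.closure_induction (p := fun n _ => ρ n x = x) ?_ ?_ ?_ ?_ hn
  · rintro _ ⟨d, hd, rfl⟩
    by_contra h3
    exact hcon ⟨d, hd, x, hx, h3⟩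
  · exact rone x
  · intro a b _ _ ha hb
    rw [rmul, hb, ha]
  · intro a _ ha
    exact rfix_inv ha

/-- `[D, e] = [M, e]` if `e` is trivial on `D / M`. -/
theorem act_M {D M : Subgroup Γ} (hodd : (Nat.card D).Coprime 2) (hMD : M ≤ D) {e : Γ}
    (he : e * e = 1) (h : ∀ d ∈ D, d⁻¹ * e * d * e ∈ M) {X : Submodule (ZMod 2) W}
    (hact : Act ρ D X e) : Act ρ M X e := by
  obtain ⟨d, hd, u, hu, hne⟩ := hact
  obtain ⟨y, hy, hyy, hey⟩ := exists_half hodd hMD he (h d hd)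
  refine ⟨y, hy, u, hu, fun h1 => hne ?_⟩
  have h2 : y⁻¹ * e * y * e = (d⁻¹ * e * d * e)⁻¹ := by
    have h3 : y⁻¹ * e * y * e = y⁻¹ * (e * y * e) := by group
    rw [h3, hey, ← hyy, mul_inv_rev]
  rw [h2] at h1
  have h4 := rfix_inv h1
  rwa [inv_inv] at h4

/-- centraliser covers the quotient: `e` trivial on `D / M`, then every coset `d M` contains an
element commuting with `e`. -/
theorem exists_comm {Γ : Type} [Group Γ] [Finite Γ] {D M : Subgroup Γ}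
    (hodd : (Nat.card D).Coprime 2) (hM : NIn M D) {e : Γ} (he : e * e = 1)
    (_heD : ∀ d ∈ D, e * d * e⁻¹ ∈ D) (h : ∀ d ∈ D, d⁻¹ * e * d * e ∈ M) {d : Γ} (hd : d ∈ D) :
    ∃ m ∈ M, e * (d * m) = (d * m) * e := by
  obtain ⟨y, hy, hyy, hey⟩ := exists_half hodd hM.1 he (h d hd)
  refine ⟨y, hy, ?_⟩
  have h1 : e * d * e = d * (y * y) := by
    rw [hyy]
    have h2 : d * (d⁻¹ * e * d * e) = e * d * e := by group
    rw [h2]
  have h3 : e * (d * y) = (e * d * e) * (e * y * e) * e := by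
    have h4 : (e * d * e) * (e * y * e) * e = e * d * (e * e) * y * (e * e) := by group
    rw [h4, he]
    group
  rw [h3, h1, hey]
  group

theorem map_rho_mul (g k : Γ) (B : Submodule (ZMod 2) W) :
    B.map (ρ (g * k)) = (B.map (ρ k)).map (ρ g) := by
  ext w
  constructor
  · rintro ⟨b, hb, rfl⟩
    exact ⟨ρ k b, ⟨b, hb, rfl⟩, (rmul g k b).symm⟩
  · rintro ⟨_, ⟨b, hb, rfl⟩, rfl⟩
    exact ⟨b, hb, rmul g k b⟩

theorem map_rho_one (B : Submodule (ZMod 2) W) : B.map (ρ (1 : Γ)) = B := by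
  ext w
  constructor
  · rintro ⟨b, hb, rfl⟩
    rw [rone]
    exact hb
  · intro hw
    exact ⟨w, hw, rone w⟩

theorem map_of_inv {M : Subgroup Γ} {B : Submodule (ZMod 2) W} (h : Inv ρ M B) {m : Γ}
    (hm : m ∈ M) : B.map (ρ m) = B := by
  refine le_antisymm ?_ ?_
  · rintro _ ⟨b, hb, rfl⟩
    exact h m hm b hb
  · intro b hb
    exact ⟨ρ m⁻¹ b, h _ (M.inv_mem hm) b hb, rself_inv m b⟩

theorem map_inv_eq {g : Γ} {A B : Submodule (ZMod 2) W} (h : A.map (ρ g) = B) :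
    B.map (ρ g⁻¹) = A := by
  rw [← h, ← map_rho_mul, inv_mul_cancel, map_rho_one]

/-- one `D`-orbit of length `r` odd: the structure of the action of `E` on the members. `A₀` is
fixed by `E`, and every member is `d A₀`. -/
theorem one_orbit {D E M : Subgroup Γ} {U : Submodule (ZMod 2) W} (h : Sit ρ D E U)
    (hM : NIn M D) (_hr : (M.relIndex D).Prime) {𝒰 : Set (Submodule (ZMod 2) W)}
    {A : Submodule (ZMod 2) W} (hA : A ∈ 𝒰) (horb : ∀ B ∈ 𝒰, ∃ d ∈ D, B = A.map (ρ d))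
    (hD : ∀ d ∈ D, ∀ B ∈ 𝒰, B.map (ρ d) ∈ 𝒰) (hE : ∀ e ∈ E, ∀ B ∈ 𝒰, B.map (ρ e) ∈ 𝒰)
    (hMB : ∀ B ∈ 𝒰, Inv ρ M B) (hfree : ∀ B ∈ 𝒰, ∀ d ∈ D, B.map (ρ d) = B → d ∈ M) :
    ∃ A₀ ∈ 𝒰, (∀ e ∈ E, A₀.map (ρ e) = A₀) ∧ (∀ B ∈ 𝒰, ∃ d ∈ D, B = A₀.map (ρ d)) ∧
      𝒰.ncard = M.relIndex D ∧
      (∀ e ∈ E, (∀ d ∈ D, d⁻¹ * e * d * e ∈ M) → ∀ B ∈ 𝒰, B.map (ρ e) = B) ∧
      (∀ e ∈ E, (∀ d ∈ D, e * d * e * d ∈ M) → ∀ B ∈ 𝒰, B ≠ A₀ → B.map (ρ e) ≠ B) := by
  -- the number of members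
  have hcard : 𝒰.ncard = M.relIndex D := by
    have hwd : ∀ a b : D, (QuotientGroup.leftRel (M.subgroupOf D)) a b →
        (⟨A.map (ρ (a : Γ)), hD a a.2 A hA⟩ : 𝒰) = ⟨A.map (ρ (b : Γ)), hD b b.2 A hA⟩ := by
      intro a b hab
      rw [QuotientGroup.leftRel_apply, Subgroup.mem_subgroupOf] at hab
      apply Subtype.ext
      have h1 : (b : Γ) = a * ((a : Γ)⁻¹ * b) := by group
      change A.map (ρ (a : Γ)) = A.map (ρ (b : Γ))
      have hab' : (a : Γ)⁻¹ * (b : Γ) ∈ M := hab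
      rw [h1, map_rho_mul, map_of_inv ρ (hMB A hA) hab']
    let f : (D ⧸ M.subgroupOf D) → 𝒰 := Quotient.lift (fun a : D =>
      (⟨A.map (ρ (a : Γ)), hD a a.2 A hA⟩ : 𝒰)) hwd
    have hf : Function.Bijective f := by
      constructor
      · intro a b
        refine Quotient.inductionOn₂ a b fun a b hab => ?_
        apply Quotient.sound
        change (QuotientGroup.leftRel (M.subgroupOf D)) a b
        rw [QuotientGroup.leftRel_apply, Subgroup.mem_subgroupOf]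
        have h1 : A.map (ρ (a : Γ)) = A.map (ρ (b : Γ)) := congrArg Subtype.val hab
        change (a : Γ)⁻¹ * (b : Γ) ∈ M
        refine hfree A hA _ (D.mul_mem (D.inv_mem a.2) b.2) ?_
        rw [map_rho_mul, ← h1]
        exact map_inv_eq ρ rfl
      · rintro ⟨B, hB⟩
        obtain ⟨d, hd, rfl⟩ := horb B hB
        exact ⟨Quotient.mk _ ⟨d, hd⟩, rfl⟩
    rw [← Nat.card_coe_set_eq, ← Nat.card_eq_of_bijective f hf]
    rfl
  -- a member fixed by `E`
  have hfixed : ∃ A₀ ∈ 𝒰, ∀ e ∈ E, A₀.map (ρ e) = A₀ := by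
    let act : MulAction E 𝒰 :=
      { smul := fun e B => ⟨B.1.map (ρ (e : Γ)), hE e e.2 B.1 B.2⟩
        one_smul := fun B => Subtype.ext (map_rho_one ρ B.1)
        mul_smul := fun a b B => Subtype.ext (map_rho_mul ρ a b B.1) }
    have hp : IsPGroup 2 E := by
      intro e
      refine ⟨1, ?_⟩
      rw [pow_one, pow_two]
      exact Subtype.ext (h.exp e e.2)
    have hodd : ¬ 2 ∣ Nat.card 𝒰 := by
      rw [Nat.card_coe_set_eq, hcard]
      intro h2
      have h3 : (M.relIndex D) ∣ Nat.card D := Subgroup.index_dvd_card _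
      have h4 := h.odd
      rw [Nat.coprime_two_right] at h4
      exact (Nat.not_even_iff_odd.2 h4) (even_iff_two_dvd.2 (h2.trans h3))
    have : Finite 𝒰 := (finite_family 𝒰).to_subtype
    have : Fact (Nat.Prime 2) := ⟨Nat.prime_two⟩
    obtain ⟨B, hB⟩ := hp.nonempty_fixed_point_of_prime_not_dvd_card 𝒰 hodd
    refine ⟨B.1, B.2, fun e he => ?_⟩
    exact congrArg Subtype.val (hB ⟨e, he⟩)
  obtain ⟨A₀, hA₀, hEA₀⟩ := hfixed
  have horb₀ : ∀ B ∈ 𝒰, ∃ d ∈ D, B = A₀.map (ρ d) := by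
    intro B hB
    obtain ⟨a, ha, h1⟩ := horb A₀ hA₀
    obtain ⟨b, hb, h2⟩ := horb B hB
    refine ⟨b * a⁻¹, D.mul_mem hb (D.inv_mem ha), ?_⟩
    rw [map_rho_mul, map_inv_eq ρ h1.symm, h2]
  refine ⟨A₀, hA₀, hEA₀, horb₀, hcard, ?_, ?_⟩
  · intro e he hx B hB
    obtain ⟨d, hd, rfl⟩ := horb₀ B hB
    have hee := h.exp e he
    have h1 : e * d = d * (d⁻¹ * e * d * e) * e := by
      have h2 : d * (d⁻¹ * e * d * e) * e = e * d * (e * e) := by group
      rw [h2, hee, mul_one]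
    rw [← map_rho_mul, h1, map_rho_mul, hEA₀ e he, map_rho_mul,
      map_of_inv ρ (hMB A₀ hA₀) (hx d hd)]
  · intro e he hx B hB hne heB
    obtain ⟨d, hd, rfl⟩ := horb₀ B hB
    have hee := h.exp e he
    apply hne
    have h1 : e * d = d⁻¹ * (d * (e * d * e * d) * d⁻¹) * e := by
      have h2 : d⁻¹ * (d * (e * d * e * d) * d⁻¹) * e = e * d * (e * e) := by group
      rw [h2, hee, mul_one]
    have h3 : (A₀.map (ρ d)).map (ρ e) = A₀.map (ρ d⁻¹) := by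
      rw [← map_rho_mul, h1, map_rho_mul, hEA₀ e he, map_rho_mul,
        map_of_inv ρ (hMB A₀ hA₀) (hM.2 d hd _ (hx d hd))]
    rw [h3] at heB
    have h4 : A₀.map (ρ (d * d)) = A₀ := by
      rw [map_rho_mul, ← heB, ← map_rho_mul, mul_inv_cancel, map_rho_one]
    have h5 : d * d ∈ M := hfree A₀ hA₀ _ (D.mul_mem hd hd) h4
    have h6 : d ∈ M := by
      refine mem_of_sq_mem' (odd_order_of_mem h.odd hd) ?_
      rw [pow_two]
      exact h5
    exact map_of_inv ρ (hMB A₀ hA₀) h6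

end N3c

end SYL2
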