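import Pool.Agent.SYL2.N1
import Pool.Agent.SYL2.N3
import Pool.Agent.SYL2.N3c

set_option autoImplicit false

/-! # SYL2 row N4: Lemma (1). -/

namespace SYL2

section P2

variable {Γ W : Type} [Group Γ] [Finite Γ] [AddCommGroup W]
  [Module (ZMod 2) W] [Finite W] (ρ : Representation (ZMod 2) Γ W)

lemma n4_solv_of_le {Γ : Type} [Group Γ] {M D : Subgroup Γ} (h : M ≤ D) (hD : Group.IsSolvable D) :
    Group.IsSolvable M :=
  @Group.isSolvable_of_isSolvable_injective M D _ _ (Subgroup.inclusion h) (Subgroup.inclusion_injective h) hD

lemma n4_mem_zpowers {Γ : Type} [Group Γ] {e x : Γ} (he : e * e = 1)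
    (hx : x ∈ Subgroup.zpowers e) : x = 1 ∨ x = e := by
  obtain ⟨n, rfl⟩ := Subgroup.mem_zpowers_iff.1 hx
  have h2 : e ^ (2 : ℤ) = 1 := by
    rw [zpow_ofNat, pow_two]; exact he
  rcases Int.even_or_odd' n with ⟨m, rfl | rfl⟩
  · left
    rw [zpow_mul, h2, one_zpow]
  · right
    rw [zpow_add, zpow_mul, h2, one_zpow, one_mul, zpow_one]

lemma n4_map_map {k Γ W : Type} [CommRing k] [Group Γ] [AddCommGroup W] [Module k W]
    (ρ : Representation k Γ W) (g h : Γ) (U : Submodule k W) :
    (U.map (ρ g)).map (ρ h) = U.map (ρ (h * g)) := by
  rw [_root_.map_mul]; exact (Submodule.map_comp _ _ _).symm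

/-- row N4: Lemma (1). -/
theorem lemma_one {D : Subgroup Γ} {U : Submodule (ZMod 2) W} {e : Γ}
    (h : Sit ρ D (Subgroup.zpowers e) U) (hact : Act ρ D U e) :
    Module.finrank (ZMod 2) U ≤ 3 * rk ρ e U := by
  classical
  have key : ∀ n : ℕ, ∀ (D : Subgroup Γ) (U : Submodule (ZMod 2) W),
      Nat.card D + Module.finrank (ZMod 2) U ≤ n → Sit ρ D (Subgroup.zpowers e) U →
      Act ρ D U e → Module.finrank (ZMod 2) U ≤ 3 * rk ρ e U := by
    intro n
    induction n with
    | zero =>
      intro D U hn h hact
      have : 0 < Nat.card D := Nat.card_pos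
      omega
    | succ n ih =>
      intro D U hn h hact
      have heE : e ∈ Subgroup.zpowers e := Subgroup.mem_zpowers e
      have hee : e * e = 1 := h.exp e heE
      have hei : e⁻¹ = e := einv hee
      have hcomD : ∀ d ∈ D, d⁻¹ * e * d * e ∈ D := by
        intro d hd
        have h1 : d⁻¹ * e * d * e = d⁻¹ * (e * d * e⁻¹) := by rw [hei]; group
        rw [h1]
        exact D.mul_mem (D.inv_mem hd) (h.nrm e heE d hd)
      have hDU : ∃ d ∈ D, ∃ u ∈ U, ρ d u ≠ u := by
        obtain ⟨d, hd, u, hu, hne⟩ := hact
        exact ⟨_, hcomD d hd, u, hu, hne⟩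
      obtain ⟨M, r, hr, hM, hMr, hME, hker, -, hE⟩ := exists_max ρ h hDU
      have hcardlt : Nat.card M < Nat.card D := by
        have h1 : M ≠ D := by
          rintro rfl
          rw [Subgroup.relIndex_self] at hMr
          exact hr.one_lt.ne hMr
        have h2 : Nat.card M ≤ Nat.card D := Subgroup.card_le_of_le hM.1
        rcases h2.lt_or_eq with h3 | h3
        · exact h3
        · exact absurd (Subgroup.eq_of_le_of_card_ge hM.1 h3.ge) h1
      have hMcop : (Nat.card M).Coprime 2 :=
        Nat.Coprime.coprime_dvd_left (Subgroup.card_dvd_of_le hM.1) h.odd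
      -- the situation for `M` and a submodule `B`
      have sitM : ∀ B : Submodule (ZMod 2) W, B ≠ ⊥ → Inv ρ M B → (∀ b ∈ B, ρ e b ∈ B) →
          EF ρ M B → Sit ρ M (Subgroup.zpowers e) B := by
        intro B hB0 hBM hBe hBEF
        refine ⟨hMcop, n4_solv_of_le hM.1 h.solv, h.exp, hME, hBM, ?_, hBEF, hB0⟩
        intro x hx b hb
        rcases n4_mem_zpowers hee hx with rfl | rfl
        · rw [rone]; exact hb
        · exact hBe b hb
      by_cases hEF : EF ρ M U
      · by_cases hactM : Act ρ M U e
        · exact ih M U (by omega) (sitM U h.ne (fun m hm => h.invD m (hM.1 hm)) (h.invE e heE) hEF)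
            hactM
        · have hcent : ∀ m ∈ M, ∀ u ∈ U, ρ (m⁻¹ * e * m * e) u = u := by
            intro m hm u hu
            by_contra hcon
            exact hactM ⟨m, hm, u, hu, hcon⟩
          have := (central_inv ρ h hr hM hMr hker heE hcent hact).2
          omega
      · obtain ⟨𝒰, A, X, Y, hA, hind, hsup, hXY, hXYU, hDX, hEX, hDY, hEY, hEFX, hEFY, hB, htr,
          hDp, hEp, hfree⟩ := imprimitive ρ h hM hME hEF
        have hA0 : A ≠ ⊥ := (hB A hA).1
        have hAX : A ≤ X := by rw [← hsup]; exact le_sSup hA
        have hX0 : X ≠ ⊥ := fun h0 => hA0 (by rw [eq_bot_iff, ← h0]; exact hAX)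
        have hXU : X ≤ U := by rw [← hXYU]; exact le_sup_left
        have hYU : Y ≤ U := by rw [← hXYU]; exact le_sup_right
        by_cases hY0 : Y = ⊥
        · -- U is the sum of the family
          have hUX : sSup 𝒰 = U := by
            rw [hsup, ← hXYU, hY0, sup_bot_eq]
          have hrp : (M.relIndex D).Prime := by rw [hMr]; exact hr
          have hfree' : ∀ B ∈ 𝒰, ∀ d ∈ D, B.map (ρ d) = B → d ∈ M :=
            fun B hB' d hd hBd => hfree B hB' d hd hBd hrp
          have hBU : ∀ B ∈ 𝒰, B ≤ U := fun B hB' => by rw [← hUX]; exact le_sSup hB'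
          by_cases horb : ∀ B ∈ 𝒰, ∃ d ∈ D, B = A.map (ρ d)
          · obtain ⟨A₀, hA₀, hA₀E, hA₀orb, hcard, htriv, hinv⟩ := one_orbit ρ h hM hrp hA horb hDp hEp
              (fun B hB' => (hB B hB').2.1) hfree'
            rcases hE e heE with hE1 | hE1
            · -- e fixes all members
              have hfixB := htriv e heE hE1
              have hBe : ∀ B ∈ 𝒰, ∀ b ∈ B, ρ e b ∈ B := by
                intro B hB' b hb
                have := hfixB B hB'
                rw [← this]
                exact ⟨b, hb, rfl⟩
              have h1 := finrank_sSup hind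
              have h2 := rk_sSup ρ hind (e := e) hBe
              rw [hUX] at h1 h2
              have hfin : Fintype 𝒰 := Fintype.ofFinite 𝒰
              rw [h1, h2, finsum_eq_sum_of_fintype, finsum_eq_sum_of_fintype, Finset.mul_sum]
              refine Finset.sum_le_sum fun B _ => ?_
              have hB1 := hB B.1 B.2
              refine ih M B.1 ?_ (sitM B.1 hB1.1 hB1.2.1 (hBe B.1 B.2) hB1.2.2) ?_
              · have := finrank_le_of_le (hBU B.1 B.2)
                omega
              · exact act_M ρ h.odd hM.1 hee hE1 (act_sub ρ h heE hact (hBU B.1 B.2) hB1.1)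
            · -- e inverts D / M
              have h1 := rk_one ρ hee hind (hEp e heE) hA₀ (hA₀E e heE) (hinv e heE hE1)
              have h2 := finrank_sSup hind
              rw [hUX] at h1 h2
              have h3 : ∀ B : 𝒰, Module.finrank (ZMod 2) B.1 = Module.finrank (ZMod 2) A₀ := by
                rintro ⟨B, hB'⟩
                obtain ⟨d, -, rfl⟩ := hA₀orb B hB'
                exact finrank_map_r d A₀
              have h4 : Module.finrank (ZMod 2) U = r * Module.finrank (ZMod 2) A₀ := by
                have hfin : Fintype 𝒰 := Fintype.ofFinite 𝒰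
                rw [h2, finsum_congr h3, finsum_eq_sum_of_fintype, Finset.sum_const, smul_eq_mul,
                  Finset.card_univ, ← Nat.card_eq_fintype_card, ← hMr, ← hcard]
                rfl
              have h5 : 3 ≤ r := by
                have h6 := hr.two_le
                have h7 : r ≠ 2 := by
                  rintro rfl
                  have h8 : M.relIndex D ∣ Nat.card D := Subgroup.relIndex_dvd_card M D
                  rw [hMr] at h8
                  have h9 := Nat.Coprime.coprime_dvd_left h8 h.odd
                  norm_num at h9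
                omega
              have h6 : 3 * Module.finrank (ZMod 2) A₀ ≤ Module.finrank (ZMod 2) U := by
                rw [h4]; exact Nat.mul_le_mul_right _ h5
              omega
          · -- two D-orbits, swapped by e
            have hmove : ∀ B ∈ 𝒰, B.map (ρ e) ≠ B := by
              intro B hB' hBe
              apply horb
              -- eA is in the D-orbit of A
              have heA : ∃ d ∈ D, A.map (ρ e) = A.map (ρ d) := by
                obtain ⟨d, hd, e', he', rfl⟩ := htr B hB'
                rcases n4_mem_zpowers hee he' with he1 | he1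
                · rw [he1, mul_one, n4_map_map] at hBe
                  refine ⟨(e * d * e⁻¹)⁻¹ * d, D.mul_mem (D.inv_mem (h.nrm e heE d hd)) hd, ?_⟩
                  rw [← n4_map_map, ← hBe, n4_map_map]
                  congr 2
                  group
                · rw [he1, n4_map_map] at hBe
                  refine ⟨d⁻¹ * (e * d * e⁻¹), D.mul_mem (D.inv_mem hd) (h.nrm e heE d hd), ?_⟩
                  have h1 : e * d * e⁻¹ = e * (d * e) := by rw [hei]; group
                  rw [h1, ← n4_map_map, hBe, n4_map_map]
                  congr 2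
                  group
              obtain ⟨d₀, hd₀, heA⟩ := heA
              intro B hB'
              obtain ⟨d, hd, e', he', rfl⟩ := htr B hB'
              rcases n4_mem_zpowers hee he' with he1 | he1
              · rw [he1, mul_one]
                exact ⟨d, hd, rfl⟩
              · rw [he1]
                refine ⟨d * d₀, D.mul_mem hd hd₀, ?_⟩
                rw [← n4_map_map, heA, n4_map_map]
            have := rk_free ρ hee hind (hEp e heE) hmove
            rw [hUX] at this
            omega
        · have hfX : Module.finrank (ZMod 2) X + Module.finrank (ZMod 2) Y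
              = Module.finrank (ZMod 2) U := by
            have h1 := Submodule.finrank_sup_add_finrank_inf_eq X Y
            rw [hXY, hXYU, finrank_bot] at h1
            omega
          have hXpos : 0 < Module.finrank (ZMod 2) X := by
            rw [Nat.pos_iff_ne_zero]
            intro h0
            exact hX0 (Submodule.finrank_eq_zero.1 h0)
          have hYpos : 0 < Module.finrank (ZMod 2) Y := by
            rw [Nat.pos_iff_ne_zero]
            intro h0
            exact hY0 (Submodule.finrank_eq_zero.1 h0)
          have h1 := ih D X (by omega) ⟨h.odd, h.solv, h.exp, h.nrm, hDX, hEX, hEFX, hX0⟩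
            (act_sub ρ h heE hact hXU hX0)
          have h2 := ih D Y (by omega) ⟨h.odd, h.solv, h.exp, h.nrm, hDY, hEY, hEFY, hY0⟩
            (act_sub ρ h heE hact hYU hY0)
          have h3 := rk_add ρ (e := e) (hEX e heE) (hEY e heE) hXY
          rw [hXYU] at h3
          omega
  exact key _ D U le_rfl h hact

end P2

end SYL2
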