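import Pool.Agent.SYL2.N4

set_option autoImplicit false
set_option linter.unusedSectionVars false

/-! # SYL2 row N5: Lemma (2'). -/

namespace SYL2

/-- `E = {1, a, b, c}` with `a b = c`. -/
structure N5V4 {Γ : Type} [Group Γ] (E : Subgroup Γ) (a b c : Γ) : Prop where
  ha : a ∈ E
  hb : b ∈ E
  hc : c ∈ E
  hab : a * b = c
  all : ∀ x ∈ E, x = 1 ∨ x = a ∨ x = b ∨ x = c

section V4lemmas

variable {Γ : Type} [Group Γ] {E : Subgroup Γ} {a b c : Γ}

theorem N5V4.swap (h : N5V4 E a b c) (hE : ∀ e ∈ E, e * e = 1) : N5V4 E b a c := by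
  refine ⟨h.hb, h.ha, h.hc, ?_, fun x hx => ?_⟩
  · have h1 := hE a h.ha
    have h2 := hE b h.hb
    have h3 := hE c h.hc
    rw [← h.hab] at h3 ⊢
    have h4 : a * (a * b * (a * b)) * b = (a * a) * (b * a) * (b * b) := by group
    rw [h3, h1, h2, one_mul, mul_one, mul_one] at h4
    exact h4.symm
  · rcases h.all x hx with h1 | h1 | h1 | h1
    · exact Or.inl h1
    · exact Or.inr (Or.inr (Or.inl h1))
    · exact Or.inr (Or.inl h1)
    · exact Or.inr (Or.inr (Or.inr h1))

theorem N5V4.rot (h : N5V4 E a b c) (hE : ∀ e ∈ E, e * e = 1) : N5V4 E a c b := by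
  refine ⟨h.ha, h.hc, h.hb, ?_, fun x hx => ?_⟩
  · rw [← h.hab, ← mul_assoc, hE a h.ha, one_mul]
  · rcases h.all x hx with h1 | h1 | h1 | h1
    · exact Or.inl h1
    · exact Or.inr (Or.inl h1)
    · exact Or.inr (Or.inr (Or.inr h1))
    · exact Or.inr (Or.inr (Or.inl h1))

theorem N5V4.of_closure {s t : Γ} (hE : ∀ e ∈ Subgroup.closure {s, t}, e * e = 1) :
    N5V4 (Subgroup.closure {s, t}) s t (s * t) := by
  have hs : s ∈ Subgroup.closure {s, t} := Subgroup.subset_closure (Or.inl rfl)
  have ht : t ∈ Subgroup.closure {s, t} := Subgroup.subset_closure (Or.inr rfl)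
  have hst : s * t ∈ Subgroup.closure {s, t} := Subgroup.mul_mem _ hs ht
  have h1 := hE s hs
  have h2 := hE t ht
  have h3 := hE _ hst
  have hc : t * s = s * t := by
    have h4 : s * (s * t * (s * t)) * t = (s * s) * (t * s) * (t * t) := by group
    rw [h3, h1, h2, one_mul, mul_one, mul_one] at h4
    exact h4.symm
  refine ⟨hs, ht, hst, rfl, fun x hx => ?_⟩
  refine Subgroup.closure_induction
    (p := fun x _ => x = 1 ∨ x = s ∨ x = t ∨ x = s * t) ?_ ?_ ?_ ?_ hx
  · rintro y (rfl | rfl)
    · exact Or.inr (Or.inl rfl)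
    · exact Or.inr (Or.inr (Or.inl rfl))
  · exact Or.inl rfl
  · have e1 : s * (s * t) = t := by rw [← mul_assoc, h1, one_mul]
    have e2 : t * (s * t) = s := by rw [← hc, ← mul_assoc, h2, one_mul]
    have e3 : s * t * s = t := by rw [mul_assoc, hc, e1]
    have e4 : s * t * t = s := by rw [mul_assoc, h2, mul_one]
    rintro x y - - (rfl | rfl | rfl | rfl) (rfl | rfl | rfl | rfl) <;>
      simp [h1, h2, h3, hc, e1, e2, e3, e4]
  · rintro x - (rfl | rfl | rfl | rfl)
    · left; exact inv_one
    · right; left; exact inv_eq_of_mul_eq_one_left h1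
    · right; right; left; exact inv_eq_of_mul_eq_one_left h2
    · right; right; right; exact inv_eq_of_mul_eq_one_left h3

end V4lemmas

section Triv

variable {Γ : Type} [Group Γ]

theorem n5_comm {a b : Γ} (ha : a * a = 1) (hb : b * b = 1) (hab : a * b * (a * b) = 1) :
    a * b = b * a := by
  have h4 : a * (a * b * (a * b)) * b = (a * a) * (b * a) * (b * b) := by group
  rw [hab, ha, hb, one_mul, mul_one, mul_one] at h4
  exact h4

/-- two elements of `E` inverting `D / M`: the product is trivial on `D / M`. -/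
theorem n5_triv_of_inv_inv {D M : Subgroup Γ} (hM : NIn M D) {a b : Γ} (ha : a * a = 1)
    (hb : b * b = 1) (hab : a * b * (a * b) = 1)
    (hbD : ∀ d ∈ D, b * d * b⁻¹ ∈ D)
    (hia : ∀ d ∈ D, a * d * a * d ∈ M) (hib : ∀ d ∈ D, b * d * b * d ∈ M) :
    ∀ d ∈ D, d⁻¹ * (a * b) * d * (a * b) ∈ M := by
  intro d hd
  have hai : a⁻¹ = a := einv ha
  have hbi : b⁻¹ = b := einv hb
  have hcom : a * b = b * a := by
    have h4 : a * (a * b * (a * b)) * b = (a * a) * (b * a) * (b * b) := by group
    rw [hab, ha, hb, one_mul, mul_one, mul_one] at h4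
    exact h4
  -- `b d b = d⁻¹ m` up to conjugation
  have h1 : b * d * b ∈ D := by
    have := hbD d hd
    rwa [hbi] at this
  have h2 : a * (b * d * b) * a * (b * d * b) ∈ M := hia _ h1
  -- (a b d b a) (b d b) ∈ M and (b d b) d ∈ M
  have h3 : b * d * b * d ∈ M := hib d hd
  -- d⁻¹ (ab) d (ab)
  have h4 : d⁻¹ * (a * b) * d * (a * b) =
      d⁻¹ * (a * (b * d * b) * a * (b * d * b)) * (d⁻¹)⁻¹ * (d⁻¹ * (b * d * b)⁻¹) := by
    rw [hcom]
    have h5 : a * (b * d * b) * a = (a * b) * d * (b * a) := by group
    rw [h5, hcom]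
    group
  rw [h4]
  refine M.mul_mem (hM.2 d⁻¹ (D.inv_mem hd) _ h2) ?_
  have h6 : d⁻¹ * (b * d * b)⁻¹ = (b * d * b * d)⁻¹ := by group
  rw [h6]
  exact M.inv_mem h3

/-- trivial times trivial. -/
theorem n5_triv_of_triv_triv {D M : Subgroup Γ} {a b : Γ} (hb : b * b = 1)
    (hbM : ∀ m ∈ M, b * m * b⁻¹ ∈ M) (hcom : a * b = b * a)
    (hta : ∀ d ∈ D, d⁻¹ * a * d * a ∈ M) (htb : ∀ d ∈ D, d⁻¹ * b * d * b ∈ M) :
    ∀ d ∈ D, d⁻¹ * (a * b) * d * (a * b) ∈ M := by
  intro d hd
  have hbi : b⁻¹ = b := einv hb
  have h4 : d⁻¹ * (a * b) * d * (a * b) =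
      (d⁻¹ * b * d * b) * (b * (d⁻¹ * a * d * a) * b⁻¹) := by
    rw [hbi]
    have h5 : (d⁻¹ * b * d * b) * (b * (d⁻¹ * a * d * a) * b) =
      d⁻¹ * b * d * (b * b) * d⁻¹ * a * d * (a * b) := by group
    rw [h5, hb, hcom]
    group
  rw [h4]
  exact M.mul_mem (htb d hd) (hbM _ (hta d hd))

end Triv

section P2

variable {Γ W : Type} [Group Γ] [Finite Γ] [AddCommGroup W]
  [Module (ZMod 2) W] [Finite W] (ρ : Representation (ZMod 2) Γ W)

theorem n5_sit_mono {D E E' : Subgroup Γ} {U : Submodule (ZMod 2) W} (h : Sit ρ D E U)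
    (hE : E' ≤ E) : Sit ρ D E' U :=
  ⟨h.odd, h.solv, fun e he => h.exp e (hE he), fun e he => h.nrm e (hE he), h.invD,
    fun e he => h.invE e (hE he), h.ef, h.ne⟩

/-- an element which acts nontrivially on `D` moves something. -/
theorem n5_act_pos {D E : Subgroup Γ} {U : Submodule (ZMod 2) W} (h : Sit ρ D E U) {e : Γ}
    (hact : Act ρ D U e) : 0 < rk ρ e U := by
  rw [Nat.pos_iff_ne_zero]
  intro h0
  rw [rk_eq_zero] at h0
  obtain ⟨d, hd, u, hu, hne⟩ := hact
  apply hne
  rw [rmul, rmul, rmul, h0 u hu, h0 _ (h.invD d hd u hu), rinv_self]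

theorem lemma_two_aux {E : Subgroup Γ} (hexp : ∀ e ∈ E, e * e = 1) {a b c : Γ}
    (hV : N5V4 E a b c) : ∀ n : ℕ, ∀ (D : Subgroup Γ) (U : Submodule (ZMod 2) W),
      Nat.card D + Module.finrank (ZMod 2) U ≤ n → Sit ρ D E U →
      Act ρ D U a → Act ρ D U b → Act ρ D U c →
      Module.finrank (ZMod 2) U < rk ρ a U + rk ρ b U + rk ρ c U := by
  intro n
  induction n with
  | zero =>
    intro D U hn h _ _ _
    have : 0 < Nat.card D := Nat.card_pos
    omega
  | succ n ih =>
    intro D U hn h hacta hactb hactc
    have hcomD : ∀ e ∈ E, ∀ d ∈ D, d⁻¹ * e * d * e ∈ D := by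
      intro e he d hd
      have h1 : d⁻¹ * e * d * e = d⁻¹ * (e * d * e⁻¹) := by rw [einv (hexp e he)]; group
      rw [h1]
      exact D.mul_mem (D.inv_mem hd) (h.nrm e he d hd)
    have hDU : ∃ d ∈ D, ∃ u ∈ U, ρ d u ≠ u := by
      obtain ⟨d, hd, u, hu, hne⟩ := hacta
      exact ⟨_, hcomD a hV.ha d hd, u, hu, hne⟩
    have hUpos : 0 < Module.finrank (ZMod 2) U := by
      rw [Nat.pos_iff_ne_zero]
      intro h0
      exact h.ne (Submodule.finrank_eq_zero.1 h0)
    obtain ⟨M, r, hr, hM, hMr, hME, hker, -, hE⟩ := exists_max ρ h hDU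
    have hcardlt : Nat.card M < Nat.card D := by
      have h1 : M ≠ D := by
        rintro rfl
        rw [Subgroup.relIndex_self] at hMr
        exact hr.one_lt.ne hMr
      have h2 : Nat.card M ≤ Nat.card D := Subgroup.card_le_of_le hM.1
      rcases h2.lt_or_eq with h3 | h3
      · exact h3
      · exact absurd (Subgroup.eq_of_le_of_card_ge hM.1 h3.ge) h1
    have hMcop : (Nat.card M).Coprime 2 :=
      Nat.Coprime.coprime_dvd_left (Subgroup.card_dvd_of_le hM.1) h.odd
    -- lemma one for single elements
    have one : ∀ e ∈ E, Act ρ D U e → Module.finrank (ZMod 2) U ≤ 3 * rk ρ e U := by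
      intro e he hact
      exact lemma_one ρ (n5_sit_mono ρ h ((Subgroup.zpowers_le).2 he)) hact
    have hsolvM : Group.IsSolvable M :=
      @Group.isSolvable_of_isSolvable_injective M D _ _ (Subgroup.inclusion hM.1)
        (Subgroup.inclusion_injective hM.1) h.solv
    -- the situation for `M` and a submodule `B`
    have sitM : ∀ B : Submodule (ZMod 2) W, B ≠ ⊥ → Inv ρ M B → Inv ρ E B →
        EF ρ M B → Sit ρ M E B := by
      intro B hB0 hBM hBe hBEF
      exact ⟨hMcop, hsolvM, h.exp, hME, hBM, hBe, hBEF, hB0⟩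
    by_cases hEF : EF ρ M U
    · have hn1 : ∀ e ∈ E, Act ρ D U e → ¬ Act ρ M U e →
          Module.finrank (ZMod 2) U ≤ 2 * rk ρ e U := by
        intro e he hact hno
        refine (central_inv ρ h hr hM hMr hker he ?_ hact).2
        intro m hm u hu
        by_contra hcon
        exact hno ⟨m, hm, u, hu, hcon⟩
      have ha3 := one a hV.ha hacta
      have hb3 := one b hV.hb hactb
      have hc3 := one c hV.hc hactc
      by_cases ha : Act ρ M U a
      · by_cases hb : Act ρ M U b
        · by_cases hc : Act ρ M U c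
          · exact ih M U (by omega) (sitM U h.ne (fun m hm => h.invD m (hM.1 hm)) h.invE hEF)
              ha hb hc
          · have := hn1 c hV.hc hactc hc
            omega
        · have := hn1 b hV.hb hactb hb
          omega
      · have := hn1 a hV.ha hacta ha
        omega
    · obtain ⟨𝒰, A, X, Y, hA, hind, hsup, hXY, hXYU, hDX, hEX, hDY, hEY, hEFX, hEFY, hB, htr,
        hDp, hEp, hfree⟩ := imprimitive ρ h hM hME hEF
      have hA0 : A ≠ ⊥ := (hB A hA).1
      have hAX : A ≤ X := by rw [← hsup]; exact le_sSup hA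
      have hX0 : X ≠ ⊥ := fun h0 => hA0 (by rw [eq_bot_iff, ← h0]; exact hAX)
      have hXU : X ≤ U := by rw [← hXYU]; exact le_sup_left
      have hYU : Y ≤ U := by rw [← hXYU]; exact le_sup_right
      by_cases hY0 : Y = ⊥
      · -- `U` is the sum of the family
        have hUX : sSup 𝒰 = U := by
          rw [hsup, ← hXYU, hY0, sup_bot_eq]
        have hrp : (M.relIndex D).Prime := by rw [hMr]; exact hr
        have hfree' : ∀ B ∈ 𝒰, ∀ d ∈ D, B.map (ρ d) = B → d ∈ M :=
          fun B hB' d hd hBd => hfree B hB' d hd hBd hrp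
        have hBU : ∀ B ∈ 𝒰, B ≤ U := fun B hB' => by rw [← hUX]; exact le_sSup hB'
        -- elements which move the orbit of `A` move every member
        have hmove : ∀ e ∈ E, (¬ ∃ d ∈ D, A.map (ρ e) = A.map (ρ d)) →
            Module.finrank (ZMod 2) U = 2 * rk ρ e U := by
          intro e he hno
          have h1 : ∀ B ∈ 𝒰, B.map (ρ e) ≠ B := by
            intro B hB' hBe
            apply hno
            obtain ⟨d, hd, f, hf, rfl⟩ := htr B hB'
            have hee := hexp e he
            have hcom : e * f = f * e := n5_comm hee (hexp f hf) (hexp _ (E.mul_mem he hf))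
            have hx : f⁻¹ * (d⁻¹ * e * d * e) * f ∈ D := by
              have h2 := h.nrm f⁻¹ (E.inv_mem hf) _ (hcomD e he d hd)
              rwa [inv_inv] at h2
            refine ⟨(f⁻¹ * (d⁻¹ * e * d * e) * f)⁻¹, D.inv_mem hx, ?_⟩
            have h3 : A.map (ρ (f⁻¹ * (d⁻¹ * e * d * e) * f * e)) = A := by
              have h4 : f⁻¹ * (d⁻¹ * e * d * e) * f * e = (d * f)⁻¹ * (e * (d * f)) := by
                have h5 : f⁻¹ * (d⁻¹ * e * d * e) * f * e = f⁻¹ * d⁻¹ * e * d * (e * (f * e)) := by
                  group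
                rw [h5, ← hcom, ← mul_assoc e e f, hee]
                group
              rw [h4, map_rho_mul, map_rho_mul, hBe]
              exact map_inv_eq ρ rfl
            rw [map_rho_mul] at h3
            exact (map_inv_eq ρ h3).symm
          have h2 := rk_free ρ (hexp e he) hind (hEp e he) h1
          rwa [hUX] at h2
        have hPmul : ∀ e ∈ E, ∀ f ∈ E, (∃ d ∈ D, A.map (ρ e) = A.map (ρ d)) →
            (∃ d ∈ D, A.map (ρ f) = A.map (ρ d)) → ∃ d ∈ D, A.map (ρ (e * f)) = A.map (ρ d) := by
          rintro e he f - ⟨d₁, hd₁, h1⟩ ⟨d₂, hd₂, h2⟩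
          refine ⟨(e * d₂ * e⁻¹) * d₁, D.mul_mem (h.nrm e he d₂ hd₂) hd₁, ?_⟩
          rw [map_rho_mul, h2, ← map_rho_mul, map_rho_mul _ (e * d₂ * e⁻¹), ← h1, ← map_rho_mul]
          congr 2
          group
        have two_move : ∀ x y z : Γ, N5V4 E x y z → Act ρ D U z →
            (¬ ∃ d ∈ D, A.map (ρ x) = A.map (ρ d)) → (¬ ∃ d ∈ D, A.map (ρ y) = A.map (ρ d)) →
            Module.finrank (ZMod 2) U < rk ρ x U + rk ρ y U + rk ρ z U := by
          intro x y z hxyz hz hx hy
          have h1 := hmove x hxyz.ha hx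
          have h2 := hmove y hxyz.hb hy
          have h3 := n5_act_pos ρ h hz
          omega
        have hVr := hV.rot hexp
        have hVs := hV.swap hexp
        have hVsr := hVs.rot hexp
        by_cases hPa : ∃ d ∈ D, A.map (ρ a) = A.map (ρ d)
        · by_cases hPb : ∃ d ∈ D, A.map (ρ b) = A.map (ρ d)
          · -- one orbit
            have hPc : ∃ d ∈ D, A.map (ρ c) = A.map (ρ d) := by
              have := hPmul a hV.ha b hV.hb hPa hPb
              rwa [hV.hab] at this
            have horb : ∀ B ∈ 𝒰, ∃ d ∈ D, B = A.map (ρ d) := by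
              intro B hB'
              obtain ⟨d, hd, f, hf, rfl⟩ := htr B hB'
              have hPf : ∃ d ∈ D, A.map (ρ f) = A.map (ρ d) := by
                rcases hV.all f hf with rfl | rfl | rfl | rfl
                · exact ⟨1, D.one_mem, rfl⟩
                · exact hPa
                · exact hPb
                · exact hPc
              obtain ⟨d', hd', h1⟩ := hPf
              exact ⟨d * d', D.mul_mem hd hd', by rw [map_rho_mul, h1, ← map_rho_mul]⟩
            obtain ⟨A₀, hA₀, hA₀E, hA₀orb, hcard, htriv, hinv⟩ := one_orbit ρ h hM hrp hA horb hDp hEp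
              (fun B hB' => (hB B hB').2.1) hfree'
            have hfin : Fintype 𝒰 := Fintype.ofFinite 𝒰
            have hsum := finrank_sSup hind
            rw [hUX, finsum_eq_sum_of_fintype] at hsum
            have hBe : ∀ e ∈ E, (∀ d ∈ D, d⁻¹ * e * d * e ∈ M) → ∀ B ∈ 𝒰, ∀ u ∈ B, ρ e u ∈ B := by
              intro e he hT B hB' u hu
              have h1 := htriv e he hT B hB'
              have h2 : ρ e u ∈ B.map (ρ e) := ⟨u, hu, rfl⟩
              rwa [h1] at h2
            have hrk : ∀ e ∈ E, (∀ d ∈ D, d⁻¹ * e * d * e ∈ M) →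
                rk ρ e U = ∑ B : 𝒰, rk ρ e B.1 := by
              intro e he hT
              have h2 := rk_sSup ρ hind (e := e) (hBe e he hT)
              rwa [hUX, finsum_eq_sum_of_fintype] at h2
            have hactB : ∀ e ∈ E, (∀ d ∈ D, d⁻¹ * e * d * e ∈ M) → Act ρ D U e →
                ∀ B ∈ 𝒰, Act ρ M B e := by
              intro e he hT hact B hB'
              exact act_M ρ h.odd hM.1 (hexp e he) hT (act_sub ρ h he hact (hBU B hB') (hB B hB').1)
            -- two elements invert `D / M`
            have two_inv : ∀ x y z : Γ, N5V4 E x y z → Act ρ D U z →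
                (∀ d ∈ D, x * d * x * d ∈ M) → (∀ d ∈ D, y * d * y * d ∈ M) →
                Module.finrank (ZMod 2) U < rk ρ x U + rk ρ y U + rk ρ z U := by
              intro x y z hxyz hz hIx hIy
              have hTz : ∀ d ∈ D, d⁻¹ * z * d * z ∈ M := by
                have h1 := n5_triv_of_inv_inv hM (hexp x hxyz.ha) (hexp y hxyz.hb)
                  (hexp _ (E.mul_mem hxyz.ha hxyz.hb)) (h.nrm y hxyz.hb) hIx hIy
                rwa [hxyz.hab] at h1
              have h1 := rk_one ρ (hexp x hxyz.ha) hind (hEp x hxyz.ha) hA₀ (hA₀E x hxyz.ha)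
                (hinv x hxyz.ha hIx)
              have h2 := rk_one ρ (hexp y hxyz.hb) hind (hEp y hxyz.hb) hA₀ (hA₀E y hxyz.hb)
                (hinv y hxyz.hb hIy)
              rw [hUX] at h1 h2
              have h3 : ∀ B : 𝒰, Module.finrank (ZMod 2) B.1 = Module.finrank (ZMod 2) A₀ := by
                rintro ⟨B, hB'⟩
                obtain ⟨d, -, rfl⟩ := hA₀orb B hB'
                exact finrank_map_r d A₀
              have h4 : Module.finrank (ZMod 2) U = r * Module.finrank (ZMod 2) A₀ := by
                rw [hsum, Finset.sum_congr rfl (fun B _ => h3 B), Finset.sum_const, smul_eq_mul,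
                  Finset.card_univ, ← Nat.card_eq_fintype_card, ← hMr, ← hcard]
                rfl
              have h5 : 3 ≤ r := by
                have h6 := hr.two_le
                have h7 : r ≠ 2 := by
                  rintro rfl
                  have h8 : M.relIndex D ∣ Nat.card D := Subgroup.relIndex_dvd_card M D
                  rw [hMr] at h8
                  have h9 := Nat.Coprime.coprime_dvd_left h8 h.odd
                  norm_num at h9
                omega
              have h6 : 3 * Module.finrank (ZMod 2) A₀ ≤ Module.finrank (ZMod 2) U := by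
                rw [h4]; exact Nat.mul_le_mul_right _ h5
              have h7 : Module.finrank (ZMod 2) U ≤ 3 * rk ρ z U := by
                rw [hsum, hrk z hxyz.hc hTz, Finset.mul_sum]
                refine Finset.sum_le_sum fun B _ => ?_
                have hB1 := hB B.1 B.2
                refine lemma_one ρ (D := M) ⟨hMcop, hsolvM, ?_, ?_, hB1.2.1, ?_, hB1.2.2, hB1.1⟩
                  (hactB z hxyz.hc hTz hz B.1 B.2)
                · intro f hf
                  exact hexp f ((Subgroup.zpowers_le).2 hxyz.hc hf)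
                · intro f hf
                  exact hME f ((Subgroup.zpowers_le).2 hxyz.hc hf)
                · intro f hf u hu
                  rcases n4_mem_zpowers (hexp z hxyz.hc) hf with rfl | rfl
                  · rw [rone]; exact hu
                  · exact hBe f hxyz.hc hTz B.1 B.2 u hu
              -- `x` or `y` is nontrivial on `A₀`
              have h8 : 0 < rk ρ x A₀ + rk ρ y A₀ := by
                by_contra hcon
                have hx0 : rk ρ x A₀ = 0 := by omega
                have hy0 : rk ρ y A₀ = 0 := by omega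
                rw [rk_eq_zero] at hx0 hy0
                obtain ⟨d, hd, u, hu, hne⟩ := hactB z hxyz.hc hTz hz A₀ hA₀
                apply hne
                have hz0 : ∀ v ∈ A₀, ρ z v = v := by
                  intro v hv
                  rw [← hxyz.hab, rmul, hy0 v hv, hx0 v hv]
                rw [rmul, rmul, rmul, hz0 u hu, hz0 _ ((hB A₀ hA₀).2.1 d hd u hu), rinv_self]
              omega
            have htt : ∀ x y z : Γ, N5V4 E x y z → (∀ d ∈ D, d⁻¹ * x * d * x ∈ M) →
                (∀ d ∈ D, d⁻¹ * y * d * y ∈ M) → (∀ d ∈ D, d⁻¹ * z * d * z ∈ M) := by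
              intro x y z hxyz hx hy
              have h1 := n5_triv_of_triv_triv (hexp y hxyz.hb) (hME y hxyz.hb)
                (n5_comm (hexp x hxyz.ha) (hexp y hxyz.hb)
                  (hexp _ (E.mul_mem hxyz.ha hxyz.hb))) hx hy
              rwa [hxyz.hab] at h1
            by_cases hTa : ∀ d ∈ D, d⁻¹ * a * d * a ∈ M
            · by_cases hTb : ∀ d ∈ D, d⁻¹ * b * d * b ∈ M
              · -- all fix all members
                have hTc := htt a b c hV hTa hTb
                rw [hsum, hrk a hV.ha hTa, hrk b hV.hb hTb, hrk c hV.hc hTc,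
                  ← Finset.sum_add_distrib, ← Finset.sum_add_distrib]
                have hne : (Finset.univ : Finset 𝒰).Nonempty := ⟨⟨A, hA⟩, Finset.mem_univ _⟩
                refine Finset.sum_lt_sum_of_nonempty hne fun B _ => ?_
                have hB1 := hB B.1 B.2
                refine ih M B.1 ?_ (sitM B.1 hB1.1 hB1.2.1 ?_ hB1.2.2)
                  (hactB a hV.ha hTa hacta B.1 B.2) (hactB b hV.hb hTb hactb B.1 B.2)
                  (hactB c hV.hc hTc hactc B.1 B.2)
                · have := finrank_le_of_le (hBU B.1 B.2)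
                  omega
                · intro f hf u hu
                  rcases hV.all f hf with rfl | rfl | rfl | rfl
                  · rw [rone]; exact hu
                  · exact hBe f hV.ha hTa B.1 B.2 u hu
                  · exact hBe f hV.hb hTb B.1 B.2 u hu
                  · exact hBe f hV.hc hTc B.1 B.2 u hu
              · have hIb := (hE b hV.hb).resolve_left hTb
                have hIc := (hE c hV.hc).resolve_left (fun hTc => hTb (htt a c b hVr hTa hTc))
                have := two_inv b c a hVsr hacta hIb hIc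
                omega
            · have hIa := (hE a hV.ha).resolve_left hTa
              by_cases hTb : ∀ d ∈ D, d⁻¹ * b * d * b ∈ M
              · have hIc := (hE c hV.hc).resolve_left (fun hTc => hTa (htt b c a hVsr hTb hTc))
                have := two_inv a c b hVr hactb hIa hIc
                omega
              · exact two_inv a b c hV hactc hIa ((hE b hV.hb).resolve_left hTb)
          · have hPc : ¬ ∃ d ∈ D, A.map (ρ c) = A.map (ρ d) := by
              intro hPc
              apply hPb
              have := hPmul a hV.ha c hV.hc hPa hPc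
              rwa [hVr.hab] at this
            have := two_move b c a hVsr hacta hPb hPc
            omega
        · by_cases hPb : ∃ d ∈ D, A.map (ρ b) = A.map (ρ d)
          · have hPc : ¬ ∃ d ∈ D, A.map (ρ c) = A.map (ρ d) := by
              intro hPc
              apply hPa
              have := hPmul b hV.hb c hV.hc hPb hPc
              rwa [hVsr.hab] at this
            have := two_move a c b hVr hactb hPa hPc
            omega
          · exact two_move a b c hV hactc hPa hPb
      · have hfX : Module.finrank (ZMod 2) X + Module.finrank (ZMod 2) Y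
            = Module.finrank (ZMod 2) U := by
          have h1 := Submodule.finrank_sup_add_finrank_inf_eq X Y
          rw [hXY, hXYU, finrank_bot] at h1
          omega
        have hXpos : 0 < Module.finrank (ZMod 2) X := by
          rw [Nat.pos_iff_ne_zero]
          intro h0
          exact hX0 (Submodule.finrank_eq_zero.1 h0)
        have hYpos : 0 < Module.finrank (ZMod 2) Y := by
          rw [Nat.pos_iff_ne_zero]
          intro h0
          exact hY0 (Submodule.finrank_eq_zero.1 h0)
        have h1 := ih D X (by omega) ⟨h.odd, h.solv, h.exp, h.nrm, hDX, hEX, hEFX, hX0⟩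
          (act_sub ρ h hV.ha hacta hXU hX0) (act_sub ρ h hV.hb hactb hXU hX0)
          (act_sub ρ h hV.hc hactc hXU hX0)
        have h2 := ih D Y (by omega) ⟨h.odd, h.solv, h.exp, h.nrm, hDY, hEY, hEFY, hY0⟩
          (act_sub ρ h hV.ha hacta hYU hY0) (act_sub ρ h hV.hb hactb hYU hY0)
          (act_sub ρ h hV.hc hactc hYU hY0)
        have h3 := rk_add ρ (e := a) (hEX a hV.ha) (hEY a hV.ha) hXY
        have h4 := rk_add ρ (e := b) (hEX b hV.hb) (hEY b hV.hb) hXY
        have h5 := rk_add ρ (e := c) (hEX c hV.hc) (hEY c hV.hc) hXY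
        rw [hXYU] at h3 h4 h5
        omega

/-- row N5: Lemma (2'). -/
theorem lemma_two {D : Subgroup Γ} {U : Submodule (ZMod 2) W} {s t : Γ}
    (h : Sit ρ D (Subgroup.closure {s, t}) U)
    (h1 : Act ρ D U s) (h2 : Act ρ D U t) (h3 : Act ρ D U (s * t)) :
    Module.finrank (ZMod 2) U < rk ρ s U + rk ρ t U + rk ρ (s * t) U :=
  lemma_two_aux ρ h.exp (N5V4.of_closure h.exp) _ D U le_rfl h h1 h2 h3

end P2

end SYL2
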