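import Pool.Agent.SYL2.N3
import Pool.Agent.SYL2.N3c

/-!
# SYL2, row N6: Lemma (3)
-/

set_option autoImplicit false

namespace SYL2

section P2

variable {Γ W : Type} [Group Γ] [Finite Γ] [AddCommGroup W]
  [Module (ZMod 2) W] [Finite W] (ρ : Representation (ZMod 2) Γ W)

theorem n6_map_map (g k : Γ) (B : Submodule (ZMod 2) W) :
    (B.map (ρ g)).map (ρ k) = B.map (ρ (k * g)) := by
  rw [_root_.map_mul]; exact (Submodule.map_comp _ _ _).symm

theorem n6_map_one (B : Submodule (ZMod 2) W) : B.map (ρ 1) = B := by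
  rw [_root_.map_one]; exact Submodule.map_id B

theorem n6_indep {𝒰 : Set (Submodule (ZMod 2) W)} (hi : sSupIndep 𝒰)
    {B : Submodule (ZMod 2) W} (hB : B ∈ 𝒰) {v : W} (hv : v ∈ B)
    (hv' : v ∈ sSup (𝒰 \ {B})) : v = 0 := by
  have h1 := hi hB
  rw [Submodule.disjoint_def] at h1
  exact h1 v hv hv'

theorem n6_mem_other {𝒰 : Set (Submodule (ZMod 2) W)} {B C : Submodule (ZMod 2) W} (hC : C ∈ 𝒰)
    (hne : C ≠ B) {v : W} (hv : v ∈ C) : v ∈ sSup (𝒰 \ {B}) :=
  (le_sSup ⟨hC, hne⟩ : C ≤ sSup (𝒰 \ {B})) hv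

/-- under a quadratic action, a moved member of an independent family is fixed pointwise by an
involution -/
theorem n6_moved {E : Subgroup Γ} {U : Submodule (ZMod 2) W} (hQ : Quad ρ E U)
    (hexp : ∀ e ∈ E, e * e = 1) (hE4 : ∀ e ∈ E, ∃ f ∈ E, f ≠ 1 ∧ f ≠ e)
    {𝒰 : Set (Submodule (ZMod 2) W)} (hi : sSupIndep 𝒰)
    (hp : ∀ e ∈ E, ∀ B ∈ 𝒰, B.map (ρ e) ∈ 𝒰) {B : Submodule (ZMod 2) W} (hB : B ∈ 𝒰)
    (hBU : B ≤ U) (hB0 : B ≠ ⊥) {e : Γ} (he : e ∈ E) (hmv : B.map (ρ e) ≠ B) :
    ∃ f ∈ E, f ≠ 1 ∧ B.map (ρ f) = B ∧ ∀ b ∈ B, ρ f b = b := by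
  have hQ' : ∀ x ∈ E, ∀ y ∈ E, ∀ u ∈ U, ρ y (ρ x u - u) = ρ x u - u := by
    intro x hx y hy u hu
    have h1 := hQ x hx y hy u hu
    simpa [sub_eq_zero] using h1
  have hstep : ∃ f ∈ E, f ≠ 1 ∧ B.map (ρ f) = B := by
    obtain ⟨e', he', hne1, hnee⟩ := hE4 e he
    by_cases h1 : B.map (ρ e') = B
    · exact ⟨e', he', hne1, h1⟩
    · refine ⟨e' * e, E.mul_mem he' he, ?_, ?_⟩
      · intro h2
        apply hnee
        have h3 : e' * e * e = e := by rw [h2, one_mul]
        rwa [mul_assoc, hexp e he, mul_one] at h3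
      · by_contra h2
        obtain ⟨v, hv, hv0⟩ := (Submodule.ne_bot_iff B).1 hB0
        apply hv0
        have h3 := hQ' e he e' he' v (hBU hv)
        rw [map_sub, ← actv_mul] at h3
        have h4 : v = ρ e v - ρ (e' * e) v + ρ e' v := by
          have : ρ e v - v - (ρ (e' * e) v - ρ e' v) = 0 := by rw [h3, sub_self]
          have h5 : ρ e v - ρ (e' * e) v + ρ e' v - v = 0 := by
            rw [← this]; abel
          exact (sub_eq_zero.1 h5).symm
        refine n6_indep hi hB hv ?_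
        rw [h4]
        refine Submodule.add_mem _ (Submodule.sub_mem _ ?_ ?_) ?_
        · exact n6_mem_other (hp e he B hB) hmv ⟨v, hv, rfl⟩
        · exact n6_mem_other (hp _ (E.mul_mem he' he) B hB) h2 ⟨v, hv, rfl⟩
        · exact n6_mem_other (hp e' he' B hB) h1 ⟨v, hv, rfl⟩
  obtain ⟨f, hf, hf1, hfB⟩ := hstep
  refine ⟨f, hf, hf1, hfB, fun b hb => ?_⟩
  have h1 := hQ' e he f hf b (hBU hb)
  rw [map_sub] at h1
  have hcomm : f * e = e * f := by
    have h2 := hexp _ (E.mul_mem hf he)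
    have h3 : (f * e)⁻¹ = f * e := inv_eq_of_mul_eq_one_left h2
    rw [← h3, mul_inv_rev, inv_eq_of_mul_eq_one_left (hexp e he),
      inv_eq_of_mul_eq_one_left (hexp f hf)]
  have h2 : ρ f (ρ e b) = ρ e (ρ f b) := by rw [← actv_mul, hcomm, actv_mul]
  have h3 : ρ f b - b = ρ e (ρ f b - b) := by
    rw [map_sub, ← h2]
    have h5 : ρ f (ρ e b) - ρ f b - (ρ e b - b) = 0 := by rw [h1, sub_self]
    have h6 : ρ f b - b - (ρ f (ρ e b) - ρ e b) = 0 := by
      have : ρ f b - b - (ρ f (ρ e b) - ρ e b) = -(ρ f (ρ e b) - ρ f b - (ρ e b - b)) := by abel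
      rw [this, h5, neg_zero]
    exact sub_eq_zero.1 h6
  have hfb : ρ f b ∈ B := by
    have : ρ f b ∈ B.map (ρ f) := ⟨b, hb, rfl⟩
    rwa [hfB] at this
  have h4 : ρ f b - b ∈ B := B.sub_mem hfb hb
  have h5 : ρ f b - b ∈ B.map (ρ e) := by
    rw [h3]
    exact ⟨_, h4, rfl⟩
  have h6 := n6_indep hi hB h4 (n6_mem_other (hp e he B hB) hmv h5)
  exact sub_eq_zero.1 h6

theorem n6_aux {E : Subgroup Γ} (hE4 : ∀ e ∈ E, ∃ f ∈ E, f ≠ 1 ∧ f ≠ e) :
    ∀ n : ℕ, ∀ (D : Subgroup Γ) (U : Submodule (ZMod 2) W), Nat.card D ≤ n → Sit ρ D E U →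
      (∀ e ∈ E, e ≠ 1 → Act ρ D U e) → Quad ρ E U → False := by
  classical
  intro n
  induction n with
  | zero =>
    intro D U hn _ _ _
    have : 0 < Nat.card D := Nat.card_pos
    omega
  | succ n ih =>
    intro D U hn h hact hQ
    have hQ' : ∀ x ∈ E, ∀ y ∈ E, ∀ u ∈ U, ρ y (ρ x u - u) = ρ x u - u := by
      intro x hx y hy u hu
      have h1 := hQ x hx y hy u hu
      simpa [sub_eq_zero] using h1
    have hinv : ∀ e ∈ E, e⁻¹ = e := fun e he => inv_eq_of_mul_eq_one_left (h.exp e he)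
    have hcomm : ∀ e ∈ E, ∀ f ∈ E, e * f = f * e := by
      intro e he f hf
      have h2 := hinv _ (E.mul_mem he hf)
      rw [← h2, mul_inv_rev, hinv e he, hinv f hf]
    have hcomD : ∀ e ∈ E, ∀ d ∈ D, d⁻¹ * e * d * e ∈ D := by
      intro e he d hd
      have h1 : d⁻¹ * e * d * e = d⁻¹ * (e * d * e⁻¹) := by rw [hinv e he]; group
      rw [h1]
      exact D.mul_mem (D.inv_mem hd) (h.nrm e he d hd)
    obtain ⟨e₀, he₀, he₀1, -⟩ := hE4 1 E.one_mem
    have hDU : ∃ d ∈ D, ∃ u ∈ U, ρ d u ≠ u := by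
      obtain ⟨d, hd, u, hu, hne⟩ := hact e₀ he₀ he₀1
      exact ⟨_, hcomD e₀ he₀ d hd, u, hu, hne⟩
    obtain ⟨M, r, hr, hM, hMr, hME, hker, hab, hE⟩ := exists_max ρ h hDU
    have hMD : M ≠ D := by
      rintro rfl
      rw [Subgroup.relIndex_self] at hMr
      exact hr.one_lt.ne hMr
    have hcardlt : Nat.card M < Nat.card D := by
      have h2 : Nat.card M ≤ Nat.card D := Subgroup.card_le_of_le hM.1
      rcases h2.lt_or_eq with h3 | h3
      · exact h3
      · exact absurd (Subgroup.eq_of_le_of_card_ge hM.1 h3.ge) hMD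
    have hMcop : (Nat.card M).Coprime 2 :=
      Nat.Coprime.coprime_dvd_left (Subgroup.card_dvd_of_le hM.1) h.odd
    have hMsolv : Group.IsSolvable M :=
      @Group.isSolvable_of_isSolvable_injective M D _ _ (Subgroup.inclusion hM.1)
        (Subgroup.inclusion_injective hM.1) h.solv
    obtain ⟨d₀, hd₀, hd₀M⟩ : ∃ d ∈ D, d ∉ M := by
      by_contra hcon
      apply hMD
      apply le_antisymm hM.1
      intro y hy
      by_contra h
      exact hcon ⟨y, hy, h⟩
    have hsq : ∀ d ∈ D, d * d ∈ M → d ∈ M := by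
      intro d hd hdd
      refine mem_of_sq_mem' (odd_order_of_mem h.odd hd) ?_
      rwa [pow_two]
    have hrp : (M.relIndex D).Prime := by rw [hMr]; exact hr
    by_cases hEF : EF ρ M U
    · by_cases hall : ∀ e ∈ E, e ≠ 1 → Act ρ M U e
      · exact ih M U (by omega) ⟨hMcop, hMsolv, h.exp, hME, fun m hm => h.invD m (hM.1 hm),
          h.invE, hEF, h.ne⟩ hall hQ
      · -- central inversion
        have hex : ∃ e ∈ E, e ≠ 1 ∧ ¬ Act ρ M U e := by
          by_contra hcon
          apply hall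
          intro e he he1
          by_contra h2
          exact hcon ⟨e, he, he1, h2⟩
        obtain ⟨e, he, he1, hnact⟩ := hex
        have hcent : ∀ m ∈ M, ∀ u ∈ U, ρ (m⁻¹ * e * m * e) u = u := by
          intro m hm u hu
          by_contra hcon
          exact hnact ⟨m, hm, u, hu, hcon⟩
        have hci := (central_inv ρ h hr hM hMr hker he hcent (hact e he he1)).1
        have heInv : ∀ d ∈ D, e * d * e * d ∈ M := by
          rcases hE e he with h1 | h1
          · exfalso
            obtain ⟨d, hd, u, hu, hne⟩ := hact e he he1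
            exact (hci d hd ⟨u, hu, hne⟩).1 (h1 d hd)
          · exact h1
        -- an involution f acting trivially on D / M
        obtain ⟨f, hf, hf1, hfT⟩ : ∃ f ∈ E, f ≠ 1 ∧ ∀ d ∈ D, d⁻¹ * f * d * f ∈ M := by
          obtain ⟨e', he', he'1, he'e⟩ := hE4 e he
          rcases hE e' he' with h1 | h1
          · exact ⟨e', he', he'1, h1⟩
          · refine ⟨e * e', E.mul_mem he he', ?_, ?_⟩
            · intro h2
              apply he'e
              have h3 : e * (e * e') = e := by rw [h2, mul_one]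
              rwa [← mul_assoc, h.exp e he, one_mul] at h3
            · intro d hd
              have h2 := h1 d hd
              have h3 := hME e he _ h2
              have h4 := heInv d⁻¹ (D.inv_mem hd)
              have h5 := M.mul_mem h3 h4
              have h6 := hM.2 d⁻¹ (D.inv_mem hd) _ h5
              have h7 : d⁻¹ * (e * (e' * d * e' * d) * e⁻¹ * (e * d⁻¹ * e * d⁻¹)) * d⁻¹⁻¹ =
                  d⁻¹ * (e * e') * d * (e' * e) := by group
              rw [h7] at h6
              rw [hcomm e' he' e he] at h6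
              exact h6
        obtain ⟨m, hm, hfc⟩ := exists_comm h.odd hM (h.exp f hf) (h.nrm f hf) hfT hd₀
        set d₁ := d₀ * m with hd₁
        have hd₁D : d₁ ∈ D := D.mul_mem hd₀ (hM.1 hm)
        have hd₁M : d₁ ∉ M := by
          intro h1
          apply hd₀M
          have h2 := M.mul_mem h1 (M.inv_mem hm)
          rwa [hd₁, mul_inv_cancel_right] at h2
        have hx₁M : d₁⁻¹ * e * d₁ * e ∉ M := by
          intro h1
          apply hd₁M
          apply hsq d₁ hd₁D
          have h2 := heInv d₁ hd₁D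
          -- e d₁ e ∈ d₁ M and e d₁ e d₁ ∈ M
          have h3 : d₁ * (e * d₁ * e * d₁) * d₁⁻¹ ∈ M := hM.2 d₁ hd₁D _ h2
          have h4 := M.mul_mem h3 (M.inv_mem h1)
          have h5 : d₁ * (e * d₁ * e * d₁) * d₁⁻¹ * (d₁⁻¹ * e * d₁ * e)⁻¹ = d₁ * d₁ := by group
          rwa [h5] at h4
        have hx₁ : ∃ u ∈ U, ρ (d₁⁻¹ * e * d₁ * e) u ≠ u := by
          by_contra hcon
          apply hx₁M
          apply hker _ (hcomD e he d₁ hd₁D)
          intro u hu
          by_contra h2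
          exact hcon ⟨u, hu, h2⟩
        have hfix := (hci d₁ hd₁D hx₁).2
        -- f is trivial on U
        have hfU : ∀ u ∈ U, ρ f u = u := by
          intro u hu
          have hw : ρ f u - u ∈ U := U.sub_mem (h.invE f hf u hu) hu
          have h1 : ρ e (ρ f u - u) = ρ f u - u := hQ' f hf e he u hu
          have h2 : ρ e (ρ f (ρ d₁ u) - ρ d₁ u) = ρ f (ρ d₁ u) - ρ d₁ u :=
            hQ' f hf e he (ρ d₁ u) (h.invD d₁ hd₁D u hu)
          have h3 : ρ f (ρ d₁ u) - ρ d₁ u = ρ d₁ (ρ f u - u) := by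
            rw [map_sub, ← actv_mul, hfc, actv_mul]
          rw [h3] at h2
          have h4 : ρ (d₁⁻¹ * e * d₁ * e) (ρ f u - u) = ρ f u - u := by
            rw [actv_mul, h1, actv_mul, actv_mul, h2, actv_inv_self]
          exact sub_eq_zero.1 (hfix _ hw h4)
        obtain ⟨d, hd, u, hu, hne⟩ := hact f hf hf1
        apply hne
        rw [actv_mul, hfU u hu, actv_mul, actv_mul, hfU _ (h.invD d hd u hu), actv_inv_self]
    · obtain ⟨𝒰, A, X, Y, hA, hind, hsup, hXY, hXYU, -, -, -, -, -, -, hB, htr,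
          hDp, hEp, hfree⟩ := imprimitive ρ h hM hME hEF
      have hXU : X ≤ U := by rw [← hXYU]; exact le_sup_left
      have hBU : ∀ B ∈ 𝒰, B ≤ U := fun B hB' => (le_sSup hB').trans (by rw [hsup]; exact hXU)
      by_cases hfix : ∀ B ∈ 𝒰, ∀ e ∈ E, B.map (ρ e) = B
      · -- E fixes all members
        have hTr : ∀ e ∈ E, ∀ d ∈ D, d⁻¹ * e * d * e ∈ M := by
          intro e he d hd
          refine hfree A hA _ (hcomD e he d hd) ?_ hrp
          have h1 := hfix (A.map (ρ d)) (hDp d hd A hA) e he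
          have h2 := hfix A hA e he
          have h3 : A.map (ρ (d⁻¹ * e * d * e)) =
              (((A.map (ρ e)).map (ρ d)).map (ρ e)).map (ρ d⁻¹) := by
            rw [n6_map_map, n6_map_map, n6_map_map, mul_assoc, mul_assoc]
          rw [h3, h2, h1, n6_map_map, inv_mul_cancel, n6_map_one]
        have hA1 := hB A hA
        refine ih M A (by omega) ⟨hMcop, hMsolv, h.exp, hME, hA1.2.1, ?_, hA1.2.2, hA1.1⟩ ?_ ?_
        · intro e he a ha
          have h1 : ρ e a ∈ A.map (ρ e) := ⟨a, ha, rfl⟩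
          rwa [hfix A hA e he] at h1
        · intro e he he1
          exact act_M ρ h.odd hM.1 (h.exp e he) (hTr e he)
            (act_sub ρ h he (hact e he he1) (hBU A hA) hA1.1)
        · exact fun x hx y hy u hu => hQ x hx y hy u (hBU A hA hu)
      · -- a moved member
        have hex : ∃ B ∈ 𝒰, ∃ e ∈ E, B.map (ρ e) ≠ B := by
          by_contra hcon
          apply hfix
          intro B hB' e he
          by_contra h2
          exact hcon ⟨B, hB', e, he, h2⟩
        obtain ⟨B, hBm, e, he, hmv⟩ := hex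
        have hinvOf : ∀ B ∈ 𝒰, ∀ f ∈ E, f ≠ 1 → (∀ b ∈ B, ρ f b = b) →
            ∀ d ∈ D, f * d * f * d ∈ M := by
          intro B hBm f hf hf1 hfB
          rcases hE f hf with h1 | h1
          · exfalso
            obtain ⟨m, hm, b, hb, hne⟩ := act_M ρ h.odd hM.1 (h.exp f hf) h1
              (act_sub ρ h hf (hact f hf hf1) (hBU B hBm) (hB B hBm).1)
            apply hne
            rw [actv_mul, hfB b hb, actv_mul, actv_mul, hfB _ ((hB B hBm).2.1 m hm b hb),
              actv_inv_self]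
          · exact h1
        have hnofix : ∀ B ∈ 𝒰, ∀ f ∈ E, B.map (ρ f) = B → (∀ d ∈ D, f * d * f * d ∈ M) →
            ∀ d ∈ D, (B.map (ρ d)).map (ρ f) = B.map (ρ d) → d ∈ M := by
          intro B hBm f hf hfB hfI d hd heq
          apply hsq d hd
          have h1 : d⁻¹ * (f * d * f⁻¹) ∈ M := by
            refine hfree B hBm _ (D.mul_mem (D.inv_mem hd) (h.nrm f hf d hd)) ?_ hrp
            have h2 : B.map (ρ (d⁻¹ * (f * d * f⁻¹))) =
                (((B.map (ρ f⁻¹)).map (ρ d)).map (ρ f)).map (ρ d⁻¹) := by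
              rw [n6_map_map, n6_map_map, n6_map_map, mul_assoc f d f⁻¹]
              have h7 : d⁻¹ * (f * (d * f⁻¹)) = d⁻¹ * f * d * f⁻¹ := by group
              rw [h7]
            rw [h2, hinv f hf, hfB, heq, n6_map_map, inv_mul_cancel, n6_map_one]
          have h2 := hM.2 d hd _ (hfI d hd)
          have h3 := M.mul_mem h2 (M.inv_mem h1)
          have h4 : d * (f * d * f * d) * d⁻¹ * (d⁻¹ * (f * d * f⁻¹))⁻¹ = d * (f * d * (f * f) * d⁻¹ * f⁻¹) * d := by group
          rw [h4, h.exp f hf, mul_one, mul_inv_cancel_right, mul_inv_cancel, mul_one] at h3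
          exact h3
        obtain ⟨f, hf, hf1, hfB, hfb⟩ := n6_moved ρ hQ h.exp hE4 hind hEp hBm (hBU B hBm)
          (hB B hBm).1 he hmv
        have hfI := hinvOf B hBm f hf hf1 hfb
        have hB' := hDp d₀ hd₀ B hBm
        have hmv' : (B.map (ρ d₀)).map (ρ f) ≠ B.map (ρ d₀) := fun heq =>
          hd₀M (hnofix B hBm f hf hfB hfI d₀ hd₀ heq)
        obtain ⟨g, hg, hg1, hgB, hgb⟩ := n6_moved ρ hQ h.exp hE4 hind hEp hB' (hBU _ hB')
          (hB _ hB').1 hf hmv'
        have hgI := hinvOf _ hB' g hg hg1 hgb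
        -- a = (g d₀ g⁻¹)⁻¹ d₀
        have hy : g * d₀ * g⁻¹ ∈ D := h.nrm g hg d₀ hd₀
        have haD : (g * d₀ * g⁻¹)⁻¹ * d₀ ∈ D := D.mul_mem (D.inv_mem hy) hd₀
        have haB : B.map (ρ g) = B.map (ρ ((g * d₀ * g⁻¹)⁻¹ * d₀)) := by
          rw [← n6_map_map, ← hgB, n6_map_map, n6_map_map]
          congr 2
          group
        have h5 : (B.map (ρ ((g * d₀ * g⁻¹)⁻¹ * d₀))).map (ρ f) =
            B.map (ρ ((g * d₀ * g⁻¹)⁻¹ * d₀)) := by
          rw [← haB, n6_map_map, hcomm f hf g hg, ← n6_map_map, hfB]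
        have h6 := hnofix B hBm f hf hfB hfI _ haD h5
        apply hd₀M
        apply hsq d₀ hd₀
        have h7 := hM.2 d₀ hd₀ _ (hgI d₀ hd₀)
        have h8 := M.mul_mem h7 h6
        have h9 : d₀ * (g * d₀ * g * d₀) * d₀⁻¹ * ((g * d₀ * g⁻¹)⁻¹ * d₀) =
            d₀ * (g * d₀ * (g * g) * d₀⁻¹ * g⁻¹) * d₀ := by group
        rw [h9, h.exp g hg, mul_one, mul_inv_cancel_right, mul_inv_cancel, mul_one] at h8
        exact h8

/-- row N6: Lemma (3). -/
theorem lemma_three {D : Subgroup Γ} {U : Submodule (ZMod 2) W} {s t : Γ}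
    (h : Sit ρ D (Subgroup.closure {s, t}) U)
    (h1 : Act ρ D U s) (h2 : Act ρ D U t) (h3 : Act ρ D U (s * t)) :
    ¬ Quad ρ (Subgroup.closure {s, t}) U := by
  intro hQ
  have hsE : s ∈ Subgroup.closure {s, t} := Subgroup.subset_closure (by simp)
  have htE : t ∈ Subgroup.closure {s, t} := Subgroup.subset_closure (by simp)
  have hss := h.exp s hsE
  have htt := h.exp t htE
  have hstst := h.exp _ ((Subgroup.closure {s, t}).mul_mem hsE htE)
  have hcomm : t * s = s * t := by
    have h4 : (s * t)⁻¹ = s * t := inv_eq_of_mul_eq_one_left hstst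
    rw [mul_inv_rev, inv_eq_of_mul_eq_one_left hss, inv_eq_of_mul_eq_one_left htt] at h4
    exact h4
  have hnact : ∀ e, Act ρ D U e → e ≠ 1 := by
    rintro e ⟨d, hd, u, hu, hne⟩ rfl
    apply hne
    rw [mul_one, mul_one, inv_mul_cancel, actv_one]
  have hs1 := hnact s h1
  have ht1 := hnact t h2
  have hst1 := hnact _ h3
  have hts : t ≠ s := by
    rintro rfl
    exact hst1 hss
  let K : Subgroup Γ :=
    { carrier := {x | x = 1 ∨ x = s ∨ x = t ∨ x = s * t}
      one_mem' := Or.inl rfl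
      mul_mem' := by
        have e1 : s * (s * t) = t := by rw [← mul_assoc, hss, one_mul]
        have e2 : t * (s * t) = s := by rw [← mul_assoc, hcomm, mul_assoc, htt, mul_one]
        have e3 : s * t * s = t := by rw [mul_assoc, hcomm, e1]
        have e4 : s * t * t = s := by rw [mul_assoc, htt, mul_one]
        rintro x y (rfl | hx | hx | hx) (rfl | hy | hy | hy) <;>
          simp only [Set.mem_ofPred_eq, *, mul_one, one_mul] <;> tauto
      inv_mem' := by
        rintro x (rfl | hx | hx | hx)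
        · exact Or.inl inv_one
        · rw [hx, inv_eq_of_mul_eq_one_left hss]; exact Or.inr (Or.inl rfl)
        · rw [hx, inv_eq_of_mul_eq_one_left htt]; exact Or.inr (Or.inr (Or.inl rfl))
        · rw [hx, inv_eq_of_mul_eq_one_left hstst]; exact Or.inr (Or.inr (Or.inr rfl)) }
  have hK : Subgroup.closure {s, t} ≤ K := by
    rw [Subgroup.closure_le]
    rintro x (rfl | rfl)
    · exact Or.inr (Or.inl rfl)
    · exact Or.inr (Or.inr (Or.inl rfl))
  refine n6_aux ρ (E := Subgroup.closure {s, t}) ?_ (Nat.card D) D U le_rfl h ?_ hQ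
  · intro e he
    by_cases hes : s = e
    · exact ⟨t, htE, ht1, fun h4 => hts (h4.trans hes.symm)⟩
    · exact ⟨s, hsE, hs1, hes⟩
  · intro e he he1
    rcases hK he with h4 | h4 | h4 | h4
    · exact absurd h4 he1
    · rw [h4]; exact h1
    · rw [h4]; exact h2
    · rw [h4]; exact h3

end P2

end SYL2
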