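import Pool.Agent.SYL2.N7a
import Pool.Agent.SYL2.M2
import Pool.Agent.SYL2.M3c
import Pool.Agent.SYL2.N6

set_option autoImplicit false

/-! # SYL2, row N7 (helper69): the class two side for `p = 2` -/

namespace SYL2

open N7

section

variable {Γ W : Type} [Group Γ] [Finite Γ] [AddCommGroup W]
  [Module (ZMod 2) W] [Finite W] (ρ : Representation (ZMod 2) Γ W)

theorem N7.two {K D S : Subgroup Γ} (cfg : Cfg ρ K D S) (hsol : Group.IsSolvable D)
    (hq : Quad ρ S ⊤) {𝒲 : Set (Submodule (ZMod 2) W)} (hi : sSupIndep 𝒲)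
    (hW : ∀ A ∈ 𝒲, A ≠ ⊥ ∧ Inv ρ D A ∧ EF ρ D A ∧ A ⊓ Fx ρ (DS D S) = ⊥)
    (hK : ∀ k ∈ K, ∀ A ∈ 𝒲, A.map (ρ k) ∈ 𝒲) {A : Submodule (ZMod 2) W} (hA : A ∈ 𝒲) :
    ∃ s ∈ S, ∀ t ∈ S, Tr ρ A t ∨ Tr ρ A (s * t) := by
  have hexp : ∀ s ∈ S, s * s = 1 := fun s hs => by rw [← pow_two, cfg.Sexp s hs]
  by_cases h1 : ∃ s ∈ S, A.map (ρ s) ≠ A
  · obtain ⟨s, hs, hsA⟩ := h1
    exact ⟨s, hs, fun t ht => case_one cfg.Sab hq hi (fun s hs => hK s (cfg.SK hs))
      (fun B hB => (hW B hB).1) hA hs hsA ht⟩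
  push Not at h1
  have hinv : Inv ρ S A := by
    intro s hs a ha
    rw [← h1 s hs]
    exact mem_map_rho ha
  have hact : ∀ s ∈ S, ¬ Tr ρ A s → Act ρ D A s := by
    intro s hs h
    refine act_of_not (hexp s hs) (hinv s hs) fun hc => h ?_
    refine cent_trivial ρ cfg.Dcop (fun s hs d hd => cfg.Dn s (cfg.SK hs) d hd) (hW A hA).2.1
      hinv (quad_star ρ (fun s hs t ht u hu => hq s hs t ht u trivial)) (hW A hA).2.2.2
      (DS_le cfg) hs hc
  by_cases h2 : ∃ s ∈ S, ¬ Tr ρ A s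
  · obtain ⟨s, hs, hsn⟩ := h2
    refine ⟨s, hs, fun t ht => ?_⟩
    by_contra hcon
    push Not at hcon
    obtain ⟨htn, hstn⟩ := hcon
    have hle : Subgroup.closure {s, t} ≤ S := by
      refine (Subgroup.closure_le _).2 ?_
      rintro x (rfl | rfl)
      · exact hs
      · exact ht
    have hsit : Sit ρ D (Subgroup.closure {s, t}) A :=
      { odd := cfg.Dcop
        solv := hsol
        exp := fun e he => hexp e (hle he)
        nrm := fun e he d hd => cfg.Dn e (cfg.SK (hle he)) d hd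
        invD := (hW A hA).2.1
        invE := fun e he => hinv e (hle he)
        ef := (hW A hA).2.2.1
        ne := (hW A hA).1 }
    refine lemma_three ρ hsit (hact s hs hsn) (hact t ht htn)
      (hact _ (S.mul_mem hs ht) hstn) ?_
    intro a ha b hb u hu
    exact hq a (hle ha) b (hle hb) u trivial
  · push Not at h2
    exact ⟨1, S.one_mem, fun t ht => Or.inl (h2 t ht)⟩

/-- row N7: the class two side. -/
theorem g_two {K D S : Subgroup Γ} (cfg : Cfg ρ K D S) (hsol : Group.IsSolvable D)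
    (hq : Quad ρ S ⊤) : 4 * ∑ᶠ s : S, rk ρ (s : Γ) ⊤ ≤ Nat.card S * Module.finrank (ZMod 2) W := by
  classical
  have hexp : ∀ s ∈ S, s * s = 1 := fun s hs => by rw [← pow_two, cfg.Sexp s hs]
  by_cases hS : S = ⊥
  · have h0 : ∀ s : S, rk ρ (s : Γ) ⊤ = 0 := by
      intro s
      have h1 : (s : Γ) = 1 := Subgroup.mem_bot.1 (hS.le s.2)
      have h2 : (⊤ : Submodule (ZMod 2) W).map (ρ (s : Γ) - 1) = ⊥ := by
        rw [h1, eq_bot_iff]
        rintro x ⟨y, _, rfl⟩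
        rw [LinearMap.sub_apply, rho_one, Module.End.one_apply, sub_self]
        exact Submodule.zero_mem _
      rw [rk, h2, finrank_bot]
    rw [finsum_congr h0, finsum_zero, mul_zero]
    exact Nat.zero_le _
  obtain ⟨𝒲, hi, htop, hW, hK, -⟩ := structure_cfg ρ cfg hS
  have : Fintype S := Fintype.ofFinite S
  have : Finite (Submodule (ZMod 2) W) :=
    Finite.of_injective (fun A => (A : Set W)) SetLike.coe_injective
  have : Fintype 𝒲 := Fintype.ofFinite 𝒲
  have hp : ∀ s ∈ S, ∀ A ∈ 𝒲, A.map (ρ s) ∈ 𝒲 := fun s hs => hK s (cfg.SK hs)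
  have hdim : Module.finrank (ZMod 2) W = ∑ A : 𝒲, Module.finrank (ZMod 2) A.1 := by
    rw [← finrank_top (ZMod 2) W, ← htop, finrank_sSup hi, finsum_eq_sum_of_fintype]
  have h1 : ∀ s : S, 2 * rk ρ (s : Γ) ⊤ ≤
      ∑ A : 𝒲, if Tr ρ A.1 (s : Γ) then 0 else Module.finrank (ZMod 2) A.1 := by
    intro s
    refine (N7.rk_le ρ s.2 hexp hi htop hp).trans (le_of_eq ?_)
    have : Fintype {A | A ∈ 𝒲 ∧ ¬ Tr ρ A (s : Γ)} := Fintype.ofFinite _
    rw [finsum_eq_sum_of_fintype]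
    have h2 : (∑ A : 𝒲, if Tr ρ A.1 (s : Γ) then 0 else Module.finrank (ZMod 2) A.1) =
        ∑ A ∈ Finset.univ.filter (fun A : 𝒲 => ¬ Tr ρ A.1 (s : Γ)),
          Module.finrank (ZMod 2) A.1 := by
      rw [Finset.sum_filter]
      refine Finset.sum_congr rfl fun A _ => ?_
      by_cases h : Tr ρ A.1 (s : Γ)
      · simp [h]
      · simp [h]
    rw [h2]
    refine Finset.sum_bij (fun A _ => (⟨A.1, A.2.1⟩ : 𝒲)) ?_ ?_ ?_ ?_
    · intro A _
      rw [Finset.mem_filter]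
      exact ⟨Finset.mem_univ _, A.2.2⟩
    · intro A _ B _ h
      exact Subtype.ext (congrArg (fun z : 𝒲 => z.1) h)
    · intro B hB
      rw [Finset.mem_filter] at hB
      exact ⟨⟨B.1, B.2, hB.2⟩, Finset.mem_univ _, rfl⟩
    · intro A _
      rfl
  rw [finsum_eq_sum_of_fintype]
  calc 4 * ∑ s : S, rk ρ (s : Γ) ⊤ = 2 * ∑ s : S, 2 * rk ρ (s : Γ) ⊤ := by
        rw [← Finset.mul_sum]; ring
    _ ≤ 2 * ∑ s : S, ∑ A : 𝒲, if Tr ρ A.1 (s : Γ) then 0 else Module.finrank (ZMod 2) A.1 :=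
        Nat.mul_le_mul_left _ (Finset.sum_le_sum fun s _ => h1 s)
    _ = ∑ A : 𝒲, 2 * ∑ s : S, if Tr ρ A.1 (s : Γ) then 0 else Module.finrank (ZMod 2) A.1 := by
        rw [Finset.sum_comm, Finset.mul_sum]
    _ ≤ ∑ A : 𝒲, Nat.card S * Module.finrank (ZMod 2) A.1 := by
        refine Finset.sum_le_sum fun A _ => ?_
        obtain ⟨s, hs, hst⟩ := N7.two ρ cfg hsol hq hi hW hK A.2
        have h3 := card_le (S := S) (fun t => Tr ρ A.1 t) hs hst
        have h4 : (∑ s : S, if Tr ρ A.1 (s : Γ) then 0 else Module.finrank (ZMod 2) A.1) =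
            Nat.card {t : S // ¬ Tr ρ A.1 (t : Γ)} * Module.finrank (ZMod 2) A.1 := by
          rw [Nat.card_eq_fintype_card, Fintype.card_subtype, ← smul_eq_mul, ← Finset.sum_const,
            Finset.sum_filter]
          refine Finset.sum_congr rfl fun s _ => ?_
          by_cases h : Tr ρ A.1 (s : Γ)
          · simp [h]
          · simp [h]
        have h5 : Nat.card S = Nat.card {t : S // Tr ρ A.1 (t : Γ)} +
            Nat.card {t : S // ¬ Tr ρ A.1 (t : Γ)} := by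
          rw [← Nat.card_sum]
          exact Nat.card_congr (Equiv.sumCompl (fun t : S => Tr ρ A.1 (t : Γ))).symm
        rw [h4, ← mul_assoc]
        refine Nat.mul_le_mul_right _ ?_
        omega
    _ = Nat.card S * Module.finrank (ZMod 2) W := by
        rw [← Finset.mul_sum, hdim]

end

end SYL2
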