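import Pool.Agent.SYL2.M3
import Pool.Agent.SYL2.N3b

set_option autoImplicit false

/-! # SYL2, row N7 (helper69), first part: lemmas for the class two side, `p = 2` -/

namespace SYL2

namespace N7

variable {Γ W : Type} [Group Γ] [AddCommGroup W] [Module (ZMod 2) W]
  (ρ : Representation (ZMod 2) Γ W)

/-- `s` is trivial on `A`. -/
def Tr (A : Submodule (ZMod 2) W) (s : Γ) : Prop := ∀ a ∈ A, ρ s a = a

variable {ρ}

theorem Tr.map_eq {A : Submodule (ZMod 2) W} {s : Γ} (h : Tr ρ A s) : A.map (ρ s) = A := by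
  ext x
  constructor
  · rintro ⟨a, ha, rfl⟩
    rw [h a ha]
    exact ha
  · intro hx
    exact ⟨x, hx, h x hx⟩

/-- an element not commuting with `D` on `A` acts nontrivially on the image of `D`. -/
theorem act_of_not {D : Subgroup Γ} {A : Submodule (ZMod 2) W} {e : Γ} (he : e * e = 1)
    (hA : ∀ a ∈ A, ρ e a ∈ A) (h : ¬ ∀ d ∈ D, ∀ a ∈ A, ρ e (ρ d a) = ρ d (ρ e a)) :
    Act ρ D A e := by
  by_contra hcon
  apply h
  intro d hd a ha
  by_contra hne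
  apply hcon
  refine ⟨d, hd, ρ e a, hA a ha, fun h1 => hne ?_⟩
  rw [rho_mul, ← rho_mul ρ e e, he, rho_one, rho_mul, rho_mul] at h1
  rw [← h1, rho_self_inv]

theorem mem_map_rho {A : Submodule (ZMod 2) W} {s : Γ} {a : W} (ha : a ∈ A) :
    ρ s a ∈ A.map (ρ s) := ⟨a, ha, rfl⟩

theorem map_map_rho {A : Submodule (ZMod 2) W} {s t : Γ} :
    (A.map (ρ t)).map (ρ s) = A.map (ρ (s * t)) := by
  ext x
  constructor
  · rintro ⟨y, ⟨a, ha, rfl⟩, rfl⟩
    exact ⟨a, ha, rho_mul ρ s t a⟩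
  · rintro ⟨a, ha, rfl⟩
    exact ⟨ρ t a, ⟨a, ha, rfl⟩, (rho_mul ρ s t a).symm⟩

theorem map_one_rho {A : Submodule (ZMod 2) W} : A.map (ρ 1) = A := by
  ext x
  constructor
  · rintro ⟨a, ha, rfl⟩
    rw [rho_one]
    exact ha
  · intro hx
    exact ⟨x, hx, rho_one ρ x⟩

/-- case 1: some `s` moves the member `A`. -/
theorem case_one {S : Subgroup Γ}
    (hab : ∀ s ∈ S, ∀ t ∈ S, s * t = t * s) (hq : Quad ρ S ⊤)
    {𝒲 : Set (Submodule (ZMod 2) W)} (hi : sSupIndep 𝒲)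
    (hp : ∀ s ∈ S, ∀ A ∈ 𝒲, A.map (ρ s) ∈ 𝒲) (hne : ∀ A ∈ 𝒲, A ≠ ⊥)
    {A : Submodule (ZMod 2) W} (hA : A ∈ 𝒲) {s : Γ} (hs : s ∈ S) (hsA : A.map (ρ s) ≠ A)
    {t : Γ} (ht : t ∈ S) : Tr ρ A t ∨ Tr ρ A (s * t) := by
  have key : ∀ t ∈ S, ∀ v ∈ A, ρ s v - v = ρ s (ρ t v) - ρ t v := by
    intro t ht v hv
    have h1 := hq s hs t ht v trivial
    simp only [LinearMap.sub_apply, Module.End.one_apply] at h1
    have h2 : ρ t (ρ s v) = ρ s (ρ t v) := by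
      rw [← rho_mul, ← rho_mul, hab s hs t ht]
    rw [map_sub, h2] at h1
    exact (sub_eq_zero.1 h1).symm
  have hdisj : ∀ u ∈ A, ∀ w ∈ sSup (𝒲 \ {A}), u = w → u = 0 := by
    intro u hu w hw h
    have h1 : Disjoint A (sSup (𝒲 \ {A})) := hi hA
    rw [Submodule.disjoint_def] at h1
    exact h1 u hu (h ▸ hw)
  have hmem : ∀ B ∈ 𝒲, B ≠ A → ∀ b ∈ B, b ∈ sSup (𝒲 \ {A}) := by
    intro B hB hBA b hb
    exact (le_sSup (⟨hB, hBA⟩ : B ∈ 𝒲 \ {A}) : B ≤ _) hb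
  have fix : ∀ t ∈ S, A.map (ρ t) = A → Tr ρ A t := by
    intro t ht htA v hv
    have h1 := key t ht v hv
    have h2 : ρ t v ∈ A := by
      rw [← htA]
      exact mem_map_rho hv
    have h3 : ρ t v - v = ρ s (ρ t v - v) := by
      rw [map_sub]
      have : ρ s (ρ t v) = ρ s v - v + ρ t v := by rw [h1]; abel
      rw [this]
      abel
    have h4 : ρ t v - v ∈ A := A.sub_mem h2 hv
    have h5 := hdisj _ h4 _ (hmem _ (hp s hs A hA) hsA _ (mem_map_rho h4)) h3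
    exact sub_eq_zero.1 h5
  by_cases htA : A.map (ρ t) = A
  · exact Or.inl (fix t ht htA)
  right
  apply fix _ (S.mul_mem hs ht)
  by_contra hst
  obtain ⟨v, hv, hv0⟩ := Submodule.exists_mem_ne_zero_of_ne_bot (hne A hA)
  apply hv0
  have h1 := key t ht v hv
  have h2 : v = ρ s v - (ρ (s * t) v - ρ t v) := by
    rw [rho_mul, ← h1]
    abel
  refine hdisj v hv _ ?_ h2
  refine Submodule.sub_mem _ (hmem _ (hp s hs A hA) hsA _ (mem_map_rho hv))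
    (Submodule.sub_mem _ (hmem _ (hp _ (S.mul_mem hs ht) A hA) hst _ (mem_map_rho hv))
      (hmem _ (hp t ht A hA) htA _ (mem_map_rho hv)))

theorem DS_le {K D S : Subgroup Γ} (cfg : Cfg ρ K D S) : DS D S ≤ D := by
  refine (Subgroup.closure_le _).2 ?_
  rintro x ⟨d, hd, s, hs, rfl⟩
  have h1 : s * d⁻¹ * s⁻¹ ∈ D := cfg.Dn s (cfg.SK hs) _ (D.inv_mem hd)
  have h2 := D.mul_mem hd h1
  have h3 : d * (s * d⁻¹ * s⁻¹) = d * s * d⁻¹ * s⁻¹ := by group
  rw [h3] at h2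
  exact h2

section card

variable [Finite Γ]

theorem card_le {S : Subgroup Γ} (P : Γ → Prop) {s : Γ} (hs : s ∈ S)
    (h : ∀ t ∈ S, P t ∨ P (s * t)) : Nat.card S ≤ 2 * Nat.card {t : S // P t} := by
  classical
  have h1 : Nat.card {t : S // ¬ P t} ≤ Nat.card {t : S // P t} := by
    refine Nat.card_le_card_of_injective
      (fun t : {t : S // ¬ P t} => (⟨⟨s * t.1.1, S.mul_mem hs t.1.2⟩,
        (h _ t.1.2).resolve_left t.2⟩ : {t : S // P t})) ?_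
    intro a b hab
    have h2 : s * (a.1.1 : Γ) = s * b.1.1 := congrArg (fun z : {t : S // P t} => (z.1.1 : Γ)) hab
    exact Subtype.ext (Subtype.ext (mul_left_cancel h2))
  have h3 : Nat.card S = Nat.card {t : S // P t} + Nat.card {t : S // ¬ P t} := by
    rw [← Nat.card_sum]
    exact Nat.card_congr (Equiv.sumCompl (fun t : S => P t)).symm
  omega

end card

end N7

open N7

section

variable {Γ W : Type} [Group Γ] [Finite Γ] [AddCommGroup W]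
  [Module (ZMod 2) W] [Finite W] (ρ : Representation (ZMod 2) Γ W)

theorem N7.rk_le {S : Subgroup Γ} {s : Γ} (hs : s ∈ S) (hexp : ∀ s ∈ S, s * s = 1)
    {𝒲 : Set (Submodule (ZMod 2) W)} (hi : sSupIndep 𝒲) (htop : sSup 𝒲 = ⊤)
    (hp : ∀ s ∈ S, ∀ A ∈ 𝒲, A.map (ρ s) ∈ 𝒲) :
    2 * rk ρ s ⊤ ≤ ∑ᶠ B : {A | A ∈ 𝒲 ∧ ¬ Tr ρ A s}, Module.finrank (ZMod 2) B.1 := by
  set 𝒰 : Set (Submodule (ZMod 2) W) := {A | A ∈ 𝒲 ∧ ¬ Tr ρ A s} with h𝒰
  have hsub : 𝒰 ⊆ 𝒲 := fun A hA => hA.1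
  rw [← finrank_sSup (hi.mono hsub)]
  have hmap : ∀ A ∈ 𝒰, A.map (ρ s) ∈ 𝒰 := by
    intro A hA
    refine ⟨hp s hs A hA.1, fun h => hA.2 fun a ha => ?_⟩
    have h1 := h (ρ s a) (mem_map_rho ha)
    exact rho_inj ρ s h1
  have hinv : ∀ x ∈ sSup 𝒰, ρ s x ∈ sSup 𝒰 := by
    have h1 : sSup 𝒰 ≤ (sSup 𝒰).comap (ρ s) := by
      refine sSup_le fun A hA a ha => ?_
      exact (le_sSup (hmap A hA) : A.map (ρ s) ≤ _) (mem_map_rho ha)
    exact fun x hx => h1 hx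
  have h2 : rk ρ s ⊤ = rk ρ s (sSup 𝒰) := by
    have : (⊤ : Submodule (ZMod 2) W).map (ρ s - 1) = (sSup 𝒰).map (ρ s - 1) := by
      apply le_antisymm
      · rw [Submodule.map_le_iff_le_comap]
        refine htop.symm.le.trans (sSup_le fun A hA a ha => ?_)
        by_cases hT : Tr ρ A s
        · have h4 : (ρ s - 1) a = 0 := by
            rw [LinearMap.sub_apply, hT a ha, Module.End.one_apply, sub_self]
          rw [Submodule.mem_comap, h4]
          exact Submodule.zero_mem _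
        · have h3 : A ≤ sSup 𝒰 := le_sSup (⟨hA, hT⟩ : A ∈ 𝒰)
          exact ⟨a, h3 ha, rfl⟩
      · exact Submodule.map_mono le_top
    rw [rk, rk, this]
  rw [h2]
  exact rk_le_half ρ (hexp s hs) hinv

end

end SYL2
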