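import Pool.Agent.SYL2.N5
import Pool.Agent.SYL2.N7a
import Pool.Agent.SYL2.M3c
import Pool.Agent.SYL2.M2

set_option autoImplicit false

/-! # SYL2, row N8 (helper86): the other side, `p = 2` -/

namespace SYL2

namespace N8

/-! ### counting in a finite group of exponent two -/

section count

open Finset

set_option linter.unusedSectionVars false

variable {S : Type} [Group S] [Fintype S] [DecidableEq S] (T : Subgroup S)
  [DecidablePred (· ∈ T)]

theorem card_coset (a : S) :
    (univ.filter (fun u : S => a * u ∈ T)).card = (univ.filter (fun u : S => u ∈ T)).card := by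
  refine card_bij (fun u _ => a * u) ?_ ?_ ?_
  · intro u hu
    rw [mem_filter] at hu ⊢
    exact ⟨mem_univ _, hu.2⟩
  · intro u _ v _ h
    exact mul_left_cancel h
  · intro v hv
    rw [mem_filter] at hv
    refine ⟨a⁻¹ * v, ?_, by group⟩
    rw [mem_filter]
    refine ⟨mem_univ _, ?_⟩
    rw [mul_inv_cancel_left]
    exact hv.2

theorem disj_coset {a b : S} (h : a * b⁻¹ ∉ T) :
    Disjoint (univ.filter (fun u : S => a * u ∈ T)) (univ.filter (fun u : S => b * u ∈ T)) := by
  rw [Finset.disjoint_left]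
  intro u h1 h2
  rw [mem_filter] at h1 h2
  apply h
  have : a * b⁻¹ = (a * u) * (b * u)⁻¹ := by group
  rw [this]
  exact T.mul_mem h1.2 (T.inv_mem h2.2)

variable (hexp : ∀ s : S, s * s = 1)
include hexp

theorem inv_self (s : S) : s⁻¹ = s := inv_eq_of_mul_eq_one_left (hexp s)

theorem comm (s t : S) : s * t = t * s := by
  have h1 := inv_self hexp (s * t)
  rw [mul_inv_rev, inv_self hexp s, inv_self hexp t] at h1
  exact h1.symm

theorem card_two {s : S} (hs : s ∉ T) :
    (univ.filter (fun t : S => t ∉ T ∧ s * t ∉ T)).card +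
      2 * (univ.filter (fun u : S => u ∈ T)).card = Fintype.card S := by
  have h1 : univ.filter (fun t : S => t ∉ T ∧ s * t ∉ T) =
      univ \ (univ.filter (fun u : S => (1 : S) * u ∈ T) ∪
        univ.filter (fun u : S => s * u ∈ T)) := by
    ext t
    simp only [mem_filter, mem_univ, true_and, mem_sdiff, mem_union, one_mul, not_or]
  have hd : Disjoint (univ.filter (fun u : S => (1 : S) * u ∈ T))
      (univ.filter (fun u : S => s * u ∈ T)) := by
    apply disj_coset
    rw [one_mul, T.inv_mem_iff]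
    exact hs
  have h2 := card_union_of_disjoint hd
  rw [card_coset T 1, card_coset T s] at h2
  have h3 := card_sdiff_add_card_eq_card (subset_univ (univ.filter (fun u : S => (1 : S) * u ∈ T) ∪
        univ.filter (fun u : S => s * u ∈ T)))
  rw [h1, card_univ] at *
  omega

theorem four_le {s t : S} (hs : s ∉ T) (ht : t ∉ T) (hst : s * t ∉ T) :
    4 * (univ.filter (fun u : S => u ∈ T)).card ≤ Fintype.card S := by
  have e1 := inv_self hexp s
  have e2 := inv_self hexp t
  have e3 := inv_self hexp (s * t)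
  have d12 : Disjoint (univ.filter (fun u : S => (1 : S) * u ∈ T))
      (univ.filter (fun u : S => s * u ∈ T)) := disj_coset T (by rw [one_mul, e1]; exact hs)
  have d13 : Disjoint (univ.filter (fun u : S => (1 : S) * u ∈ T))
      (univ.filter (fun u : S => t * u ∈ T)) := disj_coset T (by rw [one_mul, e2]; exact ht)
  have d14 : Disjoint (univ.filter (fun u : S => (1 : S) * u ∈ T))
      (univ.filter (fun u : S => s * t * u ∈ T)) := disj_coset T (by rw [one_mul, e3]; exact hst)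
  have d23 : Disjoint (univ.filter (fun u : S => s * u ∈ T))
      (univ.filter (fun u : S => t * u ∈ T)) := disj_coset T (by rw [e2]; exact hst)
  have d24 : Disjoint (univ.filter (fun u : S => s * u ∈ T))
      (univ.filter (fun u : S => s * t * u ∈ T)) := disj_coset T (by
        rw [e3, ← mul_assoc, hexp, one_mul]; exact ht)
  have d34 : Disjoint (univ.filter (fun u : S => t * u ∈ T))
      (univ.filter (fun u : S => s * t * u ∈ T)) := disj_coset T (by
        rw [e3, comm hexp s t, ← mul_assoc, hexp, one_mul]; exact hs)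
  have h1 := card_union_of_disjoint d12
  have h2 := card_union_of_disjoint d34
  have h3 : Disjoint (univ.filter (fun u : S => (1 : S) * u ∈ T) ∪
      univ.filter (fun u : S => s * u ∈ T)) (univ.filter (fun u : S => t * u ∈ T) ∪
      univ.filter (fun u : S => s * t * u ∈ T)) := by
    rw [disjoint_union_left, disjoint_union_right, disjoint_union_right]
    exact ⟨⟨d13, d14⟩, ⟨d23, d24⟩⟩
  have h4 := card_union_of_disjoint h3
  have h5 := card_le_univ ((univ.filter (fun u : S => (1 : S) * u ∈ T) ∪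
      univ.filter (fun u : S => s * u ∈ T)) ∪ (univ.filter (fun u : S => t * u ∈ T) ∪
      univ.filter (fun u : S => s * t * u ∈ T)))
  rw [card_coset T 1, card_coset T s] at h1
  rw [card_coset T t, card_coset T (s * t)] at h2
  omega

theorem sum_pairs (f : S → ℕ) (hf : ∀ s ∈ T, f s = 0) (N : ℕ)
    (hpair : ∀ s t, s ∉ T → t ∉ T → s * t ∉ T → N < f s + f t + f (s * t))
    {s₀ t₀ : S} (hs : s₀ ∉ T) (ht : t₀ ∉ T) (hst : s₀ * t₀ ∉ T) :
    Fintype.card S * N < 4 * ∑ s, f s := by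
  classical
  set m := Fintype.card S with hm
  set m0 := (univ.filter (fun u : S => u ∈ T)).card with hm0
  have h4 : 4 * m0 ≤ m := four_le T hexp hs ht hst
  obtain ⟨n, hn⟩ : ∃ n, m = n + 2 * m0 := ⟨m - 2 * m0, by omega⟩
  have hfib : ∀ s, s ∉ T → (univ.filter (fun t : S => t ∉ T ∧ s * t ∉ T)).card = n := by
    intro s hs
    have := card_two T hexp hs
    omega
  set P : Finset (S × S) := univ.filter (fun q : S × S => q.1 ∉ T ∧ q.2 ∉ T ∧ q.1 * q.2 ∉ T)
    with hP
  -- sums over `P` of functions of the first coordinate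
  have hsum1 : ∀ g : S → ℕ, ∑ q ∈ P, g q.1 = n * ∑ s ∈ univ.filter (fun s : S => s ∉ T), g s := by
    intro g
    rw [hP, sum_filter, ← univ_product_univ, sum_product, sum_filter, mul_sum]
    refine sum_congr rfl fun s _ => ?_
    by_cases h : s ∈ T
    · simp [h]
    · simp only [h, not_false_eq_true, true_and, if_true]
      rw [← sum_filter, sum_const, hfib s h, smul_eq_mul]
  have hcard : P.card = n * (m - m0) := by
    have h1 := hsum1 (fun _ => 1)
    rw [sum_const, smul_eq_mul, mul_one, sum_const, smul_eq_mul, mul_one] at h1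
    rw [h1]
    congr 1
    have h2 := card_filter_add_card_filter_not (s := (univ : Finset S)) (fun u : S => u ∈ T)
    rw [card_univ] at h2
    omega
  have hF : ∑ s ∈ univ.filter (fun s : S => s ∉ T), f s = ∑ s, f s := by
    rw [sum_filter]
    refine sum_congr rfl fun s _ => ?_
    by_cases h : s ∈ T
    · simp [h, hf s h]
    · simp [h]
  have ha : ∑ q ∈ P, f q.1 = n * ∑ s, f s := by rw [hsum1 f, hF]
  have hb : ∑ q ∈ P, f q.2 = n * ∑ s, f s := by
    rw [← ha]
    refine sum_bij' (fun q _ => (q.2, q.1)) (fun q _ => (q.2, q.1)) ?_ ?_ ?_ ?_ ?_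
    · intro q hq
      rw [hP, mem_filter] at hq ⊢
      refine ⟨mem_univ _, hq.2.2.1, hq.2.1, ?_⟩
      rw [comm hexp]
      exact hq.2.2.2
    · intro q hq
      rw [hP, mem_filter] at hq ⊢
      refine ⟨mem_univ _, hq.2.2.1, hq.2.1, ?_⟩
      rw [comm hexp]
      exact hq.2.2.2
    · intro q _; rfl
    · intro q _; rfl
    · intro q _; rfl
  have hc : ∑ q ∈ P, f (q.1 * q.2) = n * ∑ s, f s := by
    rw [← hb]
    have hmem : ∀ q : S × S, q ∈ P → (q.1, q.1 * q.2) ∈ P := by
      intro q hq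
      rw [hP, mem_filter] at hq ⊢
      refine ⟨mem_univ _, hq.2.1, hq.2.2.2, ?_⟩
      rw [← mul_assoc, hexp, one_mul]
      exact hq.2.2.1
    refine sum_bij' (fun q _ => (q.1, q.1 * q.2)) (fun q _ => (q.1, q.1 * q.2)) (fun q hq => hmem q hq)
      (fun q hq => hmem q hq) ?_ ?_ ?_
    · intro q _
      simp only [← mul_assoc, hexp, one_mul]
    · intro q _
      simp only [← mul_assoc, hexp, one_mul]
    · intro q _; rfl
  have hne : (s₀, t₀) ∈ P := by
    rw [hP, mem_filter]
    exact ⟨mem_univ _, hs, ht, hst⟩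
  have hlt : ∑ q ∈ P, N < ∑ q ∈ P, (f q.1 + f q.2 + f (q.1 * q.2)) := by
    refine sum_lt_sum_of_nonempty ⟨_, hne⟩ fun q hq => ?_
    rw [hP, mem_filter] at hq
    exact hpair q.1 q.2 hq.2.1 hq.2.2.1 hq.2.2.2
  rw [sum_add_distrib, sum_add_distrib, ha, hb, hc, sum_const, smul_eq_mul, hcard] at hlt
  set F := ∑ s, f s
  have h5 : n * ((m - m0) * N) < n * (3 * F) := by
    calc n * ((m - m0) * N) = n * (m - m0) * N := by ring
      _ < n * F + n * F + n * F := hlt
      _ = n * (3 * F) := by ring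
  have h6 : (m - m0) * N < 3 * F := lt_of_mul_lt_mul_left h5 (Nat.zero_le _)
  have h7 : 3 * m ≤ 4 * (m - m0) := by omega
  have h8 : 3 * m * N ≤ 4 * (m - m0) * N := Nat.mul_le_mul_right _ h7
  have h9 : 3 * (m * N) ≤ 4 * ((m - m0) * N) := by
    calc 3 * (m * N) = 3 * m * N := by ring
      _ ≤ 4 * (m - m0) * N := h8
      _ = 4 * ((m - m0) * N) := by ring
  omega

end count

/-! ### quadratic action on the members -/

section quad

open N7

variable {Γ W : Type} [Group Γ] [AddCommGroup W] [Module (ZMod 2) W]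
  (ρ : Representation (ZMod 2) Γ W)

theorem sq_apply {s : Γ} (he : s * s = 1) (w : W) : ρ s (ρ s w) = w := by
  rw [← rho_mul, he, rho_one]

/-- the quadratic identity from `s t = 1` on the vector `u`. -/
theorem quad_of_prod {s t : Γ} (ht : t * t = 1) {u : W}
    (h : ρ t (ρ s u) = u) : (ρ t - 1) ((ρ s - 1) u) = 0 := by
  simp only [LinearMap.sub_apply, Module.End.one_apply, map_sub]
  have h1 : ρ s u = ρ t u := by
    have := congrArg (ρ t) h
    rw [sq_apply ρ ht] at this
    exact this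
  rw [h, h1]
  have h2 := two_zero (W := W) (u - ρ t u)
  rw [← h2]
  abel

/-- case (i): some element of `S` moves `A`. -/
theorem quad_moved {D S : Subgroup Γ} {𝒲 : Set (Submodule (ZMod 2) W)} (hi : sSupIndep 𝒲)
    (hD : ∀ A ∈ 𝒲, Inv ρ D A) (hp : ∀ s ∈ S, ∀ A ∈ 𝒲, A.map (ρ s) ∈ 𝒲)
    (hexp : ∀ s ∈ S, s * s = 1) (hab : ∀ s ∈ S, ∀ t ∈ S, s * t = t * s)
    (hst : Star ρ D S ⊤) {A : Submodule (ZMod 2) W} (hA : A ∈ 𝒲) {s : Γ} (hs : s ∈ S)
    (hsA : A.map (ρ s) ≠ A) : ∀ s₁ ∈ S, ∀ t₁ ∈ S, ∀ u ∈ A, (ρ t₁ - 1) ((ρ s₁ - 1) u) = 0 := by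
  -- elements fixing `A` are trivial on `A`
  have triv : ∀ e ∈ S, A.map (ρ e) = A → ∀ v ∈ A, ρ e v = v := by
    intro e he heA v hv
    obtain ⟨d, hd, h⟩ := hst e he v trivial
    have h1 := h s hs
    have hw : ρ e v - v ∈ A := A.sub_mem (mem_of_map_eq ρ heA hv) hv
    have h2 : ρ (d⁻¹ * s * d) (ρ e v - v) ∈ A.map (ρ s) := by
      rw [rho_mul, rho_mul]
      exact hD _ (hp s hs A hA) _ (D.inv_mem hd) _ (Submodule.mem_map_of_mem (hD A hA d hd _ hw))
    rw [h1] at h2
    have h3 : A.map (ρ s) ≤ sSup (𝒲 \ {A}) := le_sSup ⟨hp s hs A hA, hsA⟩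
    have h4 := (hi hA).le_bot (x := ρ e v - v) ⟨hw, h3 h2⟩
    exact sub_eq_zero.1 ((Submodule.mem_bot _).1 h4)
  intro s₁ hs₁ t₁ ht₁ u hu
  by_cases h1 : A.map (ρ s₁) = A
  · rw [LinearMap.sub_apply (ρ s₁), triv s₁ hs₁ h1 u hu, Module.End.one_apply, sub_self, map_zero]
  by_cases h2 : A.map (ρ t₁) = A
  · simp only [LinearMap.sub_apply, Module.End.one_apply, map_sub]
    rw [triv t₁ ht₁ h2 u hu, ← rho_mul, hab t₁ ht₁ s₁ hs₁, rho_mul, triv t₁ ht₁ h2 u hu]
    simp
  by_cases hu0 : u = 0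
  · rw [hu0, map_zero, map_zero]
  obtain ⟨d, hd, h⟩ := hst s₁ hs₁ u trivial
  have h3 := support ρ hi hD hA (s := s₁) (t := t₁) hd (hp s₁ hs₁ A hA) (hp t₁ ht₁ A hA)
    (hp t₁ ht₁ _ (hp s₁ hs₁ A hA)) h1 hu hu0 (h t₁ ht₁)
  rcases h3 with h3 | h3
  · exact absurd h3 h2
  · rw [← map_mul_eq] at h3
    have h4 := triv (t₁ * s₁) (S.mul_mem ht₁ hs₁) h3 u hu
    rw [rho_mul] at h4
    exact quad_of_prod ρ (hexp t₁ ht₁) h4

/-- case (ii), small: `S` fixes `A` and acts through a group of order at most two. -/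
theorem quad_small {S : Subgroup Γ} {A : Submodule (ZMod 2) W}
    (hexp : ∀ s ∈ S, s * s = 1) (hSA : ∀ s ∈ S, ∀ a ∈ A, ρ s a ∈ A)
    (hno : ∀ s ∈ S, ∀ t ∈ S, Tr ρ A s ∨ Tr ρ A t ∨ Tr ρ A (s * t)) :
    ∀ s₁ ∈ S, ∀ t₁ ∈ S, ∀ u ∈ A, (ρ t₁ - 1) ((ρ s₁ - 1) u) = 0 := by
  intro s₁ hs₁ t₁ ht₁ u hu
  rcases hno t₁ ht₁ s₁ hs₁ with h | h | h
  · simp only [LinearMap.sub_apply, Module.End.one_apply, map_sub]
    rw [h u hu, h _ (hSA s₁ hs₁ u hu)]
    simp
  · rw [LinearMap.sub_apply (ρ s₁), h u hu, Module.End.one_apply, sub_self, map_zero]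
  · have h4 := h u hu
    rw [rho_mul] at h4
    exact quad_of_prod ρ (hexp t₁ ht₁) h4

end quad

section big

open N7

variable {Γ W : Type} [Group Γ] [Finite Γ] [AddCommGroup W]
  [Module (ZMod 2) W] [Finite W] (ρ : Representation (ZMod 2) Γ W)

/-- case (ii), large: the ranks are large. -/
theorem rk_large {K D S : Subgroup Γ} (cfg : Cfg ρ K D S) (hsol : Group.IsSolvable D)
    (hst : Star ρ D S ⊤) {A : Submodule (ZMod 2) W} (hA0 : A ≠ ⊥) (hDA : Inv ρ D A)
    (hEF : EF ρ D A) (hfx : A ⊓ Fx ρ (DS D S) = ⊥) (hSA : Inv ρ S A)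
    {s₀ t₀ : Γ} (hs₀ : s₀ ∈ S) (ht₀ : t₀ ∈ S) (h1 : ¬ Tr ρ A s₀) (h2 : ¬ Tr ρ A t₀)
    (h3 : ¬ Tr ρ A (s₀ * t₀)) :
    Nat.card S * Module.finrank (ZMod 2) A < 4 * ∑ᶠ s : S, rk ρ (s : Γ) A := by
  classical
  have hexp : ∀ s ∈ S, s * s = 1 := fun s hs => by
    have := cfg.Sexp s hs
    rwa [pow_two] at this
  have hSD : ∀ s ∈ S, ∀ d ∈ D, s * d * s⁻¹ ∈ D := fun s hs d hd => cfg.Dn s (cfg.SK hs) d hd
  have hstA : Star ρ D S A := fun s hs u _ => hst s hs u trivial
  -- nontrivial elements act nontrivially on `D`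
  have hact : ∀ s ∈ S, ¬ Tr ρ A s → Act ρ D A s := by
    intro s hs hn
    refine act_of_not (hexp s hs) (hSA s hs) fun hc => hn ?_
    exact cent_trivial ρ cfg.Dcop hSD hDA hSA hstA hfx (N7.DS_le cfg) hs hc
  let T : Subgroup S :=
    { carrier := {s | Tr ρ A (s : Γ)}
      one_mem' := fun a _ => by
        show ρ ((1 : S) : Γ) a = a
        rw [Subgroup.coe_one, rho_one]
      mul_mem' := fun {x y} hx hy a ha => by
        show ρ ((x * y : S) : Γ) a = a
        rw [Subgroup.coe_mul, rho_mul, hy a ha, hx a ha]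
      inv_mem' := fun {x} hx a ha => by
        show ρ ((x⁻¹ : S) : Γ) a = a
        rw [Subgroup.coe_inv]
        have := hx a ha
        conv_lhs => rw [← this]
        exact rho_inv_self ρ _ _ }
  have hT : ∀ s : S, s ∈ T ↔ Tr ρ A (s : Γ) := fun s => Iff.rfl
  have : Fintype S := Fintype.ofFinite S
  have key := sum_pairs (S := S) T (fun s => Subtype.ext (hexp s.1 s.2))
    (fun s => rk ρ (s : Γ) A) (fun s hs => (rk_eq_zero ρ).2 ((hT s).1 hs))
    (Module.finrank (ZMod 2) A) ?_ (s₀ := ⟨s₀, hs₀⟩) (t₀ := ⟨t₀, ht₀⟩) h1 h2 h3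
  · rw [finsum_eq_sum_of_fintype, Nat.card_eq_fintype_card]
    exact key
  · intro s t hs ht hst'
    have hs' := hact s.1 s.2 hs
    have ht' := hact t.1 t.2 ht
    have hst'' := hact (s.1 * t.1) (S.mul_mem s.2 t.2) hst'
    have hcl : Subgroup.closure {(s : Γ), (t : Γ)} ≤ S := by
      rw [Subgroup.closure_le]
      rintro x (rfl | rfl)
      · exact s.2
      · exact t.2
    refine lemma_two ρ (D := D) ?_ hs' ht' hst''
    exact
      { odd := cfg.Dcop
        solv := hsol
        exp := fun e he => hexp e (hcl he)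
        nrm := fun e he d hd => hSD e (hcl he) d hd
        invD := hDA
        invE := fun e he u hu => hSA e (hcl he) u hu
        ef := hEF
        ne := hA0 }

end big

end N8

open N7 N8

section

variable {Γ W : Type} [Group Γ] [Finite Γ] [AddCommGroup W]
  [Module (ZMod 2) W] [Finite W] (ρ : Representation (ZMod 2) Γ W)

/-- row N8: the other side. -/
theorem h_two {K D S : Subgroup Γ} (cfg : Cfg ρ K D S) (hsol : Group.IsSolvable D)
    (hst : Star ρ D S ⊤)
    (hsum : 4 * ∑ᶠ s : S, rk ρ (s : Γ) ⊤ ≤ Nat.card S * Module.finrank (ZMod 2) W) :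
    Quad ρ S ⊤ := by
  classical
  by_cases hS : S = ⊥
  · intro s hs t ht u _
    rw [hS, Subgroup.mem_bot] at hs
    rw [hs, LinearMap.sub_apply (ρ 1), rho_one, Module.End.one_apply, sub_self, map_zero]
  obtain ⟨𝒲, hi, htop, hmem, hK, htr⟩ := structure_cfg ρ cfg hS
  have hexp : ∀ s ∈ S, s * s = 1 := fun s hs => by
    have := cfg.Sexp s hs
    rwa [pow_two] at this
  have hp : ∀ s ∈ S, ∀ A ∈ 𝒲, A.map (ρ s) ∈ 𝒲 := fun s hs A hA => hK s (cfg.SK hs) A hA
  by_cases hbig : ∃ A ∈ 𝒲, (∀ s ∈ S, A.map (ρ s) = A) ∧ ∃ s ∈ S, ∃ t ∈ S,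
      ¬ Tr ρ A s ∧ ¬ Tr ρ A t ∧ ¬ Tr ρ A (s * t)
  · exfalso
    obtain ⟨A, hA, hfix, s₀, hs₀, t₀, ht₀, h1, h2, h3⟩ := hbig
    obtain ⟨hA0, hDA, hEF, hfx⟩ := hmem A hA
    have hSA : Inv ρ S A := fun s hs a ha => mem_of_map_eq ρ (hfix s hs) ha
    have hlarge := rk_large ρ cfg hsol hst hA0 hDA hEF hfx hSA hs₀ ht₀ h1 h2 h3
    -- the same for all members
    have hall : ∀ B ∈ 𝒲, (∀ s ∈ S, ∀ b ∈ B, ρ s b ∈ B) ∧
        Nat.card S * Module.finrank (ZMod 2) B < 4 * ∑ᶠ s : S, rk ρ (s : Γ) B := by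
      intro B hB
      obtain ⟨n, -, hn, rfl⟩ := htr A hA B hB
      have hn1 : ∀ s : Γ, s ∈ S ↔ n⁻¹ * s * n ∈ S := by
        intro s
        have := (Subgroup.mem_normalizer_iff.1 hn) (n⁻¹ * s * n)
        have e : n * (n⁻¹ * s * n) * n⁻¹ = s := by group
        rw [e] at this
        exact this.symm
      have hinj : ∀ X : Submodule (ZMod 2) W,
          Module.finrank (ZMod 2) ↥(X.map (ρ n)) = Module.finrank (ZMod 2) X := fun X =>
        ((Submodule.equivMapOfInjective (ρ n) (fun x y hxy => rho_inj ρ n hxy) X).finrank_eq).symm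
      have hfin := hinj A
      have hrk : ∀ s : Γ, rk ρ s (A.map (ρ n)) = rk ρ (n⁻¹ * s * n) A := by
        intro s
        unfold rk
        have : (A.map (ρ n)).map (ρ s - 1) = (A.map (ρ (n⁻¹ * s * n) - 1)).map (ρ n) := by
          ext w
          simp only [Submodule.mem_map]
          constructor
          · rintro ⟨_, ⟨a, ha, rfl⟩, rfl⟩
            refine ⟨_, ⟨a, ha, rfl⟩, ?_⟩
            simp only [LinearMap.sub_apply, Module.End.one_apply, map_sub]
            rw [← rho_mul, ← rho_mul]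
            congr 3
            group
          · rintro ⟨_, ⟨a, ha, rfl⟩, rfl⟩
            refine ⟨_, ⟨a, ha, rfl⟩, ?_⟩
            simp only [LinearMap.sub_apply, Module.End.one_apply, map_sub]
            rw [← rho_mul, ← rho_mul]
            congr 3
            group
        rw [this]
        exact hinj _
      refine ⟨?_, ?_⟩
      · rintro s hs _ ⟨a, ha, rfl⟩
        refine ⟨ρ (n⁻¹ * s * n) a, hSA _ ((hn1 s).1 hs) a ha, ?_⟩
        rw [← rho_mul, ← rho_mul]
        congr 2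
        group
      · rw [hfin]
        have hsumeq : ∑ᶠ s : S, rk ρ (s : Γ) (A.map (ρ n)) = ∑ᶠ s : S, rk ρ (s : Γ) A := by
          let e : S ≃ S :=
            { toFun := fun s => ⟨n⁻¹ * s * n, (hn1 s).1 s.2⟩
              invFun := fun s => ⟨n * s * n⁻¹, (hn1 _).2 (by
                have e1 : n⁻¹ * (n * (s : Γ) * n⁻¹) * n = s := by group
                rw [e1]; exact s.2)⟩
              left_inv := fun s => Subtype.ext (by
                show n * (n⁻¹ * (s : Γ) * n) * n⁻¹ = s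
                group)
              right_inv := fun s => Subtype.ext (by
                show n⁻¹ * (n * (s : Γ) * n⁻¹) * n = s
                group) }
          rw [← finsum_comp_equiv e (f := fun s : S => rk ρ (s : Γ) A)]
          exact finsum_congr fun s => hrk s
        rw [hsumeq]
        exact hlarge
    -- sum over the members
    have : Fintype S := Fintype.ofFinite S
    have hfinW : 𝒲.Finite := finite_family 𝒲
    have : Fintype 𝒲 := hfinW.fintype
    have e1 : Module.finrank (ZMod 2) W = ∑ B : 𝒲, Module.finrank (ZMod 2) B.1 := by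
      rw [← finsum_eq_sum_of_fintype, ← finrank_sSup hi, htop, finrank_top]
    have e2 : ∀ s : S, rk ρ (s : Γ) ⊤ = ∑ B : 𝒲, rk ρ (s : Γ) B.1 := by
      intro s
      rw [← finsum_eq_sum_of_fintype, ← rk_sSup ρ hi (fun B hB => (hall B hB).1 s s.2), htop]
    rw [finsum_eq_sum_of_fintype, e1] at hsum
    simp only [e2] at hsum
    rw [Finset.sum_comm, Finset.mul_sum, Finset.mul_sum] at hsum
    have hlt : ∑ B : 𝒲, Nat.card S * Module.finrank (ZMod 2) B.1 <
        ∑ B : 𝒲, 4 * ∑ s : S, rk ρ (s : Γ) B.1 := by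
      refine Finset.sum_lt_sum_of_nonempty ⟨⟨A, hA⟩, Finset.mem_univ _⟩ fun B _ => ?_
      have := (hall B.1 B.2).2
      rwa [finsum_eq_sum_of_fintype] at this
    omega
  · push Not at hbig
    have hquad : ∀ A ∈ 𝒲, ∀ s₁ ∈ S, ∀ t₁ ∈ S, ∀ u ∈ A, (ρ t₁ - 1) ((ρ s₁ - 1) u) = 0 := by
      intro A hA
      by_cases hmv : ∀ s ∈ S, A.map (ρ s) = A
      · refine quad_small ρ hexp (fun s hs a ha => mem_of_map_eq ρ (hmv s hs) ha) ?_
        intro s hs t ht
        by_contra hcon
        push Not at hcon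
        exact hcon.2.2 (hbig A hA hmv s hs t ht hcon.1 hcon.2.1)
      · push Not at hmv
        obtain ⟨s, hs, hsA⟩ := hmv
        exact quad_moved ρ hi (fun A hA => (hmem A hA).2.1) hp hexp cfg.Sab hst hA hs hsA
    intro s hs t ht u _
    have h1 : sSup 𝒲 ≤ LinearMap.ker ((ρ t - 1) * (ρ s - 1)) := by
      refine sSup_le fun A hA a ha => ?_
      rw [LinearMap.mem_ker]
      exact hquad A hA s hs t ht a ha
    rw [htop] at h1
    exact LinearMap.mem_ker.1 (h1 (Submodule.mem_top (x := u)))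

end

end SYL2
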