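import Pool.Agent.SYL2.Table

/-!
# Groups with the same character table: inverses, normal subgroups
-/

set_option autoImplicit false
set_option linter.unusedSectionVars false

namespace SYL2

section normal

variable {G H : Type} [Group G] [Group H] [Finite G] [Finite H]
  {e : ConjClasses G ≃ ConjClasses H}

theorem mk_inv {x y : G} (h : ConjClasses.mk x = ConjClasses.mk y) :
    ConjClasses.mk x⁻¹ = ConjClasses.mk y⁻¹ := by
  rw [ConjClasses.mk_eq_mk_iff_isConj, isConj_iff] at h ⊢
  obtain ⟨c, rfl⟩ := h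
  exact ⟨c, by group⟩

/-- products of classes correspond: if `x * y` corresponds to `f` then `f = c * d` with `c`, `d`
in the classes corresponding to those of `x` and `y` -/
theorem exists_mul (hT : SameTable e) (x y : G) (f : H)
    (hf : e (ConjClasses.mk (x * y)) = ConjClasses.mk f) :
    ∃ c d : H, c * d = f ∧ e (ConjClasses.mk x) = ConjClasses.mk c ∧
      e (ConjClasses.mk y) = ConjClasses.mk d := by
  have h1 := struct_eq hT (ConjClasses.mk x) (ConjClasses.mk y) (x * y) f hf
  have h2 : Nonempty {a : G // ConjClasses.mk a = ConjClasses.mk x ∧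
      ConjClasses.mk (a⁻¹ * (x * y)) = ConjClasses.mk y} :=
    ⟨⟨x, rfl, by rw [inv_mul_cancel_left]⟩⟩
  have h3 := Nat.card_pos (α := {a : G // ConjClasses.mk a = ConjClasses.mk x ∧
      ConjClasses.mk (a⁻¹ * (x * y)) = ConjClasses.mk y})
  rw [h1] at h3
  obtain ⟨⟨a, ha, hb⟩⟩ := (Nat.card_pos_iff.1 h3).1
  exact ⟨a, a⁻¹ * f, mul_inv_cancel_left a f, ha.symm, hb.symm⟩

theorem map_inv (hT : SameTable e) {g : G} {h : H} (hgh : e (ConjClasses.mk g) = ConjClasses.mk h) :
    e (ConjClasses.mk g⁻¹) = ConjClasses.mk h⁻¹ := by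
  obtain ⟨c, d, hcd, hc, hd⟩ := exists_mul hT g g⁻¹ 1 (by rw [mul_inv_cancel]; exact map_one hT)
  rw [hd, eq_inv_of_mul_eq_one_right hcd]
  exact mk_inv (hc.symm.trans hgh)

theorem exists_rep (e : ConjClasses G ≃ ConjClasses H) (h : H) :
    ∃ g : G, e (ConjClasses.mk g) = ConjClasses.mk h :=
  ⟨(e.symm (ConjClasses.mk h)).out, by rw [mk_out, Equiv.apply_symm_apply]⟩

theorem exists_rep' (e : ConjClasses G ≃ ConjClasses H) (g : G) :
    ∃ h : H, e (ConjClasses.mk g) = ConjClasses.mk h :=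
  ⟨(e (ConjClasses.mk g)).out, (mk_out _).symm⟩

theorem mem_of_mk {N : Subgroup G} (hN : N.Normal) {x y : G}
    (h : ConjClasses.mk x = ConjClasses.mk y) (hx : x ∈ N) : y ∈ N := by
  rw [ConjClasses.mk_eq_mk_iff_isConj, isConj_iff] at h
  obtain ⟨c, rfl⟩ := h
  exact hN.conj_mem x hx c

/-- the normal subgroup corresponding to a normal subgroup -/
def tr (hT : SameTable e) (N : Subgroup G) (hN : N.Normal) : Subgroup H where
  carrier := {h | ∀ g : G, e (ConjClasses.mk g) = ConjClasses.mk h → g ∈ N}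
  one_mem' := by
    intro g hg
    have h1 : ConjClasses.mk g = ConjClasses.mk 1 := e.injective (by rw [hg, map_one hT])
    exact mem_of_mk hN h1.symm N.one_mem
  mul_mem' := by
    intro a b ha hb g hg
    obtain ⟨x, hx⟩ := exists_rep e a
    obtain ⟨y, hy⟩ := exists_rep e b
    obtain ⟨c, d, hcd, hc, hd⟩ := exists_mul hT.symm a b g (by rw [← hg, Equiv.symm_apply_apply])
    rw [← hcd]
    refine N.mul_mem (ha c ?_) (hb d ?_)
    · rw [← hc, Equiv.apply_symm_apply]
    · rw [← hd, Equiv.apply_symm_apply]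
  inv_mem' := by
    intro a ha g hg
    have h1 := map_inv hT hg
    rw [inv_inv] at h1
    have h2 := N.inv_mem (ha _ h1)
    rwa [inv_inv] at h2

variable (hT : SameTable e) (N : Subgroup G) (hN : N.Normal)

theorem mem_tr {g : G} {h : H} (hgh : e (ConjClasses.mk g) = ConjClasses.mk h) :
    h ∈ tr hT N hN ↔ g ∈ N := by
  constructor
  · intro h1
    exact h1 g hgh
  · intro h1 x hx
    have h2 : ConjClasses.mk g = ConjClasses.mk x := e.injective (by rw [hx, hgh])
    exact mem_of_mk hN h2 h1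

theorem tr_normal : (tr hT N hN).Normal := by
  refine ⟨fun a ha c g hg => ?_⟩
  rw [mk_conj] at hg
  exact ha g hg

theorem tr_tr : tr hT.symm (tr hT N hN) (tr_normal hT N hN) = N := by
  ext g
  obtain ⟨h, hh⟩ := exists_rep' e g
  rw [mem_tr hT.symm _ _ (show e.symm (ConjClasses.mk h) = ConjClasses.mk g by
    rw [← hh, Equiv.symm_apply_apply]), mem_tr hT N hN hh]

theorem tr_le_tr {M : Subgroup G} (hM : M.Normal) : tr hT N hN ≤ tr hT M hM ↔ N ≤ M := by
  constructor
  · intro h g hg
    obtain ⟨a, ha⟩ := exists_rep' e g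
    exact (mem_tr hT M hM ha).1 (h ((mem_tr hT N hN ha).2 hg))
  · intro h a ha
    obtain ⟨g, hg⟩ := exists_rep e a
    exact (mem_tr hT M hM hg).2 (h ((mem_tr hT N hN hg).1 ha))

theorem card_tr : Nat.card (tr hT N hN) = Nat.card N := by
  classical
  have := Fintype.ofFinite G
  have := Fintype.ofFinite H
  have h1 := sum_eq hT fun K => if K.out ∈ tr hT N hN then (1 : ℂ) else 0
  have h2 : ∀ h : H, (ConjClasses.mk h).out ∈ tr hT N hN ↔ h ∈ tr hT N hN := fun h =>
    ⟨mem_of_mk (tr_normal hT N hN) (mk_out _), mem_of_mk (tr_normal hT N hN) (mk_out _).symm⟩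
  have h3 : ∀ g : G, (e (ConjClasses.mk g)).out ∈ tr hT N hN ↔ g ∈ N := fun g =>
    mem_tr hT N hN (mk_out _).symm
  simp only [h2, h3] at h1
  rw [Finset.sum_boole, Finset.sum_boole] at h1
  rw [Nat.card_eq_fintype_card, Nat.card_eq_fintype_card, Fintype.card_subtype,
    Fintype.card_subtype]
  exact_mod_cast h1

end normal

end SYL2
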