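import Pool.Agent.SYL2.Defs

set_option autoImplicit false

/-! # SYL2 rows T2, T3: an automorphism of order three of a group of order prime to three. -/

namespace SYL2

open scoped Pointwise

section T2

/-- A map `f` with `f ∘ f ∘ f = id` on a finite type of cardinality prime to three has a fixed
point. -/
lemma fix_three {α : Type} [Finite α] (f : α → α) (hf : ∀ a, f (f (f a)) = a)
    (hc : (Nat.card α).Coprime 3) : ∃ a, f a = a := by
  classical
  have := Fintype.ofFinite α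
  have : Fact (Nat.Prime 3) := ⟨Nat.prime_three⟩
  let σ : Equiv.Perm α := ⟨f, fun a => f (f a), fun a => hf a, fun a => hf a⟩
  have h1 : σ ^ 3 ^ 1 = 1 := by
    ext a
    change f (f (f a)) = a
    exact hf a
  have h2 : ¬ 3 ∣ Fintype.card α := by
    rw [← Nat.card_eq_fintype_card]
    intro h
    have h3 := Nat.dvd_gcd h (dvd_refl 3)
    rw [Nat.Coprime] at hc
    rw [hc] at h3
    omega
  obtain ⟨a, ha⟩ := Equiv.Perm.exists_fixed_point_of_prime h2 h1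
  exact ⟨a, ha⟩

variable {Γ : Type} [Group Γ]

/-- conjugation by `s` as an automorphism of `D`. -/
def cjD (D : Subgroup Γ) (s : Γ) (hs : s ^ 3 = 1) (hn : ∀ d ∈ D, s * d * s⁻¹ ∈ D) :
    MulAut D where
  toFun x := ⟨s * x.1 * s⁻¹, hn _ x.2⟩
  invFun x := ⟨s⁻¹ * x.1 * s, by
    have h := hn _ (hn _ x.2)
    have h1 : s * (s * x.1 * s⁻¹) * s⁻¹ = s⁻¹ * x.1 * s := by
      have e1 : s * s = s⁻¹ := by
        rw [eq_inv_iff_mul_eq_one, ← pow_three', hs]
      have e2 : s⁻¹ * s⁻¹ = s := by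
        rw [← mul_inv_rev, e1, inv_inv]
      calc s * (s * x.1 * s⁻¹) * s⁻¹ = (s * s) * x.1 * (s⁻¹ * s⁻¹) := by group
        _ = s⁻¹ * x.1 * s := by rw [e1, e2]
    rw [← h1]
    exact h⟩
  left_inv x := by
    apply Subtype.ext
    change s⁻¹ * (s * x.1 * s⁻¹) * s = x.1
    group
  right_inv x := by
    apply Subtype.ext
    change s * (s⁻¹ * x.1 * s) * s⁻¹ = x.1
    group
  map_mul' x y := by
    apply Subtype.ext
    change s * (x.1 * y.1) * s⁻¹ = s * x.1 * s⁻¹ * (s * y.1 * s⁻¹)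
    group

lemma cjD_apply (D : Subgroup Γ) (s : Γ) (hs : s ^ 3 = 1) (hn : ∀ d ∈ D, s * d * s⁻¹ ∈ D)
    (x : D) : ((cjD D s hs hn) x : Γ) = s * x.1 * s⁻¹ := rfl

/-- There is an `s`-invariant Sylow subgroup. -/
lemma inv_sylow [Finite Γ] {D : Subgroup Γ} (hcop : (Nat.card D).Coprime 3) {s : Γ}
    (hs : s ^ 3 = 1) (hn : ∀ d ∈ D, s * d * s⁻¹ ∈ D) (r : ℕ) [Fact r.Prime] :
    ∃ P : Sylow r D, ∀ x : D, x ∈ P → (⟨s * x.1 * s⁻¹, hn _ x.2⟩ : D) ∈ P := by
  classical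
  set φ : MulAut D := cjD D s hs hn with hφ
  have hφ3 : φ * (φ * φ) = 1 := by
    apply MulEquiv.ext
    intro x
    apply Subtype.ext
    change s * (s * (s * x.1 * s⁻¹) * s⁻¹) * s⁻¹ = x.1
    have e : s * (s * (s * x.1 * s⁻¹) * s⁻¹) * s⁻¹ = s ^ 3 * x.1 * (s ^ 3)⁻¹ := by
      rw [pow_three]; group
    rw [e, hs]
    group
  have hc : (Nat.card (Sylow r D)).Coprime 3 := by
    have P : Sylow r D := default
    have h1 : Nat.card (Sylow r D) ∣ Nat.card D :=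
      (Sylow.card_dvd_index P).trans (Subgroup.index_dvd_card _)
    exact Nat.Coprime.coprime_dvd_left h1 hcop
  obtain ⟨P, hP⟩ := fix_three (fun P : Sylow r D => φ • P) (by
    intro P
    rw [smul_smul, smul_smul, mul_assoc, hφ3, one_smul]) hc
  refine ⟨P, ?_⟩
  intro x hx
  have h1 : φ • x ∈ (φ • P : Sylow r D) := by
    have h2 : φ • x ∈ (φ • (P : Subgroup D)) := Subgroup.smul_mem_pointwise_smul x φ _ hx
    exact h2
  have hP' : φ • P = P := hP
  rw [hP'] at h1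
  exact h1

/-- centraliser of `s` in `D`, as a subgroup of `D`. -/
def cD (D : Subgroup Γ) (s : Γ) : Subgroup D where
  carrier := {x | s * x.1 = x.1 * s}
  mul_mem' := by
    intro a b ha hb
    change s * (a.1 * b.1) = (a.1 * b.1) * s
    have ha' : s * a.1 = a.1 * s := ha
    have hb' : s * b.1 = b.1 * s := hb
    rw [← mul_assoc, ha', mul_assoc, hb', mul_assoc]
  one_mem' := by
    change s * (1 : Γ) = 1 * s
    rw [mul_one, one_mul]
  inv_mem' := by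
    intro a ha
    have ha' : s * a.1 = a.1 * s := ha
    change s * (a.1)⁻¹ = (a.1)⁻¹ * s
    rw [eq_inv_mul_iff_mul_eq, ← mul_assoc, ← ha', mul_assoc, mul_inv_cancel, mul_one]

lemma mem_cD {D : Subgroup Γ} {s : Γ} {x : D} : x ∈ cD D s ↔ s * x.1 = x.1 * s := Iff.rfl

lemma card_cD (D : Subgroup Γ) (s : Γ) : Nat.card (cD D s) = cc D s := rfl

lemma card_eq_index_mul [Finite Γ] (D : Subgroup Γ) (s : Γ) :
    Nat.card D = (cD D s).index * cc D s := by
  rw [← card_cD]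
  exact ((cD D s).index_mul_card).symm

/-- row T2 -/
theorem index_two_power [Finite Γ] {D : Subgroup Γ} (hcop : (Nat.card D).Coprime 3) {s : Γ}
    (hs : s ^ 3 = 1) (hn : ∀ d ∈ D, s * d * s⁻¹ ∈ D)
    (h4 : ∀ x ∈ D, (s⁻¹ * x⁻¹ * s * x) ^ 4 = 1) : ∃ m, Nat.card D = 2 ^ m * cc D s := by
  have hidx : (cD D s).index ≠ 0 := Subgroup.index_ne_zero_of_finite
  have key : ∀ {r : ℕ}, r.Prime → r ∣ (cD D s).index → r = 2 := by
    intro r hr hdvd
    by_contra hr2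
    have : Fact r.Prime := ⟨hr⟩
    obtain ⟨P, hP⟩ := inv_sylow hcop hs hn r
    have hPC : (P : Subgroup D) ≤ cD D s := by
      intro x hx
      have hx1 : (x⁻¹ : D) ∈ P := P.toSubgroup.inv_mem hx
      have hy1 := hP _ hx1
      have hy2 := hP _ hy1
      -- s⁻¹ x⁻¹ s ∈ P
      have e1 : s * s = s⁻¹ := by
        rw [eq_inv_iff_mul_eq_one, ← pow_three', hs]
      have e2 : s⁻¹ * s⁻¹ = s := by
        rw [← mul_inv_rev, e1, inv_inv]
      have hmem : s⁻¹ * (x.1)⁻¹ * s ∈ D := by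
        have h := ((cjD D s hs hn).symm x⁻¹).2
        exact h
      have hz : (⟨s⁻¹ * (x.1)⁻¹ * s, hmem⟩ : D) ∈ P := by
        have e3 : (⟨s⁻¹ * (x.1)⁻¹ * s, hmem⟩ : D) =
            ⟨s * (s * ((x⁻¹ : D) : Γ) * s⁻¹) * s⁻¹, hn _ (hn _ (x⁻¹ : D).2)⟩ := by
          apply Subtype.ext
          change s⁻¹ * (x.1)⁻¹ * s = s * (s * (x.1)⁻¹ * s⁻¹) * s⁻¹
          calc s⁻¹ * (x.1)⁻¹ * s = (s * s) * (x.1)⁻¹ * (s⁻¹ * s⁻¹) := by rw [e1, e2]
            _ = _ := by group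
        rw [e3]
        exact hy2
      have hc : (⟨s⁻¹ * (x.1)⁻¹ * s, hmem⟩ : D) * x ∈ P := P.toSubgroup.mul_mem hz hx
      set c : D := (⟨s⁻¹ * (x.1)⁻¹ * s, hmem⟩ : D) * x with hcdef
      have hc4 : c ^ 4 = 1 := by
        apply Subtype.ext
        rw [SubmonoidClass.coe_pow]
        change (s⁻¹ * (x.1)⁻¹ * s * x.1) ^ 4 = 1
        exact h4 _ x.2
      have hcr : ∃ k, c ^ r ^ k = 1 := by
        obtain ⟨k, hk⟩ := P.2 ⟨c, hc⟩
        refine ⟨k, ?_⟩
        have := congrArg Subtype.val hk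
        simpa using this
      obtain ⟨k, hk⟩ := hcr
      have ho1 : orderOf c ∣ 4 := orderOf_dvd_of_pow_eq_one hc4
      have ho2 : orderOf c ∣ r ^ k := orderOf_dvd_of_pow_eq_one hk
      have hco : Nat.Coprime 4 (r ^ k) := by
        apply Nat.Coprime.pow_right
        have : Nat.Coprime (2 ^ 2) r := by
          apply Nat.Coprime.pow_left
          rw [Nat.coprime_primes Nat.prime_two hr]
          exact fun h => hr2 h.symm
        exact this
      have ho : orderOf c = 1 := Nat.eq_one_of_dvd_coprimes hco ho1 ho2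
      have hc1 : c = 1 := orderOf_eq_one_iff.mp ho
      have hc2 : s⁻¹ * (x.1)⁻¹ * s * x.1 = 1 := congrArg Subtype.val hc1
      rw [mem_cD]
      have : s * x.1 = x.1 * s * (s⁻¹ * (x.1)⁻¹ * s * x.1) := by group
      rw [this, hc2, mul_one]
    have h1 : (cD D s).index ∣ (P : Subgroup D).index := Subgroup.index_dvd_of_le hPC
    exact P.not_dvd_index (hdvd.trans h1)
  have h2 := Nat.eq_prime_pow_of_unique_prime_dvd hidx key
  exact ⟨_, by rw [← h2]; exact card_eq_index_mul D s⟩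

/-- Under the index hypothesis all conjugates of `s` under `D` are conjugates under an
invariant Sylow `2`-subgroup. -/
lemma conj_sylow_two [Finite Γ] {D : Subgroup Γ} {s : Γ} (P : Sylow 2 D)
    (h : ∃ m, Nat.card D = 2 ^ m * cc D s) (d : D) :
    ∃ t : D, t ∈ P ∧ (d.1)⁻¹ * s * d.1 = (t.1)⁻¹ * s * t.1 := by
  classical
  have : Fact (Nat.Prime 2) := ⟨Nat.prime_two⟩
  obtain ⟨m, hm⟩ := h
  have hidx : (cD D s).index = 2 ^ m := by
    have h1 := card_eq_index_mul D s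
    rw [hm] at h1
    have hpos : 0 < cc D s := by
      rw [← card_cD]
      exact Nat.card_pos
    exact (Nat.eq_of_mul_eq_mul_right hpos h1).symm
  have hcop : Nat.Coprime (cD D s).index (P : Subgroup D).index := by
    rw [hidx]
    apply Nat.Coprime.pow_left
    rw [Nat.Prime.coprime_iff_not_dvd Nat.prime_two]
    exact P.not_dvd_index
  -- the index of the intersection
  have hinf : ((cD D s) ⊓ (P : Subgroup D)).index = (cD D s).index * (P : Subgroup D).index := by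
    apply le_antisymm
    · exact Subgroup.index_inf_le
    · apply Nat.le_of_dvd
      · exact Nat.pos_of_ne_zero Subgroup.index_ne_zero_of_finite
      · apply hcop.mul_dvd_of_dvd_of_dvd
        · exact Subgroup.index_dvd_of_le inf_le_left
        · exact Subgroup.index_dvd_of_le inf_le_right
  have hrel : (cD D s).relIndex (P : Subgroup D) = (cD D s).index := by
    have h1 := Subgroup.relIndex_mul_index (inf_le_right : (cD D s) ⊓ (P : Subgroup D) ≤ P)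
    rw [Subgroup.inf_relIndex_right] at h1
    rw [hinf] at h1
    have hpos : 0 < (P : Subgroup D).index := Nat.pos_of_ne_zero Subgroup.index_ne_zero_of_finite
    exact Nat.eq_of_mul_eq_mul_right hpos h1
  -- the orbit of the coset `1 C` under `P` is everything
  have hstab : MulAction.stabilizer (P : Subgroup D) (QuotientGroup.mk (1 : D) : D ⧸ cD D s)
      = (cD D s).subgroupOf P := by
    ext y
    rw [MulAction.mem_stabilizer_iff, Subgroup.mem_subgroupOf]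
    constructor
    · intro hy
      have hy' : (QuotientGroup.mk ((y : D) * 1) : D ⧸ cD D s) = QuotientGroup.mk 1 := hy
      rw [QuotientGroup.eq] at hy'
      have : ((y : D) * 1)⁻¹ * 1 = (y : D)⁻¹ := by group
      rw [this] at hy'
      exact (Subgroup.inv_mem_iff _).mp hy'
    · intro hy
      change (QuotientGroup.mk ((y : D) * 1) : D ⧸ cD D s) = QuotientGroup.mk 1
      rw [QuotientGroup.eq]
      have : ((y : D) * 1)⁻¹ * 1 = (y : D)⁻¹ := by group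
      rw [this]
      exact (Subgroup.inv_mem_iff _).mpr hy
  have horb : MulAction.orbit (P : Subgroup D) (QuotientGroup.mk (1 : D) : D ⧸ cD D s)
      = Set.univ := by
    apply Set.eq_of_subset_of_ncard_le (Set.subset_univ _)
    · rw [Set.ncard_univ, ← MulAction.index_stabilizer, hstab]
      change Nat.card (D ⧸ cD D s) ≤ (cD D s).relIndex P
      rw [hrel]
      exact le_of_eq rfl
  have hmem : (QuotientGroup.mk (d⁻¹) : D ⧸ cD D s) ∈
      MulAction.orbit (P : Subgroup D) (QuotientGroup.mk (1 : D) : D ⧸ cD D s) := by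
    rw [horb]
    exact Set.mem_univ _
  obtain ⟨y, hy⟩ := hmem
  have hy' : (QuotientGroup.mk ((y : D) * 1) : D ⧸ cD D s) = QuotientGroup.mk d⁻¹ := hy
  rw [QuotientGroup.eq, mul_one] at hy'
  -- y⁻¹ d⁻¹ commutes with s
  refine ⟨(y : D)⁻¹, P.toSubgroup.inv_mem y.2, ?_⟩
  have hc : s * ((y : D).1⁻¹ * d.1⁻¹) = ((y : D).1⁻¹ * d.1⁻¹) * s := hy'
  change (d.1)⁻¹ * s * d.1 = ((y : D).1⁻¹)⁻¹ * s * (y : D).1⁻¹
  rw [inv_inv]
  have e1 : (d.1)⁻¹ * s * d.1 = (y : D).1 * (((y : D).1⁻¹ * d.1⁻¹) * s) * d.1 := by group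
  rw [e1, ← hc]
  group

/-- Coprime action: an element of `s R` of order dividing three is conjugate to `s` under `R`,
`R` of order prime to three. -/
lemma conj_coprime [Finite Γ] {R : Subgroup Γ} (hcop : (Nat.card R).Coprime 3) {s ρ : Γ}
    (hs : s ^ 3 = 1) (hn : ∀ r ∈ R, s * r * s⁻¹ ∈ R) (hρ : ρ ∈ R) (h3 : (s * ρ) ^ 3 = 1) :
    ∃ r ∈ R, s * ρ = r⁻¹ * s * r := by
  obtain ⟨r, hr⟩ := fix_three (α := R)
    (fun r => ⟨s * (ρ * r.1) * s⁻¹, hn _ (R.mul_mem hρ r.2)⟩) (by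
      intro r
      apply Subtype.ext
      change s * (ρ * (s * (ρ * (s * (ρ * r.1) * s⁻¹)) * s⁻¹)) * s⁻¹ = r.1
      have e : s * (ρ * (s * (ρ * (s * (ρ * r.1) * s⁻¹)) * s⁻¹)) * s⁻¹
          = (s * ρ) ^ 3 * r.1 * (s ^ 3)⁻¹ := by
        rw [pow_three, pow_three]
        group
      rw [e, h3, hs]
      group) hcop
  have hr' : s * (ρ * r.1) * s⁻¹ = r.1 := congrArg Subtype.val hr
  refine ⟨(r.1)⁻¹, R.inv_mem r.2, ?_⟩
  have e : s * ρ = (s * (ρ * r.1) * s⁻¹) * s * (r.1)⁻¹ := by group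
  rw [e, hr', inv_inv]

/-- row T3: the 2-group `R = [D, s]`. -/
theorem exists_R [Finite Γ] {D : Subgroup Γ} (hcop : (Nat.card D).Coprime 3) {s : Γ}
    (hs : s ^ 3 = 1) (hn : ∀ d ∈ D, s * d * s⁻¹ ∈ D)
    (h : ∃ m, Nat.card D = 2 ^ m * cc D s) :
    ∃ R : Subgroup Γ, R ≤ D ∧ (∀ d ∈ D, ∀ r ∈ R, d * r * d⁻¹ ∈ R) ∧
      (∀ r ∈ R, s * r * s⁻¹ ∈ R) ∧ IsPGroup 2 R ∧
      (∀ d ∈ D, ∃ r ∈ R, d⁻¹ * s * d = r⁻¹ * s * r) ∧
      (∀ M : Subgroup Γ, M ≤ R → (∀ r ∈ R, r⁻¹ * (s * r * s⁻¹) ∈ M) → R ≤ M) ∧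
      (∀ d ∈ D, d⁻¹ * (s * d * s⁻¹) ∈ R) := by
  have : Fact (Nat.Prime 2) := ⟨Nat.prime_two⟩
  obtain ⟨P, hP⟩ := inv_sylow hcop hs hn 2
  set R : Subgroup Γ := Subgroup.closure {x | ∃ d ∈ D, x = d⁻¹ * (s * d * s⁻¹)} with hR
  have hgenR : ∀ d ∈ D, d⁻¹ * (s * d * s⁻¹) ∈ R := fun d hd =>
    Subgroup.subset_closure ⟨d, hd, rfl⟩
  have hRD : R ≤ D := by
    rw [hR, Subgroup.closure_le]
    rintro x ⟨d, hd, rfl⟩
    exact D.mul_mem (D.inv_mem hd) (hn d hd)
  have hRP : R ≤ (P : Subgroup D).map D.subtype := by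
    rw [hR, Subgroup.closure_le]
    rintro x ⟨d, hd, rfl⟩
    obtain ⟨t, ht, hdt⟩ := conj_sylow_two P h ⟨d, hd⟩
    have hdt' : d⁻¹ * s * d = (t.1)⁻¹ * s * t.1 := hdt
    have e : d⁻¹ * (s * d * s⁻¹) = (t.1)⁻¹ * (s * t.1 * s⁻¹) := by
      have e1 : d⁻¹ * (s * d * s⁻¹) = (d⁻¹ * s * d) * s⁻¹ := by group
      rw [e1, hdt']
      group
    rw [e]
    refine ⟨t⁻¹ * ⟨s * t.1 * s⁻¹, hn _ t.2⟩, ?_, rfl⟩
    exact P.toSubgroup.mul_mem (P.toSubgroup.inv_mem ht) (hP t ht)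
  have hR2 : IsPGroup 2 R := by
    have h1 : IsPGroup 2 ((P : Subgroup D).map D.subtype) := P.2.map _
    exact h1.to_le hRP
  have hnorm : ∀ d ∈ D, ∀ r ∈ R, d * r * d⁻¹ ∈ R := by
    intro e he r hr
    rw [hR] at hr
    induction hr using Subgroup.closure_induction with
    | mem x hx =>
      obtain ⟨d, hd, rfl⟩ := hx
      have e1 : e * (d⁻¹ * (s * d * s⁻¹)) * e⁻¹
          = ((d * e⁻¹)⁻¹ * (s * (d * e⁻¹) * s⁻¹)) * ((e⁻¹)⁻¹ * (s * e⁻¹ * s⁻¹))⁻¹ := by group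
      rw [e1]
      exact R.mul_mem (hgenR _ (D.mul_mem hd (D.inv_mem he)))
        (R.inv_mem (hgenR _ (D.inv_mem he)))
    | one => rw [mul_one, mul_inv_cancel]; exact R.one_mem
    | mul x y _ _ hx hy =>
      have : e * (x * y) * e⁻¹ = (e * x * e⁻¹) * (e * y * e⁻¹) := by group
      rw [this]
      exact R.mul_mem hx hy
    | inv x _ hx =>
      have : e * x⁻¹ * e⁻¹ = (e * x * e⁻¹)⁻¹ := by group
      rw [this]
      exact R.inv_mem hx
  have hsinv : ∀ r ∈ R, s * r * s⁻¹ ∈ R := by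
    intro r hr
    rw [hR] at hr
    induction hr using Subgroup.closure_induction with
    | mem x hx =>
      obtain ⟨d, hd, rfl⟩ := hx
      have e1 : s * (d⁻¹ * (s * d * s⁻¹)) * s⁻¹
          = (s * d * s⁻¹)⁻¹ * (s * (s * d * s⁻¹) * s⁻¹) := by group
      rw [e1]
      exact hgenR _ (hn d hd)
    | one => rw [mul_one, mul_inv_cancel]; exact R.one_mem
    | mul x y _ _ hx hy =>
      have : s * (x * y) * s⁻¹ = (s * x * s⁻¹) * (s * y * s⁻¹) := by group
      rw [this]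
      exact R.mul_mem hx hy
    | inv x _ hx =>
      have : s * x⁻¹ * s⁻¹ = (s * x * s⁻¹)⁻¹ := by group
      rw [this]
      exact R.inv_mem hx
  have hRcop : (Nat.card R).Coprime 3 :=
    Nat.Coprime.coprime_dvd_left (Subgroup.card_dvd_of_le hRD) hcop
  have hconj : ∀ d ∈ D, ∃ r ∈ R, d⁻¹ * s * d = r⁻¹ * s * r := by
    intro d hd
    -- d⁻¹ s d = s (s⁻¹ d⁻¹ s d)
    have hρ : s⁻¹ * (d⁻¹ * (s * d * s⁻¹)) * s ∈ R := by
      have e1 : s * s = s⁻¹ := by
        rw [eq_inv_iff_mul_eq_one, ← pow_three', hs]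
      have e2 : s⁻¹ * s⁻¹ = s := by
        rw [← mul_inv_rev, e1, inv_inv]
      have h1 := hsinv _ (hsinv _ (hgenR d hd))
      have e3 : s * (s * (d⁻¹ * (s * d * s⁻¹)) * s⁻¹) * s⁻¹
          = (s * s) * (d⁻¹ * (s * d * s⁻¹)) * (s⁻¹ * s⁻¹) := by group
      rw [e3, e1, e2] at h1
      exact h1
    have h3 : (s * (s⁻¹ * (d⁻¹ * (s * d * s⁻¹)) * s)) ^ 3 = 1 := by
      have e : s * (s⁻¹ * (d⁻¹ * (s * d * s⁻¹)) * s) = d⁻¹ * s * d := by group
      rw [e]
      have e' : (d⁻¹ * s * d) ^ 3 = d⁻¹ * s ^ 3 * d := by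
        rw [pow_three, pow_three]; group
      rw [e', hs]
      group
    obtain ⟨r, hr, hr'⟩ := conj_coprime hRcop hs hsinv hρ h3
    refine ⟨r, hr, ?_⟩
    rw [← hr']
    group
  refine ⟨R, hRD, hnorm, hsinv, hR2, hconj, ?_, hgenR⟩
  intro M _ hM
  rw [hR, Subgroup.closure_le]
  rintro x ⟨d, hd, rfl⟩
  obtain ⟨r, hr, hdr⟩ := hconj d hd
  have e : d⁻¹ * (s * d * s⁻¹) = r⁻¹ * (s * r * s⁻¹) := by
    have e1 : d⁻¹ * (s * d * s⁻¹) = (d⁻¹ * s * d) * s⁻¹ := by group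
    rw [e1, hdr]
    group
  rw [e]
  exact hM r hr

end T2

end SYL2
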