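import Pool.Agent.SYL2.M2
import Pool.Agent.SYL2.T2
import Pool.Agent.SYL2.H3d
import Pool.Agent.SYL2.M3c

set_option autoImplicit false

/-! # SYL2, row P3b (helper47): `quad_three` -/

namespace SYL2


variable {Γ W : Type} [Group Γ] [Finite Γ] [AddCommGroup W]
  [Module (ZMod 3) W] [Finite W] (ρ : Representation (ZMod 3) Γ W)

theorem quad_three {K D S : Subgroup Γ} (cfg : Cfg ρ K D S) (hst : Star ρ D S ⊤)
    (h : ∀ s ∈ S, ∃ m, Nat.card D = 2 ^ m * cc D s) : Quad ρ S ⊤ := by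
  classical
  have : Fact (Nat.Prime 3) := ⟨Nat.prime_three⟩
  by_cases hS : S = ⊥
  · intro s hs t ht u _
    rw [hS, Subgroup.mem_bot] at hs
    subst hs
    rw [_root_.map_one, sub_self, LinearMap.zero_apply, _root_.map_zero]
  obtain ⟨𝒲, hi, hsup, hA, hK, -⟩ := structure_cfg ρ cfg hS
  have hSD : ∀ s ∈ S, ∀ d ∈ D, s * d * s⁻¹ ∈ D := fun s hs d hd => cfg.Dn s (cfg.SK hs) d hd
  refine quad_of_square ρ rfl cfg.Sab fun s hs w => ?_
  have hs3 : s ^ 3 = 1 := cfg.Sexp s hs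
  -- every element of `S` fixes every member
  have hfix : ∀ t ∈ S, ∀ A ∈ 𝒲, A.map (ρ t) = A := by
    intro t ht A hA'
    by_contra hne
    obtain ⟨a, ha, ha0⟩ := (Submodule.ne_bot_iff A).1 (hA A hA').1
    obtain ⟨d, hd, h1⟩ := hst t ht a Submodule.mem_top
    have h2 := support ρ hi (fun B hB => (hA B hB).2.1) hA' hd (hK t (cfg.SK ht) A hA')
      (hK t (cfg.SK ht) A hA') (hK t (cfg.SK ht) _ (hK t (cfg.SK ht) A hA')) hne ha ha0
      (h1 t ht)
    rcases h2 with h2 | h2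
    · exact hne h2
    · -- `t² A = A` and `t³ A = A`
      have h3 : (((A.map (ρ t)).map (ρ t)).map (ρ t)) = A := by
        rw [← map_mul_eq, ← map_mul_eq, ← pow_two, ← pow_succ, cfg.Sexp t ht, map_one_eq]
      rw [h2] at h3
      exact hne h3
  have hSA : ∀ A ∈ 𝒲, Inv ρ S A := fun A hA' t ht a ha => mem_of_map_eq ρ (hfix t ht A hA') ha
  -- `(s - 1)²` kills every member
  have hsq : ∀ A ∈ 𝒲, ∀ a ∈ A, (ρ s - 1) ((ρ s - 1) a) = 0 := by
    intro A hA' a ha
    obtain ⟨hA0, hDA, hEF, hfx⟩ := hA A hA'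
    have hstA : Star ρ D S A := fun t ht u _ => hst t ht u Submodule.mem_top
    by_cases hc : ∀ d ∈ D, ∀ a ∈ A, ρ s (ρ d a) = ρ d (ρ s a)
    · have h1 := cent_trivial ρ cfg.Dcop hSD hDA (hSA A hA') hstA hfx (DS_le hSD) hs hc
      simp only [LinearMap.sub_apply, Module.End.one_apply]
      rw [h1 a ha, sub_self, _root_.map_zero, sub_zero]
    · obtain ⟨R, hRD, hRn, hRs, hR2, hRconj, hRgen, hRcomm⟩ :=
        exists_R cfg.Dcop hs3 (hSD s hs) (h s hs)
      have hfixR : A ⊓ Fx ρ R = ⊥ := by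
        rcases hEF R ⟨hRD, hRn⟩ with h1 | h1
        · exact h1
        · exfalso
          apply hc
          intro d hd b hb
          have h2 := h1 ((hSA A hA') s hs b hb) _ (hRcomm d hd)
          have e1 : d⁻¹ * (s * d * s⁻¹) * s = d⁻¹ * (s * d) := by group
          rw [← rho_mul, e1, rho_mul, rho_mul] at h2
          have h3 := congrArg (ρ d) h2
          rw [rho_self_inv] at h3
          exact h3
      refine three_rep ρ hR2 hs3 hRs hRgen (fun r hr u hu => hDA r (hRD hr) u hu)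
        (fun u hu => hSA A hA' s hs u hu) hfixR (fun u hu => ?_) a ha
      obtain ⟨d, hd, h1⟩ := hst s hs u Submodule.mem_top
      obtain ⟨r, hr, h2⟩ := hRconj d hd
      refine ⟨r, hr, ?_⟩
      rw [← h2]
      exact h1 s hs
  have hle : (⊤ : Submodule (ZMod 3) W) ≤ LinearMap.ker ((ρ s - 1) * (ρ s - 1)) := by
    rw [← hsup]
    refine sSup_le fun A hA' a ha => ?_
    rw [LinearMap.mem_ker]
    exact hsq A hA' a ha
  exact LinearMap.mem_ker.1 (hle Submodule.mem_top)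

end SYL2
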