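import Pool.Agent.SYL2.Normal

/-!
# Groups with the same character table: quotients
-/

set_option autoImplicit false
set_option linter.unusedSectionVars false

namespace SYL2

open CategoryTheory Pool.Agent.Helper88.RepTools

/-! ### kernels of characters -/

section ker

variable {G : Type} [Group G] [Finite G]

/-- a subgroup on which the character is constant acts trivially -/
theorem acts_trivially (N : Subgroup G) (V : FDRep ℂ G)
    (h : ∀ n ∈ N, V.character n = V.character 1) (n : G) (hn : n ∈ N) (x : V) :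
    V.ρ n x = x := by
  classical
  have := Fintype.ofFinite N
  have hcard : (Fintype.card N : ℂ) ≠ 0 := by exact_mod_cast Fintype.card_ne_zero
  have : Invertible (Nat.card N : ℂ) := invertibleOfNonzero (by
    rw [Nat.card_eq_fintype_card]
    exact hcard)
  let U : FDRep ℂ N := FDRep.of (V.ρ.comp N.subtype)
  have h1 := FDRep.average_char_eq_finrank_invariants U
  have h2 : ∀ g : N, U.character g = Module.finrank ℂ V := by
    intro g
    have h3 : U.character g = V.character (g : G) := rfl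
    rw [h3, h _ g.2, FDRep.char_one]
  simp only [h2, Finset.sum_const, Finset.card_univ, nsmul_eq_mul] at h1
  have h3 : (Module.finrank ℂ (Representation.invariants U.ρ) : ℂ) = Module.finrank ℂ V := by
    rw [← h1, ← mul_assoc, Nat.card_eq_fintype_card, inv_mul_cancel₀ hcard, one_mul]
  have h4 : Module.finrank ℂ (Representation.invariants U.ρ) = Module.finrank ℂ U := by
    exact_mod_cast h3
  have h5 : Representation.invariants U.ρ = ⊤ := Submodule.eq_top_of_finrank_eq h4
  have h6 : (x : U) ∈ Representation.invariants U.ρ := by rw [h5]; trivial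
  exact (Representation.mem_invariants _ _).1 h6 ⟨n, hn⟩

end ker

section inflate

variable {G : Type} [Group G] [Finite G] (N : Subgroup G) [N.Normal]

/-- inflation of a representation -/
noncomputable def infl (V : FDRep ℂ (G ⧸ N)) : FDRep ℂ G :=
  FDRep.of (V := V) (V.ρ.comp (QuotientGroup.mk' N))

theorem infl_character (V : FDRep ℂ (G ⧸ N)) (g : G) :
    (infl N V).character g = V.character (g : G ⧸ N) := rfl

theorem infl_simple (V : FDRep ℂ (G ⧸ N)) (hV : Simple V) : Simple (infl N V) := by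
  have hnt : Nontrivial V := by
    have := Fintype.ofFinite (G ⧸ N)
    exact nontrivial_of_simple V hV
  refine simple_of_irr (X := V) (V.ρ.comp (QuotientGroup.mk' N)) fun U hU hne => ?_
  refine irr_of_simple V U (fun g u hu => ?_) hne
  obtain ⟨a, rfl⟩ := QuotientGroup.mk_surjective g
  exact hU a u hu

/-- deflation of a representation with the subgroup in its kernel -/
noncomputable def defl (V : FDRep ℂ G) (h : ∀ n ∈ N, ∀ x : V, V.ρ n x = x) : FDRep ℂ (G ⧸ N) :=
  FDRep.of (V := V) (QuotientGroup.lift N V.ρ fun n hn => LinearMap.ext (h n hn))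

theorem defl_character (V : FDRep ℂ G) (h : ∀ n ∈ N, ∀ x : V, V.ρ n x = x) (g : G) :
    (defl N V h).character (g : G ⧸ N) = V.character g := rfl

theorem defl_simple (V : FDRep ℂ G) (hV : Simple V) (h : ∀ n ∈ N, ∀ x : V, V.ρ n x = x) :
    Simple (defl N V h) := by
  have hnt : Nontrivial V := by
    have := Fintype.ofFinite G
    exact nontrivial_of_simple V hV
  refine simple_of_irr (X := V) (QuotientGroup.lift N V.ρ fun n hn => LinearMap.ext (h n hn))
    fun U hU hne => ?_
  exact irr_of_simple V U (fun g u hu => hU (g : G ⧸ N) u hu) hne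

end inflate

section quot

variable {G H : Type} [Group G] [Group H] [Finite G] [Finite H]
  {e : ConjClasses G ≃ ConjClasses H}

theorem quot_aux (hT : SameTable e) (N : Subgroup G) [N.Normal] (N' : Subgroup H) [N'.Normal]
    (hNN : ∀ g h, e (ConjClasses.mk g) = ConjClasses.mk h → (g ∈ N ↔ h ∈ N')) {g g₂ : G} {h h₂ : H}
    (hg : ConjClasses.mk (g : G ⧸ N) = ConjClasses.mk (g₂ : G ⧸ N))
    (h1 : e (ConjClasses.mk g) = ConjClasses.mk h) (h2 : e (ConjClasses.mk g₂) = ConjClasses.mk h₂) :
    ConjClasses.mk (h : H ⧸ N') = ConjClasses.mk (h₂ : H ⧸ N') := by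
  rw [ConjClasses.mk_eq_mk_iff_isConj, isConj_iff] at hg
  obtain ⟨c, hc⟩ := hg
  obtain ⟨c, rfl⟩ := QuotientGroup.mk_surjective c
  have h3 : ((c * g * c⁻¹ : G) : G ⧸ N) = g₂ := by
    rw [← hc]
    rfl
  rw [QuotientGroup.eq] at h3
  obtain ⟨a, b, hab, ha, hb⟩ := exists_mul hT (c * g * c⁻¹) ((c * g * c⁻¹)⁻¹ * g₂) h₂
    (by rw [mul_inv_cancel_left, h2])
  have hb' : b ∈ N' := (hNN _ _ hb).1 h3
  rw [mk_conj, h1] at ha
  have h4 : (h₂ : H ⧸ N') = a := by
    rw [← hab, eq_comm, QuotientGroup.eq, inv_mul_cancel_left]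
    exact hb'
  rw [h4]
  rw [ConjClasses.mk_eq_mk_iff_isConj, isConj_iff] at ha ⊢
  obtain ⟨t, rfl⟩ := ha
  exact ⟨(t : H ⧸ N'), rfl⟩

theorem hNN_symm {N : Subgroup G} {N' : Subgroup H}
    (hNN : ∀ g h, e (ConjClasses.mk g) = ConjClasses.mk h → (g ∈ N ↔ h ∈ N')) (h : H) (g : G)
    (hh : e.symm (ConjClasses.mk h) = ConjClasses.mk g) : h ∈ N' ↔ g ∈ N :=
  (hNN g h (by rw [← hh, Equiv.apply_symm_apply])).symm

/-- the bijection between the classes of the quotients -/
noncomputable def quotMap (e : ConjClasses G ≃ ConjClasses H) (N : Subgroup G) [N.Normal]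
    (N' : Subgroup H) [N'.Normal] (K : ConjClasses (G ⧸ N)) : ConjClasses (H ⧸ N') :=
  ConjClasses.mk (((e (ConjClasses.mk K.out.out)).out : H) : H ⧸ N')

theorem quotMap_mk (hT : SameTable e) (N : Subgroup G) [N.Normal] (N' : Subgroup H) [N'.Normal]
    (hNN : ∀ g h, e (ConjClasses.mk g) = ConjClasses.mk h → (g ∈ N ↔ h ∈ N')) (g : G) (h : H)
    (hgh : e (ConjClasses.mk g) = ConjClasses.mk h) :
    quotMap e N N' (ConjClasses.mk (g : G ⧸ N)) = ConjClasses.mk (h : H ⧸ N') := by
  refine quot_aux hT N N' hNN (g := (ConjClasses.mk (g : G ⧸ N)).out.out) (g₂ := g) ?_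
    (mk_out _).symm hgh
  rw [QuotientGroup.out_eq', mk_out]

/-- the bijection between the classes of the quotients -/
noncomputable def quotEquiv (hT : SameTable e) (N : Subgroup G) [N.Normal] (N' : Subgroup H)
    [N'.Normal] (hNN : ∀ g h, e (ConjClasses.mk g) = ConjClasses.mk h → (g ∈ N ↔ h ∈ N')) :
    ConjClasses (G ⧸ N) ≃ ConjClasses (H ⧸ N') where
  toFun := quotMap e N N'
  invFun := quotMap e.symm N' N
  left_inv K := by
    obtain ⟨k, rfl⟩ := ConjClasses.mk_surjective K
    obtain ⟨g, rfl⟩ := QuotientGroup.mk_surjective k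
    obtain ⟨h, hgh⟩ := exists_rep' e g
    rw [quotMap_mk hT N N' hNN g h hgh, quotMap_mk hT.symm N' N (fun h g => hNN_symm hNN h g) h g]
    rw [← hgh, Equiv.symm_apply_apply]
  right_inv K := by
    obtain ⟨k, rfl⟩ := ConjClasses.mk_surjective K
    obtain ⟨h, rfl⟩ := QuotientGroup.mk_surjective k
    obtain ⟨g, hgh⟩ := exists_rep e h
    rw [quotMap_mk hT.symm N' N (fun h g => hNN_symm hNN h g) h g
      (by rw [← hgh, Equiv.symm_apply_apply]), quotMap_mk hT N N' hNN g h hgh]

theorem quotEquiv_mk (hT : SameTable e) (N : Subgroup G) [N.Normal] (N' : Subgroup H) [N'.Normal]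
    (hNN : ∀ g h, e (ConjClasses.mk g) = ConjClasses.mk h → (g ∈ N ↔ h ∈ N')) (g : G) (h : H)
    (hgh : e (ConjClasses.mk g) = ConjClasses.mk h) :
    quotEquiv hT N N' hNN (ConjClasses.mk (g : G ⧸ N)) = ConjClasses.mk (h : H ⧸ N') :=
  quotMap_mk hT N N' hNN g h hgh

theorem quot_half (hT : SameTable e) (N : Subgroup G) [N.Normal] (N' : Subgroup H) [N'.Normal]
    (hNN : ∀ g h, e (ConjClasses.mk g) = ConjClasses.mk h → (g ∈ N ↔ h ∈ N'))
    (V : FDRep ℂ (G ⧸ N)) (hV : Simple V) :
    ∃ W : FDRep ℂ (H ⧸ N'), Simple W ∧ ∀ (g : G ⧸ N) (h : H ⧸ N'),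
      quotEquiv hT N N' hNN (ConjClasses.mk g) = ConjClasses.mk h →
        V.character g = W.character h := by
  obtain ⟨W, hW, hVW⟩ := hT.1 (infl N V) (infl_simple N V hV)
  have hker : ∀ n ∈ N', ∀ x : W, W.ρ n x = x := by
    refine fun n hn => acts_trivially N' W (fun n hn => ?_) n hn
    obtain ⟨g, hg⟩ := exists_rep e n
    have h1 : g ∈ N := (hNN g n hg).2 hn
    rw [← hVW g n hg, ← hVW 1 1 (map_one hT), infl_character, infl_character,
      (QuotientGroup.eq_one_iff g).2 h1]
    rfl
  refine ⟨defl N' W hker, defl_simple N' W hW hker, fun g h hgh => ?_⟩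
  obtain ⟨a, rfl⟩ := QuotientGroup.mk_surjective g
  obtain ⟨b, hab⟩ := exists_rep' e a
  rw [quotEquiv_mk hT N N' hNN a b hab] at hgh
  rw [← char_eq_of_mk hgh, defl_character, ← hVW a b hab, infl_character]

theorem quot_symm (hT : SameTable e) (N : Subgroup G) [N.Normal] (N' : Subgroup H) [N'.Normal]
    (hNN : ∀ g h, e (ConjClasses.mk g) = ConjClasses.mk h → (g ∈ N ↔ h ∈ N')) :
    quotEquiv hT.symm N' N (fun h g => hNN_symm hNN h g) = (quotEquiv hT N N' hNN).symm := by
  ext K
  rfl

/-- **quotients of groups with the same table have the same table** -/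
theorem quot_table (hT : SameTable e) (N : Subgroup G) [N.Normal] (N' : Subgroup H) [N'.Normal]
    (hNN : ∀ g h, e (ConjClasses.mk g) = ConjClasses.mk h → (g ∈ N ↔ h ∈ N')) :
    SameTable (quotEquiv hT N N' hNN) := by
  refine ⟨quot_half hT N N' hNN, fun W hW => ?_⟩
  obtain ⟨V, hV, hVW⟩ := quot_half hT.symm N' N (fun h g => hNN_symm hNN h g) W hW
  refine ⟨V, hV, fun g h hgh => (hVW h g ?_).symm⟩
  rw [quot_symm hT N N' hNN, ← hgh, Equiv.symm_apply_apply]

end quot

end SYL2
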