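import Pool.Agent.Helper88.Nav7

/-!
# Characters of a finite group separate class functions; central characters
-/

set_option autoImplicit false
set_option linter.unusedSectionVars false

namespace SYL2

open CategoryTheory Pool.Agent.Helper88.RepTools

section rep

variable {S : Type} [Group S] [Fintype S]

/-- the operator attached to a function on the group -/
noncomputable def op {X : Type} [AddCommGroup X] [Module ℂ X] (ρ : S →* (X →ₗ[ℂ] X))
    (f : S → ℂ) : X →ₗ[ℂ] X := ∑ g, f g • ρ g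

theorem op_apply {X : Type} [AddCommGroup X] [Module ℂ X] (ρ : S →* (X →ₗ[ℂ] X))
    (f : S → ℂ) (x : X) : op ρ f x = ∑ g, f g • ρ g x := by
  rw [op, LinearMap.sum_apply]
  rfl

/-- convolution -/
noncomputable def conv (f₁ f₂ : S → ℂ) (z : S) : ℂ := ∑ x, f₁ x * f₂ (x⁻¹ * z)

theorem op_conv {X : Type} [AddCommGroup X] [Module ℂ X] (ρ : S →* (X →ₗ[ℂ] X))
    (f₁ f₂ : S → ℂ) (x : X) : op ρ (conv f₁ f₂) x = op ρ f₁ (op ρ f₂ x) := by
  have h1 : op ρ (conv f₁ f₂) x = ∑ a, ∑ z, (f₁ a * f₂ (a⁻¹ * z)) • ρ z x := by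
    rw [op_apply, Finset.sum_comm]
    exact Finset.sum_congr rfl fun z _ => by rw [conv, Finset.sum_smul]
  have h2 : op ρ f₁ (op ρ f₂ x) = ∑ a, ∑ b, (f₁ a * f₂ b) • ρ (a * b) x := by
    rw [op_apply]
    refine Finset.sum_congr rfl fun a _ => ?_
    rw [op_apply, map_sum, Finset.smul_sum]
    refine Finset.sum_congr rfl fun b _ => ?_
    rw [map_smul, smul_smul, map_mul]
    rfl
  rw [h1, h2]
  refine Finset.sum_congr rfl fun a _ => ?_
  rw [← Equiv.sum_comp (Equiv.mulLeft a)]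
  refine Finset.sum_congr rfl fun b _ => ?_
  rw [Equiv.coe_mulLeft, inv_mul_cancel_left]

theorem op_comm {X : Type} [AddCommGroup X] [Module ℂ X] (ρ : S →* (X →ₗ[ℂ] X)) (f : S → ℂ)
    (hf : ∀ g h, f (h * g * h⁻¹) = f g) (h : S) (x : X) : op ρ f (ρ h x) = ρ h (op ρ f x) := by
  simp only [op_apply, map_sum, map_smul]
  rw [← Equiv.sum_comp (MulAut.conj h).toEquiv]
  refine Finset.sum_congr rfl fun g _ => ?_
  have h1 : (MulAut.conj h).toEquiv g = h * g * h⁻¹ := rfl
  rw [h1, hf]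
  congr 1
  rw [← Module.End.mul_apply, ← Module.End.mul_apply, ← map_mul, ← map_mul]
  simp

theorem trace_op {X : Type} [AddCommGroup X] [Module ℂ X] [FiniteDimensional ℂ X]
    (ρ : S →* (X →ₗ[ℂ] X)) (f : S → ℂ) :
    LinearMap.trace ℂ X (op ρ f) = ∑ g, f g * LinearMap.trace ℂ X (ρ g) := by
  rw [op, map_sum]
  simp only [map_smul, smul_eq_mul]

/-- Schur's lemma -/
theorem exists_scalar_of_irr {X : Type} [AddCommGroup X] [Module ℂ X] [FiniteDimensional ℂ X]
    [Nontrivial X] (ρ : S →* (X →ₗ[ℂ] X)) (hirr : Irr ρ) (T : X →ₗ[ℂ] X)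
    (hT : ∀ h x, T (ρ h x) = ρ h (T x)) : ∃ c : ℂ, ∀ x, T x = c • x := by
  obtain ⟨c, hc⟩ := Module.End.exists_eigenvalue T
  refine ⟨c, ?_⟩
  have h1 := hirr (Module.End.eigenspace T c) (fun g u hu => by
    rw [Module.End.mem_eigenspace_iff] at hu ⊢
    rw [hT, hu, map_smul]) (fun h => by
      rw [Module.End.hasEigenvalue_iff] at hc
      exact hc h)
  intro x
  have h2 : x ∈ Module.End.eigenspace T c := by rw [h1]; trivial
  exact Module.End.mem_eigenspace_iff.1 h2

theorem op_restr {X : Type} [AddCommGroup X] [Module ℂ X] (ρ : S →* (X →ₗ[ℂ] X)) (f : S → ℂ)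
    (U : Submodule ℂ X) (hU : ∀ g, ∀ u ∈ U, ρ g u ∈ U) (u : U) :
    (op (restr ρ U hU) f u : X) = op ρ f u := by
  rw [op_apply, op_apply, Submodule.coe_sum]
  rfl

theorem exists_irr_op (f : S → ℂ) (n : ℕ) :
    ∀ (X : Type) [AddCommGroup X] [Module ℂ X] [FiniteDimensional ℂ X] (ρ : S →* (X →ₗ[ℂ] X)),
      Module.finrank ℂ X = n → ∀ x₀ : X, op ρ f x₀ ≠ 0 →
      ∃ (Y : Type) (_ : AddCommGroup Y) (_ : Module ℂ Y) (_ : FiniteDimensional ℂ Y)
        (σ : S →* (Y →ₗ[ℂ] Y)), Irr σ ∧ ∃ y₀ : Y, op σ f y₀ ≠ 0 := by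
  induction n using Nat.strong_induction_on with
  | _ n ih =>
    intro X _ _ _ ρ hn x₀ hx₀
    by_cases hirr : Irr ρ
    · exact ⟨X, _, _, inferInstance, ρ, hirr, x₀, hx₀⟩
    · simp only [Irr, not_forall] at hirr
      obtain ⟨U, hU, hbot, htop⟩ := hirr
      obtain ⟨U', hU', hinf, hsup⟩ := exists_compl ρ U hU
      obtain ⟨u, hu, u', hu', rfl⟩ : ∃ u ∈ U, ∃ u' ∈ U', u + u' = x₀ :=
        Submodule.mem_sup.mp (by rw [hsup]; trivial)
      by_cases hu0 : op ρ f u = 0
      · have hu'0 : op ρ f u' ≠ 0 := by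
          intro h
          apply hx₀
          rw [map_add, hu0, h, add_zero]
        have hlt : U' < ⊤ := lt_top_iff_ne_top.mpr (by
          rintro rfl
          rw [inf_top_eq] at hinf
          exact hbot hinf)
        refine ih _ (by rw [← hn]; exact Submodule.finrank_lt hlt.ne) U' (restr ρ U' hU') rfl
          ⟨u', hu'⟩ fun h => hu'0 ?_
        have h1 := op_restr ρ f U' hU' ⟨u', hu'⟩
        rw [h] at h1
        exact h1.symm
      · refine ih _ (by rw [← hn]; exact Submodule.finrank_lt htop) U (restr ρ U hU) rfl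
          ⟨u, hu⟩ fun h => hu0 ?_
        have h1 := op_restr ρ f U hU ⟨u, hu⟩
        rw [h] at h1
        exact h1.symm

theorem nontrivial_of_simple (V : FDRep ℂ S) (hV : Simple V) : Nontrivial V := by
  by_contra hcon
  rw [not_nontrivial_iff_subsingleton] at hcon
  have h1 : 𝟙 V ≠ 0 := id_nonzero V
  apply h1
  ext x
  exact Subsingleton.elim (α := V) _ _

/-- **completeness**: a class function orthogonal to all irreducible characters is zero -/
theorem eq_zero_of_char (f : S → ℂ) (hf : ∀ g h, f (h * g * h⁻¹) = f g)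
    (h : ∀ V : FDRep ℂ S, Simple V → ∑ g, f g * V.character g = 0) : f = 0 := by
  classical
  by_contra hne
  obtain ⟨s, hs⟩ : ∃ s, f s ≠ 0 := by
    by_contra hcon
    push Not at hcon
    exact hne (funext hcon)
  have h1 : op (reg S) f (Pi.single 1 1) ≠ 0 := by
    intro h0
    apply hs
    have h2 := congrFun h0 s
    rw [op_apply, Finset.sum_apply, Finset.sum_eq_single s] at h2
    · rw [Pi.smul_apply, reg_apply, inv_mul_cancel, Pi.single_eq_same, smul_eq_mul, mul_one] at h2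
      exact h2
    · intro b _ hb
      rw [Pi.smul_apply, reg_apply, Pi.single_eq_of_ne, smul_zero]
      intro h3
      exact hb (inv_mul_eq_one.1 h3)
    · intro h3
      exact absurd (Finset.mem_univ _) h3
  obtain ⟨Y, _, _, _, σ, hirr, y₀, hy₀⟩ := exists_irr_op f _ (S → ℂ) (reg S) rfl _ h1
  have hnt : Nontrivial Y := ⟨⟨op σ f y₀, 0, hy₀⟩⟩
  obtain ⟨c, hc⟩ := exists_scalar_of_irr σ hirr (op σ f) (op_comm σ f hf)
  have hc0 : c ≠ 0 := by
    rintro rfl
    exact hy₀ (by rw [hc, zero_smul])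
  have h2 := h (FDRep.of σ) (simple_of_irr σ hirr)
  have h3 : LinearMap.trace ℂ Y (op σ f) = c * Module.finrank ℂ Y := by
    have : op σ f = c • LinearMap.id := LinearMap.ext hc
    rw [this, map_smul, LinearMap.trace_id, smul_eq_mul]
  rw [trace_op] at h3
  have h4 : c * (Module.finrank ℂ Y : ℂ) = 0 := h3.symm.trans h2
  have h5 : (Module.finrank ℂ Y : ℂ) ≠ 0 := by
    exact_mod_cast Module.finrank_pos.ne'
  exact (mul_ne_zero hc0 h5) h4

/-- central characters are multiplicative -/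
theorem sum_conv (V : FDRep ℂ S) (hV : Simple V) (f₁ f₂ : S → ℂ)
    (h₁ : ∀ g h, f₁ (h * g * h⁻¹) = f₁ g) (h₂ : ∀ g h, f₂ (h * g * h⁻¹) = f₂ g) :
    (∑ g, conv f₁ f₂ g * V.character g) * V.character 1 =
      (∑ g, f₁ g * V.character g) * ∑ g, f₂ g * V.character g := by
  have hnt := nontrivial_of_simple V hV
  have hirr := irr_of_simple V
  obtain ⟨c₁, hc₁⟩ := exists_scalar_of_irr (X := V) V.ρ hirr (op (X := V) V.ρ f₁)
    (op_comm (X := V) V.ρ f₁ h₁)
  obtain ⟨c₂, hc₂⟩ := exists_scalar_of_irr (X := V) V.ρ hirr (op (X := V) V.ρ f₂)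
    (op_comm (X := V) V.ρ f₂ h₂)
  have key : ∀ (f : S → ℂ) (c : ℂ), (∀ x : V, op (X := V) V.ρ f x = c • x) →
      ∑ g, f g * V.character g = c * V.character 1 := by
    intro f c hc
    have h3 : LinearMap.trace ℂ V (op (X := V) V.ρ f) = c * Module.finrank ℂ V := by
      have : op (X := V) V.ρ f = c • LinearMap.id := LinearMap.ext hc
      rw [this, map_smul, LinearMap.trace_id, smul_eq_mul]
    rw [trace_op] at h3
    rw [FDRep.char_one]
    exact h3
  rw [key _ _ hc₁, key _ _ hc₂, key (conv f₁ f₂) (c₁ * c₂) fun x => by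
    rw [op_conv, hc₂, map_smul, hc₁, smul_smul, mul_comm]]
  ring

theorem conv_class (f₁ f₂ : S → ℂ) (h₁ : ∀ g h, f₁ (h * g * h⁻¹) = f₁ g)
    (h₂ : ∀ g h, f₂ (h * g * h⁻¹) = f₂ g) (g h : S) :
    conv f₁ f₂ (h * g * h⁻¹) = conv f₁ f₂ g := by
  unfold conv
  rw [← Equiv.sum_comp (MulAut.conj h).toEquiv]
  refine Finset.sum_congr rfl fun x _ => ?_
  have h3 : (MulAut.conj h).toEquiv x = h * x * h⁻¹ := rfl
  rw [h3, h₁]
  congr 1
  rw [← h₂ (x⁻¹ * g) h]
  congr 1
  group

end rep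

end SYL2
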