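import Pool.Agent.SYL2.Defs

set_option autoImplicit false

/-! # SYL2, row T1: the tau lemma in odd characteristic -/

open scoped Pointwise

namespace SYL2

namespace T1

section Alg

variable {R : Type} [Ring R]

theorem exists_S {g g' : R} (h1 : g * g' = 1) (h2 : g' * g = 1) (n : ℕ) :
    ∃ S : R, (∀ w, Commute w (g + g') → Commute w S) ∧ g ^ n - g' ^ n = S * (g - g') := by
  have key : ∀ n : ℕ, ∃ S S' : R, (∀ w, Commute w (g + g') → Commute w S) ∧
      (∀ w, Commute w (g + g') → Commute w S') ∧ g ^ n - g' ^ n = S * (g - g') ∧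
      g ^ (n + 1) - g' ^ (n + 1) = S' * (g - g') := by
    intro n
    induction n with
    | zero =>
      refine ⟨0, 1, fun w _ => Commute.zero_right w, fun w _ => Commute.one_right w, ?_, ?_⟩
      · rw [pow_zero, pow_zero, sub_self, zero_mul]
      · rw [zero_add, pow_one, pow_one, one_mul]
    | succ n ih =>
      obtain ⟨S, S', hS, hS', e, e'⟩ := ih
      refine ⟨S', (g + g') * S' - S, hS', fun w hw => ?_, e', ?_⟩
      · exact (hw.mul_right (hS' w hw)).sub_right (hS w hw)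
      · rw [sub_mul, mul_assoc, ← e, ← e', add_mul, mul_sub, mul_sub, ← pow_succ', ← pow_succ']
        have e1 : g * g' ^ (n + 1) = g' ^ n := by
          rw [pow_succ', ← mul_assoc, h1, one_mul]
        have e2 : g' * g ^ (n + 1) = g ^ n := by
          rw [pow_succ', ← mul_assoc, h2, one_mul]
        rw [e1, e2]
        abel
  obtain ⟨S, -, hS, -, e, -⟩ := key n
  exact ⟨S, hS, e⟩

theorem one_add_pow {a : R} (ha : a * a = 0) (n : ℕ) : (1 + a) ^ n = 1 + n * a := by
  induction n with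
  | zero => simp
  | succ n ih =>
    have e : (n * a) * a = 0 := by rw [mul_assoc, ha, mul_zero]
    rw [pow_succ, ih, mul_add, add_mul 1 _ a, e, mul_one, add_zero, one_mul,
      Nat.cast_succ, add_mul, one_mul, add_assoc]

theorem comm_left {a b : R} (ha : a * a = 0) : Commute a (a * b + b * a) := by
  change a * (a * b + b * a) = (a * b + b * a) * a
  rw [mul_add, add_mul, ← mul_assoc, ha, zero_mul, zero_add, mul_assoc b, ha, mul_zero, add_zero,
    mul_assoc]

theorem comm_right {a b : R} (hb : b * b = 0) : Commute b (a * b + b * a) := by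
  change b * (a * b + b * a) = (a * b + b * a) * b
  rw [mul_add, add_mul, ← mul_assoc b b, hb, zero_mul, add_zero, mul_assoc a b b, hb, mul_zero,
    zero_add, mul_assoc]

/-- the algebraic core. -/
theorem key {a b k k' G G' : R} {n m i : ℕ} (ha : a * a = 0) (hb : b * b = 0)
    (hG : G = (1 + m * a) * (1 + b)) (hG' : G' = (1 - b) * (1 - m * a))
    (hT : (G ^ n - 1) * (G ^ n - 1) = 0) (hk : Commute k (a * b + b * a))
    (hk' : Commute k' (a * b + b * a)) (hka : a = k * ((G ^ n) ^ i - 1) * k') :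
    (2 * (a * b + b * a)) * (2 * (a * b + b * a)) *
      ((m * (a * b + b * a)) * (m * (a * b + b * a) + 4)) = 0 := by
  have hca := comm_left (b := b) ha
  have hcb := comm_right (a := a) hb
  have hm : ∀ w : R, Commute (m : R) w := fun w => Nat.cast_commute m w
  have hmm : (m * a) * (m * a) = 0 := by
    rw [mul_assoc, ← mul_assoc a, ← (hm a).eq, mul_assoc (m : R) a a, ha, mul_zero, mul_zero]
  have hGG' : G * G' = 1 := by
    rw [hG, hG']
    have e : (1 + b) * ((1 - b) * (1 - m * a)) = 1 - m * a := by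
      have e1 : (1 + b) * (1 - b) = 1 := by
        rw [add_mul, one_mul, mul_sub, hb, mul_one, sub_zero, sub_add_cancel]
      rw [← mul_assoc, e1, one_mul]
    rw [mul_assoc, e, add_mul, one_mul, mul_sub, hmm, mul_one, sub_zero, sub_add_cancel]
  have hG'G : G' * G = 1 := by
    rw [hG, hG']
    have e : (1 - m * a) * ((1 + m * a) * (1 + b)) = 1 + b := by
      have e1 : (1 - m * a) * (1 + m * a) = 1 := by
        rw [sub_mul, one_mul, mul_add, hmm, mul_one, add_zero, add_sub_cancel_right]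
      rw [← mul_assoc, e1, one_mul]
    rw [mul_assoc, e, sub_mul, one_mul, mul_add, hb, mul_one, add_zero, add_sub_cancel_right]
  generalize hc : a * b + b * a = c at *
  have hz : G + G' = 2 + m * c := by
    rw [hG, hG', ← hc]
    have e : b * (m * a) = m * (b * a) := by rw [← mul_assoc, ← (hm b).eq, mul_assoc]
    rw [add_mul, one_mul, mul_add, mul_one, sub_mul, one_mul, mul_sub, mul_one, e, mul_add,
      mul_assoc]
    have e2 : (2 : R) = 1 + 1 := by norm_num
    rw [e2]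
    abel
  obtain ⟨S, hS, hSn⟩ := exists_S hGG' hG'G n
  have hSc : ∀ w, Commute w c → Commute w S := fun w hw => by
    refine hS w ?_
    rw [hz]
    exact (Nat.cast_commute 2 w).symm.add_right ((hm w).symm.mul_right hw)
  have hGc : Commute G c := by
    rw [hG]
    exact (((Commute.one_left c).add_left ((hm c).mul_left hca))).mul_left
      ((Commute.one_left c).add_left hcb)
  have hG'c : Commute G' c := by
    rw [hG']
    exact ((Commute.one_left c).sub_left hcb).mul_left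
      ((Commute.one_left c).sub_left ((hm c).mul_left hca))
  set T := G ^ n - 1 with hTdef
  have hGn : G ^ n = 1 + T := by rw [hTdef, add_sub_cancel]
  have hG'n : G' ^ n = 1 - T := by
    have e1 : G' ^ n * G ^ n = 1 := by
      have hcomm : Commute G' G := hG'G.trans hGG'.symm
      rw [← hcomm.mul_pow, hG'G, one_pow]
    have e2 : G ^ n * (1 - T) = 1 := by
      rw [hGn, add_mul, one_mul, mul_sub, hT, mul_one, sub_zero, sub_add_cancel]
    calc G' ^ n = G' ^ n * (G ^ n * (1 - T)) := by rw [e2, mul_one]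
      _ = 1 - T := by rw [← mul_assoc, e1, one_mul]
  have h2T : 2 * T = S * (G - G') := by
    rw [← hSn, hGn, hG'n, two_mul]
    abel
  set A := k * (i * (G - G')) * k' with hA
  have hAc : Commute A c :=
    (hk.mul_left ((Nat.cast_commute i c).mul_left (hGc.sub_left hG'c))).mul_left hk'
  have h2a : 2 * a = S * A := by
    have e1 : (G ^ n) ^ i - 1 = i * T := by
      rw [hGn, one_add_pow hT, add_sub_cancel_left]
    rw [e1] at hka
    have e2 : ∀ w : R, Commute (2 : R) w := fun w => Nat.cast_commute 2 w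
    calc 2 * a = 2 * (k * (i * T) * k') := by rw [← hka]
      _ = k * (i * (2 * T)) * k' := by
        rw [← mul_assoc, ← mul_assoc, (e2 k).eq, mul_assoc k 2, ← mul_assoc 2, (e2 i).eq,
          mul_assoc (i : R)]
      _ = k * (S * (i * (G - G'))) * k' := by
        rw [h2T, ← mul_assoc (i : R), (Nat.cast_commute i S).eq, mul_assoc S]
      _ = S * A := by
        rw [← mul_assoc k, (hSc k hk).eq, mul_assoc S, mul_assoc S, hA]
  set C := A * b + b * A with hC
  have hCc : Commute C c := (hAc.mul_left hcb).add_left (hcb.mul_left hAc)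
  have h2c : 2 * c = S * C := by
    have e2 : Commute (2 : R) b := Nat.cast_commute 2 b
    rw [← hc, hC, mul_add, mul_add, ← mul_assoc, ← mul_assoc, h2a, e2.eq, mul_assoc b, h2a,
      mul_assoc, ← mul_assoc b, (hSc b hcb).eq, mul_assoc S b]
  have hSS : S * S * ((G - G') * (G - G')) = 0 := by
    have e1 : (2 * T) * (2 * T) = 0 := by
      have e2 : Commute (2 : R) T := Nat.cast_commute 2 T
      rw [mul_assoc, ← mul_assoc T, ← e2.eq, mul_assoc 2 T T, hT, mul_zero, mul_zero]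
    rw [h2T] at e1
    have e3 : Commute (G - G') S := hSc _ (hGc.sub_left hG'c)
    rw [← e1, mul_assoc S S, mul_assoc S (G - G'), ← mul_assoc (G - G'), e3.eq, mul_assoc S (G - G')]
  have hdisc : (G - G') * (G - G') = (m * c) * (m * c + 4) := by
    have e1 : (G - G') * (G - G') = (G + G') * (G + G') - 4 := by
      have e4 : (4 : R) = 1 + 1 + (1 + 1) := by norm_num
      rw [mul_sub, sub_mul, sub_mul, mul_add, add_mul, add_mul, hGG', hG'G, e4]
      abel
    rw [e1, hz]
    generalize (m : R) * c = X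
    have e4 : (4 : R) = 1 + 1 + (1 + 1) := by norm_num
    have e5 : (2 : R) = 1 + 1 := by norm_num
    rw [e4, e5]
    noncomm_ring
  rw [h2c, ← hdisc]
  have e1 : Commute C S := hSc _ hCc
  have e2 : Commute C ((G - G') * (G - G')) := by
    rw [hdisc]
    have e3 : Commute C (m * c) := ((hm C).symm).mul_right hCc
    exact e3.mul_right (e3.add_right (Nat.cast_commute 4 C).symm)
  have e4 : S * C * (S * C) = S * S * (C * C) := by
    rw [mul_assoc, ← mul_assoc C S, e1.eq, mul_assoc S C C, ← mul_assoc]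
  rw [e4, mul_assoc (S * S), mul_assoc C C, e2.eq, ← mul_assoc C, e2.eq, mul_assoc _ C,
    ← mul_assoc (S * S), hSS, zero_mul]

end Alg

section Grp

variable {Γ : Type} [Group Γ] [Finite Γ] {p : ℕ} [Fact p.Prime]

theorem zpow_conj {D : Subgroup Γ} {s : Γ} (hn : ∀ d ∈ D, s * d * s⁻¹ ∈ D) (i : ℤ) {d : Γ}
    (hd : d ∈ D) : s ^ i * d * (s ^ i)⁻¹ ∈ D := by
  have h1 : s ∈ Subgroup.normalizer (D : Set Γ) :=
    Subgroup.mem_normalizer_fintype (fun n h => hn n h)
  have h2 : s ^ i ∈ Subgroup.normalizer (D : Set Γ) := Subgroup.zpow_mem _ h1 i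
  exact (Subgroup.mem_normalizer_iff.1 h2 d).1 hd

/-- the subgroup `D ⟨s⟩`. -/
def NS (D : Subgroup Γ) (s : Γ) (hn : ∀ d ∈ D, s * d * s⁻¹ ∈ D) : Subgroup Γ where
  carrier := {k | ∃ d ∈ D, ∃ i : ℤ, k = d * s ^ i}
  mul_mem' := by
    rintro _ _ ⟨d, hd, i, rfl⟩ ⟨d', hd', j, rfl⟩
    refine ⟨d * (s ^ i * d' * (s ^ i)⁻¹), D.mul_mem hd (zpow_conj hn i hd'), i + j, ?_⟩
    rw [zpow_add]
    group
  one_mem' := ⟨1, D.one_mem, 0, by simp⟩
  inv_mem' := by
    rintro _ ⟨d, hd, i, rfl⟩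
    refine ⟨s ^ (-i) * d⁻¹ * (s ^ (-i))⁻¹, zpow_conj hn (-i) (D.inv_mem hd), -i, ?_⟩
    group

theorem not_sq {D : Subgroup Γ} (hcop : (Nat.card D).Coprime p) {s : Γ} (hs : orderOf s = p)
    (hn : ∀ d ∈ D, s * d * s⁻¹ ∈ D) {E : Subgroup Γ} (hE : E ≤ NS D s hn) :
    ¬ p ^ 2 ∣ Nat.card E := by
  intro h
  have hp : p.Prime := Fact.out
  have h1 : p ^ 2 ∣ Nat.card (NS D s hn) := h.trans (Subgroup.card_dvd_of_le hE)
  have h2 : D ≤ NS D s hn := fun d hd => ⟨d, hd, 0, by simp⟩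
  obtain ⟨j, hj⟩ := Subgroup.card_dvd_of_le h2
  have h3 : Nat.card (NS D s hn) ≤ Nat.card D * p := by
    have h4 : Nat.card (D × Subgroup.zpowers s) = Nat.card D * p := by
      rw [Nat.card_prod, Nat.card_zpowers, hs]
    rw [← h4]
    refine Nat.card_le_card_of_surjective
      (fun q : D × Subgroup.zpowers s => (⟨(q.1 : Γ) * (q.2 : Γ), by
        obtain ⟨i, hi⟩ := Subgroup.mem_zpowers_iff.1 q.2.2
        exact ⟨q.1, q.1.2, i, by rw [hi]⟩⟩ : NS D s hn)) ?_
    rintro ⟨_, d, hd, i, rfl⟩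
    exact ⟨⟨⟨d, hd⟩, ⟨s ^ i, Subgroup.zpow_mem_zpowers s i⟩⟩, rfl⟩
  have h5 : 0 < Nat.card D := Nat.card_pos
  rw [hj] at h1 h3
  have h6 : j ≤ p := Nat.le_of_mul_le_mul_left h3 h5
  have h7 : p ^ 2 ∣ j := Nat.Coprime.dvd_of_dvd_mul_left (hcop.symm.pow_left 2) h1
  have h8 : 0 < j := by
    rcases Nat.eq_zero_or_pos j with h9 | h9
    · rw [h9, mul_zero] at hj
      exact absurd hj (Nat.card_pos).ne'
    · exact h9
  have h9 := Nat.le_of_dvd h8 h7
  have h10 := hp.two_le
  nlinarith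

theorem sylow_eq {E : Type} [Group E] [Finite E] (hE : ¬ p ^ 2 ∣ Nat.card E) {s : E}
    (hs : orderOf s = p) : ∃ P : Sylow p E, (P : Subgroup E) = Subgroup.zpowers s := by
  have hp : p.Prime := Fact.out
  have h1 : Nat.card (Subgroup.zpowers s) = p ^ 1 := by rw [Nat.card_zpowers, hs, pow_one]
  obtain ⟨P, hP⟩ := (IsPGroup.of_card h1).exists_le_sylow
  refine ⟨P, (Subgroup.eq_of_le_of_card_ge hP ?_).symm⟩
  obtain ⟨k, hk⟩ := P.2.exists_card_eq
  have h2 : p ^ k ∣ Nat.card E := by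
    rw [← hk]
    exact Subgroup.card_subgroup_dvd_card _
  have h3 : k ≤ 1 := by
    by_contra h4
    exact hE ((pow_dvd_pow p (by omega)).trans h2)
  rw [h1]
  exact hk.le.trans (Nat.pow_le_pow_right hp.pos h3)

theorem sylow_conj' {E : Type} [Group E] [Finite E] (hE : ¬ p ^ 2 ∣ Nat.card E) {s t : E}
    (hs : orderOf s = p) (ht : orderOf t = p) :
    ∃ k : E, (∃ i : ℕ, s = k * t ^ i * k⁻¹) ∧ ∃ l : ℕ, t = k⁻¹ * s ^ l * k := by
  obtain ⟨P, hP⟩ := sylow_eq hE hs
  obtain ⟨Q, hQ⟩ := sylow_eq hE ht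
  obtain ⟨k, hk⟩ := MulAction.exists_smul_eq E Q P
  have hmem : ∀ x : E, x ∈ P ↔ k⁻¹ * x * k ∈ Q := by
    intro x
    rw [← hk]
    change x ∈ (MulAut.conj k • Q : Sylow p E) ↔ _
    constructor
    · intro h
      have h2 : x ∈ MulAut.conj k • (Q : Subgroup E) := h
      rw [Subgroup.mem_pointwise_smul_iff_inv_smul_mem] at h2
      have h3 : (MulAut.conj k)⁻¹ • x = k⁻¹ * x * k := by
        rw [MulAut.smul_def, MulAut.conj_inv_apply]
      rw [h3] at h2
      exact h2
    · intro h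
      have h2 : x ∈ MulAut.conj k • (Q : Subgroup E) := by
        rw [Subgroup.mem_pointwise_smul_iff_inv_smul_mem]
        have h3 : (MulAut.conj k)⁻¹ • x = k⁻¹ * x * k := by
          rw [MulAut.smul_def, MulAut.conj_inv_apply]
        rw [h3]
        exact h
      exact h2
  have hfin : ∀ x : E, IsOfFinOrder x := fun x => isOfFinOrder_of_finite x
  refine ⟨k, ?_, ?_⟩
  · have h1 : s ∈ P := by
      change s ∈ (P : Subgroup E)
      rw [hP]
      exact Subgroup.mem_zpowers s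
    have h2 : k⁻¹ * s * k ∈ Subgroup.zpowers t := by
      rw [← hQ]
      exact (hmem s).1 h1
    obtain ⟨i, hi⟩ := (hfin t).mem_powers_iff_mem_zpowers.2 h2
    refine ⟨i, ?_⟩
    have h3 : t ^ i = k⁻¹ * s * k := hi
    rw [h3]
    group
  · have h1 : t ∈ Q := by
      change t ∈ (Q : Subgroup E)
      rw [hQ]
      exact Subgroup.mem_zpowers t
    have h2 : k * t * k⁻¹ ∈ Subgroup.zpowers s := by
      rw [← hP]
      refine (hmem _).2 ?_
      have h3 : k⁻¹ * (k * t * k⁻¹) * k = t := by group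
      rw [h3]
      exact h1
    obtain ⟨i, hi⟩ := (hfin s).mem_powers_iff_mem_zpowers.2 h2
    refine ⟨i, ?_⟩
    have h3 : s ^ i = k * t * k⁻¹ := hi
    rw [h3]
    group

theorem sylow_conj {E : Subgroup Γ} (hE : ¬ p ^ 2 ∣ Nat.card E) {s t : Γ} (hsE : s ∈ E)
    (htE : t ∈ E) (hs : orderOf s = p) (ht : orderOf t = p) :
    ∃ k ∈ E, (∃ i : ℕ, s = k * t ^ i * k⁻¹) ∧ ∃ l : ℕ, t = k⁻¹ * s ^ l * k := by
  have hs' : orderOf (⟨s, hsE⟩ : E) = p := by rw [← hs, Subgroup.orderOf_mk]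
  have ht' : orderOf (⟨t, htE⟩ : E) = p := by rw [← ht, Subgroup.orderOf_mk]
  obtain ⟨k, ⟨i, hi⟩, l, hl⟩ := sylow_conj' hE hs' ht'
  refine ⟨k, k.2, ⟨i, ?_⟩, l, ?_⟩
  · have h := congrArg (Subtype.val) hi
    exact h
  · have h := congrArg (Subtype.val) hl
    exact h

/-- powers of an element of the coset `D s ^ j`. -/
theorem pow_mem_coset {D : Subgroup Γ} {s : Γ} (hn : ∀ d ∈ D, s * d * s⁻¹ ∈ D) {g d : Γ} {j : ℕ}
    (hd : d ∈ D) (hg : g = d * s ^ j) (i : ℕ) : ∃ d' ∈ D, g ^ i = d' * s ^ (j * i) := by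
  induction i with
  | zero => exact ⟨1, D.one_mem, by simp⟩
  | succ i ih =>
    obtain ⟨d', hd', e⟩ := ih
    have h1 := zpow_conj hn ((j * i : ℕ) : ℤ) hd
    rw [zpow_natCast] at h1
    refine ⟨_, D.mul_mem hd' h1, ?_⟩
    rw [pow_succ, e, hg, mul_add, mul_one, pow_add]
    group

theorem orderOf_pow_card {D : Subgroup Γ} (hcop : (Nat.card D).Coprime p) {s : Γ}
    (hs : orderOf s = p) (hn : ∀ d ∈ D, s * d * s⁻¹ ∈ D) {g d : Γ} {j : ℕ}
    (hd : d ∈ D) (hg : g = d * s ^ j) (hj : ¬ p ∣ j) : orderOf (g ^ (Nat.card D)) = p := by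
  have hp : p.Prime := Fact.out
  have hcardD : ∀ x ∈ D, x ^ (Nat.card D) = 1 := by
    intro x hx
    have h := pow_card_eq_one' (x := (⟨x, hx⟩ : D))
    exact congrArg Subtype.val h
  refine orderOf_eq_prime ?_ ?_
  · obtain ⟨d', hd', e⟩ := pow_mem_coset hn hd hg p
    have h1 : s ^ (j * p) = 1 := by
      rw [mul_comm, pow_mul, ← hs, pow_orderOf_eq_one, one_pow]
    rw [h1, mul_one] at e
    rw [← pow_mul, mul_comm, pow_mul, e]
    exact hcardD d' hd'
  · intro h
    obtain ⟨d', hd', e⟩ := pow_mem_coset hn hd hg (Nat.card D)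
    rw [h] at e
    have h1 : s ^ (j * Nat.card D) ∈ D := by
      have h2 : s ^ (j * Nat.card D) = d'⁻¹ := by
        rw [eq_inv_iff_mul_eq_one, eq_comm]
        have h3 := congrArg (fun w => d'⁻¹ * w * d') e
        simp only [mul_one, inv_mul_cancel] at h3
        rw [h3]
        group
      rw [h2]
      exact D.inv_mem hd'
    have h4 : s ^ (j * Nat.card D) = 1 := by
      refine orderOf_eq_one_iff.1 (Nat.eq_one_of_dvd_coprimes hcop ?_ ?_)
      · exact orderOf_dvd_of_pow_eq_one (hcardD _ h1)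
      · refine orderOf_dvd_of_pow_eq_one ?_
        rw [← pow_mul, mul_comm, pow_mul, ← hs, pow_orderOf_eq_one, one_pow]
    have h5 : p ∣ j * Nat.card D := by
      rw [← hs]
      exact orderOf_dvd_of_pow_eq_one h4
    rcases hp.dvd_mul.1 h5 with h6 | h6
    · exact hj h6
    · have h7 := Nat.dvd_gcd h6 dvd_rfl
      rw [hcop] at h7
      exact hp.one_lt.ne' (Nat.dvd_one.1 h7)

end Grp

section Main

variable {p : ℕ} [Fact p.Prime] {Γ W : Type} [Group Γ] [Finite Γ] [AddCommGroup W]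
  [Module (ZMod p) W] [Finite W] (ρ : Representation (ZMod p) Γ W)

/-- the elements whose action commutes with `c`. -/
def Cc (c : Module.End (ZMod p) W) : Subgroup Γ where
  carrier := {k | Commute (ρ k) c}
  mul_mem' := by
    intro x y hx hy
    change Commute (ρ (x * y)) c
    rw [map_mul]
    exact Commute.mul_left hx hy
  one_mem' := by
    change Commute (ρ 1) c
    rw [_root_.map_one]
    exact Commute.one_left c
  inv_mem' := by
    intro x hx
    change ρ x⁻¹ * c = c * ρ x⁻¹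
    have h1 : ρ x * ρ x⁻¹ = 1 := by rw [← map_mul, mul_inv_cancel, _root_.map_one]
    have h2 : ρ x⁻¹ * ρ x = 1 := by rw [← map_mul, inv_mul_cancel, _root_.map_one]
    have h3 : ρ x * c = c * ρ x := hx
    calc ρ x⁻¹ * c = ρ x⁻¹ * c * (ρ x * ρ x⁻¹) := by rw [h1, mul_one]
      _ = ρ x⁻¹ * (c * ρ x) * ρ x⁻¹ := by simp only [mul_assoc]
      _ = ρ x⁻¹ * (ρ x * c) * ρ x⁻¹ := by rw [h3]
      _ = (ρ x⁻¹ * ρ x) * c * ρ x⁻¹ := by simp only [mul_assoc]
      _ = c * ρ x⁻¹ := by rw [h2, one_mul]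

omit [Finite W] in
theorem main {D : Subgroup Γ} (hcop : (Nat.card D).Coprime p) {s : Γ}
    (hs : orderOf s = p) (hn : ∀ d ∈ D, s * d * s⁻¹ ∈ D)
    (hq : (ρ s - 1) * (ρ s - 1) = 0) {x : Γ} (hx : x ∈ D) {m : ℕ} (hm : ¬ p ∣ m + 1)
    {b : Module.End (ZMod p) W} (hb : b = ρ (x⁻¹ * s * x) - 1) {c : Module.End (ZMod p) W}
    (hc : c = (ρ s - 1) * b + b * (ρ s - 1)) :
    (2 * c) * (2 * c) * ((m * c) * (m * c + 4)) = 0 := by
  set a : Module.End (ZMod p) W := ρ s - 1 with ha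
  have hbb : b * b = 0 := by
    have h1 : b = ρ x⁻¹ * a * ρ x := by
      rw [hb, ha, map_mul, map_mul, mul_sub, sub_mul, mul_one, ← map_mul ρ x⁻¹ x, inv_mul_cancel,
        _root_.map_one]
    have h2 : ρ x * ρ x⁻¹ = 1 := by rw [← map_mul, mul_inv_cancel, _root_.map_one]
    calc b * b = ρ x⁻¹ * a * (ρ x * ρ x⁻¹) * a * ρ x := by rw [h1]; simp only [mul_assoc]
      _ = ρ x⁻¹ * (a * a) * ρ x := by rw [h2, mul_one]; simp only [mul_assoc]
      _ = 0 := by rw [hq, mul_zero, zero_mul]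
  have hρs : ρ s = 1 + a := by rw [ha, add_sub_cancel]
  have hρy : ρ (x⁻¹ * s * x) = 1 + b := by rw [hb, add_sub_cancel]
  have hca : Commute a c := by rw [hc]; exact comm_left hq
  have hcb : Commute b c := by rw [hc]; exact comm_right hbb
  set g : Γ := s ^ m * (x⁻¹ * s * x) with hg
  set d : Γ := (s ^ m * x⁻¹ * (s ^ m)⁻¹) * (s ^ (m + 1) * x * (s ^ (m + 1))⁻¹) with hd
  have hdD : d ∈ D := by
    have h1 := zpow_conj hn (m : ℤ) (D.inv_mem hx)
    have h2 := zpow_conj hn ((m + 1 : ℕ) : ℤ) hx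
    rw [zpow_natCast] at h1 h2
    exact D.mul_mem h1 h2
  have hgd : g = d * s ^ (m + 1) := by
    rw [hg, hd, pow_succ]
    group
  set E : Subgroup Γ := NS D s hn ⊓ Cc ρ c with hE
  have hsE : s ∈ E := by
    refine ⟨⟨1, D.one_mem, 1, by simp⟩, ?_⟩
    change Commute (ρ s) c
    rw [hρs]
    exact (Commute.one_left c).add_left hca
  have hyE : x⁻¹ * s * x ∈ E := by
    refine ⟨⟨x⁻¹ * (s ^ (1 : ℤ) * x * (s ^ (1 : ℤ))⁻¹), D.mul_mem (D.inv_mem hx)
      (zpow_conj hn 1 hx), 1, ?_⟩, ?_⟩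
    · rw [zpow_one]
      group
    · change Commute (ρ (x⁻¹ * s * x)) c
      rw [hρy]
      exact (Commute.one_left c).add_left hcb
  have hgE : g ∈ E := E.mul_mem (E.pow_mem hsE m) hyE
  have hord := orderOf_pow_card hcop hs hn hdD hgd hm
  obtain ⟨k, hk, ⟨i, hi⟩, l, hl⟩ := sylow_conj (not_sq hcop hs hn (E := E) inf_le_left) hsE
    (E.pow_mem hgE (Nat.card D)) hs hord
  have hkc : Commute (ρ k) c := hk.2
  have hkc' : Commute (ρ k⁻¹) c := (E.inv_mem hk).2
  have hkk : ρ k * ρ k⁻¹ = 1 := by rw [← map_mul, mul_inv_cancel, _root_.map_one]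
  have hkk' : ρ k⁻¹ * ρ k = 1 := by rw [← map_mul, inv_mul_cancel, _root_.map_one]
  have hmm : (m * a) * (m * a) = 0 := by
    rw [mul_assoc, ← mul_assoc a, ← (Nat.cast_commute m a).eq, mul_assoc (m : Module.End (ZMod p) W) a a,
      hq, mul_zero, mul_zero]
  have hG : ρ g = (1 + m * a) * (1 + b) := by
    rw [hg, map_mul, hρy, map_pow, hρs, one_add_pow hq]
  have hG' : (1 - b) * (1 - m * a) = ρ g⁻¹ := by
    have e1 : (1 - b) * (1 - m * a) * ρ g = 1 := by
      rw [hG, mul_assoc, ← mul_assoc (1 - m * a)]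
      have e2 : (1 - m * a) * (1 + m * a) = 1 := by
        rw [sub_mul, one_mul, mul_add, hmm, mul_one, add_zero, add_sub_cancel_right]
      rw [e2, one_mul, sub_mul, one_mul, mul_add, hbb, mul_one, add_zero, add_sub_cancel_right]
    have e3 : ρ g * ρ g⁻¹ = 1 := by rw [← map_mul, mul_inv_cancel, _root_.map_one]
    calc (1 - b) * (1 - m * a) = (1 - b) * (1 - m * a) * (ρ g * ρ g⁻¹) := by rw [e3, mul_one]
      _ = ρ g⁻¹ := by rw [← mul_assoc, e1, one_mul]
  have h := key (k := ρ k) (k' := ρ k⁻¹) (G := ρ g) (G' := ρ g⁻¹) (n := Nat.card D) (m := m)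
    (i := i) hq hbb hG hG'.symm ?_ (hc ▸ hkc) (hc ▸ hkc') ?_
  · rw [← hc] at h
    exact h
  · have e1 : ρ g ^ (Nat.card D) - 1 = ρ k⁻¹ * (l * a) * ρ k := by
      rw [← map_pow, hl, map_mul, map_mul, map_pow, hρs, one_add_pow hq, mul_add, add_mul, mul_one,
        hkk', add_sub_cancel_left]
    rw [e1]
    calc ρ k⁻¹ * (l * a) * ρ k * (ρ k⁻¹ * (l * a) * ρ k)
        = ρ k⁻¹ * (l * a) * (ρ k * ρ k⁻¹) * (l * a) * ρ k := by simp only [mul_assoc]
      _ = ρ k⁻¹ * ((l * a) * (l * a)) * ρ k := by rw [hkk, mul_one]; simp only [mul_assoc]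
      _ = 0 := by
        rw [mul_assoc (l : Module.End (ZMod p) W), ← mul_assoc a,
          ← (Nat.cast_commute l a).eq, mul_assoc (l : Module.End (ZMod p) W) a a, hq, mul_zero,
          mul_zero, mul_zero, zero_mul]
  · have e1 : ρ s = ρ k * (ρ g ^ (Nat.card D)) ^ i * ρ k⁻¹ := by
      rw [← map_pow, ← map_pow, ← map_mul, ← map_mul, ← hi]
    rw [mul_sub, sub_mul, mul_one, hkk, ← e1]

end Main

end T1

section Tau

variable {p : ℕ} [Fact p.Prime] {Γ W : Type} [Group Γ] [Finite Γ] [AddCommGroup W]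
  [Module (ZMod p) W] [Finite W] (ρ : Representation (ZMod p) Γ W)

theorem tau {D : Subgroup Γ} (hcop : (Nat.card D).Coprime p) (hp : p ≠ 2) {s : Γ}
    (hs : s ^ p = 1) (hn : ∀ d ∈ D, s * d * s⁻¹ ∈ D)
    (hq : ∀ w, (ρ s - 1) ((ρ s - 1) w) = 0) (hf : ∀ d ∈ D, (∀ w, ρ d w = w) → d = 1)
    {x : Γ} (hx : x ∈ D) :
    (5 ≤ p → s⁻¹ * x⁻¹ * s * x = 1) ∧ (p = 3 → (s⁻¹ * x⁻¹ * s * x) ^ 4 = 1) := by
  have hpp : p.Prime := Fact.out
  by_cases hs1 : s = 1
  · subst hs1
    constructor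
    · intro _
      group
    · intro _
      have e : (1 : Γ)⁻¹ * x⁻¹ * 1 * x = 1 := by group
      rw [e, one_pow]
  have hso : orderOf s = p := orderOf_eq_prime hs hs1
  have hqq : (ρ s - 1) * (ρ s - 1) = 0 := LinearMap.ext hq
  set u : Γ := s⁻¹ * x⁻¹ * s * x with hu
  have huD : u ∈ D := by
    have h1 := T1.zpow_conj hn (-1) (D.inv_mem hx)
    have h2 := D.mul_mem h1 hx
    have e : s ^ (-1 : ℤ) * x⁻¹ * (s ^ (-1 : ℤ))⁻¹ * x = u := by
      rw [hu]
      group
    rw [e] at h2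
    exact h2
  obtain ⟨a, ha⟩ : ∃ a : Module.End (ZMod p) W, a = ρ s - 1 := ⟨_, rfl⟩
  obtain ⟨b, hb⟩ : ∃ b : Module.End (ZMod p) W, b = ρ (x⁻¹ * s * x) - 1 := ⟨_, rfl⟩
  obtain ⟨c, hc⟩ : ∃ c : Module.End (ZMod p) W, c = a * b + b * a := ⟨_, rfl⟩
  have hq0 := hqq
  rw [← ha] at hqq
  have hbb : b * b = 0 := by
    have h1 : b = ρ x⁻¹ * a * ρ x := by
      rw [hb, ha, map_mul, map_mul, mul_sub, sub_mul, mul_one, ← map_mul ρ x⁻¹ x, inv_mul_cancel,
        _root_.map_one]
    have h2 : ρ x * ρ x⁻¹ = 1 := by rw [← map_mul, mul_inv_cancel, _root_.map_one]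
    calc b * b = ρ x⁻¹ * a * (ρ x * ρ x⁻¹) * a * ρ x := by rw [h1]; simp only [mul_assoc]
      _ = ρ x⁻¹ * (a * a) * ρ x := by rw [h2, mul_one]; simp only [mul_assoc]
      _ = 0 := by rw [hqq, mul_zero, zero_mul]
  have hca : Commute a c := by rw [hc]; exact T1.comm_left hqq
  have hcb : Commute b c := by rw [hc]; exact T1.comm_right hbb
  have hρs : ρ s = 1 + a := by rw [ha, add_sub_cancel]
  have hρs' : ρ s⁻¹ = 1 - a := by
    have e1 : (1 - a) * ρ s = 1 := by
      rw [hρs, sub_mul, one_mul, mul_add, hqq, mul_one, add_zero, add_sub_cancel_right]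
    have e2 : ρ s * ρ s⁻¹ = 1 := by rw [← map_mul, mul_inv_cancel, _root_.map_one]
    calc ρ s⁻¹ = (1 - a) * ρ s * ρ s⁻¹ := by rw [e1, one_mul]
      _ = 1 - a := by rw [mul_assoc, e2, mul_one]
  have hρy : ρ (x⁻¹ * s * x) = 1 + b := by rw [hb, add_sub_cancel]
  have hρy' : ρ (x⁻¹ * s * x)⁻¹ = 1 - b := by
    have e1 : (1 - b) * ρ (x⁻¹ * s * x) = 1 := by
      rw [hρy, sub_mul, one_mul, mul_add, hbb, mul_one, add_zero, add_sub_cancel_right]
    have e2 : ρ (x⁻¹ * s * x) * ρ (x⁻¹ * s * x)⁻¹ = 1 := by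
      rw [← map_mul, mul_inv_cancel, _root_.map_one]
    calc ρ (x⁻¹ * s * x)⁻¹ = (1 - b) * ρ (x⁻¹ * s * x) * ρ (x⁻¹ * s * x)⁻¹ := by
          rw [e1, one_mul]
      _ = 1 - b := by rw [mul_assoc, e2, mul_one]
  have hU : ρ u = (1 - a) * (1 + b) := by
    have e : u = s⁻¹ * (x⁻¹ * s * x) := by rw [hu]; group
    rw [e, map_mul, hρs', hρy]
  have hU' : ρ u⁻¹ = (1 - b) * (1 + a) := by
    have e : u⁻¹ = (x⁻¹ * s * x)⁻¹ * s := by rw [hu]; group
    rw [e, map_mul, hρs, hρy']
  have hUc : Commute (ρ u) c := by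
    rw [hU]
    exact ((Commute.one_left c).sub_left hca).mul_left ((Commute.one_left c).add_left hcb)
  have hUU : ρ u * ρ u⁻¹ = 1 := by rw [← map_mul, mul_inv_cancel, _root_.map_one]
  have hsum : ρ u + ρ u⁻¹ = 2 - c := by
    have e5 : (2 : Module.End (ZMod p) W) = 1 + 1 := by norm_num
    rw [hU, hU', hc, e5]
    simp only [sub_mul, mul_add, one_mul, mul_one]
    abel
  have hquad : ρ u * ρ u = (2 - c) * ρ u - 1 := by
    have e1 : ρ u * (ρ u + ρ u⁻¹) = ρ u * (2 - c) := by rw [hsum]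
    have e2 : Commute (ρ u) (2 - c) := (Nat.cast_commute 2 (ρ u)).symm.sub_right hUc
    rw [mul_add, hUU, e2.eq] at e1
    rw [← e1, add_sub_cancel_right]
  have hmain1 := T1.main ρ hcop hso hn hq0 hx (m := 1) (by
    intro h
    have h1 := (Nat.prime_dvd_prime_iff_eq hpp Nat.prime_two).1 h
    exact hp h1) hb (ha ▸ hc)
  have hfin : ∀ (v : Γ) (r k : ℕ), v ∈ D → (ρ v - 1) ^ r = 0 → r ≤ p ^ k → v = 1 := by
    intro v r k hv h hr
    have h1 : (ρ v - 1) ^ (p ^ k) = 0 := by
      obtain ⟨j, hj⟩ := Nat.exists_eq_add_of_le hr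
      rw [hj, pow_add, h, zero_mul]
    have hchar : CharP (Module.End (ZMod p) W) p ∨ Subsingleton (Module.End (ZMod p) W) := by
      rcases subsingleton_or_nontrivial (Module.End (ZMod p) W) with h2 | h2
      · exact Or.inr h2
      · exact Or.inl (charP_of_injective_algebraMap
          (algebraMap (ZMod p) (Module.End (ZMod p) W)).injective p)
    have h3 : ρ (v ^ (p ^ k)) = 1 := by
      rcases hchar with h2 | h2
      · have h4 := sub_pow_char_pow_of_commute p k (Commute.one_right (ρ v))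
        rw [h1, one_pow] at h4
        rw [map_pow]
        exact (sub_eq_zero.1 h4.symm)
      · exact Subsingleton.elim _ _
    have h5 : v ^ (p ^ k) = 1 := hf _ (D.pow_mem hv _) (fun w => by rw [h3]; rfl)
    have h6 : v ^ (Nat.card D) = 1 := by
      have h7 := pow_card_eq_one' (x := (⟨v, hv⟩ : D))
      exact congrArg Subtype.val h7
    refine orderOf_eq_one_iff.1 (Nat.eq_one_of_dvd_coprimes (hcop.pow_right k) ?_ ?_)
    · exact orderOf_dvd_of_pow_eq_one h6
    · exact orderOf_dvd_of_pow_eq_one h5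
  constructor
  · intro h5
    have hmain2 := T1.main ρ hcop hso hn hq0 hx (m := 2) (by
      intro h
      have h1 := Nat.le_of_dvd (by norm_num) h
      omega) hb (ha ▸ hc)
    have hc3 : c ^ 3 = 0 := by
      have e1 : (32 : ZMod p) • c ^ 3 = 0 := by
        have e2 : (32 : ZMod p) • c ^ 3 = 4 * ((2 * c) * (2 * c) * (((1 : ℕ) * c) *
            ((1 : ℕ) * c + 4))) - (2 * c) * (2 * c) * (((2 : ℕ) * c) * ((2 : ℕ) * c + 4)) := by
          have e5 : (32 : ZMod p) • c ^ 3 = 32 * c ^ 3 := by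
            rw [Algebra.smul_def, map_ofNat]
          rw [e5, Nat.cast_one, Nat.cast_ofNat]
          have e6 := congrArg (Polynomial.aeval c) (show (32 * Polynomial.X ^ 3 :
            Polynomial (ZMod p)) = 4 * ((2 * Polynomial.X) * (2 * Polynomial.X) *
            ((1 * Polynomial.X) * (1 * Polynomial.X + 4))) - (2 * Polynomial.X) *
            (2 * Polynomial.X) * ((2 * Polynomial.X) * (2 * Polynomial.X + 4)) by ring)
          simpa only [map_mul, map_sub, map_add, map_pow, map_ofNat, Polynomial.aeval_X,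
            _root_.map_one] using e6
        rw [e2, hmain1, hmain2, mul_zero, sub_zero]
      have e3 : (32 : ZMod p) ≠ 0 := by
        have e4 : (32 : ZMod p) = ((2 : ℕ) : ZMod p) ^ 5 := by norm_num
        rw [e4]
        refine pow_ne_zero _ ?_
        rw [Ne, ZMod.natCast_eq_zero_iff]
        intro h
        exact hp ((Nat.prime_dvd_prime_iff_eq hpp Nat.prime_two).1 h)
      exact (smul_eq_zero.1 e1).resolve_left e3
    refine hfin u 6 2 huD ?_ (by nlinarith)
    have e1 : (ρ u - 1) ^ 2 = - (ρ u * c) := by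
      have e2 : (2 : Module.End (ZMod p) W) = 1 + 1 := by norm_num
      rw [pow_two, mul_sub, sub_mul, hquad, sub_mul, one_mul, mul_one, ← hUc.eq, e2, add_mul,
        one_mul]
      abel
    have e3 : (ρ u - 1) ^ 6 = ((ρ u - 1) ^ 2) ^ 3 := by rw [← pow_mul]
    rw [e3, e1, neg_pow, hUc.mul_pow, hc3, mul_zero, mul_zero]
  · intro h3
    subst h3
    have h30 : (3 : Module.End (ZMod 3) W) = 0 := by
      have e1 : (3 : Module.End (ZMod 3) W) = algebraMap (ZMod 3) _ 3 := (map_ofNat _ 3).symm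
      have e2 : (3 : ZMod 3) = 0 := rfl
      rw [e1, e2, map_zero]
    have hc4 : c ^ 3 * (c + 1) = 0 := by
      have e6 := congrArg (Polynomial.aeval c) (show (Polynomial.X ^ 3 * (Polynomial.X + 1) :
        Polynomial (ZMod 3)) = (2 * Polynomial.X) * (2 * Polynomial.X) *
        ((1 * Polynomial.X) * (1 * Polynomial.X + 4)) - 3 * (Polynomial.X ^ 4 +
          5 * Polynomial.X ^ 3) by ring)
      simp only [map_mul, map_sub, map_add, map_pow, map_ofNat, Polynomial.aeval_X,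
            _root_.map_one] at e6
      rw [Nat.cast_one] at hmain1
      rw [e6, hmain1, h30, zero_mul, sub_zero]
    obtain ⟨z, hz⟩ : ∃ z : Module.End (ZMod 3) W, z = 2 - c := ⟨_, rfl⟩
    obtain ⟨U, hUdef⟩ : ∃ U : Module.End (ZMod 3) W, U = ρ u := ⟨_, rfl⟩
    rw [← hUdef, ← hz] at hquad
    rw [← hUdef] at hUc
    have hUz : Commute U z := by
      rw [hz]
      exact (Nat.cast_commute 2 U).symm.sub_right hUc
    obtain ⟨X, hX⟩ : ∃ X : Module.End (ZMod 3) W, X = U * U := ⟨_, rfl⟩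
    rw [← hX] at hquad
    have hXz : Commute X z := by rw [hX]; exact hUz.mul_left hUz
    have e1 : (X + 1) * (X + 1) = z * z * X := by
      rw [hquad, sub_add_cancel, mul_assoc, ← mul_assoc U, hUz.eq, mul_assoc z U U, ← hX,
        ← mul_assoc, hquad]
    have e4 : (4 : Module.End (ZMod 3) W) = 1 + 1 + (1 + 1) := by norm_num
    have e2 : (X - 1) * (X - 1) = (z * z - 4) * X := by
      rw [sub_mul (z * z), ← e1, e4]
      noncomm_ring
    have e3 : (U ^ 4 - 1) ^ 2 = ((z * z) * (z * z - 4)) * (X * X) := by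
      have e5 : U ^ 4 = X * X := by
        rw [hX]
        simp only [pow_succ, pow_zero, one_mul, mul_assoc]
      have e6 : (U ^ 4 - 1) ^ 2 = (X + 1) * (X + 1) * ((X - 1) * (X - 1)) := by
        rw [e5]
        noncomm_ring
      rw [e6, e1, e2]
      have e7 : Commute X (z * z - 4) :=
        (hXz.mul_right hXz).sub_right (Nat.cast_commute 4 X).symm
      rw [mul_assoc (z * z), ← mul_assoc X, e7.eq, mul_assoc _ X X, ← mul_assoc]
    have hP : ((z * z) * (z * z - 4)) ^ 3 = 0 := by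
      have e6 := congrArg (Polynomial.aeval c) (show (((2 - Polynomial.X) * (2 - Polynomial.X)) *
        ((2 - Polynomial.X) * (2 - Polynomial.X) - 4) :
        Polynomial (ZMod 3)) = (Polynomial.X + 1) ^ 2 * (Polynomial.X * (Polynomial.X - 1)) +
          3 * ((1 - 2 * Polynomial.X) * (Polynomial.X ^ 2 - 4 * Polynomial.X) -
            (Polynomial.X + 1) ^ 2 * Polynomial.X) by ring)
      simp only [map_mul, map_sub, map_add, map_pow, map_ofNat, Polynomial.aeval_X,
            _root_.map_one] at e6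
      rw [← hz, h30, zero_mul, add_zero] at e6
      have e7 := congrArg (Polynomial.aeval c) (show (((Polynomial.X + 1) ^ 2 *
        (Polynomial.X * (Polynomial.X - 1))) ^ 3 : Polynomial (ZMod 3)) =
        (Polynomial.X ^ 3 * (Polynomial.X + 1)) * ((Polynomial.X + 1) ^ 5 *
        (Polynomial.X - 1) ^ 3) by ring)
      simp only [map_mul, map_sub, map_add, map_pow, Polynomial.aeval_X,
            _root_.map_one] at e7
      rw [e6, e7, hc4, zero_mul]
    refine hfin (u ^ 4) 6 2 (D.pow_mem huD 4) ?_ (by norm_num)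
    have e8 : (ρ (u ^ 4) - 1) ^ 6 = ((U ^ 4 - 1) ^ 2) ^ 3 := by
      rw [← pow_mul, map_pow, hUdef]
    have e9 : Commute ((z * z) * (z * z - 4)) (X * X) := by
      have e10 : Commute (z * z) X := hXz.symm.mul_left hXz.symm
      have e11 : Commute ((z * z) * (z * z - 4)) X :=
        e10.mul_left (e10.sub_left (Nat.cast_commute 4 X))
      exact e11.mul_right e11
    rw [e8, e3, e9.mul_pow, hP, zero_mul]

end Tau

end SYL2
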