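import Pool.Agent.SYL2.Rep

/-!
# Groups with the same character table: orders, class sizes, class multiplication
-/

set_option autoImplicit false
set_option linter.unusedSectionVars false

namespace SYL2

open CategoryTheory Pool.Agent.Helper88.RepTools

/-- the groups have the same character table via `e` (hypothesis of the frozen statement) -/
def SameTable {G H : Type} [Group G] [Group H] (e : ConjClasses G ≃ ConjClasses H) : Prop :=
  (∀ V : FDRep ℂ G, CategoryTheory.Simple V →
    ∃ W : FDRep ℂ H, CategoryTheory.Simple W ∧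
      ∀ (g : G) (h : H), e (ConjClasses.mk g) = ConjClasses.mk h →
        V.character g = W.character h) ∧
  (∀ W : FDRep ℂ H, CategoryTheory.Simple W →
    ∃ V : FDRep ℂ G, CategoryTheory.Simple V ∧
      ∀ (g : G) (h : H), e (ConjClasses.mk g) = ConjClasses.mk h →
        V.character g = W.character h)

theorem SameTable.symm {G H : Type} [Group G] [Group H] {e : ConjClasses G ≃ ConjClasses H}
    (h : SameTable e) : SameTable e.symm := by
  refine ⟨fun W hW => ?_, fun V hV => ?_⟩
  · obtain ⟨V, hV, h1⟩ := h.2 W hW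
    refine ⟨V, hV, fun a b hab => (h1 b a ?_).symm⟩
    rw [← hab, Equiv.apply_symm_apply]
  · obtain ⟨W, hW, h1⟩ := h.1 V hV
    refine ⟨W, hW, fun a b hab => (h1 b a ?_).symm⟩
    rw [← hab, Equiv.apply_symm_apply]

section one

variable {G : Type} [Group G]

theorem char_eq_of_mk {V : FDRep ℂ G} {a b : G} (h : ConjClasses.mk a = ConjClasses.mk b) :
    V.character a = V.character b := by
  rw [ConjClasses.mk_eq_mk_iff_isConj, isConj_iff] at h
  obtain ⟨c, rfl⟩ := h
  exact (FDRep.char_conj V a c).symm

theorem mk_conj (g h : G) : ConjClasses.mk (h * g * h⁻¹) = ConjClasses.mk g := by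
  rw [ConjClasses.mk_eq_mk_iff_isConj]
  exact (isConj_iff.2 ⟨h, rfl⟩).symm

/-- the value of a character on a class -/
noncomputable def chr (V : FDRep ℂ G) (K : ConjClasses G) : ℂ := V.character K.out

theorem mk_out (K : ConjClasses G) : ConjClasses.mk K.out = K := Quotient.out_eq K

theorem chr_mk (V : FDRep ℂ G) (g : G) : chr V (ConjClasses.mk g) = V.character g :=
  char_eq_of_mk (mk_out _)

/-- the size of a class -/
noncomputable def cs (K : ConjClasses G) : ℕ := Nat.card {g : G // ConjClasses.mk g = K}

theorem cs_pos [Finite G] (K : ConjClasses G) : 0 < cs K := by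
  have : Nonempty {g : G // ConjClasses.mk g = K} := ⟨⟨K.out, mk_out K⟩⟩
  exact Nat.card_pos

theorem cs_carrier (K : ConjClasses G) : Nat.card K.carrier = cs K := by
  refine Nat.card_congr (Equiv.subtypeEquivRight fun g => ?_)
  exact ConjClasses.mem_carrier_iff_mk_eq

theorem cs_one : cs (ConjClasses.mk (1 : G)) = 1 := by
  rw [cs, Nat.card_eq_one_iff_unique]
  refine ⟨⟨fun a b => Subtype.ext ?_⟩, ⟨⟨1, rfl⟩⟩⟩
  have key : ∀ x : G, ConjClasses.mk x = ConjClasses.mk 1 → x = 1 := by
    intro x hx
    rw [ConjClasses.mk_eq_mk_iff_isConj, isConj_comm, isConj_one_right] at hx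
    exact hx
  rw [key _ a.2, key _ b.2]

/-- a class of size one is central -/
theorem comm_of_cs_one {z : G} (h : cs (ConjClasses.mk z) = 1) (g : G) : g * z * g⁻¹ = z := by
  rw [cs, Nat.card_eq_one_iff_unique] at h
  obtain ⟨h1, -⟩ := h
  exact congrArg Subtype.val (h1.elim ⟨g * z * g⁻¹, mk_conj z g⟩ ⟨z, rfl⟩)

theorem sum_classes [Fintype G] [Fintype (ConjClasses G)] (φ : ConjClasses G → ℂ) :
    ∑ g : G, φ (ConjClasses.mk g) = ∑ K, (cs K : ℂ) * φ K := by
  classical
  rw [← Fintype.sum_fiberwise (fun g : G => ConjClasses.mk g)]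
  refine Finset.sum_congr rfl fun K _ => ?_
  rw [Finset.sum_congr rfl fun (g : {g : G // ConjClasses.mk g = K}) _ => by rw [g.2],
    Finset.sum_const, Finset.card_univ, cs, Nat.card_eq_fintype_card, nsmul_eq_mul]

theorem sum_char [Fintype G] (V : FDRep ℂ G) (hV : Simple V) :
    (∀ g, V.character g = 1) ∨ ∑ g, V.character g = 0 := by
  by_cases h : ∑ g, V.character g = 0
  · exact Or.inr h
  left
  have h1 : op (X := V) V.ρ (fun _ => 1) ≠ 0 := by
    intro h0
    apply h
    have h2 := trace_op (X := V) V.ρ (fun _ => 1)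
    rw [h0, map_zero] at h2
    rw [show ∑ g, V.character g = ∑ g, (1 : ℂ) * LinearMap.trace ℂ V (V.ρ g) from
      Finset.sum_congr rfl fun g _ => (one_mul _).symm]
    exact h2.symm
  obtain ⟨y, hy⟩ : ∃ y : V, op (X := V) V.ρ (fun _ => 1) y ≠ 0 := by
    by_contra hcon
    push Not at hcon
    exact h1 (LinearMap.ext hcon)
  set x₀ : V := op (X := V) V.ρ (fun _ => 1) y with hx₀
  have hfix : ∀ g, V.ρ g x₀ = x₀ := by
    intro g
    rw [hx₀, op_apply, map_sum]
    simp only [one_smul]
    rw [← Equiv.sum_comp (Equiv.mulLeft g) fun a => V.ρ a y]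
    refine Finset.sum_congr rfl fun a _ => ?_
    rw [Equiv.coe_mulLeft, map_mul]
    rfl
  have hU := irr_of_simple V (Submodule.span ℂ {x₀}) (fun g u hu => by
    obtain ⟨c, rfl⟩ := Submodule.mem_span_singleton.1 hu
    rw [map_smul, hfix]
    exact hu) (by
      rw [Ne, Submodule.span_singleton_eq_bot]
      exact hy)
  have hall : ∀ g (v : V), V.ρ g v = v := by
    intro g v
    have hv : v ∈ Submodule.span ℂ {x₀} := by rw [hU]; trivial
    obtain ⟨c, rfl⟩ := Submodule.mem_span_singleton.1 hv
    rw [map_smul, hfix]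
  have hdim : Module.finrank ℂ V = 1 := by
    refine finrank_eq_one x₀ hy fun w => ?_
    have hw : w ∈ Submodule.span ℂ {x₀} := by rw [hU]; trivial
    exact Submodule.mem_span_singleton.1 hw
  intro g
  have h2 : V.ρ g = LinearMap.id := LinearMap.ext (hall g)
  change LinearMap.trace ℂ V (V.ρ g) = 1
  rw [h2, LinearMap.trace_id, hdim, Nat.cast_one]

end one

section two

variable {G H : Type} [Group G] [Group H] [Fintype G] [Fintype H]
  {e : ConjClasses G ≃ ConjClasses H}

theorem chr_eq {V : FDRep ℂ G} {W : FDRep ℂ H}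
    (h : ∀ (g : G) (h : H), e (ConjClasses.mk g) = ConjClasses.mk h →
      V.character g = W.character h) (K : ConjClasses G) : chr V K = chr W (e K) := by
  unfold chr
  exact h _ _ (by rw [mk_out, mk_out])

theorem size (hT : SameTable e) (K : ConjClasses G) :
    (cs K : ℂ) * Fintype.card H = cs (e K) * Fintype.card G := by
  classical
  have : Fintype (ConjClasses G) := Fintype.ofFinite _
  have : Fintype (ConjClasses H) := Fintype.ofFinite _
  have hG : (Fintype.card G : ℂ) ≠ 0 := by exact_mod_cast Fintype.card_ne_zero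
  have hH : (Fintype.card H : ℂ) ≠ 0 := by exact_mod_cast Fintype.card_ne_zero
  have hcs : ∀ K : ConjClasses G, (cs K : ℂ) ≠ 0 := fun K => by exact_mod_cast (cs_pos K).ne'
  let F : ConjClasses G → ℂ := fun K =>
    (Fintype.card G : ℂ)⁻¹ - cs (e K) * ((Fintype.card H : ℂ) * cs K)⁻¹
  have h0 : (fun g : G => F (ConjClasses.mk g)) = 0 := by
    refine eq_zero_of_char _ (fun g h => by rw [mk_conj]) fun V hV => ?_
    obtain ⟨W, hW, hVW⟩ := hT.1 V hV
    have h1 : ∑ g, F (ConjClasses.mk g) * V.character g =
        (Fintype.card G : ℂ)⁻¹ * ∑ g, V.character g -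
          (Fintype.card H : ℂ)⁻¹ * ∑ h, W.character h := by
      have e1 : ∑ g, F (ConjClasses.mk g) * V.character g =
          ∑ K, (cs K : ℂ) * (F K * chr V K) := by
        rw [← sum_classes fun K => F K * chr V K]
        exact Finset.sum_congr rfl fun g _ => by rw [chr_mk]
      have e2 : ∑ g, V.character g = ∑ K, (cs K : ℂ) * chr V K := by
        rw [← sum_classes fun K => chr V K]
        exact Finset.sum_congr rfl fun g _ => by rw [chr_mk]
      have e3 : ∑ h, W.character h = ∑ K, (cs (e K) : ℂ) * chr V K := by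
        have e4 : ∑ h, W.character h = ∑ K, (cs K : ℂ) * chr W K := by
          rw [← sum_classes fun K => chr W K]
          exact Finset.sum_congr rfl fun g _ => by rw [chr_mk]
        rw [e4, ← Equiv.sum_comp e]
        exact Finset.sum_congr rfl fun K _ => by rw [chr_eq hVW]
      rw [e1, e2, e3, Finset.mul_sum, Finset.mul_sum, ← Finset.sum_sub_distrib]
      refine Finset.sum_congr rfl fun K _ => ?_
      have := hcs K
      simp only [F]
      field_simp
    rw [h1]
    rcases sum_char V hV with h2 | h2
    · have h3 : ∀ h, W.character h = 1 := fun h => by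
        rw [← hVW (e.symm (ConjClasses.mk h)).out h (by rw [mk_out, Equiv.apply_symm_apply]), h2]
      simp only [h2, h3, Finset.sum_const, Finset.card_univ, nsmul_eq_mul, mul_one]
      rw [inv_mul_cancel₀ hG, inv_mul_cancel₀ hH, sub_self]
    · rcases sum_char W hW with h3 | h3
      · have h4 : ∀ g, V.character g = 1 := fun g => by
          rw [hVW g (e (ConjClasses.mk g)).out (by rw [mk_out]), h3]
        simp only [h4, Finset.sum_const, Finset.card_univ, nsmul_eq_mul, mul_one] at h2
        exact absurd h2 hG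
      · rw [h2, h3, mul_zero, mul_zero, sub_self]
  have h1 := congrFun h0 K.out
  simp only [F, mk_out, Pi.zero_apply] at h1
  have h2 := hcs K
  field_simp at h1
  linear_combination h1

theorem cs_e_one (hT : SameTable e) :
    cs (e (ConjClasses.mk 1)) = 1 ∧ Fintype.card G = Fintype.card H ∧
      cs (e.symm (ConjClasses.mk 1)) = 1 := by
  have h1 := size hT (ConjClasses.mk 1)
  have h2 := size hT (e.symm (ConjClasses.mk 1))
  rw [Equiv.apply_symm_apply, cs_one] at h2
  rw [cs_one] at h1
  have h1' : Fintype.card H = cs (e (ConjClasses.mk 1)) * Fintype.card G := by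
    have : (1 : ℕ) * Fintype.card H = cs (e (ConjClasses.mk 1)) * Fintype.card G := by
      exact_mod_cast h1
    rw [← this, one_mul]
  have h2' : cs (e.symm (ConjClasses.mk (1 : H))) * Fintype.card H = Fintype.card G := by
    have : cs (e.symm (ConjClasses.mk (1 : H))) * Fintype.card H = 1 * Fintype.card G := by
      exact_mod_cast h2
    rw [this, one_mul]
  have hG : 0 < Fintype.card G := Fintype.card_pos
  have h3 : cs (e.symm (ConjClasses.mk (1 : H))) * cs (e (ConjClasses.mk 1)) = 1 := by
    have h4 : cs (e.symm (ConjClasses.mk (1 : H))) * cs (e (ConjClasses.mk 1)) * Fintype.card G =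
        1 * Fintype.card G := by
      rw [mul_assoc, ← h1', h2', one_mul]
    exact Nat.eq_of_mul_eq_mul_right hG h4
  obtain ⟨h5, h6⟩ := mul_eq_one.1 h3
  refine ⟨h6, ?_, h5⟩
  rw [h1', h6, one_mul]

/-- corresponding classes have the same size -/
theorem cs_eq (hT : SameTable e) (K : ConjClasses G) : cs (e K) = cs K := by
  have h1 := size hT K
  rw [← (cs_e_one hT).2.1] at h1
  have hG : (Fintype.card G : ℂ) ≠ 0 := by exact_mod_cast Fintype.card_ne_zero
  have h2 := mul_right_cancel₀ hG h1
  exact_mod_cast h2.symm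

/-- central elements act by roots of unity -/
theorem exists_root (V : FDRep ℂ G) (hV : Simple V) (z : G) (hz : ∀ g : G, g * z * g⁻¹ = z) :
    ∃ ω : ℂ, ω ^ Fintype.card G = 1 ∧ V.character z = ω * V.character 1 := by
  have hnt := nontrivial_of_simple V hV
  obtain ⟨ω, hω⟩ := exists_scalar_of_irr (X := V) V.ρ (irr_of_simple V) (V.ρ z) (fun h x => by
    rw [← Module.End.mul_apply, ← Module.End.mul_apply, ← map_mul, ← map_mul]
    congr 2
    have := hz h
    rw [mul_inv_eq_iff_eq_mul] at this
    exact this.symm)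
  refine ⟨ω, ?_, ?_⟩
  · obtain ⟨x, hx⟩ := exists_ne (0 : V)
    have h1 : ∀ n : ℕ, V.ρ (z ^ n) x = ω ^ n • x := by
      intro n
      induction n with
      | zero => rw [pow_zero, pow_zero, map_one, one_smul]; rfl
      | succ n ih =>
        rw [pow_succ', map_mul, Module.End.mul_apply, ih, map_smul, hω, smul_smul, pow_succ]
    have h2 := h1 (Fintype.card G)
    rw [pow_card_eq_one, map_one] at h2
    have h3 : (1 : ℂ) • x = ω ^ Fintype.card G • x := by rw [one_smul]; exact h2
    exact (smul_left_injective ℂ hx h3).symm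
  · have h3 : LinearMap.trace ℂ V (V.ρ z) = ω * Module.finrank ℂ V := by
      have : V.ρ z = ω • LinearMap.id := LinearMap.ext hω
      rw [this, map_smul, LinearMap.trace_id, smul_eq_mul]
    rw [FDRep.char_one]
    exact h3

theorem char_one_pos (V : FDRep ℂ G) (hV : Simple V) : ∃ n : ℕ, 0 < n ∧ V.character 1 = n := by
  have hnt := nontrivial_of_simple V hV
  exact ⟨Module.finrank ℂ V, Module.finrank_pos, FDRep.char_one V⟩

/-- the identity corresponds to the identity -/
theorem e_one (hT : SameTable e) : e (ConjClasses.mk 1) = ConjClasses.mk 1 := by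
  classical
  obtain ⟨z, hz⟩ : ∃ z : G, ConjClasses.mk z = e.symm (ConjClasses.mk 1) := ⟨_, mk_out _⟩
  have hc : ∀ g, g * z * g⁻¹ = z := comm_of_cs_one (by rw [hz]; exact (cs_e_one hT).2.2)
  have hchar : ∀ V : FDRep ℂ G, Simple V → V.character z = V.character 1 := by
    intro V hV
    obtain ⟨W, hW, hVW⟩ := hT.1 V hV
    obtain ⟨ω, hω, h1⟩ := exists_root V hV z hc
    obtain ⟨n, hn, hn'⟩ := char_one_pos V hV
    obtain ⟨m, hm, hm'⟩ := char_one_pos W hW
    have h2 : V.character z = m := by
      rw [← hm', hVW z 1 (by rw [hz, Equiv.apply_symm_apply])]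
    rw [hn'] at h1
    have h3 : ω = ((m / n : ℝ) : ℂ) := by
      have hn0 : (n : ℂ) ≠ 0 := by exact_mod_cast hn.ne'
      push_cast
      rw [eq_div_iff hn0, ← h1, h2]
    have h4 : (m / n : ℝ) ^ Fintype.card G = 1 := by
      rw [h3] at hω
      exact_mod_cast hω
    have h5 : (m / n : ℝ) = 1 :=
      (pow_eq_one_iff_of_nonneg (by positivity) Fintype.card_ne_zero).1 h4
    rw [h1, h3, h5, hn', Complex.ofReal_one, one_mul]
  have h0 : (fun g : G => (if g = z then (1 : ℂ) else 0) - if g = 1 then 1 else 0) = 0 := by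
    refine eq_zero_of_char _ (fun g h => ?_) fun V hV => ?_
    · have e1 : h * g * h⁻¹ = z ↔ g = z := by
        constructor
        · intro h1
          rw [← hc h] at h1
          simpa using h1
        · rintro rfl
          exact hc h
      have e2 : h * g * h⁻¹ = 1 ↔ g = 1 := by
        rw [mul_inv_eq_one, mul_eq_left]
      simp only [e1, e2]
    · simp only [sub_mul, ite_mul, one_mul, zero_mul, Finset.sum_sub_distrib,
        Finset.sum_ite_eq', Finset.mem_univ, if_true]
      rw [hchar V hV, sub_self]
  have h1 := congrFun h0 z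
  simp only [if_true, Pi.zero_apply] at h1
  by_cases hz1 : z = 1
  · rw [hz1] at hz
    rw [hz, Equiv.apply_symm_apply]
  · rw [if_neg hz1, sub_zero] at h1
    exact absurd h1 one_ne_zero

theorem char_one_eq (hT : SameTable e) {V : FDRep ℂ G} {W : FDRep ℂ H}
    (h : ∀ (g : G) (h : H), e (ConjClasses.mk g) = ConjClasses.mk h →
      V.character g = W.character h) : V.character 1 = W.character 1 :=
  h 1 1 (e_one hT)

/-- transport of sums over the groups -/
theorem sum_eq (hT : SameTable e) (φ : ConjClasses H → ℂ) :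
    ∑ h : H, φ (ConjClasses.mk h) = ∑ g : G, φ (e (ConjClasses.mk g)) := by
  classical
  have : Fintype (ConjClasses G) := Fintype.ofFinite _
  have : Fintype (ConjClasses H) := Fintype.ofFinite _
  rw [sum_classes, sum_classes fun K => φ (e K), ← Equiv.sum_comp e]
  exact Finset.sum_congr rfl fun K _ => by rw [cs_eq hT]

/-- **the class algebras are isomorphic**: transport of convolutions -/
theorem conv_eq (hT : SameTable e) (φ ψ : ConjClasses H → ℂ) (g : G) (h : H)
    (hgh : e (ConjClasses.mk g) = ConjClasses.mk h) :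
    conv (fun x : G => φ (e (ConjClasses.mk x))) (fun x : G => ψ (e (ConjClasses.mk x))) g =
      conv (fun x : H => φ (ConjClasses.mk x)) (fun x : H => ψ (ConjClasses.mk x)) h := by
  have cG : ∀ F : ConjClasses G → ℂ, ∀ g h : G,
      F (ConjClasses.mk (h * g * h⁻¹)) = F (ConjClasses.mk g) := fun F g h => by rw [mk_conj]
  have cH : ∀ F : ConjClasses H → ℂ, ∀ g h : H,
      F (ConjClasses.mk (h * g * h⁻¹)) = F (ConjClasses.mk g) := fun F g h => by rw [mk_conj]
  set A : G → ℂ := conv (fun x : G => φ (e (ConjClasses.mk x)))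
    (fun x : G => ψ (e (ConjClasses.mk x))) with hA
  set B : H → ℂ := conv (fun x : H => φ (ConjClasses.mk x)) (fun x : H => ψ (ConjClasses.mk x))
    with hB
  have hAc : ∀ g h, A (h * g * h⁻¹) = A g :=
    conv_class _ _ (cG fun K => φ (e K)) (cG fun K => ψ (e K))
  have hBc : ∀ g h, B (h * g * h⁻¹) = B g := conv_class _ _ (cH φ) (cH ψ)
  have hA' : ∀ x y, ConjClasses.mk x = ConjClasses.mk y → A x = A y := by
    intro x y hxy
    rw [ConjClasses.mk_eq_mk_iff_isConj, isConj_iff] at hxy
    obtain ⟨c, rfl⟩ := hxy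
    exact (hAc x c).symm
  have hB' : ∀ x y, ConjClasses.mk x = ConjClasses.mk y → B x = B y := by
    intro x y hxy
    rw [ConjClasses.mk_eq_mk_iff_isConj, isConj_iff] at hxy
    obtain ⟨c, rfl⟩ := hxy
    exact (hBc x c).symm
  have h0 : (fun x : H => A (e.symm (ConjClasses.mk x)).out - B x) = 0 := by
    refine eq_zero_of_char _ (fun g h => ?_) fun W hW => ?_
    · rw [hBc, mk_conj]
    · obtain ⟨V, hV, hVW⟩ := hT.2 W hW
      have h1 : ∑ x : H, A (e.symm (ConjClasses.mk x)).out * W.character x =
          ∑ x : G, A x * V.character x := by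
        have h2 := sum_eq hT (fun K => A (e.symm K).out * chr W K)
        rw [Finset.sum_congr rfl fun x _ => by rw [chr_mk]] at h2
        rw [h2]
        refine Finset.sum_congr rfl fun x _ => ?_
        rw [Equiv.symm_apply_apply, ← chr_eq hVW, chr_mk, hA' _ x (mk_out _)]
      have h3 := sum_conv V hV (fun x : G => φ (e (ConjClasses.mk x)))
        (fun x : G => ψ (e (ConjClasses.mk x))) (cG fun K => φ (e K)) (cG fun K => ψ (e K))
      have h4 := sum_conv W hW (fun x : H => φ (ConjClasses.mk x))
        (fun x : H => ψ (ConjClasses.mk x)) (cH φ) (cH ψ)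
      have h5 : ∀ F : ConjClasses H → ℂ, ∑ x : G, F (e (ConjClasses.mk x)) * V.character x =
          ∑ x : H, F (ConjClasses.mk x) * W.character x := by
        intro F
        have h2 := sum_eq hT (fun K => F K * chr W K)
        rw [Finset.sum_congr rfl fun x _ => by rw [chr_mk]] at h2
        rw [h2]
        refine Finset.sum_congr rfl fun x _ => ?_
        rw [← chr_eq hVW, chr_mk]
      rw [h5 φ, h5 ψ, ← h4, char_one_eq hT hVW] at h3
      obtain ⟨n, hn, hn'⟩ := char_one_pos W hW
      have hn0 : W.character 1 ≠ 0 := by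
        rw [hn']
        exact_mod_cast hn.ne'
      have h6 := mul_right_cancel₀ hn0 h3
      simp only [sub_mul, Finset.sum_sub_distrib]
      rw [h1, h6, sub_self]
  have h1 := congrFun h0 h
  simp only [Pi.zero_apply] at h1
  rw [sub_eq_zero] at h1
  rw [← h1]
  apply hA'
  rw [mk_out, ← hgh, Equiv.symm_apply_apply]

end two

/-! ### the statements without `Fintype` -/

section main

variable {G H : Type} [Group G] [Group H] [Finite G] [Finite H]
  {e : ConjClasses G ≃ ConjClasses H}

theorem card_eq (hT : SameTable e) : Nat.card G = Nat.card H := by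
  have := Fintype.ofFinite G
  have := Fintype.ofFinite H
  rw [Nat.card_eq_fintype_card, Nat.card_eq_fintype_card]
  exact (cs_e_one hT).2.1

theorem map_one (hT : SameTable e) : e (ConjClasses.mk 1) = ConjClasses.mk 1 := by
  have := Fintype.ofFinite G
  have := Fintype.ofFinite H
  exact e_one hT

theorem card_class (hT : SameTable e) (K : ConjClasses G) : cs (e K) = cs K := by
  have := Fintype.ofFinite G
  have := Fintype.ofFinite H
  exact cs_eq hT K

/-- the class multiplication constants agree -/
theorem struct_eq (hT : SameTable e) (K L : ConjClasses G) (g : G) (h : H)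
    (hgh : e (ConjClasses.mk g) = ConjClasses.mk h) :
    Nat.card {x : G // ConjClasses.mk x = K ∧ ConjClasses.mk (x⁻¹ * g) = L} =
      Nat.card {x : H // ConjClasses.mk x = e K ∧ ConjClasses.mk (x⁻¹ * h) = e L} := by
  classical
  have := Fintype.ofFinite G
  have := Fintype.ofFinite H
  have h1 := conv_eq hT (fun M => if M = e K then 1 else 0) (fun M => if M = e L then 1 else 0)
    g h hgh
  unfold conv at h1
  simp only [EmbeddingLike.apply_eq_iff_eq, mul_ite, mul_one, mul_zero, ← ite_and] at h1
  rw [Finset.sum_boole, Finset.sum_boole] at h1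
  have h2 : (Finset.univ.filter fun x : G => ConjClasses.mk (x⁻¹ * g) = L ∧ ConjClasses.mk x = K).card =
      (Finset.univ.filter fun x : H =>
        ConjClasses.mk (x⁻¹ * h) = e L ∧ ConjClasses.mk x = e K).card := by
    exact_mod_cast h1
  rw [Nat.card_eq_fintype_card, Nat.card_eq_fintype_card, Fintype.card_subtype,
    Fintype.card_subtype]
  simp only [and_comm (a := ConjClasses.mk _ = K), and_comm (a := ConjClasses.mk _ = e K)]
  exact h2

end main

end SYL2
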