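import Pool.Agent.SYL2.P3b
import Pool.Agent.SYL2.N7
import Pool.Agent.SYL2.N8
import Pool.Agent.SYL2.C1
import Pool.Agent.SYL2.C5
import Pool.Agent.SYL2.C6
import Pool.Agent.SYL2.C7
import Pool.Agent.SYL2.C8
import Pool.Agent.SYL2.C9
import Pool.Agent.SYL2.C10
import Pool.Agent.SYL2.T1
import Pool.Agent.SYL2.T2
import Pool.Agent.SYL2.B1b

set_option autoImplicit false

/-! # SYL2, row Z (helper47): assembly -/

namespace SYL2

section grp

variable {p : ℕ} {G : Type} [Group G]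

/-- class two from the quadratic action. -/
theorem cl2_of_hq [Fact p.Prime] [Finite G] {V K D S : Subgroup G} (cfg : GCfg p V K D S)
    (hq : ∀ v ∈ V, ∀ s ∈ S, ∀ t ∈ S, t * (v * s * v⁻¹ * s⁻¹) = (v * s * v⁻¹ * s⁻¹) * t) :
    Cl2 p G := by
  obtain ⟨P, hP⟩ := cfg.VS
  have hVn := cfg.Vn
  -- elements of `P`
  have hmem : ∀ x ∈ P, ∃ v ∈ V, ∃ s ∈ S, v * s = x := by
    intro x hx
    have : x ∈ V ⊔ S := by rw [← hP]; exact hx
    exact Subgroup.mem_sup_of_normal_left.1 this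
  -- an element of `V` commuting with `S` commutes with `P`
  have hcen : ∀ w ∈ V, (∀ t ∈ S, t * w = w * t) → ∀ z ∈ P, w * z = z * w := by
    intro w hw hwS z hz
    obtain ⟨v, hv, s, hs, rfl⟩ := hmem z hz
    calc w * (v * s) = (w * v) * s := by group
      _ = (v * w) * s := by rw [cfg.Vab w hw v hv]
      _ = v * (w * s) := by group
      _ = v * (s * w) := by rw [hwS s hs]
      _ = v * s * w := by group
  have hVc : ∀ v ∈ V, ∀ s : G, v * s * v⁻¹ * s⁻¹ ∈ V := by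
    intro v hv s
    have h1 := V.mul_mem hv (hVn.conj_mem _ (V.inv_mem hv) s)
    have e : v * s * v⁻¹ * s⁻¹ = v * (s * v⁻¹ * s⁻¹) := by group
    rw [e]; exact h1
  refine cl2_of_one P fun x hx y hy z hz => ?_
  obtain ⟨v, hv, s, hs, rfl⟩ := hmem x hx
  obtain ⟨w, hw, t, ht, rfl⟩ := hmem y hy
  have hst := cfg.Sab s hs t ht
  have e : v * s * (w * t) * (v * s)⁻¹ * (w * t)⁻¹ =
      (v * t * v⁻¹ * t⁻¹) * (w * s * w⁻¹ * s⁻¹)⁻¹ := by
    have e1 : v * s * (w * t) * (v * s)⁻¹ * (w * t)⁻¹ =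
        v * (s * w * s⁻¹) * (s * t * s⁻¹) * v⁻¹ * t⁻¹ * w⁻¹ := by group
    have e2 : s * t * s⁻¹ = t := by rw [hst]; group
    have h1 : s * w * s⁻¹ ∈ V := hVn.conj_mem _ hw s
    have h2 : t * v⁻¹ * t⁻¹ ∈ V := hVn.conj_mem _ (V.inv_mem hv) t
    have e3 : v * (s * w * s⁻¹) * t * v⁻¹ * t⁻¹ * w⁻¹ =
        v * ((s * w * s⁻¹) * (t * v⁻¹ * t⁻¹)) * w⁻¹ := by group
    have e4 : (v * t * v⁻¹ * t⁻¹) * (w * s * w⁻¹ * s⁻¹)⁻¹ =
        v * ((t * v⁻¹ * t⁻¹) * (s * w * s⁻¹)) * w⁻¹ := by group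
    rw [e1, e2, e3, e4, cfg.Vab _ h1 _ h2]
  have c1 : ∀ r ∈ S, r * (v * t * v⁻¹ * t⁻¹) = (v * t * v⁻¹ * t⁻¹) * r :=
    fun r hr => hq v hv t ht r hr
  have c2 : ∀ r ∈ S, r * (w * s * w⁻¹ * s⁻¹)⁻¹ = (w * s * w⁻¹ * s⁻¹)⁻¹ * r := by
    intro r hr
    have h1 := hq w hw s hs r hr
    rw [eq_inv_mul_iff_mul_eq, ← mul_assoc, ← h1]
    group
  have hcV : (v * t * v⁻¹ * t⁻¹) * (w * s * w⁻¹ * s⁻¹)⁻¹ ∈ V :=
    V.mul_mem (hVc v hv t) (V.inv_mem (hVc w hw s))
  rw [e]
  exact hcen _ hcV (fun r hr =>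
    (show Commute r _ from c1 r hr).mul_right (show Commute r _ from c2 r hr)) z hz

theorem hq_of_cl2 [Fact p.Prime] [Finite G] {V K D S : Subgroup G} (cfg : GCfg p V K D S)
    (h : Cl2 p G) :
    ∀ v ∈ V, ∀ s ∈ S, ∀ t ∈ S, t * (v * s * v⁻¹ * s⁻¹) = (v * s * v⁻¹ * s⁻¹) * t := by
  obtain ⟨P, hP⟩ := cfg.VS
  have hV : ∀ v ∈ V, v ∈ P := fun v hv => by
    rw [← SetLike.mem_coe, ← Sylow.coe_coe, SetLike.mem_coe, hP]
    exact Subgroup.mem_sup_left hv
  have hS : ∀ v ∈ S, v ∈ P := fun v hv => by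
    rw [← SetLike.mem_coe, ← Sylow.coe_coe, SetLike.mem_coe, hP]
    exact Subgroup.mem_sup_right hv
  intro v hv s hs t ht
  exact (h P v (hV v hv) s (hS s hs) t (hS t ht)).symm

end grp

section bridgeuse

variable {p : ℕ} {G W : Type} [Group G] [AddCommGroup W] [Module (ZMod p) W]
  {V : Subgroup G} (ρ : Representation (ZMod p) G W) (φ : W ≃ V)
  (h1 : ∀ a b, φ (a + b) = φ a * φ b) (h2 : ∀ g a, (φ (ρ g a) : G) = g * φ a * g⁻¹)

include h1 in
theorem phi_zero : φ 0 = 1 := by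
  have := h1 0 0
  rw [add_zero] at this
  exact left_eq_mul.1 this

include h1 in
theorem phi_sub (a b : W) : φ (a - b) = φ a * (φ b)⁻¹ := by
  rw [eq_mul_inv_iff_mul_eq, ← h1, sub_add_cancel]

include h1 h2 in
theorem phi_comm (g : G) (s : G) (a : W) :
    ρ g (a - ρ s a) = a - ρ s a ↔
      g * ((φ a : G) * s * (φ a : G)⁻¹ * s⁻¹) = ((φ a : G) * s * (φ a : G)⁻¹ * s⁻¹) * g := by
  have e1 : (φ (a - ρ s a) : G) = (φ a : G) * s * (φ a : G)⁻¹ * s⁻¹ := by
    rw [phi_sub φ h1, Subgroup.coe_mul, Subgroup.coe_inv, h2]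
    group
  rw [← e1]
  constructor
  · intro h
    have h3 := h2 g (a - ρ s a)
    rw [h] at h3
    rw [eq_mul_inv_iff_mul_eq] at h3
    exact h3.symm
  · intro h
    apply φ.injective
    apply Subtype.ext
    rw [h2, h]
    group

include h1 h2 in
theorem quad_iff_hq {S : Subgroup G} : Quad ρ S ⊤ ↔
    ∀ v ∈ V, ∀ s ∈ S, ∀ t ∈ S, t * (v * s * v⁻¹ * s⁻¹) = (v * s * v⁻¹ * s⁻¹) * t := by
  constructor
  · intro h v hv s hs t ht
    obtain ⟨a, ha⟩ := φ.surjective ⟨v, hv⟩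
    have h3 := (phi_comm ρ φ h1 h2 t s a).1 ?_
    · rw [ha] at h3
      exact h3
    · have h4 := h s hs t ht a Submodule.mem_top
      simp only [LinearMap.sub_apply, Module.End.one_apply] at h4
      have h5 : ρ t (ρ s a - a) = ρ s a - a := sub_eq_zero.1 h4
      have e : a - ρ s a = -(ρ s a - a) := by abel
      rw [e, map_neg, h5]
  · intro h s hs t ht a _
    have h3 := (phi_comm ρ φ h1 h2 t s a).2 (h (φ a) (φ a).2 s hs t ht)
    simp only [LinearMap.sub_apply, Module.End.one_apply]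
    have e : ρ s a - a = -(a - ρ s a) := by abel
    rw [e, map_neg, h3, sub_self]

end bridgeuse

section side

variable {p : ℕ} [Fact p.Prime] {G H : Type} [Group G] [Group H] [Finite G] [Finite H]

/-- Condition (*) for the module of the other side. -/
theorem star_module (c : CAI G H) {V K D S : Subgroup G} {V' K' D' S' : Subgroup H}
    (cfg : GCfg p V K D S) (cfg' : GCfg p V' K' D' S') (hcl : Cl2 p G)
    {W : Type} [AddCommGroup W] [Module (ZMod p) W]
    (ρ : Representation (ZMod p) H W) (φ : W ≃ V')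
    (h1 : ∀ a b, φ (a + b) = φ a * φ b) (h2 : ∀ g a, (φ (ρ g a) : H) = g * φ a * g⁻¹) :
    Star ρ D' S' ⊤ := by
  intro s hs a _
  have h3 := star_grp c cfg cfg' hcl hs (φ a).2
  have e1 : (φ (ρ s a - a) : H) = s * (φ a : H) * s⁻¹ * (φ a : H)⁻¹ := by
    rw [phi_sub φ h1, Subgroup.coe_mul, Subgroup.coe_inv, h2]
  rw [← e1] at h3
  obtain ⟨d, hd, h4⟩ := conj_fix cfg' (φ (ρ s a - a)).2 h3
  refine ⟨d, hd, fun t ht => ?_⟩
  apply φ.injective
  apply Subtype.ext
  rw [h2, h4 t ht]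
  group

/-- orders: `|D| = |D'|` -/
theorem card_D_eq (c : CAI G H) {V K D S : Subgroup G} {V' K' D' S' : Subgroup H}
    (cfg : GCfg p V K D S) (cfg' : GCfg p V' K' D' S') : Nat.card D = Nat.card D' := by
  have hV : c.im V = V' := by rw [cfg.VA, c.im_Ac, ← cfg'.VA]
  have hcV : Nat.card V' = Nat.card V := by rw [← hV, c.card_im cfg.Vn]
  have hB : c.im (V ⊔ D) = V' ⊔ D' := by
    rw [cfg.VD, c.im_OqR p cfg.Vn, hV, ← cfg'.VD]
  have hBn : (V ⊔ D).Normal := by rw [cfg.VD]; exact OqR_normal V cfg.Vn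
  have hcB : Nat.card ↥(V' ⊔ D') = Nat.card ↥(V ⊔ D) := by rw [← hB, c.card_im hBn]
  have key : ∀ {G : Type} [Group G] [Finite G] {V K D S : Subgroup G},
      GCfg p V K D S → Nat.card ↥(V ⊔ D) = Nat.card V * Nat.card D := by
    intro G _ _ V K D S cfg
    have hdis : V ⊓ D = ⊥ := by
      rw [eq_bot_iff]
      intro x hx
      have h1 : x ∈ V ⊓ K := ⟨hx.1, cfg.DK hx.2⟩
      rw [cfg.compl.disjoint.eq_bot] at h1
      exact h1
    have := cfg.Vn
    have h1 : V.relIndex (V ⊔ D) = Nat.card D := by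
      rw [Subgroup.relIndex_sup_left, ← Subgroup.inf_relIndex_right, hdis,
        Subgroup.relIndex_bot_left]
    rw [← card_mul_relIndex (le_sup_left : V ≤ V ⊔ D), h1]
  rw [key cfg, key cfg', hcV] at hcB
  exact (Nat.eq_of_mul_eq_mul_left Nat.card_pos hcB).symm

/-- `|P| = |Q|` etc.: if `S` is trivial then `H` has abelian Sylow subgroups. -/
theorem cl2_of_S_bot (c : CAI G H) {V K D S : Subgroup G} {V' K' D' S' : Subgroup H}
    (cfg : GCfg p V K D S) (cfg' : GCfg p V' K' D' S') (hS : S = ⊥) : Cl2 p H := by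
  have hV : c.im V = V' := by rw [cfg.VA, c.im_Ac, ← cfg'.VA]
  have hcV : Nat.card V' = Nat.card V := by rw [← hV, c.card_im cfg.Vn]
  obtain ⟨P, hP⟩ := cfg.VS
  obtain ⟨Q, hQ⟩ := cfg'.VS
  rw [hS, sup_bot_eq] at hP
  have hPQ : Nat.card P = Nat.card Q := by
    rw [Sylow.card_eq_multiplicity, Sylow.card_eq_multiplicity, c.card_eq]
  have hle : V' ≤ (Q : Subgroup H) := by rw [hQ]; exact le_sup_left
  have hPV : Nat.card P = Nat.card V := by
    show Nat.card (P : Subgroup G) = _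
    rw [hP]
  have hcard : Nat.card (Q : Subgroup H) = Nat.card V' := by
    rw [hcV, ← hPV, hPQ]
  have heq : V' = (Q : Subgroup H) :=
    Subgroup.eq_of_le_of_card_ge hle hcard.le
  refine cl2_of_one Q fun x hx y hy z hz => ?_
  have hx' : x ∈ V' := by rw [heq]; exact hx
  have hy' : y ∈ V' := by rw [heq]; exact hy
  have e : x * y * x⁻¹ * y⁻¹ = 1 := by
    rw [cfg'.Vab x hx' y hy']; group
  rw [e, one_mul, mul_one]


/-- the set of elements of `V` commuting with `s`, through the module. -/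
theorem cc_eq_fix {G : Type} [Group G] {V : Subgroup G} {W : Type} [AddCommGroup W]
    [Module (ZMod p) W] (ρ : Representation (ZMod p) G W) (φ : W ≃ V)
    (h2 : ∀ g a, (φ (ρ g a) : G) = g * φ a * g⁻¹) (s : G) :
    cc V s = Nat.card ↥((⊤ : Submodule (ZMod p) W) ⊓ LinearMap.ker (ρ s - 1)) := by
  unfold cc
  refine Nat.card_congr (φ.symm.subtypeEquiv fun v => ?_)
  rw [top_inf_eq, LinearMap.mem_ker, LinearMap.sub_apply, Module.End.one_apply, sub_eq_zero]
  constructor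
  · intro h
    apply φ.injective
    apply Subtype.ext
    rw [h2, Equiv.apply_symm_apply, h]
    group
  · intro h
    have h3 := h2 s (φ.symm v)
    rw [h, Equiv.apply_symm_apply, eq_mul_inv_iff_mul_eq] at h3
    exact h3.symm

/-- the case `p ≥ 5` or `p = 3` on the class two side. -/
theorem odd_side {V K D S : Subgroup G} (cfg : GCfg p V K D S) (h : Cl2 p G) (hp : p ≠ 2)
    (hS : S ≠ ⊥) : p = 3 ∧ ∀ s ∈ S, ∀ x ∈ D, (s⁻¹ * x⁻¹ * s * x) ^ 4 = 1 := by
  have hq := hq_of_cl2 cfg h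
  obtain ⟨hV, hSe⟩ := quad_exp cfg hq hS
  obtain ⟨W, i1, i2, i3, ρ, φ, h1, h2, mc⟩ := bridge cfg hV hSe
  have hquad : Quad ρ S ⊤ := (quad_iff_hq ρ φ h1 h2).2 hq
  have ht : ∀ s ∈ S, ∀ x ∈ D, (5 ≤ p → s⁻¹ * x⁻¹ * s * x = 1) ∧
      (p = 3 → (s⁻¹ * x⁻¹ * s * x) ^ 4 = 1) := by
    intro s hs x hx
    exact tau ρ cfg.Dcop hp (hSe s hs) (fun d hd => cfg.Dn s (cfg.SK hs) d hd)
      (fun w => hquad s hs s hs w Submodule.mem_top)
      (fun d hd hw => mc.inj d (cfg.DK hd) hw) hx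
  have hp2 : 2 ≤ p := (Fact.out : p.Prime).two_le
  have hp4 : p ≠ 4 := by
    rintro rfl
    exact absurd (Fact.out : Nat.Prime 4) (by norm_num)
  by_cases h5 : 5 ≤ p
  · exfalso
    apply hS
    rw [eq_bot_iff]
    intro s hs
    rw [Subgroup.mem_bot]
    refine cfg.Sfaith s hs fun d hd => ?_
    have h3 := (ht s hs d hd).1 h5
    have e : s * d = d * s * (s⁻¹ * d⁻¹ * s * d) := by group
    rw [e, h3, mul_one]
  · have hp3 : p = 3 := by omega
    exact ⟨hp3, fun s hs x hx => (ht s hs x hx).2 hp3⟩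


/-- final step for odd `p`. -/
theorem odd_case (c : CAI G H) {V K D S : Subgroup G} {V' K' D' S' : Subgroup H}
    (cfg : GCfg p V K D S) (cfg' : GCfg p V' K' D' S') (h : Cl2 p G) (hp : p ≠ 2) :
    Cl2 p H := by
  by_cases hS : S = ⊥
  · exact cl2_of_S_bot c cfg cfg' hS
  obtain ⟨hp3, h4⟩ := odd_side cfg h hp hS
  subst hp3
  obtain ⟨hV, hSe⟩ := quad_exp cfg (hq_of_cl2 cfg h) hS
  obtain ⟨hV', hSe'⟩ := exp_transfer c cfg cfg' hV hSe
  obtain ⟨W, i1, i2, i3, ρ, φ, h1, h2, mc⟩ := bridge cfg' hV' hSe'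
  obtain ⟨β, -, hβ⟩ := exists_beta c cfg cfg'
  have hst := star_module c cfg cfg' h ρ φ h1 h2
  have hidx : ∀ s ∈ S', ∃ m, Nat.card D' = 2 ^ m * cc D' s := by
    intro s hs
    obtain ⟨⟨t, ht⟩, hts⟩ := β.surjective ⟨s, hs⟩
    obtain ⟨m, hm⟩ := index_two_power cfg.Dcop (hSe t ht)
      (fun d hd => cfg.Dn t (cfg.SK ht) d hd) (h4 t ht)
    refine ⟨m, ?_⟩
    have h5 := hβ ⟨t, ht⟩
    rw [hts] at h5
    rw [← card_D_eq c cfg cfg', hm]
    exact congrArg _ h5
  exact cl2_of_hq cfg' ((quad_iff_hq ρ φ h1 h2).1 (quad_three ρ mc hst hidx))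

end side

section two

variable {G H : Type} [Group G] [Group H] [Finite G] [Finite H]

/-- final step for `p = 2`. -/
theorem two_case (c : CAI G H) {V K D S : Subgroup G} {V' K' D' S' : Subgroup H}
    (cfg : GCfg 2 V K D S) (cfg' : GCfg 2 V' K' D' S') (h : Cl2 2 G)
    (hsol : Group.IsSolvable G) : Cl2 2 H := by
  by_cases hS : S = ⊥
  · exact cl2_of_S_bot c cfg cfg' hS
  have hq := hq_of_cl2 cfg h
  obtain ⟨hV, hSe⟩ := quad_exp cfg hq hS
  obtain ⟨hV', hSe'⟩ := exp_transfer c cfg cfg' hV hSe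
  obtain ⟨W, i1, i2, i3, ρ, φ, h1, h2, mc⟩ := bridge cfg hV hSe
  obtain ⟨W', j1, j2, j3, ρ', φ', h1', h2', mc'⟩ := bridge cfg' hV' hSe'
  obtain ⟨β, hβ1, -⟩ := exists_beta c cfg cfg'
  have hst := star_module c cfg cfg' h ρ' φ' h1' h2'
  have hsolD : Group.IsSolvable D := inferInstance
  have hsolH : Group.IsSolvable H := c.solvable hsol
  have hsolD' : Group.IsSolvable D' := inferInstance
  have hg := g_two ρ mc hsolD ((quad_iff_hq ρ φ h1 h2).2 hq)
  have hVim : c.im V = V' := by rw [cfg.VA, c.im_Ac, ← cfg'.VA]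
  have hcV : Nat.card V' = Nat.card V := by rw [← hVim, c.card_im cfg.Vn]
  have hcW : Nat.card W = Nat.card V := Nat.card_congr φ
  have hcW' : Nat.card W' = Nat.card V' := Nat.card_congr φ'
  have hfr : Module.finrank (ZMod 2) W = Module.finrank (ZMod 2) W' := by
    have e1 := Module.natCard_eq_pow_finrank (K := ZMod 2) (V := W)
    have e2 := Module.natCard_eq_pow_finrank (K := ZMod 2) (V := W')
    rw [hcW, ← hcV, ← hcW', e2, Nat.card_zmod] at e1
    exact (Nat.pow_right_injective le_rfl e1).symm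
  have hrk : ∀ s : S, rk ρ (s : G) ⊤ = rk ρ' (β s : H) ⊤ := by
    intro s
    have e1 := rk_add_fix (ρ := ρ) (s : G) ⊤
    have e2 := rk_add_fix (ρ := ρ') (β s : H) ⊤
    have e3 := cc_eq_of_relV c cfg cfg' s.2 (β s).2 (hβ1 s)
    have f1 := Module.natCard_eq_pow_finrank (K := ZMod 2)
      (V := ↥((⊤ : Submodule (ZMod 2) W) ⊓ LinearMap.ker (ρ (s : G) - 1)))
    have f2 := Module.natCard_eq_pow_finrank (K := ZMod 2)
      (V := ↥((⊤ : Submodule (ZMod 2) W') ⊓ LinearMap.ker (ρ' (β s : H) - 1)))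
    rw [Nat.card_zmod] at f1 f2
    rw [cc_eq_fix ρ φ h2, cc_eq_fix ρ' φ' h2', f1, f2] at e3
    have e4 := Nat.pow_right_injective le_rfl e3
    rw [finrank_top] at e1 e2
    omega
  have hcS : Nat.card S = Nat.card S' := Nat.card_congr β
  have hsum : ∑ᶠ s : S, rk ρ (s : G) ⊤ = ∑ᶠ s : S', rk ρ' (s : H) ⊤ := by
    rw [← finsum_comp_equiv β]
    exact finsum_congr hrk
  rw [hsum, hcS, hfr] at hg
  exact cl2_of_hq cfg' ((quad_iff_hq ρ' φ' h1' h2').1 (h_two ρ' mc' hsolD' hst hg))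

end two

section final

theorem main_aux {p : ℕ} [Fact p.Prime] (n : ℕ) : ∀ {G H : Type} [Group G] [Group H] [Finite G]
    [Finite H] (c : CAI G H) (hs : PS p G) (h2 : p = 2 → Group.IsSolvable G) (h : Cl2 p G),
    Nat.card G ≤ n → Cl2 p H := by
  induction n with
  | zero =>
    intro G H _ _ _ _ c hs h2 h hn
    exact absurd hn (by have := Nat.card_pos (α := G); omega)
  | succ n ih =>
    intro G H _ _ _ _ c hs h2 h hn
    -- quotients
    have hquot : ∀ (M : Subgroup G) (hM : M.Normal), M ≠ ⊥ → ∀ (hM' : (c.im M).Normal),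
        Cl2 p (H ⧸ c.im M) := by
      intro M hM hMb hM'
      obtain ⟨c', -⟩ := c.quot M
      refine ih c' (ps_quot hs M) (fun hp => ?_) (cl2_quot h M) ?_
      · have := h2 hp
        infer_instance
      · have h3 := Subgroup.card_mul_index M
        have h4 : 2 ≤ Nat.card M := by
          by_contra hlt
          apply hMb
          rw [← Subgroup.card_eq_one]
          have := Nat.card_pos (α := M)
          omega
        have h5 : Nat.card (G ⧸ M) = M.index := rfl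
        have h6 : 0 < M.index := Nat.pos_of_ne_zero (Subgroup.index_ne_zero_of_finite)
        rw [h5]
        nlinarith
    by_cases ho : OqR p (⊥ : Subgroup G) = ⊥
    swap
    · have hN := OqR_normal (p := p) (⊥ : Subgroup G) inferInstance
      have hN' := c.im_normal hN
      refine cl2_of_quot (c.im (OqR p ⊥)) ?_ (hquot _ hN ho hN')
      rw [c.card_im hN]
      have h3 := OqR_relIndex (p := p) (⊥ : Subgroup G) inferInstance
      rwa [Subgroup.relIndex_bot_left] at h3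
    by_cases hm : Mono G
    swap
    · unfold Mono at hm
      push Not at hm
      obtain ⟨N, M, hN, hM, hNM, hN0, hM0⟩ := hm
      have hN' := c.im_normal hN
      have hM' := c.im_normal hM
      refine cl2_of_two (c.im N) (c.im M) ?_ (hquot N hN hN0 hN') (hquot M hM hM0 hM')
      rw [← c.im_inf hN hM, hNM, c.im_bot]
    -- now the configuration
    have hAn : (Ac p G).Normal := Ac_normal
    have hab : ∀ P : Sylow p G, ∀ x ∈ P, ∀ y ∈ P, x * y * x⁻¹ * y⁻¹ ∈ Ac p G := by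
      intro P x hx y hy
      refine center_le_Ac hs ho P ?_ fun z hz => h P x hx y hy z hz
      exact mul_mem (mul_mem (mul_mem hx hy) (inv_mem hx)) (inv_mem hy)
    have hAn' := c.im_normal hAn
    have hab' : ∀ Q : Sylow p H, ∀ x ∈ Q, ∀ y ∈ Q, x * y * x⁻¹ * y⁻¹ ∈ Ac p H := by
      obtain ⟨c', -⟩ := c.quot (Ac p G)
      have h3 := absyl_vis c' (ps_quot hs _) ((absyl_quot_iff (Ac p G)).2 hab)
      have h4 := (absyl_quot_iff (c.im (Ac p G))).1 h3
      rwa [c.im_Ac] at h4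
    have hs' : PS p H := c.ps hs
    have ho' : OqR p (⊥ : Subgroup H) = ⊥ := by
      have h3 := c.im_OqR p (A := ⊥) inferInstance
      rw [ho, c.im_bot] at h3
      exact h3.symm
    have hm' : Mono H := c.mono hm
    have hBB : c.im (OqR p (Ac p G)) = OqR p (Ac p H) := by
      rw [c.im_OqR p hAn, c.im_Ac]
    by_cases hB : OqR p (Ac p G) = Ac p G
    · have hB' : OqR p (Ac p H) = Ac p H := by
        rw [← hBB, hB, c.im_Ac]
      intro Q x hx y hy z hz
      have hQ := sylow_normal_of_eq hs' ho' hab' hB' Q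
      refine Ac_comm (hab' Q x hx y hy) ?_
      rw [← hQ]
      exact hz
    · have hB' : OqR p (Ac p H) ≠ Ac p H := by
        intro h3
        apply hB
        rw [← hBB, ← c.im_Ac] at h3
        exact c.im_inj (OqR_normal _ hAn) hAn h3
      obtain ⟨K, D, S, cfg⟩ := exists_cfg hs ho hm hab hB
      obtain ⟨K', D', S', cfg'⟩ := exists_cfg hs' ho' hm' hab' hB'
      by_cases hp : p = 2
      · subst hp
        exact two_case c cfg cfg' h (h2 rfl)
      · exact odd_case c cfg cfg' h hp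

theorem main {p : ℕ} [Fact p.Prime] {G H : Type} [Group G] [Group H] [Finite G] [Finite H]
    (c : CAI G H) (hs : PS p G) (h2 : p = 2 → Group.IsSolvable G) (h : Cl2 p G) : Cl2 p H :=
  main_aux (Nat.card G) c hs h2 h le_rfl

end final

end SYL2
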